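import Pool.Agent.MP_3f0e22_ag.Defs

/-! # The closure operator `acl` and the relation `Bd` -/

set_option autoImplicit false

namespace Pool.Agent.MP_3f0e22_ag

variable {K E : Type*} [Field K] [Field E] [Algebra K E]

theorem mem_acl {S : Set E} {x : E} :
    x ∈ acl K S ↔ IsAlgebraic (IntermediateField.adjoin K S) x := by
  rw [acl, IntermediateField.mem_restrictScalars, mem_algebraicClosure_iff]

theorem subset_acl (S : Set E) : S ⊆ acl K S := by
  intro x hx
  rw [SetLike.mem_coe, mem_acl]
  exact isAlgebraic_algebraMap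
    (⟨x, IntermediateField.subset_adjoin K S hx⟩ : IntermediateField.adjoin K S)

theorem acl_mono {S T : Set E} (h : S ⊆ T) : acl K S ≤ acl K T := by
  intro x hx
  rw [mem_acl] at hx ⊢
  have h1 : IntermediateField.adjoin K S ≤ IntermediateField.adjoin K T :=
    IntermediateField.adjoin.mono K S T h
  letI : Algebra (IntermediateField.adjoin K S) (IntermediateField.adjoin K T) :=
    (IntermediateField.inclusion h1).toAlgebra
  haveI : IsScalarTower (IntermediateField.adjoin K S) (IntermediateField.adjoin K T) E :=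
    IsScalarTower.of_algebraMap_eq fun _ => rfl
  exact hx.tower_top _

/-- `acl` is idempotent. -/
theorem acl_le {S T : Set E} (h : S ⊆ acl K T) : acl K S ≤ acl K T := by
  intro x hx
  rw [mem_acl] at hx
  have h1 : IntermediateField.adjoin K S ≤ acl K T := IntermediateField.adjoin_le_iff.2 h
  -- x is algebraic over `acl K T`, which is algebraic over `K(T)`
  have h2 : IsAlgebraic (algebraicClosure (IntermediateField.adjoin K T) E) x := by
    letI : Algebra (IntermediateField.adjoin K S)
        (algebraicClosure (IntermediateField.adjoin K T) E) :=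
      (IntermediateField.inclusion h1).toRingHom.toAlgebra
    haveI : IsScalarTower (IntermediateField.adjoin K S)
        (algebraicClosure (IntermediateField.adjoin K T) E) E :=
      IsScalarTower.of_algebraMap_eq fun _ => rfl
    exact hx.tower_top _
  rw [mem_acl]
  haveI : Algebra.IsAlgebraic (IntermediateField.adjoin K T)
      (algebraicClosure (IntermediateField.adjoin K T) E) := inferInstance
  exact IsAlgebraic.restrictScalars _ h2

theorem Bd.mono {B B' A A' : Set E} {n n' : ℕ} (h : Bd K B A n) (hB : B ⊆ acl K B')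
    (hA : A' ⊆ acl K (B ∪ A)) (hn : n ≤ n') : Bd K B' A' n' := by
  obtain ⟨T, h1, h2⟩ := h
  refine ⟨T, h1.trans hn, ?_⟩
  have h3 : acl K (B ∪ T) ≤ acl K (B' ∪ T) := by
    refine acl_le (Set.union_subset ?_ ?_)
    · exact hB.trans (acl_mono Set.subset_union_left)
    · exact Set.subset_union_right.trans (subset_acl _)
  refine hA.trans ((acl_le (Set.union_subset ?_ ?_) : acl K (B ∪ A) ≤ acl K (B' ∪ T)))
  · exact (Set.subset_union_left.trans (subset_acl _)).trans h3
  · exact h2.trans h3

theorem Bd.trans {B A₁ A₂ : Set E} {n₁ n₂ : ℕ} (h₁ : Bd K B A₁ n₁) (h₂ : Bd K (B ∪ A₁) A₂ n₂) :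
    Bd K B (A₁ ∪ A₂) (n₁ + n₂) := by
  classical
  obtain ⟨T₁, h1, h2⟩ := h₁
  obtain ⟨T₂, h3, h4⟩ := h₂
  have hT : (↑(T₁ ∪ T₂) : Set E) = ↑T₁ ∪ ↑T₂ := by simp
  refine ⟨T₁ ∪ T₂, (Finset.card_union_le _ _).trans (by omega), ?_⟩
  have h5 : A₁ ⊆ acl K (B ∪ ↑(T₁ ∪ T₂)) := by
    refine h2.trans (acl_mono ?_)
    rw [hT]
    exact Set.union_subset_union_right _ Set.subset_union_left
  refine Set.union_subset h5 (h4.trans (acl_le ?_ : acl K (B ∪ A₁ ∪ T₂) ≤ _))
  refine Set.union_subset (Set.union_subset ?_ h5) ?_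
  · exact Set.subset_union_left.trans (subset_acl _)
  · rw [hT]
    exact (Set.subset_union_right.trans Set.subset_union_right).trans (subset_acl _)

theorem Bd.of_subset {B A : Set E} (h : A ⊆ acl K B) : Bd K B A 0 :=
  ⟨∅, by simp, by simpa using h⟩

theorem Bd.of_finset {B : Set E} (T : Finset E) : Bd K B T T.card :=
  ⟨T, le_rfl, Set.subset_union_right.trans (subset_acl _)⟩

end Pool.Agent.MP_3f0e22_ag
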