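import Pool.Agent.MP_3f0e22_ag.Defs2
import Pool.Agent.MP_3f0e22_ag.Acl

/-! # MP_3f0e22_ag, version 2, block KRa: embedding in a universal domain -/

set_option autoImplicit false

open Matrix MvPolynomial

namespace Pool.Agent.MP_3f0e22_ag.KRa

open Pool.Agent.MP_3f0e22_ag

section

variable {K E : Type*} [Field K] [Field E] [Algebra K E]

theorem acl_eq_closure (S : Set E) :
    (acl K S : Set E) = (AlgebraicIndependent.matroid K E).closure S := by
  rw [AlgebraicIndependent.matroid_closure_eq]
  ext x
  rw [SetLike.mem_coe, mem_acl, IntermediateField.isAlgebraic_adjoin_iff, SetLike.mem_coe]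
  rfl

theorem eRk_le_of_Bd {A : Set E} {m : ℕ} (h : Bd K ∅ A m) :
    (AlgebraicIndependent.matroid K E).eRk A ≤ m := by
  obtain ⟨T, h1, h2⟩ := h
  rw [Set.empty_union, acl_eq_closure] at h2
  calc (AlgebraicIndependent.matroid K E).eRk A
      ≤ (AlgebraicIndependent.matroid K E).eRk
          ((AlgebraicIndependent.matroid K E).closure (T : Set E)) := Matroid.eRk_mono _ h2
    _ = (AlgebraicIndependent.matroid K E).eRk (T : Set E) := Matroid.eRk_closure_eq _ _
    _ ≤ (T : Set E).encard := Matroid.eRk_le_encard _ _
    _ = (T.card : ℕ∞) := Set.encard_coe_eq_coe_finsetCard _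
    _ ≤ m := by exact_mod_cast h1

end

/-- Embedding in a universal domain. -/
theorem exists_univ {K E₀ σ : Type} [Field K] [Field E₀] [Algebra K E₀] [Finite σ] (x : σ → E₀) (n : ℕ)
    (hx : ∀ S : Finset E₀, Set.range x ⊆ acl K (S : Set E₀) → n ≤ S.card) :
    ∃ (E : Type) (_ : Field E) (_ : Algebra K E) (φ : E₀ →ₐ[K] E), IsAlgClosed E ∧ Univ K E ∧
      n ≤ rk K (Set.range fun i => φ (x i)) := by
  classical
  let E := AlgebraicClosure (FractionRing (MvPolynomial ℕ E₀))
  let φ : E₀ →ₐ[K] E := IsScalarTower.toAlgHom K E₀ E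
  have hφ : Function.Injective φ := φ.toRingHom.injective
  refine ⟨E, inferInstance, inferInstance, φ, inferInstance, ?_, ?_⟩
  · -- infinite transcendence degree
    intro A hA
    by_contra hcon
    push Not at hcon
    -- the variables are algebraically independent
    have h1 : AlgebraicIndependent E₀ (fun i : ℕ => (X i : MvPolynomial ℕ E₀)) :=
      MvPolynomial.algebraicIndependent_X ℕ E₀
    have hinj : Function.Injective (algebraMap (MvPolynomial ℕ E₀) E) := by
      rw [IsScalarTower.algebraMap_eq (MvPolynomial ℕ E₀) (FractionRing (MvPolynomial ℕ E₀)) E]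
      exact (algebraMap (FractionRing (MvPolynomial ℕ E₀)) E).injective.comp
        (IsFractionRing.injective _ _)
    have h2 : AlgebraicIndependent E₀
        (fun i : ℕ => algebraMap (MvPolynomial ℕ E₀) E (X i : MvPolynomial ℕ E₀)) := by
      have := h1.map' (f := IsScalarTower.toAlgHom E₀ (MvPolynomial ℕ E₀) E) hinj
      exact this
    have h3 : AlgebraicIndependent K
        (fun i : ℕ => algebraMap (MvPolynomial ℕ E₀) E (X i : MvPolynomial ℕ E₀)) :=
      h2.restrictScalars (algebraMap K E₀).injective
    have h4 : (AlgebraicIndependent.matroid K E).Indep (Set.range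
        (fun i : ℕ => algebraMap (MvPolynomial ℕ E₀) E (X i : MvPolynomial ℕ E₀))) := by
      rw [AlgebraicIndependent.matroid_indep_iff]
      exact h3.coe_range
    have h5 : (AlgebraicIndependent.matroid K E).eRk (Set.univ : Set E) ≤ hA.toFinset.card := by
      apply eRk_le_of_Bd
      refine ⟨hA.toFinset, le_rfl, ?_⟩
      intro y _
      rw [Set.empty_union, Set.Finite.coe_toFinset]
      exact hcon y
    have h6 := h4.encard_le_eRk_of_subset (Set.subset_univ _)
    have h7 : (Set.range (fun i : ℕ => algebraMap (MvPolynomial ℕ E₀) E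
        (X i : MvPolynomial ℕ E₀))).encard = ⊤ := by
      rw [Set.encard_eq_top_iff]
      exact Set.infinite_range_of_injective h3.injective
    rw [h7] at h6
    exact absurd (h6.trans h5) (by simp)
  · -- a transcendence basis of the coordinates
    have hBd : Bd K ∅ (Set.range fun i => φ (x i)) (rk K (Set.range fun i => φ (x i))) := by
      refine Nat.sInf_mem (s := {m | Bd K ∅ (Set.range fun i => φ (x i)) m}) ?_
      have hfin : (Set.range fun i => φ (x i)).Finite := Set.finite_range _
      refine ⟨hfin.toFinset.card, ?_⟩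
      have := Bd.of_finset (K := K) (B := ∅) hfin.toFinset
      rwa [Set.Finite.coe_toFinset] at this
    have h1 := eRk_le_of_Bd hBd
    obtain ⟨J, hJ⟩ := (AlgebraicIndependent.matroid K E₀).exists_isBasis (Set.range x)
    have hJfin : J.Finite := (Set.finite_range x).subset hJ.subset
    have h2 : Set.range x ⊆ acl K ((hJfin.toFinset : Finset E₀) : Set E₀) := by
      rw [Set.Finite.coe_toFinset, acl_eq_closure]
      exact hJ.subset_closure
    have h3 := hx _ h2
    have h4 : (AlgebraicIndependent.matroid K E).Indep (φ '' J) := by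
      rw [AlgebraicIndependent.matroid_indep_iff]
      have h5 : AlgebraicIndepOn K id J := hJ.indep
      have h6 : AlgebraicIndependent K (fun j : J => φ (j : E₀)) := h5.map' (f := φ) hφ
      have h7 := h6.coe_range
      have h8 : Set.range (fun j : J => φ (j : E₀)) = φ '' J := by
        ext y
        simp
      rw [h8] at h7
      exact h7
    have h5 : φ '' J ⊆ Set.range fun i => φ (x i) := by
      rintro y ⟨j, hj, rfl⟩
      obtain ⟨i, rfl⟩ := hJ.subset hj
      exact ⟨i, rfl⟩
    have h6 := (h4.encard_le_eRk_of_subset h5).trans h1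
    rw [hφ.encard_image, ← hJfin.coe_toFinset, Set.encard_coe_eq_coe_finsetCard] at h6
    have h7 : hJfin.toFinset.card ≤ rk K (Set.range fun i => φ (x i)) := by exact_mod_cast h6
    exact h3.trans h7

end Pool.Agent.MP_3f0e22_ag.KRa

namespace Pool.Agent.MP_3f0e22_ag

alias exists_univ := KRa.exists_univ

end Pool.Agent.MP_3f0e22_ag
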