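import Pool.Agent.MP_3f0e22_ag.RK1

/-!
# MP_3f0e22_ag, version 2: the transcendence degree (exchange)
-/

set_option autoImplicit false

open Matrix MvPolynomial

namespace Pool.Agent.MP_3f0e22_ag.RK2

section RK

variable {K E : Type*} [Field K] [Field E] [Algebra K E]

theorem closure_eq (S : Set E) :
    (AlgebraicIndependent.matroid K E).closure S = (acl K S : Set E) := by
  ext x
  rw [AlgebraicIndependent.matroid_closure_eq, SetLike.mem_coe, Subalgebra.mem_algebraicClosure,
    SetLike.mem_coe, mem_acl, IntermediateField.isAlgebraic_adjoin_iff]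

theorem eRk_eq {A : Set E} (hA : A.Finite) :
    (AlgebraicIndependent.matroid K E).eRk A = (rk K A : ℕ∞) := by
  classical
  set M := AlgebraicIndependent.matroid K E with hM
  apply le_antisymm
  · obtain ⟨T, hT, hAT⟩ := RK1.Bd_rk (K := K) hA
    rw [Set.empty_union] at hAT
    have h1 : A ⊆ M.closure T := by rw [hM, closure_eq]; exact hAT
    calc M.eRk A ≤ M.eRk (M.closure T) := M.eRk_mono h1
      _ = M.eRk T := M.eRk_closure_eq _
      _ ≤ (T : Set E).encard := M.eRk_le_encard _
      _ = T.card := Set.encard_coe_eq_coe_finsetCard T
      _ ≤ rk K A := by exact_mod_cast hT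
  · obtain ⟨I, hI⟩ := M.exists_isBasis A
    have hIf : I.Finite := hA.subset hI.subset
    rw [← hI.encard_eq_eRk, hIf.encard_eq_coe_toFinset_card]
    norm_cast
    refine RK1.rk_le ⟨hIf.toFinset, le_rfl, ?_⟩
    rw [Set.empty_union, hIf.coe_toFinset, ← closure_eq]
    exact hI.subset_closure

theorem rk_insert {A : Set E} (hA : A.Finite) {x : E} (hx : x ∉ acl K A) :
    rk K (insert x A) = rk K A + 1 := by
  have h1 : x ∈ (AlgebraicIndependent.matroid K E).E \
      (AlgebraicIndependent.matroid K E).closure A := by
    rw [closure_eq]
    exact ⟨by simp, hx⟩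
  have h2 := Matroid.eRk_insert_eq_add_one h1
  rw [eRk_eq (hA.insert x), eRk_eq hA] at h2
  exact_mod_cast h2

theorem mem_of_isAlgebraic {S : Set E} {y : E} (h : IsAlgebraic (acl K S) y) : y ∈ acl K S := by
  have h4 : IsAlgebraic (algebraicClosure (IntermediateField.adjoin K S) E) y := h
  rw [mem_acl]
  haveI : Algebra.IsAlgebraic (IntermediateField.adjoin K S)
      (algebraicClosure (IntermediateField.adjoin K S) E) := inferInstance
  exact IsAlgebraic.restrictScalars _ h4

/-- A nonzero polynomial relation. -/
theorem Bd.of_poly {B : Set E} {n : ℕ} (x : Fin n → E) (p : MvPolynomial (Fin n) E)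
    (hp : ∀ d, p.coeff d ∈ acl K B) (h0 : p ≠ 0) (h : eval x p = 0) :
    Bd K B (Set.range x) (n - 1) := by
  classical
  set M := AlgebraicIndependent.matroid (acl K B) E with hM
  obtain ⟨I, hI⟩ := M.exists_isBasis (Set.range x)
  have hIf : I.Finite := (Set.finite_range x).subset hI.subset
  refine ⟨hIf.toFinset, ?_, ?_⟩
  · by_contra hcon
    have hcard : hIf.toFinset.card = n := by
      have h1 : hIf.toFinset.card ≤ n := by
        have h2 : hIf.toFinset ⊆ Finset.univ.image x := by
          intro y hy
          rw [Set.Finite.mem_toFinset] at hy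
          obtain ⟨i, hi⟩ := hI.subset hy
          exact Finset.mem_image.2 ⟨i, Finset.mem_univ _, hi⟩
        exact (Finset.card_le_card h2).trans (Finset.card_image_le.trans (by simp))
      omega
    have heq : hIf.toFinset = Finset.univ.image x := by
      refine Finset.eq_of_subset_of_card_le ?_ ?_
      · intro y hy
        rw [Set.Finite.mem_toFinset] at hy
        obtain ⟨i, hi⟩ := hI.subset hy
        exact Finset.mem_image.2 ⟨i, Finset.mem_univ _, hi⟩
      · rw [hcard]
        exact Finset.card_image_le.trans (by simp)
    have hinj : Function.Injective x := by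
      have h1 : (Finset.univ.image x).card = (Finset.univ : Finset (Fin n)).card := by
        rw [← heq, hcard]; simp
      exact fun a b hab => Finset.card_image_iff.1 h1 (by simp) (by simp) hab
    have hIr : I = Set.range x := by
      have := congrArg (fun s : Finset E => (s : Set E)) heq
      simpa using this
    have h1 : AlgebraicIndepOn (acl K B) id I := by
      have := hI.indep
      rwa [hM, AlgebraicIndependent.matroid_indep_iff] at this
    rw [hIr] at h1
    have h2 : AlgebraicIndependent (acl K B) x := (algebraicIndependent_subtype_range hinj).1 h1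
    -- the polynomial has coefficients in `acl K B`
    have h3 : p ∈ Set.range (MvPolynomial.map (σ := Fin n) (algebraMap (acl K B) E)) := by
      rw [MvPolynomial.mem_range_map_iff_coeffs_subset]
      intro c hc
      rw [Finset.mem_coe, MvPolynomial.mem_coeffs_iff] at hc
      obtain ⟨d, _, rfl⟩ := hc
      exact ⟨⟨_, hp d⟩, rfl⟩
    obtain ⟨q, hq⟩ := h3
    have h4 : aeval x q = 0 := by
      rw [← h, ← hq, eval_map, aeval_def, eval₂_eq_eval_map, eval_map]
    have h5 : q = 0 := by
      apply (injective_iff_map_eq_zero _).1 h2
      exact h4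
    exact h0 (by rw [← hq, h5, map_zero])
  · intro y hy
    rw [hIf.coe_toFinset]
    have h1 : y ∈ M.closure I := hI.subset_closure hy
    rw [hM, AlgebraicIndependent.matroid_closure_eq, SetLike.mem_coe,
      Subalgebra.mem_algebraicClosure, ← IntermediateField.isAlgebraic_adjoin_iff] at h1
    have hB : acl K B ≤ acl K (B ∪ I) := acl_mono Set.subset_union_left
    have h2 : IntermediateField.adjoin (acl K B) I ≤ IntermediateField.extendScalars hB := by
      rw [IntermediateField.adjoin_le_iff]
      intro z hz
      have hz' : z ∈ acl K (B ∪ I) := subset_acl _ (Or.inr hz)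
      exact (IntermediateField.mem_extendScalars hB).2 hz'
    have h3 : IsAlgebraic (IntermediateField.extendScalars hB) y := by
      letI : Algebra (IntermediateField.adjoin (acl K B) I) (IntermediateField.extendScalars hB) :=
        (IntermediateField.inclusion h2).toAlgebra
      haveI : IsScalarTower (IntermediateField.adjoin (acl K B) I)
          (IntermediateField.extendScalars hB) E :=
        IsScalarTower.of_algebraMap_eq fun _ => rfl
      exact h1.tower_top _
    rw [SetLike.mem_coe]
    exact mem_of_isAlgebraic h3

end RK

end Pool.Agent.MP_3f0e22_ag.RK2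

namespace Pool.Agent.MP_3f0e22_ag

alias rk_insert := RK2.rk_insert
alias Bd.of_poly := RK2.Bd.of_poly

end Pool.Agent.MP_3f0e22_ag
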