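import Pool.Agent.MP_3f0e22_ag.Gp
import Pool.Agent.MP_3f0e22_ag.KRa
import Pool.Agent.MP_3f0e22_ag.RK2

set_option autoImplicit false

open Matrix MvPolynomial

namespace Pool.Agent.MP_3f0e22_ag.KRb

open Pool.Agent.MP_3f0e22_ag

section

variable {R R' : Type*} [CommRing R] [CommRing R'] {r : ℕ}

theorem adjugate_map' (φ : R →+* R') (M : Mat r R) :
    (M.map φ).adjugate = M.adjugate.map φ := by
  have h := RingHom.map_adjugate φ M
  simpa [RingHom.mapMatrix_apply] using h.symm

theorem val_map (φ : R →+* R') (l : Letter r R) : (l.map φ).val = l.val.map φ := by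
  cases l with
  | pt A => rfl
  | hd a b =>
    show a.map φ * b.map φ * (a.map φ).adjugate * (b.map φ).adjugate =
      (a * b * a.adjugate * b.adjugate).map φ
    rw [adjugate_map', adjugate_map', Matrix.map_mul, Matrix.map_mul, Matrix.map_mul]

theorem wval_map (φ : R →+* R') (w : List (Letter r R)) :
    wval (w.map (Letter.map φ)) = (wval w).map φ := by
  induction w with
  | nil =>
    show (1 : Mat r R') = (1 : Mat r R).map φ
    rw [Matrix.map_one φ (map_zero φ) (map_one φ)]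
  | cons l w ih =>
    have h1 : wval (l :: w) = l.val * wval w := by simp [wval]
    have h2 : wval ((l :: w).map (Letter.map φ)) = (l.map φ).val * wval (w.map (Letter.map φ)) := by
      simp [wval]
    rw [h1, h2, ih, val_map, Matrix.map_mul]

omit [CommRing R] [CommRing R'] in
theorem sword_map (φ : R → R') {g m : ℕ} (a b : Fin g → Mat r R) (A : Fin m → Mat r R) :
    (sword a b A).map (Letter.map φ) =
      sword (fun j => (a j).map φ) (fun j => (b j).map φ) fun i => (A i).map φ := by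
  simp only [sword, List.map_append, List.map_ofFn]
  rfl

theorem val_det {l : Letter r R} : ∀ {a b : Mat r R}, l = .hd a b → a.det = 1 → b.det = 1 →
    l.val.det = 1 := by
  rintro a b rfl ha hb
  show (a * b * a.adjugate * b.adjugate).det = 1
  rw [det_mul, det_mul, det_mul, det_adjugate, det_adjugate, ha, hb]
  simp

theorem wval_append (w w' : List (Letter r R)) : wval (w ++ w') = wval w * wval w' := by
  simp [wval]

theorem det_wval_hd {g : ℕ} (a b : Fin g → Mat r R) (ha : ∀ j, (a j).det = 1)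
    (hb : ∀ j, (b j).det = 1) :
    (wval (List.ofFn fun j => Letter.hd (a j) (b j))).det = 1 := by
  have h : ∀ l ∈ (List.ofFn fun j => Letter.hd (a j) (b j)), l.val.det = 1 := by
    intro l hl
    rw [List.mem_ofFn] at hl
    obtain ⟨j, rfl⟩ := hl
    exact val_det rfl (ha j) (hb j)
  revert h
  generalize (List.ofFn fun j => Letter.hd (a j) (b j)) = w
  intro h
  induction w with
  | nil => simp [wval]
  | cons l w ih =>
    have h1 : wval (l :: w) = l.val * wval w := by simp [wval]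
    rw [h1, det_mul, h l (by simp), ih fun l' hl' => h l' (by simp [hl']), one_mul]

theorem det_wval_pt {m : ℕ} (A : Fin m → Mat r R) :
    (wval (List.ofFn fun i => (Letter.pt (A i) : Letter r R))).det = ∏ i, (A i).det := by
  have h : (wval (List.ofFn fun i => (Letter.pt (A i) : Letter r R))).det =
      (List.ofFn fun i => (A i).det).prod := by
    have h1 : (List.ofFn fun i => (A i).det) =
        (List.ofFn fun i => (Letter.pt (A i) : Letter r R)).map fun l => l.val.det := by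
      rw [List.map_ofFn]
      rfl
    rw [h1]
    generalize (List.ofFn fun i => (Letter.pt (A i) : Letter r R)) = w
    induction w with
    | nil => simp [wval]
    | cons l w ih =>
      have h1 : wval (l :: w) = l.val * wval w := by simp [wval]
      rw [h1, det_mul, ih, List.map_cons, List.prod_cons]
  rw [h, List.prod_ofFn]

theorem det_sword {g m : ℕ} (a b : Fin g → Mat r R) (A : Fin m → Mat r R)
    (ha : ∀ j, (a j).det = 1) (hb : ∀ j, (b j).det = 1) :
    (wval (sword a b A)).det = ∏ i, (A i).det := by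
  rw [sword, wval_append, det_mul, det_wval_hd a b ha hb, det_wval_pt, one_mul]

/-- Two matrices of the same size have the same characteristic polynomial if the coefficients
`< r` agree. -/
theorem charpoly_ext [Nontrivial R] {M : Mat r R} {p : Polynomial R} (hp : p.Monic)
    (hd : p.natDegree = r) (h : ∀ k < r, M.charpoly.coeff k = p.coeff k) : M.charpoly = p := by
  have hM : M.charpoly.natDegree = r := by
    rw [Matrix.charpoly_natDegree_eq_dim, Fintype.card_fin]
  have hMm := M.charpoly_monic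
  ext k
  rcases lt_trichotomy k r with hk | hk | hk
  · exact h k hk
  · subst hk
    have h1 := hMm.coeff_natDegree
    have h2 := hp.coeff_natDegree
    rw [hM] at h1
    rw [hd] at h2
    rw [h1, h2]
  · rw [Polynomial.coeff_eq_zero_of_natDegree_lt (by rw [hM]; exact hk),
      Polynomial.coeff_eq_zero_of_natDegree_lt (by rw [hd]; exact hk)]

theorem coeff_zero_eq (M : Mat r R) : M.charpoly.coeff 0 = (-1) ^ r * M.det := by
  have h := Matrix.det_eq_sign_charpoly_coeff M
  rw [Fintype.card_fin] at h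
  rw [h, ← mul_assoc, ← mul_pow]
  simp

end

theorem wents_sword {E : Type*} {r g m : ℕ} (a b : Fin g → Mat r E) (A : Fin m → Mat r E) :
    wents (sword a b A) = Set.range (scoord a b A) := by
  ext x
  constructor
  · rintro ⟨l, hl, hx⟩
    rw [sword, List.mem_append, List.mem_ofFn, List.mem_ofFn] at hl
    rcases hl with ⟨j, rfl⟩ | ⟨i, rfl⟩
    · rcases hx with ⟨k, l, h⟩ | ⟨k, l, h⟩
      · exact ⟨(Sum.inl j, (k, l)), h⟩
      · exact ⟨(Sum.inr (Sum.inl j), (k, l)), h⟩
    · obtain ⟨k, l, h⟩ := hx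
      exact ⟨(Sum.inr (Sum.inr i), (k, l)), h⟩
  · rintro ⟨⟨j | j | i, k, l⟩, h⟩
    · refine ⟨Letter.hd (a j) (b j), ?_, Or.inl ⟨k, l, h⟩⟩
      rw [sword, List.mem_append]
      exact Or.inl (List.mem_ofFn.2 ⟨j, rfl⟩)
    · refine ⟨Letter.hd (a j) (b j), ?_, Or.inr ⟨k, l, h⟩⟩
      rw [sword, List.mem_append]
      exact Or.inl (List.mem_ofFn.2 ⟨j, rfl⟩)
    · refine ⟨Letter.pt (A i), ?_, ⟨k, l, h⟩⟩
      rw [sword, List.mem_append]
      exact Or.inr (List.mem_ofFn.2 ⟨i, rfl⟩)

theorem wcnt_sword {E : Type*} {r g m : ℕ} (a b : Fin g → Mat r E) (A : Fin m → Mat r E) :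
    wcnt (sword a b A) = g * (2 * (r ^ 2 - 1)) + m * (r * (r - 1)) := by
  rw [wcnt, sword, List.map_append, List.sum_append, List.map_ofFn, List.map_ofFn,
    List.sum_ofFn, List.sum_ofFn]
  simp [Letter.cnt]

/-- The equations. -/
noncomputable def eqs {Ω : Type} [Field Ω] {r g m : ℕ} (a₀ b₀ : Fin g → Mat r Ω)
    (A₀ : Fin m → Mat r Ω) :
    (Fin g ⊕ Fin g ⊕ (Fin m × Fin r) ⊕ Fin (r - 1)) →
      MvPolynomial ((Fin g ⊕ Fin g ⊕ Fin m) × Fin r × Fin r) Ω
  | Sum.inl j => (Matrix.of fun x y => (X (Sum.inl j, (x, y)) :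
      MvPolynomial ((Fin g ⊕ Fin g ⊕ Fin m) × Fin r × Fin r) Ω)).det - 1
  | Sum.inr (Sum.inl j) => (Matrix.of fun x y => (X (Sum.inr (Sum.inl j), (x, y)) :
      MvPolynomial ((Fin g ⊕ Fin g ⊕ Fin m) × Fin r × Fin r) Ω)).det - 1
  | Sum.inr (Sum.inr (Sum.inl p)) =>
      (Matrix.of fun x y => (X (Sum.inr (Sum.inr p.1), (x, y)) :
        MvPolynomial ((Fin g ⊕ Fin g ⊕ Fin m) × Fin r × Fin r) Ω)).charpoly.coeff p.2 -
        C ((A₀ p.1).charpoly.coeff p.2)
  | Sum.inr (Sum.inr (Sum.inr k)) =>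
      (wval (sword
        (fun j => Matrix.of fun x y => (X (Sum.inl j, (x, y)) :
          MvPolynomial ((Fin g ⊕ Fin g ⊕ Fin m) × Fin r × Fin r) Ω))
        (fun j => Matrix.of fun x y => X (Sum.inr (Sum.inl j), (x, y)))
        (fun i => Matrix.of fun x y => X (Sum.inr (Sum.inr i), (x, y))))).charpoly.coeff (k + 1) -
        C ((wval (sword a₀ b₀ A₀)).charpoly.coeff (k + 1))

/-- Evaluation of the equations. -/
theorem eval_eqs {Ω : Type} [Field Ω] {r g m : ℕ} (a₀ b₀ : Fin g → Mat r Ω)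
    (A₀ : Fin m → Mat r Ω) {E : Type} [Field E] [Algebra Ω E]
    (a b : Fin g → Mat r E) (A : Fin m → Mat r E) :
    (∀ j, aeval (scoord a b A) (eqs a₀ b₀ A₀ (Sum.inl j)) = (a j).det - 1) ∧
    (∀ j, aeval (scoord a b A) (eqs a₀ b₀ A₀ (Sum.inr (Sum.inl j))) = (b j).det - 1) ∧
    (∀ p : Fin m × Fin r, aeval (scoord a b A) (eqs a₀ b₀ A₀ (Sum.inr (Sum.inr (Sum.inl p)))) =
      (A p.1).charpoly.coeff p.2 - algebraMap Ω E ((A₀ p.1).charpoly.coeff p.2)) ∧
    ∀ k : Fin (r - 1), aeval (scoord a b A) (eqs a₀ b₀ A₀ (Sum.inr (Sum.inr (Sum.inr k)))) =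
      (wval (sword a b A)).charpoly.coeff (k + 1) -
        algebraMap Ω E ((wval (sword a₀ b₀ A₀)).charpoly.coeff (k + 1)) := by
  set φ : MvPolynomial ((Fin g ⊕ Fin g ⊕ Fin m) × Fin r × Fin r) Ω →+* E :=
    (aeval (scoord a b A) : _ →ₐ[Ω] E).toRingHom with hφ
  have hφ' : ∀ f, aeval (scoord a b A) f = φ f := fun f => rfl
  have ha : ∀ j, (Matrix.of fun x y => (X (Sum.inl j, (x, y)) :
      MvPolynomial ((Fin g ⊕ Fin g ⊕ Fin m) × Fin r × Fin r) Ω)).map φ = a j := by
    intro j
    ext x y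
    rw [Matrix.map_apply, Matrix.of_apply, ← hφ', aeval_X]
    rfl
  have hb : ∀ j, (Matrix.of fun x y => (X (Sum.inr (Sum.inl j), (x, y)) :
      MvPolynomial ((Fin g ⊕ Fin g ⊕ Fin m) × Fin r × Fin r) Ω)).map φ = b j := by
    intro j
    ext x y
    rw [Matrix.map_apply, Matrix.of_apply, ← hφ', aeval_X]
    rfl
  have hA : ∀ i, (Matrix.of fun x y => (X (Sum.inr (Sum.inr i), (x, y)) :
      MvPolynomial ((Fin g ⊕ Fin g ⊕ Fin m) × Fin r × Fin r) Ω)).map φ = A i := by
    intro i
    ext x y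
    rw [Matrix.map_apply, Matrix.of_apply, ← hφ', aeval_X]
    rfl
  have hC : ∀ c : Ω, φ (C c) = algebraMap Ω E c := by
    intro c
    rw [← hφ', aeval_C]
  refine ⟨?_, ?_, ?_, ?_⟩
  · intro j
    rw [hφ', eqs, map_sub, map_one, RingHom.map_det, RingHom.mapMatrix_apply, ha]
  · intro j
    rw [hφ', eqs, map_sub, map_one, RingHom.map_det, RingHom.mapMatrix_apply, hb]
  · intro p
    rw [hφ', eqs, map_sub, hC, ← Polynomial.coeff_map, ← Matrix.charpoly_map, hA]
  · intro k
    rw [hφ', eqs, map_sub, hC, ← Polynomial.coeff_map, ← Matrix.charpoly_map, ← wval_map,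
      sword_map]
    simp only [ha, hb, hA]

theorem exists_generic_word {Ω : Type} [Field Ω] {r : ℕ} (hr : 1 ≤ r) {g m : ℕ}
    (a₀ b₀ : Fin g → Mat r Ω) (A₀ : Fin m → Mat r Ω) (ha : ∀ j, (a₀ j).det = 1)
    (hb : ∀ j, (b₀ j).det = 1) (_hA : ∀ i, (A₀ i).det ≠ 0)
    (F : MvPolynomial ((Fin g ⊕ Fin g ⊕ Fin m) × Fin r × Fin r) Ω)
    (hF : eval (scoord a₀ b₀ A₀) F ≠ 0) :
    ∃ (E : Type) (_ : Field E) (_ : Algebra Ω E) (_ : IsAlgClosed E) (a b : Fin g → Mat r E)
      (A : Fin m → Mat r E), Univ Ω E ∧ (∀ j, (a j).det = 1) ∧ (∀ j, (b j).det = 1) ∧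
      (∀ i, (A i).charpoly = (A₀ i).charpoly.map (algebraMap Ω E)) ∧
      (wval (sword a b A)).charpoly = (wval (sword a₀ b₀ A₀)).charpoly.map (algebraMap Ω E) ∧
      aeval (scoord a b A) F ≠ 0 ∧
      wcnt (sword a b A) ≤ rk Ω (wents (sword a b A)) + (r - 1) := by
  classical
  set s : Finset (MvPolynomial ((Fin g ⊕ Fin g ⊕ Fin m) × Fin r × Fin r) Ω) :=
    Finset.univ.image (eqs a₀ b₀ A₀) with hs
  have hcard : s.card ≤ 2 * g + m * r + (r - 1) := by
    refine Finset.card_image_le.trans (le_of_eq ?_)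
    rw [Finset.card_univ]
    simp only [Fintype.card_sum, Fintype.card_prod, Fintype.card_fin]
    ring
  have hev := eval_eqs (E := Ω) a₀ b₀ A₀ a₀ b₀ A₀
  have h₀ : ∀ f ∈ s, eval (scoord a₀ b₀ A₀) f = 0 := by
    intro f hf
    rw [hs, Finset.mem_image] at hf
    obtain ⟨i, -, rfl⟩ := hf
    have h1 : eval (scoord a₀ b₀ A₀) (eqs a₀ b₀ A₀ i) =
      aeval (scoord a₀ b₀ A₀) (eqs a₀ b₀ A₀ i) := rfl
    rw [h1]
    obtain ⟨e1, e2, e3, e4⟩ := hev
    rcases i with j | j | p | k
    · rw [e1, ha, sub_self]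
    · rw [e2, hb, sub_self]
    · rw [e3]; exact sub_self _
    · rw [e4]; exact sub_self _
  obtain ⟨E₀, i1, i2, x, hx1, hx2, hx3⟩ := exists_generic s F (scoord a₀ b₀ A₀) h₀ hF
  have hσ : Fintype.card ((Fin g ⊕ Fin g ⊕ Fin m) × Fin r × Fin r) = (2 * g + m) * (r * r) := by
    simp only [Fintype.card_sum, Fintype.card_prod, Fintype.card_fin]
    ring
  obtain ⟨E, i3, i4, φ, hE1, hE2, hE3⟩ := exists_univ (K := Ω) x
    (Fintype.card ((Fin g ⊕ Fin g ⊕ Fin m) × Fin r × Fin r) - s.card)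
    (fun S hS => Nat.sub_le_iff_le_add'.2 (hx3 S hS))
  refine ⟨E, i3, i4, hE1, fun j => Matrix.of fun k l => φ (x (Sum.inl j, (k, l))),
    fun j => Matrix.of fun k l => φ (x (Sum.inr (Sum.inl j), (k, l))),
    fun i => Matrix.of fun k l => φ (x (Sum.inr (Sum.inr i), (k, l))), ?_⟩
  set a : Fin g → Mat r E := fun j => Matrix.of fun k l => φ (x (Sum.inl j, (k, l))) with had
  set b : Fin g → Mat r E := fun j => Matrix.of fun k l => φ (x (Sum.inr (Sum.inl j), (k, l)))
    with hbd
  set A : Fin m → Mat r E := fun i => Matrix.of fun k l => φ (x (Sum.inr (Sum.inr i), (k, l)))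
    with hAd
  have hsc : scoord a b A = fun i => φ (x i) := by
    funext i
    rcases i with ⟨j | j | i, k, l⟩ <;> rfl
  have hae : ∀ f : MvPolynomial ((Fin g ⊕ Fin g ⊕ Fin m) × Fin r × Fin r) Ω,
      aeval (scoord a b A) f = φ (aeval x f) := by
    intro f
    rw [hsc]
    have : (aeval (fun i => φ (x i)) : MvPolynomial _ Ω →ₐ[Ω] E) = φ.comp (aeval x) := by
      apply MvPolynomial.algHom_ext
      intro i
      simp
    rw [this, AlgHom.comp_apply]
  have hz : ∀ i, aeval (scoord a b A) (eqs a₀ b₀ A₀ i) = 0 := by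
    intro i
    rw [hae, hx1 _ (by rw [hs]; exact Finset.mem_image_of_mem _ (Finset.mem_univ i)), map_zero]
  obtain ⟨e1, e2, e3, e4⟩ := eval_eqs a₀ b₀ A₀ a b A
  have da : ∀ j, (a j).det = 1 := fun j => sub_eq_zero.1 ((e1 j).symm.trans (hz _))
  have db : ∀ j, (b j).det = 1 := fun j => sub_eq_zero.1 ((e2 j).symm.trans (hz _))
  have cA : ∀ i, (A i).charpoly = (A₀ i).charpoly.map (algebraMap Ω E) := by
    intro i
    refine charpoly_ext ((Matrix.charpoly_monic _).map _) ?_ ?_
    · rw [(Matrix.charpoly_monic _).natDegree_map, Matrix.charpoly_natDegree_eq_dim,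
        Fintype.card_fin]
    · intro k hk
      rw [Polynomial.coeff_map]
      exact sub_eq_zero.1 ((e3 (i, ⟨k, hk⟩)).symm.trans (hz _))
  have cW : (wval (sword a b A)).charpoly =
      (wval (sword a₀ b₀ A₀)).charpoly.map (algebraMap Ω E) := by
    refine charpoly_ext ((Matrix.charpoly_monic _).map _) ?_ ?_
    · rw [(Matrix.charpoly_monic _).natDegree_map, Matrix.charpoly_natDegree_eq_dim,
        Fintype.card_fin]
    · intro k hk
      rw [Polynomial.coeff_map]
      rcases Nat.eq_zero_or_pos k with rfl | hk0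
      · rw [coeff_zero_eq, coeff_zero_eq, det_sword a b A da db, det_sword a₀ b₀ A₀ ha hb,
          map_mul, map_prod, map_pow, map_neg, map_one]
        congr 1
        refine Finset.prod_congr rfl fun i _ => ?_
        have h1 := congrArg (fun p => Polynomial.coeff p 0) (cA i)
        simp only [Polynomial.coeff_map] at h1
        rw [coeff_zero_eq, coeff_zero_eq, map_mul, map_pow, map_neg, map_one] at h1
        exact mul_left_cancel₀ (pow_ne_zero _ (neg_ne_zero.2 one_ne_zero)) h1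
      · obtain ⟨j, rfl⟩ : ∃ j, k = j + 1 := ⟨k - 1, by omega⟩
        exact sub_eq_zero.1 ((e4 ⟨j, by omega⟩).symm.trans (hz _))
  refine ⟨hE2, da, db, cA, cW, ?_, ?_⟩
  · rw [hae]
    exact fun h => hx2 (by
      rw [← map_zero φ] at h
      exact φ.injective h)
  · rw [wents_sword, hsc, wcnt_sword]
    have h1 : g * (2 * (r ^ 2 - 1)) + m * (r * (r - 1)) ≤
        (Fintype.card ((Fin g ⊕ Fin g ⊕ Fin m) × Fin r × Fin r) - s.card) + (r - 1) := by
      rw [hσ]
      have h2 : g * (2 * (r ^ 2 - 1)) + 2 * g = 2 * g * (r * r) := by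
        obtain ⟨q, rfl⟩ : ∃ q, r = q + 1 := ⟨r - 1, by omega⟩
        have : (q + 1) ^ 2 - 1 = q * q + 2 * q := by
          have : (q + 1) ^ 2 = q * q + 2 * q + 1 := by ring
          omega
        rw [this]
        ring
      have h3 : m * (r * (r - 1)) + m * r = m * (r * r) := by
        obtain ⟨q, rfl⟩ : ∃ q, r = q + 1 := ⟨r - 1, by omega⟩
        rw [Nat.add_sub_cancel]
        ring
      have h4 : (2 * g + m) * (r * r) = 2 * g * (r * r) + m * (r * r) := by ring
      omega
    exact h1.trans (Nat.add_le_add_right hE3 _)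

end Pool.Agent.MP_3f0e22_ag.KRb

namespace Pool.Agent.MP_3f0e22_ag

alias exists_generic_word := KRb.exists_generic_word

end Pool.Agent.MP_3f0e22_ag
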