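import Pool.Agent.MP_3f0e22_ag.Defs2

/-!
# MP_3f0e22_ag, block RHa: words given by parameters
-/

set_option autoImplicit false

open Matrix

namespace Pool.Agent.MP_3f0e22_ag.RHa

variable {R : Type*} [CommRing R] {r : ℕ}

theorem wlen_word (g : Mat r R) (u y : ℕ → Mat r R) (i : ℕ) (L : List (LP r R)) :
    wlen (word g u y i L) = llen L := by
  induction L generalizing i with
  | nil => rfl
  | cons p L ih =>
    have h := ih (i + p.len)
    simp only [wlen, llen] at h ⊢
    simp only [word, List.map_cons, List.sum_cons, h]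
    cases p <;> rfl

section map

variable {R' : Type*} [CommRing R'] (φ : R →+* R')

theorem map_mul' (M N : Mat r R) : (M * N).map φ = M.map φ * N.map φ := Matrix.map_mul

theorem map_adj (M : Mat r R) : (M.adjugate).map φ = (M.map φ).adjugate :=
  RingHom.map_adjugate φ M

theorem map_Jm : (Jm R r).map φ = Jm R' r := by
  ext i j
  simp only [Jm, Matrix.map_apply, Matrix.submatrix_apply, Matrix.one_apply]
  split_ifs <;> simp

theorem map_diag (t : Fin r → R) : (diagonal t : Mat r R).map φ = diagonal (fun k => φ (t k)) := by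
  rw [Matrix.diagonal_map (map_zero φ)]

theorem map_Q (u y : ℕ → Mat r R) (i : ℕ) :
    (Q u y i).map φ = Q (fun i => (u i).map φ) (fun i => (y i).map φ) i := by
  induction i with
  | zero => simp [Q, Matrix.map_one]
  | succ i ih => rw [Q, Q, map_mul', map_mul', ih]

theorem map_Cm (g : Mat r R) (u y : ℕ → Mat r R) (i : ℕ) :
    (Cm g u y i).map φ = Cm (g.map φ) (fun i => (u i).map φ) (fun i => (y i).map φ) i := by
  simp only [Cm, map_mul', map_adj, map_Q]

theorem map_Ci (g : Mat r R) (u y : ℕ → Mat r R) (i : ℕ) :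
    (Ci g u y i).map φ = Ci (g.map φ) (fun i => (u i).map φ) (fun i => (y i).map φ) i := by
  simp only [Ci, map_mul', map_adj, map_Q]

theorem map_Hm (g : Mat r R) (u y : ℕ → Mat r R) (i : ℕ) :
    (Hm g u y i).map φ = Hm (g.map φ) (fun i => (u i).map φ) (fun i => (y i).map φ) i := by
  simp only [Hm, map_mul', map_adj, map_Q]

theorem map_Hi (g : Mat r R) (u y : ℕ → Mat r R) (i : ℕ) :
    (Hi g u y i).map φ = Hi (g.map φ) (fun i => (u i).map φ) (fun i => (y i).map φ) i := by
  simp only [Hi, map_mul', map_adj, map_Q]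

theorem map_al (g : Mat r R) (u y : ℕ → Mat r R) (i : ℕ) (t : Fin r → R) :
    (al g u y i t).map φ =
      al (g.map φ) (fun i => (u i).map φ) (fun i => (y i).map φ) i (fun k => φ (t k)) := by
  simp only [al, map_mul', map_Hm, map_Hi, map_Jm, map_diag]

theorem map_be (g : Mat r R) (u y : ℕ → Mat r R) (i : ℕ) (t : Fin r → R) :
    (be g u y i t).map φ =
      be (g.map φ) (fun i => (u i).map φ) (fun i => (y i).map φ) i (fun k => φ (t k)) := by
  simp only [be, map_mul', map_Cm, map_Ci, map_Jm, map_diag]

theorem letter_map (g : Mat r R) (u y : ℕ → Mat r R) (i : ℕ) (p : LP r R) :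
    Letter.map φ (p.letter g u y i) =
      (p.map φ).letter (g.map φ) (fun i => (u i).map φ) (fun i => (y i).map φ) i := by
  cases p with
  | pt t =>
    simp only [LP.letter, Letter.map, LP.map, map_mul', map_Cm, map_Hi, map_diag,
      Units.coe_map, MonoidHom.coe_coe]
  | hd a b =>
    simp only [LP.letter, Letter.map, LP.map, map_mul', map_adj, map_al, map_be,
      Units.coe_map, MonoidHom.coe_coe]

theorem len_map (p : LP r R) : (p.map φ).len = p.len := by cases p <;> rfl

theorem word_map (g : Mat r R) (u y : ℕ → Mat r R)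
    (i : ℕ) (L : List (LP r R)) :
    (word g u y i L).map (Letter.map φ) =
      word (g.map φ) (fun i => (u i).map φ) (fun i => (y i).map φ) i (L.map (LP.map φ)) := by
  induction L generalizing i with
  | nil => rfl
  | cons p L ih =>
    simp only [word, List.map_cons, ih, letter_map, len_map]

end map

theorem Q_congr {u y u' y' : ℕ → Mat r R} {i : ℕ} (hu : ∀ j < i, u j = u' j)
    (hy : ∀ j < i, y j = y' j) : Q u y i = Q u' y' i := by
  induction i with
  | zero => rfl
  | succ i ih =>
    rw [Q, Q, hu i (by omega), hy i (by omega), ih (fun j hj => hu j (by omega))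
      (fun j hj => hy j (by omega))]

theorem letter_congr {g : Mat r R} {u y u' y' : ℕ → Mat r R} {p : LP r R} {i : ℕ}
    (hu : ∀ j, j + 1 < i + p.len → u j = u' j) (hy : ∀ j < i + p.len, y j = y' j) :
    p.letter g u y i = p.letter g u' y' i := by
  cases p with
  | pt t =>
    have h1 : Q u y i = Q u' y' i :=
      Q_congr (fun j hj => hu j (by simp only [LP.len]; omega))
        (fun j hj => hy j (by simp only [LP.len]; omega))
    have h2 : y i = y' i := hy i (by simp only [LP.len]; omega)
    simp only [LP.letter, Cm, Hi, h1, h2]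
  | hd a b =>
    have h1 : Q u y i = Q u' y' i :=
      Q_congr (fun j hj => hu j (by simp only [LP.len]; omega))
        (fun j hj => hy j (by simp only [LP.len]; omega))
    have h1' : Q u y (i + 1) = Q u' y' (i + 1) :=
      Q_congr (fun j hj => hu j (by simp only [LP.len]; omega))
        (fun j hj => hy j (by simp only [LP.len]; omega))
    have h2 : y i = y' i := hy i (by simp only [LP.len]; omega)
    have h2' : y (i + 1) = y' (i + 1) := hy (i + 1) (by simp only [LP.len]; omega)
    simp only [LP.letter, al, be, Cm, Ci, Hm, Hi, h1, h2, h1', h2']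

theorem word_congr {g : Mat r R} {u y u' y' : ℕ → Mat r R} {L : List (LP r R)} {i : ℕ}
    (hu : ∀ j, j + 1 < i + llen L → u j = u' j) (hy : ∀ j < i + llen L, y j = y' j) :
    word g u y i L = word g u' y' i L := by
  induction L generalizing i with
  | nil => rfl
  | cons p L ih =>
    have hl : llen (p :: L) = p.len + llen L := by simp [llen]
    rw [hl] at hu hy
    simp only [word]
    rw [letter_congr (fun j hj => hu j (by omega)) (fun j hj => hy j (by omega)),
      ih (fun j hj => hu j (by omega)) (fun j hj => hy j (by omega))]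

theorem det_Q {s : ℕ} {u y : ℕ → Mat r R} (hy : ∀ i ≤ s, LowU (y i)) (hu : ∀ i < s, UpU (u i)) :
    ∀ i ≤ s, (Q u y i).det = 1 := by
  intro i
  induction i with
  | zero => intro _; simp [Q]
  | succ i ih =>
    intro hi
    rw [Q, det_mul, det_mul, ih (by omega), (hy i (by omega)).det, (hu i (by omega)).det]
    simp

theorem det_adj {a : Mat r R} (h : a.det = 1) : a.adjugate.det = 1 := by
  have h1 := congrArg Matrix.det (Matrix.mul_adjugate a)
  rw [h, one_smul, det_mul, h, one_mul, det_one] at h1
  exact h1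

theorem mul_adj {a : Mat r R} (h : a.det = 1) : a * a.adjugate = 1 := by
  rw [Matrix.mul_adjugate, h, one_smul]

theorem adj_mul {a : Mat r R} (h : a.det = 1) : a.adjugate * a = 1 := by
  rw [Matrix.adjugate_mul, h, one_smul]

theorem charpoly_conj {g : Mat r R} (hg : g.det = 1) (M : Mat r R) :
    (g * M * g.adjugate).charpoly = M.charpoly := by
  rw [Matrix.charpoly_mul_comm, ← mul_assoc, adj_mul hg, one_mul]

theorem charpoly_conj' {g : Mat r R} (hg : g.det = 1) (M : Mat r R) :
    (g.adjugate * M * g).charpoly = M.charpoly := by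
  rw [Matrix.charpoly_mul_comm, ← mul_assoc, mul_adj hg, one_mul]

/-- Letters at the step `i ≤ s`. -/
theorem letter_pt_charpoly {s : ℕ} (g : Mat r R) (hg : g.det = 1) (u y : ℕ → Mat r R)
    (hy : ∀ i ≤ s, LowU (y i)) (hu : ∀ i < s, UpU (u i)) (i : ℕ) (hi : i ≤ s)
    (t : Fin r → Rˣ) :
    (Cm g u y i * diagonal (fun k => (t k : R)) * Hi g u y i).charpoly =
      ∏ k, (Polynomial.X - Polynomial.C (t k : R)) := by
  have hQ := det_Q hy hu i hi
  have e : Cm g u y i * diagonal (fun k => (t k : R)) * Hi g u y i =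
      g * ((Q u y i).adjugate * (diagonal (fun k => (t k : R)) * y i) * Q u y i) *
        g.adjugate := by
    simp only [Cm, Hi, mul_assoc]
  rw [e, charpoly_conj hg, charpoly_conj' hQ, ← Matrix.charpoly_transpose]
  have hyi := hy i hi
  rw [charpoly_of_isUpperTriangular]
  · refine Finset.prod_congr rfl fun k _ => ?_
    rw [Matrix.transpose_apply, Matrix.diagonal_mul, hyi.1, mul_one]
  · intro a b hab
    have hab' : b < a := hab
    rw [Matrix.transpose_apply, Matrix.diagonal_mul, hyi.2 b a hab', mul_zero]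

theorem det_Jm_sq : (Jm R r).det * (Jm R r).det = 1 := by
  rw [← det_mul, Jm_mul_Jm, det_one]

theorem letter_hd_det {s : ℕ} (g : Mat r R) (hg : g.det = 1) (u y : ℕ → Mat r R)
    (hy : ∀ i ≤ s, LowU (y i)) (hu : ∀ i < s, UpU (u i)) (i : ℕ) (hi : i < s)
    (a b : Fin r → Rˣ) (h : (LP.hd a b : LP r R).OK) :
    (al g u y i fun k => (a k : R)).det = 1 ∧ (be g u y i fun k => (b k : R)).det = 1 := by
  have hQ := det_Q hy hu i (by omega)
  have hQ' := det_Q hy hu (i + 1) (by omega)
  have hyi := (hy i (by omega)).det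
  have hyi' := (hy (i + 1) (by omega)).det
  have hm : (y i * Q u y i).det = 1 := by rw [det_mul, hQ, hyi, one_mul]
  obtain ⟨h1, h2⟩ := h
  constructor
  · simp only [al, Hm, Hi, det_mul, det_adj hg, det_adj hm, det_diagonal, hg, hQ', hyi', h1,
      one_mul, mul_one, det_Jm_sq]
  · simp only [be, Cm, Ci, det_mul, det_adj hg, det_adj hQ, det_diagonal, hg, hQ', h2,
      one_mul, mul_one, det_Jm_sq]

theorem Th_cons (p : LP r R) (L : List (LP r R)) (k : Fin r) : Th (p :: L) k = p.th k * Th L k := by
  simp only [Th, List.map_cons, List.prod_cons]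

theorem prod_th_hd (a b : Fin r → Rˣ) : ∏ k, (LP.hd a b : LP r R).th k = 1 := by
  simp only [LP.th]
  rw [Finset.prod_mul_distrib, Finset.prod_inv_distrib]
  have h : ∏ k : Fin r, (b k.rev * (a k.rev)⁻¹) = ∏ k : Fin r, (b k * (a k)⁻¹) :=
    Equiv.prod_comp (Fin.revPerm : Equiv.Perm (Fin r)) (fun k => b k * (a k)⁻¹)
  rw [h, mul_inv_cancel]

theorem prod_Th (sh : List (Option (Fin r → Rˣ))) (t : ℕ → Bool → ℕ → ℕ → Rˣ) (i : ℕ) :
    ∏ k, Th (mkL t i sh) k = (sh.map fun c => ∏ k, (c.getD 1) k).prod := by
  induction sh generalizing i with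
  | nil => simp [mkL, Th]
  | cons c sh ih =>
    cases c with
    | some c =>
      simp only [mkL, Th_cons, List.map_cons, List.prod_cons, Finset.prod_mul_distrib, ih,
        LP.th, Option.getD_some]
    | none =>
      simp only [mkL, Th_cons, List.map_cons, List.prod_cons, Finset.prod_mul_distrib, ih,
        prod_th_hd, Option.getD_none, Pi.one_apply, Finset.prod_const_one]

end Pool.Agent.MP_3f0e22_ag.RHa

namespace Pool.Agent.MP_3f0e22_ag

alias wlen_word := RHa.wlen_word
alias word_map := RHa.word_map
alias word_congr := RHa.word_congr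
alias letter_pt_charpoly := RHa.letter_pt_charpoly
alias letter_hd_det := RHa.letter_hd_det
alias prod_Th := RHa.prod_Th

end Pool.Agent.MP_3f0e22_ag
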