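import Pool.Agent.MP_3f0e22_ag.Lu

/-!
# MP_3f0e22_ag, block RH: the representations `rho`
-/

set_option autoImplicit false

open Matrix

namespace Pool.Agent.MP_3f0e22_ag.Rh

variable {R : Type*} [CommRing R] {r : ℕ}

/-- upper triangular with diagonal `d` -/
def UpD (a : Mat r R) (d : Fin r → R) : Prop := (∀ i, a i i = d i) ∧ ∀ i j, j < i → a i j = 0

theorem UpD.one : UpD (1 : Mat r R) (fun _ => 1) :=
  ⟨fun i => by simp, fun i j h => by rw [Matrix.one_apply_ne (ne_of_gt h)]⟩

theorem UpD.diagonal (d : Fin r → R) : UpD (Matrix.diagonal d : Mat r R) d :=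
  ⟨fun i => by simp, fun i j h => by rw [Matrix.diagonal_apply_ne _ (ne_of_gt h)]⟩

theorem UpD.mul {a b : Mat r R} {d e : Fin r → R} (ha : UpD a d) (hb : UpD b e) :
    UpD (a * b) (fun i => d i * e i) := by
  constructor
  · intro i
    rw [Matrix.mul_apply, Finset.sum_eq_single i]
    · rw [ha.1, hb.1]
    · intro j _ hj
      rcases lt_or_gt_of_ne hj with h | h
      · rw [ha.2 i j h, zero_mul]
      · rw [hb.2 j i h, mul_zero]
    · intro h; exact absurd (Finset.mem_univ i) h
  · intro i j hij
    rw [Matrix.mul_apply]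
    refine Finset.sum_eq_zero fun k _ => ?_
    rcases lt_or_ge k i with h | h
    · rw [ha.2 i k h, zero_mul]
    · rw [hb.2 k j (hij.trans_le h), mul_zero]

theorem UpD.charpoly {a : Mat r R} {d : Fin r → R} (ha : UpD a d) :
    a.charpoly = ∏ k, (Polynomial.X - Polynomial.C (d k)) := by
  rw [charpoly_of_isUpperTriangular a (fun i j h => ha.2 i j h)]
  exact Finset.prod_congr rfl fun k _ => by rw [ha.1]

theorem det_Q (s : ℕ) (u y : ℕ → Mat r R) (hy : ∀ i ≤ s, LowU (y i)) (hu : ∀ i < s, UpU (u i)) :
    ∀ i ≤ s, (Q u y i).det = 1 := by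
  intro i
  induction i with
  | zero => intro _; simp [Q]
  | succ i ih =>
    intro hi
    rw [Q, det_mul, det_mul, ih (by omega), (hy i (by omega)).det, (hu i (by omega)).det]
    simp

theorem mul_adj {a : Mat r R} (h : a.det = 1) : a * a.adjugate = 1 := by
  rw [Matrix.mul_adjugate, h, one_smul]

theorem adj_mul {a : Mat r R} (h : a.det = 1) : a.adjugate * a = 1 := by
  rw [Matrix.adjugate_mul, h, one_smul]

theorem charpoly_conj {g : Mat r R} (hg : g.det = 1) (M : Mat r R) :
    (g * M * g.adjugate).charpoly = M.charpoly := by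
  rw [Matrix.charpoly_mul_comm, ← mul_assoc, adj_mul hg, one_mul]

theorem charpoly_conj' {g : Mat r R} (hg : g.det = 1) (M : Mat r R) :
    (g.adjugate * M * g).charpoly = M.charpoly := by
  rw [Matrix.charpoly_mul_comm, ← mul_assoc, mul_adj hg, one_mul]

theorem rho_charpoly (s : ℕ) (g : Mat r R) (hg : g.det = 1) (t : ℕ → Fin r → R) (δ : Fin r → R)
    (u y : ℕ → Mat r R) (h : InZ s δ u y) (i : ℕ) (hi : i ≤ s) :
    (rho g t u y i).charpoly = ∏ k, (Polynomial.X - Polynomial.C (t i k)) := by
  have hQ := det_Q s u y h.low h.up i hi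
  have e : rho g t u y i =
      g * ((Q u y i).adjugate * (diagonal (t i) * y i) * Q u y i) * g.adjugate := by
    simp only [rho, mul_assoc]
  rw [e, charpoly_conj hg, charpoly_conj' hQ, ← Matrix.charpoly_transpose]
  have h1 : UpD (diagonal (t i) * y i)ᵀ (t i) := by
    have hy := h.low i hi
    constructor
    · intro k
      rw [Matrix.transpose_apply, Matrix.diagonal_mul, hy.1, mul_one]
    · intro a b hab
      rw [Matrix.transpose_apply, Matrix.diagonal_mul, hy.2 b a hab, mul_zero]
  exact h1.charpoly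

/-- `T_m = t_0 u_0⁻¹ ⋯ t_{m-1} u_{m-1}⁻¹` -/
noncomputable def T (t : ℕ → Fin r → R) (u : ℕ → Mat r R) : ℕ → Mat r R
  | 0 => 1
  | m + 1 => T t u m * diagonal (t m) * (u m).adjugate

theorem T_upD (t : ℕ → Fin r → R) (u : ℕ → Mat r R) (s : ℕ) (hu : ∀ i < s, UpU (u i)) :
    ∀ m ≤ s, UpD (T t u m) (fun k => ∏ i ∈ Finset.range m, t i k) := by
  intro m
  induction m with
  | zero => intro _; simpa [T] using (UpD.one : UpD (1 : Mat r R) _)
  | succ m ih =>
    intro hm
    have h1 := ((ih (by omega)).mul (UpD.diagonal (t m))).mul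
      (e := fun _ => 1) (b := (u m).adjugate) (hu m (by omega)).adjugate
    have e : (fun k => ∏ i ∈ Finset.range (m + 1), t i k) =
        fun k => (∏ i ∈ Finset.range m, t i k) * t m k * 1 := by
      funext k
      rw [Finset.prod_range_succ, mul_one]
    rw [e]
    exact h1

theorem prod_rho (s : ℕ) (g : Mat r R) (hg : g.det = 1) (t : ℕ → Fin r → R) (δ : Fin r → R)
    (u y : ℕ → Mat r R) (h : InZ s δ u y) :
    ∀ m ≤ s, (List.ofFn fun i : Fin m => rho g t u y i).prod =
      g * (T t u m * Q u y m) * g.adjugate := by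
  intro m
  induction m with
  | zero => intro _; simp [T, Q, mul_adj hg]
  | succ m ih =>
    intro hm
    rw [List.ofFn_succ', List.concat_eq_append, List.prod_append, List.prod_singleton]
    simp only [Fin.val_castSucc, Fin.val_last]
    rw [ih (by omega)]
    have h1 : (Q u y m) * (Q u y m).adjugate = 1 := mul_adj (det_Q s u y h.low h.up m (by omega))
    have h2 : (u m).adjugate * (u m) = 1 := adj_mul (h.up m (by omega)).det
    have h3 : g.adjugate * g = 1 := adj_mul hg
    calc g * (T t u m * Q u y m) * g.adjugate * rho g t u y m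
        = g * T t u m * (Q u y m * ((g.adjugate * g) * (Q u y m).adjugate)) * diagonal (t m) *
            y m * Q u y m * g.adjugate := by simp only [rho, mul_assoc]
      _ = g * T t u m * diagonal (t m) * y m * Q u y m * g.adjugate := by
          rw [h3, one_mul, h1, mul_one]
      _ = g * T t u m * diagonal (t m) * (((u m).adjugate * u m) * y m * Q u y m) *
            g.adjugate := by rw [h2, one_mul]; simp only [mul_assoc]
      _ = g * (T t u (m + 1) * Q u y (m + 1)) * g.adjugate := by
          simp only [T, Q, mul_assoc]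

theorem rho_prod_charpoly (s : ℕ) (g : Mat r R) (hg : g.det = 1) (t : ℕ → Fin r → R)
    (δ : Fin r → R) (u y : ℕ → Mat r R) (h : InZ s δ u y) :
    ((List.ofFn fun i : Fin (s + 1) => rho g t u y i).prod).charpoly =
      ∏ k, (Polynomial.X - Polynomial.C (δ k * ∏ i ∈ Finset.range (s + 1), t i k)) := by
  rw [List.ofFn_succ', List.concat_eq_append, List.prod_append, List.prod_singleton]
  simp only [Fin.val_castSucc, Fin.val_last]
  rw [prod_rho s g hg t δ u y h s le_rfl]
  have h1 : (Q u y s) * (Q u y s).adjugate = 1 := mul_adj (det_Q s u y h.low h.up s le_rfl)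
  have h3 : g.adjugate * g = 1 := adj_mul hg
  have e : g * (T t u s * Q u y s) * g.adjugate * rho g t u y s =
      g * (T t u s * diagonal (t s) * (y s * Q u y s)) * g.adjugate := by
    calc g * (T t u s * Q u y s) * g.adjugate * rho g t u y s
        = g * T t u s * (Q u y s * ((g.adjugate * g) * (Q u y s).adjugate)) * diagonal (t s) *
            y s * Q u y s * g.adjugate := by simp only [rho, mul_assoc]
      _ = g * T t u s * diagonal (t s) * y s * Q u y s * g.adjugate := by
          rw [h3, one_mul, h1, mul_one]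
      _ = _ := by simp only [mul_assoc]
  rw [e, charpoly_conj hg]
  have hY : UpD (y s * Q u y s) δ := ⟨h.diag, h.zero⟩
  have h4 := (((T_upD t u s h.up s le_rfl).mul (UpD.diagonal (t s))).mul hY).charpoly
  rw [h4]
  refine Finset.prod_congr rfl fun k _ => ?_
  rw [Finset.prod_range_succ, mul_comm (δ k)]

end Pool.Agent.MP_3f0e22_ag.Rh

namespace Pool.Agent.MP_3f0e22_ag

alias rho_charpoly := Rh.rho_charpoly
alias rho_prod_charpoly := Rh.rho_prod_charpoly

end Pool.Agent.MP_3f0e22_ag
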