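import Pool.Agent.MP_3f0e22_ag.Defs2
import Pool.Agent.MP_3f0e22_ag.Rh

/-!
# MP_3f0e22_ag, version 2, block RHb: the characteristic polynomial of the value of a word
-/

set_option autoImplicit false

open Matrix

namespace Pool.Agent.MP_3f0e22_ag.RHb

open Pool.Agent.MP_3f0e22_ag.Rh (UpD)

variable {R : Type*} [CommRing R] {r : ℕ}

theorem UpD.of_upU {a : Mat r R} (ha : UpU a) : UpD a (fun _ => 1) := ha

theorem UpD.conj_low {a : Mat r R} (ha : LowU a) (s t : Fin r → R) :
    UpD (Jm R r * (diagonal s * a * diagonal t) * Jm R r) (fun k => s k.rev * t k.rev) := by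
  constructor
  · intro i
    rw [Jm_conj_apply, Matrix.mul_diagonal, Matrix.diagonal_mul, ha.1, mul_one]
  · intro i j hij
    rw [Jm_conj_apply, Matrix.mul_diagonal, Matrix.diagonal_mul,
      ha.2 _ _ (Fin.rev_lt_rev.mpr hij), mul_zero, zero_mul]

theorem det_Jm_sq : (Jm R r).det * (Jm R r).det = 1 := by
  rw [← Matrix.det_mul, Jm_mul_Jm, Matrix.det_one]

section frames

variable {s : ℕ} {g : Mat r R} {u y : ℕ → Mat r R}

theorem det_yQ (hy : ∀ i ≤ s, LowU (y i)) (hu : ∀ i < s, UpU (u i)) (i : ℕ) (hi : i ≤ s) :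
    (y i * Q u y i).det = 1 := by
  rw [Matrix.det_mul, (hy i hi).det, Rh.det_Q s u y hy hu i hi, one_mul]

theorem det_adj {a : Mat r R} (h : a.det = 1) : a.adjugate.det = 1 := by
  have h1 := congrArg Matrix.det (Rh.mul_adj h)
  rwa [Matrix.det_mul, h, one_mul, Matrix.det_one] at h1

theorem det_Cm (hg : g.det = 1) (hy : ∀ i ≤ s, LowU (y i)) (hu : ∀ i < s, UpU (u i)) (i : ℕ)
    (hi : i ≤ s) : (Cm g u y i).det = 1 := by
  rw [Cm, Matrix.det_mul, hg, det_adj (Rh.det_Q s u y hy hu i hi), one_mul]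

theorem det_Ci (hg : g.det = 1) (hy : ∀ i ≤ s, LowU (y i)) (hu : ∀ i < s, UpU (u i)) (i : ℕ)
    (hi : i ≤ s) : (Ci g u y i).det = 1 := by
  rw [Ci, Matrix.det_mul, det_adj hg, Rh.det_Q s u y hy hu i hi, one_mul]

theorem det_Hm (hg : g.det = 1) (hy : ∀ i ≤ s, LowU (y i)) (hu : ∀ i < s, UpU (u i)) (i : ℕ)
    (hi : i ≤ s) : (Hm g u y i).det = 1 := by
  rw [Hm, Matrix.det_mul, hg, det_adj (det_yQ hy hu i hi), one_mul]

theorem det_Hi (hg : g.det = 1) (hy : ∀ i ≤ s, LowU (y i)) (hu : ∀ i < s, UpU (u i)) (i : ℕ)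
    (hi : i ≤ s) : (Hi g u y i).det = 1 := by
  rw [Hi, Matrix.det_mul, det_adj hg, det_yQ hy hu i hi, one_mul]

theorem Ci_Cm (hg : g.det = 1) (hy : ∀ i ≤ s, LowU (y i)) (hu : ∀ i < s, UpU (u i)) (i : ℕ)
    (hi : i ≤ s) : Ci g u y i * Cm g u y i = 1 := by
  rw [Ci, Cm, Matrix.mul_assoc, ← Matrix.mul_assoc g.adjugate, Rh.adj_mul hg, Matrix.one_mul,
    Rh.mul_adj (Rh.det_Q s u y hy hu i hi)]

theorem Cm_Ci (hg : g.det = 1) (hy : ∀ i ≤ s, LowU (y i)) (hu : ∀ i < s, UpU (u i)) (i : ℕ)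
    (hi : i ≤ s) : Cm g u y i * Ci g u y i = 1 := by
  rw [Ci, Cm, Matrix.mul_assoc, ← Matrix.mul_assoc (Q u y i).adjugate,
    Rh.adj_mul (Rh.det_Q s u y hy hu i hi), Matrix.one_mul, Rh.mul_adj hg]

theorem Hi_Hm (hg : g.det = 1) (hy : ∀ i ≤ s, LowU (y i)) (hu : ∀ i < s, UpU (u i)) (i : ℕ)
    (hi : i ≤ s) : Hi g u y i * Hm g u y i = 1 := by
  rw [Hi, Hm, Matrix.mul_assoc, ← Matrix.mul_assoc g.adjugate, Rh.adj_mul hg, Matrix.one_mul,
    Rh.mul_adj (det_yQ hy hu i hi)]

theorem Hm_Hi (hg : g.det = 1) (hy : ∀ i ≤ s, LowU (y i)) (hu : ∀ i < s, UpU (u i)) (i : ℕ)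
    (hi : i ≤ s) : Hm g u y i * Hi g u y i = 1 := by
  rw [Hi, Hm, Matrix.mul_assoc, ← Matrix.mul_assoc (y i * Q u y i).adjugate,
    Rh.adj_mul (det_yQ hy hu i hi), Matrix.one_mul, Rh.mul_adj hg]

/-- `C_{i+1}⁻¹ = u_i H_i⁻¹` -/
theorem Ci_succ (i : ℕ) : Ci g u y (i + 1) = u i * Hi g u y i := by
  simp only [Ci, Hi, Q, Matrix.mul_assoc]

/-- `H_i⁻¹ = y_i C_i⁻¹` -/
theorem Hi_eq (i : ℕ) : Hi g u y i = y i * Ci g u y i := by
  simp only [Ci, Hi, Matrix.mul_assoc]

/-- `H_i⁻¹ C_{i+1} = u_i⁻¹` -/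
theorem Hi_Cm_succ (hg : g.det = 1) (hy : ∀ i ≤ s, LowU (y i)) (hu : ∀ i < s, UpU (u i)) (i : ℕ)
    (hi : i < s) : Hi g u y i * Cm g u y (i + 1) = (u i).adjugate := by
  have h1 := Ci_Cm hg hy hu (i + 1) hi
  rw [Ci_succ, Matrix.mul_assoc] at h1
  calc Hi g u y i * Cm g u y (i + 1)
      = ((u i).adjugate * u i) * (Hi g u y i * Cm g u y (i + 1)) := by
        rw [(hu i hi).adjugate_mul, Matrix.one_mul]
    _ = (u i).adjugate * (u i * (Hi g u y i * Cm g u y (i + 1))) := by rw [Matrix.mul_assoc]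
    _ = _ := by rw [h1, Matrix.mul_one]

/-- `C_i⁻¹ H_i = y_i⁻¹` -/
theorem Ci_Hm (hg : g.det = 1) (hy : ∀ i ≤ s, LowU (y i)) (hu : ∀ i < s, UpU (u i)) (i : ℕ)
    (hi : i ≤ s) : Ci g u y i * Hm g u y i = (y i).adjugate := by
  have h1 := Hi_Hm hg hy hu i hi
  rw [Hi_eq, Matrix.mul_assoc] at h1
  calc Ci g u y i * Hm g u y i
      = ((y i).adjugate * y i) * (Ci g u y i * Hm g u y i) := by
        rw [(hy i hi).adjugate_mul, Matrix.one_mul]
    _ = (y i).adjugate * (y i * (Ci g u y i * Hm g u y i)) := by rw [Matrix.mul_assoc]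
    _ = _ := by rw [h1, Matrix.mul_one]

end frames

/-- The diagonal matrices with unit entries. -/
theorem diag_inv_mul (t : Fin r → Rˣ) :
    diagonal (fun k => ((t k)⁻¹ : Rˣ).val) * diagonal (fun k => (t k : R)) = (1 : Mat r R) := by
  rw [Matrix.diagonal_mul_diagonal]
  simp

theorem diag_mul_inv (t : Fin r → Rˣ) :
    diagonal (fun k => (t k : R)) * diagonal (fun k => ((t k)⁻¹ : Rˣ).val) = (1 : Mat r R) := by
  rw [Matrix.diagonal_mul_diagonal]
  simp

theorem adj_unique {a b : Mat r R} (ha : a.det = 1) (h : a * b = 1) : a.adjugate = b := by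
  calc a.adjugate = a.adjugate * (a * b) := by rw [h, Matrix.mul_one]
    _ = b := by rw [← Matrix.mul_assoc, Rh.adj_mul ha, Matrix.one_mul]

theorem comm_eq {α β : Mat r R} (hα : α.det = 1) (hβ : β.det = 1) :
    (Letter.hd (α.adjugate * β.adjugate * α) (α.adjugate * β * α * β.adjugate * α)).val =
      β * α.adjugate * β.adjugate * α := by
  have a1 := Rh.mul_adj hα
  have a2 := Rh.adj_mul hα
  have b1 := Rh.mul_adj hβ
  have b2 := Rh.adj_mul hβ
  have ha : (α.adjugate * β.adjugate * α).adjugate = α.adjugate * β * α := by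
    refine adj_unique ?_ ?_
    · rw [Matrix.det_mul, Matrix.det_mul, det_adj hα, det_adj hβ, hα]; simp
    · calc α.adjugate * β.adjugate * α * (α.adjugate * β * α)
          = α.adjugate * β.adjugate * (α * α.adjugate) * β * α := by simp only [Matrix.mul_assoc]
        _ = α.adjugate * (β.adjugate * β) * α := by
            rw [a1, Matrix.mul_one]; simp only [Matrix.mul_assoc]
        _ = 1 := by rw [b2, Matrix.mul_one, a2]
  have hb : (α.adjugate * β * α * β.adjugate * α).adjugate =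
      α.adjugate * β * α.adjugate * β.adjugate * α := by
    refine adj_unique ?_ ?_
    · simp only [Matrix.det_mul, det_adj hα, det_adj hβ, hα, hβ]; simp
    · calc α.adjugate * β * α * β.adjugate * α * (α.adjugate * β * α.adjugate * β.adjugate * α)
          = α.adjugate * β * α * β.adjugate * (α * α.adjugate) * β * α.adjugate * β.adjugate * α := by
            simp only [Matrix.mul_assoc]
        _ = α.adjugate * β * α * (β.adjugate * β) * α.adjugate * β.adjugate * α := by
            rw [a1, Matrix.mul_one]; simp only [Matrix.mul_assoc]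
        _ = α.adjugate * β * (α * α.adjugate) * β.adjugate * α := by
            rw [b2, Matrix.mul_one]; simp only [Matrix.mul_assoc]
        _ = α.adjugate * (β * β.adjugate) * α := by
            rw [a1, Matrix.mul_one]; simp only [Matrix.mul_assoc]
        _ = 1 := by rw [b1, Matrix.mul_one, a2]
  rw [Letter.val, ha, hb]
  calc α.adjugate * β.adjugate * α * (α.adjugate * β * α * β.adjugate * α) *
        (α.adjugate * β * α) * (α.adjugate * β * α.adjugate * β.adjugate * α)
      = α.adjugate * β.adjugate * (α * α.adjugate) * β * α * β.adjugate * (α * α.adjugate) * β *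
          (α * α.adjugate) * β * α.adjugate * β.adjugate * α := by simp only [Matrix.mul_assoc]
    _ = α.adjugate * (β.adjugate * β) * α * (β.adjugate * β) * β * α.adjugate * β.adjugate *
          α := by rw [a1]; simp only [Matrix.mul_one, Matrix.mul_assoc]
    _ = (α.adjugate * α) * β * α.adjugate * β.adjugate * α := by
        rw [b2]; simp only [Matrix.mul_one]
    _ = _ := by rw [a2, Matrix.one_mul]

section

variable {s : ℕ} {g : Mat r R} {u y : ℕ → Mat r R}

theorem det_al (hg : g.det = 1) (hy : ∀ i ≤ s, LowU (y i)) (hu : ∀ i < s, UpU (u i)) (i : ℕ)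
    (hi : i < s) (t : Fin r → R) (ht : ∏ k, t k = (Jm R r).det) : (al g u y i t).det = 1 := by
  rw [al, Matrix.det_mul, Matrix.det_mul, Matrix.det_mul, det_Hm hg hy hu i hi.le,
    det_Hi hg hy hu (i + 1) hi, Matrix.det_diagonal, ht, one_mul, mul_one, det_Jm_sq]

theorem det_be (hg : g.det = 1) (hy : ∀ i ≤ s, LowU (y i)) (hu : ∀ i < s, UpU (u i)) (i : ℕ)
    (hi : i < s) (t : Fin r → R) (ht : ∏ k, t k = (Jm R r).det) : (be g u y i t).det = 1 := by
  rw [be, Matrix.det_mul, Matrix.det_mul, Matrix.det_mul, det_Cm hg hy hu i hi.le,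
    det_Ci hg hy hu (i + 1) hi, Matrix.det_diagonal, ht, one_mul, mul_one, det_Jm_sq]

theorem al_adj (hg : g.det = 1) (hy : ∀ i ≤ s, LowU (y i)) (hu : ∀ i < s, UpU (u i)) (i : ℕ)
    (hi : i < s) (t : Fin r → Rˣ) (ht : ∏ k, (t k : R) = (Jm R r).det) :
    (al g u y i fun k => (t k : R)).adjugate =
      Hm g u y (i + 1) * diagonal (fun k => ((t k)⁻¹ : Rˣ).val) * Jm R r * Hi g u y i := by
  refine adj_unique (det_al hg hy hu i hi _ ht) ?_
  rw [al]
  calc Hm g u y i * Jm R r * diagonal (fun k => (t k : R)) * Hi g u y (i + 1) *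
        (Hm g u y (i + 1) * diagonal (fun k => ((t k)⁻¹ : Rˣ).val) * Jm R r * Hi g u y i)
      = Hm g u y i * Jm R r * diagonal (fun k => (t k : R)) *
          (Hi g u y (i + 1) * Hm g u y (i + 1)) * diagonal (fun k => ((t k)⁻¹ : Rˣ).val) *
          Jm R r * Hi g u y i := by simp only [Matrix.mul_assoc]
    _ = Hm g u y i * Jm R r * (diagonal (fun k => (t k : R)) *
          diagonal (fun k => ((t k)⁻¹ : Rˣ).val)) * Jm R r * Hi g u y i := by
        rw [Hi_Hm hg hy hu (i + 1) hi, Matrix.mul_one]; simp only [Matrix.mul_assoc]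
    _ = Hm g u y i * (Jm R r * Jm R r) * Hi g u y i := by
        rw [diag_mul_inv, Matrix.mul_one]; simp only [Matrix.mul_assoc]
    _ = 1 := by rw [Jm_mul_Jm, Matrix.mul_one, Hm_Hi hg hy hu i hi.le]

theorem be_adj (hg : g.det = 1) (hy : ∀ i ≤ s, LowU (y i)) (hu : ∀ i < s, UpU (u i)) (i : ℕ)
    (hi : i < s) (t : Fin r → Rˣ) (ht : ∏ k, (t k : R) = (Jm R r).det) :
    (be g u y i fun k => (t k : R)).adjugate =
      Cm g u y (i + 1) * diagonal (fun k => ((t k)⁻¹ : Rˣ).val) * Jm R r * Ci g u y i := by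
  refine adj_unique (det_be hg hy hu i hi _ ht) ?_
  rw [be]
  calc Cm g u y i * Jm R r * diagonal (fun k => (t k : R)) * Ci g u y (i + 1) *
        (Cm g u y (i + 1) * diagonal (fun k => ((t k)⁻¹ : Rˣ).val) * Jm R r * Ci g u y i)
      = Cm g u y i * Jm R r * diagonal (fun k => (t k : R)) *
          (Ci g u y (i + 1) * Cm g u y (i + 1)) * diagonal (fun k => ((t k)⁻¹ : Rˣ).val) *
          Jm R r * Ci g u y i := by simp only [Matrix.mul_assoc]
    _ = Cm g u y i * Jm R r * (diagonal (fun k => (t k : R)) *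
          diagonal (fun k => ((t k)⁻¹ : Rˣ).val)) * Jm R r * Ci g u y i := by
        rw [Ci_Cm hg hy hu (i + 1) hi, Matrix.mul_one]; simp only [Matrix.mul_assoc]
    _ = Cm g u y i * (Jm R r * Jm R r) * Ci g u y i := by
        rw [diag_mul_inv, Matrix.mul_one]; simp only [Matrix.mul_assoc]
    _ = 1 := by rw [Jm_mul_Jm, Matrix.mul_one, Cm_Ci hg hy hu i hi.le]

/-- The value of a letter. -/
theorem letter_val (hg : g.det = 1) (hy : ∀ i ≤ s, LowU (y i)) (hu : ∀ i < s, UpU (u i)) (i : ℕ)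
    (p : LP r R) (hi : i + p.len ≤ s + 1) (hp : p.OK) :
    ∃ U : Mat r R, UpD U (fun k => (p.th k : R)) ∧
      (p.letter g u y i).val = Cm g u y i * U * Hi g u y (i + p.len - 1) := by
  cases p with
  | pt t =>
    refine ⟨diagonal fun k => (t k : R), Rh.UpD.diagonal _, ?_⟩
    simp only [LP.letter, Letter.val, LP.len, Nat.add_sub_cancel]
  | hd a b =>
    obtain ⟨ha, hb⟩ := hp
    have hi' : i < s := by simp only [LP.len] at hi; omega
    have e1 : i + (LP.hd a b : LP r R).len - 1 = i + 1 := by simp only [LP.len]; omega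
    refine ⟨(Jm R r * (diagonal (fun k => (b k : R)) * (y (i + 1)).adjugate *
        diagonal (fun k => ((a k)⁻¹ : Rˣ).val)) * Jm R r) * (u i).adjugate *
        (diagonal (fun k => ((b k)⁻¹ : Rˣ).val) * (Jm R r * (y i).adjugate * Jm R r) *
          diagonal (fun k => (a k : R))), ?_, ?_⟩
    · have h1 := UpD.conj_low (hy (i + 1) hi').adjugate (fun k => (b k : R))
        (fun k => ((a k)⁻¹ : Rˣ).val)
      have h2 : UpD (u i).adjugate (fun _ => (1 : R)) := (hu i hi').adjugate
      have h3 : UpD (Jm R r * (y i).adjugate * Jm R r) (fun _ => (1 : R)) :=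
        ((hy i hi'.le).adjugate).conj_Jm
      have h4 := (h1.mul h2).mul
        (((Rh.UpD.diagonal (fun k => ((b k)⁻¹ : Rˣ).val)).mul h3).mul
          (Rh.UpD.diagonal (fun k => (a k : R))))
      refine ⟨fun k => ?_, h4.2⟩
      rw [h4.1]
      simp only [LP.th, mul_one, Units.val_mul, _root_.mul_inv_rev, inv_inv]
      ring
    · rw [e1, LP.letter]
      have e2 := comm_eq (det_al hg hy hu i hi' (fun k => (a k : R)) ha)
        (det_be hg hy hu i hi' (fun k => (b k : R)) hb)
      rw [e2, al_adj hg hy hu i hi' a ha, be_adj hg hy hu i hi' b hb, al, be]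
      calc Cm g u y i * Jm R r * diagonal (fun k => (b k : R)) * Ci g u y (i + 1) *
            (Hm g u y (i + 1) * diagonal (fun k => ((a k)⁻¹ : Rˣ).val) * Jm R r * Hi g u y i) *
            (Cm g u y (i + 1) * diagonal (fun k => ((b k)⁻¹ : Rˣ).val) * Jm R r * Ci g u y i) *
            (Hm g u y i * Jm R r * diagonal (fun k => (a k : R)) * Hi g u y (i + 1))
          = Cm g u y i * Jm R r * diagonal (fun k => (b k : R)) *
              (Ci g u y (i + 1) * Hm g u y (i + 1)) *
              diagonal (fun k => ((a k)⁻¹ : Rˣ).val) * Jm R r *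
              (Hi g u y i * Cm g u y (i + 1)) * diagonal (fun k => ((b k)⁻¹ : Rˣ).val) * Jm R r *
              (Ci g u y i * Hm g u y i) * Jm R r * diagonal (fun k => (a k : R)) *
              Hi g u y (i + 1) := by simp only [Matrix.mul_assoc]
        _ = _ := by
            rw [Ci_Hm hg hy hu (i + 1) hi', Hi_Cm_succ hg hy hu i hi', Ci_Hm hg hy hu i hi'.le]
            simp only [Matrix.mul_assoc]

theorem one_le_len (p : LP r R) : 1 ≤ p.len := by cases p <;> simp [LP.len]

/-- The value of a nonempty word. -/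
theorem word_val (hg : g.det = 1) (hy : ∀ i ≤ s, LowU (y i)) (hu : ∀ i < s, UpU (u i))
    (L : List (LP r R)) : ∀ (i : ℕ) (p : LP r R), i + llen (p :: L) ≤ s + 1 →
      (∀ q ∈ p :: L, q.OK) →
      ∃ T : Mat r R, UpD T (fun k => (Th (p :: L) k : R)) ∧
        wval (word g u y i (p :: L)) = Cm g u y i * T * Hi g u y (i + llen (p :: L) - 1) := by
  induction L with
  | nil =>
    intro i p hi hOK
    have e : llen [p] = p.len := by simp [llen]
    rw [e] at hi ⊢
    obtain ⟨U, hU, hv⟩ := letter_val hg hy hu i p hi (hOK p (by simp))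
    refine ⟨U, ?_, ?_⟩
    · have e2 : (fun k => (Th [p] k : R)) = fun k => (p.th k : R) := by
        funext k; simp [Th]
      rw [e2]; exact hU
    · rw [← hv]; simp [word, wval]
  | cons p' L ih =>
    intro i p hi hOK
    have e : llen (p :: p' :: L) = p.len + llen (p' :: L) := by simp [llen]
    have h1 := one_le_len p
    have h1' : 1 ≤ llen (p' :: L) := by
      have := one_le_len p'
      simp only [llen, List.map_cons, List.sum_cons]; omega
    rw [e] at hi ⊢
    obtain ⟨U, hU, hv⟩ := letter_val hg hy hu i p (by omega) (hOK p (by simp))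
    obtain ⟨T, hT, hw⟩ := ih (i + p.len) p' (by omega) fun q hq => hOK q (List.mem_cons_of_mem _ hq)
    have hlt : i + p.len - 1 < s := by omega
    have hs : i + p.len - 1 + 1 = i + p.len := by omega
    have h2 : UpD (u (i + p.len - 1)).adjugate (fun _ => (1 : R)) := (hu _ hlt).adjugate
    refine ⟨U * (u (i + p.len - 1)).adjugate * T, ?_, ?_⟩
    · have h3 := (hU.mul h2).mul hT
      refine ⟨fun k => ?_, h3.2⟩
      rw [h3.1]
      simp [Th]
    · have hc := Hi_Cm_succ hg hy hu _ hlt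
      rw [hs] at hc
      have e3 : wval (word g u y i (p :: p' :: L)) =
          (p.letter g u y i).val * wval (word g u y (i + p.len) (p' :: L)) := by
        simp [word, wval]
      rw [e3, hv, hw, show i + (p.len + llen (p' :: L)) - 1 = i + p.len + llen (p' :: L) - 1 by omega]
      calc Cm g u y i * U * Hi g u y (i + p.len - 1) *
            (Cm g u y (i + p.len) * T * Hi g u y (i + p.len + llen (p' :: L) - 1))
          = Cm g u y i * U * (Hi g u y (i + p.len - 1) * Cm g u y (i + p.len)) * T *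
              Hi g u y (i + p.len + llen (p' :: L) - 1) := by simp only [Matrix.mul_assoc]
        _ = _ := by rw [hc]; simp only [Matrix.mul_assoc]

end

end Pool.Agent.MP_3f0e22_ag.RHb

namespace Pool.Agent.MP_3f0e22_ag.RHb

variable {R : Type*} [CommRing R] {r : ℕ}

theorem word_charpoly {s : ℕ} (g : Mat r R) (hg : g.det = 1) (u y : ℕ → Mat r R)
    (δ : Fin r → R) (h : InZ s δ u y) (L : List (LP r R)) (hL : llen L = s + 1)
    (hOK : ∀ p ∈ L, p.OK) :
    (wval (word g u y 0 L)).charpoly =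
      ∏ k, (Polynomial.X - Polynomial.C (δ k * (Th L k : R))) := by
  cases L with
  | nil => simp [llen] at hL
  | cons p L =>
    obtain ⟨T, hT, hw⟩ := word_val hg h.low h.up L 0 p (by omega) hOK
    rw [hw, hL]
    have e : Cm g u y 0 * T * Hi g u y (0 + (s + 1) - 1) =
        g * (T * (y s * Q u y s)) * g.adjugate := by
      rw [show 0 + (s + 1) - 1 = s by omega, Cm, Hi, Q, Matrix.adjugate_one, Matrix.mul_one]
      simp only [Matrix.mul_assoc]
    have hY : Rh.UpD (y s * Q u y s) δ := ⟨h.diag, h.zero⟩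
    rw [e, Rh.charpoly_conj hg, (hT.mul hY).charpoly]
    exact Finset.prod_congr rfl fun k _ => by rw [mul_comm]

end Pool.Agent.MP_3f0e22_ag.RHb

namespace Pool.Agent.MP_3f0e22_ag

alias word_charpoly := RHb.word_charpoly

end Pool.Agent.MP_3f0e22_ag
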