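import Pool.Agent.MP_3f0e22_ag.Acl

/-! # Block SL: density in `SL_r` -/

set_option autoImplicit false

open Matrix MvPolynomial

namespace Pool.Agent.MP_3f0e22_ag

section SLdens

variable {Ω : Type*} [Field Ω] {r : ℕ}

/-- `F` vanishes on `SL_r(S)`. -/
def SlVan (S : Subring Ω) (F : MvPolynomial (Fin r × Fin r) Ω) : Prop :=
  ∀ g : Mat r Ω, g.det = 1 → (∀ i j, g i j ∈ S) → eval (fun x => g x.1 x.2) F = 0

/-- The Zariski closure of `SL_r(S)`. -/
def SlCl (S : Subring Ω) (g : Mat r Ω) : Prop :=
  ∀ F : MvPolynomial (Fin r × Fin r) Ω, SlVan S F → eval (fun x => g x.1 x.2) F = 0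

theorem sl_transvection_apply (i j : Fin r) (c : Ω) (g : Mat r Ω) (p q : Fin r) :
    (transvection i j c * g) p q = g p q + if p = i then c * g j q else 0 := by
  by_cases h : p = i
  · subst h; simp
  · simp [h]

theorem sl_eval_bind (i j : Fin r) (c : Ω) (g : Mat r Ω) (F : MvPolynomial (Fin r × Fin r) Ω) :
    eval (fun x => g x.1 x.2) (bind₁ (fun x : Fin r × Fin r =>
      X x + if x.1 = i then C c * X (j, x.2) else 0) F) =
    eval (fun x => (transvection i j c * g) x.1 x.2) F := by
  rw [MvPolynomial.eval, eval₂Hom_bind₁]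
  congr 2
  funext x
  rw [sl_transvection_apply]
  split_ifs <;> simp

theorem SlVan.transvection_mem {S : Subring Ω} {i j : Fin r} (hij : i ≠ j) {c : Ω} (hc : c ∈ S)
    {F : MvPolynomial (Fin r × Fin r) Ω} (hF : SlVan S F) :
    SlVan S (bind₁ (fun x : Fin r × Fin r =>
      X x + if x.1 = i then C c * X (j, x.2) else 0) F) := by
  intro g hg hgS
  have h1 : eval (fun x => (transvection i j c * g) x.1 x.2) F = 0 := by
    refine hF _ ?_ ?_
    · rw [det_mul, det_transvection_of_ne _ _ hij, hg, one_mul]
    · intro p q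
      rw [sl_transvection_apply]
      split_ifs
      · exact S.add_mem (hgS _ _) (S.mul_mem hc (hgS _ _))
      · exact S.add_mem (hgS _ _) S.zero_mem
  rw [sl_eval_bind, h1]

theorem SlCl.transvection_mem {S : Subring Ω} {i j : Fin r} (hij : i ≠ j) {c : Ω} (hc : c ∈ S)
    {g : Mat r Ω} (hg : SlCl S g) : SlCl S (transvection i j c * g) := by
  intro F hF
  have h1 := hg _ (hF.transvection_mem hij hc)
  rwa [sl_eval_bind] at h1

theorem SlCl.transvection {S : Subring Ω} (hS : (S : Set Ω).Infinite) {i j : Fin r} (hij : i ≠ j)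
    (c : Ω) {g : Mat r Ω} (hg : SlCl S g) : SlCl S (transvection i j c * g) := by
  intro F hF
  set p : Polynomial Ω := aeval (fun x : Fin r × Fin r =>
    Polynomial.C (g x.1 x.2) + if x.1 = i then Polynomial.X * Polynomial.C (g j x.2) else 0) F
    with hp
  have hev : ∀ c : Ω, Polynomial.eval c p = eval (fun x => (Matrix.transvection i j c * g) x.1 x.2) F := by
    intro c
    rw [hp, ← Polynomial.coe_evalRingHom, MvPolynomial.aeval_def, MvPolynomial.hom_eval₂,
      MvPolynomial.eval, MvPolynomial.coe_eval₂Hom]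
    congr 1
    · ext; simp
    · funext x
      rw [sl_transvection_apply]
      split_ifs
      · simp [mul_comm c]
      · simp
  have hp0 : p = 0 := by
    refine Polynomial.eq_zero_of_infinite_isRoot p (hS.mono ?_)
    intro c hc
    show Polynomial.IsRoot p c
    rw [Polynomial.IsRoot, hev c]
    exact hg.transvection_mem hij hc F hF
  rw [← hev c, hp0, Polynomial.eval_zero]

/-- The stabilizer of the closure. -/
def SlSt (S : Subring Ω) (h : Mat r Ω) : Prop := ∀ g : Mat r Ω, SlCl S g → SlCl S (h * g)

theorem SlSt.mul {S : Subring Ω} {a b : Mat r Ω} (ha : SlSt S a) (hb : SlSt S b) :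
    SlSt S (a * b) := by
  intro g hg
  rw [Matrix.mul_assoc]
  exact ha _ (hb _ hg)

theorem SlSt.one {S : Subring Ω} : SlSt S (1 : Mat r Ω) := by
  intro g hg
  rwa [Matrix.one_mul]

theorem SlSt.tr {S : Subring Ω} (hS : (S : Set Ω).Infinite) {i j : Fin r} (hij : i ≠ j)
    (c : Ω) : SlSt S (transvection i j c) := fun _ hg => hg.transvection hS hij c

/-- Whitehead. -/
theorem sl_whitehead {i j : Fin r} (hij : i ≠ j) {a : Ω} (ha : a ≠ 0) :
    transvection i j a * (transvection j i (-a⁻¹) * (transvection i j a *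
      (transvection i j (-1) * (transvection j i 1 * transvection i j (-1))))) =
    diagonal (fun k => if k = i then a else if k = j then a⁻¹ else 1) := by
  have hij' := hij.symm
  ext p q
  have hlast : ∀ p q : Fin r, (transvection i j (-1 : Ω)) p q =
      (if p = q then 1 else 0) + (if i = p ∧ j = q then -1 else 0) := by
    intro p q
    rw [Matrix.transvection, Matrix.add_apply, Matrix.one_apply, Matrix.single_apply]
  rw [Matrix.diagonal_apply]
  simp only [sl_transvection_apply, hlast]
  by_cases hp : p = i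
  · subst hp
    by_cases hq : q = p
    · subst hq
      simp [hij, hij', ha]
    · have hq' : p ≠ q := fun h => hq h.symm
      by_cases hqj : q = j
      · subst hqj
        simp [hij, hij', ha, hq, hq']
      · have hqj' : j ≠ q := fun h => hqj h.symm
        simp [hij, hij', ha, hq, hq', hqj, hqj']
  · have hp' : i ≠ p := fun h => hp h.symm
    by_cases hpj : p = j
    · subst hpj
      by_cases hq : q = p
      · subst hq
        simp [hij, hij', ha, hp, hp']
      · have hq' : p ≠ q := fun h => hq h.symm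
        by_cases hqi : q = i
        · subst hqi
          simp [hij, hij', ha, hq, hq']
        · have hqi' : i ≠ q := fun h => hqi h.symm
          simp [hij, hij', ha, hq, hq', hqi, hqi']
    · have hpj' : j ≠ p := fun h => hpj h.symm
      simp [hp, hp', hpj, hpj']

theorem SlSt.hdiag {S : Subring Ω} (hS : (S : Set Ω).Infinite) {i j : Fin r} (hij : i ≠ j)
    {a : Ω} (ha : a ≠ 0) :
    SlSt S (diagonal (fun k => if k = i then a else if k = j then a⁻¹ else 1) : Mat r Ω) := by
  rw [← sl_whitehead hij ha]
  exact (SlSt.tr hS hij _).mul ((SlSt.tr hS hij.symm _).mul ((SlSt.tr hS hij _).mul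
    ((SlSt.tr hS hij _).mul ((SlSt.tr hS hij.symm _).mul (SlSt.tr hS hij _)))))

theorem SlSt.diag_aux {S : Subring Ω} (hS : (S : Set Ω).Infinite) (j : Fin r) (d : Fin r → Ω)
    (hd : ∀ k, d k ≠ 0) (s : Finset (Fin r)) (hs : j ∉ s) :
    SlSt S (diagonal (fun k => if k = j then (∏ l ∈ s, d l)⁻¹ else if k ∈ s then d k else 1) :
      Mat r Ω) := by
  induction s using Finset.induction_on with
  | empty =>
    have : (diagonal (fun k => if k = j then (∏ l ∈ (∅ : Finset (Fin r)), d l)⁻¹
        else if k ∈ (∅ : Finset (Fin r)) then d k else 1) : Mat r Ω) = 1 := by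
      rw [← diagonal_one]
      congr 1
      funext k
      simp
    rw [this]
    exact SlSt.one
  | insert i s hi ih =>
    have hij : i ≠ j := fun h => hs (h ▸ Finset.mem_insert_self _ _)
    have hjs : j ∉ s := fun h => hs (Finset.mem_insert_of_mem h)
    have h1 := (SlSt.hdiag hS hij (hd i)).mul (ih hjs)
    rw [diagonal_mul_diagonal] at h1
    convert h1 using 2
    funext k
    by_cases hkj : k = j
    · subst hkj
      simp [hij.symm, Finset.prod_insert hi, mul_comm]
    · by_cases hki : k = i
      · subst hki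
        simp [hkj, hi]
      · simp [hkj, hki]

theorem SlSt.diag {S : Subring Ω} (hS : (S : Set Ω).Infinite) (d : Fin r → Ω)
    (hd : (diagonal d).det = 1) : SlSt S (diagonal d : Mat r Ω) := by
  rw [det_diagonal] at hd
  rcases Nat.eq_zero_or_pos r with h0 | h0
  · subst h0
    have : (diagonal d : Mat 0 Ω) = 1 := Subsingleton.elim _ _
    rw [this]
    exact SlSt.one
  · have hd0 : ∀ k, d k ≠ 0 := by
      intro k hk
      have : ∏ k, d k = 0 := Finset.prod_eq_zero (Finset.mem_univ k) hk
      rw [this] at hd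
      exact zero_ne_one hd
    have h1 := SlSt.diag_aux hS (⟨0, h0⟩ : Fin r) d hd0 (Finset.univ.erase ⟨0, h0⟩) (by simp)
    convert h1 using 2
    funext k
    by_cases hk : k = ⟨0, h0⟩
    · subst hk
      have h2 : d ⟨0, h0⟩ * ∏ l ∈ Finset.univ.erase (⟨0, h0⟩ : Fin r), d l = 1 := by
        rw [Finset.mul_prod_erase _ _ (Finset.mem_univ _)]
        exact hd
      simp only [if_true]
      exact eq_inv_of_mul_eq_one_left h2
    · simp [hk]

theorem sl_density {Ω : Type*} [Field Ω] {r : ℕ} (S : Subring Ω) (hS : (S : Set Ω).Infinite)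
    (F : MvPolynomial (Fin r × Fin r) Ω)
    (hF : ∀ g : Mat r Ω, g.det = 1 → (∀ i j, g i j ∈ S) → eval (fun x => g x.1 x.2) F = 0)
    (g : Mat r Ω) (hg : g.det = 1) : eval (fun x => g x.1 x.2) F = 0 := by
  have h1 : SlSt S g := by
    refine diagonal_transvection_induction (fun g => SlSt S g) g ?_ ?_ ?_
    · intro d hd
      exact SlSt.diag hS d (hd.trans hg)
    · intro t
      exact SlSt.tr hS t.hij t.c
    · intro A B hA hB
      exact hA.mul hB
  have h2 : SlCl S (1 : Mat r Ω) := by
    intro F hF
    refine hF 1 det_one ?_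
    intro i j
    rw [one_apply]
    split_ifs
    · exact S.one_mem
    · exact S.zero_mem
  have h3 := h1 1 h2 F hF
  rwa [Matrix.mul_one] at h3

end SLdens

end Pool.Agent.MP_3f0e22_ag
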