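import Pool.Agent.MP_3f0e22_ag.Defs2
import Pool.Agent.MP_3f0e22_ag.Sl

/-! # Block TR: density of the integral points in a class -/

set_option autoImplicit false

open Matrix MvPolynomial

namespace Pool.Agent.MP_3f0e22_ag.TR

/-! ## The companion matrix -/

theorem exists_comp {O : Type} [CommRing O] [IsDomain O] {r : ℕ} (χ : Polynomial O)
    (hχ : χ.Monic) (hd : χ.natDegree = r) :
    ∃ C : Mat r O, C.charpoly = χ ∧
      ∀ i j : Fin r, (j : ℕ) + 1 < r → C i j = if (i : ℕ) = j + 1 then 1 else 0 := by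
  subst hd
  set pb := AdjoinRoot.powerBasis' hχ with hpb
  have hdim : pb.dim = χ.natDegree := rfl
  refine ⟨Algebra.leftMulMatrix pb.basis pb.gen, ?_, ?_⟩
  · have h1 := charpoly_leftMulMatrix pb
    refine h1.trans ?_
    have hroot : Polynomial.aeval pb.gen χ = 0 := by
      have : pb.gen = AdjoinRoot.root χ := rfl
      rw [this, AdjoinRoot.aeval_eq, AdjoinRoot.mk_self]
    symm
    refine minpoly.unique' O pb.gen hχ hroot ?_
    intro q hq
    refine or_iff_not_imp_left.2 fun h0 => ?_
    contrapose! hq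
    have := pb.dim_le_degree_of_root h0 hq
    rw [hdim] at this
    rwa [Polynomial.degree_eq_natDegree hχ.ne_zero]
  · intro i j hj
    rw [Algebra.leftMulMatrix_eq_repr_mul, PowerBasis.basis_eq_pow, ← pow_succ']
    have h2 : pb.gen ^ ((j : ℕ) + 1) = pb.basis (⟨(j : ℕ) + 1, hj⟩ : Fin χ.natDegree) := by
      rw [PowerBasis.basis_eq_pow]
    rw [h2, Module.Basis.repr_self, Finsupp.single_apply]
    by_cases h : (i : ℕ) = j + 1
    · rw [if_pos h]
      exact if_pos (Fin.ext h.symm)
    · rw [if_neg h]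
      exact if_neg (fun e => h (Fin.ext_iff.1 e).symm)

/-! ## Krylov matrices -/

/-- The matrix with the columns `M ^ j v`. -/
def kry {R : Type} [CommRing R] {r : ℕ} (M : Mat r R) (v : Fin r → R) : Mat r R :=
  of fun i j => (M ^ (j : ℕ) *ᵥ v) i

theorem kry_mulVec {R : Type} [CommRing R] {r : ℕ} (M : Mat r R) (v : Fin r → R) (j : Fin r) :
    kry M v *ᵥ (Pi.single j 1) = M ^ (j : ℕ) *ᵥ v := by
  funext i
  simp [kry]

theorem comp_pow {R : Type} [CommRing R] {r : ℕ} (C : Mat (r + 1) R)
    (hC : ∀ i j : Fin (r + 1), (j : ℕ) + 1 < r + 1 → C i j = if (i : ℕ) = j + 1 then 1 else 0)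
    (j : ℕ) (hj : j < r + 1) : C ^ j *ᵥ (Pi.single 0 1) = Pi.single (⟨j, hj⟩ : Fin (r + 1)) 1 := by
  induction j with
  | zero => rw [pow_zero, one_mulVec]; rfl
  | succ j ih =>
    rw [pow_succ', ← mulVec_mulVec, ih (by omega)]
    funext i
    rw [mulVec_single_one, col_apply, hC _ _ (by simpa using hj), Pi.single_apply]
    simp only [Fin.ext_iff]

theorem kry_comp {R : Type} [CommRing R] [Nontrivial R] {r : ℕ} (M C : Mat (r + 1) R)
    (hC : ∀ i j : Fin (r + 1), (j : ℕ) + 1 < r + 1 → C i j = if (i : ℕ) = j + 1 then 1 else 0)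
    (hch : M.charpoly = C.charpoly) (v : Fin (r + 1) → R) :
    M * kry M v = kry M v * C := by
  have h1 : ∀ p : Polynomial R, p.natDegree < r + 1 →
      kry M v *ᵥ (Polynomial.aeval C p *ᵥ (Pi.single 0 1)) = Polynomial.aeval M p *ᵥ v := by
    intro p hp
    rw [Polynomial.as_sum_range' p (r + 1) hp]
    simp only [map_sum, Matrix.sum_mulVec, Matrix.mulVec_sum]
    refine Finset.sum_congr rfl ?_
    intro i hi
    rw [Finset.mem_range] at hi
    simp only [Polynomial.aeval_monomial, ← Algebra.smul_def, smul_mulVec, mulVec_smul]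
    rw [comp_pow C hC i hi, kry_mulVec]
  have h2 : ∀ p : Polynomial R,
      kry M v *ᵥ (Polynomial.aeval C p *ᵥ (Pi.single 0 1)) = Polynomial.aeval M p *ᵥ v := by
    intro p
    have e1 : Polynomial.aeval C p = Polynomial.aeval C (p %ₘ C.charpoly) :=
      (Polynomial.aeval_modByMonic_eq_self_of_root (aeval_self_charpoly C)).symm
    have e2 : Polynomial.aeval M p = Polynomial.aeval M (p %ₘ C.charpoly) := by
      rw [← hch]
      exact (Polynomial.aeval_modByMonic_eq_self_of_root (aeval_self_charpoly M)).symm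
    rw [e1, e2]
    refine h1 _ ?_
    have := Polynomial.natDegree_modByMonic_lt p (charpoly_monic C) (by
      intro h
      have := charpoly_natDegree_eq_dim C
      rw [h] at this
      simp at this)
    rwa [charpoly_natDegree_eq_dim, Fintype.card_fin] at this
  refine Matrix.ext_of_mulVec_single ?_
  intro j
  rw [← mulVec_mulVec, kry_mulVec, mulVec_mulVec, ← pow_succ', ← mulVec_mulVec]
  have h3 := h2 (Polynomial.X ^ ((j : ℕ) + 1))
  simp only [map_pow, Polynomial.aeval_X] at h3
  rw [← h3, pow_succ', ← mulVec_mulVec, comp_pow C hC j j.2]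

/-! ## Triangular form -/

theorem exists_row {K : Type} [Field K] {n : ℕ} (x : Fin (n + 1) → K) (hx : x ≠ 0) :
    ∃ g : Mat (n + 1) K, g.det ≠ 0 ∧ g 0 = x := by
  obtain ⟨p, hp⟩ := Function.ne_iff.1 hx
  rw [Pi.zero_apply] at hp
  refine ⟨of (Fin.cons x (fun i => Pi.single (p.succAbove i) 1)), ?_, ?_⟩
  · intro h
    obtain ⟨y, hy, hy0⟩ := Matrix.exists_mulVec_eq_zero_iff.2 h
    apply hy
    have h1 : ∀ i, y (p.succAbove i) = 0 := by
      intro i
      have := congrFun hy0 i.succ
      simpa [mulVec, dotProduct, Pi.single_apply] using this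
    have h2 := congrFun hy0 0
    simp only [mulVec, dotProduct, of_apply, Fin.cons_zero, Pi.zero_apply] at h2
    rw [Fin.sum_univ_succAbove _ p] at h2
    simp only [h1, mul_zero, Finset.sum_const_zero, add_zero, mul_eq_zero] at h2
    have h3 := h2.resolve_left hp
    funext i
    rcases Fin.eq_self_or_eq_succAbove p i with h | ⟨j, h⟩
    · rw [h, h3, Pi.zero_apply]
    · rw [h, h1, Pi.zero_apply]
  · rfl

/-- `diag(1, z)` -/
def bd {K : Type} [CommRing K] {n : ℕ} (z : Mat n K) : Mat (n + 1) K :=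
  of (Fin.cons (Pi.single 0 1) (fun i => Fin.cons 0 (z i)))

theorem bd_mul_bd {K : Type} [CommRing K] {n : ℕ} (z w : Mat n K) (h : z * w = 1) :
    bd z * bd w = 1 := by
  ext i j
  rw [mul_apply, Fin.sum_univ_succ]
  refine Fin.cases ?_ (fun i => ?_) i <;> refine Fin.cases ?_ (fun j => ?_) j
  · simp [bd]
  · simp [bd, one_apply, (Fin.succ_ne_zero j).symm]
  · simp [bd]
  · have := congrFun (congrFun h i) j
    rw [mul_apply] at this
    simp only [bd, of_apply, Fin.cons_succ, Fin.cons_zero, zero_mul, zero_add]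
    rw [this, one_apply, one_apply]
    simp

theorem exists_lower {K : Type} [Field K] [IsAlgClosed K] : ∀ (n : ℕ) (A : Mat n K),
    ∃ h h' v : Mat n K, h * h' = 1 ∧ h' * h = 1 ∧ (∀ i j, i < j → v i j = 0) ∧ A = h * v * h'
  | 0, A => ⟨1, 1, A, by simp, by simp, fun i => i.elim0, by simp⟩
  | n + 1, A => by
    obtain ⟨l, hl⟩ : ∃ l, Polynomial.IsRoot A.charpoly l := by
      refine IsAlgClosed.exists_root _ ?_
      rw [charpoly_degree_eq_dim, Fintype.card_fin]
      exact_mod_cast Nat.succ_ne_zero n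
    have hdet : (A - scalar (Fin (n + 1)) l).det = 0 := by
      rw [Polynomial.IsRoot, Matrix.eval_charpoly] at hl
      rw [← neg_sub, det_neg, hl, mul_zero]
    obtain ⟨x, hx, hxA⟩ := Matrix.exists_vecMul_eq_zero_iff.2 hdet
    have hxl : x ᵥ* A = l • x := by
      rw [vecMul_sub, sub_eq_zero] at hxA
      rw [hxA]
      funext i
      simp [scalar_apply, vecMul_diagonal, mul_comm]
    obtain ⟨g, hg, hg0⟩ := exists_row x hx
    have hu : IsUnit g.det := isUnit_iff_ne_zero.2 hg
    have hg1 : g * g⁻¹ = 1 := mul_nonsing_inv _ hu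
    have hg2 : g⁻¹ * g = 1 := nonsing_inv_mul _ hu
    set B : Mat (n + 1) K := g * A * g⁻¹ with hB
    have hA : A = g⁻¹ * B * g := by
      rw [hB, ← Matrix.mul_assoc, ← Matrix.mul_assoc, hg2, Matrix.one_mul, Matrix.mul_assoc, hg2,
        Matrix.mul_one]
    have hB0 : ∀ j : Fin (n + 1), B 0 j = if j = 0 then l else 0 := by
      intro j
      have e1 : B 0 = (g 0) ᵥ* A ᵥ* g⁻¹ := by
        rw [hB]
        funext j
        rw [vecMul_vecMul, Matrix.mul_assoc]
        rfl
      have e2 : g 0 ᵥ* g⁻¹ = Pi.single 0 1 := by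
        funext j
        have := congrFun (congrFun hg1 0) j
        rw [mul_apply] at this
        show ∑ k, g 0 k * g⁻¹ k j = _
        rw [this, one_apply, Pi.single_apply]
        simp only [eq_comm]
      rw [e1, hg0, hxl, smul_vecMul, ← hg0, e2]
      simp [Pi.single_apply]
    obtain ⟨z, z', v, h1, h2, h3, h4⟩ := exists_lower n (B.submatrix Fin.succ Fin.succ)
    have h5 : v = z' * B.submatrix Fin.succ Fin.succ * z := by
      rw [h4, ← Matrix.mul_assoc, ← Matrix.mul_assoc, h2, Matrix.one_mul, Matrix.mul_assoc, h2,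
        Matrix.mul_one]
    have h6 := bd_mul_bd z z' h1
    have h7 := bd_mul_bd z' z h2
    refine ⟨g⁻¹ * bd z, bd z' * g, bd z' * B * bd z, ?_, ?_, ?_, ?_⟩
    · rw [Matrix.mul_assoc, ← Matrix.mul_assoc (bd z), h6, Matrix.one_mul, hg2]
    · rw [Matrix.mul_assoc, ← Matrix.mul_assoc g, hg1, Matrix.one_mul, h7]
    · intro i j hij
      obtain ⟨j, rfl⟩ := Fin.eq_succ_of_ne_zero (Fin.ne_zero_of_lt hij)
      refine Fin.cases (fun hij => ?_) (fun i hij => ?_) i hij
      · rw [mul_apply, Fin.sum_univ_succ]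
        have : ∀ k : Fin n, (bd z' * B) 0 k.succ = 0 := by
          intro k
          rw [mul_apply, Fin.sum_univ_succ]
          simp [bd, hB0]
        simp only [this, zero_mul, Finset.sum_const_zero, add_zero]
        simp [bd]
      · have h8 := h3 i j (Fin.succ_lt_succ_iff.1 hij)
        rw [h5, mul_apply] at h8
        rw [mul_apply, Fin.sum_univ_succ]
        have : ∀ k : Fin n, (bd z' * B) i.succ k.succ =
            (z' * B.submatrix Fin.succ Fin.succ) i k := by
          intro k
          rw [mul_apply, mul_apply, Fin.sum_univ_succ]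
          simp [bd]
        simp only [this]
        simpa [bd] using h8
    · rw [hA]
      calc g⁻¹ * B * g = g⁻¹ * (bd z * bd z') * B * (bd z * bd z') * g := by
            rw [h6, Matrix.mul_one, Matrix.mul_one]
        _ = _ := by simp only [Matrix.mul_assoc]

/-! ## Polynomial families -/

theorem conj_poly {Ω : Type} [Field Ω] {r : ℕ} (F : MvPolynomial (Fin r × Fin r) Ω)
    (M : Mat r Ω) : ∃ G : MvPolynomial (Fin r × Fin r) Ω, ∀ g : Mat r Ω,
      eval (fun x => g x.1 x.2) G = eval (fun x => (g * M * g.adjugate) x.1 x.2) F := by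
  set gX : Mat r (MvPolynomial (Fin r × Fin r) Ω) := of fun i j => X (i, j) with hgX
  set MC : Mat r (MvPolynomial (Fin r × Fin r) Ω) := M.map C with hMC
  refine ⟨aeval (fun x : Fin r × Fin r => (gX * MC * gX.adjugate) x.1 x.2) F, ?_⟩
  intro g
  have h1 : ∀ i j, eval (fun x => g x.1 x.2) ((gX * MC * gX.adjugate) i j) =
      (g * M * g.adjugate) i j := by
    intro i j
    have e0 : (eval (fun x : Fin r × Fin r => g x.1 x.2)).mapMatrix gX = g := by
      ext i j
      simp [hgX]
    have e1 : (eval (fun x : Fin r × Fin r => g x.1 x.2)).mapMatrix MC = M := by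
      ext i j
      simp [hMC]
    have e2 : (eval (fun x : Fin r × Fin r => g x.1 x.2)).mapMatrix
        (gX * MC * gX.adjugate) = g * M * g.adjugate := by
      rw [map_mul, map_mul, RingHom.map_adjugate, e0, e1]
    rw [← e2]
    rfl
  rw [MvPolynomial.aeval_def, MvPolynomial.hom_eval₂, MvPolynomial.eval, MvPolynomial.coe_eval₂Hom]
  congr 1
  · ext; simp
  · funext x
    exact h1 x.1 x.2

theorem line_poly {Ω : Type} [Field Ω] {r : ℕ} (F : MvPolynomial (Fin r × Fin r) Ω)
    (P Q : Mat r Ω) : ∃ G : Polynomial Ω, ∀ z : Ω,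
      G.eval z = eval (fun x => (P + z • Q) x.1 x.2) F := by
  refine ⟨aeval (fun x : Fin r × Fin r =>
    Polynomial.C (P x.1 x.2) + Polynomial.X * Polynomial.C (Q x.1 x.2)) F, ?_⟩
  intro z
  rw [← Polynomial.coe_evalRingHom, MvPolynomial.aeval_def, MvPolynomial.hom_eval₂,
    MvPolynomial.eval, MvPolynomial.coe_eval₂Hom]
  congr 1
  · ext; simp
  · funext x
    simp [mul_comm z]

theorem kry_map {R S : Type} [CommRing R] [CommRing S] (φ : R →+* S) {r : ℕ} (M : Mat r R)
    (v : Fin r → R) : φ.mapMatrix (kry M v) = kry (φ.mapMatrix M) (fun i => φ (v i)) := by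
  ext i j
  show φ ((M ^ (j : ℕ) *ᵥ v) i) = ((φ.mapMatrix M) ^ (j : ℕ) *ᵥ (fun i => φ (v i))) i
  rw [RingHom.map_mulVec, ← map_pow]
  rfl

theorem kry_poly {Ω : Type} [Field Ω] {r : ℕ} (N v : Mat r Ω) (e : Fin r → Ω) :
    ∃ G : Polynomial Ω, ∀ s : Ω, G.eval s = (kry (N + s • v) e).det := by
  refine ⟨(kry (N.map Polynomial.C + (Polynomial.X : Polynomial Ω) • v.map Polynomial.C)
    (fun i => Polynomial.C (e i))).det, ?_⟩
  intro s
  rw [← Polynomial.coe_evalRingHom, RingHom.map_det, kry_map]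
  congr 2
  · ext i j
    simp [mul_comm s]
  · funext i
    simp

theorem class_density {O Ω : Type} [CommRing O] [Field Ω] [IsAlgClosed Ω] {r : ℕ} (ι : O →+* Ω)
    (hι : Function.Injective ι) (hinf : (ι.range : Set Ω).Infinite) (χ : Polynomial O)
    (hχ : χ.Monic) (hd : χ.natDegree = r) (F : MvPolynomial (Fin r × Fin r) Ω)
    (hF : ∀ A : Mat r O, A.charpoly = χ → eval (fun x => ι (A x.1 x.2)) F = 0)
    (A : Mat r Ω) (hA : A.charpoly = χ.map ι) : eval (fun x => A x.1 x.2) F = 0 := by
  rcases r with _ | r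
  · have h1 : χ = 1 := hχ.natDegree_eq_zero.1 hd
    have h2 := hF 1 (by rw [h1, Matrix.charpoly_isEmpty])
    rw [← h2]
    congr 1
    congr 1
    funext x
    exact x.1.elim0
  have : IsDomain O := hι.isDomain ι
  obtain ⟨C₀, hC₀, hC₀'⟩ := exists_comp χ hχ hd
  set C' : Mat (r + 1) Ω := ι.mapMatrix C₀ with hC'
  have hCc : ∀ i j : Fin (r + 1), (j : ℕ) + 1 < r + 1 →
      C' i j = if (i : ℕ) = j + 1 then 1 else 0 := by
    intro i j hj
    rw [hC', RingHom.mapMatrix_apply, map_apply, hC₀' i j hj]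
    split_ifs <;> simp
  have hCch : C'.charpoly = χ.map ι := by
    rw [hC', RingHom.mapMatrix_apply, charpoly_map, hC₀]
  -- Step 1
  obtain ⟨G, hG⟩ := conj_poly F C'
  have s1 : ∀ g : Mat (r + 1) Ω, g.det = 1 →
      eval (fun x => (g * C' * g.adjugate) x.1 x.2) F = 0 := by
    intro g hg
    rw [← hG]
    refine sl_density ι.range hinf G ?_ g hg
    intro g hg hgS
    choose g₀ hg₀ using hgS
    have e1 : ι.mapMatrix (of g₀) = g := by
      ext i j
      exact hg₀ i j
    have e2 : (of g₀ : Mat (r + 1) O).det = 1 := by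
      apply hι
      rw [RingHom.map_det, e1, hg, map_one]
    rw [hG]
    have e3 := hF (of g₀ * C₀ * (of g₀ : Mat (r + 1) O).adjugate) (by
      rw [Matrix.charpoly_mul_comm, ← Matrix.mul_assoc, adjugate_mul, e2, one_smul,
        Matrix.one_mul, hC₀])
    rw [← e3]
    congr 1
    congr 1
    funext x
    have e4 : ι.mapMatrix (of g₀ * C₀ * (of g₀ : Mat (r + 1) O).adjugate) =
        g * C' * g.adjugate := by
      rw [map_mul, map_mul, RingHom.map_adjugate, e1]
    rw [← e4]
    rfl
  -- Step 2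
  have s2 : ∀ h h' : Mat (r + 1) Ω, h * h' = 1 →
      eval (fun x => (h * C' * h') x.1 x.2) F = 0 := by
    intro h h' hh
    have hdet : h.det * h'.det = 1 := by rw [← det_mul, hh, det_one]
    obtain ⟨μ, hμ⟩ := IsAlgClosed.exists_pow_nat_eq h'.det (Nat.succ_pos r)
    have hμ0 : μ ≠ 0 := by
      rintro rfl
      rw [zero_pow (Nat.succ_ne_zero r)] at hμ
      rw [← hμ, mul_zero] at hdet
      exact zero_ne_one hdet
    have e1 : (μ • h).det = 1 := by
      rw [det_smul, Fintype.card_fin, hμ, mul_comm, hdet]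
    have e2 := s1 (μ • h) e1
    have e3 : (μ • h).adjugate = μ⁻¹ • h' := by
      have a1 : (μ • h) * (μ⁻¹ • h') = 1 := by
        rw [smul_mul_smul_comm, mul_inv_cancel₀ hμ0, one_smul, hh]
      have a2 : (μ • h).adjugate * (μ • h) = 1 := by rw [adjugate_mul, e1, one_smul]
      calc (μ • h).adjugate = (μ • h).adjugate * ((μ • h) * (μ⁻¹ • h')) := by
            rw [a1, Matrix.mul_one]
        _ = μ⁻¹ • h' := by rw [← Matrix.mul_assoc, a2, Matrix.one_mul]
    rw [e3] at e2
    have e4 : μ • h * C' * (μ⁻¹ • h') = h * C' * h' := by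
      rw [smul_mul, smul_mul_smul_comm, mul_inv_cancel₀ hμ0, one_smul]
    rwa [e4] at e2
  -- Step 3
  have s3 : ∀ (M : Mat (r + 1) Ω) (v : Fin (r + 1) → Ω), M.charpoly = χ.map ι →
      (kry M v).det ≠ 0 → eval (fun x => M x.1 x.2) F = 0 := by
    intro M v hM hK
    have e1 := kry_comp M C' hCc (hM.trans hCch.symm) v
    have hu : IsUnit (kry M v).det := isUnit_iff_ne_zero.2 hK
    have e2 : M = kry M v * C' * (kry M v)⁻¹ := by
      rw [← e1, Matrix.mul_assoc, mul_nonsing_inv _ hu, Matrix.mul_one]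
    have e3 := s2 _ _ (mul_nonsing_inv _ hu)
    rwa [← e2] at e3
  -- Step 4
  obtain ⟨h, h', v, hh, hh', hv, rfl⟩ := exists_lower (r + 1) A
  set N : Mat (r + 1) Ω := of fun i j => if (i : ℕ) = j + 1 then 1 else 0 with hN
  have hch : ∀ z : Ω, (h * (v + z • N) * h').charpoly = χ.map ι := by
    intro z
    have e1 : ∀ w : Mat (r + 1) Ω, (h * w * h').charpoly = w.charpoly := by
      intro w
      rw [Matrix.charpoly_mul_comm, ← Matrix.mul_assoc, hh', Matrix.one_mul]
    have e2 : ∀ w : Mat (r + 1) Ω, (∀ i j, i < j → w i j = 0) →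
        w.charpoly = ∏ i, (Polynomial.X - Polynomial.C (w i i)) := by
      intro w hw
      rw [← Matrix.charpoly_transpose, Matrix.charpoly_of_isUpperTriangular]
      · rfl
      · intro i j hij
        exact hw _ _ hij
    rw [← hA, e1, e1, e2 v hv, e2]
    · refine Finset.prod_congr rfl ?_
      intro i _
      simp [hN]
    · intro i j hij
      have : ¬ (i : ℕ) = j + 1 := by
        have := Fin.lt_def.1 hij
        omega
      simp [hN, hv i j hij, this]
  obtain ⟨P, hP⟩ := kry_poly N v (Pi.single 0 1)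
  have hP0 : P ≠ 0 := by
    intro h0
    have e1 := hP 0
    rw [h0, Polynomial.eval_zero, zero_smul, add_zero] at e1
    have e2 : kry N (Pi.single 0 1) = 1 := by
      refine Matrix.ext_of_mulVec_single ?_
      intro j
      rw [kry_mulVec, comp_pow N (fun i j _ => rfl) j j.2, one_mulVec]
    rw [e2, det_one] at e1
    exact zero_ne_one e1
  obtain ⟨G, hG⟩ := line_poly F (h * v * h') (h * N * h')
  have hG0 : G = 0 := by
    have hfin : {s : Ω | P.eval s = 0}.Finite := by
      refine (Polynomial.finite_setOfPred_isRoot hP0).subset ?_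
      intro s hs
      exact hs
    have hinf' : ({s : Ω | P.eval s = 0} ∪ {0})ᶜ.Infinite :=
      (hfin.union (Set.finite_singleton 0)).infinite_compl
    refine Polynomial.eq_zero_of_infinite_isRoot G ?_
    refine (hinf'.image (inv_injective.injOn)).mono ?_
    rintro _ ⟨s, hs, rfl⟩
    have hs1 : P.eval s ≠ 0 := fun e => hs (Or.inl e)
    have hs0 : s ≠ 0 := fun e => hs (Or.inr e)
    show G.eval s⁻¹ = 0
    rw [hG]
    have e1 : h * v * h' + s⁻¹ • (h * N * h') = h * (v + s⁻¹ • N) * h' := by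
      rw [Matrix.mul_add, Matrix.add_mul, Matrix.mul_smul, Matrix.smul_mul]
    rw [e1]
    refine s3 _ (h *ᵥ Pi.single 0 1) (hch _) ?_
    have e2 : h * (v + s⁻¹ • N) * h' = s⁻¹ • (h * (N + s • v) * h') := by
      have : v + s⁻¹ • N = s⁻¹ • (N + s • v) := by
        rw [smul_add, smul_smul, inv_mul_cancel₀ hs0, one_smul]
        exact add_comm _ _
      rw [this, Matrix.mul_smul, Matrix.smul_mul]
    have e3 : kry (h * (v + s⁻¹ • N) * h') (h *ᵥ Pi.single 0 1) =
        h * kry (N + s • v) (Pi.single 0 1) * diagonal fun j : Fin (r + 1) => s⁻¹ ^ (j : ℕ) := by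
      refine Matrix.ext_of_mulVec_single ?_
      intro j
      have e4 : ∀ (k : ℕ), (h * (N + s • v) * h') ^ k = h * (N + s • v) ^ k * h' := by
        intro k
        induction k with
        | zero => rw [pow_zero, pow_zero, Matrix.mul_one, hh]
        | succ k ih =>
          rw [pow_succ, ih, pow_succ]
          calc h * (N + s • v) ^ k * h' * (h * (N + s • v) * h') =
              h * (N + s • v) ^ k * (h' * h) * (N + s • v) * h' := by
                simp only [Matrix.mul_assoc]
            _ = _ := by rw [hh', Matrix.mul_one]; simp only [Matrix.mul_assoc]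
      rw [kry_mulVec, e2, smul_pow, e4, ← mulVec_mulVec, ← mulVec_mulVec]
      have e5 : (diagonal fun j : Fin (r + 1) => s⁻¹ ^ (j : ℕ)) *ᵥ Pi.single j 1 =
          s⁻¹ ^ (j : ℕ) • Pi.single j 1 := by
        funext i
        rw [mulVec_diagonal]
        by_cases hij : i = j
        · subst hij; simp
        · simp [hij]
      rw [e5, mulVec_smul, mulVec_smul, kry_mulVec, smul_mulVec]
      congr 1
      rw [mulVec_mulVec, mulVec_mulVec, Matrix.mul_assoc _ h' h, hh', Matrix.mul_one]
    rw [e3, det_mul, det_mul, ← hP, det_diagonal]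
    refine mul_ne_zero (mul_ne_zero ?_ hs1) ?_
    · intro h0
      have := congrArg det hh
      rw [det_mul, h0, zero_mul, det_one] at this
      exact zero_ne_one this
    · refine Finset.prod_ne_zero_iff.2 ?_
      intro j _
      exact pow_ne_zero _ (inv_ne_zero hs0)
  have hfin := hG 0
  rw [hG0, Polynomial.eval_zero, zero_smul, add_zero] at hfin
  exact hfin.symm

end Pool.Agent.MP_3f0e22_ag.TR

namespace Pool.Agent.MP_3f0e22_ag

alias class_density := TR.class_density

end Pool.Agent.MP_3f0e22_ag
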