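import Pool.Agent.MP_3f0e22_ag.Zc

/-! # Block CH: the chart of the varieties `𝒵_δ` -/

set_option autoImplicit false

open Matrix MvPolynomial

namespace Pool.Agent.MP_3f0e22_ag

section CH

variable {R : Type*} [CommRing R] {r : ℕ}

/-! ### auxiliary facts -/

theorem ch_mul_adj {n : Mat r R} (h : n.det = 1) : n * n.adjugate = 1 := by
  rw [Matrix.mul_adjugate, h, one_smul]

theorem ch_adj_mul {n : Mat r R} (h : n.det = 1) : n.adjugate * n = 1 := by
  rw [Matrix.adjugate_mul, h, one_smul]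

theorem ch_cancel {n x y : Mat r R} (h : n.det = 1) (e : x * n = y * n) : x = y := by
  have := congrArg (· * n.adjugate) e
  simpa only [Matrix.mul_assoc, ch_mul_adj h, Matrix.mul_one] using this

theorem ch_mu_cast (k : ℕ) (t : ℕ → ℕ → Rˣ) :
    mu r k (fun j k => (t j k : R)) = ((mu r k t : Rˣ) : R) := by
  unfold mu
  rw [Units.coe_prod]
  refine Finset.prod_congr rfl fun n _ => ?_
  rw [Units.coe_prod]

theorem ch_D_diag (d : Fin r → R) {k : ℕ} (hk : k ≤ r) :
    D k (diagonal d : Mat r R) = ∏ i : Fin k, d (i.castLE hk) := by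
  have := D_diag_mul d hk (1 : Mat r R)
  rwa [Matrix.mul_one, D_one k hk, mul_one] at this

theorem ch_isUnit_J (k : ℕ) : IsUnit ((Jm R k).det) :=
  IsUnit.of_mul_eq_one _ (det_Jm_sq k)

/-- The leading minors of `u z`. -/
theorem ch_pair {tf tt : ℕ → ℕ → Rˣ} {n v u : Mat r R} {d : Fin r → Rˣ} (hn : UpU n)
    (hv : UpU v) (h1 : Z r (fun j k => (tf j k : R)) =
      n * Jm R r * diagonal (fun k => (d k : R)) * v)
    (h2 : u * n = (Z r (fun j k => (tt j k : R)))ᵀ) {k : ℕ} (hk : k ≤ r) :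
    D k (u * Z r (fun j k => (tf j k : R))) = ((mu r k tf * mu r k tt : Rˣ) : R) := by
  have e1 : Jm R r * Z r (fun j k => (tf j k : R)) =
      (Jm R r * n * Jm R r) * (diagonal (fun k => (d k : R)) * v) := by
    rw [h1]
    simp only [Matrix.mul_assoc]
  have e2 : (Jm R k).det * mu r k (fun j k => (tf j k : R)) =
      ∏ i : Fin k, (d (i.castLE hk) : R) := by
    rw [← D_Jm_Z hk, e1, D_low_mul (UpU.conj_Jm hn), D_mul_up hv, ch_D_diag _ hk]
  have e3 : u * Z r (fun j k => (tf j k : R)) =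
      ((Z r (fun j k => (tt j k : R)))ᵀ * Jm R r * diagonal (fun k => (d k : R))) * v := by
    rw [← h2, h1]
    simp only [Matrix.mul_assoc]
  have e4 : D k ((Z r (fun j k => (tt j k : R)))ᵀ * Jm R r) =
      (Jm R k).det * mu r k (fun j k => (tt j k : R)) := by
    rw [← D_transpose, Matrix.transpose_mul, Matrix.transpose_transpose, Jm_transpose,
      D_Jm_Z hk]
  rw [e3, D_mul_up hv, D_mul_diag _ hk, e4, ← e2, Units.val_mul, ← ch_mu_cast, ← ch_mu_cast]
  have := det_Jm_sq (R := R) k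
  linear_combination (mu r k (fun j k => (tf j k : R)) * mu r k (fun j k => (tt j k : R))) * this

theorem ch_exists_pair (tf tt : ℕ → ℕ → Rˣ) :
    ∃ (n v u L b : Mat r R) (d a : Fin r → Rˣ), UpU n ∧ UpU v ∧ UpU b ∧ UpU u ∧ LowU L ∧
      Z r (fun j k => (tf j k : R)) = n * Jm R r * diagonal (fun k => (d k : R)) * v ∧
      u * n = (Z r (fun j k => (tt j k : R)))ᵀ ∧
      u * Z r (fun j k => (tf j k : R)) = L * diagonal (fun k => (a k : R)) * b := by
  obtain ⟨l', v, d, hl', hv, e1⟩ := exists_lu (Jm R r * Z r (fun j k => (tf j k : R))) (by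
    intro k hk
    rw [D_Jm_Z hk, ch_mu_cast]
    exact (ch_isUnit_J k).mul (Units.isUnit _))
  have hn : UpU (Jm R r * l' * Jm R r) := LowU.conj_Jm hl'
  have e2 : Z r (fun j k => (tf j k : R)) =
      (Jm R r * l' * Jm R r) * Jm R r * diagonal (fun k => (d k : R)) * v := by
    have e3 : (Jm R r * l' * Jm R r) * Jm R r * diagonal (fun k => (d k : R)) * v =
        Jm R r * (l' * diagonal (fun k => (d k : R)) * v) := by
      rw [Matrix.mul_assoc (Jm R r * l'), Jm_mul_Jm, Matrix.mul_one]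
      simp only [Matrix.mul_assoc]
    rw [e3, ← e1, ← Matrix.mul_assoc, Jm_mul_Jm, Matrix.one_mul]
  set n := Jm R r * l' * Jm R r with hndef
  have hu : UpU ((Z r (fun j k => (tt j k : R)))ᵀ * n.adjugate) :=
    UpU.mul (LowU.transpose (Z_low r _)) (UpU.adjugate hn)
  have e4 : ((Z r (fun j k => (tt j k : R)))ᵀ * n.adjugate) * n =
      (Z r (fun j k => (tt j k : R)))ᵀ := by
    rw [Matrix.mul_assoc, ch_adj_mul (UpU.det hn), Matrix.mul_one]
  obtain ⟨L, b, a, hL, hb, e5⟩ := exists_lu
    (((Z r (fun j k => (tt j k : R)))ᵀ * n.adjugate) * Z r (fun j k => (tf j k : R))) (by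
      intro k hk
      rw [ch_pair hn hv e2 e4 hk]
      exact Units.isUnit _)
  exact ⟨n, v, _, L, b, d, a, hn, hv, hb, hu, hL, e2, e4, e5⟩

theorem chart_exists (s : ℕ) (t : ℕ → Bool → ℕ → ℕ → Rˣ) :
    ∃ u y : ℕ → Mat r R, Chart s t u y := by
  choose n v u L b d a hn hv hb hu hL h1 h2 h3 using
    fun i : ℕ => ch_exists_pair (r := r) (t i false) (t i true)
  let l : ℕ → Mat r R := fun i => Nat.casesOn i 1 L
  have hl : ∀ i, LowU (l i) := by
    intro i
    cases i with
    | zero => exact LowU.one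
    | succ i => exact hL i
  refine ⟨u, fun i => if i < s then Z r (fun j k => (t i false j k : R)) * (l i).adjugate
    else (l i).adjugate, n, v, l, b, d, a, rfl, ?_, ?_, fun i hi => ⟨hn i, hv i, hb i, hu i, ?_,
      hL i, h1 i, h2 i, h3 i, ?_⟩⟩
  · simp only [lt_irrefl, if_false]
    exact LowU.adjugate (hl s)
  · simp only [lt_irrefl, if_false]
    exact ch_adj_mul (LowU.det (hl s))
  · simp only [hi, if_true]
    exact LowU.mul (Z_low r _) (LowU.adjugate (hl i))
  · simp only [hi, if_true]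
    rw [Matrix.mul_assoc, ch_adj_mul (LowU.det (hl i)), Matrix.mul_one]

theorem ch_Jm_map {R' : Type*} [CommRing R'] (φ : R →+* R') : (Jm R r).map φ = Jm R' r := by
  ext i j
  simp only [Jm, Matrix.map_apply, Matrix.submatrix_apply, Matrix.one_apply]
  split_ifs <;> simp

theorem Chart.map {s : ℕ} {t : ℕ → Bool → ℕ → ℕ → Rˣ} {u y : ℕ → Mat r R} (h : Chart s t u y)
    {R' : Type*} [CommRing R'] (φ : R →+* R') :
    Chart s (fun i b j k => Units.map (φ : R →* R') (t i b j k)) (fun i => (u i).map φ)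
      (fun i => (y i).map φ) := by
  obtain ⟨n, v, l, b, d, a, h1, h2, h3, h4⟩ := h
  have hZ : ∀ (i : ℕ) (c : Bool), Z r (fun j k => ((Units.map (φ : R →* R') (t i c j k) : R'ˣ) : R')) =
      (Z r (fun j k => (t i c j k : R))).map φ := by
    intro i c
    rw [Z_map]
    rfl
  have hd : ∀ (e : Fin r → Rˣ), (diagonal (fun k => ((Units.map (φ : R →* R') (e k) : R'ˣ) : R')) :
      Mat r R') = (diagonal (fun k => (e k : R))).map φ := by
    intro e
    rw [Matrix.diagonal_map (map_zero φ)]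
    rfl
  refine ⟨fun i => (n i).map φ, fun i => (v i).map φ, fun i => (l i).map φ,
    fun i => (b i).map φ, fun i k => Units.map (φ : R →* R') (d i k),
    fun i k => Units.map (φ : R →* R') (a i k), ?_, LowU.map h2 φ, ?_, fun i hi => ?_⟩
  · show (l 0).map φ = 1
    rw [h1, Matrix.map_one _ (map_zero φ) (map_one φ)]
  · show (y s).map φ * (l s).map φ = 1
    rw [← Matrix.map_mul, h3, Matrix.map_one _ (map_zero φ) (map_one φ)]
  · obtain ⟨g1, g2, g3, g4, g5, g6, g7, g8, g9, g10⟩ := h4 i hi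
    refine ⟨UpU.map g1 φ, UpU.map g2 φ, UpU.map g3 φ, UpU.map g4 φ, LowU.map g5 φ,
      LowU.map g6 φ, ?_, ?_, ?_, ?_⟩
    · rw [hZ, g7, hd, Matrix.map_mul, Matrix.map_mul, Matrix.map_mul, ch_Jm_map]
    · show (u i).map φ * (n i).map φ = _
      rw [hZ, ← Matrix.map_mul, g8, Matrix.transpose_map]
    · show (u i).map φ * _ = (l (i + 1)).map φ * _ * (b i).map φ
      rw [hZ, hd, ← Matrix.map_mul, g9, Matrix.map_mul, Matrix.map_mul]
    · show (y i).map φ * (l i).map φ = _
      rw [hZ, ← Matrix.map_mul, g10]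

theorem Chart.unique {s : ℕ} {t : ℕ → Bool → ℕ → ℕ → Rˣ} {u y u' y' : ℕ → Mat r R}
    (h : Chart s t u y) (h' : Chart s t u' y') :
    (∀ i < s, u i = u' i) ∧ ∀ i ≤ s, y i = y' i := by
  obtain ⟨n, v, l, b, d, a, h1, h2, h3, h4⟩ := h
  obtain ⟨n', v', l', b', d', a', h1', h2', h3', h4'⟩ := h'
  have key : ∀ i < s, u i = u' i ∧ l (i + 1) = l' (i + 1) := by
    intro i hi
    obtain ⟨g1, g2, g3, g4, g5, g6, g7, g8, g9, g10⟩ := h4 i hi
    obtain ⟨k1, k2, k3, k4, k5, k6, k7, k8, k9, k10⟩ := h4' i hi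
    have en : n i = n' i := by
      have e : (Jm R r * n i * Jm R r) * diagonal (fun k => (d i k : R)) * v i =
          (Jm R r * n' i * Jm R r) * diagonal (fun k => (d' i k : R)) * v' i := by
        have := g7.symm.trans k7
        have := congrArg (Jm R r * ·) this
        simpa only [Matrix.mul_assoc] using this
      have e' := (lu_unique (UpU.conj_Jm g1) (UpU.conj_Jm k1) g2 k2 e).1
      have e'' := congrArg (fun M => Jm R r * M * Jm R r) e'
      have hJ : ∀ M : Mat r R, Jm R r * (Jm R r * M * Jm R r) * Jm R r = M := by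
        intro M
        calc Jm R r * (Jm R r * M * Jm R r) * Jm R r
            = (Jm R r * Jm R r) * M * (Jm R r * Jm R r) := by simp only [Matrix.mul_assoc]
          _ = M := by rw [Jm_mul_Jm, Matrix.one_mul, Matrix.mul_one]
      simpa only [hJ] using e''
    have eu : u i = u' i := by
      refine ch_cancel (UpU.det g1) ?_
      rw [g8]
      rw [en, k8]
    refine ⟨eu, ?_⟩
    have e : l (i + 1) * diagonal (fun k => (a i k : R)) * b i =
        l' (i + 1) * diagonal (fun k => (a' i k : R)) * b' i := by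
      rw [← g9, ← k9, eu]
    exact (lu_unique g6 k6 g3 k3 e).1
  have hl : ∀ i ≤ s, l i = l' i := by
    intro i hi
    cases i with
    | zero => rw [h1, h1']
    | succ i => exact (key i (by omega)).2
  have hld : ∀ i ≤ s, (l i).det = 1 := by
    intro i hi
    cases i with
    | zero => rw [h1, Matrix.det_one]
    | succ i =>
      obtain ⟨g1, g2, g3, g4, g5, g6, g7, g8, g9, g10⟩ := h4 i (by omega)
      exact LowU.det g6
  refine ⟨fun i hi => (key i hi).1, fun i hi => ?_⟩
  refine ch_cancel (hld i hi) ?_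
  rcases lt_or_eq_of_le hi with hi' | rfl
  · obtain ⟨g1, g2, g3, g4, g5, g6, g7, g8, g9, g10⟩ := h4 i hi'
    obtain ⟨k1, k2, k3, k4, k5, k6, k7, k8, k9, k10⟩ := h4' i hi'
    rw [g10, hl i hi, k10]
  · rw [h3, hl i hi, h3']

theorem Chart.congr {s : ℕ} {t t' : ℕ → Bool → ℕ → ℕ → Rˣ} {u y : ℕ → Mat r R}
    (h : Chart s t u y) (ht : ∀ i < s, ∀ b, ∀ j < r, ∀ k < j, t i b j k = t' i b j k) :
    Chart s t' u y := by
  obtain ⟨n, v, l, b, d, a, h1, h2, h3, h4⟩ := h
  refine ⟨n, v, l, b, d, a, h1, h2, h3, fun i hi => ?_⟩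
  have hZ : ∀ c : Bool, Z r (fun j k => (t' i c j k : R)) = Z r (fun j k => (t i c j k : R)) := by
    intro c
    refine Z_congr fun j hj k hk => ?_
    rw [ht i hi c j hj k hk]
  rw [hZ false, hZ true]
  exact h4 i hi

/-- Upper triangular matrices. -/
theorem ch_tri {s : ℕ} {t : ℕ → Bool → ℕ → ℕ → Rˣ} {u y : ℕ → Mat r R} (h : Chart s t u y) :
    (∀ i j : Fin r, j < i → (y s * Q u y s) i j = 0) ∧ ∀ k ≤ r,
    D k (y s * Q u y s) = ((∏ i ∈ Finset.range s, mu r k (t i false) * mu r k (t i true) : Rˣ) : R) := by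
  obtain ⟨n, v, l, b, d, a, h1, h2, h3, h4⟩ := h
  -- the minors of an upper triangular matrix
  have hD : ∀ (V : Mat r R), (∀ i j : Fin r, j < i → V i j = 0) → ∀ (k : ℕ) (hk : k ≤ r),
      D k V = ∏ i : Fin k, V (i.castLE hk) (i.castLE hk) := by
    intro V hV k hk
    unfold D
    rw [dif_pos hk, Matrix.det_of_upperTriangular]
    · rfl
    · intro i j hij
      exact hV _ _ hij
  have key : ∀ i ≤ s, ∃ V : Mat r R, (∀ i j : Fin r, j < i → V i j = 0) ∧ Q u y i = l i * V ∧
      ∀ k ≤ r, D k V =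
        ((∏ i ∈ Finset.range i, mu r k (t i false) * mu r k (t i true) : Rˣ) : R) := by
    intro i
    induction i with
    | zero =>
      intro _
      refine ⟨1, fun i j hij => Matrix.one_apply_ne (ne_of_gt hij), ?_, fun k hk => ?_⟩
      · show (1 : Mat r R) = l 0 * 1
        rw [h1, Matrix.one_mul]
      · rw [D_one k hk]
        simp
    | succ i ih =>
      intro hi
      obtain ⟨V, hV1, hV2, hV3⟩ := ih (by omega)
      obtain ⟨g1, g2, g3, g4, g5, g6, g7, g8, g9, g10⟩ := h4 i (by omega)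
      have htri : ∀ i' j : Fin r, j < i' →
          (diagonal (fun k => (a i k : R)) * (b i * V)) i' j = 0 := by
        intro i' j hij
        rw [Matrix.diagonal_mul, Matrix.mul_apply, Finset.sum_eq_zero, mul_zero]
        intro x _
        rcases lt_or_ge x i' with hx | hx
        · rw [g3.2 i' x hx, zero_mul]
        · rw [hV1 x j (lt_of_lt_of_le hij hx), mul_zero]
      have hdiag : ∀ i' : Fin r, (diagonal (fun k => (a i k : R)) * (b i * V)) i' i' =
          (a i i' : R) * V i' i' := by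
        intro i'
        rw [Matrix.diagonal_mul, Matrix.mul_apply, Finset.sum_eq_single i', g3.1 i', one_mul]
        · intro x _ hx
          rcases lt_or_gt_of_ne hx with hx | hx
          · rw [g3.2 i' x hx, zero_mul]
          · rw [hV1 x i' hx, mul_zero]
        · intro hx
          exact absurd (Finset.mem_univ _) hx
      refine ⟨diagonal (fun k => (a i k : R)) * (b i * V), htri, ?_, fun k hk => ?_⟩
      · show u i * y i * Q u y i = _
        rw [hV2]
        calc u i * y i * (l i * V) = u i * (y i * l i) * V := by simp only [Matrix.mul_assoc]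
          _ = l (i + 1) * (diagonal (fun k => (a i k : R)) * (b i * V)) := by
            rw [g10, g9]
            simp only [Matrix.mul_assoc]
      · rw [hD _ htri k hk]
        have e1 : D k (u i * Z r (fun j k => (t i false j k : R))) =
            ∏ x : Fin k, (a i (x.castLE hk) : R) := by
          rw [g9, D_mul_up g3, D_low_mul g6, ch_D_diag _ hk]
        rw [ch_pair g1 g2 g7 g8 hk] at e1
        simp only [hdiag]
        rw [Finset.prod_mul_distrib, ← e1, ← hD V hV1 k hk, hV3 k hk, Finset.prod_range_succ,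
          Units.val_mul (∏ i ∈ Finset.range i, mu r k (t i false) * mu r k (t i true))]
        ring
  obtain ⟨V, hV1, hV2, hV3⟩ := key s le_rfl
  have e : y s * Q u y s = V := by
    rw [hV2, ← Matrix.mul_assoc, h3, Matrix.one_mul]
  rw [e]
  exact ⟨hV1, hV3⟩

theorem Chart.zero {s : ℕ} {t : ℕ → Bool → ℕ → ℕ → Rˣ} {u y : ℕ → Mat r R} (h : Chart s t u y)
    (i j : Fin r) (hij : j < i) : (y s * Q u y s) i j = 0 :=
  (ch_tri h).1 i j hij

theorem Chart.D_eq {s : ℕ} {t : ℕ → Bool → ℕ → ℕ → Rˣ} {u y : ℕ → Mat r R} (h : Chart s t u y)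
    {k : ℕ} (hk : k ≤ r) :
    D k (y s * Q u y s) = ((∏ i ∈ Finset.range s, mu r k (t i false) * mu r k (t i true) : Rˣ) : R) :=
  (ch_tri h).2 k hk

end CH

end Pool.Agent.MP_3f0e22_ag
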