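import Pool.Agent.MP_3f0e22_ag.Lu

/-!
# MP_3f0e22_ag: upper bounds for the transcendence degree (block BA)
-/

set_option autoImplicit false

open Matrix

namespace Pool.Agent.MP_3f0e22_ag

section

variable {K E : Type*} [Field K] [Field E] [Algebra K E]

/-! ### Linear algebra over an intermediate field -/

theorem det_mem_of {r : ℕ} (F : IntermediateField K E) (g : Mat r E) (hg : ∀ i j, g i j ∈ F) :
    g.det ∈ F := by
  rw [Matrix.det_apply]
  refine sum_mem fun σ _ => ?_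
  rw [Units.smul_def]
  exact zsmul_mem (prod_mem fun i _ => hg _ _) _

theorem adjugate_mem_of {r : ℕ} (F : IntermediateField K E) (g : Mat r E)
    (hg : ∀ i j, g i j ∈ F) (i j : Fin r) : g.adjugate i j ∈ F := by
  rw [Matrix.adjugate_apply]
  refine det_mem_of F _ fun a b => ?_
  rw [Matrix.updateRow_apply]
  split_ifs with h
  · rw [Pi.single_apply]
    split_ifs
    · exact one_mem F
    · exact zero_mem F
  · exact hg a b

theorem solve_mem {r : ℕ} (F : IntermediateField K E) (g : Mat r E) (hg : ∀ i j, g i j ∈ F)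
    (hd : g.det ≠ 0) (q : Fin r → E) (h : ∀ i, (g *ᵥ q) i ∈ F) (i : Fin r) : q i ∈ F := by
  have h1 : g.det • q = g.adjugate *ᵥ (g *ᵥ q) := by
    rw [Matrix.mulVec_mulVec, Matrix.adjugate_mul, Matrix.smul_mulVec, Matrix.one_mulVec]
  have h2 : q i = (g.det)⁻¹ * (g.adjugate *ᵥ (g *ᵥ q)) i := by
    rw [← h1, Pi.smul_apply, smul_eq_mul, inv_mul_cancel_left₀ hd]
  rw [h2]
  refine mul_mem (inv_mem (det_mem_of F g hg)) ?_
  rw [Matrix.mulVec, dotProduct]
  exact sum_mem fun j _ => mul_mem (adjugate_mem_of F g hg i j) (h j)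

/-! ### `Bd` for families -/

theorem Bd.range {B : Set E} {N : ℕ} (w : Fin N → E) : Bd K B (Set.range w) N := by
  classical
  refine ⟨Finset.univ.image w, Finset.card_image_le.trans (by simp), ?_⟩
  rintro _ ⟨i, rfl⟩
  exact subset_acl _ (Or.inr (by simp))

theorem Bd.linear {B : Set E} {N : ℕ} (w c : Fin N → E) (c₀ : E) (hc : ∀ j, c j ∈ acl K B)
    (hc₀ : c₀ ∈ acl K B) (h : ∑ j, c j * w j = c₀) (j : Fin N) (hj : c j ≠ 0) :
    Bd K B (Set.range w) (N - 1) := by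
  classical
  have hB : acl K B ≤ acl K (B ∪ ↑((Finset.univ.erase j).image w)) := acl_mono Set.subset_union_left
  have hw : ∀ i ∈ Finset.univ.erase j, w i ∈ acl K (B ∪ ↑((Finset.univ.erase j).image w)) := by
    intro i hi
    exact subset_acl _ (Or.inr (Finset.mem_coe.2 (Finset.mem_image_of_mem w hi)))
  refine ⟨(Finset.univ.erase j).image w, Finset.card_image_le.trans (by simp), ?_⟩
  rintro _ ⟨i, rfl⟩
  by_cases hi : i = j
  · subst hi
    have h1 : w i = (c₀ - ∑ k ∈ Finset.univ.erase i, c k * w k) / c i := by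
      rw [← h, ← Finset.add_sum_erase _ _ (Finset.mem_univ i)]
      field_simp
      ring
    rw [h1]
    exact div_mem (sub_mem (hB hc₀) (sum_mem fun k hk => mul_mem (hB (hc k)) (hw k hk)))
      (hB (hc i))
  · exact hw i (Finset.mem_erase.2 ⟨hi, Finset.mem_univ i⟩)

/-! ### The Schur complement -/

/-- The lower right block. -/
def lr {R : Type*} {n : ℕ} (M : Mat (n + 1) R) : Mat n R := fun i j => M i.succ j.succ

/-- The coordinates in the first row of `u` and in the first column of `y`. -/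
def xz {n : ℕ} (u y : Mat (n + 1) E) : Set E :=
  Set.range (fun j : Fin n => y j.succ 0) ∪ Set.range (fun j : Fin n => u 0 j.succ)

/-- The Schur complement of `u g y` is `lr u * sch u g y * lr y`. -/
def sch {n : ℕ} (u g y : Mat (n + 1) E) : Mat n E := fun i j =>
  g i.succ j.succ - (g * y) i.succ 0 * ((u * g * y) 0 0)⁻¹ * (u * g) 0 j.succ

theorem UpU.lr {R : Type*} [CommRing R] {n : ℕ} {u : Mat (n + 1) R} (hu : UpU u) :
    UpU (lr u) :=
  ⟨fun _ => hu.1 _, fun _ _ h => hu.2 _ _ (Fin.succ_lt_succ_iff.2 h)⟩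

theorem LowU.lr {R : Type*} [CommRing R] {n : ℕ} {u : Mat (n + 1) R} (hu : LowU u) :
    LowU (lr u) :=
  ⟨fun _ => hu.1 _, fun _ _ h => hu.2 _ _ (Fin.succ_lt_succ_iff.2 h)⟩

theorem lr_up_mul {n : ℕ} {u : Mat (n + 1) E} (hu : UpU u) (A : Mat (n + 1) E) :
    lr (u * A) = lr u * lr A := by
  ext i j
  simp [lr, Matrix.mul_apply, Fin.sum_univ_succ, hu.2 _ _ (Fin.succ_pos i)]

theorem lr_mul_low {n : ℕ} {y : Mat (n + 1) E} (hy : LowU y) (A : Mat (n + 1) E) :
    lr (A * y) = lr A * lr y := by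
  ext i j
  simp [lr, Matrix.mul_apply, Fin.sum_univ_succ, hy.2 _ _ (Fin.succ_pos j)]

theorem sch_eq {n : ℕ} {u g y : Mat (n + 1) E} (hu : UpU u) (hy : LowU y) :
    lr u * sch u g y * lr y = fun i j => (u * g * y) i.succ j.succ -
      (u * g * y) i.succ 0 * ((u * g * y) 0 0)⁻¹ * (u * g * y) 0 j.succ := by
  set c := ((u * g * y) 0 0)⁻¹ with hc
  have h1 : sch u g y = lr g - Matrix.vecMulVec (fun i => (g * y) i.succ 0)
      (fun j => c * (u * g) 0 j.succ) := by
    ext i j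
    simp only [sch, lr, Matrix.sub_apply, Matrix.vecMulVec_apply, ← hc]
    ring
  have h2 : (lr u *ᵥ fun i => (g * y) i.succ 0) = fun i => (u * g * y) i.succ 0 := by
    ext i
    rw [Matrix.mul_assoc u g y, Matrix.mul_apply, Fin.sum_univ_succ,
      hu.2 _ _ (Fin.succ_pos i), zero_mul, zero_add]
    rfl
  have h3 : (fun j => c * (u * g) 0 j.succ) ᵥ* lr y = fun j => c * (u * g * y) 0 j.succ := by
    ext j
    rw [Matrix.mul_apply, Fin.sum_univ_succ, hy.2 _ _ (Fin.succ_pos j), mul_zero, zero_add,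
      Finset.mul_sum, Matrix.vecMul, dotProduct]
    refine Finset.sum_congr rfl fun b _ => ?_
    simp only [lr]
    ring
  rw [h1, Matrix.mul_sub, Matrix.sub_mul, Matrix.mul_vecMulVec, Matrix.vecMulVec_mul, h2, h3,
    ← lr_up_mul hu, ← lr_mul_low hy]
  ext i j
  simp only [Matrix.sub_apply, Matrix.vecMulVec_apply, lr]
  ring

theorem D_sch {n : ℕ} {u g y : Mat (n + 1) E} (hu : UpU u) (hy : LowU y)
    (he : (u * g * y) 0 0 ≠ 0) {k : ℕ} (hk : k ≤ n) :
    D (k + 1) (u * g * y) = (u * g * y) 0 0 * D k (lr u * sch u g y * lr y) := by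
  rw [sch_eq hu hy]
  exact D_succ _ _ (mul_inv_cancel₀ he) hk

theorem det_sch {n : ℕ} {u g y : Mat (n + 1) E} (hu : UpU u) (hy : LowU y)
    (he : (u * g * y) 0 0 ≠ 0) : g.det = (u * g * y) 0 0 * (sch u g y).det := by
  have h := D_sch (g := g) hu hy he le_rfl
  rw [D_self, D_self, Matrix.det_mul, Matrix.det_mul, Matrix.det_mul, Matrix.det_mul, hu.det,
    hy.det, (UpU.lr hu).det, (LowU.lr hy).det] at h
  simpa using h

theorem D_one_eq {r : ℕ} (M : Mat (r + 1) E) : D 1 M = M 0 0 := by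
  rw [D, dif_pos (Nat.le_add_left 1 r), Matrix.det_unique]
  rfl

theorem sch_ent {n : ℕ} {B : Set E} {u g y : Mat (n + 1) E} (hg : ent g ⊆ acl K B) (hu : UpU u)
    (hy : LowU y) : ent (sch u g y) ⊆ acl K (B ∪ xz u y) := by
  have hB : acl K B ≤ acl K (B ∪ xz u y) := acl_mono Set.subset_union_left
  have hg' : ∀ i j, g i j ∈ acl K (B ∪ xz u y) := fun i j => hB (hg ⟨i, j, rfl⟩)
  have hq : ∀ j, y j 0 ∈ acl K (B ∪ xz u y) := by
    intro j
    refine Fin.cases ?_ (fun j => ?_) j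
    · rw [hy.1]
      exact one_mem _
    · exact subset_acl _ (Or.inr (Or.inl ⟨j, rfl⟩))
  have hp : ∀ j, u 0 j ∈ acl K (B ∪ xz u y) := by
    intro j
    refine Fin.cases ?_ (fun j => ?_) j
    · rw [hu.1]
      exact one_mem _
    · exact subset_acl _ (Or.inr (Or.inr ⟨j, rfl⟩))
  have h1 : ∀ i, (g * y) i 0 ∈ acl K (B ∪ xz u y) := by
    intro i
    rw [Matrix.mul_apply]
    exact sum_mem fun j _ => mul_mem (hg' i j) (hq j)
  have h2 : ∀ j, (u * g) 0 j ∈ acl K (B ∪ xz u y) := by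
    intro i
    rw [Matrix.mul_apply]
    exact sum_mem fun j _ => mul_mem (hp j) (hg' j i)
  have h3 : (u * g * y) 0 0 ∈ acl K (B ∪ xz u y) := by
    rw [Matrix.mul_apply]
    exact sum_mem fun j _ => mul_mem (h2 j) (hq j)
  rintro _ ⟨i, j, rfl⟩
  exact sub_mem (hg' _ _) (mul_mem (mul_mem (h1 _) (inv_mem h3)) (h2 _))

/-- Assembly. -/
theorem Bd.assemble {n a b : ℕ} {B : Set E} {u y : Mat (n + 1) E} (hu : UpU u) (hy : LowU y)
    (h1 : Bd K B (xz u y) a) (h2 : Bd K (B ∪ xz u y) (ent (lr u) ∪ ent (lr y)) b) :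
    Bd K B (ent u ∪ ent y) (a + b) := by
  refine (h1.trans h2).mono (subset_acl _) ?_ le_rfl
  have h0 : (0 : E) ∈ acl K (B ∪ (xz u y ∪ (ent (lr u) ∪ ent (lr y)))) := zero_mem _
  have h1 : (1 : E) ∈ acl K (B ∪ (xz u y ∪ (ent (lr u) ∪ ent (lr y)))) := one_mem _
  refine Set.union_subset ?_ ?_
  · rintro _ ⟨i, j, rfl⟩
    induction i using Fin.cases with
    | zero =>
      induction j using Fin.cases with
      | zero =>
        rw [hu.1]
        exact h1
      | succ j => exact subset_acl _ (Or.inr (Or.inl (Or.inr ⟨j, rfl⟩)))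
    | succ i =>
      induction j using Fin.cases with
      | zero =>
        rw [hu.2 _ _ (Fin.succ_pos i)]
        exact h0
      | succ j => exact subset_acl _ (Or.inr (Or.inr (Or.inl ⟨i, j, rfl⟩)))
  · rintro _ ⟨i, j, rfl⟩
    induction i using Fin.cases with
    | zero =>
      induction j using Fin.cases with
      | zero =>
        rw [hy.1]
        exact h1
      | succ j =>
        rw [hy.2 _ _ (Fin.succ_pos j)]
        exact h0
    | succ i =>
      induction j using Fin.cases with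
      | zero => exact subset_acl _ (Or.inr (Or.inl (Or.inl ⟨i, rfl⟩)))
      | succ j => exact subset_acl _ (Or.inr (Or.inr (Or.inr ⟨i, j, rfl⟩)))

/-- The first equation `p · g q = e`. -/
theorem eq_one {n : ℕ} {u g y : Mat (n + 1) E} (hu : UpU u) :
    (u * g * y) 0 0 = (g * y) 0 0 + ∑ j : Fin n, (g * y) j.succ 0 * u 0 j.succ := by
  rw [Matrix.mul_assoc, Matrix.mul_apply, Fin.sum_univ_succ, hu.1, one_mul]
  simp only [mul_comm]

/-- If all `ξ_j`, `j ≥ 1`, vanish, then `q` is algebraic over `B`. -/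
theorem q_mem {n : ℕ} {B : Set E} {u g y : Mat (n + 1) E} (hg : ent g ⊆ acl K B)
    (hgd : g.det ≠ 0) (hu : UpU u) (he : (u * g * y) 0 0 ∈ acl K B)
    (h : ∀ j : Fin n, (g * y) j.succ 0 = 0) (i : Fin (n + 1)) : y i 0 ∈ acl K B := by
  refine solve_mem (acl K B) g (fun i j => hg ⟨i, j, rfl⟩) hgd (fun i => y i 0) (fun i => ?_) i
  change (g * y) i 0 ∈ acl K B
  induction i using Fin.cases with
  | zero =>
    have h1 := eq_one (g := g) (y := y) hu
    simp only [h, zero_mul, Finset.sum_const_zero, add_zero] at h1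
    rwa [← h1]
  | succ i =>
    rw [h i]
    exact zero_mem _

/-- The coordinates `x` are algebraic over `B`, `z` and `n - 1` of them. -/
theorem x_part {n : ℕ} {B : Set E} {u g y : Mat (n + 1) E} (hg : ent g ⊆ acl K B) (hu : UpU u)
    (hy : LowU y) (he : (u * g * y) 0 0 ∈ acl K B) (j : Fin n) (hj : (g * y) j.succ 0 ≠ 0) :
    Bd K (B ∪ Set.range fun j : Fin n => y j.succ 0) (Set.range fun j : Fin n => u 0 j.succ)
      (n - 1) := by
  have hB : acl K B ≤ acl K (B ∪ Set.range fun j : Fin n => y j.succ 0) :=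
    acl_mono Set.subset_union_left
  have hq : ∀ j, y j 0 ∈ acl K (B ∪ Set.range fun j : Fin n => y j.succ 0) := by
    intro j
    refine Fin.cases ?_ (fun j => ?_) j
    · rw [hy.1]
      exact one_mem _
    · exact subset_acl _ (Or.inr ⟨j, rfl⟩)
  have h1 : ∀ i, (g * y) i 0 ∈ acl K (B ∪ Set.range fun j : Fin n => y j.succ 0) := by
    intro i
    rw [Matrix.mul_apply]
    exact sum_mem fun j _ => mul_mem (hB (hg ⟨i, j, rfl⟩)) (hq j)
  refine Bd.linear _ (fun j : Fin n => (g * y) j.succ 0) ((u * g * y) 0 0 - (g * y) 0 0)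
    (fun j => h1 _) (sub_mem (hB he) (h1 0)) ?_ j hj
  rw [eq_one hu]
  ring

theorem xz_le {n : ℕ} (hn : 1 ≤ n) {B : Set E} {u g y : Mat (n + 1) E} (hg : ent g ⊆ acl K B)
    (hgd : g.det ≠ 0) (hu : UpU u) (hy : LowU y) (he : (u * g * y) 0 0 ∈ acl K B) :
    Bd K B (xz u y) (2 * n - 1) := by
  by_cases h : ∃ j : Fin n, (g * y) j.succ 0 ≠ 0
  · obtain ⟨j, hj⟩ := h
    exact ((Bd.range fun j : Fin n => y j.succ 0).trans (x_part hg hu hy he j hj)).mono
      (subset_acl _) (Set.subset_union_right.trans (subset_acl _)) (by omega)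
  · push Not at h
    have h1 : Bd K B (Set.range fun j : Fin n => y j.succ 0) 0 := by
      refine Bd.of_subset ?_
      rintro _ ⟨j, rfl⟩
      exact q_mem hg hgd hu he h _
    exact (h1.trans (Bd.range fun j : Fin n => u 0 j.succ)).mono
      (subset_acl _) (Set.subset_union_right.trans (subset_acl _)) (by omega)

theorem xz_le' {n : ℕ} (hn : 2 ≤ n) {B : Set E} {u g h y : Mat (n + 1) E} (hg : ent g ⊆ acl K B)
    (hgd : g.det ≠ 0) (hh : ent h ⊆ acl K B) (hhd : h.det ≠ 0) (hu : UpU u) (hy : LowU y)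
    (he : (u * g * y) 0 0 ∈ acl K B) (h0 : (h * y) 0 0 = 0) :
    Bd K B (xz u y) (2 * n - 2) := by
  by_cases hξ : ∃ j : Fin n, (g * y) j.succ 0 ≠ 0
  · obtain ⟨j, hj⟩ := hξ
    have h1 : h 0 0 + ∑ j : Fin n, h 0 j.succ * y j.succ 0 = 0 := by
      rw [Matrix.mul_apply, Fin.sum_univ_succ, hy.1, mul_one] at h0
      exact h0
    have h2 : ∃ i : Fin n, h 0 i.succ ≠ 0 := by
      by_contra hc
      push Not at hc
      simp only [hc, zero_mul, Finset.sum_const_zero, add_zero] at h1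
      refine hhd (Matrix.det_eq_zero_of_row_eq_zero 0 fun j => ?_)
      exact Fin.cases h1 hc j
    obtain ⟨i, hi⟩ := h2
    have h3 : Bd K B (Set.range fun j : Fin n => y j.succ 0) (n - 1) := by
      refine Bd.linear _ (fun j : Fin n => h 0 j.succ) (- h 0 0) (fun j => hh ⟨_, _, rfl⟩)
        (neg_mem (hh ⟨_, _, rfl⟩)) ?_ i hi
      rw [eq_neg_iff_add_eq_zero, add_comm]
      exact h1
    exact (h3.trans (x_part hg hu hy he j hj)).mono
      (subset_acl _) (Set.subset_union_right.trans (subset_acl _)) (by omega)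
  · push Not at hξ
    have h1 : Bd K B (Set.range fun j : Fin n => y j.succ 0) 0 := by
      refine Bd.of_subset ?_
      rintro _ ⟨j, rfl⟩
      exact q_mem hg hgd hu he hξ _
    exact (h1.trans (Bd.range fun j : Fin n => u 0 j.succ)).mono
      (subset_acl _) (Set.subset_union_right.trans (subset_acl _)) (by omega)

/-- The hypotheses for the Schur complement. -/
theorem sch_hyp {n : ℕ} {B : Set E} {u g y : Mat (n + 2) E} (hgd : g.det ≠ 0) (hu : UpU u)
    (hy : LowU y)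
    (he : ∀ k, 1 ≤ k → k ≤ n + 1 → D k (u * g * y) ∈ acl K B ∧ D k (u * g * y) ≠ 0) :
    (sch u g y).det ≠ 0 ∧ ∀ k, 1 ≤ k → k ≤ n →
      D k (lr u * sch u g y * lr y) ∈ acl K (B ∪ xz u y) ∧ D k (lr u * sch u g y * lr y) ≠ 0 := by
  have h1 := he 1 le_rfl (by omega)
  rw [D_one_eq] at h1
  refine ⟨fun h => hgd (by rw [det_sch hu hy h1.2, h, mul_zero]), fun k hk hk' => ?_⟩
  have h2 := he (k + 1) (by omega) (by omega)
  rw [D_sch hu hy h1.2 (by omega)] at h2
  refine ⟨?_, right_ne_zero_of_mul h2.2⟩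
  have h3 : D k (lr u * sch u g y * lr y) =
      ((u * g * y) 0 0 * D k (lr u * sch u g y * lr y)) / (u * g * y) 0 0 := by
    rw [mul_div_cancel_left₀ _ h1.2]
  rw [h3]
  exact acl_mono Set.subset_union_left (div_mem h2.1 h1.1)

theorem boundA (n : ℕ) (B : Set E) (g u y : Mat (n + 1) E) (hg : ent g ⊆ acl K B)
    (hgd : g.det ≠ 0) (hu : UpU u) (hy : LowU y)
    (he : ∀ k, 1 ≤ k → k ≤ n → D k (u * g * y) ∈ acl K B ∧ D k (u * g * y) ≠ 0) :
    Bd K B (ent u ∪ ent y) (n ^ 2) := by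
  induction n generalizing B with
  | zero =>
    refine Bd.of_subset (Set.union_subset ?_ ?_)
    · rintro _ ⟨i, j, rfl⟩
      have hij : i = j := Fin.ext (by omega)
      rw [hij, hu.1]
      exact one_mem (acl K B)
    · rintro _ ⟨i, j, rfl⟩
      have hij : i = j := Fin.ext (by omega)
      rw [hij, hy.1]
      exact one_mem (acl K B)
  | succ n ih =>
    obtain ⟨h1, h2⟩ := sch_hyp hgd hu hy he
    have h3 := ih (B ∪ xz u y) (sch u g y) (lr u) (lr y) (sch_ent hg hu hy) h1 (UpU.lr hu)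
      (LowU.lr hy) h2
    have h4 := he 1 le_rfl (by omega)
    rw [D_one_eq] at h4
    have h5 := Bd.assemble hu hy (xz_le (by omega) hg hgd hu hy h4.1) h3
    exact h5.mono (subset_acl _) (Set.subset_union_right.trans (subset_acl _)) (by
      ring_nf
      omega)

/-! ### The core of the case of `3 × 3` matrices -/

theorem core {B : Set E} (g : Mat 3 E) (hg : ent g ⊆ acl K B) (hgd : g.det ≠ 0)
    (p q η : Fin 3 → E) (hp : p 0 = 1) (hq : q 0 = 1) (hη : ∀ i, η i ∈ acl K B) (hη0 : η ≠ 0)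
    (e : E) (he : e ∈ acl K B) (h1 : p ⬝ᵥ (g *ᵥ q) = e)
    (h2 : e * (g *ᵥ η) 2 = (g *ᵥ q) 2 * (p ⬝ᵥ (g *ᵥ η))) :
    Bd K B (Set.range p ∪ Set.range q) 2 := by
  classical
  obtain ⟨ξ, hξ⟩ : ∃ ξ, ξ = g *ᵥ q := ⟨_, rfl⟩
  obtain ⟨ζ, hζ⟩ : ∃ ζ, ζ = g *ᵥ η := ⟨_, rfl⟩
  rw [← hξ] at h1 h2
  rw [← hζ] at h2
  have hζm : ∀ i, ζ i ∈ acl K B := by
    intro i
    rw [hζ, Matrix.mulVec, dotProduct]
    exact sum_mem fun j _ => mul_mem (hg ⟨_, _, rfl⟩) (hη j)
  have hζ0 : ζ ≠ 0 := by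
    intro h0
    apply hη0
    have h3 : g.det • η = 0 := by
      rw [← Matrix.one_mulVec η, ← Matrix.smul_mulVec, ← Matrix.adjugate_mul,
        ← Matrix.mulVec_mulVec, ← hζ, h0, Matrix.mulVec_zero]
    exact (smul_eq_zero.1 h3).resolve_left hgd
  -- the relation `α · ξ = 1`
  obtain ⟨α, hα⟩ : ∃ α : Fin 3 → E, α = fun j => (g.det)⁻¹ * g.adjugate 0 j := ⟨_, rfl⟩
  have hαm : ∀ i, α i ∈ acl K B := by
    intro i
    rw [hα]
    exact mul_mem (inv_mem (det_mem_of _ g fun i j => hg ⟨i, j, rfl⟩))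
      (adjugate_mem_of _ g (fun i j => hg ⟨i, j, rfl⟩) _ _)
  have hαξ : α 0 * ξ 0 + α 1 * ξ 1 + α 2 * ξ 2 = 1 := by
    have h3 : (g.adjugate *ᵥ ξ) 0 = g.det * q 0 := by
      rw [hξ, Matrix.mulVec_mulVec, Matrix.adjugate_mul, Matrix.smul_mulVec, Matrix.one_mulVec,
        Pi.smul_apply, smul_eq_mul]
    rw [Matrix.mulVec, dotProduct, Fin.sum_univ_three, hq, mul_one] at h3
    have h4 : α 0 * ξ 0 + α 1 * ξ 1 + α 2 * ξ 2 = (g.det)⁻¹ *
        (g.adjugate 0 0 * ξ 0 + g.adjugate 0 1 * ξ 1 + g.adjugate 0 2 * ξ 2) := by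
      rw [hα]
      ring
    rw [h4, h3, inv_mul_cancel₀ hgd]
  have h1' : ξ 0 + p 1 * ξ 1 + p 2 * ξ 2 = e := by
    rw [← h1, dotProduct, Fin.sum_univ_three, hp, one_mul]
  have h2' : e * ζ 2 = ξ 2 * (ζ 0 + p 1 * ζ 1 + p 2 * ζ 2) := by
    rw [h2, dotProduct, Fin.sum_univ_three, hp, one_mul]
  have key : ∀ a b : E, (∀ i, ξ i ∈ acl K (B ∪ ↑({a, b} : Finset E))) →
      p 1 ∈ acl K (B ∪ ↑({a, b} : Finset E)) → p 2 ∈ acl K (B ∪ ↑({a, b} : Finset E)) →
      Bd K B (Set.range p ∪ Set.range q) 2 := by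
    intro a b h3 h4 h5
    refine ⟨{a, b}, Finset.card_le_two, Set.union_subset ?_ ?_⟩
    · rintro _ ⟨i, rfl⟩
      fin_cases i
      · change p 0 ∈ _
        rw [hp]
        exact one_mem (acl K _)
      · exact h4
      · exact h5
    · rintro _ ⟨i, rfl⟩
      refine solve_mem (acl K _) g (fun i j => acl_mono Set.subset_union_left (hg ⟨i, j, rfl⟩))
        hgd q (fun i => ?_) i
      rw [← hξ]
      exact h3 i
  have hle : ∀ T : Finset E, acl K B ≤ acl K (B ∪ ↑T) := fun T => acl_mono Set.subset_union_left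
  have hT : ∀ (T : Finset E) (a : E), a ∈ T → a ∈ acl K (B ∪ ↑T) := fun T a ha =>
    subset_acl _ (Or.inr (Finset.mem_coe.2 ha))
  have h3all : ∀ P : Fin 3 → Prop, P 0 → P 1 → P 2 → ∀ i, P i := by
    intro P a b c i
    fin_cases i
    · exact a
    · exact b
    · exact c
  by_cases hξ2 : ξ 2 = 0
  · by_cases hξ1 : ξ 1 = 0
    · refine key (p 1) (p 2) (h3all _ ?_ ?_ ?_) (hT _ _ (by simp)) (hT _ _ (by simp))
      · rw [hξ1, hξ2, mul_zero, mul_zero, add_zero, add_zero] at h1'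
        rw [h1']
        exact hle _ he
      · rw [hξ1]
        exact zero_mem _
      · rw [hξ2]
        exact zero_mem _
    · rw [hξ2, mul_zero, add_zero] at hαξ h1'
      have hp1 : ∀ S : Set E, B ⊆ acl K S → ξ 0 ∈ acl K S → ξ 1 ∈ acl K S → p 1 ∈ acl K S := by
        intro S hS a b
        have h4 : p 1 = (e - ξ 0) / ξ 1 := by
          rw [eq_div_iff hξ1]
          linear_combination h1'
        rw [h4]
        exact div_mem (sub_mem (acl_le hS he) a) b
      have hξ2' : ∀ S : Set E, ξ 2 ∈ acl K S := by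
        intro S
        rw [hξ2]
        exact zero_mem _
      by_cases hα0 : α 0 = 0
      · have hα1 : α 1 ≠ 0 := by
          intro h4
          rw [hα0, h4] at hαξ
          simp at hαξ
        have h5 : ξ 1 ∈ acl K B := by
          have h4 : ξ 1 = 1 / α 1 := by
            rw [eq_div_iff hα1, ← hαξ, hα0]
            ring
          rw [h4]
          exact div_mem (one_mem _) (hαm 1)
        exact key (ξ 0) (p 2) (h3all _ (hT _ _ (by simp)) (hle _ h5) (hξ2' _))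
          (hp1 _ (Set.subset_union_left.trans (subset_acl _)) (hT _ _ (by simp)) (hle _ h5))
          (hT _ _ (by simp))
      · have h5 : ∀ T : Finset E, ξ 1 ∈ T → ξ 0 ∈ acl K (B ∪ ↑T) := by
          intro T hTT
          have h4 : ξ 0 = (1 - α 1 * ξ 1) / α 0 := by
            rw [eq_div_iff hα0]
            linear_combination hαξ
          rw [h4]
          exact div_mem (sub_mem (one_mem _) (mul_mem (hle _ (hαm 1)) (hT _ _ hTT)))
            (hle _ (hαm 0))
        exact key (ξ 1) (p 2) (h3all _ (h5 _ (by simp)) (hT _ _ (by simp)) (hξ2' _))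
          (hp1 _ (Set.subset_union_left.trans (subset_acl _)) (h5 _ (by simp)) (hT _ _ (by simp)))
          (hT _ _ (by simp))
  · have h3 : ζ 1 * p 1 + ζ 2 * p 2 = e * ζ 2 / ξ 2 - ζ 0 := by
      field_simp
      linear_combination -h2'
    by_cases hΔ : ξ 1 * ζ 2 - ξ 2 * ζ 1 = 0
    · -- the equations for `x` are proportional
      have hζ2 : ζ 2 ≠ 0 := by
        intro h4
        rw [h4, mul_zero, zero_sub, neg_eq_zero] at hΔ
        have h5 : ζ 1 = 0 := (mul_eq_zero.1 hΔ).resolve_left hξ2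
        rw [h4, h5] at h2'
        have h6 : ξ 2 * ζ 0 = 0 := by linear_combination -h2'
        have h7 : ζ 0 = 0 := (mul_eq_zero.1 h6).resolve_left hξ2
        exact hζ0 (funext (h3all _ h7 h5 h4))
      have hξ1 : ξ 1 = ξ 2 * ζ 1 / ζ 2 := by
        rw [eq_div_iff hζ2]
        linear_combination hΔ
      have h4 : α 0 * ξ 0 + (α 1 * ζ 1 / ζ 2 + α 2) * ξ 2 = 1 := by
        rw [← hαξ, hξ1]
        ring
      have hc : α 1 * ζ 1 / ζ 2 + α 2 ∈ acl K B :=
        add_mem (div_mem (mul_mem (hαm 1) (hζm 1)) (hζm 2)) (hαm 2)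
      have hξ1' : ∀ T : Finset E, ξ 2 ∈ acl K (B ∪ ↑T) → ξ 1 ∈ acl K (B ∪ ↑T) := by
        intro T hTT
        rw [hξ1]
        exact div_mem (mul_mem hTT (hle _ (hζm 1))) (hle _ (hζm 2))
      have hp2 : ∀ T : Finset E, ξ 0 ∈ acl K (B ∪ ↑T) → ξ 2 ∈ acl K (B ∪ ↑T) →
          p 1 ∈ acl K (B ∪ ↑T) → p 2 ∈ acl K (B ∪ ↑T) := by
        intro T a b c
        have h5 : p 2 = (e - ξ 0 - p 1 * ξ 1) / ξ 2 := by
          rw [eq_div_iff hξ2]
          linear_combination h1'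
        rw [h5]
        exact div_mem (sub_mem (sub_mem (hle _ he) a) (mul_mem c (hξ1' _ b))) b
      by_cases hα0 : α 0 = 0
      · have hc0 : α 1 * ζ 1 / ζ 2 + α 2 ≠ 0 := by
          intro h5
          rw [hα0, h5] at h4
          simp at h4
        have h5 : ξ 2 ∈ acl K B := by
          have h6 : ξ 2 = 1 / (α 1 * ζ 1 / ζ 2 + α 2) := by
            rw [eq_div_iff hc0, ← h4, hα0]
            ring
          rw [h6]
          exact div_mem (one_mem _) hc
        exact key (ξ 0) (p 1) (h3all _ (hT _ _ (by simp)) (hξ1' _ (hle _ h5)) (hle _ h5))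
          (hT _ _ (by simp)) (hp2 _ (hT _ _ (by simp)) (hle _ h5) (hT _ _ (by simp)))
      · have h5 : ∀ T : Finset E, ξ 2 ∈ T → ξ 0 ∈ acl K (B ∪ ↑T) := by
          intro T hTT
          have h6 : ξ 0 = (1 - (α 1 * ζ 1 / ζ 2 + α 2) * ξ 2) / α 0 := by
            rw [eq_div_iff hα0]
            linear_combination h4
          rw [h6]
          exact div_mem (sub_mem (one_mem _) (mul_mem (hle _ hc) (hT _ _ hTT))) (hle _ (hαm 0))
        exact key (ξ 2) (p 1) (h3all _ (h5 _ (by simp)) (hξ1' _ (hT _ _ (by simp)))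
            (hT _ _ (by simp)))
          (hT _ _ (by simp)) (hp2 _ (h5 _ (by simp)) (hT _ _ (by simp)) (hT _ _ (by simp)))
    · -- `x` is determined by `ξ`
      have hp1 : ∀ T : Finset E, (∀ i, ξ i ∈ acl K (B ∪ ↑T)) → p 1 ∈ acl K (B ∪ ↑T) := by
        intro T a
        have h5 : p 1 = ((e - ξ 0) * ζ 2 - (e * ζ 2 / ξ 2 - ζ 0) * ξ 2) /
            (ξ 1 * ζ 2 - ξ 2 * ζ 1) := by
          rw [eq_div_iff hΔ, ← h3, ← h1']
          ring
        rw [h5]
        exact div_mem (sub_mem (mul_mem (sub_mem (hle _ he) (a 0)) (hle _ (hζm 2)))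
          (mul_mem (sub_mem (div_mem (mul_mem (hle _ he) (hle _ (hζm 2))) (a 2)) (hle _ (hζm 0)))
            (a 2))) (sub_mem (mul_mem (a 1) (hle _ (hζm 2))) (mul_mem (a 2) (hle _ (hζm 1))))
      have hp2 : ∀ T : Finset E, (∀ i, ξ i ∈ acl K (B ∪ ↑T)) → p 2 ∈ acl K (B ∪ ↑T) := by
        intro T a
        have h5 : p 2 = (e - ξ 0 - p 1 * ξ 1) / ξ 2 := by
          rw [eq_div_iff hξ2]
          linear_combination h1'
        rw [h5]
        exact div_mem (sub_mem (sub_mem (hle _ he) (a 0)) (mul_mem (hp1 _ a) (a 1))) (a 2)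
      have hgen : ∃ a b : E, ∀ i, ξ i ∈ acl K (B ∪ ↑({a, b} : Finset E)) := by
        by_cases hα0 : α 0 = 0
        · by_cases hα1 : α 1 = 0
          · have hα2 : α 2 ≠ 0 := by
              intro h5
              rw [hα0, hα1, h5] at hαξ
              simp at hαξ
            refine ⟨ξ 0, ξ 1, h3all _ (hT _ _ (by simp)) (hT _ _ (by simp)) ?_⟩
            have h6 : ξ 2 = (1 - α 0 * ξ 0 - α 1 * ξ 1) / α 2 := by
              rw [eq_div_iff hα2]
              linear_combination hαξ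
            rw [h6]
            exact div_mem (sub_mem (sub_mem (one_mem _) (mul_mem (hle _ (hαm 0))
              (hT _ _ (by simp)))) (mul_mem (hle _ (hαm 1)) (hT _ _ (by simp)))) (hle _ (hαm 2))
          · refine ⟨ξ 0, ξ 2, h3all _ (hT _ _ (by simp)) ?_ (hT _ _ (by simp))⟩
            have h6 : ξ 1 = (1 - α 0 * ξ 0 - α 2 * ξ 2) / α 1 := by
              rw [eq_div_iff hα1]
              linear_combination hαξ
            rw [h6]
            exact div_mem (sub_mem (sub_mem (one_mem _) (mul_mem (hle _ (hαm 0))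
              (hT _ _ (by simp)))) (mul_mem (hle _ (hαm 2)) (hT _ _ (by simp)))) (hle _ (hαm 1))
        · refine ⟨ξ 1, ξ 2, h3all _ ?_ (hT _ _ (by simp)) (hT _ _ (by simp))⟩
          have h6 : ξ 0 = (1 - α 1 * ξ 1 - α 2 * ξ 2) / α 0 := by
            rw [eq_div_iff hα0]
            linear_combination hαξ
          rw [h6]
          exact div_mem (sub_mem (sub_mem (one_mem _) (mul_mem (hle _ (hαm 1))
            (hT _ _ (by simp)))) (mul_mem (hle _ (hαm 2)) (hT _ _ (by simp)))) (hle _ (hαm 0))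
      obtain ⟨a, b, hab⟩ := hgen
      exact key a b hab (hp1 _ hab) (hp2 _ hab)

theorem D_two_eq (M : Mat 3 E) : D 2 M = M 0 0 * M 1 1 - M 0 1 * M 1 0 := by
  rw [D, dif_pos (by omega : 2 ≤ 3), Matrix.det_fin_two]
  rfl

theorem xz_one_subset {n : ℕ} {B : Set E} (u y : Mat (n + 1) E) :
    acl K (B ∪ xz (1 : Mat (n + 1) E) y) ≤ acl K (B ∪ xz u y) := by
  refine acl_le (Set.union_subset (Set.subset_union_left.trans (subset_acl _)) ?_)
  refine Set.union_subset ?_ ?_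
  · exact Set.subset_union_left.trans (Set.subset_union_right.trans (subset_acl _))
  · rintro _ ⟨j, rfl⟩
    change (1 : Mat (n + 1) E) 0 j.succ ∈ _
    rw [Matrix.one_apply_ne (Fin.succ_ne_zero j).symm]
    exact zero_mem (acl K _)

/-- The case of `3 × 3` matrices: two elements are enough for `x`, `z`. -/
theorem xz_two {B : Set E} {g h u y : Mat 3 E}
    (hg : ent g ⊆ acl K B) (hgd : g.det ≠ 0) (hh : ent h ⊆ acl K B) (hhd : h.det ≠ 0)
    (hu : UpU u) (hy : LowU y) (he : (u * g * y) 0 0 ∈ acl K B) (he0 : (u * g * y) 0 0 ≠ 0)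
    (h0 : (h * y) 0 0 ≠ 0) (hD : D 2 (h * y) = 0)
    (hξ' : (sch u g y * lr y) 1 0 = 0) : Bd K B (xz u y) 2 := by
  obtain ⟨p, hp⟩ : ∃ p : Fin 3 → E, p = fun j => u 0 j := ⟨_, rfl⟩
  obtain ⟨q, hq⟩ : ∃ q : Fin 3 → E, q = fun j => y j 0 := ⟨_, rfl⟩
  obtain ⟨q2, hq2⟩ : ∃ q2 : Fin 3 → E, q2 = fun j => y j 1 := ⟨_, rfl⟩
  have hq0 : q 0 = 1 := by rw [hq]; exact hy.1 0
  have hp0 : p 0 = 1 := by rw [hp]; exact hu.1 0
  have hq20 : q2 0 = 0 := by rw [hq2]; exact hy.2 _ _ (by decide)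
  have hq21 : q2 1 = 1 := by rw [hq2]; exact hy.1 1
  have hgy : ∀ (A : Mat 3 E) (i : Fin 3), (A * y) i 0 = (A *ᵥ q) i := by
    intro A i
    rw [hq]
    rfl
  have hgy2 : ∀ (A : Mat 3 E) (i : Fin 3), (A * y) i 1 = (A *ᵥ q2) i := by
    intro A i
    rw [hq2]
    rfl
  have hug : ∀ (A : Mat 3 E) (i : Fin 3), (u * A) 0 i = (p ᵥ* A) i := by
    intro A i
    rw [hp]
    rfl
  have he1 : (u * g * y) 0 0 = p ⬝ᵥ (g *ᵥ q) := by
    rw [hgy, ← Matrix.mulVec_mulVec, hp]
    rfl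
  rw [D_two_eq, hgy, hgy2, hgy, hgy2] at hD
  rw [hgy] at h0
  obtain ⟨β, hβ⟩ : ∃ β, β = (h *ᵥ q2) 0 / (h *ᵥ q) 0 := ⟨_, rfl⟩
  obtain ⟨ω, hω⟩ : ∃ ω, ω = q2 - β • q := ⟨_, rfl⟩
  have hω0 : (h *ᵥ ω) 0 = 0 := by
    rw [hω, Matrix.mulVec_sub, Matrix.mulVec_smul, Pi.sub_apply, Pi.smul_apply, smul_eq_mul, hβ,
      div_mul_cancel₀ _ h0, sub_self]
  have hω1 : (h *ᵥ ω) 1 = 0 := by
    rw [hω, Matrix.mulVec_sub, Matrix.mulVec_smul, Pi.sub_apply, Pi.smul_apply, smul_eq_mul, hβ,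
      sub_eq_zero, div_mul_eq_mul_div, eq_div_iff h0]
    linear_combination hD
  have hωne : ω ≠ 0 := by
    intro hc
    have h1 : ω 0 = 0 := by rw [hc]; rfl
    have h2 : ω 1 = 0 := by rw [hc]; rfl
    rw [hω, Pi.sub_apply, Pi.smul_apply, smul_eq_mul, hq20, hq0, mul_one, zero_sub,
      neg_eq_zero] at h1
    rw [hω, Pi.sub_apply, Pi.smul_apply, smul_eq_mul, hq21, h1, zero_mul, sub_zero] at h2
    exact one_ne_zero h2
  obtain ⟨γ, hγ⟩ : ∃ γ, γ = (h *ᵥ ω) 2 := ⟨_, rfl⟩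
  obtain ⟨η, hη⟩ : ∃ η : Fin 3 → E, η = fun j => h.adjugate j 2 := ⟨_, rfl⟩
  have hηω : h.det • ω = γ • η := by
    have h1 : h.det • ω = h.adjugate *ᵥ (h *ᵥ ω) := by
      rw [Matrix.mulVec_mulVec, Matrix.adjugate_mul, Matrix.smul_mulVec, Matrix.one_mulVec]
    rw [h1]
    ext i
    rw [Matrix.mulVec, dotProduct, Fin.sum_univ_three, hω0, hω1, ← hγ, Pi.smul_apply, hη,
      smul_eq_mul]
    ring
  have hγ0 : γ ≠ 0 := by
    intro hc
    rw [hc, zero_smul] at hηω
    exact hωne ((smul_eq_zero.1 hηω).resolve_left hhd)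
  have hηω' : η = (γ⁻¹ * h.det) • ω := by
    rw [mul_smul, hηω, smul_smul, inv_mul_cancel₀ hγ0, one_smul]
  have hη0 : η ≠ 0 := by
    intro hc
    rw [hc, smul_zero] at hηω
    exact hωne ((smul_eq_zero.1 hηω).resolve_left hhd)
  have hηm : ∀ i, η i ∈ acl K B := by
    intro i
    rw [hη]
    exact adjugate_mem_of _ h (fun i j => hh ⟨i, j, rfl⟩) _ _
  -- the equation for `q2`
  have hξ2 : (u * g * y) 0 0 * (g *ᵥ q2) 2 = (g *ᵥ q) 2 * (p ⬝ᵥ (g *ᵥ q2)) := by
    have h1 : (sch u g y * lr y) 1 0 = (g *ᵥ q2) 2 -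
        (g *ᵥ q) 2 * ((u * g * y) 0 0)⁻¹ * (p ⬝ᵥ (g *ᵥ q2)) := by
      have h2 : (g *ᵥ q2) 2 = g 2 1 * 1 + g 2 2 * q2 2 := by
        rw [Matrix.mulVec, dotProduct, Fin.sum_univ_three, hq20, hq21]
        ring
      have h3 : p ⬝ᵥ (g *ᵥ q2) = (u * g) 0 1 * 1 + (u * g) 0 2 * q2 2 := by
        rw [Matrix.dotProduct_mulVec, hug, hug, dotProduct, Fin.sum_univ_three, hq20, hq21]
        ring
      rw [h2, h3, Matrix.mul_apply, Fin.sum_univ_two, ← hgy]
      have h4 : lr y 0 0 = 1 := hy.1 1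
      have h5 : lr y 1 0 = q2 2 := by rw [hq2]; rfl
      rw [h4, h5]
      change (g 2 1 - (g * y) 2 0 * ((u * g * y) 0 0)⁻¹ * (u * g) 0 1) * 1 +
        (g 2 2 - (g * y) 2 0 * ((u * g * y) 0 0)⁻¹ * (u * g) 0 2) * q2 2 = _
      ring
    rw [hξ'] at h1
    field_simp at h1
    linear_combination -h1
  have hfin : (u * g * y) 0 0 * (g *ᵥ η) 2 = (g *ᵥ q) 2 * (p ⬝ᵥ (g *ᵥ η)) := by
    rw [hηω', hω, Matrix.mulVec_smul, Matrix.mulVec_sub, Matrix.mulVec_smul, Pi.smul_apply,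
      Pi.sub_apply, Pi.smul_apply, dotProduct_smul, dotProduct_sub, dotProduct_smul, smul_eq_mul,
      smul_eq_mul, smul_eq_mul, smul_eq_mul, ← he1]
    linear_combination (γ⁻¹ * h.det) * hξ2
  refine (core g hg hgd p q η hp0 hq0 hηm hη0 _ he he1.symm hfin).mono (subset_acl _) ?_ le_rfl
  refine Set.union_subset ?_ ?_
  · rintro _ ⟨j, rfl⟩
    refine subset_acl _ (Or.inr (Or.inr ⟨j.succ, ?_⟩))
    rw [hq]
  · rintro _ ⟨j, rfl⟩
    refine subset_acl _ (Or.inr (Or.inl ⟨j.succ, ?_⟩))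
    rw [hp]

theorem boundB (n : ℕ) (hn : 2 ≤ n) (B : Set E) (g h u y : Mat (n + 1) E)
    (hg : ent g ⊆ acl K B) (hgd : g.det ≠ 0) (hh : ent h ⊆ acl K B) (hhd : h.det ≠ 0)
    (hu : UpU u) (hy : LowU y)
    (he : ∀ k, 1 ≤ k → k ≤ n → D k (u * g * y) ∈ acl K B ∧ D k (u * g * y) ≠ 0)
    (hbad : ∃ k, 1 ≤ k ∧ k ≤ n ∧ D k (h * y) = 0) :
    Bd K B (ent u ∪ ent y) (n ^ 2 - 1) := by
  -- the case `h₀ q = 0`
  have caseI : ∀ (m : ℕ) (hm : 1 ≤ m) (B : Set E) (g h u y : Mat (m + 1 + 1) E)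
      (hg : ent g ⊆ acl K B) (hgd : g.det ≠ 0) (hh : ent h ⊆ acl K B) (hhd : h.det ≠ 0)
      (hu : UpU u) (hy : LowU y)
      (he : ∀ k, 1 ≤ k → k ≤ m + 1 → D k (u * g * y) ∈ acl K B ∧ D k (u * g * y) ≠ 0)
      (h0 : (h * y) 0 0 = 0), Bd K B (ent u ∪ ent y) ((m + 1) ^ 2 - 1) := by
    intro m hm B g h u y hg hgd hh hhd hu hy he h0
    have h1 := he 1 le_rfl (by omega)
    rw [D_one_eq] at h1
    obtain ⟨h2, h3⟩ := sch_hyp hgd hu hy he
    have h4 := boundA m (B ∪ xz u y) (sch u g y) (lr u) (lr y) (sch_ent hg hu hy) h2 (UpU.lr hu)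
      (LowU.lr hy) h3
    have h5 := Bd.assemble hu hy (xz_le' (by omega) hg hgd hh hhd hu hy h1.1 h0) h4
    refine h5.mono (subset_acl _) (Set.subset_union_right.trans (subset_acl _)) ?_
    have h6 : (m + 1) ^ 2 = m ^ 2 + 2 * m + 1 := by ring
    omega
  -- the consequences of `h₀ q ≠ 0`
  have caseII : ∀ (m : ℕ) (B : Set E) (h u y : Mat (m + 1 + 1) E)
      (hh : ent h ⊆ acl K B) (hhd : h.det ≠ 0) (hy : LowU y) (h0 : (h * y) 0 0 ≠ 0)
      (hbad : ∃ k, 1 ≤ k ∧ k ≤ m + 1 ∧ D k (h * y) = 0),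
      ent (sch 1 h y) ⊆ acl K (B ∪ xz u y) ∧ (sch 1 h y).det ≠ 0 ∧
        ∃ k, 1 ≤ k ∧ k ≤ m ∧ D k (sch 1 h y * lr y) = 0 := by
    intro m B h u y hh hhd hy h0 hbad
    have h0' : ((1 : Mat (m + 1 + 1) E) * h * y) 0 0 ≠ 0 := by rwa [Matrix.one_mul]
    refine ⟨(sch_ent hh UpU.one hy).trans (xz_one_subset u y), ?_, ?_⟩
    · intro hc
      have h1 := det_sch UpU.one hy h0'
      rw [hc, mul_zero] at h1
      exact hhd h1
    · obtain ⟨k, hk1, hk2, hk3⟩ := hbad
      obtain ⟨k, rfl⟩ : ∃ k', k = k' + 1 := ⟨k - 1, by omega⟩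
      have hlr : lr (1 : Mat (m + 1 + 1) E) = 1 := by
        ext i j
        simp [lr, Matrix.one_apply, Fin.succ_inj]
      have h1 := D_sch (g := h) (k := k) UpU.one hy h0' (by omega)
      rw [Matrix.one_mul, hk3, hlr, Matrix.one_mul] at h1
      have h2 : D k (sch 1 h y * lr y) = 0 := (mul_eq_zero.1 h1.symm).resolve_left h0
      refine ⟨k, ?_, by omega, h2⟩
      rcases Nat.eq_zero_or_pos k with hk | hk
      · rw [hk, D_zero] at h2
        exact absurd h2 one_ne_zero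
      · exact hk
  induction n, hn using Nat.le_induction generalizing B with
  | base =>
    by_cases h0 : (h * y) 0 0 = 0
    · exact caseI 1 le_rfl B g h u y hg hgd hh hhd hu hy he h0
    obtain ⟨a1, a2, k, a3, a4, a5⟩ := caseII 1 B h u y hh hhd hy h0 hbad
    obtain rfl : k = 1 := by omega
    have hD : D 2 (h * y) = 0 := by
      obtain ⟨k, b1, b2, b3⟩ := hbad
      rcases Nat.lt_or_ge k 2 with hk | hk
      · obtain rfl : k = 1 := by omega
        rw [D_one_eq] at b3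
        exact absurd b3 h0
      · obtain rfl : k = 2 := by omega
        exact b3
    have h1 := he 1 le_rfl (by omega)
    rw [D_one_eq] at h1
    obtain ⟨h2, h3⟩ := sch_hyp hgd hu hy he
    have h4 := (h3 1 le_rfl le_rfl).1
    have hlr0 : lr y 0 0 = 1 := hy.1 1
    rw [D_one_eq, Matrix.mul_apply, Fin.sum_univ_two, hlr0, mul_one] at a5
    have hz' : lr y 1 0 ∈ acl K (B ∪ xz u y) := by
      have b1 : sch 1 h y 0 1 ≠ 0 := by
        intro hc
        rw [hc, zero_mul, add_zero] at a5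
        refine a2 (Matrix.det_eq_zero_of_row_eq_zero 0 fun j => ?_)
        fin_cases j
        · exact a5
        · exact hc
      have b2 : lr y 1 0 = - sch 1 h y 0 0 / sch 1 h y 0 1 := by
        rw [eq_div_iff b1]
        linear_combination a5
      rw [b2]
      exact div_mem (neg_mem (a1 ⟨_, _, rfl⟩)) (a1 ⟨_, _, rfl⟩)
    have hlry : ent (lr y) ⊆ acl K (B ∪ xz u y) := by
      rintro _ ⟨i, j, rfl⟩
      fin_cases i
      · fin_cases j
        · change lr y 0 0 ∈ _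
          rw [hlr0]
          exact one_mem (acl K _)
        · change lr y 0 1 ∈ _
          rw [(LowU.lr hy).2 0 1 (by decide)]
          exact zero_mem (acl K _)
      · fin_cases j
        · exact hz'
        · change lr y 1 1 ∈ _
          rw [(LowU.lr hy).1 1]
          exact one_mem (acl K _)
    have hlru : ∀ F : IntermediateField K E, lr u 0 1 ∈ F → ent (lr u) ⊆ F := by
      rintro F hF _ ⟨i, j, rfl⟩
      fin_cases i
      · fin_cases j
        · change lr u 0 0 ∈ _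
          rw [(UpU.lr hu).1 0]
          exact one_mem F
        · exact hF
      · fin_cases j
        · change lr u 1 0 ∈ _
          rw [(UpU.lr hu).2 1 0 (by decide)]
          exact zero_mem F
        · change lr u 1 1 ∈ _
          rw [(UpU.lr hu).1 1]
          exact one_mem F
    have hsm : ∀ i, (sch u g y * lr y) i 0 ∈ acl K (B ∪ xz u y) := by
      intro i
      rw [Matrix.mul_apply]
      exact sum_mem fun j _ => mul_mem (sch_ent hg hu hy ⟨_, _, rfl⟩) (hlry ⟨_, _, rfl⟩)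
    rw [D_one_eq, Matrix.mul_assoc, Matrix.mul_apply, Fin.sum_univ_two, (UpU.lr hu).1 0,
      one_mul] at h4
    by_cases hξ' : (sch u g y * lr y) 1 0 = 0
    · have b1 := xz_two hg hgd hh hhd hu hy h1.1 h1.2 h0 hD hξ'
      have b2 : Bd K (B ∪ xz u y) (ent (lr u) ∪ ent (lr y)) 1 := by
        refine ⟨{lr u 0 1}, by simp, Set.union_subset ?_ ?_⟩
        · refine hlru _ (subset_acl _ (Or.inr ?_))
          simp
        · exact hlry.trans (acl_mono Set.subset_union_left)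
      exact Bd.assemble hu hy b1 b2
    · have b1 := xz_le (by omega) hg hgd hu hy h1.1
      have b2 : Bd K (B ∪ xz u y) (ent (lr u) ∪ ent (lr y)) 0 := by
        refine Bd.of_subset (Set.union_subset (hlru _ ?_) hlry)
        have b3 : lr u 0 1 = ((sch u g y * lr y) 0 0 + lr u 0 1 * (sch u g y * lr y) 1 0 -
            (sch u g y * lr y) 0 0) / (sch u g y * lr y) 1 0 := by
          rw [eq_div_iff hξ']
          ring
        rw [b3]
        exact div_mem (sub_mem h4 (hsm 0)) (hsm 1)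
      exact Bd.assemble hu hy b1 b2
  | succ m hm ih =>
    by_cases h0 : (h * y) 0 0 = 0
    · exact caseI m (by omega) B g h u y hg hgd hh hhd hu hy he h0
    obtain ⟨a1, a2, a3⟩ := caseII m B h u y hh hhd hy h0 hbad
    have h1 := he 1 le_rfl (by omega)
    rw [D_one_eq] at h1
    obtain ⟨h2, h3⟩ := sch_hyp hgd hu hy he
    have h4 := ih (B ∪ xz u y) (sch u g y) (sch 1 h y) (lr u) (lr y) (sch_ent hg hu hy) h2 a1 a2
      (UpU.lr hu) (LowU.lr hy) h3 a3
    have h5 := Bd.assemble hu hy (xz_le (by omega) hg hgd hu hy h1.1) h4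
    refine h5.mono (subset_acl _) (Set.subset_union_right.trans (subset_acl _)) ?_
    have h6 : (m + 1) ^ 2 = m ^ 2 + 2 * m + 1 := by ring
    have h7 : 1 ≤ m ^ 2 := Nat.one_le_pow _ _ (by omega)
    omega

end

end Pool.Agent.MP_3f0e22_ag
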