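import Pool.Agent.MP_3f0e22_ag.Lu

/-! # Block ZC: the chart of the lower unitriangular group -/

set_option autoImplicit false

open Matrix MvPolynomial

namespace Pool.Agent.MP_3f0e22_ag

variable {R : Type*} [CommRing R]

theorem bl_zero_zero {n : ℕ} (z : Mat n R) : bl z 0 0 = 1 := rfl
theorem bl_zero_succ {n : ℕ} (z : Mat n R) (j : Fin n) : bl z 0 j.succ = 0 := rfl
theorem bl_succ_zero {n : ℕ} (z : Mat n R) (i : Fin n) : bl z i.succ 0 = 0 := rfl
theorem bl_succ_succ {n : ℕ} (z : Mat n R) (i j : Fin n) : bl z i.succ j.succ = z i j := rfl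

theorem blc_zero {n : ℕ} (z : Mat n R) (s : ℕ → R) (j : Fin (n + 1)) :
    (bl z * cmat n s) 0 j = cmat n s 0 j := by
  rw [Matrix.mul_apply, Fin.sum_univ_succ, bl_zero_zero]
  simp [bl_zero_succ]

theorem blc_succ {n : ℕ} (z : Mat n R) (s : ℕ → R) (i : Fin n) (j : Fin (n + 1)) :
    (bl z * cmat n s) i.succ j = ∑ k : Fin n, z i k * cmat n s k.succ j := by
  rw [Matrix.mul_apply, Fin.sum_univ_succ, bl_succ_zero]
  simp [bl_succ_succ]

theorem cmat_zero {n : ℕ} (s : ℕ → R) (j : Fin (n + 1)) :
    cmat n s 0 j = if j = 0 then 1 else 0 := by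
  unfold cmat
  by_cases h : j = 0
  · simp [h]
  · rw [if_neg (fun h' => h h'.symm), if_neg (by simp), if_neg h]

theorem cmat_succ {n : ℕ} (s : ℕ → R) (i : Fin n) (j : Fin (n + 1)) :
    cmat n s i.succ j = if (i : ℕ) + 1 = j then 1 else if (i : ℕ) = j then s j else 0 := by
  unfold cmat
  by_cases h : (i : ℕ) + 1 = j
  · rw [if_pos (Fin.ext (by simpa using h)), if_pos h]
  · rw [if_neg (fun h' => h (by rw [← h']; simp)), if_neg h]
    simp

theorem bl_low {n : ℕ} {z : Mat n R} (hz : LowU z) : LowU (bl z) := by
  refine ⟨fun i => ?_, fun i j hij => ?_⟩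
  · refine Fin.cases rfl (fun i => ?_) i
    rw [bl_succ_succ]; exact hz.1 i
  · revert hij
    refine Fin.cases (fun hij => ?_) (fun j hij => ?_) j
    · exact absurd hij (by simp)
    · revert hij
      refine Fin.cases (fun hij => ?_) (fun i hij => ?_) i
      · rfl
      · rw [bl_succ_succ]; exact hz.2 i j (by simpa using hij)

theorem cmat_low (n : ℕ) (s : ℕ → R) : LowU (cmat n s) := by
  refine ⟨fun i => by simp [cmat], fun i j hij => ?_⟩
  have h1 : ¬ i = j := ne_of_lt hij
  have h2 : ¬ (i : ℕ) = j + 1 := by
    have : (i : ℕ) < j := hij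
    omega
  simp [cmat, h1, h2]

theorem Z_low (r : ℕ) (t : ℕ → ℕ → R) : LowU (Z r t) := by
  induction r with
  | zero => exact LowU.one
  | succ n ih => exact (bl_low ih).mul (cmat_low n _)

theorem Z_map {R' : Type*} [CommRing R'] (φ : R →+* R') (r : ℕ) (t : ℕ → ℕ → R) :
    (Z r t).map φ = Z r (fun j k => φ (t j k)) := by
  induction r with
  | zero => ext i; exact i.elim0
  | succ n ih =>
    have h1 : (bl (Z n t)).map φ = bl (Z n (fun j k => φ (t j k))) := by
      rw [← ih]
      ext i j
      refine Fin.cases ?_ (fun i => ?_) i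
      · refine Fin.cases ?_ (fun j => ?_) j
        · simp [bl_zero_zero]
        · simp [bl_zero_succ]
      · refine Fin.cases ?_ (fun j => ?_) j
        · simp [bl_succ_zero]
        · simp [bl_succ_succ]
    have h2 : (cmat n (t n)).map φ = cmat n (fun k => φ (t n k)) := by
      ext i j
      simp only [cmat, Matrix.map_apply]
      split_ifs <;> simp
    show (bl (Z n t) * cmat n (t n)).map φ = _
    rw [Matrix.map_mul, h1, h2]
    rfl

theorem cmat_congr {n : ℕ} {s s' : ℕ → R} (h : ∀ k < n, s k = s' k) :
    cmat n s = cmat n s' := by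
  ext i j
  simp only [cmat]
  split_ifs with h1 h2
  · rfl
  · exact h j (by have := i.2; omega)
  · rfl

theorem Z_congr {r : ℕ} {t t' : ℕ → ℕ → R} (h : ∀ j < r, ∀ k < j, t j k = t' j k) :
    Z r t = Z r t' := by
  induction r with
  | zero => rfl
  | succ n ih =>
    show bl (Z n t) * cmat n (t n) = bl (Z n t') * cmat n (t' n)
    rw [ih (fun j hj k hk => h j (by omega) k hk),
      cmat_congr (fun k hk => h n (by omega) k hk)]

/-- The minors of `bl z * cmat n s` not involving the row `0`. -/
theorem minor_blc {n k : ℕ} (hk : k ≤ n) (z : Mat n R) (s : ℕ → R) (f : Fin k → Fin n) :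
    ((bl z * cmat n s).submatrix (fun a => (f a).succ)
      (Fin.castLE (hk.trans (Nat.le_succ n)))).det =
      (z.submatrix f (Fin.castLE hk)).det * ∏ j : Fin k, s j := by
  set B : Matrix (Fin k) (Fin k) R :=
    fun a b => if (a : ℕ) + 1 = b then 1 else if (a : ℕ) = b then s b else 0 with hB
  have h1 : (bl z * cmat n s).submatrix (fun a => (f a).succ)
      (Fin.castLE (hk.trans (Nat.le_succ n))) = z.submatrix f (Fin.castLE hk) * B := by
    ext a b
    rw [Matrix.submatrix_apply, blc_succ, Matrix.mul_apply]
    symm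
    refine Finset.sum_of_injOn (Fin.castLE hk) ?_ (fun _ _ => Finset.mem_coe.2 (Finset.mem_univ _))
      ?_ ?_
    · intro x _ y _ hxy
      exact Fin.castLE_injective hk hxy
    · intro i _ hi
      have h2 : k ≤ (i : ℕ) := by
        by_contra h
        exact hi ⟨⟨i, by omega⟩, by simp, rfl⟩
      have hb := b.2
      rw [cmat_succ, if_neg (by simp; omega), if_neg (by simp; omega), mul_zero]
    · intro i _
      rw [cmat_succ, hB]
      simp
  have h2 : B.det = ∏ j : Fin k, s j := by
    rw [Matrix.det_of_isUpperTriangular (M := B)]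
    · refine Finset.prod_congr rfl fun j _ => ?_
      simp [hB]
    · intro i j hij
      have hij' : (j : ℕ) < i := hij
      rw [hB]
      show (if (i : ℕ) + 1 = j then (1 : R) else if (i : ℕ) = j then s j else 0) = 0
      rw [if_neg (by omega), if_neg (by omega)]
  rw [h1, Matrix.det_mul, h2]

theorem Jm_eq (k : ℕ) (i j : Fin k) : Jm R k i j = if i.rev = j then 1 else 0 := by
  simp [Jm, Matrix.submatrix_apply, Matrix.one_apply]

theorem D_Jm_blc {n k : ℕ} (hk : k ≤ n) (z : Mat n R) (s : ℕ → R) :
    D k (Jm R (n + 1) * (bl z * cmat n s)) = D k (Jm R n * z) * ∏ j : Fin k, s j := by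
  have h1 := minor_blc hk z s (fun a => (Fin.castLE hk a).rev)
  unfold D
  rw [dif_pos hk, dif_pos (hk.trans (Nat.le_succ n))]
  have h2 : (Jm R (n + 1) * (bl z * cmat n s)).submatrix
      (Fin.castLE (hk.trans (Nat.le_succ n))) (Fin.castLE (hk.trans (Nat.le_succ n))) =
      (bl z * cmat n s).submatrix (fun a => ((Fin.castLE hk a).rev).succ)
      (Fin.castLE (hk.trans (Nat.le_succ n))) := by
    ext a b
    rw [Matrix.submatrix_apply, Matrix.submatrix_apply, Jm_mul_apply]
    have h3 : (Fin.castLE (hk.trans (Nat.le_succ n)) a).rev = ((Fin.castLE hk a).rev).succ := by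
      ext
      simp only [Fin.val_rev, Fin.val_castLE, Fin.val_succ]
      have := a.2
      omega
    rw [h3]
  have h3 : (Jm R n * z).submatrix (Fin.castLE hk) (Fin.castLE hk) =
      z.submatrix (fun a => (Fin.castLE hk a).rev) (Fin.castLE hk) := by
    ext a b
    rw [Matrix.submatrix_apply, Matrix.submatrix_apply, Jm_mul_apply]
  rw [h2, h3, h1]

theorem D_Jm_Z {r k : ℕ} (hk : k ≤ r) (t : ℕ → ℕ → R) :
    D k (Jm R r * Z r t) = (Jm R k).det * mu r k t := by
  induction r with
  | zero =>
    obtain rfl : k = 0 := by omega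
    rw [D_zero]
    simp [mu]
  | succ n ih =>
    rcases Nat.lt_or_ge n k with h | h
    · obtain rfl : k = n + 1 := by omega
      rw [D_self, Matrix.det_mul, (Z_low (n + 1) t).det]
      simp [mu]
    · show D k (Jm R (n + 1) * (bl (Z n t) * cmat n (t n))) = _
      rw [D_Jm_blc h, ih h]
      have h1 : mu (n + 1) k t = mu n k t * ∏ j : Fin k, t n j := by
        unfold mu
        rw [Finset.prod_Ico_succ_top h, Finset.prod_range]
      rw [h1, mul_assoc]

theorem det_Jm_sq (k : ℕ) : (Jm R k).det * (Jm R k).det = 1 := by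
  rw [← Matrix.det_mul, Jm_mul_Jm, Matrix.det_one]

theorem Mi_blc {n j k : ℕ} (hjk : j + k ≤ n) (z : Mat n R) (s : ℕ → R) :
    Mi (j + 1) k (bl z * cmat n s) = Mi j k z * ∏ j : Fin k, s j := by
  have hk : k ≤ n := by omega
  have h1 := minor_blc hk z s (fun a => ⟨j + a, by omega⟩)
  unfold Mi
  rw [dif_pos hjk, dif_pos (by omega)]
  have h2 : (bl z * cmat n s).submatrix (fun i : Fin k => (⟨j + 1 + i, by omega⟩ : Fin (n + 1)))
      (fun i : Fin k => (⟨i, by omega⟩ : Fin (n + 1))) =
      (bl z * cmat n s).submatrix (fun a : Fin k => (⟨j + a, by omega⟩ : Fin n).succ)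
      (Fin.castLE (hk.trans (Nat.le_succ n))) := by
    ext a b
    rw [Matrix.submatrix_apply, Matrix.submatrix_apply]
    have h3 : (⟨j + 1 + a, by omega⟩ : Fin (n + 1)) = (⟨j + a, by omega⟩ : Fin n).succ := by
      ext
      simp only [Fin.val_succ]
      omega
    rw [h3]
    rfl
  rw [h2, h1]
  rfl

theorem exists_Z {E : Type*} [Field E] {r : ℕ} (z : Mat r E) (hz : LowU z)
    (h : ∀ j k, j + k ≤ r → Mi j k z ≠ 0) :
    ∃ t : ℕ → ℕ → Eˣ, z = Z r (fun j k => (t j k : E)) := by
  induction r with
  | zero => exact ⟨fun _ _ => 1, by ext i; exact i.elim0⟩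
  | succ n ih =>
    -- the submatrix
    set z' : Mat n E := z.submatrix Fin.succ Fin.castSucc with hz'
    have hD : ∀ k ≤ n, IsUnit (D k z') := by
      intro k hk
      have h1 := h 1 k (by omega)
      rw [Mi, dif_pos (by omega)] at h1
      rw [isUnit_iff_ne_zero, D, dif_pos hk]
      convert h1 using 2
      ext a b
      simp only [hz', Matrix.submatrix_apply]
      congr 1
      ext
      simp only [Fin.val_succ, Fin.val_castLE]
      omega
    obtain ⟨l, v, d, hl, hv, hlv⟩ := exists_lu z' hD
    -- `z'` is Hessenberg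
    have hH0 : ∀ i j : Fin n, (i : ℕ) + 1 < j → z' i j = 0 := by
      intro i j hij
      exact hz.2 _ _ (by rw [Fin.lt_def]; simpa using hij)
    have hH1 : ∀ i j : Fin n, (i : ℕ) + 1 = j → z' i j = 1 := by
      intro i j hij
      have : i.succ = j.castSucc := Fin.ext (by simpa using hij)
      rw [hz', Matrix.submatrix_apply, this]
      exact hz.1 _
    -- `a v = l⁻¹ z'`
    have hadj : LowU l.adjugate := hl.adjugate
    have h2 : l.adjugate * z' = diagonal (fun k => (d k : E)) * v := by
      rw [hlv, ← Matrix.mul_assoc, ← Matrix.mul_assoc, Matrix.adjugate_mul, hl.det, one_smul,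
        Matrix.one_mul]
    have h3 : ∀ i j : Fin n, (d i : E) * v i j =
        if (i : ℕ) + 1 = j then 1 else if (i : ℕ) = j then (d j : E) else 0 := by
      intro i j
      have h4 : (d i : E) * v i j = ∑ k, l.adjugate i k * z' k j := by
        rw [← Matrix.mul_apply, h2, Matrix.diagonal_mul]
      by_cases h5 : (i : ℕ) + 1 = j
      · rw [if_pos h5, h4, Finset.sum_eq_single i]
        · rw [hadj.1, hH1 i j h5, one_mul]
        · intro k _ hk
          rcases lt_or_gt_of_ne hk with hk | hk
          · rw [hH0 k j (by have : (k : ℕ) < i := hk; omega), mul_zero]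
          · rw [hadj.2 i k hk, zero_mul]
        · simp
      · rw [if_neg h5]
        by_cases h6 : (i : ℕ) = j
        · rw [if_pos h6]
          obtain rfl : i = j := Fin.ext h6
          rw [hv.1, mul_one]
        · rw [if_neg h6]
          rcases Nat.lt_or_ge (j : ℕ) i with h7 | h7
          · rw [hv.2 i j h7, mul_zero]
          · rw [h4]
            refine Finset.sum_eq_zero fun k _ => ?_
            rcases lt_or_ge i k with hk | hk
            · rw [hadj.2 i k hk, zero_mul]
            · rw [hH0 k j (by have : (k : ℕ) ≤ i := hk; omega), mul_zero]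
    -- the parameters of the last factor
    set s : ℕ → Eˣ := fun k => if hk : k < n then d ⟨k, hk⟩ else 1 with hs
    have hsd : ∀ k : Fin n, s k = d k := by
      intro k
      rw [hs]; simp
    have hz2 : z = bl l * cmat n (fun k => (s k : E)) := by
      ext i j
      refine Fin.cases ?_ (fun i => ?_) i
      · rw [blc_zero, cmat_zero]
        by_cases hj : j = 0
        · rw [if_pos hj, hj]; exact hz.1 0
        · rw [if_neg hj]; exact hz.2 0 j (Fin.pos_of_ne_zero hj)
      · rw [blc_succ]
        refine Fin.lastCases ?_ (fun j => ?_) j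
        · -- last column
          have h4 : ∀ k : Fin n, l i k * cmat n (fun k => (s k : E)) k.succ (Fin.last n) =
              if (k : ℕ) + 1 = n then l i k else 0 := by
            intro k
            rw [cmat_succ]
            have := k.2
            simp only [Fin.val_last]
            split_ifs with h5 h6
            · rw [mul_one]
            · omega
            · rw [mul_zero]
          rw [Finset.sum_congr rfl (fun k _ => h4 k)]
          by_cases hi : (i : ℕ) + 1 = n
          · have : i.succ = Fin.last n := Fin.ext (by simpa using hi)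
            rw [this, hz.1]
            rw [Finset.sum_eq_single i]
            · rw [if_pos hi, hl.1]
            · intro k _ hk
              rw [if_neg]
              intro h6
              exact hk (Fin.ext (by omega))
            · simp
          · rw [hz.2 _ _ (by rw [Fin.lt_def]; simp; have := i.2; omega)]
            symm
            refine Finset.sum_eq_zero fun k _ => ?_
            split_ifs with h5
            · exact hl.2 i k (by rw [Fin.lt_def]; have := i.2; omega)
            · rfl
        · have h4 : z i.succ j.castSucc = z' i j := rfl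
          rw [h4, hlv, Matrix.mul_assoc, Matrix.mul_apply]
          refine Finset.sum_congr rfl fun k _ => ?_
          rw [Matrix.diagonal_mul, h3, cmat_succ]
          simp [hsd]
    -- the minors of `l`
    have hMi : ∀ j k, j + k ≤ n → Mi j k l ≠ 0 := by
      intro j k hjk h4
      refine h (j + 1) k (by omega) ?_
      rw [hz2, Mi_blc hjk, h4, zero_mul]
    obtain ⟨t, ht⟩ := ih l hl hMi
    refine ⟨fun m => if m = n then s else t m, ?_⟩
    show z = bl (Z n _) * cmat n _
    rw [hz2]
    congr 1
    · rw [ht]
      congr 1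
      refine Z_congr fun j hj k _ => ?_
      show _ = (((if j = n then s else t j) k : Eˣ) : E)
      rw [if_neg (by omega)]
    · simp
end Pool.Agent.MP_3f0e22_ag
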