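import Pool.Agent.MP_3f0e22_ag.Lu
import Pool.Agent.MP_3f0e22_ag.Ba
import Pool.Agent.MP_3f0e22_ag.Zc

/-! # One pair of the chart -/

set_option autoImplicit false

namespace Pool.Agent.MP_3f0e22_ag

open Matrix MvPolynomial

/-! ### matrices with entries in an intermediate field -/

section InL

variable {K E : Type*} [Field K] [Field E] [Algebra K E] {r : ℕ}

/-- The entries of `M` lie in `L`. -/
def PcIn (L : IntermediateField K E) (M : Mat r E) : Prop :=
  ∃ M₀ : Mat r L, M = M₀.map (algebraMap L E)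

theorem pcIn_iff {L : IntermediateField K E} {M : Mat r E} : PcIn L M ↔ ∀ i j, M i j ∈ L := by
  constructor
  · rintro ⟨M₀, rfl⟩ i j
    exact (M₀ i j).2
  · intro h
    exact ⟨fun i j => ⟨M i j, h i j⟩, rfl⟩

theorem PcIn.mul {L : IntermediateField K E} {M N : Mat r E} (hM : PcIn L M) (hN : PcIn L N) :
    PcIn L (M * N) := by
  obtain ⟨M₀, rfl⟩ := hM
  obtain ⟨N₀, rfl⟩ := hN
  exact ⟨M₀ * N₀, by rw [Matrix.map_mul]⟩

theorem PcIn.transpose {L : IntermediateField K E} {M : Mat r E} (hM : PcIn L M) :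
    PcIn L Mᵀ := by
  obtain ⟨M₀, rfl⟩ := hM
  exact ⟨M₀ᵀ, rfl⟩

theorem PcIn.adjugate {L : IntermediateField K E} {M : Mat r E} (hM : PcIn L M) :
    PcIn L M.adjugate := by
  obtain ⟨M₀, rfl⟩ := hM
  exact ⟨M₀.adjugate, by rw [← RingHom.mapMatrix_apply, ← RingHom.mapMatrix_apply,
    RingHom.map_adjugate]⟩

theorem pcIn_Jm (L : IntermediateField K E) : PcIn L (Jm E r) := by
  rw [pcIn_iff]
  intro i j
  unfold Jm
  rw [Matrix.submatrix_apply, Matrix.one_apply]
  split_ifs
  · exact one_mem L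
  · exact zero_mem L

/-- The lower LU factor. -/
theorem pcIn_lu {L : IntermediateField K E} {M l v : Mat r E} {d : Fin r → Eˣ} (hM : PcIn L M)
    (hD : ∀ k ≤ r, D k M ≠ 0) (hl : LowU l) (hv : UpU v)
    (h : M = l * diagonal (fun k => (d k : E)) * v) : PcIn L l := by
  obtain ⟨M₀, hM₀⟩ := hM
  have hD₀ : ∀ k ≤ r, IsUnit (D k M₀) := by
    intro k hk
    have h1 := hD k hk
    rw [hM₀, D_map] at h1
    rw [isUnit_iff_ne_zero]
    intro h2
    rw [h2, map_zero] at h1
    exact h1 rfl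
  obtain ⟨l₀, v₀, d₀, hl₀, hv₀, h₀⟩ := exists_lu M₀ hD₀
  have h1 : l * diagonal (fun k => (d k : E)) * v =
      l₀.map (algebraMap L E) *
        diagonal (fun k => ((Units.map (algebraMap L E : L →* E) (d₀ k) : Eˣ) : E)) *
        v₀.map (algebraMap L E) := by
    rw [← h, hM₀, h₀, Matrix.map_mul, Matrix.map_mul]
    congr 2
    rw [Matrix.diagonal_map (map_zero _)]
    rfl
  obtain ⟨h2, -, -⟩ := lu_unique hl (hl₀.map _) hv (hv₀.map _) h1
  exact ⟨l₀, h2⟩

end InL

/-! ### rotation of the rows -/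

section Rot

variable {E : Type*} [Field E]

/-- The rotation of the rows by `j`. -/
def pcRot (n j : ℕ) (E : Type*) [Field E] : Mat (n + 1) E :=
  (1 : Mat (n + 1) E).submatrix (Equiv.addRight (Fin.ofNat (n + 1) j)) id

theorem pcRot_det (n j : ℕ) : (pcRot n j E).det ≠ 0 := by
  unfold pcRot
  rw [Matrix.det_permute, Matrix.det_one, mul_one]
  rcases Int.units_eq_one_or (Equiv.Perm.sign (Equiv.addRight (Fin.ofNat (n + 1) j))) with h | h
  · rw [h]
    simp
  · rw [h]
    simp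

theorem pcRot_ent {K : Type*} [Field K] [Algebra K E] (n j : ℕ) (B : Set E) :
    ent (pcRot n j E) ⊆ acl K B := by
  rintro x ⟨a, b, rfl⟩
  unfold pcRot
  rw [Matrix.submatrix_apply, Matrix.one_apply]
  split_ifs
  · exact one_mem (acl K B)
  · exact zero_mem (acl K B)

theorem pcRot_D {n j k : ℕ} (hk : 1 ≤ k) (h : j + k ≤ n + 1) (z : Mat (n + 1) E) :
    D k (pcRot n j E * z) = Mi j k z := by
  have e : pcRot n j E * z = z.submatrix (Equiv.addRight (Fin.ofNat (n + 1) j)) id := by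
    unfold pcRot
    ext a b
    rw [Matrix.mul_apply]
    simp only [Matrix.submatrix_apply, Matrix.one_apply, id, ite_mul, one_mul, zero_mul]
    rw [Finset.sum_ite_eq]
    simp
  rw [e]
  unfold D Mi
  rw [dif_pos (show k ≤ n + 1 by omega), dif_pos h, Matrix.submatrix_submatrix]
  congr 1
  ext a b
  simp only [Matrix.submatrix_apply, Function.comp, id]
  congr 1
  apply Fin.ext
  rw [Equiv.coe_addRight, Fin.val_add]
  simp only [Fin.ofNat, Fin.val_castLE]
  have ha := a.2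
  rw [Nat.mod_eq_of_lt (show j < n + 1 by omega), Nat.mod_eq_of_lt (by omega)]
  omega

end Rot

/-! ### auxiliary statements -/

section Aux

variable {R : Type*} [CommRing R] {r : ℕ}

theorem pcD_low {z : Mat r R} (hz : LowU z) {k : ℕ} (hk : k ≤ r) : D k z = 1 := by
  have h := D_low_mul hz k 1
  rw [mul_one] at h
  rw [h, D_one k hk]

theorem pcMi_zero_left {k : ℕ} (z : Mat r R) (hk : k ≤ r) : Mi 0 k z = D k z := by
  unfold Mi D
  rw [dif_pos (by omega), dif_pos hk]
  congr 1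
  ext a b
  simp only [Matrix.submatrix_apply]
  congr 1
  apply Fin.ext
  simp

theorem pcMi_zero_right {j : ℕ} (z : Mat r R) (hj : j ≤ r) : Mi j 0 z = 1 := by
  unfold Mi
  rw [dif_pos (by omega)]
  exact Matrix.det_isEmpty

/-- the LU decomposition of `J M`. -/
theorem pc_split {M l v : Mat r R} {d : Fin r → R}
    (h : Jm R r * M = l * diagonal d * v) :
    M = (Jm R r * l * Jm R r) * Jm R r * diagonal d * v := by
  have h1 : M = Jm R r * (Jm R r * M) := by
    rw [← mul_assoc, Jm_mul_Jm, one_mul]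
  rw [h1, h]
  have h2 : Jm R r * l * Jm R r * Jm R r = Jm R r * l := by
    rw [mul_assoc, Jm_mul_Jm, mul_one]
  rw [h2]
  simp only [mul_assoc]

theorem pc_D_prod {M l v : Mat r R} {d : Fin r → R} (hl : LowU l) (hv : UpU v)
    (h : Jm R r * M = l * diagonal d * v) {k : ℕ} (hk : k ≤ r) :
    D k (Jm R r * M) = ∏ i : Fin k, d (i.castLE hk) := by
  rw [h, D_mul_up hv, D_low_mul hl]
  have := D_diag_mul d hk (1 : Mat r R)
  rw [mul_one, D_one k hk, mul_one] at this
  exact this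

/-- `D k (a M) = D k (J aᵀ) D k (J M)` after removing the left factor `n` of `M = n J d v`. -/
theorem pc_D_mul {a : Mat r R} {l v : Mat r R} {d : Fin r → R} (hl : LowU l) (hv : UpU v)
    {M : Mat r R} (h : Jm R r * M = l * diagonal d * v) {k : ℕ} (hk : k ≤ r) :
    D k (a * Jm R r * diagonal d * v) = D k (Jm R r * aᵀ) * D k (Jm R r * M) := by
  rw [D_mul_up hv, D_mul_diag d hk, pc_D_prod hl hv h hk]
  congr 1
  rw [← D_transpose, Matrix.transpose_mul, Jm_transpose]

end Aux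

/-! ### the theorem -/

theorem pc_adj {R : Type*} [CommRing R] {r : ℕ} {n : Mat r R} (hn : n.det = 1) :
    n * n.adjugate = 1 ∧ n.adjugate * n = 1 := by
  constructor
  · rw [Matrix.mul_adjugate, hn, one_smul]
  · rw [Matrix.adjugate_mul, hn, one_smul]

theorem pc_bad {K E : Type*} [Field K] [Field E] [Algebra K E] {n : ℕ} (hn : 2 ≤ n)
    (B : Set E) (u z : Mat (n + 1) E) (hu : UpU u) (hz : LowU z)
    (he : ∀ k, 1 ≤ k → k ≤ n → D k (u * z) ∈ acl K B ∧ D k (u * z) ≠ 0)
    (hbad : ∃ j k, j + k ≤ n + 1 ∧ Mi j k z = 0) :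
    Bd K B (ent u ∪ ent z) (n ^ 2 - 1) := by
  obtain ⟨j, k, hjk, h0⟩ := hbad
  have hk : 1 ≤ k := by
    by_contra hcon
    have : k = 0 := by omega
    subst this
    rw [pcMi_zero_right z (by omega)] at h0
    exact one_ne_zero h0
  have hj : 1 ≤ j := by
    by_contra hcon
    have : j = 0 := by omega
    subst this
    rw [pcMi_zero_left z (by omega), pcD_low hz (by omega)] at h0
    exact one_ne_zero h0
  apply boundB n hn B 1 (pcRot n j E) u z
  · rintro x ⟨a, b, rfl⟩
    rw [Matrix.one_apply]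
    split_ifs
    · exact one_mem (acl K B)
    · exact zero_mem (acl K B)
  · rw [Matrix.det_one]
    exact one_ne_zero
  · exact pcRot_ent n j B
  · exact pcRot_det n j
  · exact hu
  · exact hz
  · intro k hk1 hk2
    rw [mul_one]
    exact he k hk1 hk2
  · exact ⟨k, hk, by omega, by rw [pcRot_D hk hjk]; exact h0⟩

theorem pair_chart {K E : Type*} [Field K] [Field E] [Algebra K E] {r : ℕ} (hr : 3 ≤ r)
    (B : Set E) (u z : Mat r E) (hu : UpU u) (hz : LowU z)
    (he : ∀ k, 1 ≤ k → k < r → D k (u * z) ∈ acl K B ∧ D k (u * z) ≠ 0) :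
    (∃ (t t' : ℕ → ℕ → Eˣ) (n v : Mat r E) (d : Fin r → Eˣ), UpU n ∧ UpU v ∧
      z = Z r (fun j k => (t j k : E)) ∧ z = n * Jm E r * diagonal (fun k => (d k : E)) * v ∧
      u * n = (Z r (fun j k => (t' j k : E)))ᵀ) ∨
    Bd K B (ent u ∪ ent z) ((r - 1) ^ 2 - 1) := by
  obtain ⟨m, rfl⟩ : ∃ m, r = m + 1 := ⟨r - 1, by omega⟩
  have hm : 2 ≤ m := by omega
  have hm' : m + 1 - 1 = m := rfl
  rw [hm']
  by_cases hz1 : ∃ j k, j + k ≤ m + 1 ∧ Mi j k z = 0
  · right
    exact pc_bad hm B u z hu hz (fun k h1 h2 => he k h1 (by omega)) hz1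
  have hz2 : ∀ j k, j + k ≤ m + 1 → Mi j k z ≠ 0 := fun j k hjk h0 => hz1 ⟨j, k, hjk, h0⟩
  obtain ⟨t, ht⟩ := exists_Z z hz hz2
  -- `D k (J z) ≠ 0`
  have hJz : ∀ k ≤ m + 1, D k (Jm E (m + 1) * z) ≠ 0 := by
    intro k hk h0
    rw [ht, D_Jm_Z hk] at h0
    have h1 := det_Jm_sq (R := E) k
    rcases mul_eq_zero.1 h0 with h2 | h2
    · rw [h2, zero_mul] at h1
      exact zero_ne_one h1
    · have h3 : mu (m + 1) k (fun j k => ((t j k : Eˣ) : E)) = ((mu (m + 1) k t : Eˣ) : E) := by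
        unfold mu
        rw [Units.coe_prod]
        apply Finset.prod_congr rfl
        intro a _
        rw [Units.coe_prod]
      rw [h3] at h2
      exact Units.ne_zero _ h2
  obtain ⟨l, v, d, hl, hv, hlu⟩ := exists_lu (Jm E (m + 1) * z)
    (fun k hk => isUnit_iff_ne_zero.2 (hJz k hk))
  set n : Mat (m + 1) E := Jm E (m + 1) * l * Jm E (m + 1) with hn
  have hnU : UpU n := hl.conj_Jm
  have hzn : z = n * Jm E (m + 1) * diagonal (fun k => (d k : E)) * v := pc_split hlu
  set w : Mat (m + 1) E := (u * n)ᵀ with hw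
  have hwL : LowU w := (hu.mul hnU).transpose
  -- `D k (u z) = D k (J w) D k (J z)`
  have hDuz : ∀ k ≤ m + 1, D k (u * z) = D k (Jm E (m + 1) * w) * D k (Jm E (m + 1) * z) := by
    intro k hk
    have h1 : u * z = (u * n) * Jm E (m + 1) * diagonal (fun k => (d k : E)) * v := by
      conv_lhs => rw [hzn]
      simp only [mul_assoc]
    rw [h1]
    exact pc_D_mul hl hv hlu hk
  by_cases hw1 : ∃ j k, j + k ≤ m + 1 ∧ Mi j k w = 0
  swap
  · left
    have hw2 : ∀ j k, j + k ≤ m + 1 → Mi j k w ≠ 0 := fun j k hjk h0 => hw1 ⟨j, k, hjk, h0⟩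
    obtain ⟨t', ht'⟩ := exists_Z w hwL hw2
    refine ⟨t, t', n, v, d, hnU, hv, ht, hzn, ?_⟩
    rw [← ht', hw, Matrix.transpose_transpose]
  right
  -- `D k (J w) ≠ 0`
  have hJw : ∀ k ≤ m + 1, D k (Jm E (m + 1) * w) ≠ 0 := by
    intro k hk
    rcases Nat.eq_zero_or_pos k with h0 | h0
    · subst h0
      rw [D_zero]
      exact one_ne_zero
    rcases hk.eq_or_lt with h1 | h1
    · subst h1
      rw [D_self, Matrix.det_mul, hwL.det, mul_one]
      intro h2
      have h3 := det_Jm_sq (R := E) (m + 1)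
      rw [h2, zero_mul] at h3
      exact zero_ne_one h3
    · intro h2
      have h3 := (he k h0 h1).2
      rw [hDuz k hk, h2, zero_mul] at h3
      exact h3 rfl
  obtain ⟨l', v', d', hl', hv', hlu'⟩ := exists_lu (Jm E (m + 1) * w)
    (fun k hk => isUnit_iff_ne_zero.2 (hJw k hk))
  set n' : Mat (m + 1) E := Jm E (m + 1) * l' * Jm E (m + 1) with hn'
  have hnU' : UpU n' := hl'.conj_Jm
  have hwn : w = n' * Jm E (m + 1) * diagonal (fun k => (d' k : E)) * v' := pc_split hlu'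
  obtain ⟨hnn1, hnn2⟩ := pc_adj hnU'.det
  obtain ⟨hn1, hn2⟩ := pc_adj hnU.det
  set u' : Mat (m + 1) E := zᵀ * n'.adjugate with hu'
  have huU' : UpU u' := hz.transpose.mul hnU'.adjugate
  have hDuw : ∀ k ≤ m + 1, D k (u' * w) = D k (u * z) := by
    intro k hk
    have h1 : u' * w = zᵀ * Jm E (m + 1) * diagonal (fun k => (d' k : E)) * v' := by
      conv_lhs => rw [hwn]
      calc u' * (n' * Jm E (m + 1) * diagonal (fun k => (d' k : E)) * v')
          = zᵀ * (n'.adjugate * n') * Jm E (m + 1) * diagonal (fun k => (d' k : E)) * v' := by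
            rw [hu']
            simp only [mul_assoc]
        _ = _ := by rw [hnn2, mul_one]
    rw [h1, hDuz k hk, pc_D_mul hl' hv' hlu' hk, Matrix.transpose_transpose, mul_comm]
  have hbd := pc_bad hm B u' w huU' hwL (fun k h1 h2 => by
    rw [hDuw k (by omega)]
    exact he k h1 (by omega)) hw1
  refine hbd.mono (subset_acl B) ?_ le_rfl
  -- `u`, `z` are algebraic over `u'`, `w`
  set L : IntermediateField K E := acl K (B ∪ (ent u' ∪ ent w)) with hL
  have hsub : ent u' ∪ ent w ⊆ (L : Set E) :=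
    Set.subset_union_right.trans (subset_acl _)
  have hLu' : PcIn L u' := pcIn_iff.2 fun i j => hsub (Or.inl ⟨i, j, rfl⟩)
  have hLw : PcIn L w := pcIn_iff.2 fun i j => hsub (Or.inr ⟨i, j, rfl⟩)
  have hLl' : PcIn L l' := pcIn_lu ((pcIn_Jm L).mul hLw) hJw hl' hv' hlu'
  have hLn' : PcIn L n' := ((pcIn_Jm L).mul hLl').mul (pcIn_Jm L)
  have hLz : PcIn L z := by
    have h1 : z = (u' * n')ᵀ := by
      rw [hu', mul_assoc, hnn2, mul_one, Matrix.transpose_transpose]
    rw [h1]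
    exact (hLu'.mul hLn').transpose
  have hLl : PcIn L l := pcIn_lu ((pcIn_Jm L).mul hLz) hJz hl hv hlu
  have hLn : PcIn L n := ((pcIn_Jm L).mul hLl).mul (pcIn_Jm L)
  have hLu : PcIn L u := by
    have h1 : u = wᵀ * n.adjugate := by
      rw [hw, Matrix.transpose_transpose, mul_assoc, hn1, mul_one]
    rw [h1]
    exact hLw.transpose.mul hLn.adjugate
  apply Set.union_subset
  · rintro x ⟨i, j, rfl⟩
    exact pcIn_iff.1 hLu i j
  · rintro x ⟨i, j, rfl⟩
    exact pcIn_iff.1 hLz i j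

end Pool.Agent.MP_3f0e22_ag
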