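import Pool.Agent.MP_3f0e22_ag.Gen1
import Pool.Agent.MP_3f0e22_ag.Pc

/-! # GEN2: generic points are in the chart -/

set_option autoImplicit false

open Matrix MvPolynomial

namespace Pool.Agent.MP_3f0e22_ag

namespace Gen2

section

variable {K E : Type*} [Field K] [Field E] [Algebra K E] {r : ℕ}

/-- the entries of `M` lie in the intermediate field `F` -/
def In (F : IntermediateField K E) (M : Mat r E) : Prop := ∀ i j, M i j ∈ F

theorem In.lift {F : IntermediateField K E} {M : Mat r E} (h : In F M) :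
    ∃ M' : Mat r F, M'.map (algebraMap F E) = M :=
  ⟨fun i j => ⟨M i j, h i j⟩, by ext i j; rfl⟩

theorem In.of_map {F : IntermediateField K E} (M' : Mat r F) : In F (M'.map (algebraMap F E)) :=
  fun i j => (M' i j).2

theorem In.mul {F : IntermediateField K E} {M N : Mat r E} (hM : In F M) (hN : In F N) :
    In F (M * N) := by
  intro i j
  rw [Matrix.mul_apply]
  exact sum_mem fun k _ => mul_mem (hM i k) (hN k j)

theorem In.one {F : IntermediateField K E} : In F (1 : Mat r E) := by
  intro i j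
  rw [Matrix.one_apply]
  split_ifs
  · exact one_mem F
  · exact zero_mem F

theorem In.adjugate {F : IntermediateField K E} {M : Mat r E} (hM : In F M) :
    In F M.adjugate := by
  obtain ⟨M', rfl⟩ := hM.lift
  have h := RingHom.map_adjugate (algebraMap F E) M'
  rw [RingHom.mapMatrix_apply, RingHom.mapMatrix_apply] at h
  rw [← h]
  exact In.of_map _

theorem In.D_mem {F : IntermediateField K E} {M : Mat r E} (hM : In F M) (k : ℕ) :
    Pool.Agent.MP_3f0e22_ag.D k M ∈ F := by
  obtain ⟨M', rfl⟩ := hM.lift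
  rw [D_map]
  exact (Pool.Agent.MP_3f0e22_ag.D k M').2

theorem D_low {R : Type*} [CommRing R] {l : Mat r R} (hl : LowU l) {k : ℕ} (hk : k ≤ r) :
    Pool.Agent.MP_3f0e22_ag.D k l = 1 := by
  rw [← mul_one l, D_low_mul hl, D_one k hk]

theorem D_up {R : Type*} [CommRing R] {v : Mat r R} (hv : UpU v) {k : ℕ} (hk : k ≤ r) :
    Pool.Agent.MP_3f0e22_ag.D k v = 1 := by
  rw [← one_mul v, D_mul_up hv, D_one k hk]

theorem D_lu {R : Type*} [CommRing R] {l v : Mat r R} (hl : LowU l) (hv : UpU v) (d : Fin r → R)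
    {k : ℕ} (hk : k ≤ r) :
    Pool.Agent.MP_3f0e22_ag.D k (l * diagonal d * v) = ∏ i : Fin k, d (i.castLE hk) := by
  rw [D_mul_up hv, D_mul_diag d hk, D_low hl hk, one_mul]

/-- the factors of an LU decomposition lie in the field of the matrix -/
theorem lu_mem {F : IntermediateField K E} {M l v : Mat r E} {d : Fin r → Eˣ} (hM : In F M)
    (hl : LowU l) (hv : UpU v) (h : M = l * diagonal (fun k => (d k : E)) * v) : In F l := by
  obtain ⟨M', hM'⟩ := hM.lift
  have hD : ∀ k ≤ r, IsUnit (Pool.Agent.MP_3f0e22_ag.D k M') := by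
    intro k hk
    rw [isUnit_iff_ne_zero]
    intro h0
    have h1 : Pool.Agent.MP_3f0e22_ag.D k M = 0 := by
      rw [← hM', D_map, h0, map_zero]
    rw [h, D_lu hl hv _ hk] at h1
    exact (Finset.prod_ne_zero_iff.2 fun i _ => (d (i.castLE hk)).ne_zero) h1
  obtain ⟨l', v', d', hl', hv', h'⟩ := exists_lu M' hD
  have h2 : M = l'.map (algebraMap F E) *
      diagonal (fun k => ((Units.map (algebraMap F E : F →* E) (d' k) : Eˣ) : E)) *
      v'.map (algebraMap F E) := by
    rw [← hM', h', Matrix.map_mul, Matrix.map_mul]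
    congr 2
    rw [Matrix.diagonal_map (map_zero _)]
    rfl
  rw [h] at h2
  obtain ⟨h3, -, -⟩ := lu_unique hl (hl'.map _) hv (hv'.map _) h2
  rw [h3]
  exact In.of_map _

theorem LowU.mul_adj {l : Mat r E} (hl : LowU l) : l * l.adjugate = 1 := by
  rw [Matrix.mul_adjugate, hl.det, one_smul]

theorem UpU.mul_adj {l : Mat r E} (hl : UpU l) : l * l.adjugate = 1 := by
  rw [Matrix.mul_adjugate, hl.det, one_smul]

/-- counting the entries of unitriangular pairs -/
theorem bd_pairs (s i : ℕ) (hi : i < s) (u z : ℕ → Mat r E) (hu : ∀ j < s, UpU (u j))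
    (hz : ∀ j < s, LowU (z j)) :
    Bd K ∅ {x | ∃ j < s, j ≠ i ∧ (x ∈ ent (u j) ∨ x ∈ ent (z j))} ((s - 1) * (r * r - r)) := by
  classical
  let T : Finset E := (((Finset.range s).erase i) ×ˢ (Finset.univ : Finset (Fin r)).offDiag).image
    (fun p => if p.2.1 < p.2.2 then u p.1 p.2.1 p.2.2 else z p.1 p.2.1 p.2.2)
  have hT1 : ∀ j < s, j ≠ i → ∀ a b : Fin r, a < b → u j a b ∈ T := by
    intro j hj hji a b hab
    refine Finset.mem_image.2 ⟨(j, (a, b)), ?_, ?_⟩
    · simp [hj, hji, hab.ne]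
    · simp [hab]
  have hT2 : ∀ j < s, j ≠ i → ∀ a b : Fin r, b < a → z j a b ∈ T := by
    intro j hj hji a b hab
    refine Finset.mem_image.2 ⟨(j, (a, b)), ?_, ?_⟩
    · simp [hj, hji, hab.ne']
    · simp [hab.le]
  refine ⟨T, ?_, ?_⟩
  · refine Finset.card_image_le.trans ?_
    rw [Finset.card_product, Finset.offDiag_card, Finset.card_erase_of_mem (Finset.mem_range.2 hi),
      Finset.card_range, Finset.card_univ, Fintype.card_fin]
  · rintro x ⟨j, hj, hji, hx⟩
    rcases hx with ⟨a, b, rfl⟩ | ⟨a, b, rfl⟩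
    · rcases lt_trichotomy a b with hab | hab | hab
      · exact subset_acl _ (Or.inr (hT1 j hj hji a b hab))
      · rw [hab, (hu j hj).1]; exact one_mem _
      · rw [(hu j hj).2 a b hab]; exact zero_mem _
    · rcases lt_trichotomy a b with hab | hab | hab
      · rw [(hz j hj).2 a b hab]; exact zero_mem _
      · rw [hab, (hz j hj).1]; exact one_mem _
      · exact subset_acl _ (Or.inr (hT2 j hj hji a b hab))

theorem gen (hr : 3 ≤ r) {s : ℕ} (hs : 1 ≤ s) (δ : Fin r → K) (hδ : ∀ k, δ k ≠ 0)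
    (u y : ℕ → Mat r E) (h : InZ s (fun k => algebraMap K E (δ k)) u y) :
    (∃ t, Chart s t u y) ∨ Bd K ∅ (ents s u y) (s * (r * (r - 1)) - r) := by
  classical
  by_cases hbad : ∃ i ≤ s, ∃ k ≤ r, Pool.Agent.MP_3f0e22_ag.D k (Q u y i) = 0
  · exact Or.inr (bad_minor hr hs δ hδ u y h hbad)
  push Not at hbad
  -- LU decompositions of the `Q i`
  have hLU : ∀ i, ∃ (l v : Mat r E) (A : Fin r → Eˣ), i ≤ s → LowU l ∧ UpU v ∧
      Q u y i = l * diagonal (fun k => (A k : E)) * v := by
    intro i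
    by_cases hi : i ≤ s
    · obtain ⟨l, v, A, h1, h2, h3⟩ := exists_lu (Q u y i)
        (fun k hk => isUnit_iff_ne_zero.2 (hbad i hi k hk))
      exact ⟨l, v, A, fun _ => ⟨h1, h2, h3⟩⟩
    · exact ⟨1, 1, fun _ => 1, fun h' => absurd h' hi⟩
  choose l v A hlvA using hLU
  have hl : ∀ i ≤ s, LowU (l i) := fun i hi => (hlvA i hi).1
  have hv : ∀ i ≤ s, UpU (v i) := fun i hi => (hlvA i hi).2.1
  have hQ : ∀ i ≤ s, Q u y i = l i * diagonal (fun k => (A i k : E)) * v i :=
    fun i hi => (hlvA i hi).2.2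
  -- `l 0 = 1`
  have hl0 : l 0 = 1 := by
    have h1 : l 0 * diagonal (fun k => (A 0 k : E)) * v 0 =
        1 * diagonal (fun k : Fin r => ((1 : Eˣ) : E)) * 1 := by
      rw [← hQ 0 (Nat.zero_le _)]
      simp [Q]
    exact (lu_unique (hl 0 (Nat.zero_le _)) LowU.one (hv 0 (Nat.zero_le _)) UpU.one h1).1
  -- the matrix `y s * Q s`
  have hδE : ∀ k, algebraMap K E (δ k) ≠ 0 := fun k => by
    rw [Ne, map_eq_zero]; exact hδ k
  obtain ⟨w, hw, hwQ⟩ : ∃ w : Mat r E, UpU w ∧
      y s * Q u y s = 1 * diagonal (fun k => ((Units.mk0 _ (hδE k) : Eˣ) : E)) * w := by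
    refine ⟨fun i j => (algebraMap K E (δ i))⁻¹ * (y s * Q u y s) i j, ⟨?_, ?_⟩, ?_⟩
    · intro i
      show (algebraMap K E (δ i))⁻¹ * (y s * Q u y s) i i = 1
      rw [h.diag i]
      exact inv_mul_cancel₀ (hδE i)
    · intro i j hij
      show (algebraMap K E (δ i))⁻¹ * (y s * Q u y s) i j = 0
      rw [h.zero i j hij, mul_zero]
    · ext i j
      rw [one_mul]
      refine Eq.trans ?_ (Matrix.diagonal_mul (fun k => ((Units.mk0 _ (hδE k) : Eˣ) : E))
        (Matrix.of fun i j => (algebraMap K E (δ i))⁻¹ * (y s * Q u y s) i j) i j).symm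
      show _ = (algebraMap K E (δ i)) * ((algebraMap K E (δ i))⁻¹ * (y s * Q u y s) i j)
      rw [mul_inv_cancel_left₀ (hδE i)]
  have hysl : y s * l s = 1 := by
    have h1 : (y s * l s) * diagonal (fun k => (A s k : E)) * v s =
        1 * diagonal (fun k => ((Units.mk0 _ (hδE k) : Eˣ) : E)) * w := by
      rw [← hwQ, hQ s le_rfl]
      simp only [Matrix.mul_assoc]
    exact (lu_unique ((h.low s le_rfl).mul (hl s le_rfl)) LowU.one (hv s le_rfl) hw h1).1
  -- the matrices `z i = y i * l i`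
  obtain ⟨z, hzdef⟩ : ∃ z : ℕ → Mat r E, ∀ i, z i = y i * l i := ⟨fun i => y i * l i, fun _ => rfl⟩
  have hz : ∀ i < s, LowU (z i) := fun i hi => by
    rw [hzdef]; exact (h.low i hi.le).mul (hl i hi.le)
  have hu : ∀ i < s, UpU (u i) := h.up
  have hstep : ∀ i < s, u i * z i * diagonal (fun k => (A i k : E)) * v i = Q u y (i + 1) := by
    intro i hi
    show _ = u i * y i * Q u y i
    rw [hQ i hi.le, hzdef]
    simp only [Matrix.mul_assoc]
  -- `u i * z i = l (i+1) * a i * b i`
  have hab : ∀ i, ∃ (a : Fin r → Eˣ) (b : Mat r E), i < s → UpU b ∧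
      u i * z i = l (i + 1) * diagonal (fun k => (a k : E)) * b := by
    intro i
    by_cases hi : i < s
    · have hv' := hv i hi.le
      have hv'' := hv (i + 1) hi
      have hvv : v i * (v i).adjugate = 1 := UpU.mul_adj hv'
      refine ⟨fun k => A (i + 1) k * (A i k)⁻¹,
        diagonal (fun k => (A i k : E)) * (v (i + 1) * (v i).adjugate) *
          diagonal (fun k => (((A i k)⁻¹ : Eˣ) : E)), fun _ => ⟨?_, ?_⟩⟩
      · have hU := hv''.mul hv'.adjugate
        refine ⟨fun k => ?_, fun a b hab => ?_⟩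
        · rw [Matrix.mul_diagonal, Matrix.diagonal_mul, hU.1 k, mul_one, Units.mul_inv]
        · rw [Matrix.mul_diagonal, Matrix.diagonal_mul, hU.2 a b hab, mul_zero, zero_mul]
      · have h1 := hstep i hi
        rw [hQ (i + 1) hi] at h1
        have h2 : u i * z i * diagonal (fun k => (A i k : E)) =
            l (i + 1) * diagonal (fun k => (A (i + 1) k : E)) * (v (i + 1) * (v i).adjugate) := by
          calc u i * z i * diagonal (fun k => (A i k : E))
              = u i * z i * diagonal (fun k => (A i k : E)) * (v i * (v i).adjugate) := by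
                rw [hvv, mul_one]
            _ = (u i * z i * diagonal (fun k => (A i k : E)) * v i) * (v i).adjugate := by
                simp only [Matrix.mul_assoc]
            _ = _ := by rw [h1]; simp only [Matrix.mul_assoc]
        have h3 : diagonal (fun k => (A i k : E)) * diagonal (fun k => (((A i k)⁻¹ : Eˣ) : E)) =
            (1 : Mat r E) := by
          rw [Matrix.diagonal_mul_diagonal]
          simp
        have h4 : (diagonal (fun k => ((A (i + 1) k * (A i k)⁻¹ : Eˣ) : E)) : Mat r E) *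
            diagonal (fun k => (A i k : E)) = diagonal (fun k => (A (i + 1) k : E)) := by
          rw [Matrix.diagonal_mul_diagonal]
          simp
        calc u i * z i = u i * z i * (diagonal (fun k => (A i k : E)) *
              diagonal (fun k => (((A i k)⁻¹ : Eˣ) : E))) := by rw [h3, mul_one]
          _ = (u i * z i * diagonal (fun k => (A i k : E))) *
              diagonal (fun k => (((A i k)⁻¹ : Eˣ) : E)) := by simp only [Matrix.mul_assoc]
          _ = l (i + 1) * diagonal (fun k => (A (i + 1) k : E)) * (v (i + 1) * (v i).adjugate) *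
              diagonal (fun k => (((A i k)⁻¹ : Eˣ) : E)) := by rw [h2]
          _ = _ := by
              rw [← h4]
              simp only [Matrix.mul_assoc]
    · exact ⟨fun _ => 1, 1, fun h' => absurd h' hi⟩
  choose a b hab using hab
  -- minors
  have hDstep : ∀ i < s, ∀ k ≤ r, Pool.Agent.MP_3f0e22_ag.D k (Q u y (i + 1)) =
      Pool.Agent.MP_3f0e22_ag.D k (Q u y i) * Pool.Agent.MP_3f0e22_ag.D k (u i * z i) := by
    intro i hi k hk
    rw [← hstep i hi, D_mul_up (hv i hi.le), D_mul_diag _ hk, hQ i hi.le,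
      D_lu (hl i hi.le) (hv i hi.le) _ hk, mul_comm]
  have hDprod : ∀ k ≤ r, ∀ j ≤ s, Pool.Agent.MP_3f0e22_ag.D k (Q u y j) =
      ∏ i ∈ Finset.range j, Pool.Agent.MP_3f0e22_ag.D k (u i * z i) := by
    intro k hk j
    induction j with
    | zero =>
      intro _
      rw [Finset.range_zero, Finset.prod_empty]
      exact D_one k hk
    | succ j ih =>
      intro hj
      rw [hDstep j hj k hk, ih (by omega), Finset.prod_range_succ]
  have hDne : ∀ i < s, ∀ k ≤ r, Pool.Agent.MP_3f0e22_ag.D k (u i * z i) ≠ 0 := by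
    intro i hi k hk h0
    have h1 := hDstep i hi k hk
    rw [h0, mul_zero] at h1
    exact hbad (i + 1) hi k hk h1
  have hDs : ∀ k, ∀ hk : k ≤ r, Pool.Agent.MP_3f0e22_ag.D k (Q u y s) =
      algebraMap K E (∏ i : Fin k, δ (i.castLE hk)) := by
    intro k hk
    rw [← D_low_mul (h.low s le_rfl) k (Q u y s), hwQ, D_lu LowU.one hw _ hk, map_prod]
    rfl
  -- the pairs
  let B : ℕ → Set E := fun i => {x | ∃ j < s, j ≠ i ∧ (x ∈ ent (u j) ∨ x ∈ ent (z j))}
  have hBmem : ∀ i < s, ∀ k ≤ r, Pool.Agent.MP_3f0e22_ag.D k (u i * z i) ∈ acl K (B i) := by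
    intro i hi k hk
    have h1 := hDprod k hk s le_rfl
    rw [hDs k hk, ← Finset.mul_prod_erase _ _ (Finset.mem_range.2 hi)] at h1
    have h2 : ∏ j ∈ (Finset.range s).erase i, Pool.Agent.MP_3f0e22_ag.D k (u j * z j) ≠ 0 := by
      refine Finset.prod_ne_zero_iff.2 fun j hj => ?_
      rw [Finset.mem_erase, Finset.mem_range] at hj
      exact hDne j hj.2 k hk
    have h3 : Pool.Agent.MP_3f0e22_ag.D k (u i * z i) =
        algebraMap K E (∏ i : Fin k, δ (i.castLE hk)) *
          (∏ j ∈ (Finset.range s).erase i, Pool.Agent.MP_3f0e22_ag.D k (u j * z j))⁻¹ := by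
      rw [h1, mul_inv_cancel_right₀ h2]
    rw [h3]
    refine mul_mem ((acl K (B i)).algebraMap_mem _) (inv_mem (prod_mem fun j hj => ?_))
    rw [Finset.mem_erase, Finset.mem_range] at hj
    refine In.D_mem (In.mul ?_ ?_) k
    · exact fun a b => subset_acl _ ⟨j, hj.2, hj.1, Or.inl ⟨a, b, rfl⟩⟩
    · exact fun a b => subset_acl _ ⟨j, hj.2, hj.1, Or.inr ⟨a, b, rfl⟩⟩
  -- apply `pair_chart` to each pair
  by_cases hall : ∀ i < s, ∃ (t t' : ℕ → ℕ → Eˣ) (n v : Mat r E) (d : Fin r → Eˣ), UpU n ∧ UpU v ∧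
      z i = Z r (fun j k => (t j k : E)) ∧ z i = n * Jm E r * diagonal (fun k => (d k : E)) * v ∧
      u i * n = (Z r (fun j k => (t' j k : E)))ᵀ
  · left
    have hall' : ∀ i, ∃ (t t' : ℕ → ℕ → Eˣ) (n v : Mat r E) (d : Fin r → Eˣ), i < s → UpU n ∧ UpU v ∧
      z i = Z r (fun j k => (t j k : E)) ∧ z i = n * Jm E r * diagonal (fun k => (d k : E)) * v ∧
      u i * n = (Z r (fun j k => (t' j k : E)))ᵀ := by
      intro i
      by_cases hi : i < s
      · obtain ⟨t, t', n, v, d, h⟩ := hall i hi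
        exact ⟨t, t', n, v, d, fun _ => h⟩
      · exact ⟨fun _ _ => 1, fun _ _ => 1, 1, 1, fun _ => 1, fun h' => absurd h' hi⟩
    choose t t' n v' d hh using hall'
    refine ⟨fun i c => if c then t' i else t i, n, v', l, b, d, a, hl0, h.low s le_rfl, hysl, ?_⟩
    intro i hi
    obtain ⟨h1, h2, h3, h4, h5⟩ := hh i hi
    obtain ⟨h6, h7⟩ := hab i hi
    simp only [if_true, Bool.false_eq_true, if_false]
    refine ⟨h1, h2, h6, hu i hi, h.low i hi.le, hl (i + 1) hi, ?_, h5, ?_, ?_⟩
    · rw [← h3]; exact h4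
    · rw [← h3]; exact h7
    · rw [← h3, hzdef]
  · right
    push Not at hall
    obtain ⟨i, hi, hno⟩ := hall
    have hpc := pair_chart hr (B i) (u i) (z i) (hu i hi) (hz i hi)
      (fun k _ hk => ⟨hBmem i hi k hk.le, hDne i hi k hk.le⟩)
    rcases hpc with ⟨t, t', n, v, d, h1, h2, h3, h4, h5⟩ | hpc
    · exact absurd h5 (hno t t' n v d h1 h2 h3 h4)
    have hb := bd_pairs (K := K) s i hi u z hu hz
    have hpc' : Bd K (∅ ∪ B i) (ent (u i) ∪ ent (z i)) ((r - 1) ^ 2 - 1) :=
      hpc.mono (Set.subset_union_right.trans (subset_acl _))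
        (Set.subset_union_right.trans (subset_acl _)) le_rfl
    refine (hb.trans hpc').mono (Set.empty_subset _) ?_ ?_
    · -- everything is generated by the pairs
      set F : IntermediateField K E := acl K (∅ ∪ (B i ∪ (ent (u i) ∪ ent (z i)))) with hF
      have hsub : ∅ ∪ (B i ∪ (ent (u i) ∪ ent (z i))) ⊆ (F : Set E) := subset_acl _
      have hFu : ∀ j < s, In F (u j) := by
        intro j hj a b
        by_cases hji : j = i
        · subst hji
          exact hsub (Or.inr (Or.inr (Or.inl ⟨a, b, rfl⟩)))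
        · exact hsub (Or.inr (Or.inl ⟨j, hj, hji, Or.inl ⟨a, b, rfl⟩⟩))
      have hFz : ∀ j < s, In F (z j) := by
        intro j hj a b
        by_cases hji : j = i
        · subst hji
          exact hsub (Or.inr (Or.inr (Or.inr ⟨a, b, rfl⟩)))
        · exact hsub (Or.inr (Or.inl ⟨j, hj, hji, Or.inr ⟨a, b, rfl⟩⟩))
      have hFl : ∀ j ≤ s, In F (l j) := by
        intro j
        cases j with
        | zero => intro _; rw [hl0]; exact In.one
        | succ j =>
          intro hj
          exact lu_mem ((hFu j hj).mul (hFz j hj)) (hl (j + 1) hj) (hab j hj).1 (hab j hj).2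
      have hFy : ∀ j ≤ s, In F (y j) := by
        intro j hj
        have h1 : y j = y j * l j * (l j).adjugate := by
          rw [Matrix.mul_assoc, LowU.mul_adj (hl j hj), mul_one]
        rw [h1]
        refine In.mul ?_ (hFl j hj).adjugate
        rcases hj.lt_or_eq with hj' | hj'
        · rw [← hzdef]; exact hFz j hj'
        · subst hj'
          rw [hysl]; exact In.one
      rintro x (⟨j, hj, a, b, rfl⟩ | ⟨j, hj, a, b, rfl⟩)
      · exact hFy j hj a b
      · exact hFu j hj a b
    · -- the count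
      obtain ⟨r', rfl⟩ : ∃ r', r = r' + 3 := ⟨r - 3, by omega⟩
      obtain ⟨s', rfl⟩ : ∃ s', s = s' + 1 := ⟨s - 1, by omega⟩
      have e1 : (r' + 3) * (r' + 3) - (r' + 3) = (r' + 3) * (r' + 2) := by
        have : (r' + 3) * (r' + 3) = (r' + 3) * (r' + 2) + (r' + 3) := by ring
        omega
      have e2 : (r' + 3 - 1) ^ 2 - 1 = (r' + 3) * (r' + 1) := by
        have : (r' + 3 - 1) ^ 2 = (r' + 3) * (r' + 1) + 1 := by
          rw [show r' + 3 - 1 = r' + 2 by omega]; ring
        omega
      have e3 : (s' + 1) * ((r' + 3) * (r' + 3 - 1)) - (r' + 3) =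
          s' * ((r' + 3) * (r' + 2)) + (r' + 3) * (r' + 1) := by
        have : (s' + 1) * ((r' + 3) * (r' + 3 - 1)) =
            s' * ((r' + 3) * (r' + 2)) + (r' + 3) * (r' + 1) + (r' + 3) := by
          rw [show r' + 3 - 1 = r' + 2 by omega]; ring
        omega
      rw [e1, e2, e3, Nat.add_sub_cancel]

end

end Gen2

alias gen := Gen2.gen

end Pool.Agent.MP_3f0e22_ag
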