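import Pool.Agent.MP_3f0e22_ag.Gp
import Pool.Agent.MP_3f0e22_ag.Ch
import Pool.Agent.MP_3f0e22_ag.Gen2

/-!
# MP_3f0e22_ag: block YD: density in `𝒵_δ`
-/

set_option autoImplicit false

open Matrix MvPolynomial

namespace Pool.Agent.MP_3f0e22_ag.Yd

/-! ### The Laurent ring -/

section Laurent

variable {Ω : Type} [Field Ω]

/-- The indices of the parameters. -/
abbrev Idx := ℕ × Bool × ℕ × ℕ

/-- The ring of Laurent polynomials in the parameters. -/
abbrev Lau (Ω : Type) [Field Ω] := AddMonoidAlgebra Ω (Idx →₀ ℤ)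

/-- The monomial map. -/
def monHom {M : Type*} [CommGroup M] (τ : Idx → M) : Multiplicative (Idx →₀ ℤ) →* M where
  toFun w := (Multiplicative.toAdd w).prod fun i n => τ i ^ n
  map_one' := by simp
  map_mul' a b := by
    rw [toAdd_mul]
    exact Finsupp.prod_add_index' (fun i => zpow_zero _) (fun i m n => zpow_add _ _ _)

theorem monHom_single {M : Type*} [CommGroup M] (τ : Idx → M) (i : Idx) (n : ℤ) :
    monHom τ (Multiplicative.ofAdd (Finsupp.single i n)) = τ i ^ n := by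
  change (Finsupp.single i n).prod (fun i n => τ i ^ n) = _
  rw [Finsupp.prod_single_index (zpow_zero _)]

/-- The evaluation. -/
noncomputable def ev {A : Type*} [CommRing A] [Algebra Ω A] (τ : Idx → Aˣ) : Lau Ω →ₐ[Ω] A :=
  AddMonoidAlgebra.lift Ω A (Idx →₀ ℤ) ((Units.coeHom A).comp (monHom τ))

theorem ev_apply {A : Type*} [CommRing A] [Algebra Ω A] (τ : Idx → Aˣ) (G : Lau Ω) :
    ev τ G = G.coeff.sum fun w a => a • ((monHom τ (Multiplicative.ofAdd w) : Aˣ) : A) := by
  rw [ev, AddMonoidAlgebra.lift_apply]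
  rfl

/-- The universal parameters. -/
noncomputable def tu (i : ℕ) (b : Bool) (j k : ℕ) : (Lau Ω)ˣ where
  val := AddMonoidAlgebra.single (Finsupp.single (i, b, j, k) 1) 1
  inv := AddMonoidAlgebra.single (Finsupp.single (i, b, j, k) (-1)) 1
  val_inv := by
    rw [AddMonoidAlgebra.single_mul_single, ← Finsupp.single_add, AddMonoidAlgebra.one_def]
    simp
  inv_val := by
    rw [AddMonoidAlgebra.single_mul_single, ← Finsupp.single_add, AddMonoidAlgebra.one_def]
    simp

theorem ev_tu {A : Type*} [CommRing A] [Algebra Ω A] (τ : Idx → Aˣ) (i : ℕ) (b : Bool) (j k : ℕ) :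
    Units.map ((ev (Ω := Ω) τ : Lau Ω →+* A) : Lau Ω →* A) (tu i b j k) = τ (i, b, j, k) := by
  ext
  change ev τ (AddMonoidAlgebra.single (Finsupp.single (i, b, j, k) 1) 1) = _
  rw [ev, AddMonoidAlgebra.lift_single, one_smul]
  change ((monHom τ (Multiplicative.ofAdd (Finsupp.single (i, b, j, k) 1)) : Aˣ) : A) = _
  rw [monHom_single, zpow_one]

/-- A Laurent polynomial which vanishes on the points with coordinates in a subgroup containing an
element of infinite order is zero. -/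
theorem eq_zero_of_ev (U : Subgroup Ωˣ) (v : Ωˣ) (hv : v ∈ U) (hv' : ∀ n : ℤ, v ^ n = 1 → n = 0)
    (G : Lau Ω) (h : ∀ τ : Idx → Ωˣ, (∀ i, τ i ∈ U) → ev τ G = 0) : G = 0 := by
  classical
  let χ : (Idx →₀ ℤ) → ((Idx → U) →* Ω) := fun w =>
    { toFun := fun τ => ((monHom (fun i => (τ i : Ωˣ)) (Multiplicative.ofAdd w) : Ωˣ) : Ω)
      map_one' := by
        change ((w.prod fun i n => (((1 : Idx → U) i : U) : Ωˣ) ^ n : Ωˣ) : Ω) = 1
        simp
      map_mul' := fun a b => by
        change ((w.prod fun i n => (((a * b) i : U) : Ωˣ) ^ n : Ωˣ) : Ω) =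
          ((w.prod fun i n => ((a i : U) : Ωˣ) ^ n : Ωˣ) : Ω) *
            ((w.prod fun i n => ((b i : U) : Ωˣ) ^ n : Ωˣ) : Ω)
        rw [← Units.val_mul]
        congr 1
        rw [← Finsupp.prod_mul]
        refine Finsupp.prod_congr fun i _ => ?_
        rw [Pi.mul_apply, Subgroup.coe_mul, mul_zpow] }
  have hχ : Function.Injective χ := by
    intro w w' hww
    ext i
    have h1 := DFunLike.congr_fun hww (Function.update (1 : Idx → U) i ⟨v, hv⟩)
    have h2 : ∀ w : Idx →₀ ℤ, χ w (Function.update (1 : Idx → U) i ⟨v, hv⟩) =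
        ((v ^ (w i) : Ωˣ) : Ω) := by
      intro w
      change ((w.prod fun j n =>
        (((Function.update (1 : Idx → U) i ⟨v, hv⟩) j : U) : Ωˣ) ^ n : Ωˣ) : Ω) = _
      congr 1
      rw [Finsupp.prod, Finset.prod_eq_single i]
      · simp
      · intro j _ hj
        rw [Function.update_of_ne hj]
        simp
      · intro hi
        rw [Finsupp.notMem_support_iff.1 hi, zpow_zero]
    rw [h2, h2] at h1
    have h3 : v ^ (w i) = v ^ (w' i) := Units.ext h1
    have h4 : v ^ (w i - w' i) = 1 := by rw [_root_.zpow_sub, h3, mul_inv_cancel]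
    have := hv' _ h4
    omega
  have hli := (linearIndependent_monoidHom (Idx → U) Ω).comp χ hχ
  have hG : G.coeff = 0 := by
    refine linearIndependent_iff.1 hli G.coeff ?_
    ext τ
    rw [Finsupp.linearCombination_apply, Finsupp.sum_apply']
    have h1 := h (fun i => (τ i : Ωˣ)) (fun i => (τ i).2)
    rw [ev_apply] at h1
    exact h1
  exact AddMonoidAlgebra.coeff_injective (by simpa using hG)

end Laurent

/-! ### Solving the equations -/

section Solve

/-- The products of the parameters which give the minors. -/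
def Pk {M : Type*} [CommMonoid M] (r s k : ℕ) (t : ℕ → Bool → ℕ → ℕ → M) : M :=
  ∏ i ∈ Finset.range s, mu r k (t i false) * mu r k (t i true)

theorem mu_mul {M : Type*} [CommMonoid M] (r k : ℕ) (t t' : ℕ → ℕ → M) :
    mu r k (fun j k => t j k * t' j k) = mu r k t * mu r k t' := by
  simp only [mu, Finset.prod_mul_distrib]

theorem Pk_mul {M : Type*} [CommMonoid M] (r s k : ℕ) (t t' : ℕ → Bool → ℕ → ℕ → M) :
    Pk r s k (fun i b j k => t i b j k * t' i b j k) = Pk r s k t * Pk r s k t' := by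
  simp only [Pk, mu_mul]
  rw [← Finset.prod_mul_distrib]
  exact Finset.prod_congr rfl fun i _ => mul_mul_mul_comm _ _ _ _

theorem Pk_map {M N : Type*} [CommMonoid M] [CommMonoid N] (φ : M →* N) (r s k : ℕ)
    (t : ℕ → Bool → ℕ → ℕ → M) : φ (Pk r s k t) = Pk r s k (fun i b j k => φ (t i b j k)) := by
  simp only [Pk, mu, map_prod, map_mul]

theorem Pk_zero {M : Type*} [CommMonoid M] (r s : ℕ) (t : ℕ → Bool → ℕ → ℕ → M) :
    Pk r s 0 t = 1 := by
  simp [Pk, mu]

theorem Pk_mem {M : Type*} [CommGroup M] (U : Subgroup M) (r s k : ℕ)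
    (t : ℕ → Bool → ℕ → ℕ → M) (ht : ∀ i b j k, t i b j k ∈ U) : Pk r s k t ∈ U := by
  refine U.prod_mem fun i _ => U.mul_mem ?_ ?_ <;>
    exact U.prod_mem fun _ _ => U.prod_mem fun _ _ => ht _ _ _ _

/-- The correction factors. -/
def corr {M : Type*} [CommGroup M] (r s : ℕ) (e : ℕ → M) (t : ℕ → Bool → ℕ → ℕ → M) (k : ℕ) : M :=
  (e (k + 1) / Pk r s (k + 1) t) / (e k / Pk r s k t)

/-- The corrected parameters. -/
def solve {M : Type*} [CommGroup M] (r s : ℕ) (e : ℕ → M) (t : ℕ → Bool → ℕ → ℕ → M) :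
    ℕ → Bool → ℕ → ℕ → M := fun i b j k =>
  t i b j k * if i = 0 ∧ b = true ∧ j = r - 1 ∧ k + 1 < r then corr r s e t k else 1

theorem Pk_solve {M : Type*} [CommGroup M] {r s : ℕ} (hs : 1 ≤ s) (e : ℕ → M)
    (t : ℕ → Bool → ℕ → ℕ → M) (he : e 0 = 1) {k : ℕ} (hk : k < r) :
    Pk r s k (solve r s e t) = e k := by
  unfold solve
  rw [Pk_mul r s k t (fun i b j k =>
    if i = 0 ∧ b = true ∧ j = r - 1 ∧ k + 1 < r then corr r s e t k else 1)]
  have h1 : Pk r s k (fun i b j k =>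
      if i = 0 ∧ b = true ∧ j = r - 1 ∧ k + 1 < r then corr r s e t k else 1) =
      ∏ j ∈ Finset.range k, corr r s e t j := by
    rw [Pk, Finset.prod_eq_single 0]
    · have h2 : mu r k (fun j k => if 0 = 0 ∧ false = true ∧ j = r - 1 ∧ k + 1 < r then
          corr r s e t k else 1) = 1 := by
        simp [mu]
      have h3 : mu r k (fun j k => if 0 = 0 ∧ true = true ∧ j = r - 1 ∧ k + 1 < r then
          corr r s e t k else 1) = ∏ j ∈ Finset.range k, corr r s e t j := by
        rw [mu, Finset.prod_eq_single (r - 1)]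
        · refine Finset.prod_congr rfl fun j hj => ?_
          rw [Finset.mem_range] at hj
          rw [if_pos ⟨rfl, rfl, rfl, by omega⟩]
        · intro n _ hn
          refine Finset.prod_eq_one fun j _ => ?_
          rw [if_neg]
          rintro ⟨-, -, h, -⟩
          exact hn h
        · intro h
          exact absurd (Finset.mem_Ico.2 ⟨by omega, by omega⟩) h
      rw [h2, h3, one_mul]
    · intro i _ hi
      have : ∀ b : Bool, mu r k (fun j k => if i = 0 ∧ b = true ∧ j = r - 1 ∧ k + 1 < r then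
          corr r s e t k else 1) = 1 := by
        intro b
        rw [mu]
        refine Finset.prod_eq_one fun n _ => Finset.prod_eq_one fun j _ => ?_
        rw [if_neg]
        rintro ⟨h, -⟩
        exact hi h
      rw [this, this, one_mul]
    · intro h
      exact absurd (Finset.mem_range.2 (by omega)) h
  rw [h1]
  unfold corr
  rw [Finset.prod_range_div (fun k => e k / Pk r s k t), Pk_zero, he]
  simp

theorem solve_eq {M : Type*} [CommGroup M] {r s : ℕ} (e : ℕ → M)
    (t : ℕ → Bool → ℕ → ℕ → M) (h : ∀ k < r, Pk r s k t = e k) :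
    solve r s e t = t := by
  funext i b j k
  unfold solve
  split_ifs with hc
  · rw [corr, h _ hc.2.2.2, h k (by omega)]
    simp
  · rw [mul_one]

theorem solve_map {M N : Type*} [CommGroup M] [CommGroup N] (φ : M →* N) (r s : ℕ) (e : ℕ → M)
    (t : ℕ → Bool → ℕ → ℕ → M) (i : ℕ) (b : Bool) (j k : ℕ) :
    φ (solve r s e t i b j k) =
      solve r s (fun k => φ (e k)) (fun i b j k => φ (t i b j k)) i b j k := by
  unfold solve corr
  rw [map_mul]
  congr 1
  split_ifs
  · simp only [map_div, Pk_map]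
  · exact map_one φ

theorem solve_mem {M : Type*} [CommGroup M] (U : Subgroup M) (r s : ℕ) (e : ℕ → M)
    (t : ℕ → Bool → ℕ → ℕ → M) (he : ∀ k, e k ∈ U) (ht : ∀ i b j k, t i b j k ∈ U)
    (i : ℕ) (b : Bool) (j k : ℕ) : solve r s e t i b j k ∈ U := by
  unfold solve corr
  refine U.mul_mem (ht _ _ _ _) ?_
  split_ifs
  · exact U.div_mem (U.div_mem (he _) (Pk_mem U _ _ _ _ ht))
      (U.div_mem (he _) (Pk_mem U _ _ _ _ ht))
  · exact U.one_mem

end Solve

/-! ### Matrices -/

section Mat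

variable {R : Type*} [CommRing R] {r : ℕ}

theorem Q_map {R' : Type*} [CommRing R'] (φ : R →+* R') (u y : ℕ → Mat r R) (n : ℕ) :
    (Q u y n).map φ = Q (fun i => (u i).map φ) (fun i => (y i).map φ) n := by
  induction n with
  | zero => exact Matrix.map_one φ (map_zero φ) (map_one φ)
  | succ n ih =>
    rw [Q, Q, Matrix.map_mul, Matrix.map_mul, ih]

theorem Q_congr {u y u' y' : ℕ → Mat r R} {n : ℕ} (hu : ∀ i < n, u i = u' i)
    (hy : ∀ i < n, y i = y' i) : Q u y n = Q u' y' n := by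
  induction n with
  | zero => rfl
  | succ n ih =>
    rw [Q, Q, ih (fun i hi => hu i (by omega)) (fun i hi => hy i (by omega)), hu n (by omega),
      hy n (by omega)]

theorem det_Q {u y : ℕ → Mat r R} {n : ℕ} (hu : ∀ i < n, UpU (u i))
    (hy : ∀ i < n, LowU (y i)) : (Q u y n).det = 1 := by
  induction n with
  | zero => exact Matrix.det_one
  | succ n ih =>
    rw [Q, Matrix.det_mul, Matrix.det_mul,
      ih (fun i hi => hu i (by omega)) (fun i hi => hy i (by omega)),
      (hu n (by omega)).det, (hy n (by omega)).det, one_mul, one_mul]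

theorem D_upper (M : Mat r R) (hM : ∀ i j : Fin r, j < i → M i j = 0) {k : ℕ} (hk : k ≤ r) :
    D k M = ∏ i : Fin k, M (i.castLE hk) (i.castLE hk) := by
  rw [D, dif_pos hk, Matrix.det_of_isUpperTriangular]
  · rfl
  · intro i j hij
    exact hM _ _ hij

theorem diag_of_D {E : Type*} [Field E] {r : ℕ} (M : Mat r E)
    (hM : ∀ i j : Fin r, j < i → M i j = 0) (δ : Fin r → E) (hδ : ∀ k, δ k ≠ 0)
    (h : ∀ k, ∀ hk : k ≤ r, D k M = ∏ i : Fin k, δ (i.castLE hk)) (i : Fin r) : M i i = δ i := by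
  have h1 := h (i + 1) i.2
  have h2 := h i i.2.le
  rw [D_upper M hM i.2, Fin.prod_univ_castSucc, Fin.prod_univ_castSucc] at h1
  rw [D_upper M hM i.2.le] at h2
  have h3 : (∏ j : Fin (i : ℕ), M (j.castSucc.castLE i.2) (j.castSucc.castLE i.2)) =
      ∏ j : Fin (i : ℕ), δ (j.castSucc.castLE i.2) := h2
  have h4 : (∏ j : Fin (i : ℕ), δ (j.castSucc.castLE i.2)) ≠ 0 :=
    Finset.prod_ne_zero_iff.2 fun j _ => hδ _
  rw [h3] at h1
  exact mul_left_cancel₀ h4 h1

/-- `e_k = ∏_{i < k} δ_i`. -/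
def eseq {M : Type*} [CommMonoid M] (δ : Fin r → M) (k : ℕ) : M :=
  if hk : k ≤ r then ∏ i : Fin k, δ (i.castLE hk) else 1

theorem eseq_of_le {M : Type*} [CommMonoid M] (δ : Fin r → M) {k : ℕ} (hk : k ≤ r) :
    eseq δ k = ∏ i : Fin k, δ (i.castLE hk) := dif_pos hk

theorem eseq_zero {M : Type*} [CommMonoid M] (δ : Fin r → M) : eseq δ 0 = 1 := by
  rw [eseq_of_le δ (Nat.zero_le r)]
  simp

theorem eseq_self {M : Type*} [CommMonoid M] (δ : Fin r → M) : eseq δ r = ∏ k, δ k := by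
  rw [eseq_of_le δ le_rfl]
  rfl

theorem eseq_map {M N : Type*} [CommMonoid M] [CommMonoid N] (φ : M →* N) (δ : Fin r → M)
    (k : ℕ) : φ (eseq δ k) = eseq (fun i => φ (δ i)) k := by
  unfold eseq
  split_ifs
  · rw [map_prod]
  · exact map_one φ

theorem eseq_mem {M : Type*} [CommGroup M] (U : Subgroup M) (δ : Fin r → M)
    (hδ : ∀ i, δ i ∈ U) (k : ℕ) : eseq δ k ∈ U := by
  unfold eseq
  split_ifs
  · exact U.prod_mem fun i _ => hδ _
  · exact U.one_mem

theorem chart_low {s : ℕ} {t : ℕ → Bool → ℕ → ℕ → Rˣ} {u y : ℕ → Mat r R} (h : Chart s t u y) :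
    (∀ i ≤ s, LowU (y i)) ∧ ∀ i < s, UpU (u i) := by
  obtain ⟨n, v, l, b, d, a, -, h1, -, h2⟩ := h
  refine ⟨fun i hi => ?_, fun i hi => (h2 i hi).2.2.2.1⟩
  rcases hi.lt_or_eq with h3 | h3
  · exact (h2 i h3).2.2.2.2.1
  · rw [h3]
    exact h1

/-- A point of the chart with the right parameters lies in `𝒵_δ`. -/
theorem inZ_of_chart {E : Type*} [Field E] {r s : ℕ} {t : ℕ → Bool → ℕ → ℕ → Eˣ}
    {u y : ℕ → Mat r E} (h : Chart s t u y) (δ : Fin r → Eˣ) (hδ : ∏ k, δ k = 1)
    (ht : ∀ k < r, Pk r s k t = eseq δ k) : InZ s (fun k => (δ k : E)) u y := by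
  have h1 := chart_low h
  refine ⟨h1.1, h1.2, h.zero, ?_⟩
  refine diag_of_D _ h.zero _ (fun k => (δ k).ne_zero) fun k hk => ?_
  have h2 : ((eseq δ k : Eˣ) : E) = ∏ i : Fin k, ((δ (i.castLE hk) : Eˣ) : E) := by
    rw [eseq_of_le δ hk, Units.coe_prod]
  rw [← h2]
  rcases hk.lt_or_eq with h3 | h3
  · rw [h.D_eq hk, ← ht k h3]
    rfl
  · subst h3
    rw [D_self, Matrix.det_mul, (h1.1 s le_rfl).det, det_Q h1.2 (fun i hi => h1.1 i hi.le),
      eseq_self, hδ]
    simp

/-- The parameters of a point of `𝒵_δ`. -/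
theorem Pk_of_inZ {E : Type*} [Field E] {r s : ℕ} {t : ℕ → Bool → ℕ → ℕ → Eˣ}
    {u y : ℕ → Mat r E} (h : Chart s t u y) (δ : Fin r → Eˣ)
    (hZ : InZ s (fun k => (δ k : E)) u y) {k : ℕ} (hk : k ≤ r) : Pk r s k t = eseq δ k := by
  have h1 := h.D_eq hk
  rw [D_upper _ hZ.zero hk] at h1
  refine Units.ext (h1.symm.trans ?_)
  rw [eseq_of_le δ hk, Units.coe_prod]
  exact Finset.prod_congr rfl fun i _ => hZ.diag _

/-- The last diagonal entry comes for free. -/
theorem inZ_mk {E : Type*} [Field E] {r s : ℕ} {u y : ℕ → Mat r E}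
    (hy : ∀ i ≤ s, LowU (y i)) (hu : ∀ i < s, UpU (u i))
    (h0 : ∀ i j : Fin r, j < i → (y s * Q u y s) i j = 0) (δ : Fin r → E) (hδ : ∏ k, δ k = 1)
    (h1 : ∀ i : Fin r, (i : ℕ) + 1 < r → (y s * Q u y s) i i = δ i) : InZ s δ u y := by
  refine ⟨hy, hu, h0, fun i => ?_⟩
  by_cases hi : (i : ℕ) + 1 < r
  · exact h1 i hi
  · have h2 : (y s * Q u y s).det = 1 := by
      rw [Matrix.det_mul, (hy s le_rfl).det, det_Q hu (fun i hi => hy i hi.le), one_mul]
    rw [← D_self, D_upper _ h0 le_rfl] at h2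
    have h3 : (∏ i : Fin r, (y s * Q u y s) i i) = ∏ k, δ k := by
      rw [hδ]
      exact h2
    rw [← Finset.mul_prod_erase _ _ (Finset.mem_univ i),
      ← Finset.mul_prod_erase _ δ (Finset.mem_univ i)] at h3
    have h4 : (∏ j ∈ Finset.univ.erase i, (y s * Q u y s) j j) =
        ∏ j ∈ Finset.univ.erase i, δ j := by
      refine Finset.prod_congr rfl fun j hj => h1 j ?_
      have : (j : ℕ) ≠ i := fun h => (Finset.mem_erase.1 hj).1 (Fin.ext h)
      omega
    rw [h4] at h3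
    have h5 : (∏ j ∈ Finset.univ.erase i, δ j) ≠ 0 := by
      intro h
      rw [← Finset.mul_prod_erase _ δ (Finset.mem_univ i), h, mul_zero] at hδ
      exact zero_ne_one hδ
    exact mul_right_cancel₀ h5 h3

end Mat

/-! ### The equations -/

section Eqs

variable {Ω : Type} [Field Ω] {r : ℕ} (s : ℕ)

/-- The coordinates. -/
abbrev Co (r s : ℕ) := (Fin (s + 1) ⊕ Fin s) × Fin r × Fin r

/-- The matrices `y i` over the polynomial ring. -/
noncomputable def yp (Ω : Type) [Field Ω] (r s : ℕ) (i : ℕ) : Mat r (MvPolynomial (Co r s) Ω) :=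
  if h : i < s + 1 then Matrix.of fun a b => X (Sum.inl ⟨i, h⟩, a, b) else 1

theorem yp_apply {s i : ℕ} (h : i < s + 1) (a b : Fin r) :
    yp Ω r s i a b = X (Sum.inl ⟨i, h⟩, a, b) := by
  unfold yp
  rw [dif_pos h]
  rfl

/-- The matrices `u i` over the polynomial ring. -/
noncomputable def up (Ω : Type) [Field Ω] (r s : ℕ) (i : ℕ) : Mat r (MvPolynomial (Co r s) Ω) :=
  if h : i < s then Matrix.of fun a b => X (Sum.inr ⟨i, h⟩, a, b) else 1

theorem up_apply {s i : ℕ} (h : i < s) (a b : Fin r) :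
    up Ω r s i a b = X (Sum.inr ⟨i, h⟩, a, b) := by
  unfold up
  rw [dif_pos h]
  rfl

/-- The equations of `𝒵_δ`. -/
noncomputable def eqs (s : ℕ) (δ : Fin r → Ω) : Finset (MvPolynomial (Co r s) Ω) := by
  classical
  exact
    (((Finset.univ : Finset (Fin (s + 1) × Fin r × Fin r)).filter
        (fun p => p.2.1 ≤ p.2.2)).image
      (fun p => X (Sum.inl p.1, p.2.1, p.2.2) - C (if p.2.1 = p.2.2 then (1 : Ω) else 0))) ∪
    (((Finset.univ : Finset (Fin s × Fin r × Fin r)).filter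
        (fun p => p.2.2 ≤ p.2.1)).image
      (fun p => X (Sum.inr p.1, p.2.1, p.2.2) - C (if p.2.1 = p.2.2 then (1 : Ω) else 0))) ∪
    (((Finset.univ : Finset (Fin r × Fin r)).filter (fun p => p.2 < p.1)).image
      (fun p => (yp Ω r s s * Q (up Ω r s) (yp Ω r s) s) p.1 p.2)) ∪
    (((Finset.univ : Finset (Fin r)).filter (fun k : Fin r => (k : ℕ) + 1 < r)).image
      (fun k => (yp Ω r s s * Q (up Ω r s) (yp Ω r s) s) k k - C (δ k)))

theorem mem_eqs {s : ℕ} {δ : Fin r → Ω} {f : MvPolynomial (Co r s) Ω} :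
    f ∈ eqs s δ ↔
      (∃ (i : Fin (s + 1)) (a b : Fin r), a ≤ b ∧
        X (Sum.inl i, a, b) - C (if a = b then (1 : Ω) else 0) = f) ∨
      (∃ (i : Fin s) (a b : Fin r), b ≤ a ∧
        X (Sum.inr i, a, b) - C (if a = b then (1 : Ω) else 0) = f) ∨
      (∃ a b : Fin r, b < a ∧ (yp Ω r s s * Q (up Ω r s) (yp Ω r s) s) a b = f) ∨
      (∃ k : Fin r, (k : ℕ) + 1 < r ∧
        (yp Ω r s s * Q (up Ω r s) (yp Ω r s) s) k k - C (δ k) = f) := by
  classical
  unfold eqs
  simp only [Finset.mem_union, Finset.mem_image, Finset.mem_filter, Finset.mem_univ, true_and,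
    Prod.exists, or_assoc]

/-- The number of pairs `b < a`. -/
theorem card_pairs (r : ℕ) :
    2 * ((Finset.univ : Finset (Fin r × Fin r)).filter (fun p => p.2 < p.1)).card = r * (r - 1) ∧
    2 * ((Finset.univ : Finset (Fin r × Fin r)).filter (fun p => p.1 ≤ p.2)).card =
      r * (r + 1) ∧
    2 * ((Finset.univ : Finset (Fin r × Fin r)).filter (fun p => p.2 ≤ p.1)).card =
      r * (r + 1) := by
  classical
  have h1 : ∀ i : Fin r, (∑ j : Fin r, if j < i then 1 else 0) = (i : ℕ) := by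
    intro i
    rw [← Finset.card_filter, ← Fin.card_Iio i]
    congr 1
    ext j
    simp
  have h2 : ∀ i : Fin r, (∑ j : Fin r, if j ≤ i then 1 else 0) = (i : ℕ) + 1 := by
    intro i
    rw [← Finset.card_filter, ← Fin.card_Iic i]
    congr 1
    ext j
    simp
  have h3 : (∑ i : Fin r, ((i : ℕ) + 1)) * 2 = r * (r + 1) := by
    rw [Fin.sum_univ_eq_sum_range (fun i => i + 1) r, Finset.sum_add_distrib, add_mul,
      Finset.sum_range_id_mul_two]
    rcases r with _ | r
    · simp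
    · simp only [Finset.sum_const, Finset.card_range, smul_eq_mul, mul_one, Nat.add_sub_cancel]
      ring
  refine ⟨?_, ?_, ?_⟩
  · rw [mul_comm, Finset.card_filter, Fintype.sum_prod_type]
    simp only [h1]
    rw [Fin.sum_univ_eq_sum_range (fun i => i) r, Finset.sum_range_id_mul_two]
  · rw [mul_comm, Finset.card_filter, Fintype.sum_prod_type, Finset.sum_comm]
    simp only [h2]
    exact h3
  · rw [mul_comm, Finset.card_filter, Fintype.sum_prod_type]
    simp only [h2]
    exact h3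

/-- The number of equations. -/
theorem card_eqs (hr : 1 ≤ r) {s : ℕ} (δ : Fin r → Ω) :
    2 * (eqs s δ).card ≤ (2 * s + 1) * (r * (r + 1)) + r * (r - 1) + 2 * (r - 1) := by
  classical
  obtain ⟨h1, h2, h3⟩ := card_pairs r
  have hA : (((Finset.univ : Finset (Fin (s + 1) × Fin r × Fin r)).filter
      (fun p => p.2.1 ≤ p.2.2)).card) = (s + 1) *
      ((Finset.univ : Finset (Fin r × Fin r)).filter (fun p => p.1 ≤ p.2)).card := by
    rw [Finset.card_filter, Fintype.sum_prod_type]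
    simp
  have hB : (((Finset.univ : Finset (Fin s × Fin r × Fin r)).filter
      (fun p => p.2.2 ≤ p.2.1)).card) = s *
      ((Finset.univ : Finset (Fin r × Fin r)).filter (fun p => p.2 ≤ p.1)).card := by
    rw [Finset.card_filter, Fintype.sum_prod_type]
    simp
  have hC : ((Finset.univ : Finset (Fin r)).filter (fun k : Fin r => (k : ℕ) + 1 < r)).card ≤
      r - 1 := by
    have : ((Finset.univ : Finset (Fin r)).filter (fun k : Fin r => (k : ℕ) + 1 < r)) ⊆
        Finset.univ.erase ⟨r - 1, by omega⟩ := by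
      intro k hk
      rw [Finset.mem_filter] at hk
      refine Finset.mem_erase.2 ⟨fun h => ?_, Finset.mem_univ _⟩
      rw [h] at hk
      have := hk.2
      simp only at this
      omega
    refine (Finset.card_le_card this).trans ?_
    rw [Finset.card_erase_of_mem (Finset.mem_univ _), Finset.card_univ, Fintype.card_fin]
  have h4 : (eqs s δ).card ≤ (s + 1) *
      ((Finset.univ : Finset (Fin r × Fin r)).filter (fun p => p.1 ≤ p.2)).card + s *
      ((Finset.univ : Finset (Fin r × Fin r)).filter (fun p => p.2 ≤ p.1)).card +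
      ((Finset.univ : Finset (Fin r × Fin r)).filter (fun p => p.2 < p.1)).card + (r - 1) := by
    unfold eqs
    refine (Finset.card_union_le _ _).trans (Nat.add_le_add ((Finset.card_union_le _ _).trans
      (Nat.add_le_add ((Finset.card_union_le _ _).trans (Nat.add_le_add ?_ ?_)) ?_)) ?_)
    · exact Finset.card_image_le.trans hA.le
    · exact Finset.card_image_le.trans hB.le
    · exact Finset.card_image_le
    · exact Finset.card_image_le.trans hC
  nlinarith [h1, h2, h3, h4]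

theorem map_prod_Q {A : Type*} [CommRing A] [Algebra Ω A] {s : ℕ}
    (φ : MvPolynomial (Co r s) Ω →ₐ[Ω] A) (a b : Fin r) :
    φ ((yp Ω r s s * Q (up Ω r s) (yp Ω r s) s) a b) =
      ((yp Ω r s s).map φ * Q (fun i => (up Ω r s i).map φ) (fun i => (yp Ω r s i).map φ) s)
        a b := by
  have h1 : (yp Ω r s s * Q (up Ω r s) (yp Ω r s) s).map (φ : MvPolynomial (Co r s) Ω →+* A) =
      (yp Ω r s s).map (φ : MvPolynomial (Co r s) Ω →+* A) *
        Q (fun i => (up Ω r s i).map (φ : MvPolynomial (Co r s) Ω →+* A))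
          (fun i => (yp Ω r s i).map (φ : MvPolynomial (Co r s) Ω →+* A)) s := by
    rw [Matrix.map_mul, Q_map]
  exact congrFun (congrFun h1 a) b

/-- The meaning of the equations. -/
theorem eqs_iff {A : Type*} [CommRing A] [Algebra Ω A] {s : ℕ}
    (φ : MvPolynomial (Co r s) Ω →ₐ[Ω] A) (δ : Fin r → Ω) :
    (∀ f ∈ eqs s δ, φ f = 0) ↔
      (∀ i ≤ s, LowU ((yp Ω r s i).map φ)) ∧ (∀ i < s, UpU ((up Ω r s i).map φ)) ∧
      (∀ a b : Fin r, b < a → ((yp Ω r s s).map φ *
        Q (fun i => (up Ω r s i).map φ) (fun i => (yp Ω r s i).map φ) s) a b = 0) ∧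
      (∀ k : Fin r, (k : ℕ) + 1 < r → ((yp Ω r s s).map φ *
        Q (fun i => (up Ω r s i).map φ) (fun i => (yp Ω r s i).map φ) s) k k =
          algebraMap Ω A (δ k)) := by
  have hC : ∀ c : Ω, φ (C c) = algebraMap Ω A c := fun c => by
    rw [← MvPolynomial.algebraMap_eq, φ.commutes]
  have hy : ∀ (i : ℕ) (hi : i ≤ s) (a b : Fin r), (yp Ω r s i).map φ a b =
      φ (X (Sum.inl ⟨i, Nat.lt_succ_of_le hi⟩, a, b)) := by
    intro i hi a b
    rw [Matrix.map_apply, yp_apply (Nat.lt_succ_of_le hi)]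
  have hu : ∀ (i : ℕ) (hi : i < s) (a b : Fin r), (up Ω r s i).map φ a b =
      φ (X (Sum.inr ⟨i, hi⟩, a, b)) := by
    intro i hi a b
    rw [Matrix.map_apply, up_apply hi]
  constructor
  · intro h
    refine ⟨fun i hi => ⟨fun a => ?_, fun a b hab => ?_⟩,
      fun i hi => ⟨fun a => ?_, fun a b hab => ?_⟩, fun a b hab => ?_, fun k hk => ?_⟩
    · have := h _ (mem_eqs.2 (Or.inl ⟨⟨i, Nat.lt_succ_of_le hi⟩, a, a, le_rfl, rfl⟩))
      rw [if_pos rfl, map_sub, hC, map_one, sub_eq_zero] at this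
      rw [hy i hi, this]
    · have := h _ (mem_eqs.2 (Or.inl ⟨⟨i, Nat.lt_succ_of_le hi⟩, a, b, hab.le, rfl⟩))
      rw [if_neg hab.ne, map_sub, hC, map_zero, sub_zero] at this
      rw [hy i hi, this]
    · have := h _ (mem_eqs.2 (Or.inr (Or.inl ⟨⟨i, hi⟩, a, a, le_rfl, rfl⟩)))
      rw [if_pos rfl, map_sub, hC, map_one, sub_eq_zero] at this
      rw [hu i hi, this]
    · have := h _ (mem_eqs.2 (Or.inr (Or.inl ⟨⟨i, hi⟩, a, b, hab.le, rfl⟩)))
      rw [if_neg hab.ne', map_sub, hC, map_zero, sub_zero] at this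
      rw [hu i hi, this]
    · rw [← map_prod_Q]
      exact h _ (mem_eqs.2 (Or.inr (Or.inr (Or.inl ⟨a, b, hab, rfl⟩))))
    · have := h _ (mem_eqs.2 (Or.inr (Or.inr (Or.inr ⟨k, hk, rfl⟩))))
      rw [map_sub, hC, sub_eq_zero, map_prod_Q] at this
      exact this
  · rintro ⟨h1, h2, h3, h4⟩ f hf
    rcases mem_eqs.1 hf with ⟨i, a, b, hab, rfl⟩ | ⟨i, a, b, hab, rfl⟩ | ⟨a, b, hab, rfl⟩ |
      ⟨k, hk, rfl⟩
    · have hi : (i : ℕ) ≤ s := Nat.le_of_lt_succ i.2
      have h5 := h1 i hi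
      rw [map_sub, hC, sub_eq_zero]
      have h6 := hy i hi a b
      rcases hab.eq_or_lt with h7 | h7
      · subst h7
        rw [if_pos rfl, map_one, ← h5.1 a, h6]
      · rw [if_neg h7.ne, map_zero, ← h5.2 a b h7, h6]
    · have h5 := h2 i i.2
      rw [map_sub, hC, sub_eq_zero]
      have h6 := hu i i.2 a b
      rcases hab.eq_or_lt with h7 | h7
      · subst h7
        rw [if_pos rfl, map_one, ← h5.1 b, h6]
      · rw [if_neg h7.ne', map_zero, ← h5.2 a b h7, h6]
    · rw [map_prod_Q]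
      exact h3 a b hab
    · rw [map_sub, hC, sub_eq_zero, map_prod_Q]
      exact h4 k hk

theorem pt_map {A : Type*} [CommRing A] [Algebra Ω A] {s : ℕ}
    (φ : MvPolynomial (Co r s) Ω →ₐ[Ω] A) :
    pt s (fun i => (up Ω r s i).map φ) (fun i => (yp Ω r s i).map φ) = fun p => φ (X p) := by
  funext p
  rcases p with ⟨i | i, a, b⟩
  · change φ (yp Ω r s i a b) = _
    rw [yp_apply i.2]
  · change φ (up Ω r s i a b) = _
    rw [up_apply i.2]

end Eqs

/-! ### The theorem -/

theorem aeval_eval' {σ Ω : Type*} [CommRing Ω] (x : σ → Ω) (f : MvPolynomial σ Ω) :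
    aeval x f = eval x f := RingHom.congr_fun (MvPolynomial.coe_aeval_eq_eval x) f

theorem Y_density {Ω : Type} [Field Ω] {r s : ℕ} (hr : 3 ≤ r) (hs : 1 ≤ s) (U : Subgroup Ωˣ)
    (v : Ωˣ) (hv : v ∈ U) (hv' : ∀ n : ℤ, v ^ n = 1 → n = 0) (δ : Fin r → Ωˣ)
    (hδ : ∀ k, δ k ∈ U) (hδ1 : ∏ k, δ k = 1)
    (F : MvPolynomial ((Fin (s + 1) ⊕ Fin s) × Fin r × Fin r) Ω)
    (hF : ∀ (t : ℕ → Bool → ℕ → ℕ → Ωˣ) (u y : ℕ → Mat r Ω), (∀ i b j k, t i b j k ∈ U) →
      Chart s t u y → InZ s (fun k => (δ k : Ω)) u y → eval (pt s u y) F = 0)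
    (u y : ℕ → Mat r Ω) (h : InZ s (fun k => (δ k : Ω)) u y) : eval (pt s u y) F = 0 := by
  classical
  by_contra hne
  have hx₀ : ∀ f ∈ eqs s (fun k => (δ k : Ω)), eval (pt s u y) f = 0 := by
    have hyy : ∀ i ≤ s, (yp Ω r s i).map (aeval (pt s u y) : MvPolynomial (Co r s) Ω →ₐ[Ω] Ω) =
        y i := by
      intro i hi
      ext a b
      rw [Matrix.map_apply, yp_apply (Nat.lt_succ_of_le hi), aeval_X]
      rfl
    have huu : ∀ i < s, (up Ω r s i).map (aeval (pt s u y) : MvPolynomial (Co r s) Ω →ₐ[Ω] Ω) =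
        u i := by
      intro i hi
      ext a b
      rw [Matrix.map_apply, up_apply hi, aeval_X]
      rfl
    have hQ : Q (fun i => (up Ω r s i).map
        (aeval (pt s u y) : MvPolynomial (Co r s) Ω →ₐ[Ω] Ω)) (fun i => (yp Ω r s i).map
        (aeval (pt s u y) : MvPolynomial (Co r s) Ω →ₐ[Ω] Ω)) s = Q u y s :=
      Q_congr huu (fun i hi => hyy i hi.le)
    have h1 := (eqs_iff (aeval (pt s u y) : MvPolynomial (Co r s) Ω →ₐ[Ω] Ω)
      (fun k => (δ k : Ω))).2 (by
        rw [hQ, hyy s le_rfl]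
        refine ⟨fun i hi => ?_, fun i hi => ?_, h.zero, fun k _ => h.diag k⟩
        · rw [hyy i hi]
          exact h.low i hi
        · rw [huu i hi]
          exact h.up i hi)
    intro f hf
    have h2 := h1 f hf
    rwa [aeval_eval'] at h2
  obtain ⟨E, _, _, x, hx, hxF, hcard⟩ := exists_generic (eqs s (fun k => (δ k : Ω))) F
    (pt s u y) hx₀ hne
  -- the generic point
  let φ : MvPolynomial (Co r s) Ω →ₐ[Ω] E := aeval x
  obtain ⟨h1, h2, h3, h4⟩ := (eqs_iff φ (fun k => (δ k : Ω))).1 hx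
  set u' : ℕ → Mat r E := fun i => (up Ω r s i).map φ with hu'
  set y' : ℕ → Mat r E := fun i => (yp Ω r s i).map φ with hy'
  have hpt : pt s u' y' = x := by
    rw [hu', hy', pt_map]
    funext p
    exact aeval_X _ _
  have hZ : InZ s (fun k => algebraMap Ω E (δ k)) u' y' := by
    refine inZ_mk h1 h2 h3 _ ?_ h4
    rw [← map_prod, ← Units.coe_prod, hδ1]
    simp
  rcases gen hr hs (fun k => (δ k : Ω)) (fun k => (δ k).ne_zero) u' y' hZ with ⟨t, ht⟩ | hB
  · -- the chart over the Laurent ring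
    let φL : Ω →+* Lau Ω := algebraMap Ω (Lau Ω)
    let e : ℕ → Ωˣ := eseq δ
    let T : ℕ → Bool → ℕ → ℕ → (Lau Ω)ˣ :=
      solve r s (fun k => Units.map (φL : Ω →* Lau Ω) (e k)) tu
    obtain ⟨uX, yX, hX⟩ := chart_exists (R := Lau Ω) (r := r) s T
    set G : Lau Ω := aeval (pt s uX yX) F with hG
    have hev : ∀ {A : Type} [CommRing A] [Algebra Ω A] (τ : Idx → Aˣ) (k : ℕ),
        Units.map ((ev (Ω := Ω) τ : Lau Ω →+* A) : Lau Ω →* A)
          (Units.map (φL : Ω →* Lau Ω) (e k)) =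
        Units.map ((algebraMap Ω A : Ω →+* A) : Ω →* A) (e k) := by
      intro A _ _ τ k
      ext
      exact (ev (Ω := Ω) τ).commutes _
    have hT : ∀ {A : Type} [CommRing A] [Algebra Ω A] (τ : Idx → Aˣ),
        (fun i b j k => Units.map ((ev (Ω := Ω) τ : Lau Ω →+* A) : Lau Ω →* A) (T i b j k)) =
        solve r s (fun k => Units.map ((algebraMap Ω A : Ω →+* A) : Ω →* A) (e k))
          (fun i b j k => τ (i, b, j, k)) := by
      intro A _ _ τ
      funext i b j k
      change Units.map ((ev (Ω := Ω) τ : Lau Ω →+* A) : Lau Ω →* A) (solve r s _ tu i b j k) = _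
      rw [solve_map]
      simp only [hev, ev_tu]
    have hptX : ∀ {A : Type} [CommRing A] [Algebra Ω A] (τ : Idx → Aˣ),
        aeval (pt s (fun i => (uX i).map (ev (Ω := Ω) τ : Lau Ω →+* A))
          (fun i => (yX i).map (ev (Ω := Ω) τ : Lau Ω →+* A))) F = ev τ G := by
      intro A _ _ τ
      have : pt s (fun i => (uX i).map (ev (Ω := Ω) τ : Lau Ω →+* A))
          (fun i => (yX i).map (ev (Ω := Ω) τ : Lau Ω →+* A)) =
          fun p => ev τ (pt s uX yX p) := by
        funext p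
        rcases p with ⟨i | i, a, b⟩ <;> rfl
      rw [this, hG, ← AlgHom.comp_apply, MvPolynomial.comp_aeval]
    have hG0 : G = 0 := by
      refine eq_zero_of_ev U v hv hv' G fun τ hτ => ?_
      have h5 := hX.map ((ev (Ω := Ω) τ : Lau Ω →ₐ[Ω] Ω) : Lau Ω →+* Ω)
      rw [hT τ] at h5
      have he : ∀ k, Units.map ((algebraMap Ω Ω : Ω →+* Ω) : Ω →* Ω) (e k) = e k := fun k => by
        ext
        rfl
      simp only [he] at h5
      have h6 := inZ_of_chart h5 δ hδ1 (fun k hk => Pk_solve hs _ _ (eseq_zero δ) hk)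
      have h7 := hF _ _ _ (fun i b j k => solve_mem U r s _ _ (fun k => eseq_mem U δ hδ k)
        (fun i b j k => hτ _) i b j k) h5 h6
      rw [← hptX τ, aeval_eval']
      exact h7
    -- the generic point
    let τ : Idx → Eˣ := fun p => t p.1 p.2.1 p.2.2.1 p.2.2.2
    have h5 := hX.map ((ev (Ω := Ω) τ : Lau Ω →ₐ[Ω] E) : Lau Ω →+* E)
    rw [hT τ] at h5
    let δE : Fin r → Eˣ := fun k => Units.map ((algebraMap Ω E : Ω →+* E) : Ω →* E) (δ k)
    have hPk : ∀ k < r, Pk r s k t = Units.map ((algebraMap Ω E : Ω →+* E) : Ω →* E) (e k) := by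
      intro k hk
      rw [Pk_of_inZ ht δE hZ hk.le]
      change _ = Units.map ((algebraMap Ω E : Ω →+* E) : Ω →* E) (eseq δ k)
      rw [eseq_map]
    have h6 : solve r s (fun k => Units.map ((algebraMap Ω E : Ω →+* E) : Ω →* E) (e k))
        (fun i b j k => τ (i, b, j, k)) = t := solve_eq _ _ hPk
    rw [h6] at h5
    obtain ⟨h7, h8⟩ := ht.unique h5
    apply hxF
    have h9 : x = pt s (fun i => (uX i).map (ev (Ω := Ω) τ : Lau Ω →+* E))
        (fun i => (yX i).map (ev (Ω := Ω) τ : Lau Ω →+* E)) := by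
      rw [← hpt]
      funext p
      rcases p with ⟨i | i, a, b⟩
      · change y' i a b = _
        rw [h8 i (Nat.le_of_lt_succ i.2)]
        rfl
      · change u' i a b = _
        rw [h7 i i.2]
        rfl
    rw [h9, hptX τ, hG0, map_zero]
  · -- the transcendence degree is too small
    obtain ⟨S, hS, hS'⟩ := hB
    have h5 : Set.range x ⊆ acl Ω (S : Set E) := by
      rw [Set.empty_union] at hS'
      refine Set.Subset.trans ?_ hS'
      rw [← hpt]
      rintro _ ⟨⟨i | i, a, b⟩, rfl⟩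
      · exact Or.inl ⟨i, Nat.le_of_lt_succ i.2, a, b, rfl⟩
      · exact Or.inr ⟨i, i.2, a, b, rfl⟩
    have h6 := hcard S h5
    have h7 := card_eqs (by omega : 1 ≤ r) (s := s) (fun k => (δ k : Ω))
    simp only [Fintype.card_prod, Fintype.card_sum, Fintype.card_fin] at h6
    obtain ⟨q, rfl⟩ : ∃ q, r = q + 1 := ⟨r - 1, by omega⟩
    simp only [Nat.add_sub_cancel] at h7 hS
    have h8 : q + 1 ≤ s * ((q + 1) * q) := by
      have : 1 * ((q + 1) * 1) ≤ s * ((q + 1) * q) :=
        Nat.mul_le_mul hs (Nat.mul_le_mul_left _ (by omega))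
      omega
    have h9 : S.card + (q + 1) ≤ s * ((q + 1) * q) := by omega
    nlinarith [h6, h7, h9]

end Pool.Agent.MP_3f0e22_ag.Yd

namespace Pool.Agent.MP_3f0e22_ag

alias Y_density := Yd.Y_density

end Pool.Agent.MP_3f0e22_ag
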