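import Pool.Agent.MP_3f0e22_ag.Defs2
import Pool.Agent.MP_3f0e22_ag.Yd

/-! # MP_3f0e22_ag, version 2, block UN: the universal chart -/

set_option autoImplicit false

open Matrix MvPolynomial

namespace Pool.Agent.MP_3f0e22_ag.UN

open Pool.Agent.MP_3f0e22_ag Pool.Agent.MP_3f0e22_ag.Yd

section Nrm

variable {R : Type*} [CommRing R]

theorem J_mul_J (r : ℕ) : Jm R r * Jm R r = 1 := by
  ext i j
  rw [Matrix.mul_apply, Finset.sum_eq_single (Fin.rev i)]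
  · simp [Jm, Matrix.one_apply]
  · intro k _ hk
    have : (Jm R r) i k = 0 := by
      simp only [Jm, Matrix.submatrix_apply]
      exact Matrix.one_apply_ne (fun h => hk h.symm)
    rw [this, zero_mul]
  · intro h
    exact absurd (Finset.mem_univ _) h

theorem detJ_sq (r : ℕ) : (Jm R r).det * (Jm R r).det = 1 := by
  rw [← Matrix.det_mul, J_mul_J, Matrix.det_one]

variable (R) in
/-- The determinant of `J` as a unit. -/
def dJ (r : ℕ) : Rˣ := ⟨(Jm R r).det, (Jm R r).det, detJ_sq r, detJ_sq r⟩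

theorem dJ_map {R' : Type*} [CommRing R'] (φ : R →+* R') (r : ℕ) :
    Units.map (φ : R →* R') (dJ R r) = dJ R' r := by
  ext
  change φ ((Jm R r).det) = (Jm R' r).det
  rw [RingHom.map_det]
  congr 1
  ext i j
  simp only [RingHom.mapMatrix_apply, Matrix.map_apply, Jm, Matrix.submatrix_apply, id_eq,
    Matrix.one_apply]
  split_ifs
  · exact map_one φ
  · exact map_zero φ

theorem dJ_mem {Ω : Type*} [Field Ω] (U : Subgroup Ωˣ) (hneg : -1 ∈ U) (r : ℕ) : dJ Ω r ∈ U := by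
  have h : ((dJ Ω r : Ωˣ) : Ω) * ((dJ Ω r : Ωˣ) : Ω) = 1 := detJ_sq r
  rcases mul_self_eq_one_iff.1 h with h1 | h1
  · have : dJ Ω r = 1 := Units.ext h1
    rw [this]
    exact U.one_mem
  · have : dJ Ω r = -1 := Units.ext (by rw [h1]; simp)
    rw [this]
    exact hneg

/-- The normalisation. -/
def nrm (r : ℕ) (t : ℕ → Bool → ℕ → ℕ → Rˣ) : ℕ → Bool → ℕ → ℕ → Rˣ := fun i b j k =>
  if j = 0 ∧ k = 0 then dJ R r / ∏ l ∈ Finset.Ico 1 r, t i b l l else t i b j k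

theorem nrm_map {R' : Type*} [CommRing R'] (φ : R →+* R') (r : ℕ) (t : ℕ → Bool → ℕ → ℕ → Rˣ) :
    (fun i b j k => Units.map (φ : R →* R') (nrm r t i b j k)) =
      nrm r (fun i b j k => Units.map (φ : R →* R') (t i b j k)) := by
  funext i b j k
  unfold nrm
  split_ifs
  · rw [map_div, map_prod, dJ_map]
  · rfl

theorem prod_diag {M : Type*} [CommMonoid M] {r : ℕ} (hr : 1 ≤ r) (f : ℕ → M) :
    ∏ k : Fin r, f k = f 0 * ∏ l ∈ Finset.Ico 1 r, f l := by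
  rw [Fin.prod_univ_eq_prod_range (fun k => f k) r, Finset.range_eq_Ico,
    Finset.prod_eq_prod_Ico_succ_bot (by omega)]

theorem nrm_Nrm {r : ℕ} (hr : 1 ≤ r) (t : ℕ → Bool → ℕ → ℕ → Rˣ) : Nrm r (nrm r t) := by
  intro i b
  rw [prod_diag hr (fun k => ((nrm r t i b k k : Rˣ) : R))]
  have h1 : ∏ l ∈ Finset.Ico 1 r, ((nrm r t i b l l : Rˣ) : R) =
      ((∏ l ∈ Finset.Ico 1 r, t i b l l : Rˣ) : R) := by
    rw [Units.coe_prod]
    refine Finset.prod_congr rfl fun l hl => ?_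
    rw [Finset.mem_Ico] at hl
    rw [nrm, if_neg (by omega)]
  have h2 : nrm r t i b 0 0 = dJ R r / ∏ l ∈ Finset.Ico 1 r, t i b l l := by
    rw [nrm, if_pos ⟨rfl, rfl⟩]
  rw [h1, h2, ← Units.val_mul, div_mul_cancel]
  rfl

theorem nrm_eq {r : ℕ} (hr : 1 ≤ r) {t : ℕ → Bool → ℕ → ℕ → Rˣ} (h : Nrm r t) : nrm r t = t := by
  funext i b j k
  unfold nrm
  split_ifs with hc
  · obtain ⟨rfl, rfl⟩ := hc
    rw [div_eq_iff_eq_mul]
    have h1 := h i b
    rw [prod_diag hr (fun k => ((t i b k k : Rˣ) : R)), ← Units.coe_prod, ← Units.val_mul] at h1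
    exact (Units.ext h1).symm
  · rfl

theorem nrm_mem {Ω : Type*} [Field Ω] (U : Subgroup Ωˣ) (hneg : -1 ∈ U) {r : ℕ}
    {t : ℕ → Bool → ℕ → ℕ → Ωˣ} (ht : ∀ i b j k, t i b j k ∈ U) (i : ℕ) (b : Bool) (j k : ℕ) :
    nrm r t i b j k ∈ U := by
  unfold nrm
  split_ifs
  · exact U.div_mem (dJ_mem U hneg r) (U.prod_mem fun l _ => ht _ _ _ _)
  · exact ht _ _ _ _

theorem solve_diag {M : Type*} [CommGroup M] {r s : ℕ} (hr : 2 ≤ r) (e : ℕ → M)
    (t : ℕ → Bool → ℕ → ℕ → M) (i : ℕ) (b : Bool) (k : ℕ) :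
    solve r s e t i b k k = t i b k k := by
  unfold solve
  rw [if_neg (by omega), mul_one]

theorem Nrm_congr {r : ℕ} {t t' : ℕ → Bool → ℕ → ℕ → Rˣ} (h : ∀ i b k, t i b k k = t' i b k k)
    (ht : Nrm r t) : Nrm r t' := by
  intro i b
  rw [← ht i b]
  exact Finset.prod_congr rfl fun k _ => by rw [h]

end Nrm

theorem universal {Ω : Type} [Field Ω] {r s : ℕ} (hr : 2 ≤ r) (hs : 1 ≤ s) (U : Subgroup Ωˣ)
    (v : Ωˣ) (hv : v ∈ U) (hv' : ∀ n : ℤ, v ^ n = 1 → n = 0) (hneg : -1 ∈ U)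
    (δ : ∀ (A : Type) [CommRing A] [Algebra Ω A], (ℕ → Bool → ℕ → ℕ → Aˣ) → Fin r → Aˣ)
    (hδ : ∀ (A A' : Type) [CommRing A] [Algebra Ω A] [CommRing A'] [Algebra Ω A']
      (φ : A →ₐ[Ω] A') (t : ℕ → Bool → ℕ → ℕ → Aˣ) (k : Fin r),
      Units.map ((φ : A →+* A') : A →* A') (δ A t k) =
        δ A' (fun i b j k => Units.map ((φ : A →+* A') : A →* A') (t i b j k)) k)
    (hδ' : ∀ (A : Type) [CommRing A] [Algebra Ω A] (t t' : ℕ → Bool → ℕ → ℕ → Aˣ),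
      (∀ i b k, t i b k k = t' i b k k) → δ A t = δ A t')
    (hδU : ∀ t : ℕ → Bool → ℕ → ℕ → Ωˣ, (∀ i b j k, t i b j k ∈ U) → ∀ k, δ Ω t k ∈ U)
    (hδ1 : ∀ (A : Type) [CommRing A] [Algebra Ω A] (t : ℕ → Bool → ℕ → ℕ → Aˣ), Nrm r t →
      ∏ k, δ A t k = 1)
    (Φ : ∀ (A : Type) [CommRing A] [Algebra Ω A], (ℕ → Mat r A) → (ℕ → Mat r A) →
      (ℕ → Bool → ℕ → ℕ → Aˣ) → A)
    (hΦ : ∀ (A A' : Type) [CommRing A] [Algebra Ω A] [CommRing A'] [Algebra Ω A']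
      (φ : A →ₐ[Ω] A') (u y : ℕ → Mat r A) (t : ℕ → Bool → ℕ → ℕ → Aˣ),
      φ (Φ A u y t) = Φ A' (fun i => (u i).map φ) (fun i => (y i).map φ)
        (fun i b j k => Units.map ((φ : A →+* A') : A →* A') (t i b j k)))
    (hΦ' : ∀ (A : Type) [CommRing A] [Algebra Ω A] (u y u' y' : ℕ → Mat r A)
      (t : ℕ → Bool → ℕ → ℕ → Aˣ), (∀ i < s, u i = u' i) → (∀ i ≤ s, y i = y' i) →
      Φ A u y t = Φ A u' y' t)
    (hvan : ∀ (t : ℕ → Bool → ℕ → ℕ → Ωˣ) (u y : ℕ → Mat r Ω), (∀ i b j k, t i b j k ∈ U) →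
      Nrm r t → Chart s t u y → InZ s (fun k => (δ Ω t k : Ω)) u y → Φ Ω u y t = 0)
    {E : Type} [Field E] [Algebra Ω E] (t : ℕ → Bool → ℕ → ℕ → Eˣ) (u y : ℕ → Mat r E)
    (hN : Nrm r t) (hC : Chart s t u y) (hZ : InZ s (fun k => (δ E t k : E)) u y) :
    Φ E u y t = 0 := by
  classical
  let tn : ℕ → Bool → ℕ → ℕ → (Lau Ω)ˣ := nrm r tu
  let T : ℕ → Bool → ℕ → ℕ → (Lau Ω)ˣ := solve r s (eseq (δ (Lau Ω) tn)) tn
  obtain ⟨uX, yX, hX⟩ := chart_exists (R := Lau Ω) (r := r) s T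
  set G : Lau Ω := Φ (Lau Ω) uX yX T with hG
  -- the specialisations
  have hT : ∀ {A : Type} [CommRing A] [Algebra Ω A] (τ : Idx → Aˣ),
      (fun i b j k => Units.map ((ev (Ω := Ω) τ : Lau Ω →+* A) : Lau Ω →* A) (T i b j k)) =
      solve r s (eseq (δ A (nrm r fun i b j k => τ (i, b, j, k))))
        (nrm r fun i b j k => τ (i, b, j, k)) := by
    intro A _ _ τ
    have h1 : (fun i b j k => Units.map ((ev (Ω := Ω) τ : Lau Ω →+* A) : Lau Ω →* A)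
        (tn i b j k)) = nrm r fun i b j k => τ (i, b, j, k) := by
      have := nrm_map (ev (Ω := Ω) τ : Lau Ω →+* A) r (tu (Ω := Ω))
      rw [this]
      congr 1
      funext i b j k
      exact ev_tu τ i b j k
    have h2 : (fun k => Units.map ((ev (Ω := Ω) τ : Lau Ω →+* A) : Lau Ω →* A)
        (eseq (δ (Lau Ω) tn) k)) = eseq (δ A (nrm r fun i b j k => τ (i, b, j, k))) := by
      funext k
      rw [eseq_map]
      congr 1
      funext i
      rw [hδ (Lau Ω) A (ev τ) tn i, h1]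
    funext i b j k
    change Units.map ((ev (Ω := Ω) τ : Lau Ω →+* A) : Lau Ω →* A)
      (solve r s (eseq (δ (Lau Ω) tn)) tn i b j k) = _
    rw [solve_map, h2, h1]
  have hGev : ∀ {A : Type} [CommRing A] [Algebra Ω A] (τ : Idx → Aˣ),
      ev τ G = Φ A (fun i => (uX i).map (ev (Ω := Ω) τ : Lau Ω →+* A))
        (fun i => (yX i).map (ev (Ω := Ω) τ : Lau Ω →+* A))
        (solve r s (eseq (δ A (nrm r fun i b j k => τ (i, b, j, k))))
          (nrm r fun i b j k => τ (i, b, j, k))) := by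
    intro A _ _ τ
    rw [← hT τ]
    exact hΦ (Lau Ω) A (ev τ) uX yX T
  have hG0 : G = 0 := by
    refine eq_zero_of_ev U v hv hv' G fun τ hτ => ?_
    have h5 := hX.map ((ev (Ω := Ω) τ : Lau Ω →ₐ[Ω] Ω) : Lau Ω →+* Ω)
    rw [hT τ] at h5
    rw [hGev τ]
    have hnU : ∀ i b j k, nrm r (fun i b j k => τ (i, b, j, k)) i b j k ∈ U :=
      nrm_mem U hneg fun i b j k => hτ _
    have hdiag : ∀ i b k, nrm r (fun i b j k => τ (i, b, j, k)) i b k k =
        solve r s (eseq (δ Ω (nrm r fun i b j k => τ (i, b, j, k))))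
          (nrm r fun i b j k => τ (i, b, j, k)) i b k k :=
      fun i b k => (solve_diag hr _ _ i b k).symm
    have hNn := nrm_Nrm (R := Ω) (r := r) (by omega) (fun i b j k => τ (i, b, j, k))
    refine hvan _ _ _ ?_ (Nrm_congr hdiag hNn) h5 ?_
    · intro i b j k
      exact Yd.solve_mem U r s _ _ (Yd.eseq_mem U _ (hδU _ hnU)) hnU i b j k
    · rw [← hδ' Ω _ _ hdiag]
      exact inZ_of_chart h5 _ (hδ1 Ω _ hNn) (fun k hk => Pk_solve hs _ _ (eseq_zero _) hk)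
  -- the given point
  let τ : Idx → Eˣ := fun p => t p.1 p.2.1 p.2.2.1 p.2.2.2
  have hn : nrm r (fun i b j k => τ (i, b, j, k)) = t := nrm_eq (by omega) hN
  have hsol : solve r s (eseq (δ E t)) t = t :=
    solve_eq _ _ fun k hk => Pk_of_inZ hC (δ E t) hZ hk.le
  have h5 := hX.map ((ev (Ω := Ω) τ : Lau Ω →ₐ[Ω] E) : Lau Ω →+* E)
  rw [hT τ, hn, hsol] at h5
  obtain ⟨h7, h8⟩ := hC.unique h5
  have h9 := hGev (A := E) τ
  rw [hn, hsol, hG0, map_zero] at h9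
  rw [hΦ' E u y _ _ t h7 h8]
  exact h9.symm

end Pool.Agent.MP_3f0e22_ag.UN

namespace Pool.Agent.MP_3f0e22_ag

alias universal := UN.universal

end Pool.Agent.MP_3f0e22_ag
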