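import Pool.Agent.MP_3f0e22_ag.FRd
import Pool.Agent.MP_3f0e22_ag.RHa
import Pool.Agent.MP_3f0e22_ag.RHb
import Pool.Agent.MP_3f0e22_ag.KRb
import Pool.Agent.MP_3f0e22_ag.UN
import Pool.Agent.MP_3f0e22_ag.TR

/-! # MP_3f0e22_ag: all the blocks -/
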