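import Pool.Agent.MP_3f0e22_ag.Defs2
import Pool.Agent.MP_3f0e22_ag.Ch

/-! # MP_3f0e22_ag, version 2: assembly, part 1: explicit formulas and base change -/

set_option autoImplicit false

open Matrix MvPolynomial

namespace Pool.Agent.MP_3f0e22_ag.Asm

section

variable {R : Type*} [CommRing R] {R' : Type*} [CommRing R'] {r : ℕ}

theorem Q_map (φ : R →+* R') (u y : ℕ → Mat r R) (i : ℕ) :
    (Q u y i).map φ = Q (fun i => (u i).map φ) (fun i => (y i).map φ) i := by
  induction i with
  | zero => simp [Q]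
  | succ i ih => rw [Q, Q, Matrix.map_mul, Matrix.map_mul, ih]

theorem Q_congr {u y u' y' : ℕ → Mat r R} {i : ℕ} (hu : ∀ j < i, u j = u' j)
    (hy : ∀ j < i, y j = y' j) : Q u y i = Q u' y' i := by
  induction i with
  | zero => rfl
  | succ i ih =>
    rw [Q, Q, hu i (by omega), hy i (by omega), ih (fun j hj => hu j (by omega))
      fun j hj => hy j (by omega)]

theorem InZ_congr {s : ℕ} {δ : Fin r → R} {u y u' y' : ℕ → Mat r R} (h : InZ s δ u y)
    (hu : ∀ j < s, u j = u' j) (hy : ∀ j ≤ s, y j = y' j) : InZ s δ u' y' := by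
  have hQ : Q u' y' s = Q u y s := (Q_congr hu fun j hj => hy j (by omega)).symm
  refine ⟨fun i hi => hy i hi ▸ h.low i hi, fun i hi => hu i hi ▸ h.up i hi, ?_, ?_⟩
  · intro i j hij
    rw [hQ, ← hy s le_rfl]; exact h.zero i j hij
  · intro i
    rw [hQ, ← hy s le_rfl]; exact h.diag i

theorem det_Q (s : ℕ) (u y : ℕ → Mat r R) (hy : ∀ i < s, LowU (y i)) (hu : ∀ i < s, UpU (u i)) :
    (Q u y s).det = 1 := by
  induction s with
  | zero => simp [Q]
  | succ s ih =>
    rw [Q, det_mul, det_mul, ih (fun i hi => hy i (by omega)) fun i hi => hu i (by omega),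
      (hu s (by omega)).det, (hy s (by omega)).det]
    simp

theorem InZ.prod_diag {s : ℕ} {δ : Fin r → R} {u y : ℕ → Mat r R} (h : InZ s δ u y) :
    ∏ k, δ k = 1 := by
  have h1 : (y s * Q u y s).det = 1 := by
    rw [det_mul, (h.low s le_rfl).det, det_Q s u y (fun i hi => h.low i hi.le) h.up, one_mul]
  rw [det_of_isUpperTriangular (M := y s * Q u y s) (fun i j hij => h.zero i j hij)] at h1
  rw [← h1]
  exact Finset.prod_congr rfl fun k _ => (h.diag k).symm

theorem adj_map (φ : R →+* R') (M : Mat r R) : M.adjugate.map φ = (M.map φ).adjugate :=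
  φ.map_adjugate M

theorem Jm_map (φ : R →+* R') : (Jm R r).map φ = Jm R' r := by
  ext i j
  simp only [Jm, submatrix_apply, Matrix.map_apply, id, Matrix.one_apply]
  split_ifs <;> simp

theorem Cm_map (φ : R →+* R') (g : Mat r R) (u y : ℕ → Mat r R) (i : ℕ) :
    (Cm g u y i).map φ = Cm (g.map φ) (fun i => (u i).map φ) (fun i => (y i).map φ) i := by
  simp only [Cm, Matrix.map_mul, adj_map, Q_map]

theorem Ci_map (φ : R →+* R') (g : Mat r R) (u y : ℕ → Mat r R) (i : ℕ) :
    (Ci g u y i).map φ = Ci (g.map φ) (fun i => (u i).map φ) (fun i => (y i).map φ) i := by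
  simp only [Ci, Matrix.map_mul, adj_map, Q_map]

theorem Hm_map (φ : R →+* R') (g : Mat r R) (u y : ℕ → Mat r R) (i : ℕ) :
    (Hm g u y i).map φ = Hm (g.map φ) (fun i => (u i).map φ) (fun i => (y i).map φ) i := by
  simp only [Hm, Matrix.map_mul, adj_map, Q_map]

theorem Hi_map (φ : R →+* R') (g : Mat r R) (u y : ℕ → Mat r R) (i : ℕ) :
    (Hi g u y i).map φ = Hi (g.map φ) (fun i => (u i).map φ) (fun i => (y i).map φ) i := by
  simp only [Hi, Matrix.map_mul, adj_map, Q_map]

theorem al_map (φ : R →+* R') (g : Mat r R) (u y : ℕ → Mat r R) (i : ℕ) (t : Fin r → R) :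
    (al g u y i t).map φ =
      al (g.map φ) (fun i => (u i).map φ) (fun i => (y i).map φ) i (fun k => φ (t k)) := by
  simp only [al, Matrix.map_mul, Hm_map, Hi_map, Jm_map]
  rw [diagonal_map (map_zero φ)]

theorem be_map (φ : R →+* R') (g : Mat r R) (u y : ℕ → Mat r R) (i : ℕ) (t : Fin r → R) :
    (be g u y i t).map φ =
      be (g.map φ) (fun i => (u i).map φ) (fun i => (y i).map φ) i (fun k => φ (t k)) := by
  simp only [be, Matrix.map_mul, Cm_map, Ci_map, Jm_map]
  rw [diagonal_map (map_zero φ)]

/-- The first matrix of a handle. -/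
def xf (g : Mat r R) (u y : ℕ → Mat r R) (i : ℕ) (a b : Fin r → Rˣ) : Mat r R :=
  (al g u y i fun k => (a k : R)).adjugate * (be g u y i fun k => (b k : R)).adjugate *
    al g u y i fun k => (a k : R)

/-- The second matrix of a handle. -/
def yf (g : Mat r R) (u y : ℕ → Mat r R) (i : ℕ) (a b : Fin r → Rˣ) : Mat r R :=
  (al g u y i fun k => (a k : R)).adjugate * (be g u y i fun k => (b k : R)) *
    (al g u y i fun k => (a k : R)) * (be g u y i fun k => (b k : R)).adjugate *
    al g u y i fun k => (a k : R)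

/-- The matrix of a puncture. -/
def af (g : Mat r R) (u y : ℕ → Mat r R) (i : ℕ) (t : Fin r → Rˣ) : Mat r R :=
  Cm g u y i * diagonal (fun k => (t k : R)) * Hi g u y i

theorem xf_map (φ : R →+* R') (g : Mat r R) (u y : ℕ → Mat r R) (i : ℕ) (a b : Fin r → Rˣ) :
    (xf g u y i a b).map φ =
      xf (g.map φ) (fun i => (u i).map φ) (fun i => (y i).map φ) i
        (fun k => Units.map (φ : R →* R') (a k)) (fun k => Units.map (φ : R →* R') (b k)) := by
  simp only [xf, Matrix.map_mul, adj_map, al_map, be_map]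
  rfl

theorem yf_map (φ : R →+* R') (g : Mat r R) (u y : ℕ → Mat r R) (i : ℕ) (a b : Fin r → Rˣ) :
    (yf g u y i a b).map φ =
      yf (g.map φ) (fun i => (u i).map φ) (fun i => (y i).map φ) i
        (fun k => Units.map (φ : R →* R') (a k)) (fun k => Units.map (φ : R →* R') (b k)) := by
  simp only [yf, Matrix.map_mul, adj_map, al_map, be_map]
  rfl

theorem af_map (φ : R →+* R') (g : Mat r R) (u y : ℕ → Mat r R) (i : ℕ) (t : Fin r → Rˣ) :
    (af g u y i t).map φ =
      af (g.map φ) (fun i => (u i).map φ) (fun i => (y i).map φ) i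
        (fun k => Units.map (φ : R →* R') (t k)) := by
  simp only [af, Matrix.map_mul, Cm_map, Hi_map]
  rw [diagonal_map (map_zero φ)]
  rfl

/-! ### congruences -/

theorem Cm_congr {g : Mat r R} {u y u' y' : ℕ → Mat r R} {i : ℕ} (hu : ∀ j < i, u j = u' j)
    (hy : ∀ j < i, y j = y' j) : Cm g u y i = Cm g u' y' i := by
  simp only [Cm, Q_congr hu hy]

theorem Ci_congr {g : Mat r R} {u y u' y' : ℕ → Mat r R} {i : ℕ} (hu : ∀ j < i, u j = u' j)
    (hy : ∀ j < i, y j = y' j) : Ci g u y i = Ci g u' y' i := by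
  simp only [Ci, Q_congr hu hy]

theorem Hm_congr {g : Mat r R} {u y u' y' : ℕ → Mat r R} {i : ℕ} (hu : ∀ j < i, u j = u' j)
    (hy : ∀ j ≤ i, y j = y' j) : Hm g u y i = Hm g u' y' i := by
  simp only [Hm, Q_congr hu fun j hj => hy j hj.le, hy i le_rfl]

theorem Hi_congr {g : Mat r R} {u y u' y' : ℕ → Mat r R} {i : ℕ} (hu : ∀ j < i, u j = u' j)
    (hy : ∀ j ≤ i, y j = y' j) : Hi g u y i = Hi g u' y' i := by
  simp only [Hi, Q_congr hu fun j hj => hy j hj.le, hy i le_rfl]

theorem al_congr {g : Mat r R} {u y u' y' : ℕ → Mat r R} {i : ℕ} {t : Fin r → R}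
    (hu : ∀ j ≤ i, u j = u' j) (hy : ∀ j ≤ i + 1, y j = y' j) :
    al g u y i t = al g u' y' i t := by
  simp only [al, Hm_congr (g := g) (fun j hj => hu j (Nat.le_of_lt hj))
    (fun j hj => hy j (by omega : j ≤ i + 1)),
    Hi_congr (g := g) (i := i + 1) (fun j hj => hu j (by omega)) hy]

theorem be_congr {g : Mat r R} {u y u' y' : ℕ → Mat r R} {i : ℕ} {t : Fin r → R}
    (hu : ∀ j ≤ i, u j = u' j) (hy : ∀ j ≤ i + 1, y j = y' j) :
    be g u y i t = be g u' y' i t := by
  simp only [be, Cm_congr (g := g) (i := i) (fun j hj => hu j (Nat.le_of_lt hj))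
    (fun j hj => hy j (by omega : j ≤ i + 1)),
    Ci_congr (g := g) (i := i + 1) (fun j hj => hu j (by omega)) (fun j hj => hy j (by omega))]

theorem xf_congr {g : Mat r R} {u y u' y' : ℕ → Mat r R} {i : ℕ} {a b : Fin r → Rˣ}
    (hu : ∀ j ≤ i, u j = u' j) (hy : ∀ j ≤ i + 1, y j = y' j) :
    xf g u y i a b = xf g u' y' i a b := by
  simp only [xf, al_congr hu hy, be_congr hu hy]

theorem yf_congr {g : Mat r R} {u y u' y' : ℕ → Mat r R} {i : ℕ} {a b : Fin r → Rˣ}
    (hu : ∀ j ≤ i, u j = u' j) (hy : ∀ j ≤ i + 1, y j = y' j) :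
    yf g u y i a b = yf g u' y' i a b := by
  simp only [yf, al_congr hu hy, be_congr hu hy]

theorem af_congr {g : Mat r R} {u y u' y' : ℕ → Mat r R} {i : ℕ} {t : Fin r → Rˣ}
    (hu : ∀ j < i, u j = u' j) (hy : ∀ j ≤ i, y j = y' j) :
    af g u y i t = af g u' y' i t := by
  simp only [af, Cm_congr (g := g) hu (fun j hj => hy j (Nat.le_of_lt hj)), Hi_congr (g := g) hu hy]

/-! ### The word with a given shape -/

/-- The shape: `g` handles, and punctures with eigenvalues `T i`. -/
def shp (g : ℕ) {m : ℕ} (T : Fin m → Fin r → Rˣ) : List (Option (Fin r → Rˣ)) :=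
  List.replicate g none ++ List.ofFn fun i => some (T i)

theorem word_pts (g₀ : Mat r R) (u y : ℕ → Mat r R) (t : ℕ → Bool → ℕ → ℕ → Rˣ) {m : ℕ}
    (T : Fin m → Fin r → Rˣ) (i : ℕ) :
    word g₀ u y i (mkL t i (List.ofFn fun i => some (T i))) =
      List.ofFn fun j : Fin m => Letter.pt (af g₀ u y (i + j) (T j)) := by
  induction m generalizing i with
  | zero => simp [mkL, word]
  | succ m ih =>
    rw [List.ofFn_succ, List.ofFn_succ, mkL, word]
    congr 1
    change word g₀ u y (i + 1) _ = _
    rw [ih]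
    congr 1
    funext j
    simp only [Fin.val_succ]
    rw [show i + 1 + (j : ℕ) = i + (j + 1) by omega]

theorem word_shp (g₀ : Mat r R) (u y : ℕ → Mat r R) (t : ℕ → Bool → ℕ → ℕ → Rˣ) (g : ℕ) {m : ℕ}
    (T : Fin m → Fin r → Rˣ) (i : ℕ) :
    word g₀ u y i (mkL t i (shp g T)) =
      sword (fun j : Fin g => xf g₀ u y (i + 2 * j) (fun k => t (i + 2 * j) false k k)
          fun k => t (i + 2 * j) true k k)
        (fun j : Fin g => yf g₀ u y (i + 2 * j) (fun k => t (i + 2 * j) false k k)
          fun k => t (i + 2 * j) true k k)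
        (fun j : Fin m => af g₀ u y (i + 2 * g + j) (T j)) := by
  induction g generalizing i with
  | zero =>
    simp only [shp, List.replicate_zero, List.nil_append, sword, List.ofFn_zero]
    rw [word_pts]
    simp
  | succ g ih =>
    have h1 : shp (g + 1) T = none :: shp g T := by
      simp [shp, List.replicate_succ]
    rw [h1, mkL, word]
    change _ :: word g₀ u y (i + 2) _ = _
    rw [ih]
    have e1 : ∀ j : ℕ, i + 2 + 2 * j = i + 2 * (j + 1) := fun j => by omega
    have e2 : ∀ j : ℕ, i + 2 + 2 * g + j = i + 2 * (g + 1) + j := fun j => by omega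
    simp only [e1, sword, List.ofFn_succ (n := g), List.cons_append, Fin.val_succ,
      Fin.val_zero, Nat.mul_zero, Nat.add_zero]
    rfl

theorem llen_mkL (t : ℕ → Bool → ℕ → ℕ → Rˣ) (g : ℕ) {m : ℕ} (T : Fin m → Fin r → Rˣ) (i : ℕ) :
    llen (mkL t i (shp g T)) = 2 * g + m := by
  induction g generalizing i with
  | zero =>
    simp only [shp, List.replicate_zero, List.nil_append]
    induction m generalizing i with
    | zero => simp [mkL, llen]
    | succ m ih =>
      have := ih (fun j => T j.succ) (i + 1)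
      rw [List.ofFn_succ, mkL]
      simp only [llen, List.map_cons, List.sum_cons, LP.len] at this ⊢
      omega
  | succ g ih =>
    have h1 : shp (g + 1) T = none :: shp g T := by
      simp [shp, List.replicate_succ]
    have := ih (i + 2)
    rw [h1, mkL]
    simp only [llen, List.map_cons, List.sum_cons, LP.len] at this ⊢
    omega

theorem mkL_OK (t : ℕ → Bool → ℕ → ℕ → Rˣ) (ht : Nrm r t) (sh : List (Option (Fin r → Rˣ)))
    (i : ℕ) : ∀ p ∈ mkL t i sh, p.OK := by
  induction sh generalizing i with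
  | nil => simp [mkL]
  | cons c sh ih =>
    rcases c with _ | c
    · rw [mkL]
      intro p hp
      rcases List.mem_cons.1 hp with rfl | hp
      · exact ⟨ht i false, ht i true⟩
      · exact ih _ p hp
    · rw [mkL]
      intro p hp
      rcases List.mem_cons.1 hp with rfl | hp
      · trivial
      · exact ih _ p hp

theorem mkL_map (φ : R →+* R') (t : ℕ → Bool → ℕ → ℕ → Rˣ) (g : ℕ) {m : ℕ}
    (T : Fin m → Fin r → Rˣ) (i : ℕ) :
    (mkL t i (shp g T)).map (LP.map φ) =
      mkL (fun i b j k => Units.map (φ : R →* R') (t i b j k)) i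
        (shp g fun i k => Units.map (φ : R →* R') (T i k)) := by
  induction g generalizing i with
  | zero =>
    simp only [shp, List.replicate_zero, List.nil_append]
    induction m generalizing i with
    | zero => simp [mkL]
    | succ m ih =>
      rw [List.ofFn_succ, List.ofFn_succ, mkL, mkL, List.map_cons, ih]
      rfl
  | succ g ih =>
    have h1 : shp (g + 1) T = none :: shp g T := by
      simp [shp, List.replicate_succ]
    have h2 : shp (g + 1) (fun i k => Units.map (φ : R →* R') (T i k)) =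
        none :: shp g (fun i k => Units.map (φ : R →* R') (T i k)) := by
      simp [shp, List.replicate_succ]
    rw [h1, h2, mkL, mkL, List.map_cons, ih]
    rfl

theorem mkL_congr {t t' : ℕ → Bool → ℕ → ℕ → Rˣ} (h : ∀ i b k, t i b k k = t' i b k k)
    (sh : List (Option (Fin r → Rˣ))) (i : ℕ) : mkL t i sh = mkL t' i sh := by
  induction sh generalizing i with
  | nil => rfl
  | cons c sh ih =>
    rcases c with _ | c
    · rw [mkL, mkL, ih]
      simp only [h]
    · rw [mkL, mkL, ih]

/-! ### The parameters of a list -/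

/-- The shape of a list of parameters. -/
def shapeOf : List (LP r R) → List (Option (Fin r → Rˣ))
  | [] => []
  | .pt t :: L => some t :: shapeOf L
  | .hd _ _ :: L => none :: shapeOf L

/-- The parameter `k`. -/
def fx (J : Rˣ) (a : Option (Fin r → Rˣ)) (k : ℕ) : Rˣ :=
  match a with
  | none => if k = 0 then J else 1
  | some a => if h : k < r then a ⟨k, h⟩ else 1

/-- The parameters of the handles of a list. -/
def tOf (J : Rˣ) : List (LP r R) → ℕ → ℕ → Bool → ℕ → Rˣ
  | [], _, _, _, k => fx J (none : Option (Fin r → Rˣ)) k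
  | .pt _ :: L, i, n, b, k => if n = i then fx J (none : Option (Fin r → Rˣ)) k else tOf J L (i + 1) n b k
  | .hd c d :: L, i, n, b, k =>
      if n = i then fx J (some (if b then d else c)) k else tOf J L (i + 2) n b k

theorem mkL_shapeOf (J : Rˣ) (L : List (LP r R)) (i : ℕ) (t : ℕ → Bool → ℕ → ℕ → Rˣ)
    (h : ∀ n, i ≤ n → ∀ b k, t n b k k = tOf J L i n b k) : mkL t i (shapeOf L) = L := by
  induction L generalizing i with
  | nil => rfl
  | cons p L ih =>
    rcases p with c | ⟨c, d⟩
    · rw [shapeOf, mkL, ih]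
      intro n hn b k
      rw [h n (by omega), tOf, if_neg (by omega)]
    · rw [shapeOf, mkL, ih]
      · congr 2
        · funext k
          rw [h i le_rfl, tOf, if_pos rfl]
          simp [fx]
        · funext k
          rw [h i le_rfl, tOf, if_pos rfl]
          simp [fx]
      · intro n hn b k
        rw [h n (by omega), tOf, if_neg (by omega)]

theorem prod_fx (J : Rˣ) (hr : 1 ≤ r) :
    ∏ k : Fin r, (fx J (none : Option (Fin r → Rˣ)) k : R) = J := by
  obtain ⟨q, rfl⟩ : ∃ q, r = q + 1 := ⟨r - 1, by omega⟩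
  rw [Fin.prod_univ_succ]
  simp [fx]

theorem tOf_prod (hr : 1 ≤ r) (J : Rˣ) (hJ : (J : R) = (Jm R r).det) (L : List (LP r R))
    (hL : ∀ p ∈ L, p.OK) (i n : ℕ) (b : Bool) :
    ∏ k : Fin r, (tOf J L i n b k : R) = (Jm R r).det := by
  induction L generalizing i with
  | nil => simpa only [tOf, hJ] using prod_fx J hr
  | cons p L ih =>
    have ih' := ih (fun p hp => hL p (List.mem_cons_of_mem _ hp))
    have hp := hL p List.mem_cons_self
    rcases p with c | ⟨c, d⟩
    · by_cases hn : n = i
      · simp only [tOf, if_pos hn]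
        rw [prod_fx J hr, hJ]
      · simp only [tOf, if_neg hn]
        exact ih' _
    · by_cases hn : n = i
      · simp only [tOf, if_pos hn]
        rcases b with _ | _
        · rw [← hp.1]
          refine Finset.prod_congr rfl fun k _ => ?_
          simp [fx]
        · rw [← hp.2]
          refine Finset.prod_congr rfl fun k _ => ?_
          simp [fx]
      · simp only [tOf, if_neg hn]
        exact ih' _

theorem shapeOf_eq (g₀ : Mat r R) (u y : ℕ → Mat r R) (L : List (LP r R)) (g m i : ℕ)
    (a b : Fin g → Mat r R) (A : Fin m → Mat r R) (h : word g₀ u y i L = sword a b A) :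
    ∃ T : Fin m → Fin r → Rˣ, shapeOf L = shp g T := by
  induction g generalizing i L with
  | zero =>
    simp only [shp, List.replicate_zero, List.nil_append]
    simp only [sword, List.ofFn_zero, List.nil_append] at h
    induction m generalizing i L with
    | zero =>
      refine ⟨fun i => i.elim0, ?_⟩
      rcases L with _ | ⟨p, L⟩
      · simp [shapeOf]
      · simp [word] at h
    | succ m ih =>
      rcases L with _ | ⟨p, L⟩
      · simp [word] at h
      · rw [List.ofFn_succ, word] at h
        rcases p with c | ⟨c, d⟩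
        · obtain ⟨T, hT⟩ := ih (A := fun j => A j.succ) (L := L) (i := i + 1) (h := (List.cons.inj h).2)
          refine ⟨Fin.cons c T, ?_⟩
          rw [shapeOf, hT, List.ofFn_succ]
          simp
        · simp [LP.letter] at h
  | succ g ih =>
    rcases L with _ | ⟨p, L⟩
    · simp [word, sword, List.ofFn_succ] at h
    · simp only [sword, List.ofFn_succ (n := g), List.cons_append] at h
      rw [word] at h
      rcases p with c | ⟨c, d⟩
      · simp [LP.letter] at h
      · obtain ⟨T, hT⟩ := ih (a := fun j => a j.succ) (b := fun j => b j.succ) (L := L) (i := i + 2)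
          (h := (List.cons.inj h).2)
        refine ⟨T, ?_⟩
        rw [shapeOf, hT]
        simp [shp, List.replicate_succ]

end

end Pool.Agent.MP_3f0e22_ag.Asm
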