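import Pool.Agent.MP_3f0e22_ag.Defs3

/-!
# MP_3f0e22_ag, version 3: PG1 (automorphisms of the matrix algebra, the centre)
-/

set_option autoImplicit false

open Matrix MvPolynomial

namespace Pool.Agent.MP_3f0e22_ag

namespace V3_PG1

section TP

/-- PG1: automorphisms of the matrix algebra are inner -/
theorem exists_inner {Ω : Type} [Field Ω] [IsAlgClosed Ω] {r : ℕ} (hr : 1 ≤ r)
    (φ : Mat r Ω ≃ₐ[Ω] Mat r Ω) :
    ∃ M : Mat r Ω, M.det = 1 ∧ ∀ x, φ x = M * x * M.adjugate := by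
  let e : Module.End Ω (Fin r → Ω) ≃ₐ[Ω] Mat r Ω := LinearMap.toMatrixAlgEquiv'
  let f : Module.End Ω (Fin r → Ω) ≃ₐ[Ω] Module.End Ω (Fin r → Ω) := (e.trans φ).trans e.symm
  obtain ⟨T, hT⟩ := f.eq_linearEquivConjAlgEquiv
  have h1 : e (T : (Fin r → Ω) →ₗ[Ω] (Fin r → Ω)) *
      e (T.symm : (Fin r → Ω) →ₗ[Ω] (Fin r → Ω)) = 1 := by
    rw [← map_mul, Module.End.mul_eq_comp, LinearEquiv.comp_coe, LinearEquiv.symm_trans_self]
    exact map_one e
  set M0 := e (T : (Fin r → Ω) →ₗ[Ω] (Fin r → Ω)) with hM0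
  set M1 := e (T.symm : (Fin r → Ω) →ₗ[Ω] (Fin r → Ω)) with hM1
  have h2 : ∀ x, φ x = M0 * x * M1 := by
    intro x
    have h3 : φ x = e (f (e.symm x)) := by
      simp [f]
    rw [h3, hT, LinearEquiv.conjAlgEquiv_apply, hM0, hM1, ← Module.End.mul_eq_comp,
      ← Module.End.mul_eq_comp, map_mul, map_mul, AlgEquiv.apply_symm_apply, mul_assoc]
  have hdet : M0.det ≠ 0 := by
    intro h0
    have := congrArg Matrix.det h1
    rw [Matrix.det_mul, h0, zero_mul, Matrix.det_one] at this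
    exact zero_ne_one this
  obtain ⟨c, hc⟩ := IsAlgClosed.exists_pow_nat_eq (M0.det)⁻¹ (show 0 < r by omega)
  have hM : (c • M0).det = 1 := by
    rw [Matrix.det_smul, Fintype.card_fin, hc, inv_mul_cancel₀ hdet]
  refine ⟨c • M0, hM, fun x => ?_⟩
  have h4 : (c • M0) * (c • M0).adjugate = 1 := by
    rw [Matrix.mul_adjugate, hM, one_smul]
  have h5 : M1 = c • (c • M0).adjugate := by
    have h6 : M0 * (c • (c • M0).adjugate) = 1 := by
      rw [Matrix.mul_smul, ← Matrix.smul_mul]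
      exact h4
    have h7 : M1 * M0 = 1 := mul_eq_one_comm.1 h1
    calc M1 = M1 * (M0 * (c • (c • M0).adjugate)) := by rw [h6, mul_one]
      _ = c • (c • M0).adjugate := by rw [← mul_assoc, h7, one_mul]
  rw [h2 x, h5, Matrix.mul_smul, Matrix.smul_mul, Matrix.smul_mul]

/-- PG1: the centre -/
theorem eq_smul_of_comm {R : Type*} [CommRing R] {r : ℕ} (hr : 1 ≤ r) (M : Mat r R)
    (h : ∀ x : Mat r R, M * x = x * M) : ∃ c : R, M = c • (1 : Mat r R) := by
  obtain ⟨c, hc⟩ := Matrix.mem_range_scalar_of_commute_single (M := M)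
    (fun i j _ => (h (Matrix.single i j 1)).symm)
  refine ⟨c, ?_⟩
  rw [← hc, Matrix.scalar_apply, Matrix.smul_one_eq_diagonal]

end TP

end V3_PG1

end Pool.Agent.MP_3f0e22_ag

namespace Pool.Agent.MP_3f0e22_ag

alias exists_inner := V3_PG1.exists_inner
alias eq_smul_of_comm := V3_PG1.eq_smul_of_comm

end Pool.Agent.MP_3f0e22_ag
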