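import Pool.Agent.MP_3f0e22_ag.Asm9
import Pool.Agent.MP_3f0e22_ag.VPG1

/-! # MP_3f0e22_ag, version 3: assembly, part 10: `PGL_r` -/

set_option autoImplicit false

open Matrix MvPolynomial NumberField

namespace Pool.Agent.MP_3f0e22_ag.Asm

/-- `PGL_r(R)`, the group of the automorphisms of the algebra of matrices. -/
abbrev PGLr (r : ℕ) (R : Type) [CommRing R] := Mat r R ≃ₐ[R] Mat r R

section

variable {R : Type} [CommRing R] {r : ℕ}

/-- The inner automorphisms. -/
def Ad : (Mat r R)ˣ →* PGLr r R where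
  toFun u := AlgEquiv.ofAlgHom
    { toFun := fun x => (u : Mat r R) * x * ((u⁻¹ : (Mat r R)ˣ) : Mat r R)
      map_one' := by simp
      map_mul' := fun x y => by
        calc (u : Mat r R) * (x * y) * ((u⁻¹ : (Mat r R)ˣ) : Mat r R) =
            (u : Mat r R) * x * 1 * y * ((u⁻¹ : (Mat r R)ˣ) : Mat r R) := by
              rw [mul_one]; simp only [mul_assoc]
          _ = _ := by rw [← u.inv_mul]; simp only [mul_assoc]
      map_zero' := by simp
      map_add' := fun x y => by rw [mul_add, add_mul]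
      commutes' := fun c => by
        rw [← Algebra.commutes, mul_assoc, u.mul_inv, mul_one] }
    { toFun := fun x => ((u⁻¹ : (Mat r R)ˣ) : Mat r R) * x * (u : Mat r R)
      map_one' := by simp
      map_mul' := fun x y => by
        calc ((u⁻¹ : (Mat r R)ˣ) : Mat r R) * (x * y) * (u : Mat r R) =
            ((u⁻¹ : (Mat r R)ˣ) : Mat r R) * x * 1 * y * (u : Mat r R) := by
              rw [mul_one]; simp only [mul_assoc]
          _ = _ := by rw [← u.mul_inv]; simp only [mul_assoc]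
      map_zero' := by simp
      map_add' := fun x y => by rw [mul_add, add_mul]
      commutes' := fun c => by
        rw [← Algebra.commutes, mul_assoc, u.inv_mul, mul_one] }
    (by
      ext x : 1
      change (u : Mat r R) * (((u⁻¹ : (Mat r R)ˣ) : Mat r R) * x * (u : Mat r R)) *
        ((u⁻¹ : (Mat r R)ˣ) : Mat r R) = x
      rw [mul_assoc, mul_assoc, mul_assoc, u.mul_inv, mul_one, ← mul_assoc, u.mul_inv, one_mul])
    (by
      ext x : 1
      change ((u⁻¹ : (Mat r R)ˣ) : Mat r R) * ((u : Mat r R) * x * ((u⁻¹ : (Mat r R)ˣ) : Mat r R)) *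
        (u : Mat r R) = x
      rw [mul_assoc, mul_assoc, mul_assoc, u.inv_mul, mul_one, ← mul_assoc, u.inv_mul, one_mul])
  map_one' := by
    ext x : 1
    change ((1 : (Mat r R)ˣ) : Mat r R) * x * (((1 : (Mat r R)ˣ)⁻¹ : (Mat r R)ˣ) : Mat r R) = x
    rw [inv_one, Units.val_one, one_mul, mul_one]
  map_mul' u v := by
    ext x : 1
    change ((u * v : (Mat r R)ˣ) : Mat r R) * x * (((u * v)⁻¹ : (Mat r R)ˣ) : Mat r R) =
      (u : Mat r R) * ((v : Mat r R) * x * ((v⁻¹ : (Mat r R)ˣ) : Mat r R)) *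
        ((u⁻¹ : (Mat r R)ˣ) : Mat r R)
    rw [_root_.mul_inv_rev, Units.val_mul, Units.val_mul]
    simp only [mul_assoc]

theorem Ad_apply (u : (Mat r R)ˣ) (x : Mat r R) :
    Ad u x = (u : Mat r R) * x * ((u⁻¹ : (Mat r R)ˣ) : Mat r R) := rfl

/-- The unit given by a matrix of determinant `1`. -/
def slU (M : Mat r R) (h : M.det = 1) : (Mat r R)ˣ :=
  ⟨M, M.adjugate, by rw [mul_adjugate, h, one_smul], by rw [adjugate_mul, h, one_smul]⟩

theorem Ad_eq_one (hr : 1 ≤ r) (u : (Mat r R)ˣ) (h : Ad u = 1) : ∃ c : R, (u : Mat r R) = c • (1 : Mat r R) := by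
  refine eq_smul_of_comm hr _ fun x => ?_
  have h1 : Ad u x = x := by rw [h]; rfl
  rw [Ad_apply] at h1
  calc (u : Mat r R) * x = (u : Mat r R) * x * (((u⁻¹ : (Mat r R)ˣ) : Mat r R) * (u : Mat r R)) := by
        rw [u.inv_mul, mul_one]
    _ = _ := by rw [← mul_assoc, h1]

theorem Ad_smul (u v : (Mat r R)ˣ) (c : Rˣ) (h : (u : Mat r R) = (c : R) • (v : Mat r R)) :
    Ad u = Ad v := by
  have h1 : ((u⁻¹ : (Mat r R)ˣ) : Mat r R) = ((c⁻¹ : Rˣ) : R) • ((v⁻¹ : (Mat r R)ˣ) : Mat r R) := by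
    have h2 : (u : Mat r R) * (((c⁻¹ : Rˣ) : R) • ((v⁻¹ : (Mat r R)ˣ) : Mat r R)) = 1 := by
      rw [h, smul_mul_smul_comm, c.mul_inv, v.mul_inv, one_smul]
    calc ((u⁻¹ : (Mat r R)ˣ) : Mat r R) = ((u⁻¹ : (Mat r R)ˣ) : Mat r R) *
          ((u : Mat r R) * (((c⁻¹ : Rˣ) : R) • ((v⁻¹ : (Mat r R)ˣ) : Mat r R))) := by
          rw [h2, mul_one]
      _ = _ := by rw [← mul_assoc, u.inv_mul, one_mul]
  ext x : 1
  rw [Ad_apply, Ad_apply, h1, h]
  simp only [smul_mul_assoc, mul_smul_comm, smul_smul]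
  rw [c.inv_mul, one_smul]

/-- The commutators and the relation. -/
theorem comm_val (x y : Mat r R) (hx : x.det = 1) (hy : y.det = 1) :
    ((slU x hx * slU y hy * (slU x hx)⁻¹ * (slU y hy)⁻¹ : (Mat r R)ˣ) : Mat r R) =
      x * y * x.adjugate * y.adjugate := rfl

theorem units_prod_val {n : ℕ} (f : Fin n → (Mat r R)ˣ) :
    (((List.ofFn f).prod : (Mat r R)ˣ) : Mat r R) = (List.ofFn fun j => (f j : Mat r R)).prod := by
  have h := map_list_prod (Units.coeHom (Mat r R)) (List.ofFn f)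
  rw [List.map_ofFn] at h
  exact h

theorem cval_units {g : ℕ} (x y : Fin g → Mat r R) (hx : ∀ j, (x j).det = 1)
    (hy : ∀ j, (y j).det = 1) :
    (((List.ofFn fun j => slU (x j) (hx j) * slU (y j) (hy j) * (slU (x j) (hx j))⁻¹ *
      (slU (y j) (hy j))⁻¹).prod : (Mat r R)ˣ) : Mat r R) = cval x y := by
  rw [units_prod_val]
  rfl

theorem Ad_rel {g : ℕ} (u v : Fin g → (Mat r R)ˣ) :
    Ad (List.ofFn fun j => u j * v j * (u j)⁻¹ * (v j)⁻¹).prod =
      (List.ofFn fun j => Ad (u j) * Ad (v j) * (Ad (u j))⁻¹ * (Ad (v j))⁻¹).prod := by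
  rw [map_list_prod, List.map_ofFn]
  congr 2
  funext j
  simp only [Function.comp, map_mul, map_inv]

/-- The characteristic polynomial of a multiple. -/
theorem charpoly_units_smul (c : Rˣ) (A : Mat r R) (s : Fin r → R)
    (h : A.charpoly = ∏ k, (Polynomial.X - Polynomial.C (s k))) :
    ((c : R) • A).charpoly = ∏ k, (Polynomial.X - Polynomial.C ((c : R) * s k)) := by
  classical
  set φ : Polynomial R →+* Polynomial R :=
    Polynomial.eval₂RingHom Polynomial.C (Polynomial.C ((c⁻¹ : Rˣ) : R) * Polynomial.X) with hφ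
  have hφX : φ Polynomial.X = Polynomial.C ((c⁻¹ : Rˣ) : R) * Polynomial.X := by
    rw [hφ, Polynomial.coe_eval₂RingHom, Polynomial.eval₂_X]
  have hφC : ∀ a, φ (Polynomial.C a) = Polynomial.C a := by
    intro a
    rw [hφ, Polynomial.coe_eval₂RingHom, Polynomial.eval₂_C]
  have hc : (Polynomial.C (c : R) : Polynomial R) * Polynomial.C ((c⁻¹ : Rˣ) : R) = 1 := by
    rw [← Polynomial.C_mul, c.mul_inv, Polynomial.C_1]
  have h1 : charmatrix ((c : R) • A) = (Polynomial.C (c : R)) • (charmatrix A).map φ := by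
    ext i j : 1
    rw [Matrix.smul_apply, Matrix.map_apply, charmatrix_apply, charmatrix_apply, Matrix.smul_apply,
      map_sub, smul_eq_mul, smul_eq_mul, hφC, mul_sub, ← Polynomial.C_mul]
    congr 1
    by_cases hij : i = j
    · subst hij
      rw [diagonal_apply_eq, hφX, ← mul_assoc, hc, one_mul]
    · rw [diagonal_apply_ne _ hij, map_zero, mul_zero]
  have h2 : ((charmatrix A).map φ).det = φ A.charpoly := by
    rw [Matrix.charpoly, RingHom.map_det]
    rfl
  rw [Matrix.charpoly, h1, det_smul, h2, h, map_prod, Fintype.card_fin]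
  have h3 : (Polynomial.C (c : R) : Polynomial R) ^ r = ∏ _k : Fin r, Polynomial.C (c : R) := by
    rw [Finset.prod_const, Finset.card_univ, Fintype.card_fin]
  rw [h3, ← Finset.prod_mul_distrib]
  refine Finset.prod_congr rfl fun k _ => ?_
  rw [map_sub, hφX, hφC, mul_sub, ← mul_assoc, hc, one_mul, Polynomial.C_mul]

end

end Pool.Agent.MP_3f0e22_ag.Asm
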