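import Pool.Agent.MP_3f0e22_ag.Defs3

set_option autoImplicit false

open Matrix MvPolynomial NumberField

namespace Pool.Agent.MP_3f0e22_ag.V3_G1a

open Polynomial DirectSum

section aux

variable {E : Type*} [Field E] [IsAlgClosed E]

/-- an irreducible polynomial over an algebraically closed field is divisible by some `X - C a` and has
degree one -/
theorem irr_lin (p : E[X]) (hp : Irreducible p) : ∃ a : E, (Polynomial.X - Polynomial.C a) ∣ p ∧
    p.natDegree = 1 := by
  have hd : p.degree = 1 := IsAlgClosed.degree_eq_one_of_irreducible E hp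
  obtain ⟨a, ha⟩ := IsAlgClosed.exists_root p (by rw [hd]; exact one_ne_zero)
  exact ⟨a, Polynomial.dvd_iff_isRoot.2 ha, Polynomial.natDegree_eq_of_degree_eq_some hd⟩

/-- Abstract form: an operator commuting with `f` which has a cyclic vector. -/
theorem exists_cyc_end {r : ℕ} (f : (Fin r → E) →ₗ[E] (Fin r → E)) :
    ∃ (ρ : (Fin r → E) →ₗ[E] (Fin r → E)) (v : Fin r → E), (∀ m, f (ρ m) = ρ (f m)) ∧
      ∀ g : Fin r → E, ∑ k, g k • (ρ ^ (k : ℕ)) v = 0 → g = 0 := by
  classical
  have htors : Module.IsTorsion E[X] (Module.AEval' f) :=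
    Module.AEval.isTorsion_of_finiteDimensional E (Fin r → E) f
  obtain ⟨ι, _, p, hp, e, ⟨φ⟩⟩ := Module.equiv_directSum_of_isTorsion htors
  have hlin := fun i => irr_lin (p i) (hp i)
  choose l hl hdeg using hlin
  let μ : ι → E := fun i => Infinite.natEmbedding E (Fintype.equivFin ι i : ℕ)
  have hμ : Function.Injective μ := by
    intro i j hij
    have h1 := (Infinite.natEmbedding E).injective hij
    exact (Fintype.equivFin ι).injective (Fin.ext h1)
  let Q : ι → Type _ := fun i => E[X] ⧸ (Submodule.span E[X] {p i ^ e i})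
  let ψ : Module.AEval' f ≃ₗ[E[X]] (∀ i, Q i) :=
    φ.trans (DirectSum.linearEquivFunOnFintype E[X] ι Q)
  let T : (∀ i, Q i) →ₗ[E[X]] (∀ i, Q i) :=
    LinearMap.pi (fun i => (Polynomial.X + Polynomial.C (μ i - l i)) • LinearMap.proj i)
  have hT : ∀ x i, T x i = (Polynomial.X + Polynomial.C (μ i - l i)) • x i := fun x i => rfl
  let R' : Module.AEval' f →ₗ[E[X]] Module.AEval' f := ψ.symm.toLinearMap ∘ₗ T ∘ₗ ψ.toLinearMap
  let ρ : (Fin r → E) →ₗ[E] (Fin r → E) :=
    (Module.AEval'.of f).symm.toLinearMap ∘ₗ (R'.restrictScalars E) ∘ₗ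
      (Module.AEval'.of f).toLinearMap
  have hρ : ∀ m, Module.AEval'.of f (ρ m) = R' (Module.AEval'.of f m) := by
    intro m
    show Module.AEval'.of f ((Module.AEval'.of f).symm (R' (Module.AEval'.of f m))) = _
    rw [LinearEquiv.apply_symm_apply]
  have hψρ : ∀ m i, ψ (Module.AEval'.of f (ρ m)) i =
      (Polynomial.X + Polynomial.C (μ i - l i)) • ψ (Module.AEval'.of f m) i := by
    intro m i
    rw [hρ]
    show ψ (ψ.symm (T (ψ (Module.AEval'.of f m)))) i = _
    rw [LinearEquiv.apply_symm_apply, hT]
  have hψpow : ∀ (k : ℕ) m i, ψ (Module.AEval'.of f ((ρ ^ k) m)) i =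
      (Polynomial.X + Polynomial.C (μ i - l i)) ^ k • ψ (Module.AEval'.of f m) i := by
    intro k
    induction k with
    | zero => intro m i; simp
    | succ k ih =>
      intro m i
      rw [pow_succ', Module.End.mul_apply, hψρ, ih, smul_smul, ← pow_succ']
  let w : ∀ i, Q i := fun i => Submodule.Quotient.mk 1
  refine ⟨ρ, (Module.AEval'.of f).symm (ψ.symm w), ?_, ?_⟩
  · intro m
    apply (Module.AEval'.of f).injective
    rw [← Module.AEval'.X_smul_of, hρ, ← map_smul, Module.AEval'.X_smul_of, ← hρ]
  · intro g hg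
    let G : E[X] := ∑ k : Fin r, Polynomial.C (g k) * Polynomial.X ^ (k : ℕ)
    have hGcoeff : ∀ k : Fin r, G.coeff k = g k := by
      intro k
      simp only [G, Polynomial.finsetSum_coeff, Polynomial.coeff_C_mul, Polynomial.coeff_X_pow]
      rw [Finset.sum_eq_single k]
      · simp
      · intro b _ hb
        rw [if_neg, mul_zero]
        intro h; exact hb (Fin.ext h.symm)
      · intro h; exact absurd (Finset.mem_univ _) h
    have hGdeg : G.degree < r := by
      rw [Polynomial.degree_lt_iff_coeff_zero]
      intro m hm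
      simp only [G, Polynomial.finsetSum_coeff, Polynomial.coeff_C_mul, Polynomial.coeff_X_pow]
      refine Finset.sum_eq_zero fun k _ => ?_
      rw [if_neg, mul_zero]
      have := k.2
      omega
    have hdvd : ∀ i, (Polynomial.X - Polynomial.C (μ i)) ^ e i ∣ G := by
      intro i
      have h1 : ψ (Module.AEval'.of f (∑ k, g k • (ρ ^ (k : ℕ))
          ((Module.AEval'.of f).symm (ψ.symm w)))) i = 0 := by
        rw [hg]; simp
      have h2 : ψ (Module.AEval'.of f (∑ k, g k • (ρ ^ (k : ℕ))
          ((Module.AEval'.of f).symm (ψ.symm w)))) i =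
          (G.comp (Polynomial.X + Polynomial.C (μ i - l i))) • w i := by
        rw [map_sum, map_sum, Finset.sum_apply]
        have h3 : G.comp (Polynomial.X + Polynomial.C (μ i - l i)) =
            ∑ k : Fin r, Polynomial.C (g k) *
              (Polynomial.X + Polynomial.C (μ i - l i)) ^ (k : ℕ) := by
          simp only [G, Polynomial.sum_comp, Polynomial.mul_comp, Polynomial.C_comp,
            Polynomial.pow_comp, Polynomial.X_comp]
        rw [h3, Finset.sum_smul]
        refine Finset.sum_congr rfl fun k _ => ?_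
        rw [map_smul, ← Module.AEval.C_smul, map_smul, Pi.smul_apply, hψpow,
          LinearEquiv.apply_symm_apply, LinearEquiv.apply_symm_apply, smul_smul]
      rw [h2] at h1
      have h4 : (Submodule.Quotient.mk (G.comp (Polynomial.X + Polynomial.C (μ i - l i))) : Q i) = 0 := by
        rw [← h1]
        show _ = _ • (Submodule.Quotient.mk 1 : Q i)
        rw [← Submodule.Quotient.mk_smul, smul_eq_mul, mul_one]
      rw [Submodule.Quotient.mk_eq_zero, Submodule.mem_span_singleton] at h4
      obtain ⟨a, ha⟩ := h4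
      have h5 : (Polynomial.X - Polynomial.C (l i)) ^ e i ∣
          G.comp (Polynomial.X + Polynomial.C (μ i - l i)) := by
        rw [← ha, smul_eq_mul]
        exact (pow_dvd_pow_of_dvd (hl i) _).mul_left a
      obtain ⟨b, hb⟩ := h5
      refine ⟨b.comp (Polynomial.X - Polynomial.C (μ i - l i)), ?_⟩
      have h6 := congrArg (fun q : E[X] => q.comp (Polynomial.X - Polynomial.C (μ i - l i))) hb
      simp only [Polynomial.comp_assoc, Polynomial.add_comp, Polynomial.X_comp, Polynomial.C_comp,
        sub_add_cancel, Polynomial.comp_X, Polynomial.mul_comp, Polynomial.pow_comp,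
        Polynomial.sub_comp] at h6
      rw [h6]
      congr 2
      rw [sub_sub, ← Polynomial.C_add, sub_add_cancel]
    have hprod : ∏ i, (Polynomial.X - Polynomial.C (μ i)) ^ e i ∣ G := by
      apply Finset.prod_dvd_of_coprime
      · intro i _ j _ hij
        exact (Polynomial.pairwise_coprime_X_sub_C hμ hij).pow
      · intro i _; exact hdvd i
    have hQfin : ∀ i, Module.Finite E (Q i) := by
      intro i
      have hsurj : Function.Surjective
          (((LinearMap.proj i).comp ψ.toLinearMap).restrictScalars E : Module.AEval' f →ₗ[E] Q i) := by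
        intro y
        refine ⟨ψ.symm (Function.update 0 i y), ?_⟩
        show ψ (ψ.symm (Function.update 0 i y)) i = y
        rw [LinearEquiv.apply_symm_apply, Function.update_self]
      exact Module.Finite.of_surjective _ hsurj
    have hrank : r = ∑ i, e i := by
      have h1 : Module.finrank E (Fin r → E) = Module.finrank E (∀ i, Q i) :=
        LinearEquiv.finrank_eq ((Module.AEval'.of f).trans (ψ.restrictScalars E))
      rw [Module.finrank_fin_fun, Module.finrank_pi_fintype] at h1
      rw [h1]
      refine Finset.sum_congr rfl fun i _ => ?_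
      have h2 : Module.finrank E (E[X] ⧸ Ideal.span {p i ^ e i}) = (p i ^ e i).natDegree :=
        finrank_quotient_span_eq_natDegree
      rw [Polynomial.natDegree_pow, hdeg i, mul_one] at h2
      exact h2
    have hG0 : G = 0 := by
      by_contra hne
      have h1 := Polynomial.degree_le_of_dvd hprod hne
      have h2 : (∏ i, (Polynomial.X - Polynomial.C (μ i)) ^ e i : E[X]).degree = (r : WithBot ℕ) := by
        rw [Polynomial.degree_prod, hrank]
        push_cast
        refine Finset.sum_congr rfl fun i _ => ?_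
        rw [Polynomial.degree_pow, Polynomial.degree_X_sub_C]
        simp
      rw [h2] at h1
      exact absurd (lt_of_le_of_lt h1 hGdeg) (lt_irrefl _)
    funext k
    rw [← hGcoeff k, hG0]; simp

end aux

/-- G1a -/
theorem exists_cyc {E : Type*} [Field E] [IsAlgClosed E] {r : ℕ} (A : Mat r E) :
    ∃ R : Mat r E, A * R = R * A ∧ Cyc R := by
  obtain ⟨ρ, v, hcomm, hv⟩ := exists_cyc_end (Matrix.toLin' A)
  have hpow : ∀ k : ℕ, (LinearMap.toMatrix' ρ ^ k) *ᵥ v = (ρ ^ k) v := by
    intro k
    induction k with
    | zero => simp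
    | succ k ih =>
      rw [pow_succ', ← Matrix.mulVec_mulVec, ih, LinearMap.toMatrix'_mulVec, pow_succ',
        Module.End.mul_apply]
  refine ⟨LinearMap.toMatrix' ρ, ?_, v, ?_⟩
  · apply Matrix.toLin'.injective
    rw [Matrix.toLin'_mul, Matrix.toLin'_mul, Matrix.toLin'_toMatrix']
    exact LinearMap.ext fun x => hcomm x
  · intro hdet
    rw [← Matrix.exists_mulVec_eq_zero_iff] at hdet
    obtain ⟨g, hg, hg0⟩ := hdet
    apply hg
    apply hv
    funext i
    have h1 := congrFun hg0 i
    rw [Matrix.mulVec, dotProduct] at h1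
    rw [Finset.sum_apply]
    simp only [Matrix.of_apply, hpow, Pi.zero_apply] at h1 ⊢
    rw [← h1]
    refine Finset.sum_congr rfl fun k _ => ?_
    rw [Pi.smul_apply, smul_eq_mul, mul_comm]

end Pool.Agent.MP_3f0e22_ag.V3_G1a

namespace Pool.Agent.MP_3f0e22_ag

alias exists_cyc := V3_G1a.exists_cyc

end Pool.Agent.MP_3f0e22_ag
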