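import Pool.Agent.MP_3f0e22_ag.Defs2
import Pool.Agent.MP_3f0e22_ag.Ba

set_option autoImplicit false

open Matrix

namespace Pool.Agent.MP_3f0e22_ag.S4

variable {K E : Type*} [Field K] [Field E] [Algebra K E] {r : ℕ}

/-- If all the entries but one and the determinant are in `F`, and the cofactor is not zero, the
last entry is in `F`. -/
theorem s4_entry {m : ℕ} (F : IntermediateField K E) (A : Mat m E) (i₀ j₀ : Fin m)
    (hA : ∀ i j, (i, j) ≠ (i₀, j₀) → A i j ∈ F) (hd : A.det ∈ F)
    (hc : A.adjugate j₀ i₀ ≠ 0) : A i₀ j₀ ∈ F := by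
  have hadj : ∀ j, A.adjugate j i₀ ∈ F := by
    intro j
    rw [Matrix.adjugate_apply]
    refine det_mem_of F _ fun a b => ?_
    rw [Matrix.updateRow_apply]
    split_ifs with h
    · rw [Pi.single_apply]
      split_ifs
      · exact one_mem F
      · exact zero_mem F
    · exact hA a b fun h1 => h (Prod.mk.inj h1).1
  have h1 : A.det = ∑ j, A i₀ j * A.adjugate j i₀ := by
    have h2 := congrFun (congrFun (Matrix.mul_adjugate A) i₀) i₀
    rw [Matrix.mul_apply, Matrix.smul_apply, Matrix.one_apply_eq, smul_eq_mul, mul_one] at h2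
    exact h2.symm
  rw [← Finset.add_sum_erase _ _ (Finset.mem_univ j₀)] at h1
  have h2 : A i₀ j₀ = (A.det - ∑ j ∈ Finset.univ.erase j₀, A i₀ j * A.adjugate j i₀) /
      A.adjugate j₀ i₀ := by
    rw [eq_div_iff hc, h1]
    ring
  rw [h2]
  refine div_mem (sub_mem hd (sum_mem fun j hj => mul_mem (hA _ _ ?_) (hadj j))) (hadj j₀)
  intro h3
  exact (Finset.ne_of_mem_erase hj) (Prod.mk.inj h3).2

theorem boundE (B : Set E) (M N c : Mat r E) (hM : ent M ⊆ acl K B) (hMd : M.det ≠ 0)
    (hN : ent N ⊆ acl K B) (hNd : N.det ≠ 0) (hc : c.det = 1) {k : ℕ} (hk : k < r)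
    (h : D k (M * c * N) = 0) : Bd K B (ent c) (r ^ 2 - 2) := by
  classical
  set C := M * c * N with hC
  have hCd : C.det = M.det * N.det := by
    rw [hC, Matrix.det_mul, Matrix.det_mul, hc, mul_one]
  have hC0 : C.det ≠ 0 := by rw [hCd]; exact mul_ne_zero hMd hNd
  have hCB : C.det ∈ acl K B := by
    rw [hCd]
    exact mul_mem (det_mem_of _ _ fun i j => hM ⟨i, j, rfl⟩) (det_mem_of _ _ fun i j => hN ⟨i, j, rfl⟩)
  -- the minimal `k`
  have hex : ∃ k, D k C = 0 := ⟨k, h⟩
  obtain ⟨n, hn⟩ : ∃ n, Nat.find hex = n + 1 := by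
    rcases Nat.eq_zero_or_pos (Nat.find hex) with h0 | h0
    · have h1 := Nat.find_spec hex
      rw [h0, D_zero] at h1
      exact absurd h1 one_ne_zero
    · exact ⟨Nat.find hex - 1, by omega⟩
  have hDn1 : D (n + 1) C = 0 := by
    have := Nat.find_spec hex
    rwa [hn] at this
  have hDn : D n C ≠ 0 := Nat.find_min hex (by omega)
  have hnr : n + 1 < r := by
    have := Nat.find_min' hex h
    omega
  have hr0 : 0 < r := by omega
  let last : Fin r := ⟨r - 1, by omega⟩
  let dn : Fin r := ⟨n, by omega⟩
  -- the second entry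
  obtain ⟨j, hj⟩ : ∃ j, C.adjugate j last ≠ 0 := by
    by_contra hcon
    push Not at hcon
    apply hC0
    have h2 := congrFun (congrFun (Matrix.mul_adjugate C) last) last
    rw [Matrix.mul_apply, Matrix.smul_apply, Matrix.one_apply_eq, smul_eq_mul, mul_one] at h2
    rw [← h2]
    exact Finset.sum_eq_zero fun j _ => by rw [hcon j, mul_zero]
  have hne : (dn, dn) ≠ (last, j) := by
    intro h1
    have h2 := congrArg Fin.val (Prod.mk.inj h1).1
    simp only [dn, last] at h2
    omega
  let T : Finset E := (((Finset.univ : Finset (Fin r × Fin r)).erase (dn, dn)).erase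
    (last, j)).image fun p => C p.1 p.2
  have hTcard : T.card ≤ r ^ 2 - 2 := by
    refine Finset.card_image_le.trans ?_
    rw [Finset.card_erase_of_mem (Finset.mem_erase.2 ⟨hne.symm, Finset.mem_univ _⟩),
      Finset.card_erase_of_mem (Finset.mem_univ _), Finset.card_univ, Fintype.card_prod,
      Fintype.card_fin, sq]
    omega
  refine ⟨T, hTcard, ?_⟩
  set L := acl K (B ∪ T) with hL
  have hBL : acl K B ≤ L := acl_mono Set.subset_union_left
  have hin : ∀ a b, (a, b) ≠ (dn, dn) → (a, b) ≠ (last, j) → C a b ∈ L := by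
    intro a b h1 h2
    refine subset_acl _ (Or.inr (Finset.mem_coe.2 (Finset.mem_image.2 ⟨(a, b), ?_, rfl⟩)))
    exact Finset.mem_erase.2 ⟨h2, Finset.mem_erase.2 ⟨h1, Finset.mem_univ _⟩⟩
  -- the entry `(n, n)`
  have hle : n + 1 ≤ r := by omega
  have hx : C dn dn ∈ L := by
    have h1 : (C.submatrix (Fin.castLE hle) (Fin.castLE hle)) (Fin.last n) (Fin.last n) ∈ L := by
      refine s4_entry L _ _ _ ?_ ?_ ?_
      · intro a b hab
        rw [Matrix.submatrix_apply]
        refine hin _ _ ?_ ?_
        · intro h1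
          apply hab
          have h2 := (Prod.mk.inj h1).1
          have h3 := (Prod.mk.inj h1).2
          rw [Prod.mk.injEq]
          constructor
          · apply Fin.ext
            have h4 := congrArg Fin.val h2
            exact h4
          · apply Fin.ext
            have h4 := congrArg Fin.val h3
            exact h4
        · intro h1
          have h2 := congrArg Fin.val (Prod.mk.inj h1).1
          simp only [last, Fin.val_castLE] at h2
          have := a.isLt
          omega
      · have h2 : (C.submatrix (Fin.castLE hle) (Fin.castLE hle)).det = 0 := by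
          rw [← D_of_le hle]
          exact hDn1
        rw [h2]
        exact zero_mem _
      · rw [Matrix.adjugate_fin_succ_eq_det_submatrix, Matrix.submatrix_submatrix]
        refine mul_ne_zero (pow_ne_zero _ (neg_ne_zero.2 one_ne_zero)) ?_
        have hle' : n ≤ r := by omega
        rw [D_of_le hle'] at hDn
        have e : (Fin.castLE hle) ∘ (Fin.last n).succAbove = Fin.castLE hle' := by
          funext a
          rw [Function.comp_apply, Fin.succAbove_last]
          rfl
        rw [e]
        exact hDn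
    exact h1
  -- the entry `(r - 1, j)`
  have hall : ∀ a b, C a b ∈ L := by
    have h1 : C last j ∈ L := by
      refine s4_entry L C last j ?_ (hBL hCB) hj
      intro a b hab
      by_cases h2 : (a, b) = (dn, dn)
      · rw [Prod.mk.injEq] at h2
        rw [h2.1, h2.2]
        exact hx
      · exact hin a b h2 hab
    intro a b
    by_cases h2 : (a, b) = (dn, dn)
    · rw [Prod.mk.injEq] at h2
      rw [h2.1, h2.2]
      exact hx
    · by_cases h3 : (a, b) = (last, j)
      · rw [Prod.mk.injEq] at h3
        rw [h3.1, h3.2]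
        exact h1
      · exact hin a b h2 h3
  -- the entries of `c`
  rintro _ ⟨a, b, rfl⟩
  have hMi : ∀ i, (M *ᵥ fun i' => c i' b) i ∈ L := by
    intro i
    -- `(M c) N = C`
    have h1 : ∀ b', (M * c) i b' ∈ L := by
      intro b'
      refine solve_mem L Nᵀ (fun i j => hBL (hN ⟨j, i, rfl⟩)) (by rwa [Matrix.det_transpose])
        (fun b' => (M * c) i b') (fun b'' => ?_) b'
      have h2 : (Nᵀ *ᵥ fun b' => (M * c) i b') b'' = C i b'' := by
        rw [hC, Matrix.mul_apply, Matrix.mulVec, dotProduct]
        exact Finset.sum_congr rfl fun x _ => by rw [Matrix.transpose_apply, mul_comm]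
      rw [h2]
      exact hall _ _
    have h2 : (M *ᵥ fun i' => c i' b) i = (M * c) i b := by
      rw [Matrix.mul_apply, Matrix.mulVec, dotProduct]
    rw [h2]
    exact h1 b
  exact solve_mem L M (fun i j => hBL (hM ⟨i, j, rfl⟩)) hMd (fun i' => c i' b) hMi a

end Pool.Agent.MP_3f0e22_ag.S4

namespace Pool.Agent.MP_3f0e22_ag

alias boundE := S4.boundE

end Pool.Agent.MP_3f0e22_ag
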