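import Pool.Agent.MP_3f0e22_ag.Defs3
import Pool.Agent.MP_3f0e22_ag.S4

/-! # MP_3f0e22_ag, version 3, block G1bc: cyclic vectors and diagonalisation -/

set_option autoImplicit false

open Matrix

namespace Pool.Agent.MP_3f0e22_ag.V3_G1bc

open Pool.Agent.MP_3f0e22_ag

/-- G1b -/
theorem exists_aeval {E : Type*} [Field E] {r : ℕ} (A B : Mat r E) (hB : Cyc B)
    (h : A * B = B * A) : ∃ p : Polynomial E, A = Polynomial.aeval B p := by
  obtain ⟨v, hv⟩ := hB
  set K : Mat r E := Matrix.of fun i k : Fin r => ((B ^ (k : ℕ)) *ᵥ v) i with hK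
  have hKu : IsUnit K.det := isUnit_iff_ne_zero.2 hv
  set c : Fin r → E := K⁻¹ *ᵥ (A *ᵥ v) with hc
  have hKc : K *ᵥ c = A *ᵥ v := by
    rw [hc, mulVec_mulVec, Matrix.mul_nonsing_inv K hKu, one_mulVec]
  set p : Polynomial E := ∑ k : Fin r, Polynomial.C (c k) * Polynomial.X ^ (k : ℕ) with hp
  have hP : Polynomial.aeval B p = ∑ k : Fin r, c k • B ^ (k : ℕ) := by
    rw [hp, map_sum]
    refine Finset.sum_congr rfl fun k _ => ?_
    rw [map_mul, Polynomial.aeval_C, map_pow, Polynomial.aeval_X, Algebra.smul_def]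
  have hPv : Polynomial.aeval B p *ᵥ v = A *ᵥ v := by
    rw [← hKc, hP, Matrix.sum_mulVec]
    ext i
    rw [Finset.sum_apply]
    simp only [mulVec, dotProduct, hK, Matrix.of_apply]
    refine Finset.sum_congr rfl fun k _ => ?_
    rw [mul_comm _ (c k), Finset.mul_sum]
    refine Finset.sum_congr rfl fun j _ => ?_
    rw [Matrix.smul_apply, smul_eq_mul, mul_assoc]
  have hcomm : ∀ k : ℕ, A * B ^ k = B ^ k * A := fun k => (Commute.pow_right (h : Commute A B) k)
  have hcommP : ∀ k : ℕ, Polynomial.aeval B p * B ^ k = B ^ k * Polynomial.aeval B p := by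
    intro k
    have h1 : Polynomial.aeval B (Polynomial.X ^ k : Polynomial E) = B ^ k := by
      rw [map_pow, Polynomial.aeval_X]
    rw [← h1, ← map_mul, ← map_mul, mul_comm]
  have hAK : A * K = Polynomial.aeval B p * K := by
    ext i k
    have e1 : (A * K) i k = (A *ᵥ (B ^ (k : ℕ) *ᵥ v)) i := by
      simp only [mul_apply, mulVec, dotProduct, hK, Matrix.of_apply]
    have e2 : (Polynomial.aeval B p * K) i k =
        (Polynomial.aeval B p *ᵥ (B ^ (k : ℕ) *ᵥ v)) i := by
      simp only [mul_apply, mulVec, dotProduct, hK, Matrix.of_apply]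
    rw [e1, e2, mulVec_mulVec, mulVec_mulVec, hcomm, hcommP, ← mulVec_mulVec, ← mulVec_mulVec, hPv]
  refine ⟨p, ?_⟩
  calc A = A * K * K⁻¹ := by rw [mul_assoc, Matrix.mul_nonsing_inv K hKu, mul_one]
    _ = Polynomial.aeval B p * K * K⁻¹ := by rw [hAK]
    _ = Polynomial.aeval B p := by rw [mul_assoc, Matrix.mul_nonsing_inv K hKu, mul_one]

/-- G1c -/
theorem exists_diag_of_separable {E : Type*} [Field E] [IsAlgClosed E] {r : ℕ} (B : Mat r E)
    (h : B.charpoly.Separable) : ∃ (f f' : Mat r E) (β : Fin r → E), f * f' = 1 ∧ f' * f = 1 ∧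
      f.det = 1 ∧ B * f = f * diagonal β := by
  classical
  have hnd : B.charpoly.roots.Nodup := Polynomial.nodup_roots h
  have hcard : B.charpoly.roots.card = r := by
    rw [← (IsAlgClosed.splits B.charpoly).natDegree_eq_card_roots, charpoly_natDegree_eq_dim,
      Fintype.card_fin]
  have hc2 : B.charpoly.roots.toFinset.card = r := by
    rw [Multiset.toFinset_card_of_nodup hnd, hcard]
  let e : Fin r ≃ B.charpoly.roots.toFinset := (Finset.equivFinOfCardEq hc2).symm
  let μ : Fin r → E := fun i => (e i : E)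
  have hμ : Function.Injective μ := Subtype.val_injective.comp e.injective
  have hev : ∀ i, ∃ v : Fin r → E, v ≠ 0 ∧ B *ᵥ v = μ i • v := by
    intro i
    have hroot : B.charpoly.IsRoot (μ i) := by
      have := (e i).2
      rw [Multiset.mem_toFinset] at this
      exact Polynomial.isRoot_of_mem_roots this
    have h1 : Module.End.HasEigenvalue (toLin' B) (μ i) := by
      rw [Module.End.hasEigenvalue_iff_isRoot_charpoly, charpoly_toLin']
      exact hroot
    obtain ⟨v, hv⟩ := h1.exists_hasEigenvector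
    exact ⟨v, hv.2, by simpa using hv.apply_eq_smul⟩
  choose v hv0 hv using hev
  have hli : LinearIndependent E v :=
    Module.End.eigenvectors_linearIndependent' (toLin' B) μ hμ v
      (fun i => ⟨by rw [Module.End.mem_eigenspace_iff]; simpa using hv i, hv0 i⟩)
  let P : Mat r E := Matrix.of fun i j => v j i
  have hPt : P.transpose = Matrix.of v := by ext i j; rfl
  have hunit : IsUnit P := by
    rw [← isUnit_transpose]
    rw [hPt]
    exact (linearIndependent_rows_iff_isUnit).mp hli
  have hMP : B * P = P * diagonal μ := by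
    ext i j
    rw [mul_diagonal]
    have := congrFun (hv j) i
    simp only [Pi.smul_apply, smul_eq_mul, mulVec, dotProduct] at this
    rw [mul_apply]
    show ∑ k, B i k * v j k = v j i * μ j
    rw [this, mul_comm]
  have hPd : P.det ≠ 0 := by
    rw [Matrix.isUnit_iff_isUnit_det] at hunit
    exact hunit.ne_zero
  have hfin : ∀ f : Mat r E, f.det = 1 → B * f = f * diagonal μ →
      ∃ (f f' : Mat r E) (β : Fin r → E), f * f' = 1 ∧ f' * f = 1 ∧
        f.det = 1 ∧ B * f = f * diagonal β := by
    intro f hf hBf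
    have hu : IsUnit f.det := by rw [hf]; exact isUnit_one
    exact ⟨f, f⁻¹, μ, Matrix.mul_nonsing_inv f hu, Matrix.nonsing_inv_mul f hu, hf, hBf⟩
  rcases Nat.eq_zero_or_pos r with hr | hr
  · subst hr
    exact hfin P (Matrix.det_isEmpty) hMP
  · set i₀ : Fin r := ⟨0, hr⟩ with hi₀
    set d : Fin r → E := Function.update (fun _ => 1) i₀ P.det⁻¹ with hd
    refine hfin (P * diagonal d) ?_ ?_
    · rw [det_mul, det_diagonal, hd, Finset.prod_update_of_mem (Finset.mem_univ i₀)]
      simp [hPd]
    · rw [← mul_assoc, hMP, mul_assoc, mul_assoc, diagonal_mul_diagonal, diagonal_mul_diagonal]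
      congr 2
      funext i
      exact mul_comm _ _

end Pool.Agent.MP_3f0e22_ag.V3_G1bc

namespace Pool.Agent.MP_3f0e22_ag

alias exists_aeval := V3_G1bc.exists_aeval
alias exists_diag_of_separable := V3_G1bc.exists_diag_of_separable

end Pool.Agent.MP_3f0e22_ag
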