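import Pool.Agent.MP_3f0e22_ag.VTD
import Pool.Agent.MP_3f0e22_ag.Sl

/-!
# MP_3f0e22_ag, version 3: block G1d (density in the diagonalisable commuting pairs)
-/

set_option autoImplicit false

open Matrix MvPolynomial

namespace Pool.Agent.MP_3f0e22_ag.V3_G1d

/-- The pair `(f d f⁻¹, f e f⁻¹)`. -/
def pp {R : Type*} [CommRing R] {r : ℕ} (f : Mat r R) (d e : Fin r → R) :
    (Fin 1 ⊕ Fin 1) × Fin r × Fin r → R :=
  ccoord (fun _ : Fin 1 => f * diagonal d * f.adjugate) fun _ => f * diagonal e * f.adjugate

theorem map_pp {R R' : Type*} [CommRing R] [CommRing R'] {r : ℕ} (φ : R →+* R') (f : Mat r R)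
    (d e : Fin r → R) (x : (Fin 1 ⊕ Fin 1) × Fin r × Fin r) :
    φ (pp f d e x) = pp (f.map φ) (fun i => φ (d i)) (fun i => φ (e i)) x := by
  have key : ∀ (c : Fin r → R) (p q : Fin r), φ ((f * diagonal c * f.adjugate) p q) =
      (f.map φ * diagonal (fun i => φ (c i)) * (f.map φ).adjugate) p q := by
    intro c p q
    have h : (f * diagonal c * f.adjugate).map φ =
        f.map φ * diagonal (fun i => φ (c i)) * (f.map φ).adjugate := by
      rw [Matrix.map_mul, Matrix.map_mul, Matrix.diagonal_map (map_zero φ)]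
      congr 1
      exact RingHom.map_adjugate φ f
    rw [← h, Matrix.map_apply]
  rcases x with ⟨j | j, p, q⟩
  · exact key d p q
  · exact key e p q

theorem eval_pp {Ω τ : Type*} [Field Ω] {r : ℕ} (z : τ → Ω) (f : Mat r (MvPolynomial τ Ω))
    (d e : Fin r → MvPolynomial τ Ω) (F : MvPolynomial ((Fin 1 ⊕ Fin 1) × Fin r × Fin r) Ω) :
    eval z (aeval (pp f d e) F) =
      eval (pp (f.map (eval z)) (fun i => eval z (d i)) (fun i => eval z (e i))) F := by
  rw [MvPolynomial.aeval_def, MvPolynomial.hom_eval₂, MvPolynomial.eval,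
    MvPolynomial.coe_eval₂Hom]
  congr 1
  · ext x
    simp
  · funext x
    exact map_pp (eval z) f d e x

theorem map_C {Ω τ : Type*} [Field Ω] {r : ℕ} (z : τ → Ω) (f : Mat r Ω) :
    (f.map (C : Ω → MvPolynomial τ Ω)).map (eval z) = f := by
  ext i j
  simp

theorem crep_pp {O : Type*} [CommRing O] {r : ℕ} (f : Mat r O) (hf : f.det = 1) (d e : Fin r → O)
    (hd : ∏ i, d i = 1) (he : ∏ i, e i = 1) :
    CRep (1 : O) (fun _ : Fin 1 => f * diagonal d * f.adjugate)
      (fun _ : Fin 1 => f * diagonal e * f.adjugate) := by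
  have hadj : f.adjugate * f = 1 := by rw [adjugate_mul, hf, one_smul]
  have hdet : ∀ c : Fin r → O, ∏ i, c i = 1 → (f * diagonal c * f.adjugate).det = 1 := by
    intro c hc
    rw [det_mul, det_mul, det_diagonal, hc, mul_one, ← det_mul, mul_adjugate, hf, one_smul,
      det_one]
  have hcomm : ∀ c c' : Fin r → O, (f * diagonal c * f.adjugate) * (f * diagonal c' * f.adjugate) =
      f * diagonal (fun i => c i * c' i) * f.adjugate := by
    intro c c'
    calc (f * diagonal c * f.adjugate) * (f * diagonal c' * f.adjugate)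
        = f * diagonal c * (f.adjugate * f) * diagonal c' * f.adjugate := by
          simp only [Matrix.mul_assoc]
      _ = f * diagonal (fun i => c i * c' i) * f.adjugate := by
          rw [hadj, Matrix.mul_one, Matrix.mul_assoc f, diagonal_mul_diagonal]
  refine ⟨fun _ => hdet d hd, fun _ => hdet e he, ?_⟩
  have h1 : (f * diagonal d * f.adjugate) * (f * diagonal d * f.adjugate).adjugate = 1 := by
    rw [mul_adjugate, hdet d hd, one_smul]
  have h2 : (f * diagonal e * f.adjugate) * (f * diagonal e * f.adjugate).adjugate = 1 := by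
    rw [mul_adjugate, hdet e he, one_smul]
  have h3 : (f * diagonal d * f.adjugate) * (f * diagonal e * f.adjugate) =
      (f * diagonal e * f.adjugate) * (f * diagonal d * f.adjugate) := by
    rw [hcomm, hcomm]
    congr 3
    funext i
    exact mul_comm _ _
  rw [cval]
  simp only [List.ofFn_succ, List.ofFn_zero, List.prod_cons, List.prod_nil, mul_one, one_smul]
  rw [h3, Matrix.mul_assoc (f * diagonal e * f.adjugate), h1, Matrix.mul_one, h2]

theorem diag_density {O Ω : Type} [CommRing O] [Field Ω] [IsAlgClosed Ω] {r : ℕ} (ι : O →+* Ω)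
    (hι : Function.Injective ι) (v : Oˣ) (hv : ∀ m : ℤ, v ^ m = 1 → m = 0)
    (F : MvPolynomial ((Fin 1 ⊕ Fin 1) × Fin r × Fin r) Ω)
    (hF : ∀ a b : Fin 1 → Mat r O, CRep 1 a b → eval (fun x => ι (ccoord a b x)) F = 0)
    (f f' : Mat r Ω) (hf : f * f' = 1) (hfd : f.det = 1) (d e : Fin r → Ω) (hd : ∏ i, d i = 1)
    (he : ∏ i, e i = 1) :
    eval (ccoord (fun _ : Fin 1 => f * diagonal d * f') fun _ => f * diagonal e * f') F = 0 := by
  -- the image of `v`
  have hv' : ∀ m : ℤ, (Units.map (ι : O →* Ω) v) ^ m = 1 → m = 0 := by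
    intro m hm
    apply hv
    rw [← map_zpow] at hm
    apply Units.map_injective (f := (ι : O →* Ω)) hι
    rw [hm, map_one]
  -- sums of exponents
  have hprod : ∀ m : Fin r → ℤ, ∑ i, m i = 0 → ∏ i, ((v ^ m i : Oˣ) : O) = 1 := by
    intro m hm
    have h : ∀ s : Finset (Fin r), ∏ i ∈ s, v ^ m i = v ^ (∑ i ∈ s, m i) := by
      intro s
      induction s using Finset.induction_on with
      | empty => simp
      | insert a s ha ih => rw [Finset.prod_insert ha, Finset.sum_insert ha, _root_.zpow_add, ih]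
    rw [← Units.coe_prod, h, hm, zpow_zero, Units.val_one]
  -- step 0
  have h0 : ∀ f : Mat r O, f.det = 1 → ∀ m n : Fin r → ℤ, ∑ i, m i = 0 → ∑ i, n i = 0 →
      eval (pp (f.map ι) (fun i => ι ((v ^ m i : Oˣ) : O)) (fun i => ι ((v ^ n i : Oˣ) : O))) F
        = 0 := by
    intro f hf m n hm hn
    have := hF _ _ (crep_pp f hf (fun i => ((v ^ m i : Oˣ) : O)) (fun i => ((v ^ n i : Oˣ) : O))
      (hprod m hm) (hprod n hn))
    rw [← this]
    congr 2
    funext x
    exact (map_pp ι f _ _ x).symm
  -- step 1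
  have h1 : ∀ f : Mat r O, f.det = 1 → ∀ n : Fin r → ℤ, ∑ i, n i = 0 → ∀ d : Fin r → Ω,
      ∏ i, d i = 1 →
      eval (pp (f.map ι) d (fun i => ι ((v ^ n i : Oˣ) : O))) F = 0 := by
    intro f hf n hn d hd
    have key := torus_units (Units.map (ι : O →* Ω) v) hv' (fun _ => 1)
      (aeval (pp ((f.map ι).map C) (fun i => X i) (fun i => C (ι ((v ^ n i : Oˣ) : O)))) F)
      ?_ d (by simpa using hd)
    · rw [eval_pp, map_C] at key
      simpa only [eval_X, eval_C] using key
    · intro m hm
      rw [eval_pp, map_C]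
      have h := h0 f hf m n hm hn
      simp only [eval_X, eval_C, mul_one]
      have h' : (fun i => ((Units.map (ι : O →* Ω) v ^ m i : Ωˣ) : Ω)) =
          fun i => ι ((v ^ m i : Oˣ) : O) := by
        funext i
        rw [← map_zpow]
        rfl
      rw [h']
      exact h
  -- step 2
  have h2 : ∀ f : Mat r O, f.det = 1 → ∀ d e : Fin r → Ω,
      ∏ i, d i = 1 → ∏ i, e i = 1 → eval (pp (f.map ι) d e) F = 0 := by
    intro f hf d e hd he
    have key := torus_units (Units.map (ι : O →* Ω) v) hv' (fun _ => 1)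
      (aeval (pp ((f.map ι).map C) (fun i => C (d i)) (fun i => X i)) F)
      ?_ e (by simpa using he)
    · rw [eval_pp, map_C] at key
      simpa only [eval_X, eval_C] using key
    · intro m hm
      rw [eval_pp, map_C]
      have h := h1 f hf m hm d hd
      simp only [eval_X, eval_C, mul_one]
      have h' : (fun i => ((Units.map (ι : O →* Ω) v ^ m i : Ωˣ) : Ω)) =
          fun i => ι ((v ^ m i : Oˣ) : O) := by
        funext i
        rw [← map_zpow]
        rfl
      rw [h']
      exact h
  -- the ring is infinite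
  have hinf : ((ι.range : Subring Ω) : Set Ω).Infinite := by
    refine Set.infinite_of_injective_forall_mem (f := fun n : ℕ => ι ((v ^ n : Oˣ) : O)) ?_ ?_
    · intro m n hmn
      have h3 : (v ^ m : Oˣ) = v ^ n := Units.ext (hι hmn)
      have h4 : v ^ ((m : ℤ) - n) = 1 := by
        rw [_root_.zpow_sub, zpow_natCast, zpow_natCast, h3, mul_inv_cancel]
      have := hv _ h4
      omega
    · intro n
      exact ⟨_, rfl⟩
  -- step 3
  have h3 := sl_density ι.range hinf
    (aeval (pp (Matrix.of fun i j => X (i, j)) (fun i => C (d i)) (fun i => C (e i))) F) ?_ f hfd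
  · rw [eval_pp] at h3
    have hf' : f' = f.adjugate := by
      have h4 : f.adjugate * (f * f') = f' := by
        rw [← Matrix.mul_assoc, adjugate_mul, hfd, one_smul, Matrix.one_mul]
      rw [hf, Matrix.mul_one] at h4
      exact h4.symm
    rw [hf']
    have h5 : (Matrix.of fun i j => X (i, j) : Mat r (MvPolynomial (Fin r × Fin r) Ω)).map
        (eval fun x => f x.1 x.2) = f := by
      ext i j
      simp
    rw [h5] at h3
    simpa [pp] using h3
  · intro g hg hgS
    rw [eval_pp]
    choose g₀ hg₀ using hgS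
    have h5 : (Matrix.of fun i j => X (i, j) : Mat r (MvPolynomial (Fin r × Fin r) Ω)).map
        (eval fun x => g x.1 x.2) = (Matrix.of g₀).map ι := by
      ext i j
      simp [hg₀]
    have h6 : (Matrix.of g₀).map ι = g := by
      ext i j
      simp [hg₀]
    have h7 : (Matrix.of g₀).det = 1 := by
      apply hι
      rw [RingHom.map_det, map_one]
      exact (congrArg det h6).trans hg
    rw [h5]
    simpa using h2 (Matrix.of g₀) h7 d e hd he

end Pool.Agent.MP_3f0e22_ag.V3_G1d

namespace Pool.Agent.MP_3f0e22_ag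

alias diag_density := V3_G1d.diag_density

end Pool.Agent.MP_3f0e22_ag
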