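import Pool.Agent.MP_3f0e22_ag.Defs2

/-!
# MP_3f0e22_ag: closed surfaces: definitions
-/

set_option autoImplicit false

namespace Pool.Agent.MP_3f0e22_ag

open Matrix

/-- `∏ a_j b_j a_j⁻¹ b_j⁻¹` (for matrices of determinant `1`). -/
def cval {R : Type*} [CommRing R] {r g : ℕ} (a b : Fin g → Mat r R) : Mat r R :=
  (List.ofFn fun j => a j * b j * (a j).adjugate * (b j).adjugate).prod

/-- The coordinates of a point. -/
def ccoord {R : Type*} {r g : ℕ} (a b : Fin g → Mat r R) : (Fin g ⊕ Fin g) × Fin r × Fin r → R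
  | (Sum.inl j, x) => a j x.1 x.2
  | (Sum.inr j, x) => b j x.1 x.2

/-- The entries of the matrices of a point. -/
def cents {E : Type*} {r g : ℕ} (a b : Fin g → Mat r E) : Set E :=
  {x | ∃ j, x ∈ ent (a j) ∪ ent (b j)}

/-- The representations with `∏ [a_j, b_j] = ζ`, in matrices of determinant `1`. -/
structure CRep {R : Type*} [CommRing R] {r g : ℕ} (ζ : R) (a b : Fin g → Mat r R) : Prop where
  det_a : ∀ j, (a j).det = 1
  det_b : ∀ j, (b j).det = 1
  rel : cval a b = ζ • (1 : Mat r R)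

/-- The principal minors of `M` do not vanish. -/
def PrinOK {E : Type*} [Field E] {r : ℕ} (M : Mat r E) : Prop :=
  ∀ s : Finset (Fin r), (M.submatrix (fun i : s => (i : Fin r)) (fun i : s => (i : Fin r))).det ≠ 0

/-- `β` is multiplicatively independent, up to the relation `∏ β i = 1`. -/
def MulInd {E : Type*} [Field E] {r : ℕ} (β : Fin r → E) : Prop :=
  (∀ i, β i ≠ 0) ∧ (∏ i, β i = 1) ∧
    ∀ m : Fin r → ℤ, ∏ i, β i ^ m i = 1 → ∀ i j, m i = m j

/-- `M` has a cyclic vector. -/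
def Cyc {E : Type*} [Field E] {r : ℕ} (M : Mat r E) : Prop :=
  ∃ v : Fin r → E, (Matrix.of fun i k : Fin r => ((M ^ (k : ℕ)) *ᵥ v) i).det ≠ 0

/-- The matrix of `X ⊗ A`. -/
def tens {R : Type*} [CommRing R] {d m r : ℕ} (e : Fin d × Fin m ≃ Fin r) (X : Mat d R)
    (A : Mat m R) : Mat r R := (Matrix.kroneckerMap (fun x y => x * y) X A).submatrix e.symm e.symm

/-- `diag(1, ζ, …, ζ^(d-1))` -/
def Xm {R : Type*} [CommRing R] (d : ℕ) (ζ : R) : Mat d R := diagonal fun i => ζ ^ (i : ℕ)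

/-- The matrix of the cyclic permutation. -/
def Zm (R : Type*) [CommRing R] (d : ℕ) : Mat d R :=
  Matrix.of fun i j => if (i : ℕ) = ((j : ℕ) + 1) % d then 1 else 0

end Pool.Agent.MP_3f0e22_ag
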