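import Pool.Agent.MP_3f0e22_ag.Acl

/-! # Block GP: generic points, from Krull's height theorem -/

set_option autoImplicit false

namespace Pool.Agent.MP_3f0e22_ag

open MvPolynomial

/-- Lifting algebraically independent families along a quotient map with a kernel. -/
theorem gp_lift {K A B ι : Type} [Field K] [CommRing A] [IsDomain A] [CommRing B]
    [Algebra K A] [Algebra K B] (ψ : A →ₐ[K] B) {y : ι → A}
    (hy : AlgebraicIndependent K (ψ ∘ y)) {z : A} (hz : z ≠ 0) (hz0 : ψ z = 0) :
    AlgebraicIndependent K (fun o : Option ι => o.elim z y) := by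
  have hyA : AlgebraicIndependent K y := AlgebraicIndependent.of_comp ψ hy
  rw [AlgebraicIndependent.option_iff_transcendental hyA]
  intro halg
  obtain ⟨p, hp, hpz⟩ := halg
  obtain ⟨q, hq, hqd⟩ := Polynomial.exists_eq_pow_rootMultiplicity_mul_and_not_dvd p hp 0
  set n := Polynomial.rootMultiplicity 0 p
  have hq0 : q.coeff 0 ≠ 0 := by
    intro h
    apply hqd
    rw [map_zero, sub_zero, Polynomial.X_dvd_iff]
    exact h
  have hqz : Polynomial.aeval z q = 0 := by
    rw [hq, map_mul, map_pow, map_sub, Polynomial.aeval_X, Polynomial.aeval_C, map_zero,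
      sub_zero] at hpz
    rcases mul_eq_zero.mp hpz with h | h
    · exact absurd (IsReduced.eq_zero z ⟨n, h⟩) hz
    · exact h
  -- the constant coefficient vanishes modulo the kernel
  have h1 : q = Polynomial.C (q.coeff 0) + Polynomial.X * q.divX := by
    have := Polynomial.divX_mul_X_add q
    rw [add_comm, mul_comm]; exact this.symm
  have h2 : ((q.coeff 0 : Algebra.adjoin K (Set.range y)) : A) + z * Polynomial.aeval z q.divX
      = 0 := by
    rw [h1] at hqz
    simpa using hqz
  have h3 : ψ ((q.coeff 0 : Algebra.adjoin K (Set.range y)) : A) = 0 := by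
    have := congrArg ψ h2
    rw [map_add, map_mul, hz0, zero_mul, add_zero, map_zero] at this
    exact this
  have h4 : ((q.coeff 0 : Algebra.adjoin K (Set.range y)) : A) ∈
      (aeval y : MvPolynomial ι K →ₐ[K] A).range := by
    rw [← Algebra.adjoin_range_eq_range_aeval]
    exact (q.coeff 0).2
  obtain ⟨G, hG⟩ := h4
  have hG' : aeval y G = ((q.coeff 0 : Algebra.adjoin K (Set.range y)) : A) := hG
  rw [← hG', MvPolynomial.comp_aeval_apply] at h3
  have hG0 : G = 0 := hy.eq_zero_of_aeval_eq_zero G h3
  apply hq0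
  apply Subtype.ext
  rw [← hG', hG0, map_zero]
  rfl

theorem gp_step {K R : Type} [Field K] [CommRing R] [Algebra K R] {P Q : PrimeSpectrum R}
    (hlt : P < Q) {k : ℕ} (y : Fin k → R ⧸ Q.asIdeal) (hy : AlgebraicIndependent K y) :
    ∃ y' : Fin (k + 1) → R ⧸ P.asIdeal, AlgebraicIndependent K y' := by
  have hle : P.asIdeal ≤ Q.asIdeal := hlt.le
  have hne : ¬ Q.asIdeal ≤ P.asIdeal := fun h => not_le_of_gt hlt h
  obtain ⟨z, hzQ, hzP⟩ := SetLike.not_le_iff_exists.mp hne
  let ψ : (R ⧸ P.asIdeal) →ₐ[K] (R ⧸ Q.asIdeal) := Ideal.Quotient.factorₐ K hle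
  have hψ : Function.Surjective ψ := Ideal.Quotient.factor_surjective hle
  choose y' hy' using fun i => hψ (y i)
  have hy2 : AlgebraicIndependent K (ψ ∘ y') := by
    have : ψ ∘ y' = y := funext hy'
    rw [this]; exact hy
  have hz1 : Ideal.Quotient.mk P.asIdeal z ≠ 0 := by
    rw [Ne, Ideal.Quotient.eq_zero_iff_mem]; exact hzP
  have hz2 : ψ (Ideal.Quotient.mk P.asIdeal z) = 0 := by
    show Ideal.Quotient.factor hle (Ideal.Quotient.mk P.asIdeal z) = 0
    rw [Ideal.Quotient.factor_mk, Ideal.Quotient.eq_zero_iff_mem]; exact hzQ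
  have h := gp_lift ψ hy2 hz1 hz2
  let e : Fin (k + 1) ≃ Option (Fin k) := finSuccEquiv k
  exact ⟨_, (algebraicIndependent_equiv' e rfl).mpr h⟩

/-- A chain of primes gives algebraically independent elements in the quotient by the smallest. -/
theorem gp_chain {K R : Type} [Field K] [CommRing R] [Algebra K R]
    (l : LTSeries (PrimeSpectrum R)) :
    ∀ (k : ℕ) (_hk : k ≤ l.length), ∃ y : Fin k → R ⧸ (l ⟨l.length - k, by omega⟩).asIdeal,
      AlgebraicIndependent K y := by
  intro k
  induction k with
  | zero =>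
    intro hk
    refine ⟨Fin.elim0, ?_⟩
    rw [algebraicIndependent_empty_type_iff]
    exact (algebraMap K (R ⧸ (l ⟨l.length - 0, by omega⟩).asIdeal)).injective
  | succ k ih =>
    intro hk
    obtain ⟨y, hy⟩ := ih (by omega)
    exact gp_step (l.strictMono (by
      rw [Fin.lt_def]; show l.length - (k + 1) < l.length - k; omega)) y hy

/-- Partial evaluation. -/
noncomputable def gpEv {K σ : Type} [Field K] (x₀ : σ → K) (T : Finset σ) :
    MvPolynomial σ K →ₐ[K] MvPolynomial σ K :=
  letI := Classical.decEq σ
  aeval fun i => if i ∈ T then C (x₀ i) else X i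

theorem gp_height {K σ : Type} [Field K] [Fintype σ] (x₀ : σ → K) (T : Finset σ) :
    (T.card : ℕ∞) ≤ (RingHom.ker (gpEv x₀ T).toRingHom).height := by
  classical
  induction T using Finset.induction_on with
  | empty => simp
  | insert a T ha ih =>
    rw [Finset.card_insert_of_notMem ha, Nat.cast_add, Nat.cast_one]
    have h1 : (RingHom.ker (gpEv x₀ T).toRingHom).IsPrime := RingHom.ker_isPrime _
    have h2 : (RingHom.ker (gpEv x₀ (insert a T)).toRingHom).IsPrime := RingHom.ker_isPrime _
    refine (add_le_add_left ih 1).trans (Ideal.height_add_one_le_of_lt_of_isPrime ?_)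
    refine lt_of_le_of_ne ?_ ?_
    · intro f hf
      have hf' : gpEv x₀ T f = 0 := hf
      show gpEv x₀ (insert a T) f = 0
      have hc : gpEv x₀ (insert a T) =
          (aeval fun i => if i = a then C (x₀ a) else X i : MvPolynomial σ K →ₐ[K] _).comp
            (gpEv x₀ T) := by
        apply MvPolynomial.algHom_ext
        intro i
        rw [AlgHom.comp_apply]
        simp only [gpEv, aeval_X]
        by_cases hia : i = a
        · subst hia
          simp [ha]
        · by_cases hiT : i ∈ T
          · simp [hiT]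
          · simp [hiT, hia]
      rw [hc, AlgHom.comp_apply, hf', map_zero]
    · intro heq
      have hmem : (X a - C (x₀ a) : MvPolynomial σ K) ∈
          RingHom.ker (gpEv x₀ (insert a T)).toRingHom := by
        show gpEv x₀ (insert a T) (X a - C (x₀ a)) = 0
        rw [map_sub, gpEv, aeval_X, aeval_C]
        simp
      rw [← heq] at hmem
      have h3 : gpEv x₀ T (X a - C (x₀ a)) = 0 := hmem
      rw [map_sub, gpEv, aeval_X, aeval_C, if_neg ha] at h3
      have h4 := congrArg (coeff (Finsupp.single a 1)) h3
      rw [coeff_sub, coeff_X, algebraMap_eq, coeff_C, coeff_zero] at h4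
      have h5 : (0 : σ →₀ ℕ) ≠ Finsupp.single a 1 := by
        intro h
        have := DFunLike.congr_fun h a
        simp at this
      rw [if_neg h5, if_pos rfl, sub_zero] at h4
      exact one_ne_zero h4

theorem gp_ker {K σ : Type} [Field K] [Fintype σ] (x₀ : σ → K) :
    RingHom.ker (gpEv x₀ Finset.univ).toRingHom = RingHom.ker (eval x₀) := by
  ext f
  have : gpEv x₀ Finset.univ f = C (eval x₀ f) := by
    have hc : gpEv x₀ Finset.univ = (Algebra.ofId K (MvPolynomial σ K)).comp (aeval x₀) := by
      apply MvPolynomial.algHom_ext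
      intro i
      rw [AlgHom.comp_apply, aeval_X]
      simp only [gpEv, aeval_X, Finset.mem_univ, if_true]
      rfl
    rw [hc, AlgHom.comp_apply]
    rfl
  rw [RingHom.mem_ker, RingHom.mem_ker]
  show gpEv x₀ Finset.univ f = 0 ↔ _
  rw [this]
  exact map_eq_zero_iff _ (C_injective σ K)

/-- A system of `s.card` equations with a solution `x₀` such that `F x₀ ≠ 0` has a solution `x` in
some field with `F x ≠ 0` and transcendence degree at least `card σ - s.card`. -/
theorem exists_generic {K σ : Type} [Field K] [Fintype σ] (s : Finset (MvPolynomial σ K))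
    (F : MvPolynomial σ K) (x₀ : σ → K) (h₀ : ∀ f ∈ s, eval x₀ f = 0) (hF : eval x₀ F ≠ 0) :
    ∃ (E : Type) (_ : Field E) (_ : Algebra K E) (x : σ → E), (∀ f ∈ s, aeval x f = 0) ∧
      aeval x F ≠ 0 ∧
        ∀ S : Finset E, Set.range x ⊆ acl K (S : Set E) → Fintype.card σ ≤ s.card + S.card := by
  classical
  set m := RingHom.ker (eval x₀) with hm
  have hmp : m.IsPrime := RingHom.ker_isPrime _
  have hht : (Fintype.card σ : ℕ∞) ≤ m.height := by
    have := gp_height x₀ Finset.univ
    rwa [gp_ker, Finset.card_univ] at this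
  set I : Ideal (MvPolynomial σ K) := Ideal.span (s : Set (MvPolynomial σ K)) with hI
  have hsm : (s : Set (MvPolynomial σ K)) ⊆ m := fun f hf => by
    rw [SetLike.mem_coe, hm, RingHom.mem_ker]; exact h₀ f hf
  have hIm : I ≤ m := Ideal.span_le.mpr hsm
  have hkr := Ideal.height_le_height_add_encard_of_subset (s : Set (MvPolynomial σ K)) hsm
  have hmp' : (m.map (Ideal.Quotient.mk I)).IsPrime := Ideal.isPrime_map_quotientMk_of_isPrime hIm
  obtain ⟨l, hl1, hl2⟩ := Ideal.exists_ltSeries_length_eq_height (m.map (Ideal.Quotient.mk I))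
  rw [Set.encard_coe_eq_coe_finsetCard] at hkr
  have hlen : Fintype.card σ ≤ l.length + s.card := by
    have := hht.trans hkr
    rw [← hl2] at this
    exact_mod_cast this
  obtain ⟨y, hy⟩ := gp_chain (K := K) l l.length le_rfl
  set P := l ⟨l.length - l.length, by omega⟩ with hP
  have hPm : P.asIdeal ≤ m.map (Ideal.Quotient.mk I) := by
    have h1 : P ≤ l.last := l.strictMono.monotone (Fin.le_last _)
    rw [hl1] at h1
    exact h1
  let A := (MvPolynomial σ K ⧸ I) ⧸ P.asIdeal
  let E := FractionRing A
  let x : σ → E := fun i => algebraMap A E (Ideal.Quotient.mk P.asIdeal (Ideal.Quotient.mk I (X i)))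
  have hx : ∀ f : MvPolynomial σ K, aeval x f =
      algebraMap A E (Ideal.Quotient.mk P.asIdeal (Ideal.Quotient.mk I f)) := by
    intro f
    have : (aeval x : MvPolynomial σ K →ₐ[K] E) = (IsScalarTower.toAlgHom K A E).comp
        ((Ideal.Quotient.mkₐ K P.asIdeal).comp (Ideal.Quotient.mkₐ K I)) := by
      apply MvPolynomial.algHom_ext
      intro i
      rw [aeval_X]
      rfl
    rw [this]
    rfl
  refine ⟨E, inferInstance, inferInstance, x, ?_, ?_, ?_⟩
  · intro f hf
    rw [hx f, Ideal.Quotient.eq_zero_iff_mem.mpr (Ideal.subset_span hf), map_zero, map_zero]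
  · rw [hx F]
    intro h
    rw [map_eq_zero_iff _ (IsFractionRing.injective A E), Ideal.Quotient.eq_zero_iff_mem] at h
    have h2 := hPm h
    rw [Ideal.mem_quotient_iff_mem hIm] at h2
    exact hF (RingHom.mem_ker.mp h2)
  · intro S hS
    have hall : ∀ e : E, e ∈ acl K (S : Set E) := by
      have hA : ∀ a : A, algebraMap A E a ∈ acl K (S : Set E) := by
        intro a
        obtain ⟨b, rfl⟩ := Ideal.Quotient.mk_surjective a
        obtain ⟨f, rfl⟩ := Ideal.Quotient.mk_surjective b
        rw [← hx f]
        have h1 : aeval x f ∈ Algebra.adjoin K (Set.range x) := by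
          rw [Algebra.adjoin_range_eq_range_aeval]
          exact ⟨f, rfl⟩
        exact (Algebra.adjoin_le (S := (acl K (S : Set E)).toSubalgebra) hS) h1
      intro e
      obtain ⟨a, b, _, rfl⟩ := IsFractionRing.div_surjective (A := A) e
      exact div_mem (hA a) (hA b)
    have h1 : Algebra.IsAlgebraic (IntermediateField.adjoin K (S : Set E)) E :=
      ⟨fun e => mem_acl.mp (hall e)⟩
    have h2 : Algebra.IsAlgebraic (Algebra.adjoin K (S : Set E)) E := by
      open scoped IntermediateField.algebraAdjoinAdjoin in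
      exact (IsFractionRing.comap_isAlgebraic_iff (A := Algebra.adjoin K (S : Set E))
        (K := IntermediateField.adjoin K (S : Set E)) (C := E)).mpr h1
    have h3 : Algebra.trdeg K E ≤ Cardinal.mk (S : Set E) :=
      Algebra.IsAlgebraic.trdeg_le_cardinalMk K (S : Set E)
    have hyE := hy.map' (f := IsScalarTower.toAlgHom K A E) (IsFractionRing.injective A E)
    have h4 := hyE.cardinalMk_le_trdeg
    have h5 := h4.trans h3
    rw [Cardinal.mk_fin] at h5
    have h6 : l.length ≤ S.card := by
      have : Cardinal.mk (S : Set E) = (S.card : Cardinal) := by simp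
      rw [this] at h5
      exact_mod_cast h5
    omega

end Pool.Agent.MP_3f0e22_ag
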