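import Pool.Agent.MP_3f0e22_ag.VDEN
import Pool.Agent.MP_3f0e22_ag.Gp
import Pool.Agent.MP_3f0e22_ag.Defs3

set_option autoImplicit false

open Matrix MvPolynomial NumberField

namespace Pool.Agent.MP_3f0e22_ag

namespace V3_G1e

open Polynomial in
/-- A prime factor which vanishes under a homomorphism. -/
theorem exists_factor {A Ω : Type*} [CommRing A] [IsDomain A] [UniqueFactorizationMonoid A]
    [Field Ω] (ψ : A →+* Ω) (W : A) (hW : W ≠ 0) (h : ψ W = 0) :
    ∃ P : A, Prime P ∧ P ∣ W ∧ ψ P = 0 := by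
  obtain ⟨u, hu⟩ := UniqueFactorizationMonoid.factors_prod hW
  have h1 : ψ (UniqueFactorizationMonoid.factors W).prod = 0 := by
    have h2 : ψ (UniqueFactorizationMonoid.factors W).prod * ψ (u : A) = 0 := by
      rw [← map_mul, hu, h]
    rcases mul_eq_zero.1 h2 with h3 | h3
    · exact h3
    · exact absurd h3 ((u.isUnit.map ψ).ne_zero)
  rw [map_multiset_prod, Multiset.prod_eq_zero_iff, Multiset.mem_map] at h1
  obtain ⟨P, hP, hP0⟩ := h1
  exact ⟨P, UniqueFactorizationMonoid.prime_of_factor P hP,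
    UniqueFactorizationMonoid.dvd_of_mem_factors hP, hP0⟩

theorem exists_field {A : Type} [CommRing A] [IsDomain A] (P : A) (hP : Prime P) :
    ∃ (E : Type) (_ : Field E) (_ : IsAlgClosed E) (φ : A →+* E), ∀ x, φ x = 0 ↔ P ∣ x := by
  have hI : (Ideal.span {P}).IsPrime := (Ideal.span_singleton_prime hP.ne_zero).2 hP
  have hd : IsDomain (A ⧸ Ideal.span {P}) := Ideal.Quotient.isDomain _
  refine ⟨AlgebraicClosure (FractionRing (A ⧸ Ideal.span {P})), inferInstance, inferInstance,
    (algebraMap (FractionRing (A ⧸ Ideal.span {P})) _).comp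
    ((algebraMap (A ⧸ Ideal.span {P}) (FractionRing (A ⧸ Ideal.span {P}))).comp
      (Ideal.Quotient.mk _)), fun x => ?_⟩
  rw [RingHom.comp_apply, RingHom.comp_apply, map_eq_zero_iff _ (RingHom.injective _),
    map_eq_zero_iff _ (IsFractionRing.injective _ _), Ideal.Quotient.eq_zero_iff_mem,
    Ideal.mem_span_singleton]

theorem ccoord_map {R S : Type*} [CommRing R] [CommRing S] (f : R →+* S) {r g : ℕ}
    (a b : Fin g → Mat r R) (x : (Fin g ⊕ Fin g) × Fin r × Fin r) :
    f (ccoord a b x) = ccoord (fun j => (a j).map f) (fun j => (b j).map f) x := by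
  rcases x with ⟨j | j, x⟩ <;> rfl

theorem perturb₁ {Ω : Type} [Field Ω] {r : ℕ} (hr : 1 ≤ r) (a b : Mat r Ω)
    (ha : a.det = 1) (hb : b.det = 1) (hab : a * b = b * a) (R : Mat r Ω) (hR : Cyc R)
    (haR : a * R = R * a)
    (F : MvPolynomial ((Fin 1 ⊕ Fin 1) × Fin r × Fin r) Ω)
    (hF : eval (ccoord (fun _ : Fin 1 => a) fun _ => b) F ≠ 0) :
    ∃ (E : Type) (_ : Field E) (_ : Algebra Ω E) (_ : IsAlgClosed E) (b' : Mat r E),
      b'.det = 1 ∧ Cyc b' ∧ a.map (algebraMap Ω E) * b' = b' * a.map (algebraMap Ω E) ∧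
      aeval (ccoord (fun _ : Fin 1 => a.map (algebraMap Ω E)) fun _ => b') F ≠ 0 := by
  have : NeZero r := ⟨by omega⟩
  -- the ring `Ω[s][u]`
  let A := Polynomial (Polynomial Ω)
  let c : Ω →+* A := (Polynomial.C : Polynomial Ω →+* A).comp Polynomial.C
  let ψ : A →+* Ω := (Polynomial.evalRingHom (0 : Ω)).comp (Polynomial.evalRingHom (1 : Polynomial Ω))
  have hψc : ψ.comp c = RingHom.id Ω := by
    ext x
    simp [ψ, c, A]
  let Bm : Mat r A := (Polynomial.X : A) •
    (b.map c + (Polynomial.C Polynomial.X : A) • R.map c)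
  let W : A := Bm.det - 1
  have hψB : Bm.map ψ = b := by
    ext i j
    have h1 : ∀ x : Ω, ψ (c x) = x := fun x => by
      have := congrArg (fun f : Ω →+* Ω => f x) hψc
      simpa using this
    simp only [Bm, Matrix.map_apply, Matrix.smul_apply, Matrix.add_apply, smul_eq_mul, map_mul,
      map_add, h1]
    simp [ψ, A]
  have hψW : ψ W = 0 := by
    have h1 : ψ Bm.det = 1 := by
      rw [RingHom.map_det, RingHom.mapMatrix_apply, hψB, hb]
    simp only [W, map_sub, map_one, h1, sub_self]
  have hev : Polynomial.evalRingHom (0 : Polynomial Ω) W = -1 := by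
    have h1 : Polynomial.evalRingHom (0 : Polynomial Ω) Bm.det = 0 := by
      rw [RingHom.map_det, RingHom.mapMatrix_apply]
      have h2 : Bm.map (Polynomial.evalRingHom (0 : Polynomial Ω)) = 0 := by
        ext1 i j
        simp [Bm, A]
      rw [h2, Matrix.det_zero]
    simp only [W, map_sub, map_one, h1, zero_sub]
  have hW0 : W ≠ 0 := by
    intro h
    rw [h, map_zero] at hev
    exact one_ne_zero (neg_eq_zero.1 hev.symm)
  obtain ⟨P, hP, hPW, hψP⟩ := exists_factor ψ W hW0 hψW
  -- the field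
  obtain ⟨E, hE1, hE2, φ, hφ'⟩ := exists_field P hP
  have hφ : ∀ x : A, φ x = 0 → P ∣ x := fun x => (hφ' x).1
  have hφW : φ W = 0 := (hφ' W).2 hPW
  -- `s` is transcendental
  have htr : ∀ q : Polynomial Ω, q ≠ 0 → φ (Polynomial.C q) ≠ 0 := by
    intro q hq h
    have h1 := hφ _ h
    have h2 : P.natDegree = 0 := by
      have h3 := Polynomial.natDegree_le_of_dvd h1 (Polynomial.C_ne_zero.2 hq)
      rw [Polynomial.natDegree_C] at h3
      omega
    rw [Polynomial.natDegree_eq_zero] at h2
    obtain ⟨p, hp⟩ := h2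
    have h3 : p ∣ -1 := by
      obtain ⟨V, hV⟩ := hPW
      have h4 := congrArg (Polynomial.evalRingHom (0 : Polynomial Ω)) hV
      rw [hev, map_mul, ← hp, Polynomial.coe_evalRingHom, Polynomial.eval_C] at h4
      exact ⟨_, h4⟩
    have h5 : IsUnit p := isUnit_of_dvd_unit h3 isUnit_one.neg
    apply hP.not_isUnit
    rw [← hp]
    exact h5.map Polynomial.C
  let _ : Algebra Ω E := (φ.comp c).toAlgebra
  have halg : algebraMap Ω E = φ.comp c := rfl
  let σ : E := φ (Polynomial.C Polynomial.X)
  let μ : E := φ Polynomial.X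
  have hσ : σ ≠ 0 := htr _ Polynomial.X_ne_zero
  have hdet : (Bm.map φ).det = 1 := by
    have h1 : φ Bm.det = 1 := by
      have h2 : Bm.det = W + 1 := by simp only [W, sub_add_cancel]
      rw [h2, map_add, hφW, map_one, zero_add]
    rw [RingHom.map_det, RingHom.mapMatrix_apply] at h1
    exact h1
  have hBm : Bm.map φ = μ • (b.map (φ.comp c) + σ • R.map (φ.comp c)) := by
    ext i j
    simp only [Bm, Matrix.map_apply, Matrix.smul_apply, Matrix.add_apply, smul_eq_mul, map_mul,
      map_add, RingHom.comp_apply]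
    rfl
  have hμ : μ ≠ 0 := by
    intro h
    rw [hBm, h, zero_smul, Matrix.det_zero] at hdet
    exact zero_ne_one hdet
  refine ⟨E, inferInstance, inferInstance, inferInstance, Bm.map φ, hdet, ?_, ?_, ?_⟩
  · -- cyclic vector
    obtain ⟨v, hv⟩ := hR
    let N : Mat r (Polynomial Ω) := (Polynomial.X : Polynomial Ω) • b.map Polynomial.C +
      R.map Polynomial.C
    let D : Polynomial Ω := (Matrix.of fun i k : Fin r =>
      ((N ^ (k : ℕ)) *ᵥ (fun j => Polynomial.C (v j))) i).det
    have key : ∀ {S : Type} [CommRing S] (f : Polynomial Ω →+* S),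
        f D = (Matrix.of fun i k : Fin r =>
          (((N.map f) ^ (k : ℕ)) *ᵥ (fun j => f (Polynomial.C (v j)))) i).det := by
      intro S _ f
      simp only [D]
      rw [RingHom.map_det]
      congr 1
      ext i k
      simp only [RingHom.mapMatrix_apply, Matrix.map_apply, Matrix.of_apply]
      rw [RingHom.map_mulVec, ← RingHom.mapMatrix_apply, map_pow, RingHom.mapMatrix_apply]
      rfl
    have hD : D ≠ 0 := by
      intro h
      have h1 := key (Polynomial.evalRingHom (0 : Ω))
      rw [h, map_zero] at h1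
      apply hv
      rw [h1]
      have h2 : N.map (Polynomial.evalRingHom (0 : Ω)) = R := by
        ext i j
        simp [N]
      rw [h2]
      simp
    have hDE : Polynomial.eval₂RingHom (φ.comp c) σ⁻¹ D ≠ 0 := by
      intro h
      rw [Polynomial.coe_eval₂RingHom] at h
      let _ : Invertible (σ⁻¹ : E) := invertibleOfNonzero (inv_ne_zero hσ)
      rw [← Polynomial.eval₂_reverse_eq_zero_iff, invOf_eq_inv, inv_inv] at h
      have h1 : ∀ q : Polynomial Ω, Polynomial.eval₂ (φ.comp c) σ q = φ (Polynomial.C q) := by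
        intro q
        have h2 : Polynomial.eval₂RingHom (φ.comp c) σ =
            φ.comp (Polynomial.C : Polynomial Ω →+* A) := by
          ext x
          · simp [c]
          · simp [σ]
        have h3 := congrArg (fun f : Polynomial Ω →+* E => f q) h2
        simpa using h3
      rw [h1] at h
      exact htr _ (by rwa [Ne, Polynomial.reverse_eq_zero]) h
    rw [key] at hDE
    refine ⟨fun j => (φ.comp c) (v j), ?_⟩
    have hN : Bm.map φ = (μ * σ) • N.map (Polynomial.eval₂RingHom (φ.comp c) σ⁻¹) := by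
      rw [hBm]
      ext i j
      simp only [N, Matrix.map_apply, Matrix.smul_apply, Matrix.add_apply, smul_eq_mul,
        Polynomial.coe_eval₂RingHom, Polynomial.eval₂_X, Polynomial.eval₂_C,
        Polynomial.eval₂_add, Polynomial.eval₂_mul]
      field_simp
    have h1 : (Matrix.of fun i k : Fin r =>
        (((Bm.map φ) ^ (k : ℕ)) *ᵥ (fun j => (φ.comp c) (v j))) i) =
        Matrix.of fun i k : Fin r => (μ * σ) ^ (k : ℕ) *
          (Matrix.of fun i k : Fin r => (((N.map (Polynomial.eval₂RingHom (φ.comp c) σ⁻¹)) ^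
            (k : ℕ)) *ᵥ (fun j => Polynomial.eval₂RingHom (φ.comp c) σ⁻¹
              (Polynomial.C (v j)))) i) i k := by
      ext i k
      simp only [Matrix.of_apply, hN, smul_pow, Matrix.smul_mulVec, Pi.smul_apply, smul_eq_mul,
        Polynomial.coe_eval₂RingHom, Polynomial.eval₂_C]
    rw [h1, Matrix.det_mul_row]
    exact mul_ne_zero (Finset.prod_ne_zero_iff.2 fun k _ => pow_ne_zero _ (mul_ne_zero hμ hσ)) hDE
  · rw [halg, hBm]
    have h1 : a.map (φ.comp c) * b.map (φ.comp c) = b.map (φ.comp c) * a.map (φ.comp c) := by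
      rw [← Matrix.map_mul, ← Matrix.map_mul, hab]
    have h2 : a.map (φ.comp c) * R.map (φ.comp c) = R.map (φ.comp c) * a.map (φ.comp c) := by
      rw [← Matrix.map_mul, ← Matrix.map_mul, haR]
    rw [Matrix.mul_smul, Matrix.smul_mul, Matrix.mul_add, Matrix.add_mul, Matrix.mul_smul,
      Matrix.smul_mul, h1, h2]
  · intro h
    let fA : A := MvPolynomial.eval₂ c (ccoord (fun _ : Fin 1 => a.map c) fun _ => Bm) F
    have h1 : φ fA = 0 := by
      rw [MvPolynomial.aeval_def, halg] at h
      simp only [fA]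
      rw [MvPolynomial.hom_eval₂]
      convert h using 2
      ext x
      rw [ccoord_map]
      rfl
    obtain ⟨V, hV⟩ := hφ _ h1
    have h2 : ψ fA = 0 := by rw [hV, map_mul, hψP, zero_mul]
    apply hF
    have h3 : (a.map c).map ψ = a := by
      rw [Matrix.map_map]
      have h4 : (ψ ∘ c : Ω → Ω) = id := by
        funext x
        exact congrArg (fun f : Ω →+* Ω => f x) hψc
      rw [h4, Matrix.map_id]
    have h5 : (fun x => ψ (ccoord (fun _ : Fin 1 => a.map c) (fun _ => Bm) x)) =
        ccoord (fun _ : Fin 1 => a) fun _ => b := by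
      funext x
      rw [ccoord_map, hψB, h3]
    simp only [fA] at h2
    rw [MvPolynomial.hom_eval₂, hψc, h5] at h2
    exact h2

end V3_G1e

end Pool.Agent.MP_3f0e22_ag

namespace Pool.Agent.MP_3f0e22_ag

alias perturb₁ := V3_G1e.perturb₁

end Pool.Agent.MP_3f0e22_ag
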