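import Pool.Agent.MP_3f0e22_ag.VDEN
import Pool.Agent.MP_3f0e22_ag.Gp
import Pool.Agent.MP_3f0e22_ag.Defs3

set_option autoImplicit false

open Matrix MvPolynomial

namespace Pool.Agent.MP_3f0e22_ag.V3_G1f

/-- Denominators, at points of extensions. -/
theorem den {Ω : Type} [Field Ω] {σ τ : Type*} (F : MvPolynomial σ Ω)
    (N : σ → MvPolynomial τ Ω) (δ : MvPolynomial τ Ω) :
    ∃ (Φ : MvPolynomial τ Ω) (k : ℕ), ∀ (E : Type) [Field E] [Algebra Ω E] (z : τ → E),
      aeval z δ ≠ 0 → aeval z Φ =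
        (aeval z δ) ^ k * aeval (fun s => aeval z (N s) / aeval z δ) F := by
  induction F using MvPolynomial.induction_on with
  | C a =>
    refine ⟨C a, 0, fun E _ _ z _ => ?_⟩
    rw [pow_zero, one_mul, algHom_C, algHom_C]
  | add p q hp hq =>
    obtain ⟨Φ, k, h⟩ := hp
    obtain ⟨Ψ, l, h'⟩ := hq
    refine ⟨Φ * δ ^ l + Ψ * δ ^ k, k + l, fun E _ _ z hz => ?_⟩
    rw [map_add, map_mul, map_mul, map_pow, map_pow, h E z hz, h' E z hz, map_add]
    ring
  | mul_X p s hp =>
    obtain ⟨Φ, k, h⟩ := hp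
    refine ⟨Φ * N s, k + 1, fun E _ _ z hz => ?_⟩
    rw [map_mul, h E z hz, map_mul, aeval_X]
    field_simp
    ring

/-- The resultant with explicit degrees detects coprimality for a monic polynomial. -/
theorem res_iff {k : Type*} [Field k] {f g : Polynomial k} (hf : f.Monic) {n : ℕ}
    (hg : g.natDegree ≤ n) :
    Polynomial.resultant f g f.natDegree n ≠ 0 ↔ IsCoprime f g := by
  obtain ⟨m, rfl⟩ := Nat.exists_eq_add_of_le hg
  rw [Polynomial.resultant_add_right_deg _ _ _ _ _ le_rfl, Polynomial.coeff_natDegree,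
    hf.leadingCoeff, one_pow, one_mul, ← isUnit_iff_ne_zero]
  exact Polynomial.isUnit_resultant_iff_isCoprime hf

theorem charpoly_smul {E : Type*} [Field E] {r : ℕ} (M : Mat r E) (c : E) (hc : c ≠ 0) :
    (c • M).charpoly = Polynomial.C (c ^ r) *
      M.charpoly.comp (Polynomial.C c⁻¹ * Polynomial.X) := by
  have h1 : (c • M).charmatrix = (Polynomial.C c) •
      ((Polynomial.compRingHom (Polynomial.C c⁻¹ * Polynomial.X)).mapMatrix M.charmatrix) := by
    ext1 i j
    rw [Matrix.smul_apply, RingHom.mapMatrix_apply, Matrix.map_apply, Matrix.charmatrix_apply,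
      Matrix.charmatrix_apply, Polynomial.coe_compRingHom_apply, Polynomial.sub_comp,
      Polynomial.C_comp, Matrix.smul_apply, smul_eq_mul, smul_eq_mul, mul_sub, Polynomial.C_mul]
    congr 1
    by_cases hij : i = j
    · subst hij
      rw [Matrix.diagonal_apply_eq, Polynomial.X_comp, ← mul_assoc, ← Polynomial.C_mul,
        mul_inv_cancel₀ hc, Polynomial.C_1, one_mul]
    · rw [Matrix.diagonal_apply_ne _ hij, Polynomial.zero_comp, mul_zero]
  rw [Matrix.charpoly, h1, Matrix.det_smul, Fintype.card_fin, ← RingHom.map_det,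
    Polynomial.coe_compRingHom_apply, Polynomial.C_pow, Matrix.charpoly]

theorem separable_smul {E : Type*} [Field E] {r : ℕ} (M : Mat r E) (c : E) (hc : c ≠ 0)
    (h : M.charpoly.Separable) : (c • M).charpoly.Separable := by
  rw [charpoly_smul M c hc]
  refine Polynomial.Separable.unit_mul (Polynomial.isUnit_C.2 (pow_ne_zero r hc).isUnit) ?_
  have h1 : IsCoprime (M.charpoly.comp (Polynomial.C c⁻¹ * Polynomial.X))
      (M.charpoly.derivative.comp (Polynomial.C c⁻¹ * Polynomial.X)) :=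
    IsCoprime.map h (Polynomial.compRingHom (Polynomial.C c⁻¹ * Polynomial.X))
  rw [Polynomial.Separable, Polynomial.derivative_comp]
  have h2 : Polynomial.derivative (Polynomial.C c⁻¹ * Polynomial.X) = Polynomial.C c⁻¹ := by
    simp
  rw [h2]
  exact (isCoprime_mul_unit_left_right
    (Polynomial.isUnit_C.2 (inv_ne_zero hc).isUnit) _ _).2 h1

/-- `(1 - s) b + s D`, over an algebra. -/
noncomputable def mm {Ω A : Type*} [Field Ω] [CommRing A] [Algebra Ω A] {r : ℕ} (b : Mat r Ω)
    (d : Fin r → Ω) (s : A) : Mat r A :=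
  (1 - s) • b.map (algebraMap Ω A) + s • (diagonal d).map (algebraMap Ω A)

theorem mm_map {Ω A B : Type*} [Field Ω] [CommRing A] [Algebra Ω A] [CommRing B] [Algebra Ω B]
    {r : ℕ} (b : Mat r Ω) (d : Fin r → Ω) (s : A) (φ : A →ₐ[Ω] B) :
    (mm b d s).map φ = mm b d (φ s) := by
  ext i j
  simp only [mm, Matrix.map_apply, Matrix.add_apply, Matrix.smul_apply, smul_eq_mul, map_add,
    map_mul, map_sub, map_one, AlgHom.commutes]

/-- The characteristic polynomial is separable at a transcendental parameter. -/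
theorem separable_mm {Ω E : Type} [Field Ω] [Field E] [Algebra Ω E] {r : ℕ} (b : Mat r Ω)
    (d : Fin r → Ω) (hd : Function.Injective d) (s : E) (hs : Transcendental Ω s) :
    (mm b d s).charpoly.Separable := by
  set f : Polynomial (Polynomial Ω) := (mm b d (Polynomial.X : Polynomial Ω)).charpoly with hf
  have hfm : f.Monic := Matrix.charpoly_monic _
  have hfr : f.natDegree = r := by
    rw [hf, Matrix.charpoly_natDegree_eq_dim, Fintype.card_fin]
  set ρ : Polynomial Ω := Polynomial.resultant f (Polynomial.derivative f) r (r - 1) with hρ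
  have key : ∀ {B : Type} [Field B] [Algebra Ω B] (t : B),
      Polynomial.aeval t ρ ≠ 0 ↔ (mm b d t).charpoly.Separable := by
    intro B _ _ t
    have h1 : f.map (Polynomial.aeval t : Polynomial Ω →ₐ[Ω] B).toRingHom =
        (mm b d t).charpoly := by
      rw [hf, ← Matrix.charpoly_map]
      congr 1
      have := mm_map b d (Polynomial.X : Polynomial Ω) (Polynomial.aeval t : Polynomial Ω →ₐ[Ω] B)
      rw [Polynomial.aeval_X] at this
      exact this
    have h2 : (Polynomial.aeval t : Polynomial Ω →ₐ[Ω] B).toRingHom ρ =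
        Polynomial.resultant (mm b d t).charpoly (Polynomial.derivative (mm b d t).charpoly)
          r (r - 1) := by
      rw [hρ, ← Polynomial.resultant_map_map, h1, ← Polynomial.derivative_map, h1]
    have h3 : (mm b d t).charpoly.natDegree = r := by
      rw [Matrix.charpoly_natDegree_eq_dim, Fintype.card_fin]
    have h4 : (Polynomial.derivative (mm b d t).charpoly).natDegree ≤ r - 1 := by
      have := Polynomial.natDegree_derivative_le (mm b d t).charpoly
      rwa [h3] at this
    have h5 := res_iff (Matrix.charpoly_monic (mm b d t)) h4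
    rw [h3] at h5
    rw [Polynomial.Separable, ← h5, ← h2]
    rfl
  have h1 : Polynomial.aeval (1 : Ω) ρ ≠ 0 := by
    rw [key]
    have h2 : mm b d (1 : Ω) = diagonal d := by
      ext i j
      simp [mm]
    rw [h2, Matrix.charpoly_diagonal]
    exact Polynomial.separable_prod_X_sub_C_iff.2 hd
  have h2 : ρ ≠ 0 := by
    intro h
    rw [h, map_zero] at h1
    exact h1 rfl
  rw [← key]
  intro h
  exact h2 ((transcendental_iff.1 hs) ρ h)

/-- G1f: the second perturbation. -/
theorem perturb₂ {Ω : Type} [Field Ω] [Infinite Ω] {r : ℕ} (hr : 1 ≤ r) (p : Polynomial Ω)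
    (b : Mat r Ω) (ha : (Polynomial.aeval b p).det = 1) (hb : b.det = 1)
    (F : MvPolynomial ((Fin 1 ⊕ Fin 1) × Fin r × Fin r) Ω)
    (hF : eval (ccoord (fun _ : Fin 1 => Polynomial.aeval b p) fun _ => b) F ≠ 0) :
    ∃ (E : Type) (_ : Field E) (_ : Algebra Ω E) (_ : IsAlgClosed E) (q : Polynomial E)
      (b' : Mat r E), (Polynomial.aeval b' q).det = 1 ∧ b'.det = 1 ∧ b'.charpoly.Separable ∧
      aeval (ccoord (fun _ : Fin 1 => Polynomial.aeval b' q) fun _ => b') F ≠ 0 := by
  classical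
  obtain ⟨d, hd⟩ : ∃ d : Fin r → Ω, Function.Injective d :=
    ⟨fun i => Infinite.natEmbedding Ω i,
      fun i j h => Fin.ext ((Infinite.natEmbedding Ω).injective h)⟩
  let R3 := MvPolynomial (Fin 3) Ω
  let M : Mat r R3 := mm b d (X 0 : R3)
  let P : Mat r R3 := Polynomial.aeval M p
  let N : (Fin 1 ⊕ Fin 1) × Fin r × Fin r → R3 := fun x =>
    match x with
    | (Sum.inl _, y) => X 1 * P y.1 y.2
    | (Sum.inr _, y) => X 2 * M y.1 y.2
  obtain ⟨Φ, k, hΦ⟩ := den F N (X 1 * X 2 : R3)
  -- evaluation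
  have hM : ∀ (E : Type) [Field E] [Algebra Ω E] (z : Fin 3 → E),
      M.map (aeval z : R3 →ₐ[Ω] E) = mm b d (z 0) := by
    intro E _ _ z
    have := mm_map b d (X 0 : R3) (aeval z : R3 →ₐ[Ω] E)
    rwa [aeval_X] at this
  have hP : ∀ (E : Type) [Field E] [Algebra Ω E] (z : Fin 3 → E),
      P.map (aeval z : R3 →ₐ[Ω] E) = Polynomial.aeval (mm b d (z 0)) p := by
    intro E _ _ z
    rw [← hM E z]
    exact (Polynomial.aeval_algHom_apply (AlgHom.mapMatrix (aeval z : R3 →ₐ[Ω] E)) M p).symm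
  have hdetM : ∀ (E : Type) [Field E] [Algebra Ω E] (z : Fin 3 → E),
      aeval z M.det = (mm b d (z 0)).det := by
    intro E _ _ z
    rw [← hM E z]
    exact AlgHom.map_det (aeval z : R3 →ₐ[Ω] E) M
  have hdetP : ∀ (E : Type) [Field E] [Algebra Ω E] (z : Fin 3 → E),
      aeval z P.det = (Polynomial.aeval (mm b d (z 0)) p).det := by
    intro E _ _ z
    rw [← hP E z]
    exact AlgHom.map_det (aeval z : R3 →ₐ[Ω] E) P
  have hcoord : ∀ (E : Type) [Field E] [Algebra Ω E] (z : Fin 3 → E), z 1 ≠ 0 → z 2 ≠ 0 →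
      (fun s => aeval z (N s) / aeval z (X 1 * X 2 : R3)) =
        ccoord (fun _ : Fin 1 => (z 2)⁻¹ • Polynomial.aeval (mm b d (z 0)) p)
          fun _ => (z 1)⁻¹ • mm b d (z 0) := by
    intro E _ _ z h1 h2
    funext s
    rcases s with ⟨j | j, y⟩
    · have : aeval z (P y.1 y.2) = Polynomial.aeval (mm b d (z 0)) p y.1 y.2 := by
        rw [← hP E z]; rfl
      change aeval z (X 1 * P y.1 y.2) / _ = (z 2)⁻¹ * _
      rw [map_mul, map_mul, aeval_X, aeval_X, this]
      field_simp
    · have : aeval z (M y.1 y.2) = mm b d (z 0) y.1 y.2 := by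
        rw [← hM E z]; rfl
      change aeval z (X 2 * M y.1 y.2) / _ = (z 1)⁻¹ * _
      rw [map_mul, map_mul, aeval_X, aeval_X, this]
      field_simp
  -- the system
  let s : Finset R3 := {X 1 ^ r - M.det, X 2 ^ r - P.det}
  have hscard : s.card ≤ 2 := Finset.card_le_two
  have hmm0 : mm b d (0 : Ω) = b := by
    ext i j
    simp [mm]
  have h₀ : ∀ f ∈ s, eval (![0, 1, 1] : Fin 3 → Ω) f = 0 := by
    intro f hf
    rw [← coe_aeval_eq_eval]
    rcases Finset.mem_insert.1 hf with rfl | hf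
    · change aeval _ (X 1 ^ r - M.det) = 0
      rw [map_sub, map_pow, aeval_X, hdetM]
      simp [hmm0, hb]
    · rw [Finset.mem_singleton.1 hf]
      change aeval _ (X 2 ^ r - P.det) = 0
      rw [map_sub, map_pow, aeval_X, hdetP]
      simp [hmm0, ha]
  have hF₀ : eval (![0, 1, 1] : Fin 3 → Ω) (Φ * (X 1 * X 2)) ≠ 0 := by
    rw [← coe_aeval_eq_eval]
    change aeval (![0, 1, 1] : Fin 3 → Ω) (Φ * (X 1 * X 2)) ≠ 0
    have h1 : aeval (![0, 1, 1] : Fin 3 → Ω) (X 1 * X 2 : R3) ≠ 0 := by
      simp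
    rw [map_mul, hΦ Ω _ h1, hcoord Ω _ (by simp) (by simp)]
    refine mul_ne_zero (mul_ne_zero (pow_ne_zero _ h1) ?_) h1
    have h2 : ((![0, 1, 1] : Fin 3 → Ω) 0) = 0 := rfl
    have h3 : ((![0, 1, 1] : Fin 3 → Ω) 1) = 1 := rfl
    have h4 : ((![0, 1, 1] : Fin 3 → Ω) 2) = 1 := rfl
    rw [h2, h3, h4, hmm0, inv_one, one_smul, one_smul]
    exact hF
  obtain ⟨E₁, _, _, x, hx, hxF, hcard⟩ := exists_generic s (Φ * (X 1 * X 2)) ![0, 1, 1] h₀ hF₀
  have e1 : x 1 ^ r = (mm b d (x 0)).det := by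
    have := hx _ (Finset.mem_insert_self _ _)
    rw [map_sub, map_pow, aeval_X, hdetM, sub_eq_zero] at this
    exact this
  have e2 : x 2 ^ r = (Polynomial.aeval (mm b d (x 0)) p).det := by
    have := hx _ (Finset.mem_insert_of_mem (Finset.mem_singleton_self _))
    rw [map_sub, map_pow, aeval_X, hdetP, sub_eq_zero] at this
    exact this
  -- transcendence
  have htr : Transcendental Ω (x 0) := by
    intro halg
    set L : IntermediateField Ω E₁ := acl Ω (∅ : Set E₁) with hL
    have hx0 : x 0 ∈ L := by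
      rw [hL, mem_acl]
      exact halg.tower_top _
    have hroot : ∀ y : E₁, y ^ r ∈ L → y ∈ L := by
      intro y hy
      rw [hL, mem_acl] at hy ⊢
      exact IsAlgebraic.of_pow (by omega) hy
    have hmmL : ∃ M₀ : Mat r L, M₀.map (algebraMap L E₁) = mm b d (x 0) := by
      refine ⟨mm b d (⟨x 0, hx0⟩ : L), ?_⟩
      exact mm_map b d (⟨x 0, hx0⟩ : L) (IsScalarTower.toAlgHom Ω L E₁)
    obtain ⟨M₀, hM₀⟩ := hmmL
    have hx1 : x 1 ∈ L := by
      apply hroot
      rw [e1, ← hM₀]
      have : (M₀.map (algebraMap L E₁)).det = algebraMap L E₁ M₀.det :=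
        (RingHom.map_det (algebraMap L E₁) M₀).symm
      rw [this]
      exact (M₀.det).2
    have hx2 : x 2 ∈ L := by
      apply hroot
      rw [e2, ← hM₀]
      have h1 : Polynomial.aeval (M₀.map (algebraMap L E₁)) p =
          (Polynomial.aeval M₀ p).map (algebraMap L E₁) :=
        Polynomial.aeval_algHom_apply (AlgHom.mapMatrix (IsScalarTower.toAlgHom Ω L E₁)) M₀ p
      rw [h1]
      have : ((Polynomial.aeval M₀ p).map (algebraMap L E₁)).det =
          algebraMap L E₁ (Polynomial.aeval M₀ p).det :=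
        (RingHom.map_det (algebraMap L E₁) _).symm
      rw [this]
      exact ((Polynomial.aeval M₀ p).det).2
    have := hcard ∅ (by
      rintro _ ⟨i, rfl⟩
      rw [Finset.coe_empty]
      fin_cases i
      · exact hx0
      · exact hx1
      · exact hx2)
    rw [Fintype.card_fin, Finset.card_empty] at this
    omega
  -- the algebraic closure
  let E := AlgebraicClosure E₁
  let ι : E₁ →ₐ[Ω] E := IsScalarTower.toAlgHom Ω E₁ E
  have hι : Function.Injective ι := ι.injective
  let z : Fin 3 → E := fun i => ι (x i)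
  have hz : ∀ f : R3, aeval z f = ι (aeval x f) := by
    intro f
    exact (MvPolynomial.comp_aeval_apply x ι f).symm
  have hxF' : aeval z (Φ * (X 1 * X 2)) ≠ 0 := by
    rw [hz]
    exact (map_ne_zero_iff ι hι).2 hxF
  rw [map_mul] at hxF'
  have hδ : aeval z (X 1 * X 2 : R3) ≠ 0 := right_ne_zero_of_mul hxF'
  have hΦz : aeval z Φ ≠ 0 := left_ne_zero_of_mul hxF'
  have hδ' := hδ
  rw [map_mul, aeval_X, aeval_X] at hδ'
  have hz1 : z 1 ≠ 0 := left_ne_zero_of_mul hδ'
  have hz2 : z 2 ≠ 0 := right_ne_zero_of_mul hδ'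
  have f1 : z 1 ^ r = (mm b d (z 0)).det := by
    change (ι (x 1)) ^ r = _
    rw [← map_pow, e1]
    have : (mm b d (z 0)) = (mm b d (x 0)).map ι := (mm_map b d (x 0) ι).symm
    rw [this]
    exact AlgHom.map_det ι _
  have f2 : z 2 ^ r = (Polynomial.aeval (mm b d (z 0)) p).det := by
    change (ι (x 2)) ^ r = _
    rw [← map_pow, e2]
    have h1 : (mm b d (z 0)) = (mm b d (x 0)).map ι := (mm_map b d (x 0) ι).symm
    have h2 : Polynomial.aeval ((mm b d (x 0)).map ι) p =
        (Polynomial.aeval (mm b d (x 0)) p).map ι :=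
      Polynomial.aeval_algHom_apply (AlgHom.mapMatrix ι) _ p
    rw [h1, h2]
    exact AlgHom.map_det ι _
  have htrz : Transcendental Ω (z 0) := by
    intro h
    exact htr ((isAlgebraic_algHom_iff ι hι).1 h)
  set b' : Mat r E := (z 1)⁻¹ • mm b d (z 0) with hb'
  let q : Polynomial E := Polynomial.C (z 2)⁻¹ *
    (p.map (algebraMap Ω E)).comp (Polynomial.C (z 1) * Polynomial.X)
  have hq : Polynomial.aeval b' q = (z 2)⁻¹ • Polynomial.aeval (mm b d (z 0)) p := by
    have h1 : Polynomial.aeval b' (Polynomial.C (z 1) * Polynomial.X) = mm b d (z 0) := by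
      rw [map_mul, Polynomial.aeval_C, Polynomial.aeval_X, ← Algebra.smul_def, hb', smul_smul,
        mul_inv_cancel₀ hz1, one_smul]
    rw [map_mul, Polynomial.aeval_C, Polynomial.aeval_comp, h1, ← Algebra.smul_def,
      Polynomial.aeval_map_algebraMap]
  refine ⟨E, inferInstance, inferInstance, inferInstance, q, b', ?_, ?_, ?_, ?_⟩
  · rw [hq, Matrix.det_smul, Fintype.card_fin, ← f2, inv_pow, inv_mul_cancel₀ (pow_ne_zero r hz2)]
  · rw [hb', Matrix.det_smul, Fintype.card_fin, ← f1, inv_pow, inv_mul_cancel₀ (pow_ne_zero r hz1)]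
  · exact separable_smul _ _ (inv_ne_zero hz1) (separable_mm b d hd (z 0) htrz)
  · rw [hq, hb', ← hcoord E z hz1 hz2]
    have := hΦ E z hδ
    rw [this] at hΦz
    exact right_ne_zero_of_mul hΦz

end Pool.Agent.MP_3f0e22_ag.V3_G1f

namespace Pool.Agent.MP_3f0e22_ag

alias perturb₂ := V3_G1f.perturb₂

end Pool.Agent.MP_3f0e22_ag
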