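import Pool.Agent.MP_3f0e22_ag.Asm7
import Pool.Agent.MP_3f0e22_ag.VG1a
import Pool.Agent.MP_3f0e22_ag.VG1bc
import Pool.Agent.MP_3f0e22_ag.VG1d
import Pool.Agent.MP_3f0e22_ag.VG1e
import Pool.Agent.MP_3f0e22_ag.VG1f

/-! # MP_3f0e22_ag, version 3: assembly, part 8: commuting pairs, all closed surfaces, scalars -/

set_option autoImplicit false

open Matrix MvPolynomial

namespace Pool.Agent.MP_3f0e22_ag.Asm

section

variable {r : ℕ}

theorem aeval_semiconj {E : Type*} [Field E] (b f D : Mat r E) (h : b * f = f * D)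
    (q : Polynomial E) : Polynomial.aeval b q * f = f * Polynomial.aeval D q := by
  induction q using Polynomial.induction_on' with
  | add p q hp hq => rw [map_add, map_add, add_mul, mul_add, hp, hq]
  | monomial n c =>
    rw [Polynomial.aeval_monomial, Polynomial.aeval_monomial]
    have h1 : b ^ n * f = f * D ^ n := by
      induction n with
      | zero => simp
      | succ n ih => rw [pow_succ, mul_assoc, h, ← mul_assoc, ih, mul_assoc, ← pow_succ]
    rw [mul_assoc, h1, ← mul_assoc, ← mul_assoc, Algebra.commutes]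

theorem aeval_diagonal {E : Type*} [Field E] (β : Fin r → E) (q : Polynomial E) :
    Polynomial.aeval (diagonal β) q = diagonal fun k => q.eval (β k) := by
  have h1 := Polynomial.aeval_algHom_apply (Matrix.diagonalAlgHom (n := Fin r) (α := E) E) β q
  have h2 : (Matrix.diagonalAlgHom (n := Fin r) (α := E) E) β = diagonal β := rfl
  rw [h2] at h1
  rw [h1]
  change diagonal _ = _
  congr 1
  funext k
  have h3 := Polynomial.aeval_algHom_apply (Pi.evalAlgHom E (fun _ : Fin r => E) k) β q
  rw [Polynomial.coe_aeval_eq_eval] at h3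
  exact h3.symm

theorem crep_one_iff {R : Type*} [CommRing R] (a b : Mat r R) (ha : a.det = 1) (hb : b.det = 1) :
    CRep 1 (fun _ : Fin 1 => a) (fun _ => b) ↔ a * b = b * a := by
  have h0 : cval (fun _ : Fin 1 => a) (fun _ => b) = a * b * a.adjugate * b.adjugate := by
    simp [cval]
  constructor
  · intro h
    have h1 := h.rel
    rw [h0, one_smul] at h1
    calc a * b = a * b * (a.adjugate * a) * (b.adjugate * b) * 1 := by
          rw [adjugate_mul, adjugate_mul, ha, hb, one_smul, mul_one, mul_one, mul_one]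
      _ = a * b * a.adjugate * (a * b.adjugate) * b := by simp only [mul_assoc, mul_one]
      _ = b * a := by
        have h2 : a * b * a.adjugate = b := by
          calc a * b * a.adjugate = a * b * a.adjugate * (b.adjugate * b) := by
                rw [adjugate_mul, hb, one_smul, mul_one]
            _ = b := by rw [← mul_assoc, h1, one_mul]
        rw [h2]
        calc b * (a * b.adjugate) * b = b * a * (b.adjugate * b) := by simp only [mul_assoc]
          _ = b * a := by rw [adjugate_mul, hb, one_smul, mul_one]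
  · intro h
    refine ⟨fun _ => ha, fun _ => hb, ?_⟩
    rw [h0, one_smul, h, mul_assoc, mul_assoc, ← mul_assoc a, mul_adjugate, ha, one_smul, one_mul,
      mul_adjugate, hb, one_smul]

theorem fin_one_eq {α : Type*} (a : Fin 1 → α) : a = fun _ => a 0 := by
  funext j
  rw [Subsingleton.elim j 0]

theorem eval_map_eq {E E' σ : Type} [Field E] [Field E'] [Algebra E E'] (x : σ → E')
    (F : MvPolynomial σ E) : eval x (MvPolynomial.map (algebraMap E E') F) = aeval x F := by
  rw [eval_map, aeval_def]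

theorem eval_map_alg {E E' σ : Type} [Field E] [Field E'] [Algebra E E'] (x : σ → E)
    (F : MvPolynomial σ E) : eval (fun s => algebraMap E E' (x s))
      (MvPolynomial.map (algebraMap E E') F) = algebraMap E E' (eval x F) := by
  rw [eval_map_eq]
  exact MvPolynomial.aeval_algebraMap_apply E' x F

/-- Density for the torus: commuting pairs. -/
theorem closed_one {O Ω : Type} [CommRing O] [Field Ω] [IsAlgClosed Ω] (hr : 1 ≤ r) (ι : O →+* Ω)
    (hι : Function.Injective ι) (v : Oˣ) (hv : ∀ m : ℤ, v ^ m = 1 → m = 0)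
    (F : MvPolynomial ((Fin 1 ⊕ Fin 1) × Fin r × Fin r) Ω)
    (hF : ∀ a b : Fin 1 → Mat r O, CRep 1 a b → eval (fun x => ι (ccoord a b x)) F = 0)
    (a b : Fin 1 → Mat r Ω) (h : CRep 1 a b) : eval (ccoord a b) F = 0 := by
  by_contra hne
  rw [fin_one_eq a, fin_one_eq b] at h hne
  have had := h.det_a 0
  have hbd := h.det_b 0
  have hab := (crep_one_iff (a 0) (b 0) had hbd).1 h
  obtain ⟨R, hR1, hR2⟩ := exists_cyc (a 0)
  obtain ⟨E₁, _, _, _, b₁, hb₁, hcyc, hcomm, hF₁⟩ :=
    perturb₁ hr (a 0) (b 0) had hbd hab R hR2 hR1 F hne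
  obtain ⟨p, hp⟩ := exists_aeval _ b₁ hcyc hcomm
  have hda : ((a 0).map (algebraMap Ω E₁)).det = 1 := by
    have := RingHom.map_det (algebraMap Ω E₁) (a 0)
    rw [RingHom.mapMatrix_apply] at this
    rw [← this, had, map_one]
  rw [hp] at hda
  rw [hp, ← eval_map_eq] at hF₁
  haveI : Infinite E₁ := IsAlgClosed.instInfinite
  obtain ⟨E₂, _, _, _, q, b₂, hq, hb₂, hsep, hF₂⟩ := perturb₂ hr p b₁ hda hb₁ _ hF₁
  obtain ⟨f, f', β, hff, hff', hfd, hbf⟩ := exists_diag_of_separable b₂ hsep
  have hb₂' : b₂ = f * diagonal β * f' := by rw [← hbf, mul_assoc, hff, mul_one]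
  have hq' : Polynomial.aeval b₂ q = f * diagonal (fun k => q.eval (β k)) * f' := by
    rw [← aeval_diagonal, ← aeval_semiconj b₂ f _ hbf, mul_assoc, hff, mul_one]
  have hdet : ∀ w : Fin r → E₂, (f * diagonal w * f').det = ∏ k, w k := by
    intro w
    rw [det_mul_comm, ← mul_assoc, hff', one_mul, det_diagonal]
  set ι₂ : O →+* E₂ := (algebraMap E₁ E₂).comp ((algebraMap Ω E₁).comp ι) with hι₂
  have hι₂' : Function.Injective ι₂ :=
    (algebraMap E₁ E₂).injective.comp ((algebraMap Ω E₁).injective.comp hι)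
  apply hF₂
  rw [← eval_map_eq, hq', hb₂']
  refine diag_density ι₂ hι₂' v hv _ ?_ f f' hff hfd _ _ ?_ ?_
  · intro x y hxy
    have h1 := hF x y hxy
    have h2 : (fun w => ι₂ (ccoord x y w)) = fun w =>
        algebraMap E₁ E₂ (algebraMap Ω E₁ (ι (ccoord x y w))) := rfl
    rw [h2, eval_map_alg, eval_map_alg, h1, map_zero, map_zero]
  · rw [← hdet, ← hq', hq]
  · rw [← hdet, ← hb₂', hb₂]

end

section

variable {O O' Ω : Type} [CommRing O] [IsDomain O] [CommRing O'] [IsDomain O'] [Field Ω]
  [IsAlgClosed Ω] {r g : ℕ}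

/-- Density for all the closed surfaces. -/
theorem closed_all (i : O →+* O') (ι : O' →+* Ω) (hi : Function.Injective i)
    (hι : Function.Injective ι)
    (hcap : ∀ I : Ideal O, I.FG → ∃ α : O', I.map i = Ideal.span {α}) (hr : 3 ≤ r)
    (v : Oˣ) (hv : ∀ m : ℤ, v ^ m = 1 → m = 0) (t : Fin r → Oˣ) (ht1 : ∏ k, t k = 1)
    (ht : ∀ k l, k ≠ l → IsUnit ((t k : O) - (t l : O)))
    (F : MvPolynomial ((Fin g ⊕ Fin g) × Fin r × Fin r) Ω)
    (hF : ∀ a b : Fin g → Mat r O', CRep 1 a b → eval (fun x => ι (ccoord a b x)) F = 0)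
    (a b : Fin g → Mat r Ω) (h : CRep 1 a b) : eval (ccoord a b) F = 0 := by
  rcases g with _ | _ | g
  · have h1 := hF (fun _ => 1) (fun _ => 1) ⟨fun j => j.elim0, fun j => j.elim0, by simp [cval]⟩
    rw [← h1]
    congr 2
    funext x
    rcases x with ⟨j | j, w⟩
    · exact j.elim0
    · exact j.elim0
  · have hv' : ∀ m : ℤ, (Units.map (i : O →* O') v) ^ m = 1 → m = 0 := by
      intro m hm
      apply hv
      rw [← map_zpow] at hm
      exact Units.map_injective (f := (i : O →* O')) hi (by rw [hm, map_one])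
    exact closed_one (by omega) ι hι _ hv' F hF a b h
  · refine closed_core i ι hi hι hcap hr v hv t ht1 ht 1 (one_pow r) F ?_ a b ?_
    · intro x y hxy
      rw [map_one] at hxy
      exact hF x y hxy
    · rw [map_one, map_one]
      exact h

/-- Density for all the closed surfaces, with scalars. -/
theorem closed_all_GL (i : O →+* O') (ι : O' →+* Ω) (hi : Function.Injective i)
    (hι : Function.Injective ι)
    (hcap : ∀ I : Ideal O, I.FG → ∃ α : O', I.map i = Ideal.span {α}) (hr : 3 ≤ r)
    (v : Oˣ) (hv : ∀ m : ℤ, v ^ m = 1 → m = 0) (t : Fin r → Oˣ) (ht1 : ∏ k, t k = 1)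
    (ht : ∀ k l, k ≠ l → IsUnit ((t k : O) - (t l : O)))
    (F : MvPolynomial ((Fin g ⊕ Fin g) × Fin r × Fin r) Ω)
    (hF : ∀ (μ ν : Fin g → O'ˣ) (a b : Fin g → Mat r O'), CRep 1 a b →
      eval (fun x => ι (ccoord (fun j => (μ j : O') • a j) (fun j => (ν j : O') • b j) x)) F = 0)
    (μ ν : Fin g → Ω) (a b : Fin g → Mat r Ω) (h : CRep 1 a b) :
    eval (ccoord (fun j => μ j • a j) (fun j => ν j • b j)) F = 0 := by
  classical
  -- the polynomial in the scalars and in the matrices
  obtain ⟨P, hP⟩ : ∃ P : MvPolynomial ((Fin g ⊕ Fin g) ⊕ ((Fin g ⊕ Fin g) × Fin r × Fin r)) Ω,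
      ∀ (m : Fin g ⊕ Fin g → Ω) (x y : Fin g → Mat r Ω), eval (Sum.elim m (ccoord x y)) P =
        eval (ccoord (fun j => m (Sum.inl j) • x j) (fun j => m (Sum.inr j) • y j)) F := by
    refine ⟨aeval (fun z : (Fin g ⊕ Fin g) × Fin r × Fin r =>
      (X (Sum.inl z.1) * X (Sum.inr z) :
        MvPolynomial ((Fin g ⊕ Fin g) ⊕ ((Fin g ⊕ Fin g) × Fin r × Fin r)) Ω)) F, ?_⟩
    intro m x y
    have h1 : ∀ w, eval w (aeval (fun z : (Fin g ⊕ Fin g) × Fin r × Fin r =>
        (X (Sum.inl z.1) * X (Sum.inr z) :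
        MvPolynomial ((Fin g ⊕ Fin g) ⊕ ((Fin g ⊕ Fin g) × Fin r × Fin r)) Ω)) F) =
        eval (fun z => w (Sum.inl z.1) * w (Sum.inr z)) F := by
      intro w
      rw [← MvPolynomial.coe_aeval_eq_eval, ← MvPolynomial.coe_aeval_eq_eval]
      change (aeval w) ((aeval _) F) = (aeval _) F
      rw [← AlgHom.comp_apply]
      congr 1
      apply MvPolynomial.algHom_ext
      intro x
      simp
    rw [h1]
    congr 2
    funext z
    rcases z with ⟨j | j, w⟩ <;> rfl
  have hv' : ∀ m : ℤ, (Units.map (i : O →* O') v) ^ m = 1 → m = 0 := by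
    intro m hm
    apply hv
    rw [← map_zpow] at hm
    exact Units.map_injective (f := (i : O →* O')) hi (by rw [hm, map_one])
  -- first the scalars
  have key : ∀ (x y : Fin g → Mat r O'), CRep 1 x y → ∀ m : Fin g ⊕ Fin g → Ω,
      eval (Sum.elim m fun z => ι (ccoord x y z)) P = 0 := by
    intro x y hxy
    obtain ⟨Q, hQ⟩ : ∃ Q : MvPolynomial (Fin g ⊕ Fin g) Ω, ∀ m, eval m Q =
        eval (Sum.elim m fun z => ι (ccoord x y z)) P := by
      refine ⟨aeval (Sum.elim X fun z => C (ι (ccoord x y z))) P, fun m => ?_⟩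
      rw [← MvPolynomial.coe_aeval_eq_eval, ← MvPolynomial.coe_aeval_eq_eval]
      change (aeval m) ((aeval _) P) = (aeval _) P
      rw [← AlgHom.comp_apply]
      congr 1
      apply MvPolynomial.algHom_ext
      intro x
      rcases x with x | x <;> simp
    have hQ0 : Q = 0 := by
      have hinj : Function.Injective fun n : ℤ => ι (((Units.map (i : O →* O') v) ^ n : O'ˣ) : O') := by
        intro n n' hn
        have h1 := Units.ext (hι hn)
        have h2 := hv' (n - n') (by rw [_root_.zpow_sub, h1, mul_inv_cancel])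
        omega
      have hinf : (Set.range fun n : ℤ => ι (((Units.map (i : O →* O') v) ^ n : O'ˣ) : O')).Infinite :=
        Set.infinite_range_of_injective hinj
      refine MvPolynomial.funext_set (s := fun _ => Set.range fun n : ℤ =>
        ι (((Units.map (i : O →* O') v) ^ n : O'ˣ) : O')) (fun _ => hinf) ?_
      intro m hm
      rw [map_zero, hQ]
      have hm' : ∀ j, ∃ n : ℤ, ι (((Units.map (i : O →* O') v) ^ n : O'ˣ) : O') = m j := fun j =>
        hm j (Set.mem_univ j)
      choose n hn using hm'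
      have h2 := hF (fun j => (Units.map (i : O →* O') v) ^ n (Sum.inl j))
        (fun j => (Units.map (i : O →* O') v) ^ n (Sum.inr j)) x y hxy
      have h3 : (fun z => ι (ccoord x y z)) =
          ccoord (fun j => (x j).map ι) fun j => (y j).map ι := ccoord_map ι x y
      rw [h3, hP, ← h2, ccoord_map]
      congr 2
      congr 1
      · funext j
        ext k l
        simp only [Matrix.smul_apply, Matrix.map_apply, smul_eq_mul, map_mul, hn]
      · funext j
        ext k l
        simp only [Matrix.smul_apply, Matrix.map_apply, smul_eq_mul, map_mul, hn]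
    intro m
    rw [← hQ, hQ0, map_zero]
  -- then the matrices
  obtain ⟨F', hF'⟩ : ∃ F' : MvPolynomial ((Fin g ⊕ Fin g) × Fin r × Fin r) Ω, ∀ z, eval z F' =
      eval (Sum.elim (Sum.elim μ ν) z) P := by
    refine ⟨aeval (Sum.elim (fun j => C (Sum.elim μ ν j)) X) P, fun z => ?_⟩
    rw [← MvPolynomial.coe_aeval_eq_eval, ← MvPolynomial.coe_aeval_eq_eval]
    change (aeval z) ((aeval _) P) = (aeval _) P
    rw [← AlgHom.comp_apply]
    congr 1
    apply MvPolynomial.algHom_ext
    intro x
    rcases x with x | x <;> simp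
  have h4 := closed_all i ι hi hι hcap hr v hv t ht1 ht F' (fun x y hxy => by
    rw [hF']
    exact key x y hxy _) a b h
  rw [hF', hP] at h4
  exact h4

end

end Pool.Agent.MP_3f0e22_ag.Asm
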