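import Pool.Agent.MP_3f0e22_ag.Defs

/-! # [CV3-TP1] roots of matrices -/

set_option autoImplicit false

open Matrix Polynomial

namespace Pool.Agent.MP_3f0e22_ag

namespace V3_TP1

/-- a `d`-th root of `X` modulo a product of linear factors with nonzero roots -/
theorem root_mod {Ω : Type} [Field Ω] [IsAlgClosed Ω] [CharZero Ω] (d : ℕ) (hd : 1 ≤ d)
    (s : Multiset Ω) (hs : (0 : Ω) ∉ s) :
    ∃ p : Polynomial Ω, (s.map fun a => (X - C a : Polynomial Ω)).prod ∣ p ^ d - X := by
  induction s using Multiset.induction with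
  | empty => exact ⟨0, by simp⟩
  | cons l s ih =>
    rw [Multiset.mem_cons, not_or] at hs
    obtain ⟨q, g, hg⟩ := ih hs.2
    rw [Multiset.map_cons, Multiset.prod_cons]
    set P := (s.map fun a => (X - C a : Polynomial Ω)).prod with hP
    have hl : l ≠ 0 := fun h => hs.1 h.symm
    by_cases h0 : P.eval l = 0
    · have h1 : (q.eval l) ^ d = l := by
        have h2 := congrArg (eval l) hg
        rw [eval_sub, eval_pow, eval_X, eval_mul, h0, zero_mul] at h2
        exact sub_eq_zero.1 h2
      have hq : q.eval l ≠ 0 := by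
        intro h2
        rw [h2, zero_pow (by omega)] at h1
        exact hl h1.symm
      have hd0 : (d : Ω) ≠ 0 := by exact_mod_cast (by omega : d ≠ 0)
      have hden : (d : Ω) * (q.eval l) ^ (d - 1) ≠ 0 := mul_ne_zero hd0 (pow_ne_zero _ hq)
      set c : Ω := -(g.eval l) / ((d : Ω) * (q.eval l) ^ (d - 1)) with hc
      obtain ⟨k, hk⟩ := Polynomial.powAddExpansion q (C c * P) d
      refine ⟨q + C c * P, ?_⟩
      have e : (q + C c * P) ^ d - X =
          P * (g + (d : Polynomial Ω) * q ^ (d - 1) * C c + k * (C c) ^ 2 * P) := by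
        rw [hk]
        linear_combination hg
      rw [e, mul_comm (X - C l) P]
      apply mul_dvd_mul_left
      rw [dvd_iff_isRoot, IsRoot.def]
      simp only [eval_add, eval_mul, h0, mul_zero, add_zero, eval_pow, eval_C, eval_natCast]
      rw [hc, mul_div_cancel₀ _ hden, add_neg_cancel]
    · obtain ⟨ρ, hρ⟩ := IsAlgClosed.exists_pow_nat_eq l (n := d) (by omega)
      set c : Ω := (ρ - q.eval l) / P.eval l with hc
      refine ⟨q + C c * P, ?_⟩
      have h2 : P ∣ (q + C c * P) ^ d - X := by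
        have h3 : P ∣ (q + C c * P) ^ d - q ^ d := by
          refine dvd_trans ?_ (sub_dvd_pow_sub_pow _ _ d)
          exact ⟨C c, by ring⟩
        have h4 : (q + C c * P) ^ d - X = ((q + C c * P) ^ d - q ^ d) + (q ^ d - X) := by ring
        rw [h4]
        exact dvd_add h3 ⟨g, hg⟩
      have h5 : (X - C l) ∣ (q + C c * P) ^ d - X := by
        rw [dvd_iff_isRoot, IsRoot.def, eval_sub, eval_pow, eval_add, eval_mul, eval_C, eval_X, hc,
          div_mul_cancel₀ _ h0, add_sub_cancel, hρ, sub_self]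
      refine IsCoprime.mul_dvd ?_ h5 h2
      rw [(irreducible_X_sub_C l).coprime_iff_not_dvd, dvd_iff_isRoot]
      exact h0

theorem exists_root {Ω : Type} [Field Ω] [IsAlgClosed Ω] [CharZero Ω] {r : ℕ} (d : ℕ)
    (hd : 1 ≤ d) (T : Mat r Ω) (hT : T.det ≠ 0) :
    ∃ p : Polynomial Ω, Polynomial.aeval T p ^ d = T := by
  have hsplit := IsAlgClosed.splits T.charpoly
  have hprod : T.charpoly = (T.charpoly.roots.map fun a => (X - C a : Polynomial Ω)).prod :=
    hsplit.eq_prod_roots_of_monic T.charpoly_monic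
  have h0 : (0 : Ω) ∉ T.charpoly.roots := by
    intro h
    rw [mem_roots T.charpoly_monic.ne_zero, IsRoot.def, ← coeff_zero_eq_eval_zero] at h
    apply hT
    rw [Matrix.det_eq_sign_charpoly_coeff, h, mul_zero]
  obtain ⟨p, g, hg⟩ := root_mod d hd T.charpoly.roots h0
  refine ⟨p, ?_⟩
  rw [← hprod] at hg
  have h1 := congrArg (aeval T) hg
  rw [map_sub, map_pow, aeval_X, map_mul, Matrix.aeval_self_charpoly, zero_mul] at h1
  exact sub_eq_zero.1 h1

end V3_TP1

end Pool.Agent.MP_3f0e22_ag

namespace Pool.Agent.MP_3f0e22_ag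

alias exists_root := V3_TP1.exists_root

end Pool.Agent.MP_3f0e22_ag
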