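import Pool.Agent.MP_3f0e22_ag.VTP0

set_option autoImplicit false

open Matrix MvPolynomial Module

namespace Pool.Agent.MP_3f0e22_ag.V3_TP2

section core


variable {Ω : Type} [Field Ω] {V : Type} [AddCommGroup V] [Module Ω V]

theorem geom {d : ℕ} (η : Ω) (hη : η ^ d = 1) (h1 : η ≠ 1) :
    ∑ j ∈ Finset.range d, η ^ j = 0 := by
  have h2 := geom_sum_mul η d
  rw [hη, sub_self] at h2
  exact (mul_eq_zero.1 h2).resolve_right (sub_ne_zero.2 h1)

/-- the (unnormalised) projection to the eigenspace of `ζ ^ i` -/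
noncomputable def Q (d : ℕ) (ζ : Ω) (a : End Ω V) (i : ℕ) : End Ω V :=
  ∑ j ∈ Finset.range d, (ζ⁻¹ ^ (i * j)) • a ^ j

theorem mul_Q {d : ℕ} {ζ : Ω} (hζ : ζ ^ d = 1) (h0 : ζ ≠ 0) {a : End Ω V} (ha : a ^ d = 1)
    (i : ℕ) : a * Q d ζ a i = ζ ^ i • Q d ζ a i := by
  have h1 : ∀ j, a * ((ζ⁻¹ ^ (i * j)) • a ^ j) = ζ ^ i • ((ζ⁻¹ ^ (i * (j + 1))) • a ^ (j + 1)) := by
    intro j
    have h5 : ζ⁻¹ ^ (i * j) = ζ ^ i * ζ⁻¹ ^ (i * (j + 1)) := by
      rw [mul_add, mul_one, pow_add, mul_left_comm, ← mul_pow, mul_inv_cancel₀ h0, one_pow,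
        mul_one]
    rw [mul_smul_comm, smul_smul, ← pow_succ', ← h5]
  unfold Q
  rw [Finset.mul_sum, Finset.sum_congr rfl (fun j _ => h1 j), ← Finset.smul_sum]
  congr 1
  have h2 := Finset.sum_range_succ (fun j => (ζ⁻¹ ^ (i * j)) • a ^ j) d
  have h3 := Finset.sum_range_succ' (fun j => (ζ⁻¹ ^ (i * j)) • a ^ j) d
  have h4 : (ζ⁻¹ ^ (i * d)) • a ^ d = (ζ⁻¹ ^ (i * 0)) • a ^ 0 := by
    rw [ha, mul_zero, pow_zero, pow_zero, mul_comm, pow_mul, inv_pow, hζ, inv_one, one_pow]
  rw [h4] at h2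
  exact add_right_cancel (h3.symm.trans h2)

theorem sum_Q {d : ℕ} (hd : 1 ≤ d) {ζ : Ω} (hζ : IsPrimitiveRoot ζ d) {a : End Ω V} :
    ∑ i ∈ Finset.range d, Q d ζ a i = (d : Ω) • (1 : End Ω V) := by
  unfold Q
  rw [Finset.sum_comm, Finset.sum_eq_single 0]
  · simp only [mul_zero, pow_zero, one_smul, Finset.sum_const, Finset.card_range]
    rw [Nat.cast_smul_eq_nsmul Ω]
  · intro j hj hj0
    rw [← Finset.sum_smul]
    have h1 : ∑ i ∈ Finset.range d, ζ⁻¹ ^ (i * j) = 0 := by
      have h2 : ∀ i, ζ⁻¹ ^ (i * j) = (ζ⁻¹ ^ j) ^ i := fun i => by rw [mul_comm, pow_mul]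
      rw [Finset.sum_congr rfl (fun i _ => h2 i)]
      refine geom _ ?_ ?_
      · rw [← pow_mul, mul_comm, pow_mul, inv_pow, hζ.pow_eq_one, inv_one, one_pow]
      · intro h3
        rw [inv_pow, inv_eq_one] at h3
        have h4 := hζ.dvd_of_pow_eq_one j h3
        have h5 := Nat.le_of_dvd (Nat.pos_of_ne_zero hj0) h4
        rw [Finset.mem_range] at hj
        omega
    rw [h1, zero_smul]
  · intro h
    exact absurd (Finset.mem_range.2 (by omega)) h

theorem pow_eig {a : End Ω V} {c : Ω} {u : V} (h : a u = c • u) (j : ℕ) :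
    (a ^ j) u = c ^ j • u := by
  induction j with
  | zero => simp
  | succ j ih => rw [pow_succ', Module.End.mul_apply, ih, map_smul, h, smul_smul, pow_succ]

theorem Q_eig {d : ℕ} (hd : 1 ≤ d) {ζ : Ω} (hζ : IsPrimitiveRoot ζ d) {a : End Ω V} {i i' : ℕ}
    (hi : i < d) (hi' : i' < d) {u : V} (h : a u = ζ ^ i' • u) :
    Q d ζ a i u = if i' = i then (d : Ω) • u else 0 := by
  have h0 : ζ ≠ 0 := hζ.ne_zero (by omega)
  unfold Q
  rw [LinearMap.sum_apply]
  have h1 : ∀ j, ((ζ⁻¹ ^ (i * j)) • a ^ j) u = (ζ ^ i' * (ζ ^ i)⁻¹) ^ j • u := by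
    intro j
    rw [LinearMap.smul_apply, pow_eig h j, smul_smul]
    congr 1
    rw [mul_pow, pow_mul, inv_pow, inv_pow, mul_comm]
  rw [Finset.sum_congr rfl (fun j _ => h1 j), ← Finset.sum_smul]
  split_ifs with h2
  · rw [h2, mul_inv_cancel₀ (pow_ne_zero _ h0)]
    simp
  · rw [geom, zero_smul]
    · rw [mul_pow, inv_pow, ← pow_mul, ← pow_mul, mul_comm i', mul_comm i, pow_mul, pow_mul,
        hζ.pow_eq_one, one_pow, one_pow, inv_one, one_mul]
    · intro h3
      apply h2
      have h4 : ζ ^ i' = ζ ^ i := by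
        field_simp at h3
        exact h3
      exact hζ.pow_inj hi' hi h4

theorem comm_pow {ζ : Ω} {a b : End Ω V} (hab : a * b = ζ • (b * a)) (i : ℕ) :
    a * b ^ i = ζ ^ i • (b ^ i * a) := by
  induction i with
  | zero => simp
  | succ i ih =>
    rw [pow_succ, ← mul_assoc, ih, smul_mul_assoc, mul_assoc, hab, mul_smul_comm, smul_smul,
      ← mul_assoc, pow_succ ζ]

theorem core [FiniteDimensional Ω V] {d : ℕ} (hd : 1 ≤ d) (ζ : Ω) (hζ : IsPrimitiveRoot ζ d)
    (a b : End Ω V) (ha : a ^ d = 1) (hb : b ^ d = 1) (hab : a * b = ζ • (b * a)) :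
    ∃ (m : ℕ) (B : Basis (Fin d × Fin m) Ω V),
      (∀ p, a (B p) = ζ ^ (p.1 : ℕ) • B p) ∧
      (∀ (i j : Fin d) (k : Fin m), (j : ℕ) = ((i : ℕ) + 1) % d → b (B (i, k)) = B (j, k)) ∧
      ∀ C : End Ω V, C * a = a * C → C * b = b * C →
        ∃ A : Matrix (Fin m) (Fin m) Ω, ∀ i k, C (B (i, k)) = ∑ l, A l k • B (i, l) := by
  have h0 : ζ ≠ 0 := hζ.ne_zero (by omega)
  have : NeZero d := ⟨by omega⟩
  have hd0 : (d : Ω) ≠ 0 := (hζ.neZero').out
  set W : Submodule Ω V := LinearMap.ker (a - 1) with hW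
  have memW : ∀ u : V, u ∈ W ↔ a u = u := by
    intro u
    rw [hW, LinearMap.mem_ker, LinearMap.sub_apply, Module.End.one_apply, sub_eq_zero]
  let w := Module.finBasis Ω W
  set m := Module.finrank Ω W with hm
  let v : Fin d × Fin m → V := fun p => (b ^ (p.1 : ℕ)) (w p.2 : V)
  have hbi : ∀ i : ℕ, ∀ u u' : V, (b ^ i) u = (b ^ i) u' → u = u' := by
    intro i u u' h
    have h1 : (b ^ (i * d - i)) ((b ^ i) u) = (b ^ (i * d - i)) ((b ^ i) u') := by rw [h]
    have h2 : i * d - i + i = i * d := Nat.sub_add_cancel (Nat.le_mul_of_pos_right i (by omega))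
    rw [← Module.End.mul_apply, ← Module.End.mul_apply, ← pow_add, h2, mul_comm, pow_mul, hb,
      one_pow] at h1
    simpa using h1
  have heig : ∀ (i : ℕ) (u : V), u ∈ W → a ((b ^ i) u) = ζ ^ i • (b ^ i) u := by
    intro i u hu
    have h1 := congrArg (fun f : End Ω V => f u) (comm_pow hab i)
    simp only [Module.End.mul_apply, LinearMap.smul_apply] at h1
    rw [h1, (memW u).1 hu]
  have hli : LinearIndependent Ω v := by
    rw [Fintype.linearIndependent_iff]
    intro g hg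
    rintro ⟨i, k⟩
    have h1 : Q d ζ a i (∑ p, g p • v p) = 0 := by rw [hg, map_zero]
    rw [map_sum, Fintype.sum_prod_type, Finset.sum_eq_single i] at h1
    · have h2 : ∀ l, Q d ζ a i (g (i, l) • v (i, l)) =
          (b ^ (i : ℕ)) ((d : Ω) • (g (i, l) • (w l : V))) := by
        intro l
        rw [map_smul, Q_eig hd hζ i.2 i.2 (heig i _ (w l).2), if_pos rfl, map_smul, map_smul,
          smul_comm]
      rw [Finset.sum_congr rfl (fun l _ => h2 l), ← map_sum, ← Finset.smul_sum] at h1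
      have h3 := hbi i _ 0 (h1.trans (map_zero _).symm)
      have h4 := (smul_eq_zero.1 h3).resolve_left hd0
      have h5 : ∑ l, g (i, l) • w l = 0 := by
        apply Subtype.ext
        push_cast
        exact h4
      exact Fintype.linearIndependent_iff.1 w.linearIndependent (fun l => g (i, l)) h5 k
    · intro j _ hj
      refine Finset.sum_eq_zero fun l _ => ?_
      rw [map_smul, Q_eig hd hζ i.2 j.2 (heig j _ (w l).2), if_neg (fun h => hj (Fin.ext h)),
        smul_zero]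
    · intro h
      exact absurd (Finset.mem_univ _) h
  have hsp : ⊤ ≤ Submodule.span Ω (Set.range v) := by
    intro u _
    have h1 : u = (d : Ω)⁻¹ • ∑ i ∈ Finset.range d, Q d ζ a i u := by
      have h2 := congrArg (fun f : End Ω V => f u) (sum_Q (a := a) hd hζ)
      simp only [LinearMap.sum_apply, LinearMap.smul_apply, Module.End.one_apply] at h2
      rw [h2, smul_smul, inv_mul_cancel₀ hd0, one_smul]
    rw [h1]
    refine Submodule.smul_mem _ _ (Submodule.sum_mem _ fun i hi => ?_)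
    rw [Finset.mem_range] at hi
    -- `Q i u = b ^ i (b ^ (d - i) (Q i u))`
    set q := Q d ζ a i u with hq
    have haq : a q = ζ ^ i • q := by
      have h2 := congrArg (fun f : End Ω V => f u) (mul_Q (a := a) hζ.pow_eq_one h0 ha i)
      simpa using h2
    have hWq : (b ^ (d - i)) q ∈ W := by
      rw [memW]
      have h2 := congrArg (fun f : End Ω V => f q) (comm_pow hab (d - i))
      simp only [Module.End.mul_apply, LinearMap.smul_apply] at h2
      rw [h2, haq, map_smul, smul_smul, ← pow_add, Nat.sub_add_cancel hi.le, hζ.pow_eq_one,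
        one_smul]
    have hqq : q = (b ^ i) ((b ^ (d - i)) q) := by
      rw [← Module.End.mul_apply, ← pow_add, Nat.add_sub_cancel' hi.le, hb, Module.End.one_apply]
    have h3 : (b ^ (d - i)) q = ∑ l, (w.repr ⟨_, hWq⟩ l) • (w l : V) := by
      have h4 := congrArg (Subtype.val) (w.sum_repr ⟨_, hWq⟩)
      push_cast at h4
      exact h4.symm
    rw [hqq, h3, map_sum]
    refine Submodule.sum_mem _ fun l _ => ?_
    rw [map_smul]
    exact Submodule.smul_mem _ _ (Submodule.subset_span ⟨(⟨i, hi⟩, l), rfl⟩)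
  refine ⟨m, Basis.mk hli hsp, ?_, ?_, ?_⟩
  · intro p
    rw [Basis.mk_apply]
    exact heig p.1 _ (w p.2).2
  · intro i j k hj
    rw [Basis.mk_apply, Basis.mk_apply]
    change b ((b ^ (i : ℕ)) (w k : V)) = (b ^ (j : ℕ)) (w k : V)
    rw [hj, ← pow_eq_pow_mod _ hb, pow_succ']
    rfl
  · intro C hCa hCb
    have hCW : ∀ u ∈ W, C u ∈ W := by
      intro u hu
      rw [memW] at hu ⊢
      have h1 := congrArg (fun f : End Ω V => f u) hCa
      simp only [Module.End.mul_apply] at h1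
      rw [← h1, hu]
    have hCb' : ∀ i : ℕ, C * b ^ i = b ^ i * C := fun i => (Commute.pow_right hCb i)
    refine ⟨fun l k => w.repr ⟨C (w k : V), hCW _ (w k).2⟩ l, fun i k => ?_⟩
    have h2 : C (w k : V) = ∑ l, (w.repr ⟨C (w k : V), hCW _ (w k).2⟩ l) • (w l : V) := by
      have h4 := congrArg (Subtype.val) (w.sum_repr ⟨C (w k : V), hCW _ (w k).2⟩)
      push_cast at h4
      exact h4.symm
    rw [Basis.mk_apply]
    have h3 := congrArg (fun f : End Ω V => f (w k : V)) (hCb' i)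
    simp only [Module.End.mul_apply] at h3
    change C ((b ^ (i : ℕ)) (w k : V)) = _
    rw [h3]
    conv_lhs => rw [h2, map_sum]
    refine Finset.sum_congr rfl fun l _ => ?_
    rw [map_smul, Basis.mk_apply]


end core

/-- TP2: representations of the finite Heisenberg group -/
theorem heis {Ω : Type} [Field Ω] {r d : ℕ} (hd : 1 ≤ d) (ζ : Ω) (hζ : IsPrimitiveRoot ζ d)
    (α β : Mat r Ω) (hα : α ^ d = 1) (hβ : β ^ d = 1) (hαβ : α * β = ζ • (β * α)) :
    ∃ (m : ℕ) (e : Fin d × Fin m ≃ Fin r) (h h' : Mat r Ω), h * h' = 1 ∧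
      α * h = h * tens e (Xm d ζ) 1 ∧ β * h = h * tens e (Zm Ω d) 1 ∧
      ∀ C : Mat r Ω, C * α = α * C → C * β = β * C → ∃ A : Mat m Ω, C * h = h * tens e 1 A := by
  obtain ⟨m, B, h1, h2, h3⟩ := core (V := Fin r → Ω) hd ζ hζ (toLinAlgEquiv' α)
    (toLinAlgEquiv' β) (by rw [← map_pow, hα, map_one]) (by rw [← map_pow, hβ, map_one])
    (by rw [← map_mul, hαβ, map_smul, map_mul])
  have hcard : Fintype.card (Fin d × Fin m) = r := by
    rw [← Module.finrank_eq_card_basis B, Module.finrank_fin_fun]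
  let e : Fin d × Fin m ≃ Fin r := Fintype.equivFinOfCardEq hcard
  let h : Mat r Ω := Matrix.of fun i j => B (e.symm j) i
  have hh : h = (Pi.basisFun Ω (Fin r)).toMatrix (B.reindex e) := by
    ext i j
    simp [h, Basis.toMatrix_apply]
  have hcol : ∀ (T : Mat r Ω) (i j : Fin r), (T * h) i j = toLinAlgEquiv' T (B (e.symm j)) i := by
    intro T i j
    rw [Matrix.toLinAlgEquiv'_apply, Matrix.mul_apply]
    rfl
  have htens : ∀ (X : Mat d Ω) (A : Mat m Ω) (i j : Fin r), (h * tens e X A) i j =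
      ∑ k, ∑ l, B (k, l) i * (X k (e.symm j).1 * A l (e.symm j).2) := by
    intro X A i j
    rw [Matrix.mul_apply, ← e.sum_comp, Fintype.sum_prod_type]
    refine Finset.sum_congr rfl fun k _ => Finset.sum_congr rfl fun l _ => ?_
    simp [h, tens, Matrix.submatrix_apply, Matrix.kroneckerMap_apply]
  refine ⟨m, e, h, (B.reindex e).toMatrix (Pi.basisFun Ω (Fin r)), ?_, ?_, ?_, ?_⟩
  · rw [hh]
    exact Basis.toMatrix_mul_toMatrix_flip _ _
  · ext i j
    rw [hcol, htens, h1]
    rw [Finset.sum_eq_single (e.symm j).1, Finset.sum_eq_single (e.symm j).2]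
    · simp [Xm, mul_comm]
    · intro l _ hl
      rw [Matrix.one_apply_ne hl, mul_zero, mul_zero]
    · intro hc
      exact absurd (Finset.mem_univ _) hc
    · intro k _ hk
      refine Finset.sum_eq_zero fun l _ => ?_
      rw [Xm, Matrix.diagonal_apply_ne _ hk, zero_mul, mul_zero]
    · intro hc
      exact absurd (Finset.mem_univ _) hc
  · ext i j
    have hlt : (((e.symm j).1 : ℕ) + 1) % d < d := Nat.mod_lt _ (by omega)
    rw [hcol, htens, show e.symm j = ((e.symm j).1, (e.symm j).2) from rfl,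
      h2 (e.symm j).1 ⟨_, hlt⟩ (e.symm j).2 rfl]
    rw [Finset.sum_eq_single ⟨_, hlt⟩, Finset.sum_eq_single (e.symm j).2]
    · simp [Zm]
    · intro l _ hl
      rw [Matrix.one_apply_ne hl, mul_zero, mul_zero]
    · intro hc
      exact absurd (Finset.mem_univ _) hc
    · intro k _ hk
      refine Finset.sum_eq_zero fun l _ => ?_
      have hk' : ¬ (k : ℕ) = (((e.symm j).1 : ℕ) + 1) % d := fun hh' => hk (Fin.ext hh')
      simp [Zm, hk']
    · intro hc
      exact absurd (Finset.mem_univ _) hc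
  · intro C hCα hCβ
    obtain ⟨A, hA⟩ := h3 (toLinAlgEquiv' C) (by rw [← map_mul, hCα, map_mul])
      (by rw [← map_mul, hCβ, map_mul])
    refine ⟨A, ?_⟩
    ext i j
    rw [hcol, htens, show e.symm j = ((e.symm j).1, (e.symm j).2) from rfl, hA]
    rw [Finset.sum_eq_single (e.symm j).1]
    · rw [Finset.sum_apply]
      refine Finset.sum_congr rfl fun l _ => ?_
      rw [Matrix.one_apply_eq, one_mul, Pi.smul_apply, smul_eq_mul, mul_comm]
    · intro k _ hk
      refine Finset.sum_eq_zero fun l _ => ?_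
      rw [Matrix.one_apply_ne hk, zero_mul, mul_zero]
    · intro hc
      exact absurd (Finset.mem_univ _) hc

end Pool.Agent.MP_3f0e22_ag.V3_TP2

namespace Pool.Agent.MP_3f0e22_ag

alias heis := V3_TP2.heis

end Pool.Agent.MP_3f0e22_ag
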