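import Pool.Agent.MP_3f0e22_ag.VTP0
import Pool.Agent.MP_3f0e22_ag.VTP1
import Pool.Agent.MP_3f0e22_ag.VTP2

set_option autoImplicit false

open Matrix MvPolynomial

namespace Pool.Agent.MP_3f0e22_ag.V3_TP3

theorem comm_aeval {Ω : Type} [Field Ω] {r : ℕ} (N M : Mat r Ω) (h : M * N = N * M)
    (p : Polynomial Ω) : M * Polynomial.aeval N p = Polynomial.aeval N p * M := by
  have hc : Commute M N := h
  induction p using Polynomial.induction_on' with
  | add p q hp hq => rw [map_add, mul_add, add_mul, hp, hq]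
  | monomial n a =>
    rw [Polynomial.aeval_monomial]
    have h1 : Commute M (N ^ n) := hc.pow_right n
    have h2 : Commute M (algebraMap Ω (Mat r Ω) a) := (Algebra.commutes a M).symm
    exact h2.mul_right h1

theorem pow_mul_tw {Ω : Type} [Field Ω] {r : ℕ} (ζ : Ω) (a b : Mat r Ω)
    (hab : a * b = ζ • (b * a)) (k : ℕ) : a ^ k * b = ζ ^ k • (b * a ^ k) := by
  induction k with
  | zero => simp
  | succ k ih =>
    rw [pow_succ', mul_assoc, ih, Matrix.mul_smul, ← mul_assoc, hab, Matrix.smul_mul, smul_smul,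
      mul_assoc, pow_succ]

theorem mul_pow_tw {Ω : Type} [Field Ω] {r : ℕ} (ζ : Ω) (a b : Mat r Ω)
    (hab : a * b = ζ • (b * a)) (k : ℕ) : a * b ^ k = ζ ^ k • (b ^ k * a) := by
  induction k with
  | zero => simp
  | succ k ih =>
    rw [pow_succ, ← mul_assoc, ih, Matrix.smul_mul, mul_assoc, hab, Matrix.mul_smul, smul_smul,
      ← mul_assoc, pow_succ]

theorem tens_one_inj {R : Type*} [CommRing R] {d m r : ℕ} (hd : 1 ≤ d) (e : Fin d × Fin m ≃ Fin r)
    (A B : Mat m R) (h : tens e (1 : Mat d R) A = tens e 1 B) : A = B := by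
  ext k l
  have h1 := congrFun (congrFun h (e (⟨0, hd⟩, k))) (e (⟨0, hd⟩, l))
  simpa [tens, Matrix.kroneckerMap_apply] using h1

/-- TP3 -/
theorem twisted_pair {Ω : Type} [Field Ω] [IsAlgClosed Ω] [CharZero Ω] {r d : ℕ} (hd : 1 ≤ d)
    (ζ : Ω) (hζ : IsPrimitiveRoot ζ d) (a b : Mat r Ω) (ha : a.det ≠ 0) (hb : b.det ≠ 0)
    (hab : a * b = ζ • (b * a)) :
    ∃ (m : ℕ) (e : Fin d × Fin m ≃ Fin r) (A B : Mat m Ω) (h h' : Mat r Ω), A * B = B * A ∧
      h * h' = 1 ∧ a * h = h * tens e (Xm d ζ) A ∧ b * h = h * tens e (Zm Ω d) B := by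
  have had : (a ^ d).det ≠ 0 := by rw [Matrix.det_pow]; exact pow_ne_zero _ ha
  have hbd : (b ^ d).det ≠ 0 := by rw [Matrix.det_pow]; exact pow_ne_zero _ hb
  obtain ⟨p, hp⟩ := exists_root d hd (a ^ d) had
  obtain ⟨q, hq⟩ := exists_root d hd (b ^ d) hbd
  have c1 : a ^ d * b = b * a ^ d := by
    have := pow_mul_tw ζ a b hab d
    rwa [hζ.pow_eq_one, one_smul] at this
  have c2 : a * b ^ d = b ^ d * a := by
    have := mul_pow_tw ζ a b hab d
    rwa [hζ.pow_eq_one, one_smul] at this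
  have c3 : a ^ d * b ^ d = b ^ d * a ^ d := (Commute.pow_right (show Commute (a ^ d) b from c1) d)
  set A' := Polynomial.aeval (a ^ d) p with hA'
  set B' := Polynomial.aeval (b ^ d) q with hB'
  have aA : a * A' = A' * a := comm_aeval _ _ ((Commute.refl a).pow_right d) p
  have bA : b * A' = A' * b := comm_aeval _ _ c1.symm p
  have aB : a * B' = B' * a := comm_aeval _ _ c2 q
  have bB : b * B' = B' * b := comm_aeval _ _ ((Commute.refl b).pow_right d) q
  have adB : a ^ d * B' = B' * a ^ d := comm_aeval _ _ c3 q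
  have AB : B' * A' = A' * B' := comm_aeval _ _ adB.symm p
  have dA : IsUnit A'.det := by
    rw [isUnit_iff_ne_zero]
    intro h0
    apply had
    rw [← hp, Matrix.det_pow, h0, zero_pow (by omega)]
  have dB : IsUnit B'.det := by
    rw [isUnit_iff_ne_zero]
    intro h0
    apply hbd
    rw [← hq, Matrix.det_pow, h0, zero_pow (by omega)]
  have iA : A' * A'⁻¹ = 1 := Matrix.mul_nonsing_inv _ dA
  have iA' : A'⁻¹ * A' = 1 := Matrix.nonsing_inv_mul _ dA
  have iB : B' * B'⁻¹ = 1 := Matrix.mul_nonsing_inv _ dB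
  have iB' : B'⁻¹ * B' = 1 := Matrix.nonsing_inv_mul _ dB
  -- commuting with `A'` implies commuting with its inverse
  have cinv : ∀ (M N N' : Mat r Ω), N * N' = 1 → N' * N = 1 → M * N = N * M → M * N' = N' * M := by
    intro M N N' h1 h2 h3
    calc M * N' = (N' * N) * (M * N') := by rw [h2, one_mul]
      _ = N' * (N * M) * N' := by simp only [mul_assoc]
      _ = N' * (M * N) * N' := by rw [h3]
      _ = N' * M * (N * N') := by simp only [mul_assoc]
      _ = N' * M := by rw [h1, mul_one]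
  have aAi : a * A'⁻¹ = A'⁻¹ * a := cinv a A' _ iA iA' aA
  have bAi : b * A'⁻¹ = A'⁻¹ * b := cinv b A' _ iA iA' bA
  have aBi : a * B'⁻¹ = B'⁻¹ * a := cinv a B' _ iB iB' aB
  have bBi : b * B'⁻¹ = B'⁻¹ * b := cinv b B' _ iB iB' bB
  have BAi : B' * A'⁻¹ = A'⁻¹ * B' := cinv B' A' _ iA iA' AB
  have ABi : A' * B'⁻¹ = B'⁻¹ * A' := cinv A' B' _ iB iB' AB.symm
  have AiBi : A'⁻¹ * B'⁻¹ = B'⁻¹ * A'⁻¹ := (cinv _ _ _ iB iB' BAi.symm)
  have hα : (a * A'⁻¹) ^ d = 1 := by
    rw [(show Commute a A'⁻¹ from aAi).mul_pow, ← hp,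
      ← (show Commute A' A'⁻¹ from iA.trans iA'.symm).mul_pow, iA, one_pow]
  have hβ : (b * B'⁻¹) ^ d = 1 := by
    rw [(show Commute b B'⁻¹ from bBi).mul_pow, ← hq,
      ← (show Commute B' B'⁻¹ from iB.trans iB'.symm).mul_pow, iB, one_pow]
  have hαβ : (a * A'⁻¹) * (b * B'⁻¹) = ζ • ((b * B'⁻¹) * (a * A'⁻¹)) := by
    calc (a * A'⁻¹) * (b * B'⁻¹) = a * (A'⁻¹ * b) * B'⁻¹ := by simp only [mul_assoc]
      _ = a * (b * A'⁻¹) * B'⁻¹ := by rw [bAi]
      _ = (a * b) * (A'⁻¹ * B'⁻¹) := by simp only [mul_assoc]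
      _ = ζ • ((b * a) * (B'⁻¹ * A'⁻¹)) := by rw [hab, AiBi, Matrix.smul_mul]
      _ = ζ • (b * (a * B'⁻¹) * A'⁻¹) := by simp only [mul_assoc]
      _ = ζ • (b * (B'⁻¹ * a) * A'⁻¹) := by rw [aBi]
      _ = ζ • ((b * B'⁻¹) * (a * A'⁻¹)) := by simp only [mul_assoc]
  obtain ⟨m, e, h, h', hh, e1, e2, hC⟩ := heis hd ζ hζ (a * A'⁻¹) (b * B'⁻¹) hα hβ hαβ
  have cAα : A' * (a * A'⁻¹) = (a * A'⁻¹) * A' :=
    (Commute.mul_right (show Commute A' a from aA.symm) (show Commute A' A'⁻¹ from iA.trans iA'.symm))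
  have cAβ : A' * (b * B'⁻¹) = (b * B'⁻¹) * A' :=
    (Commute.mul_right (show Commute A' b from bA.symm) (show Commute A' B'⁻¹ from ABi))
  have cBα : B' * (a * A'⁻¹) = (a * A'⁻¹) * B' :=
    (Commute.mul_right (show Commute B' a from aB.symm) (show Commute B' A'⁻¹ from BAi))
  have cBβ : B' * (b * B'⁻¹) = (b * B'⁻¹) * B' :=
    (Commute.mul_right (show Commute B' b from bB.symm) (show Commute B' B'⁻¹ from iB.trans iB'.symm))
  obtain ⟨A, hA⟩ := hC A' cAα cAβ
  obtain ⟨B, hB⟩ := hC B' cBα cBβ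
  have hh' : h' * h = 1 := mul_eq_one_comm.1 hh
  refine ⟨m, e, A, B, h, h', ?_, hh, ?_, ?_⟩
  · apply tens_one_inj hd e
    have k1 : A' * B' * h = h * tens e 1 (A * B) := by
      rw [mul_assoc, hB, ← mul_assoc, hA, mul_assoc, tens_mul, one_mul]
    have k2 : B' * A' * h = h * tens e 1 (B * A) := by
      rw [mul_assoc, hA, ← mul_assoc, hB, mul_assoc, tens_mul, one_mul]
    have k3 : h * tens e 1 (A * B) = h * tens e 1 (B * A) := by rw [← k1, ← k2, AB]
    have k4 := congrArg (fun M => h' * M) k3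
    simp only [← mul_assoc, hh', one_mul] at k4
    exact k4
  · calc a * h = (a * A'⁻¹) * (A' * h) := by
          rw [← mul_assoc, mul_assoc a, iA', mul_one]
      _ = (a * A'⁻¹) * h * tens e 1 A := by rw [hA, mul_assoc, mul_assoc, mul_assoc]
      _ = h * tens e (Xm d ζ) A := by rw [e1, mul_assoc, tens_mul, mul_one, one_mul]
  · calc b * h = (b * B'⁻¹) * (B' * h) := by
          rw [← mul_assoc, mul_assoc b, iB', mul_one]
      _ = (b * B'⁻¹) * h * tens e 1 B := by rw [hB, mul_assoc, mul_assoc, mul_assoc]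
      _ = h * tens e (Zm Ω d) B := by rw [e2, mul_assoc, tens_mul, mul_one, one_mul]

end Pool.Agent.MP_3f0e22_ag.V3_TP3

namespace Pool.Agent.MP_3f0e22_ag

alias twisted_pair := V3_TP3.twisted_pair

end Pool.Agent.MP_3f0e22_ag
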