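import Pool.Agent.MP_3f0e22_ag.VTP0
import Pool.Agent.MP_3f0e22_ag.VTP3
import Pool.Agent.MP_3f0e22_ag.Asm8
import Pool.Agent.MP_3f0e22_ag.Sl

set_option autoImplicit false

open Matrix MvPolynomial

namespace Pool.Agent.MP_3f0e22_ag.V3_TP4

section gen

variable {R : Type*} [CommRing R] {r d m : ℕ}

theorem crep_iff (ζ : R) (a b : Mat r R) :
    CRep ζ (fun _ : Fin 1 => a) (fun _ => b) ↔ a.det = 1 ∧ b.det = 1 ∧ a * b = ζ • (b * a) := by
  have h0 : cval (fun _ : Fin 1 => a) (fun _ => b) = a * b * a.adjugate * b.adjugate := by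
    simp [cval]
  constructor
  · intro h
    have ha : a.det = 1 := h.det_a 0
    have hb : b.det = 1 := h.det_b 0
    refine ⟨ha, hb, ?_⟩
    have h1 := h.rel
    rw [h0] at h1
    have h2 : a * b * a.adjugate = ζ • b := by
      calc a * b * a.adjugate = a * b * a.adjugate * (b.adjugate * b) := by
            rw [adjugate_mul, hb, one_smul, mul_one]
        _ = ζ • b := by rw [← mul_assoc, h1, smul_mul_assoc, one_mul]
    calc a * b = a * b * (a.adjugate * a) := by rw [adjugate_mul, ha, one_smul, mul_one]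
      _ = a * b * a.adjugate * a := by simp only [mul_assoc]
      _ = ζ • (b * a) := by rw [h2, smul_mul_assoc]
  · rintro ⟨ha, hb, h⟩
    refine ⟨fun _ => ha, fun _ => hb, ?_⟩
    rw [h0, h]
    rw [smul_mul_assoc, smul_mul_assoc, mul_assoc b, mul_adjugate, ha, one_smul, mul_one,
      mul_adjugate, hb, one_smul]

variable (e : Fin d × Fin m ≃ Fin r)

theorem tens_map {R' : Type*} [CommRing R'] (φ : R →+* R') (X : Mat d R) (A : Mat m R) :
    (tens e X A).map φ = tens e (X.map φ) (A.map φ) := by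
  ext i j
  simp [tens]

theorem tens_smul_left (c : R) (X : Mat d R) (A : Mat m R) :
    tens e (c • X) A = c • tens e X A := by
  ext i j
  simp [tens, mul_assoc]

theorem Xm_map {R' : Type*} [CommRing R'] (φ : R →+* R') (ζ : R) :
    (Xm d ζ).map φ = Xm d (φ ζ) := by
  rw [Xm, diagonal_map (map_zero φ), Xm]
  congr 1
  funext i
  simp

theorem Zm_map {R' : Type*} [CommRing R'] (φ : R →+* R') :
    (Zm R d).map φ = Zm R' d := by
  ext i j
  simp only [Zm, Matrix.map_apply, Matrix.of_apply]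
  split_ifs <;> simp

/-- The conjugate of a tensor product. -/
def pa (h : Mat r R) (X : Mat d R) (A : Mat m R) : Mat r R := h * tens e X A * h.adjugate

theorem pa_map {R' : Type*} [CommRing R'] (φ : R →+* R') (h : Mat r R) (X : Mat d R)
    (A : Mat m R) : (pa e h X A).map φ = pa e (h.map φ) (X.map φ) (A.map φ) := by
  have h1 : (pa e h X A).map φ = (φ.mapMatrix h) * φ.mapMatrix (tens e X A) *
      φ.mapMatrix h.adjugate := by
    rw [← map_mul, ← map_mul]
    rfl
  rw [h1, RingHom.map_adjugate]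
  change h.map φ * (tens e X A).map φ * (h.map φ).adjugate = _
  rw [tens_map, pa]

theorem pa_det (h : Mat r R) (hh : h.det = 1) (X : Mat d R) (A : Mat m R) :
    (pa e h X A).det = X.det ^ m * A.det ^ d := by
  rw [pa, det_mul_comm, ← mul_assoc, adjugate_mul, hh, one_smul, one_mul, tens_det]

theorem pa_mul (h : Mat r R) (hh : h.det = 1) (X Y : Mat d R) (A B : Mat m R) :
    pa e h X A * pa e h Y B = pa e h (X * Y) (A * B) := by
  rw [pa, pa, pa, ← tens_mul]
  calc h * tens e X A * h.adjugate * (h * tens e Y B * h.adjugate) =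
      h * tens e X A * (h.adjugate * h) * tens e Y B * h.adjugate := by
        simp only [mul_assoc]
    _ = h * (tens e X A * tens e Y B) * h.adjugate := by
        rw [adjugate_mul, hh, one_smul, mul_one]
        simp only [mul_assoc]

theorem pa_crep (ζ : R) (hζ : ζ ^ d = 1) (h : Mat r R) (hh : h.det = 1) (A B : Mat m R)
    (hAB : A * B = B * A) (h1 : (Xm d ζ).det ^ m * A.det ^ d = 1)
    (h2 : (Zm R d).det ^ m * B.det ^ d = 1) :
    CRep ζ (fun _ : Fin 1 => pa e h (Xm d ζ) A) (fun _ => pa e h (Zm R d) B) := by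
  rw [crep_iff]
  refine ⟨by rw [pa_det e h hh, h1], by rw [pa_det e h hh, h2], ?_⟩
  rw [pa_mul e h hh, pa_mul e h hh, Xm_mul_Zm ζ hζ, hAB, pa, pa, tens_smul_left,
    mul_smul_comm, smul_mul_assoc]

end gen

section subst

variable {E : Type} [Field E] {r : ℕ}

/-- Substitution. -/
theorem subst {σ : Type} (F : MvPolynomial ((Fin 1 ⊕ Fin 1) × Fin r × Fin r) E)
    (P Q : Mat r (MvPolynomial σ E)) :
    ∃ G : MvPolynomial σ E, ∀ w : σ → E, eval w G =
      eval (ccoord (fun _ => P.map (eval w)) fun _ => Q.map (eval w)) F :=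
  Asm.exists_subst (g := 0) F (fun _ => P) (fun _ => Q)

end subst

section main

variable {O Ω : Type} [CommRing O] [Field Ω] [IsAlgClosed Ω]

/-- A scalar. -/
theorem exists_scalar {d m r : ℕ} (hdm : d * m = r) (hm : 1 ≤ m) (ι : O →+* Ω)
    (hι : Function.Injective ι) (ξ : O) (hr : 1 ≤ r) (hξ : IsPrimitiveRoot ξ (2 * r)) (D : Ω)
    (hD : D ^ 2 = 1) (A : Mat m Ω) (hA : D ^ m * A.det ^ d = 1) :
    ∃ (μ : O) (A₁ : Mat m Ω), ι μ ≠ 0 ∧ A = ι μ • A₁ ∧ A₁.det = 1 ∧
      D ^ m * (ι μ ^ m) ^ d = 1 := by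
  have hA0 : A.det ^ (2 * d) = 1 := by
    have h1 : (D ^ m * A.det ^ d) ^ 2 = 1 := by rw [hA, one_pow]
    rw [mul_pow, ← pow_mul, mul_comm m 2, pow_mul, hD, one_pow, one_mul, ← pow_mul,
      mul_comm d 2] at h1
    exact h1
  obtain ⟨μ, hμ⟩ := IsAlgClosed.exists_pow_nat_eq A.det (n := m) (by omega)
  have hd : 1 ≤ d := by
    rcases Nat.eq_zero_or_pos d with h | h
    · subst h; omega
    · exact h
  have hdet0 : A.det ≠ 0 := by
    intro h0
    rw [h0, zero_pow (by omega)] at hA0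
    exact zero_ne_one hA0
  have hμ0 : μ ≠ 0 := by
    intro h0
    rw [h0, zero_pow (by omega)] at hμ
    exact hdet0 hμ.symm
  have hμr : μ ^ (2 * r) = 1 := by
    rw [← hdm, show 2 * (d * m) = m * (2 * d) by ring, pow_mul, hμ, hA0]
  have hprim := hξ.map_of_injective hι
  have : NeZero (2 * r) := ⟨by omega⟩
  obtain ⟨i, -, hi⟩ := hprim.eq_pow_of_pow_eq_one hμr
  refine ⟨ξ ^ i, μ⁻¹ • A, ?_, ?_, ?_, ?_⟩
  · rw [map_pow, hi]; exact hμ0
  · rw [map_pow, hi, smul_smul, mul_inv_cancel₀ hμ0, one_smul]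
  · rw [det_smul, Fintype.card_fin, ← hμ, inv_pow, inv_mul_cancel₀ (pow_ne_zero _ hμ0)]
  · rw [map_pow, hi, hμ, hA]

/-- TP4: density for twisted commuting pairs -/
theorem closed_one_tw {O Ω : Type} [CommRing O] [IsDomain O] [Field Ω] [IsAlgClosed Ω]
    [CharZero Ω] {r : ℕ} (hr : 1 ≤ r) (ι : O →+* Ω) (hι : Function.Injective ι) (v : Oˣ)
    (hv : ∀ m : ℤ, v ^ m = 1 → m = 0) (ξ : O) (hξ : IsPrimitiveRoot ξ (2 * r)) (ζ : O)
    (hζ : ζ ^ r = 1) (F : MvPolynomial ((Fin 1 ⊕ Fin 1) × Fin r × Fin r) Ω)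
    (hF : ∀ a b : Fin 1 → Mat r O, CRep ζ a b → eval (fun x => ι (ccoord a b x)) F = 0)
    (a b : Fin 1 → Mat r Ω) (h : CRep (ι ζ) a b) : eval (ccoord a b) F = 0 := by
  classical
  rw [Asm.fin_one_eq a, Asm.fin_one_eq b] at h ⊢
  obtain ⟨had, hbd, hab⟩ := (crep_iff _ _ _).1 h
  -- the order
  set d := orderOf ζ with hd
  have hd1 : 1 ≤ d := by
    rw [hd]
    exact (isOfFinOrder_iff_pow_eq_one.2 ⟨r, by omega, hζ⟩).orderOf_pos
  have hprim : IsPrimitiveRoot ζ d := IsPrimitiveRoot.orderOf ζ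
  have hprim' : IsPrimitiveRoot (ι ζ) d := hprim.map_of_injective hι
  have hζd : ζ ^ d = 1 := hprim.pow_eq_one
  have hζd' : (ι ζ) ^ d = 1 := hprim'.pow_eq_one
  obtain ⟨m, e, A, B, k, k', hAB, hkk, hak, hbk⟩ := twisted_pair hd1 (ι ζ) hprim' (a 0) (b 0)
    (by rw [had]; exact one_ne_zero) (by rw [hbd]; exact one_ne_zero) hab
  have hdm : d * m = r := by
    have := Fintype.card_congr e
    simpa using this
  have hm : 1 ≤ m := by
    rcases Nat.eq_zero_or_pos m with h0 | h0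
    · subst h0; omega
    · exact h0
  -- scaling of the frame
  have hkd : k.det ≠ 0 := by
    intro h0
    have h1 := congrArg Matrix.det hkk
    rw [det_mul, h0, zero_mul, det_one] at h1
    exact zero_ne_one h1
  obtain ⟨c, hc⟩ := IsAlgClosed.exists_pow_nat_eq k.det (n := r) (by omega)
  have hc0 : c ≠ 0 := by
    intro h0
    rw [h0, zero_pow (by omega)] at hc
    exact hkd hc.symm
  set k₁ : Mat r Ω := c⁻¹ • k with hk₁
  have hk₁d : k₁.det = 1 := by
    rw [hk₁, det_smul, Fintype.card_fin, ← hc, inv_pow, inv_mul_cancel₀ (pow_ne_zero _ hc0)]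
  have hconj : ∀ (x : Mat r Ω) (T : Mat r Ω), x * k = k * T → x = k₁ * T * k₁.adjugate := by
    intro x T hx
    have h1 : x * k₁ = k₁ * T := by
      rw [hk₁, mul_smul_comm, hx, smul_mul_assoc]
    rw [← h1, mul_assoc, mul_adjugate, hk₁d, one_smul, mul_one]
  have ha0 : a 0 = pa e k₁ (Xm d (ι ζ)) A := hconj _ _ hak
  have hb0 : b 0 = pa e k₁ (Zm Ω d) B := hconj _ _ hbk
  have hdA : (Xm d (ι ζ)).det ^ m * A.det ^ d = 1 := by
    rw [← pa_det e k₁ hk₁d, ← ha0, had]
  have hdB : (Zm Ω d).det ^ m * B.det ^ d = 1 := by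
    rw [← pa_det e k₁ hk₁d, ← hb0, hbd]
  obtain ⟨μ, A₁, hμ0, hμA, hA₁, hμd⟩ := exists_scalar hdm hm ι hι ξ hr hξ _ (Xm_det _ hζd') A hdA
  obtain ⟨ν, B₁, hν0, hνB, hB₁, hνd⟩ := exists_scalar hdm hm ι hι ξ hr hξ _ (Zm_det d) B hdB
  have hAB₁ : A₁ * B₁ = B₁ * A₁ := by
    rw [hμA, hνB] at hAB
    rw [smul_mul_smul_comm, smul_mul_smul_comm, mul_comm (ι ν)] at hAB
    have h0 : ι μ * ι ν ≠ 0 := mul_ne_zero hμ0 hν0
    have h1 := congrArg (fun M => (ι μ * ι ν)⁻¹ • M) hAB
    simp only [smul_smul, inv_mul_cancel₀ h0, one_smul] at h1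
    exact h1
  -- first the pair of commuting matrices
  have step1 : ∀ k₀ : Mat r O, k₀.det = 1 →
      eval (ccoord (fun _ => pa e (k₀.map ι) (Xm d (ι ζ)) A)
        fun _ => pa e (k₀.map ι) (Zm Ω d) B) F = 0 := by
    intro k₀ hk₀
    obtain ⟨G, hG⟩ := subst (σ := (Fin 1 ⊕ Fin 1) × Fin m × Fin m) F
      (pa e ((k₀.map ι).map C) ((Xm d (ι ζ)).map C)
        ((C (ι μ) : MvPolynomial ((Fin 1 ⊕ Fin 1) × Fin m × Fin m) Ω) •
          (Matrix.of fun i j => X (Sum.inl 0, i, j) :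
            Mat m (MvPolynomial ((Fin 1 ⊕ Fin 1) × Fin m × Fin m) Ω))))
      (pa e ((k₀.map ι).map C) ((Zm Ω d).map C)
        ((C (ι ν) : MvPolynomial ((Fin 1 ⊕ Fin 1) × Fin m × Fin m) Ω) •
          (Matrix.of fun i j => X (Sum.inr 0, i, j) :
            Mat m (MvPolynomial ((Fin 1 ⊕ Fin 1) × Fin m × Fin m) Ω))))
    have hG' : ∀ x y : Mat m Ω, eval (ccoord (fun _ => x) fun _ => y) G =
        eval (ccoord (fun _ => pa e (k₀.map ι) (Xm d (ι ζ)) (ι μ • x))
          fun _ => pa e (k₀.map ι) (Zm Ω d) (ι ν • y)) F := by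
      intro x y
      rw [hG]
      have e1 : ∀ (s : ℕ) (M : Mat s Ω) (w : (Fin 1 ⊕ Fin 1) × Fin m × Fin m → Ω),
          (M.map (C : Ω →+* MvPolynomial ((Fin 1 ⊕ Fin 1) × Fin m × Fin m) Ω)).map (eval w) = M :=
        fun s M w => Asm.mat_eval_C M w
      refine congrArg (fun z => eval z F) (congrArg₂ ccoord ?_ ?_)
      · funext _
        rw [pa_map, e1, e1]
        congr 1
        ext i j
        simp [ccoord]
      · funext _
        rw [pa_map, e1, e1]
        congr 1
        ext i j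
        simp [ccoord]
    have h3 := Asm.closed_one hm ι hι v hv G ?_ (fun _ => A₁) (fun _ => B₁)
      ((crep_iff _ _ _).2 ⟨hA₁, hB₁, by rw [one_smul, hAB₁]⟩)
    · rw [hG', ← hμA, ← hνB] at h3
      exact h3
    · intro x y hxy
      rw [Asm.fin_one_eq x, Asm.fin_one_eq y] at hxy ⊢
      obtain ⟨hx, hy, hxy'⟩ := (crep_iff _ _ _).1 hxy
      rw [one_smul] at hxy'
      have hinj : ∀ z : O, ι z = 1 → z = 1 := fun z hz => hι (by rw [hz, map_one])
      have hXd : ι (Xm d ζ).det = (Xm d (ι ζ)).det := by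
        rw [← Xm_map ι ζ]
        exact RingHom.map_det ι _
      have hZd : ι (Zm O d).det = (Zm Ω d).det := by
        rw [← Zm_map ι]
        exact RingHom.map_det ι _
      have h4 := hF _ _ (pa_crep e ζ hζd k₀ hk₀ (μ • x 0) (ν • y 0) (by
          rw [smul_mul_smul_comm, smul_mul_smul_comm, hxy', mul_comm ν μ]) (by
          apply hinj
          rw [det_smul, hx, Fintype.card_fin, mul_one, map_mul, map_pow, map_pow, map_pow, hXd,
            hμd]) (by
          apply hinj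
          rw [det_smul, hy, Fintype.card_fin, mul_one, map_mul, map_pow, map_pow, map_pow, hZd,
            hνd]))
      rw [Asm.ccoord_map, hG', ← h4, Asm.ccoord_map]
      refine congrArg (fun z => eval z F) (congrArg₂ ccoord ?_ ?_)
      · funext _
        rw [pa_map, Xm_map]
        congr 1
        ext i j
        simp
      · funext _
        rw [pa_map, Zm_map]
        congr 1
        ext i j
        simp
  -- then the frame
  obtain ⟨G, hG⟩ := subst (σ := Fin r × Fin r) F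
    (pa e (Matrix.of fun i j => (X (i, j) : MvPolynomial (Fin r × Fin r) Ω))
      ((Xm d (ι ζ)).map C) (A.map C))
    (pa e (Matrix.of fun i j => (X (i, j) : MvPolynomial (Fin r × Fin r) Ω))
      ((Zm Ω d).map C) (B.map C))
  have hG' : ∀ g : Mat r Ω, eval (fun x => g x.1 x.2) G =
      eval (ccoord (fun _ => pa e g (Xm d (ι ζ)) A) fun _ => pa e g (Zm Ω d) B) F := by
    intro g
    rw [hG]
    have e1 : ∀ (s : ℕ) (M : Mat s Ω) (w : Fin r × Fin r → Ω),
        (M.map (C : Ω →+* MvPolynomial (Fin r × Fin r) Ω)).map (eval w) = M :=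
      fun s M w => Asm.mat_eval_C M w
    have e2 : (Matrix.of fun i j => (X (i, j) : MvPolynomial (Fin r × Fin r) Ω)).map
        (eval fun x => g x.1 x.2) = g := by
      ext i j
      simp
    refine congrArg (fun z => eval z F) (congrArg₂ ccoord ?_ ?_)
    · funext _
      rw [pa_map, e1, e1, e2]
    · funext _
      rw [pa_map, e1, e1, e2]
  have hinf : (ι.range : Set Ω).Infinite := by
    refine (Set.infinite_range_of_injective (Nat.cast_injective (R := Ω))).mono ?_
    rintro _ ⟨n, rfl⟩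
    exact ⟨(n : O), map_natCast ι n⟩
  have h5 := sl_density ι.range hinf G ?_ k₁ hk₁d
  · rw [hG', ← ha0, ← hb0] at h5
    exact h5
  · intro g hg hgS
    choose g₀ hg₀ using hgS
    have h6 : (Matrix.of g₀ : Mat r O).map ι = g := by
      ext i j
      exact hg₀ i j
    rw [hG', ← h6]
    apply step1
    apply hι
    rw [map_one, ← hg, ← h6]
    exact RingHom.map_det ι _

end main

end Pool.Agent.MP_3f0e22_ag.V3_TP4

namespace Pool.Agent.MP_3f0e22_ag

alias closed_one_tw := V3_TP4.closed_one_tw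

end Pool.Agent.MP_3f0e22_ag
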