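import Pool.Agent.MP_3f0e22_ag.Asm10
import Pool.Agent.MP_3f0e22_ag.VTP4

/-! # MP_3f0e22_ag, version 3: assembly, part 11: `PGL_r` -/

set_option autoImplicit false

open Matrix MvPolynomial NumberField

namespace Pool.Agent.MP_3f0e22_ag.Asm

/-- The image of a matrix unit. -/
def cj {R : Type*} [CommRing R] {r : ℕ} (M : Mat r R) (p : Fin r × Fin r) : Mat r R :=
  M * Matrix.single p.1 p.2 1 * M.adjugate

/-- The coordinates of the tuple of the conjugations by the `x_j`, `y_j`, `A_i`, if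
`D_i = det(A_i)⁻¹`. -/
def pco {R : Type*} [CommRing R] {g n r : ℕ} (D : Fin n → R) (x y : Fin g → Mat r R)
    (A : Fin n → Mat r R) : (Fin g ⊕ Fin g ⊕ Fin n) × (Fin r × Fin r) × (Fin r × Fin r) → R
  | (Sum.inl j, p, q) => cj (x j) p q.1 q.2
  | (Sum.inr (Sum.inl j), p, q) => cj (y j) p q.1 q.2
  | (Sum.inr (Sum.inr i), p, q) => D i * cj (A i) p q.1 q.2

theorem conj_map {R R' : Type*} [CommRing R] [CommRing R'] {r : ℕ} (φ : R →+* R') (M : Mat r R)
    (p q : Fin r × Fin r) : φ (cj M p q.1 q.2) = cj (M.map φ) p q.1 q.2 := by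
  unfold cj
  have h1 : (M * Matrix.single p.1 p.2 1 * M.adjugate).map φ =
      M.map φ * Matrix.single p.1 p.2 1 * (M.map φ).adjugate := by
    have h2 := map_mul (RingHom.mapMatrix (m := Fin r) φ) (M * Matrix.single p.1 p.2 1) M.adjugate
    have h3 := map_mul (RingHom.mapMatrix (m := Fin r) φ) M (Matrix.single p.1 p.2 1)
    rw [h3] at h2
    have h4 : (RingHom.mapMatrix (m := Fin r) φ) (Matrix.single p.1 p.2 (1 : R)) =
        Matrix.single p.1 p.2 (1 : R') := by
      ext k l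
      simp [Matrix.single, apply_ite φ]
    have h5 := RingHom.map_adjugate φ M
    rw [h4, h5] at h2
    exact h2
  rw [← h1]
  rfl

theorem pco_map {R R' : Type*} [CommRing R] [CommRing R'] {g n r : ℕ} (φ : R →+* R')
    (D : Fin n → R) (x y : Fin g → Mat r R) (A : Fin n → Mat r R) :
    (fun z => φ (pco D x y A z)) =
      pco (fun i => φ (D i)) (fun j => (x j).map φ) (fun j => (y j).map φ)
        (fun i => (A i).map φ) := by
  funext z
  rcases z with ⟨j | j | j, p, q⟩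
  · exact conj_map φ _ _ _
  · exact conj_map φ _ _ _
  · change φ (D j * _) = _
    rw [map_mul, conj_map]
    rfl

theorem exists_pull {Ω : Type} [Field Ω] {σ : Type} {g n r : ℕ}
    (F : MvPolynomial ((Fin g ⊕ Fin g ⊕ Fin n) × (Fin r × Fin r) × (Fin r × Fin r)) Ω)
    (D : Fin n → Ω) (P Q : Fin g → Mat r (MvPolynomial σ Ω)) (A : Fin n → Mat r (MvPolynomial σ Ω)) :
    ∃ G : MvPolynomial σ Ω, ∀ w : σ → Ω, eval w G =
      eval (pco D (fun j => (P j).map (eval w)) (fun j => (Q j).map (eval w))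
        (fun i => (A i).map (eval w))) F := by
  refine ⟨aeval (pco (fun i => C (D i)) P Q A) F, fun w => ?_⟩
  have h1 : eval w (aeval (pco (fun i => C (D i)) P Q A) F) =
      eval (fun x => eval w (pco (fun i => C (D i)) P Q A x)) F := by
    rw [← MvPolynomial.coe_aeval_eq_eval, ← MvPolynomial.coe_aeval_eq_eval]
    change (aeval w) ((aeval _) F) = (aeval _) F
    rw [← AlgHom.comp_apply]
    congr 1
    apply MvPolynomial.algHom_ext
    intro x
    simp
  rw [h1, pco_map]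
  simp only [eval_C]

section

variable {O O' Ω : Type} [CommRing O] [IsDomain O] [CommRing O'] [IsDomain O'] [Field Ω]
  [IsAlgClosed Ω] {r g : ℕ}

/-- Density for all the closed surfaces, twisted version. -/
theorem closed_tw [CharZero Ω] (i : O →+* O') (ι : O' →+* Ω) (hi : Function.Injective i)
    (hι : Function.Injective ι)
    (hcap : ∀ I : Ideal O, I.FG → ∃ α : O', I.map i = Ideal.span {α}) (hr : 3 ≤ r)
    (v : Oˣ) (hv : ∀ m : ℤ, v ^ m = 1 → m = 0) (t : Fin r → Oˣ) (ht1 : ∏ k, t k = 1)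
    (ht : ∀ k l, k ≠ l → IsUnit ((t k : O) - (t l : O))) (ξ : O)
    (hξ : IsPrimitiveRoot ξ (2 * r)) (ζ : O) (hζ : ζ ^ r = 1)
    (F : MvPolynomial ((Fin g ⊕ Fin g) × Fin r × Fin r) Ω)
    (hF : ∀ a b : Fin g → Mat r O', CRep (i ζ) a b → eval (fun x => ι (ccoord a b x)) F = 0)
    (a b : Fin g → Mat r Ω) (h : CRep (ι (i ζ)) a b) : eval (ccoord a b) F = 0 := by
  rcases g with _ | _ | g
  · have h0 : i ζ = 1 := by
      apply hι
      have h2 := congrFun (congrFun h.rel (⟨0, by omega⟩ : Fin r)) ⟨0, by omega⟩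
      simpa [cval] using h2.symm
    have h1 := hF (fun _ => 1) (fun _ => 1) ⟨fun j => j.elim0, fun j => j.elim0, by
      rw [h0]; simp [cval]⟩
    rw [← h1]
    congr 2
    funext x
    rcases x with ⟨j | j, w⟩
    · exact j.elim0
    · exact j.elim0
  · have hv' : ∀ m : ℤ, (Units.map (i : O →* O') v) ^ m = 1 → m = 0 := by
      intro m hm
      apply hv
      rw [← map_zpow] at hm
      exact Units.map_injective (f := (i : O →* O')) hi (by rw [hm, map_one])
    exact closed_one_tw (by omega) ι hι _ hv' (i ξ) (hξ.map_of_injective hi) (i ζ)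
      (by rw [← map_pow, hζ, map_one]) F hF a b h
  · exact closed_core i ι hi hι hcap hr v hv t ht1 ht ζ hζ F hF a b h

end

section

variable {R : Type} [CommRing R] {r : ℕ}

/-- `φ` is the conjugation by a matrix with the characteristic polynomial `∏ (X - t k)`. -/
def HasClass (t : Fin r → R) (φ : PGLr r R) : Prop :=
  ∃ M M' : Mat r R, M * M' = 1 ∧ (∀ x, φ x = M * x * M') ∧
    M.charpoly = ∏ k, (Polynomial.X - Polynomial.C (t k))

/-- The coordinates of a tuple of elements of `PGL_r`. -/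
def pcoords {g n : ℕ} (ρ : (Fin g → PGLr r R) × (Fin g → PGLr r R) × (Fin n → PGLr r R)) :
    (Fin g ⊕ Fin g ⊕ Fin n) × (Fin r × Fin r) × (Fin r × Fin r) → R
  | (Sum.inl j, x, y) => ρ.1 j (Matrix.single x.1 x.2 1) y.1 y.2
  | (Sum.inr (Sum.inl j), x, y) => ρ.2.1 j (Matrix.single x.1 x.2 1) y.1 y.2
  | (Sum.inr (Sum.inr i), x, y) => ρ.2.2 i (Matrix.single x.1 x.2 1) y.1 y.2

/-- The relation of the fundamental group. -/
def PRel {g n : ℕ} (ρ : (Fin g → PGLr r R) × (Fin g → PGLr r R) × (Fin n → PGLr r R)) : Prop :=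
  (List.ofFn fun j => ρ.1 j * ρ.2.1 j * (ρ.1 j)⁻¹ * (ρ.2.1 j)⁻¹).prod * (List.ofFn ρ.2.2).prod = 1

theorem pcoords_Ad {g n : ℕ} (x y : Fin g → Mat r R) (hx : ∀ j, (x j).det = 1)
    (hy : ∀ j, (y j).det = 1) (A : Fin n → Mat r R) (D : Fin n → R)
    (U : Fin n → (Mat r R)ˣ) (hU : ∀ i, (U i : Mat r R) = A i)
    (hD : ∀ i, D i * (A i).det = 1) :
    pcoords ((fun j => Ad (slU (x j) (hx j))), (fun j => Ad (slU (y j) (hy j))),
      fun i => Ad (U i)) = pco D x y A := by
  funext z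
  rcases z with ⟨j | j | j, p, q⟩
  · rfl
  · rfl
  · have h1 : (((U j)⁻¹ : (Mat r R)ˣ) : Mat r R) = D j • (A j).adjugate := by
      have h2 : A j * (D j • (A j).adjugate) = 1 := by
        rw [mul_smul_comm, mul_adjugate, smul_smul, hD, one_smul]
      calc (((U j)⁻¹ : (Mat r R)ˣ) : Mat r R) =
          (((U j)⁻¹ : (Mat r R)ˣ) : Mat r R) * (A j * (D j • (A j).adjugate)) := by
            rw [h2, mul_one]
        _ = _ := by rw [← hU j, ← mul_assoc, (U j).inv_mul, one_mul]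
    change (Ad (U j) (Matrix.single p.1 p.2 1)) q.1 q.2 =
      D j * cj (A j) p q.1 q.2
    rw [Ad_apply, h1, hU j, mul_smul_comm]
    rfl

/-- The relation, for a tuple of conjugations. -/
theorem PRel_Ad {g n : ℕ} (x y : Fin g → Mat r R) (hx : ∀ j, (x j).det = 1)
    (hy : ∀ j, (y j).det = 1) (U : Fin n → (Mat r R)ˣ) :
    PRel ((fun j => Ad (slU (x j) (hx j))), (fun j => Ad (slU (y j) (hy j))),
      fun i => Ad (U i)) ↔ Ad ((List.ofFn fun j => slU (x j) (hx j) * slU (y j) (hy j) *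
        (slU (x j) (hx j))⁻¹ * (slU (y j) (hy j))⁻¹).prod * (List.ofFn U).prod) = 1 := by
  rw [map_mul, Ad_rel, map_list_prod, List.map_ofFn]
  rfl

theorem exists_lift {Ω : Type} [Field Ω] [IsAlgClosed Ω] (hr : 1 ≤ r) {g n : ℕ}
    (ρ : (Fin g → PGLr r Ω) × (Fin g → PGLr r Ω) × (Fin n → PGLr r Ω)) (t : Fin n → Fin r → Ω)
    (h : PRel ρ) (hc : ∀ i, HasClass (t i) (ρ.2.2 i)) :
    ∃ (x y : Fin g → Mat r Ω) (hx : ∀ j, (x j).det = 1) (hy : ∀ j, (y j).det = 1)
      (U : Fin n → (Mat r Ω)ˣ) (c : Ω),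
      (∀ i, (U i : Mat r Ω).charpoly = ∏ k, (Polynomial.X - Polynomial.C (t i k))) ∧
      ρ = ((fun j => Ad (slU (x j) (hx j))), (fun j => Ad (slU (y j) (hy j))),
        fun i => Ad (U i)) ∧
      cval x y * (List.ofFn fun i => (U i : Mat r Ω)).prod = c • (1 : Mat r Ω) := by
  obtain ⟨ρ₁, ρ₂, ρ₃⟩ := ρ
  choose x hx hx' using fun j => exists_inner hr (ρ₁ j)
  choose y hy hy' using fun j => exists_inner hr (ρ₂ j)
  choose M M' hM1 hM2 hM3 using hc
  let U : Fin n → (Mat r Ω)ˣ := fun i => ⟨M i, M' i, hM1 i, mul_eq_one_comm.1 (hM1 i)⟩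
  have hρ : (ρ₁, ρ₂, ρ₃) = ((fun j => Ad (slU (x j) (hx j))), (fun j => Ad (slU (y j) (hy j))),
        fun i => Ad (U i)) := by
    congr 1
    · funext j
      ext z : 1
      exact hx' j z
    · congr 1
      · funext j
        ext z : 1
        exact hy' j z
      · funext i
        ext z : 1
        exact hM2 i z
  rw [hρ] at h
  obtain ⟨c, hc⟩ := Ad_eq_one hr _ ((PRel_Ad x y hx hy U).1 h)
  rw [Units.val_mul, cval_units, units_prod_val] at hc
  exact ⟨x, y, hx, hy, U, c, fun i => hM3 i, hρ, hc⟩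

theorem det_cval {g : ℕ} (x y : Fin g → Mat r R) (hx : ∀ j, (x j).det = 1)
    (hy : ∀ j, (y j).det = 1) : (cval x y).det = 1 := by
  rw [cval, ← Matrix.coe_detMonoidHom, map_list_prod, List.map_ofFn]
  apply List.prod_eq_one
  intro z hz
  rw [List.mem_ofFn] at hz
  obtain ⟨j, rfl⟩ := hz
  simp only [Function.comp, Matrix.coe_detMonoidHom, det_mul, det_adjugate, hx, hy, one_pow,
    mul_one]

end

end Pool.Agent.MP_3f0e22_ag.Asm
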