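import Pool.Agent.MP_3f0e22_ag.Asm0
import Pool.Agent.MP_3f0e22_ag.Asm1

/-! # MP_3f0e22_ag, version 2: assembly, part 2: frames of a generic point -/

set_option autoImplicit false

open Matrix MvPolynomial

namespace Pool.Agent.MP_3f0e22_ag.Asm

section

variable {K E : Type*} [Field K] [Field E] [Algebra K E] {r : ℕ}

theorem algebraMap_mem_acl (A : Set E) (x : K) : algebraMap K E x ∈ acl K A :=
  (acl K A).algebraMap_mem x

/-- The coefficients of a polynomial with coefficients in `K` are in `acl K ∅`. -/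
theorem cpc_subset_of_map {M : Mat r E} {p : Polynomial K} (h : M.charpoly = p.map (algebraMap K E)) :
    cpc M ⊆ acl K (∅ : Set E) := by
  rintro _ ⟨i, rfl⟩
  simp only [h, Polynomial.coeff_map]
  exact algebraMap_mem_acl _ _

theorem wval_append {R : Type*} [CommRing R] (w w' : List (Letter r R)) :
    wval (w ++ w') = wval w * wval w' := by
  simp [wval]

theorem wcnt_append (w w' : List (Letter r E)) : wcnt (w ++ w') = wcnt w + wcnt w' := by
  simp [wcnt]

theorem wents_append (w w' : List (Letter r E)) : wents (w ++ w') = wents w ∪ wents w' := by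
  ext x
  simp only [wents, List.mem_append, Set.mem_setOf_eq, Set.mem_union]
  constructor
  · rintro ⟨l, h | h, h'⟩
    · exact Or.inl ⟨l, h, h'⟩
    · exact Or.inr ⟨l, h, h'⟩
  · rintro (⟨l, h, h'⟩ | ⟨l, h, h'⟩)
    · exact ⟨l, Or.inl h, h'⟩
    · exact ⟨l, Or.inr h, h'⟩

/-- Rotations of a generic word. -/
theorem frames_of_generic [IsAlgClosed E] (hU : Univ K E) (hr : 3 ≤ r) (w : List (Letter r E))
    (hw : 2 ≤ w.length ∨ ∃ a b, w = [.hd a b]) (hv : ∀ x ∈ w, x.Valid K)
    (hc : cpc (wval w) ⊆ acl K (∅ : Set E))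
    (hD : wcnt w ≤ rk K (wents w) + (r - 1)) :
    ∃ (g : Mat r E) (u y : ℕ → Mat r E) (L : List (LP r E)) (δ : Fin r → E), g.det = 1 ∧
      (∀ B : Set E, Bd K B (ent g) (r * (r - 1))) ∧ InZ (wlen w - 1) δ u y ∧
      (∀ p ∈ L, p.OK) ∧ w = word g u y 0 L := by
  refine exists_frames w ?_ hv ?_
  · rcases hw with h | ⟨a, b, rfl⟩
    · rintro rfl
      simp at h
    · simp
  · intro w₁ w₂ l hl h hh hS
    have hl' : w = w₁ ++ ([l] ++ w₂) := hl
    have e1 : wcnt (w₂ ++ w₁ ++ [l]) = wcnt w := by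
      rw [hl', wcnt_append, wcnt_append, wcnt_append, wcnt_append]
      ring
    have e2 : wents (w₂ ++ w₁ ++ [l]) = wents w := by
      rw [hl', wents_append, wents_append, wents_append, wents_append]
      ext x
      simp only [Set.mem_union]
      tauto
    have e3 : (wval (w₂ ++ w₁ ++ [l])).charpoly = (wval w).charpoly := by
      rw [hl', wval_append, wval_append, wval_append, wval_append, mul_assoc (wval w₂),
        Matrix.charpoly_mul_comm, mul_assoc]
    refine frameOK_of_generic hU hr (w₂ ++ w₁) l ?_ ?_ ?_ ?_ h hh hS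
    · rcases hw with h' | ⟨a, b, rfl⟩
      · left
        intro h0
        obtain ⟨h1, h2⟩ := List.append_eq_nil_iff.1 h0
        rw [hl, h1, h2] at h'
        simp at h'
      · right
        rcases w₁ with _ | ⟨p, w₁⟩
        · simp only [List.nil_append, List.cons.injEq] at hl
          exact ⟨a, b, hl.1.symm⟩
        · simp only [List.cons_append, List.cons.injEq] at hl
          have := congrArg List.length hl.2
          simp at this
    · intro x hx
      apply hv
      rw [hl]
      simp only [List.mem_append, List.mem_cons, List.not_mem_nil, or_false] at hx ⊢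
      tauto
    · unfold cpc
      rw [e3]
      exact hc
    · rw [e1, e2]
      exact hD

/-! ### the entries of a word -/

def In (F : IntermediateField K E) (M : Mat r E) : Prop := ∀ i j, M i j ∈ F

theorem In.mul {F : IntermediateField K E} {M N : Mat r E} (hM : In F M) (hN : In F N) :
    In F (M * N) := fun i j => by
  rw [Matrix.mul_apply]
  exact sum_mem fun k _ => mul_mem (hM i k) (hN k j)

theorem In.one {F : IntermediateField K E} : In F (1 : Mat r E) := fun i j => by
  rw [Matrix.one_apply]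
  split_ifs
  · exact one_mem _
  · exact zero_mem _

theorem In.Jm {F : IntermediateField K E} : In F (Jm E r) := fun i j => by
  rw [MP_3f0e22_ag.Jm, submatrix_apply, Matrix.one_apply]
  split_ifs
  · exact one_mem _
  · exact zero_mem _

theorem In.diagonal {F : IntermediateField K E} {d : Fin r → E} (hd : ∀ k, d k ∈ F) :
    In F (Matrix.diagonal d) := fun i j => by
  rw [diagonal_apply]
  split_ifs
  · exact hd _
  · exact zero_mem _

theorem In.adjugate {F : IntermediateField K E} {M : Mat r E} (hM : In F M) :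
    In F M.adjugate := fun i j => adjugate_mem_of F M hM i j

theorem In.Q {F : IntermediateField K E} {u y : ℕ → Mat r E} {i : ℕ} (hu : ∀ j < i, In F (u j))
    (hy : ∀ j < i, In F (y j)) : In F (Q u y i) := by
  induction i with
  | zero => exact In.one
  | succ i ih =>
    exact ((hu i (by omega)).mul (hy i (by omega))).mul
      (ih (fun j hj => hu j (by omega)) fun j hj => hy j (by omega))

theorem In.ent {F : IntermediateField K E} {M : Mat r E} (hM : In F M) : ent M ⊆ F := by
  rintro _ ⟨i, j, rfl⟩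
  exact hM i j

theorem In_of_ent {F : IntermediateField K E} {M : Mat r E} (hM : MP_3f0e22_ag.ent M ⊆ F) :
    In F M := fun i j => hM ⟨i, j, rfl⟩

section

variable {F : IntermediateField K E} {g : Mat r E} {u y : ℕ → Mat r E} {s : ℕ}

theorem In.al (hg : In F g) (hu : ∀ j < s, In F (u j)) (hy : ∀ j ≤ s, In F (y j)) {i : ℕ}
    (hi : i < s) {t : Fin r → E} (ht : ∀ k, t k ∈ F) : In F (al g u y i t) := by
  have h1 : In F (MP_3f0e22_ag.Q u y i) :=
    In.Q (fun j hj => hu j (by omega)) fun j hj => hy j (by omega)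
  have h2 : In F (MP_3f0e22_ag.Q u y (i + 1)) :=
    In.Q (fun j hj => hu j (by omega)) fun j hj => hy j (by omega)
  unfold MP_3f0e22_ag.al Hm Hi
  exact (((hg.mul ((hy i (by omega)).mul h1).adjugate).mul In.Jm).mul (In.diagonal ht)).mul
    (((hy (i + 1) (by omega)).mul h2).mul hg.adjugate)

theorem In.be (hg : In F g) (hu : ∀ j < s, In F (u j)) (hy : ∀ j ≤ s, In F (y j)) {i : ℕ}
    (hi : i < s) {t : Fin r → E} (ht : ∀ k, t k ∈ F) : In F (be g u y i t) := by
  have h1 : In F (MP_3f0e22_ag.Q u y i) :=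
    In.Q (fun j hj => hu j (by omega)) fun j hj => hy j (by omega)
  have h2 : In F (MP_3f0e22_ag.Q u y (i + 1)) :=
    In.Q (fun j hj => hu j (by omega)) fun j hj => hy j (by omega)
  unfold MP_3f0e22_ag.be Cm Ci
  exact (((hg.mul h1.adjugate).mul In.Jm).mul (In.diagonal ht)).mul (h2.mul hg.adjugate)

theorem In.af (hg : In F g) (hu : ∀ j < s, In F (u j)) (hy : ∀ j ≤ s, In F (y j)) {i : ℕ}
    (hi : i ≤ s) {t : Fin r → Eˣ} (ht : ∀ k, (t k : E) ∈ F) : In F (Asm.af g u y i t) := by
  have h1 : In F (MP_3f0e22_ag.Q u y i) :=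
    In.Q (fun j hj => hu j (by omega)) fun j hj => hy j (by omega)
  unfold Asm.af Cm Hi
  exact ((hg.mul h1.adjugate).mul (In.diagonal ht)).mul
    (((hy i hi).mul h1).mul hg.adjugate)

theorem In.xf (hg : In F g) (hu : ∀ j < s, In F (u j)) (hy : ∀ j ≤ s, In F (y j)) {i : ℕ}
    (hi : i < s) {a b : Fin r → Eˣ} (ha : ∀ k, (a k : E) ∈ F) (hb : ∀ k, (b k : E) ∈ F) :
    In F (Asm.xf g u y i a b) := by
  unfold Asm.xf
  exact ((In.al hg hu hy hi ha).adjugate.mul (In.be hg hu hy hi hb).adjugate).mul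
    (In.al hg hu hy hi ha)

theorem In.yf (hg : In F g) (hu : ∀ j < s, In F (u j)) (hy : ∀ j ≤ s, In F (y j)) {i : ℕ}
    (hi : i < s) {a b : Fin r → Eˣ} (ha : ∀ k, (a k : E) ∈ F) (hb : ∀ k, (b k : E) ∈ F) :
    In F (Asm.yf g u y i a b) := by
  unfold Asm.yf
  exact ((((In.al hg hu hy hi ha).adjugate.mul (In.be hg hu hy hi hb)).mul
    (In.al hg hu hy hi ha)).mul (In.be hg hu hy hi hb).adjugate).mul (In.al hg hu hy hi ha)

end

/-- The entries of the word are in the field generated by the parameters. -/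
theorem wents_subset {F : IntermediateField K E} {g₀ : Mat r E} {u y : ℕ → Mat r E} {g m s : ℕ}
    (hs : 2 * g + m = s + 1)
    (hg : In F g₀) (hu : ∀ j < s, In F (u j)) (hy : ∀ j ≤ s, In F (y j))
    (t : ℕ → Bool → ℕ → ℕ → Eˣ) (T : Fin m → Fin r → Eˣ)
    (ht : ∀ j < g, ∀ b, ∀ k : Fin r, (t (2 * j) b k k : E) ∈ F) (hT : ∀ i k, (T i k : E) ∈ F) :
    wents (word g₀ u y 0 (mkL t 0 (shp g T))) ⊆ F := by
  rw [word_shp]
  rintro x ⟨l, hl, hx⟩
  rw [sword, List.mem_append, List.mem_ofFn, List.mem_ofFn] at hl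
  rcases hl with ⟨j, rfl⟩ | ⟨j, rfl⟩
  · have hj : 0 + 2 * (j : ℕ) < s := by omega
    have h1 : ∀ b, ∀ k : Fin r, (t (0 + 2 * (j : ℕ)) b k k : E) ∈ F := by
      intro b k
      rw [zero_add]
      exact ht j j.2 b k
    rcases hx with hx | hx
    · exact (In.xf hg hu hy hj (h1 false) (h1 true)).ent hx
    · exact (In.yf hg hu hy hj (h1 false) (h1 true)).ent hx
  · exact (In.af hg hu hy (by omega) (hT j)).ent hx

/-! ### counting the parameters of the handles -/

theorem Bd_fam (B : Set E) (hr : 1 ≤ r) (t : Fin r → Eˣ) (c : E) (hc : c ∈ acl K B)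
    (h : ∏ k, (t k : E) = c) : Bd K B (Set.range fun k => (t k : E)) (r - 1) := by
  classical
  obtain ⟨q, rfl⟩ : ∃ q, r = q + 1 := ⟨r - 1, by omega⟩
  refine ⟨Finset.univ.image fun k : Fin q => (t k.succ : E),
    Finset.card_image_le.trans (by simp), ?_⟩
  have h1 : ∀ k : Fin q, (t k.succ : E) ∈
      acl K (B ∪ ↑(Finset.univ.image fun k : Fin q => (t k.succ : E))) := fun k =>
    subset_acl _ (Or.inr (by simp))
  rintro _ ⟨k, rfl⟩
  refine Fin.cases ?_ h1 k
  have h2 : (t 0 : E) = c / ∏ k : Fin q, (t k.succ : E) := by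
    rw [← h, Fin.prod_univ_succ, mul_div_cancel_right₀]
    exact Finset.prod_ne_zero_iff.2 fun k _ => (t k.succ).ne_zero
  change (t 0 : E) ∈ _
  rw [h2]
  exact div_mem (acl_mono Set.subset_union_left hc) (prod_mem fun k _ => h1 k)

/-- The set of the parameters of the handles. -/
def taus (r : ℕ) (t : ℕ → Bool → ℕ → ℕ → Eˣ) (g : ℕ) : Set E :=
  {x | ∃ j < g, ∃ b, ∃ k : Fin r, (t (2 * j) b k k : E) = x}

theorem det_Jm_mem (A : Set E) : (Jm E r).det ∈ acl K A := by
  have : (Jm K r).det = (Jm K r).det := rfl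
  have h : (Jm E r).det = algebraMap K E (Jm K r).det := by
    have h1 := (algebraMap K E).map_det (Jm K r)
    have h2 : (algebraMap K E).mapMatrix (Jm K r) = Jm E r := Jm_map (algebraMap K E)
    rw [h2] at h1
    exact h1.symm
  rw [h]
  exact algebraMap_mem_acl _ _

theorem Bd_taus (hr : 1 ≤ r) (t : ℕ → Bool → ℕ → ℕ → Eˣ) (ht : Nrm r t) (g : ℕ) :
    Bd K ∅ (taus r t g) (g * (2 * (r - 1))) := by
  induction g with
  | zero =>
    have : taus r t 0 = ∅ := by
      ext x
      simp [taus]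
    rw [this]
    exact Bd.mono (Bd.of_subset (Set.empty_subset _) : Bd K (∅ : Set E) (∅ : Set E) 0)
      (subset_acl _) (Set.empty_subset _) (by simp)
  | succ g ih =>
    have h1 := Bd_fam (K := K) (∅ ∪ taus r t g) hr (fun k : Fin r => t (2 * g) false k k)
      _ (det_Jm_mem _) (ht (2 * g) false)
    have h2 := Bd_fam (K := K) (∅ ∪ (taus r t g ∪ Set.range fun k : Fin r => (t (2 * g) false k k : E))) hr
      (fun k : Fin r => t (2 * g) true k k) _ (det_Jm_mem _) (ht (2 * g) true)
    have h3 := (ih.trans h1).trans h2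
    refine h3.mono (subset_acl _) ?_ (le_of_eq (by ring))
    rintro x ⟨j, hj, b, k, rfl⟩
    refine subset_acl _ (Or.inr ?_)
    rcases (Nat.lt_succ_iff.1 hj).lt_or_eq with hj' | rfl
    · exact Or.inl (Or.inl ⟨j, hj', b, k, rfl⟩)
    · rcases b with _ | _
      · exact Or.inl (Or.inr ⟨k, rfl⟩)
      · exact Or.inr ⟨k, rfl⟩

end

end Pool.Agent.MP_3f0e22_ag.Asm
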