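import Pool.Agent.MP_3f0e22_ag.Asm2
import Pool.Agent.MP_3f0e22_ag.Sl

/-! # MP_3f0e22_ag, version 2: assembly, part 3: the main theorem -/

set_option autoImplicit false

open Matrix MvPolynomial

namespace Pool.Agent.MP_3f0e22_ag.Asm

/-! ### the generic point has a chart -/

section

variable {K E : Type} [Field K] [Field E] [Algebra K E] {r : ℕ}

/-- The determinant of `J`, as a unit. -/
def Ju (R : Type*) [CommRing R] (r : ℕ) : Rˣ where
  val := (Jm R r).det
  inv := (Jm R r).det
  val_inv := det_Jm_sq r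
  inv_val := det_Jm_sq r

/-- The description of a generic point. -/
theorem chart_of_generic [IsAlgClosed E] (hU : Univ K E) (hr : 3 ≤ r) {g m : ℕ}
    (hgm : 1 ≤ g ∨ 2 ≤ m) (a b : Fin g → Mat r E) (A : Fin m → Mat r E)
    (ha : ∀ j, (a j).det = 1) (hb : ∀ j, (b j).det = 1) (T₀ : Fin m → Fin r → K)
    (hT₀ : ∀ i k, T₀ i k ≠ 0)
    (hA : ∀ i, (A i).charpoly = ∏ k, (Polynomial.X - Polynomial.C (algebraMap K E (T₀ i k))))
    (c₀ : Fin r → K)
    (hc : (wval (sword a b A)).charpoly =
      ∏ k, (Polynomial.X - Polynomial.C (algebraMap K E (c₀ k))))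
    (hD : wcnt (sword a b A) ≤ rk K (wents (sword a b A)) + (r - 1)) :
    ∃ (g₀ : Mat r E) (u y : ℕ → Mat r E) (t : ℕ → Bool → ℕ → ℕ → Eˣ)
      (T : Fin m → Fin r → Eˣ) (δ : Fin r → E),
      g₀.det = 1 ∧ Nrm r t ∧ Chart (2 * g + m - 1) t u y ∧ InZ (2 * g + m - 1) δ u y ∧
      sword a b A = word g₀ u y 0 (mkL t 0 (shp g T)) ∧
      (∀ i k, ∃ k', (T i k : E) = algebraMap K E (T₀ i k')) ∧
      (∀ i, ∏ k, (Polynomial.X - Polynomial.C (T i k : E)) =
        ∏ k, (Polynomial.X - Polynomial.C (algebraMap K E (T₀ i k)))) ∧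
      (∀ k, ∃ k', δ k * (Th (mkL t 0 (shp g T)) k : E) = algebraMap K E (c₀ k')) ∧
      ∏ k, (Polynomial.X - Polynomial.C (δ k * (Th (mkL t 0 (shp g T)) k : E))) =
        ∏ k, (Polynomial.X - Polynomial.C (algebraMap K E (c₀ k))) := by
  classical
  have hs : 2 * g + m = (2 * g + m - 1) + 1 := by omega
  set s := 2 * g + m - 1 with hs'
  -- the conditions on the word
  have hlen : wlen (sword a b A) = s + 1 := by
    rw [← hs]
    have h1 : ∀ n (x y : Fin n → Mat r E), wlen (List.ofFn fun j => Letter.hd (x j) (y j)) = 2 * n := by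
      intro n
      induction n with
      | zero => intro x y; simp [wlen]
      | succ n ih =>
        intro x y
        have := ih (fun j => x j.succ) (fun j => y j.succ)
        rw [List.ofFn_succ]
        simp only [wlen, List.map_cons, List.sum_cons, Letter.len] at this ⊢
        omega
    have h2 : ∀ n (x : Fin n → Mat r E), wlen (List.ofFn fun j => Letter.pt (x j)) = n := by
      intro n
      induction n with
      | zero => intro x; simp [wlen]
      | succ n ih =>
        intro x
        have := ih (fun j => x j.succ)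
        rw [List.ofFn_succ]
        simp only [wlen, List.map_cons, List.sum_cons, Letter.len] at this ⊢
        omega
    have h3 := h1 g a b
    have h4 := h2 m A
    simp only [wlen, sword, List.map_append, List.sum_append] at h3 h4 ⊢
    omega
  have hcnt : wcnt (sword a b A) = g * (2 * (r ^ 2 - 1)) + m * (r * (r - 1)) := by
    simp only [wcnt, sword, List.map_append, List.sum_append, List.map_ofFn]
    rw [List.sum_ofFn, List.sum_ofFn]
    simp [Letter.cnt]
  have hv : ∀ x ∈ sword a b A, x.Valid K := by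
    intro x hx
    rw [sword, List.mem_append, List.mem_ofFn, List.mem_ofFn] at hx
    rcases hx with ⟨j, rfl⟩ | ⟨j, rfl⟩
    · exact ⟨ha j, hb j⟩
    · refine ⟨?_, ?_⟩
      · rw [det_eq_sign_charpoly_coeff, hA j, Polynomial.coeff_zero_eq_eval_zero,
          Polynomial.eval_prod]
        refine mul_ne_zero (pow_ne_zero _ (neg_ne_zero.2 one_ne_zero)) ?_
        refine Finset.prod_ne_zero_iff.2 fun k _ => ?_
        simp only [Polynomial.eval_sub, Polynomial.eval_X, Polynomial.eval_C, zero_sub]
        exact neg_ne_zero.2 ((map_ne_zero _).2 (hT₀ j k))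
      · intro i
        have h1 : (A j).charpoly = (∏ k, (Polynomial.X - Polynomial.C (T₀ j k))).map (algebraMap K E) := by
          rw [hA j, Polynomial.map_prod]
          simp
        exact cpc_subset_of_map h1 ⟨i, rfl⟩
  have hcc : cpc (wval (sword a b A)) ⊆ acl K (∅ : Set E) := by
    have h1 : (wval (sword a b A)).charpoly =
        (∏ k, (Polynomial.X - Polynomial.C (c₀ k))).map (algebraMap K E) := by
      rw [hc, Polynomial.map_prod]
      simp
    exact cpc_subset_of_map h1
  have hw : 2 ≤ (sword a b A).length ∨ ∃ x y, sword a b A = [.hd x y] := by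
    by_cases h1 : 2 ≤ g + m
    · left
      simpa [sword] using h1
    · right
      have h2 : g = 1 ∧ m = 0 := by omega
      obtain ⟨rfl, rfl⟩ := h2
      exact ⟨a 0, b 0, by simp [sword]⟩
  obtain ⟨g₀, u, y, L, δ, hg, hgB, hZ, hOK, hword⟩ := frames_of_generic hU hr _ hw hv hcc hD
  rw [hlen, Nat.add_sub_cancel] at hZ
  obtain ⟨T, hT⟩ := shapeOf_eq g₀ u y L g m 0 a b A hword.symm
  -- the eigenvalues of the punctures are in `K`
  set t₀ : ℕ → Bool → ℕ → ℕ → Eˣ := fun i b _ k => tOf (Ju E r) L 0 i b k with ht₀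
  have hL : L = mkL t₀ 0 (shp g T) := by
    rw [← hT]
    exact (mkL_shapeOf (Ju E r) L 0 t₀ fun n _ b k => rfl).symm
  have hN₀ : Nrm r t₀ := fun i b => tOf_prod (by omega) (Ju E r) rfl L hOK 0 i b
  have hTp : ∀ i, ∏ k, (Polynomial.X - Polynomial.C (T i k : E)) =
      ∏ k, (Polynomial.X - Polynomial.C (algebraMap K E (T₀ i k))) := by
    intro i
    have h1 : sword a b A = word g₀ u y 0 (mkL t₀ 0 (shp g T)) := by rw [← hL]; exact hword
    rw [word_shp, sword, sword] at h1
    have h2 := (List.append_inj h1 (by simp)).2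
    have h3 : A i = af g₀ u y (0 + 2 * g + i) (T i) := by
      have h4 := List.ofFn_injective h2
      have h5 := congrFun h4 i
      exact (Letter.pt.injEq _ _).mp h5
    have h4 := hA i
    rw [h3, af, letter_pt_charpoly g₀ hg u y hZ.low hZ.up (0 + 2 * g + i) (by omega) (T i)] at h4
    exact h4
  have hTK' : ∀ i k, ∃ k', (T i k : E) = algebraMap K E (T₀ i k') := by
    intro i k
    have h5 : (∏ k, (Polynomial.X - Polynomial.C (T i k : E))).eval (T i k : E) = 0 := by
      rw [Polynomial.eval_prod]
      exact Finset.prod_eq_zero (Finset.mem_univ k) (by simp)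
    rw [hTp i, Polynomial.eval_prod, Finset.prod_eq_zero_iff] at h5
    obtain ⟨k', -, h6⟩ := h5
    exact ⟨k', by simpa [sub_eq_zero] using h6⟩
  have hTK : ∀ i k, (T i k : E) ∈ Set.range (algebraMap K E) := fun i k => by
    obtain ⟨k', h⟩ := hTK' i k
    exact ⟨_, h.symm⟩
  -- the diagonal
  have hcp := word_charpoly g₀ hg u y δ hZ L (by rw [hL, llen_mkL, hs]) hOK
  rw [← hword, hc] at hcp
  set τ : Set E := taus r t₀ g with hτ
  set K₁ : IntermediateField K E := IntermediateField.adjoin K τ with hK₁
  have hKK : ∀ x : K, algebraMap K E x ∈ K₁ := fun x => K₁.algebraMap_mem x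
  have htK₁ : ∀ j < g, ∀ b, ∀ k : Fin r, (t₀ (2 * j) b k k : E) ∈ K₁ := fun j hj b k =>
    IntermediateField.subset_adjoin K τ ⟨j, hj, b, k, rfl⟩
  have hTh : ∀ k, (Th L k : E) ∈ K₁ := by
    have h1 : ∀ (n : ℕ) (i : ℕ), (∀ j < n, ∀ b, ∀ k : Fin r, (t₀ (i + 2 * j) b k k : E) ∈ K₁) →
        ∀ k, (Th (mkL t₀ i (shp n T)) k : E) ∈ K₁ := by
      intro n
      induction n with
      | zero =>
        intro i _ k
        simp only [shp, List.replicate_zero, List.nil_append]
        have h2 : ∀ (q : ℕ) (S : Fin q → Fin r → Eˣ), (∀ i k, (S i k : E) ∈ Set.range (algebraMap K E)) →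
            ∀ i, (Th (mkL t₀ i (List.ofFn fun i => some (S i))) k : E) ∈ K₁ := by
          intro q
          induction q with
          | zero => intro S _ i; simp [mkL, Th]
          | succ q ih =>
            intro S hS i
            rw [List.ofFn_succ, mkL]
            simp only [Th, List.map_cons, List.prod_cons, Units.val_mul]
            refine mul_mem ?_ (ih (fun i => S i.succ) (fun i k => hS _ _) (i + 1))
            obtain ⟨x, hx⟩ := hS 0 k
            change (S 0 k : E) ∈ K₁
            rw [← hx]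
            exact hKK x
        exact h2 m T hTK i
      | succ n ih =>
        intro i hi k
        have h2 : shp (n + 1) T = none :: shp n T := by
          simp [shp, List.replicate_succ]
        rw [h2, mkL]
        simp only [Th, List.map_cons, List.prod_cons, Units.val_mul]
        refine mul_mem ?_ (ih (i + 2) ?_ k)
        · have h3 : ∀ b, ∀ k : Fin r, (t₀ i b k k : E) ∈ K₁ := fun b k => by
            simpa using hi 0 (by omega) b k
          simp only [LP.th, Units.val_mul, Units.val_inv_eq_inv_val]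
          exact mul_mem (mul_mem (h3 _ _) (inv_mem (h3 _ _)))
            (inv_mem (mul_mem (h3 _ _) (inv_mem (h3 _ _))))
        · intro j hj b k
          have := hi (j + 1) (by omega) b k
          rwa [show i + 2 * (j + 1) = i + 2 + 2 * j by ring] at this
    intro k
    rw [hL]
    exact h1 g 0 (fun j hj b k => by rw [zero_add]; exact htK₁ j hj b k) k
  have hδc : ∀ k, ∃ k', δ k * (Th L k : E) = algebraMap K E (c₀ k') := by
    intro k
    have h5 : (∏ k, (Polynomial.X - Polynomial.C (δ k * (Th L k : E)))).eval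
        (δ k * (Th L k : E)) = 0 := by
      rw [Polynomial.eval_prod]
      exact Finset.prod_eq_zero (Finset.mem_univ k) (by simp)
    rw [← hcp, Polynomial.eval_prod, Finset.prod_eq_zero_iff] at h5
    obtain ⟨k', -, h6⟩ := h5
    exact ⟨k', by simpa [sub_eq_zero] using h6⟩
  have hδK : ∀ k, δ k ∈ K₁ := by
    intro k
    obtain ⟨k', h7⟩ := hδc k
    have h8 : δ k = algebraMap K E (c₀ k') / (Th L k : E) := by
      rw [← h7, mul_div_cancel_right₀ _ (Th L k).ne_zero]
    rw [h8]
    exact div_mem (hKK _) (hTh k)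
  have hδ0 : ∀ k, δ k ≠ 0 := by
    intro k h0
    have := InZ.prod_diag hZ
    rw [Finset.prod_eq_zero (Finset.mem_univ k) h0] at this
    exact zero_ne_one this
  have hZ' : InZ s (fun k => algebraMap K₁ E ⟨δ k, hδK k⟩) u y := hZ
  rcases gen (K := K₁) hr (by omega : 1 ≤ s) (fun k => ⟨δ k, hδK k⟩)
    (fun k h => hδ0 k (by simpa using congrArg Subtype.val h)) u y hZ' with ⟨t₁, ht₁⟩ | hB
  · -- combine the parameters
    have hL' : mkL (fun i b j k => if j = k then t₀ i b k k else t₁ i b j k) 0 (shp g T) = L := by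
      rw [hL]
      exact (mkL_congr (fun i b k => by simp) _ _).symm
    refine ⟨g₀, u, y, fun i b j k => if j = k then t₀ i b k k else t₁ i b j k, T, δ, hg, ?_, ?_, hZ,
      ?_, hTK', hTp, by rw [hL']; exact hδc, by rw [hL']; exact hcp.symm⟩
    · intro i b
      simp only [if_true]
      exact hN₀ i b
    · refine ht₁.congr ?_
      intro i _ b j _ k hk
      rw [if_neg (by omega)]
    · rw [hL']
      exact hword
  · exfalso
    have h1 := Bd.adjoin hB
    have h2 := Bd_taus (K := K) (by omega : 1 ≤ r) t₀ hN₀ g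
    have h3 : Bd K (∅ ∪ taus r t₀ g) (ents s u y) (s * (r * (r - 1)) - r) := by
      rw [Set.empty_union]; exact h1
    have h4 := (h2.trans h3).trans (hgB _)
    have h5 : wents (sword a b A) ⊆ acl K (∅ ∪ (taus r t₀ g ∪ ents s u y ∪ ent g₀)) := by
      rw [hword, hL]
      refine wents_subset hs ?_ ?_ ?_ t₀ T ?_ ?_
      · exact In_of_ent ((Set.subset_union_right.trans Set.subset_union_right).trans (subset_acl _))
      · intro j hj
        refine In_of_ent (Set.Subset.trans ?_ (subset_acl _))
        intro x hx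
        exact Or.inr (Or.inl (Or.inr (Or.inr ⟨j, hj, hx⟩)))
      · intro j hj
        refine In_of_ent (Set.Subset.trans ?_ (subset_acl _))
        intro x hx
        exact Or.inr (Or.inl (Or.inr (Or.inl ⟨j, hj, hx⟩)))
      · intro j hj b k
        exact subset_acl _ (Or.inr (Or.inl (Or.inl ⟨j, hj, b, k, rfl⟩)))
      · intro i k
        obtain ⟨x, hx⟩ := hTK i k
        rw [← hx]
        exact algebraMap_mem_acl _ _
    have h6 := rk_le (h4.mono (subset_acl _) h5 le_rfl)
    obtain ⟨q, rfl⟩ : ∃ q, r = q + 1 := ⟨r - 1, by omega⟩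
    have e1 : (q + 1) ^ 2 - 1 = q * (q + 2) := by
      have : (q + 1) ^ 2 = q * (q + 2) + 1 := by ring
      omega
    rw [hcnt, e1] at hD
    simp only [Nat.add_sub_cancel] at hD h6
    have e2 : (q + 1) ≤ s * ((q + 1) * q) := by
      have : 1 * ((q + 1) * 1) ≤ s * ((q + 1) * q) :=
        Nat.mul_le_mul (by omega) (Nat.mul_le_mul_left _ (by omega))
      omega
    obtain ⟨z, hz⟩ : ∃ z, s * ((q + 1) * q) = z + (q + 1) := ⟨_, (Nat.sub_add_cancel e2).symm⟩
    rw [hz, Nat.add_sub_cancel] at h6
    have e3 : (2 * g + m) * ((q + 1) * q) = s * ((q + 1) * q) + (q + 1) * q := by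
      rw [hs]; ring
    have e4 : g * (2 * (q * (q + 2))) + m * ((q + 1) * q) =
        (2 * g + m) * ((q + 1) * q) + g * (2 * q) := by ring
    have e5 : g * (2 * q) + z + (q + 1) * q = g * (2 * q) + z + (q + 1) * q := rfl
    omega

end

end Pool.Agent.MP_3f0e22_ag.Asm
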