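import Pool.Agent.MP_3f0e22_ag.Asm3

/-! # MP_3f0e22_ag, version 2: assembly, part 4: density -/

set_option autoImplicit false

open Matrix MvPolynomial

namespace Pool.Agent.MP_3f0e22_ag.Asm

section

variable {R : Type*} [CommRing R] {R' : Type*} [CommRing R'] {r : ℕ}

/-! ### naturality of the diagonal -/

theorem th_map (φ : R →+* R') (p : LP r R) (k : Fin r) :
    Units.map (φ : R →* R') (p.th k) = (p.map φ).th k := by
  rcases p with c | ⟨c, d⟩
  · rfl
  · simp only [LP.th, LP.map, map_mul, map_inv]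

theorem Th_map (φ : R →+* R') (L : List (LP r R)) (k : Fin r) :
    Units.map (φ : R →* R') (Th L k) = Th (L.map (LP.map φ)) k := by
  simp only [Th, map_list_prod, List.map_map]
  congr 1
  refine List.map_congr_left fun p _ => ?_
  exact th_map φ p k

theorem Th_mkL_map (φ : R →+* R') (t : ℕ → Bool → ℕ → ℕ → Rˣ) (g : ℕ) {m : ℕ}
    (T : Fin m → Fin r → Rˣ) (k : Fin r) :
    Units.map (φ : R →* R') (Th (mkL t 0 (shp g T)) k) =
      Th (mkL (fun i b j k => Units.map (φ : R →* R') (t i b j k)) 0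
        (shp g fun i k => Units.map (φ : R →* R') (T i k))) k := by
  rw [Th_map, mkL_map]

theorem prod_Th' (t : ℕ → Bool → ℕ → ℕ → Rˣ) (g : ℕ) {m : ℕ} (T : Fin m → Fin r → Rˣ) :
    ∏ k, Th (mkL t 0 (shp g T)) k = ∏ i, ∏ k, T i k := by
  rw [prod_Th, shp]
  simp only [List.map_append, List.prod_append, List.map_replicate, List.map_ofFn, List.prod_ofFn,
    List.prod_replicate]
  simp

/-! ### the coordinates of the point with given parameters -/

/-- The coordinates of the representation with parameters `g₀`, `u`, `y`, `t`, `T`. -/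
def crd (g₀ : Mat r R) (u y : ℕ → Mat r R) (t : ℕ → Bool → ℕ → ℕ → Rˣ) (g : ℕ) {m : ℕ}
    (T : Fin m → Fin r → Rˣ) : (Fin g ⊕ Fin g ⊕ Fin m) × Fin r × Fin r → R :=
  scoord (fun j : Fin g => xf g₀ u y (0 + 2 * j) (fun k => t (0 + 2 * j) false k k)
          fun k => t (0 + 2 * j) true k k)
        (fun j : Fin g => yf g₀ u y (0 + 2 * j) (fun k => t (0 + 2 * j) false k k)
          fun k => t (0 + 2 * j) true k k)
        (fun j : Fin m => af g₀ u y (0 + 2 * g + j) (T j))

theorem crd_map (φ : R →+* R') (g₀ : Mat r R) (u y : ℕ → Mat r R) (t : ℕ → Bool → ℕ → ℕ → Rˣ)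
    (g : ℕ) {m : ℕ} (T : Fin m → Fin r → Rˣ) (z : (Fin g ⊕ Fin g ⊕ Fin m) × Fin r × Fin r) :
    φ (crd g₀ u y t g T z) =
      crd (g₀.map φ) (fun i => (u i).map φ) (fun i => (y i).map φ)
        (fun i b j k => Units.map (φ : R →* R') (t i b j k)) g
        (fun i k => Units.map (φ : R →* R') (T i k)) z := by
  rcases z with ⟨j | j | j, x⟩
  · exact congrFun (congrFun (xf_map φ g₀ u y (0 + 2 * j) (fun k => t (0 + 2 * j) false k k)
      fun k => t (0 + 2 * j) true k k) x.1) x.2
  · exact congrFun (congrFun (yf_map φ g₀ u y (0 + 2 * j) (fun k => t (0 + 2 * j) false k k)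
      fun k => t (0 + 2 * j) true k k) x.1) x.2
  · exact congrFun (congrFun (af_map φ g₀ u y (0 + 2 * g + j) (T j)) x.1) x.2

theorem crd_congr {g₀ : Mat r R} {u y u' y' : ℕ → Mat r R} {t : ℕ → Bool → ℕ → ℕ → Rˣ}
    {g m s : ℕ} (hs : 2 * g + m = s + 1) {T : Fin m → Fin r → Rˣ} (hu : ∀ j < s, u j = u' j)
    (hy : ∀ j ≤ s, y j = y' j) : crd g₀ u y t g T = crd g₀ u' y' t g T := by
  funext z
  rcases z with ⟨j | j | j, x⟩
  · exact congrFun (congrFun (xf_congr (fun i hi => hu i (by omega))
      (fun i hi => hy i (by omega))) x.1) x.2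
  · exact congrFun (congrFun (yf_congr (fun i hi => hu i (by omega))
      (fun i hi => hy i (by omega))) x.1) x.2
  · exact congrFun (congrFun (af_congr (fun i hi => hu i (by omega))
      (fun i hi => hy i (by omega))) x.1) x.2

end

section

variable {O Ω : Type} [CommRing O] [Field Ω] {r : ℕ}

theorem chart_lift (ι : O →+* Ω) {s : ℕ} {t : ℕ → Bool → ℕ → ℕ → Ωˣ} {u y : ℕ → Mat r Ω}
    (t' : ℕ → Bool → ℕ → ℕ → Oˣ) (ht : ∀ i b j k, Units.map (ι : O →* Ω) (t' i b j k) = t i b j k)
    (h : Chart s t u y) :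
    ∃ u' y' : ℕ → Mat r O, (∀ i < s, u i = (u' i).map ι) ∧ (∀ i ≤ s, y i = (y' i).map ι) ∧
      Chart s t' u' y' := by
  obtain ⟨u', y', h'⟩ := chart_exists (R := O) (r := r) s t'
  have h2 := h'.map ι
  simp only [ht] at h2
  obtain ⟨h3, h4⟩ := h.unique h2
  exact ⟨u', y', h3, h4, h'⟩

theorem InZ_lift (ι : O →+* Ω) (hι : Function.Injective ι) {s : ℕ} {δ : Fin r → O}
    {u' y' : ℕ → Mat r O}
    (h : InZ s (fun k => ι (δ k)) (fun i => (u' i).map ι) (fun i => (y' i).map ι)) :
    InZ s δ u' y' := by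
  have hm : (fun i => (y' i).map ι) s * Q (fun i => (u' i).map ι) (fun i => (y' i).map ι) s =
      (y' s * Q u' y' s).map ι := by
    rw [Matrix.map_mul, Q_map]
  refine ⟨?_, ?_, ?_, ?_⟩
  · intro i hi
    refine ⟨fun k => hι ?_, fun a b hab => hι ?_⟩
    · rw [map_one]; exact (h.low i hi).1 k
    · rw [map_zero]; exact (h.low i hi).2 a b hab
  · intro i hi
    refine ⟨fun k => hι ?_, fun a b hab => hι ?_⟩
    · rw [map_one]; exact (h.up i hi).1 k
    · rw [map_zero]; exact (h.up i hi).2 a b hab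
  · intro i j hij
    have := h.zero i j hij
    rw [hm] at this
    exact hι (by rw [map_zero]; exact this)
  · intro i
    have := h.diag i
    rw [hm] at this
    exact hι this

theorem det_map' (ι : O →+* Ω) (M : Mat r O) : (M.map ι).det = ι M.det := (ι.map_det M).symm

/-- The matrices of the points over `O`. -/
theorem crd_spec {g m s : ℕ} (hs : 2 * g + m = s + 1) (g₀ : Mat r O) (hg : g₀.det = 1)
    (u y : ℕ → Mat r O) (t : ℕ → Bool → ℕ → ℕ → Oˣ) (ht : Nrm r t) (T : Fin m → Fin r → Oˣ)
    (c : Fin r → Oˣ)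
    (hZ : InZ s (fun k => ((c k * (Th (mkL t 0 (shp g T)) k)⁻¹ : Oˣ) : O)) u y) :
    ∃ (x z : Fin g → Mat r O) (A : Fin m → Mat r O), crd g₀ u y t g T = scoord x z A ∧
      (∀ j, (x j).det = 1) ∧ (∀ j, (z j).det = 1) ∧
      (∀ i, (A i).charpoly = ∏ k, (Polynomial.X - Polynomial.C (T i k : O))) ∧
      (wval (sword x z A)).charpoly = ∏ k, (Polynomial.X - Polynomial.C (c k : O)) := by
  have hdet : ∀ j : Fin g, (al g₀ u y (0 + 2 * (j : ℕ)) fun k => (t (0 + 2 * (j : ℕ)) false k k : O)).det = 1 ∧
      (be g₀ u y (0 + 2 * (j : ℕ)) fun k => (t (0 + 2 * (j : ℕ)) true k k : O)).det = 1 := fun j =>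
    letter_hd_det g₀ hg u y hZ.low hZ.up (0 + 2 * (j : ℕ)) (by omega)
      (fun k => t (0 + 2 * (j : ℕ)) false k k) (fun k => t (0 + 2 * (j : ℕ)) true k k)
      ⟨ht _ _, ht _ _⟩
  refine ⟨_, _, _, rfl, ?_, ?_, ?_, ?_⟩
  · intro j
    simp only [xf, det_mul, det_adjugate, (hdet j).1, (hdet j).2]
    simp
  · intro j
    simp only [yf, det_mul, det_adjugate, (hdet j).1, (hdet j).2]
    simp
  · intro i
    exact letter_pt_charpoly g₀ hg u y hZ.low hZ.up (0 + 2 * g + i) (by omega) (T i)
  · rw [← word_shp, word_charpoly g₀ hg u y _ hZ _ (by rw [llen_mkL, hs]) (mkL_OK t ht _ _)]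
    refine Finset.prod_congr rfl fun k _ => ?_
    rw [← Units.val_mul, inv_mul_cancel_right]

theorem prod_map_inj (j : O →+* Ω) (hj : Function.Injective j) {a b : Fin r → O}
    (h : ∏ k, (Polynomial.X - Polynomial.C (j (a k))) = ∏ k, (Polynomial.X - Polynomial.C (j (b k)))) :
    ∏ k, (Polynomial.X - Polynomial.C (a k)) = ∏ k, (Polynomial.X - Polynomial.C (b k)) := by
  apply Polynomial.map_injective j hj
  rw [Polynomial.map_prod, Polynomial.map_prod]
  simpa using h

/-- The generic matrix. -/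
noncomputable def genG (Ω : Type) [Field Ω] (r : ℕ) : Mat r (MvPolynomial (Fin r × Fin r) Ω) :=
  fun a b => X (a, b)

theorem exists_poly_g {E : Type} [Field E] (u y : ℕ → Mat r E) (t : ℕ → Bool → ℕ → ℕ → Eˣ)
    {g m : ℕ} (T : Fin m → Fin r → Eˣ)
    (F : MvPolynomial ((Fin g ⊕ Fin g ⊕ Fin m) × Fin r × Fin r) E) :
    ∃ G : MvPolynomial (Fin r × Fin r) E, ∀ g₀ : Mat r E,
      eval (fun x => g₀ x.1 x.2) G = eval (crd g₀ u y t g T) F := by
  refine ⟨aeval (crd (genG E r) (fun i => (u i).map C) (fun i => (y i).map C)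
    (fun i b j k => Units.map ((C : E →+* MvPolynomial (Fin r × Fin r) E) : E →* _) (t i b j k)) g
    (fun i k => Units.map ((C : E →+* MvPolynomial (Fin r × Fin r) E) : E →* _) (T i k))) F, ?_⟩
  intro g₀
  have h2 : (genG E r).map (eval fun x : Fin r × Fin r => g₀ x.1 x.2) = g₀ := by
    ext a b; simp [genG]
  have h3 : ∀ M : Mat r E, ((M.map C).map (eval fun x : Fin r × Fin r => g₀ x.1 x.2)) = M := by
    intro M; ext a b; simp
  have h4 : ∀ w : Eˣ, Units.map ((eval fun x : Fin r × Fin r => g₀ x.1 x.2 :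
      MvPolynomial (Fin r × Fin r) E →+* E) : MvPolynomial (Fin r × Fin r) E →* E)
      (Units.map ((C : E →+* MvPolynomial (Fin r × Fin r) E) : E →* _) w) = w := by
    intro w; ext; simp
  rw [map_aeval]
  have h5 : (eval fun x : Fin r × Fin r => g₀ x.1 x.2).comp
      (algebraMap E (MvPolynomial (Fin r × Fin r) E)) = RingHom.id E := by
    ext x; simp
  rw [h5]
  change eval₂ _ _ F = eval₂ _ _ F
  congr 1
  funext x
  rw [crd_map, h2]
  simp only [h3, h4]

theorem density_int {g m : ℕ} (hr : 3 ≤ r) (hgm : 1 ≤ g ∨ 2 ≤ m) (ι : O →+* Ω)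
    (hι : Function.Injective ι) (v : Oˣ) (hv : ∀ n : ℤ, v ^ n = 1 → n = 0)
    (a : Fin m → Fin r → Oˣ) (c : Fin r → Oˣ)
    (F : MvPolynomial ((Fin g ⊕ Fin g ⊕ Fin m) × Fin r × Fin r) Ω)
    (hF : ∀ (x y : Fin g → Mat r O) (A : Fin m → Mat r O), (∀ j, (x j).det = 1) →
      (∀ j, (y j).det = 1) →
      (∀ i, (A i).charpoly = ∏ k, (Polynomial.X - Polynomial.C (a i k : O))) →
      (wval (sword x y A)).charpoly = ∏ k, (Polynomial.X - Polynomial.C (c k : O)) →
      eval (fun z => ι (scoord x y A z)) F = 0)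
    (x y : Fin g → Mat r Ω) (A : Fin m → Mat r Ω) (hx : ∀ j, (x j).det = 1)
    (hy : ∀ j, (y j).det = 1)
    (hA : ∀ i, (A i).charpoly = ∏ k, (Polynomial.X - Polynomial.C (ι (a i k))))
    (hP : (wval (sword x y A)).charpoly = ∏ k, (Polynomial.X - Polynomial.C (ι (c k)))) :
    eval (scoord x y A) F = 0 := by
  classical
  by_contra hne
  have hι0 : ∀ w : Oˣ, ι w ≠ 0 := fun w => (Units.map (ι : O →* Ω) w).ne_zero
  have hdet : ∀ i, (A i).det ≠ 0 := by
    intro i
    rw [det_eq_sign_charpoly_coeff, hA i, Polynomial.coeff_zero_eq_eval_zero, Polynomial.eval_prod]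
    refine mul_ne_zero (pow_ne_zero _ (neg_ne_zero.2 one_ne_zero)) ?_
    refine Finset.prod_ne_zero_iff.2 fun k _ => ?_
    simp only [Polynomial.eval_sub, Polynomial.eval_X, Polynomial.eval_C, zero_sub]
    exact neg_ne_zero.2 (hι0 _)
  obtain ⟨E, _, _, _, x', y', A', hU, hx', hy', hA', hP', hne', hD⟩ :=
    exists_generic_word (by omega : 1 ≤ r) x y A hx hy hdet F hne
  set j : O →+* E := (algebraMap Ω E).comp ι with hj
  have hjinj : Function.Injective j := (algebraMap Ω E).injective.comp hι
  have hs : 2 * g + m = (2 * g + m - 1) + 1 := by omega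
  obtain ⟨g₀, u, y₁, t, T, δ, hg₀, hN, hC, hZ, hword, hTk, hTp, hδk, hδp⟩ :=
    chart_of_generic hU hr hgm x' y' A' hx' hy' (fun i k => ι (a i k)) (fun i k => hι0 _)
      (fun i => by rw [hA' i, hA i, Polynomial.map_prod]; simp) (fun k => ι (c k))
      (by rw [hP', hP, Polynomial.map_prod]; simp) hD
  set s := 2 * g + m - 1 with hs'
  -- lifting the constants to `O`
  choose σ hσ using hTk
  choose ρ hρ using hδk
  set TO : Fin m → Fin r → Oˣ := fun i k => a i (σ i k) with hTO
  set CO : Fin r → Oˣ := fun k => c (ρ k) with hCO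
  have hT : T = fun i k => Units.map (j : O →* E) (TO i k) := by
    funext i k
    ext
    exact hσ i k
  subst hT
  have hTOp : ∀ i, ∏ k, (Polynomial.X - Polynomial.C (TO i k : O)) =
      ∏ k, (Polynomial.X - Polynomial.C (a i k : O)) := fun i =>
    prod_map_inj j hjinj (hTp i)
  have hCOp : ∏ k, (Polynomial.X - Polynomial.C (CO k : O)) =
      ∏ k, (Polynomial.X - Polynomial.C (c k : O)) := by
    apply prod_map_inj j hjinj
    refine Eq.trans ?_ hδp
    exact Finset.prod_congr rfl fun k _ => by rw [hρ k]; rfl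
  -- the product of the constants
  have hprod : ∏ k, CO k = ∏ i, ∏ k, TO i k := by
    have h1 := InZ.prod_diag hZ
    have h2 : ∏ k, (δ k * (Th (mkL t 0 (shp g fun i k => Units.map (j : O →* E) (TO i k))) k : E)) =
        ∏ k, j (CO k) := Finset.prod_congr rfl fun k _ => by rw [hρ k]; rfl
    rw [Finset.prod_mul_distrib, h1, one_mul, ← Units.coe_prod, prod_Th'] at h2
    have h3 : ((∏ i, ∏ k, Units.map (j : O →* E) (TO i k) : Eˣ) : E) =
        j ((∏ i, ∏ k, TO i k : Oˣ) : O) := by
      rw [Units.coe_prod, Units.coe_prod, map_prod]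
      refine Finset.prod_congr rfl fun i _ => ?_
      rw [Units.coe_prod, Units.coe_prod, map_prod]
      rfl
    rw [h3, ← map_prod, ← Units.coe_prod] at h2
    exact (Units.ext (hjinj h2)).symm
  -- the vanishing for all `g`
  set tE := t with htE
  have key : ∀ g₁ : Mat r E, g₁.det = 1 → (∀ i k, g₁ i k ∈ j.range) →
      eval (crd g₁ u y₁ t g fun i k => Units.map (j : O →* E) (TO i k))
        (F.map (algebraMap Ω E)) = 0 := by
    intro g₁ hg₁ hg₁'
    choose g' hg' using hg₁'
    have e1 : g₁ = (Matrix.of g').map j := by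
      ext i k; exact (hg' i k).symm
    have e2 : (Matrix.of g').det = 1 := by
      apply hjinj
      rw [← det_map', ← e1, hg₁, map_one]
    set gO : Mat r O := Matrix.of g' with hgO
    -- the embeddings
    let em : ∀ (B : Type) [CommRing B] [Algebra Ω B], O →+* B :=
      fun B _ _ => (algebraMap Ω B).comp ι
    let TB : ∀ (B : Type) [CommRing B] [Algebra Ω B], Fin m → Fin r → Bˣ :=
      fun B _ _ i k => Units.map ((em B : O →+* B) : O →* B) (TO i k)
    let δB : ∀ (B : Type) [CommRing B] [Algebra Ω B], (ℕ → Bool → ℕ → ℕ → Bˣ) → Fin r → Bˣ :=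
      fun B _ _ t k => Units.map ((em B : O →+* B) : O →* B) (CO k) *
        (Th (mkL t 0 (shp g (TB B))) k)⁻¹
    let Φ : ∀ (B : Type) [CommRing B] [Algebra Ω B], (ℕ → Mat r B) → (ℕ → Mat r B) →
        (ℕ → Bool → ℕ → ℕ → Bˣ) → B :=
      fun B _ _ u y t => aeval (crd (gO.map (em B)) u y t g (TB B)) F
    have hem : ∀ (B B' : Type) [CommRing B] [Algebra Ω B] [CommRing B'] [Algebra Ω B']
        (φ : B →ₐ[Ω] B') (z : O), φ (em B z) = em B' z := by
      intro B B' _ _ _ _ φ z
      exact φ.commutes _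
    have hTB : ∀ (B B' : Type) [CommRing B] [Algebra Ω B] [CommRing B'] [Algebra Ω B']
        (φ : B →ₐ[Ω] B'), (fun i k => Units.map ((φ : B →+* B') : B →* B') (TB B i k)) = TB B' := by
      intro B B' _ _ _ _ φ
      funext i k
      ext
      exact hem B B' φ _
    have hgB : ∀ (B B' : Type) [CommRing B] [Algebra Ω B] [CommRing B'] [Algebra Ω B']
        (φ : B →ₐ[Ω] B'), (gO.map (em B)).map (φ : B →+* B') = gO.map (em B') := by
      intro B B' _ _ _ _ φ
      ext i k
      exact hem B B' φ _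
    have main : Φ E u y₁ t = 0 := by
      refine universal (Ω := Ω) (r := r) (s := s) (by omega) (by omega)
        (Units.map (ι : O →* Ω)).range (Units.map (ι : O →* Ω) v) ⟨v, rfl⟩ ?_ ⟨-1, by ext; simp⟩
        δB ?_ ?_ ?_ ?_ Φ ?_ ?_ ?_ t u y₁ hN hC ?_
      · intro n hn
        apply hv n
        rw [← map_zpow] at hn
        exact Units.map_injective hι (hn.trans (map_one _).symm)
      · intro B B' _ _ _ _ φ t k
        change Units.map ((φ : B →+* B') : B →* B') (_ * _⁻¹) = _ * _⁻¹
        rw [map_mul, map_inv, Th_mkL_map, hTB B B' φ]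
        congr 1
        ext
        exact hem B B' φ _
      · intro B _ _ t t' h
        funext k
        change _ * _⁻¹ = _ * _⁻¹
        rw [mkL_congr h]
      · intro t ht k
        choose t' ht' using ht
        refine ⟨CO k * (Th (mkL t' 0 (shp g TO)) k)⁻¹, ?_⟩
        change _ = _ * _⁻¹
        rw [map_mul, map_inv, Th_mkL_map]
        simp only [ht']
        rfl
      · intro B _ _ t _
        change ∏ k, (_ * _⁻¹) = _
        rw [Finset.prod_mul_distrib, Finset.prod_inv_distrib, prod_Th', ← map_prod, hprod,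
          map_prod, mul_inv_eq_one]
        refine Finset.prod_congr rfl fun i _ => ?_
        rw [map_prod]
      · intro B B' _ _ _ _ φ u y t
        change φ (aeval _ F) = aeval _ F
        rw [← AlgHom.comp_apply, MvPolynomial.comp_aeval]
        congr 2
        funext z
        have := crd_map (φ : B →+* B') (gO.map (em B)) u y t g (TB B) z
        rw [hgB B B' φ, hTB B B' φ] at this
        exact this
      · intro B _ _ u y u' y' t hu hy
        change aeval _ F = aeval _ F
        rw [crd_congr hs hu hy]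
      · intro t u y ht hNt hCt hZt
        choose t' ht' using ht
        obtain ⟨u', y', h1, h2, -⟩ := chart_lift ι t' ht' hCt
        have h3 : InZ s (fun k => ((δB Ω t k : Ωˣ) : Ω)) (fun i => (u' i).map ι)
            fun i => (y' i).map ι := InZ_congr hZt h1 h2
        have hTΩ : TB Ω = fun i k => Units.map (ι : O →* Ω) (TO i k) := by
          funext i k; ext; rfl
        have h4 : (fun k => ((δB Ω t k : Ωˣ) : Ω)) =
            fun k => ι ((CO k * (Th (mkL t' 0 (shp g TO)) k)⁻¹ : Oˣ) : O) := by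
          funext k
          have h5 : δB Ω t k = Units.map (ι : O →* Ω) (CO k * (Th (mkL t' 0 (shp g TO)) k)⁻¹) := by
            rw [map_mul, map_inv, Th_mkL_map]
            simp only [ht']
            change _ * _⁻¹ = _
            rw [hTΩ]
            rfl
          rw [h5]
          rfl
        rw [h4] at h3
        have hZO := InZ_lift ι hι h3
        have hNO : Nrm r t' := by
          intro i b
          apply hι
          rw [map_prod]
          have h5 := hNt i b
          rw [← det_map', Jm_map, ← h5]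
          refine Finset.prod_congr rfl fun k _ => ?_
          rw [← ht']
          rfl
        obtain ⟨X, Y, AA, h6, h7, h8, h9, h10⟩ := crd_spec hs gO e2 u' y' t' hNO TO CO hZO
        have h11 := hF X Y AA h7 h8 (fun i => by rw [h9 i, hTOp i]) (by rw [h10, hCOp])
        have h12 : crd (gO.map (em Ω)) u y t g (TB Ω) = fun z => ι (scoord X Y AA z) := by
          rw [crd_congr hs h1 h2]
          funext z
          rw [← h6, crd_map]
          simp only [ht']
          rw [hTΩ]
          rfl
        change aeval _ F = 0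
        rw [h12]
        exact h11
      · have h4 : (fun k => ((δB E t k : Eˣ) : E)) = δ := by
          funext k
          change ((Units.map ((em E : O →+* E) : O →* E) (CO k) *
            (Th (mkL t 0 (shp g (TB E))) k)⁻¹ : Eˣ) : E) = δ k
          rw [Units.val_mul, Units.val_inv_eq_inv_val]
          have h5 := hρ k
          have h6 : (Th (mkL t 0 (shp g (TB E))) k : E) ≠ 0 := Units.ne_zero _
          rw [← div_eq_mul_inv, div_eq_iff h6]
          exact h5.symm
        rw [h4]
        exact hZ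
    rw [eval_map, ← aeval_def, e1]
    exact main
  -- the end
  obtain ⟨G, hG⟩ := exists_poly_g u y₁ t (g := g) (fun i k => Units.map (j : O →* E) (TO i k))
    (F.map (algebraMap Ω E))
  have hfin : eval (crd g₀ u y₁ t g fun i k => Units.map (j : O →* E) (TO i k))
      (F.map (algebraMap Ω E)) = 0 := by
    rw [← hG]
    refine sl_density j.range ?_ G ?_ g₀ hg₀
    · have hinj : Function.Injective fun n : ℤ => j ((v ^ n : Oˣ) : O) := by
        intro n n' hnn
        have h1 : v ^ n = v ^ n' := Units.ext (hjinj hnn)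
        have h2 : v ^ (n - n') = 1 := by rw [_root_.zpow_sub, h1, mul_inv_cancel]
        have := hv _ h2
        omega
      refine (Set.infinite_range_of_injective hinj).mono ?_
      rintro _ ⟨n, rfl⟩
      exact ⟨_, rfl⟩
    · intro g₁ hg₁ hg₁'
      rw [hG]
      exact key g₁ hg₁ hg₁'
  apply hne'
  rw [word_shp, sword, sword] at hword
  have h2 := List.append_inj hword (by simp)
  have h3 := List.ofFn_injective h2.1
  have h4 := List.ofFn_injective h2.2
  have h5 : scoord x' y' A' = crd g₀ u y₁ t g fun i k => Units.map (j : O →* E) (TO i k) := by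
    funext z
    rcases z with ⟨i | i | i, w⟩
    · have := congrFun h3 i
      have h6 := ((Letter.hd.injEq _ _ _ _).mp this).1
      exact congrFun (congrFun h6 w.1) w.2
    · have := congrFun h3 i
      have h6 := ((Letter.hd.injEq _ _ _ _).mp this).2
      exact congrFun (congrFun h6 w.1) w.2
    · have := congrFun h4 i
      have h6 := (Letter.pt.injEq _ _).mp this
      exact congrFun (congrFun h6 w.1) w.2
  rw [h5, aeval_def, ← eval_map]
  exact hfin

end

end Pool.Agent.MP_3f0e22_ag.Asm
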