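import Pool.Agent.MP_3f0e22_ag.Asm4

/-! # MP_3f0e22_ag, version 2: assembly, part 5: the last puncture, scalars -/

set_option autoImplicit false

open Matrix MvPolynomial

namespace Pool.Agent.MP_3f0e22_ag.Asm

section

variable {R : Type*} [CommRing R] {R' : Type*} [CommRing R'] {r : ℕ}

theorem charpoly_inv_eq (P P' : Mat r R) (h : P.charpoly = P'.charpoly) (hP : IsUnit P) :
    P⁻¹.charpoly = P'⁻¹.charpoly := by
  have hd : P.det = P'.det := by
    rw [det_eq_sign_charpoly_coeff, det_eq_sign_charpoly_coeff P', h]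
  have hP' : IsUnit P' := by
    rw [isUnit_iff_isUnit_det] at hP ⊢
    rwa [← hd]
  rw [charpoly_inv P hP, charpoly_inv P' hP', hd, ← reverse_charpoly, ← reverse_charpoly, h]

theorem charpoly_diag (a : Fin r → R) :
    (diagonal a).charpoly = ∏ k, (Polynomial.X - Polynomial.C (a k)) := by
  rw [charpoly_of_isUpperTriangular (diagonal a) (fun i j h => diagonal_apply_ne _ (ne_of_gt h))]
  simp

theorem inv_charpoly {P B : Mat r R} (h : P * B = 1) (a : Fin r → Rˣ)
    (hB : B.charpoly = ∏ k, (Polynomial.X - Polynomial.C (a k : R))) :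
    P.charpoly = ∏ k, (Polynomial.X - Polynomial.C (((a k)⁻¹ : Rˣ) : R)) := by
  have h1 : P = B⁻¹ := (Matrix.inv_eq_left_inv h).symm
  have hB' : IsUnit B := (isUnit_iff_isUnit_det _).2 (by
    have h2 : P.det * B.det = 1 := by rw [← det_mul, h, det_one]
    exact IsUnit.of_mul_eq_one_right _ h2)
  have h3 : (diagonal fun k => (a k : R))⁻¹ = diagonal fun k => (((a k)⁻¹ : Rˣ) : R) := by
    apply Matrix.inv_eq_left_inv
    rw [diagonal_mul_diagonal]
    simp
  rw [h1, charpoly_inv_eq B (diagonal fun k => (a k : R)) (by rw [hB, charpoly_diag]) hB', h3,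
    charpoly_diag]

theorem det_of_charpoly {B : Mat r R} (a : Fin r → R)
    (hB : B.charpoly = ∏ k, (Polynomial.X - Polynomial.C (a k))) : B.det = ∏ k, a k := by
  rw [det_eq_sign_charpoly_coeff, hB, ← charpoly_diag, ← det_eq_sign_charpoly_coeff, det_diagonal]

/-- The last matrix. -/
def lastM {g m : ℕ} (c : R) (x y : Fin g → Mat r R) (A : Fin m → Mat r R) : Fin (m + 1) → Mat r R :=
  Fin.snoc A (c • (wval (sword x y A)).adjugate)

theorem wval_snoc {g m : ℕ} (x y : Fin g → Mat r R) (A : Fin m → Mat r R) (B : Mat r R) :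
    wval (sword x y (Fin.snoc A B : Fin (m + 1) → Mat r R)) = wval (sword x y A) * B := by
  simp only [wval, sword, List.map_append, List.prod_append, List.map_ofFn, mul_assoc]
  congr 1
  rw [List.ofFn_succ', List.concat_eq_append, List.prod_append, List.prod_singleton]
  congr 1
  · congr 1
    congr 1
    funext i
    simp [Letter.val]
  · simp [Letter.val]

theorem wval_map (φ : R →+* R') (w : List (Letter r R)) :
    (wval w).map φ = wval (w.map (Letter.map φ)) := by
  have h : (wval w).map φ = φ.mapMatrix (wval w) := rfl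
  rw [h, wval, map_list_prod, wval, List.map_map, List.map_map]
  congr 1
  refine List.map_congr_left fun l _ => ?_
  rcases l with A | ⟨a, b⟩
  · rfl
  · simp only [Function.comp, Letter.val, Letter.map, map_mul, RingHom.mapMatrix_apply,
      adj_map]

theorem sword_map (φ : R →+* R') {g m : ℕ} (x y : Fin g → Mat r R) (A : Fin m → Mat r R) :
    (sword x y A).map (Letter.map φ) =
      sword (fun j => (x j).map φ) (fun j => (y j).map φ) (fun i => (A i).map φ) := by
  simp only [sword, List.map_append, List.map_ofFn]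
  rfl

theorem smul_map (φ : R →+* R') (c : R) (M : Mat r R) : (c • M).map φ = φ c • M.map φ := by
  ext i j
  simp

theorem lastM_map (φ : R →+* R') {g m : ℕ} (c : R) (x y : Fin g → Mat r R)
    (A : Fin m → Mat r R) (i : Fin (m + 1)) :
    (lastM c x y A i).map φ =
      lastM (φ c) (fun j => (x j).map φ) (fun j => (y j).map φ) (fun i => (A i).map φ) i := by
  unfold lastM
  refine Fin.lastCases ?_ (fun i => ?_) i
  · rw [Fin.snoc_last, Fin.snoc_last, smul_map, adj_map, wval_map, sword_map]
  · rw [Fin.snoc_castSucc, Fin.snoc_castSucc]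

theorem scoord_map {R : Type*} {R' : Type*} (φ : R → R') {g m : ℕ} (x y : Fin g → Mat r R)
    (A : Fin m → Mat r R)
    (z : (Fin g ⊕ Fin g ⊕ Fin m) × Fin r × Fin r) : φ (scoord x y A z) =
      scoord (fun j => (x j).map φ) (fun j => (y j).map φ) (fun i => (A i).map φ) z := by
  rcases z with ⟨i | i | i, w⟩ <;> rfl

end

section

variable {O Ω : Type} [CommRing O] [Field Ω] {r : ℕ}

/-- The generic matrices. -/
noncomputable def gm (Ω : Type) [Field Ω] (r : ℕ) {σ : Type} (i : σ) :
    Mat r (MvPolynomial (σ × Fin r × Fin r) Ω) := fun a b => X (i, a, b)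

theorem gm_map {σ : Type} (i : σ) (x : σ × Fin r × Fin r → Ω) :
    (gm Ω r i).map (eval x) = fun a b => x (i, a, b) := by
  ext a b
  simp [gm]

theorem exists_poly_last {g m : ℕ} (c : Ω)
    (F : MvPolynomial ((Fin g ⊕ Fin g ⊕ Fin (m + 1)) × Fin r × Fin r) Ω) :
    ∃ G : MvPolynomial ((Fin g ⊕ Fin g ⊕ Fin m) × Fin r × Fin r) Ω,
      ∀ (x y : Fin g → Mat r Ω) (A : Fin m → Mat r Ω), eval (scoord x y A) G =
        eval (scoord x y (lastM c x y A)) F := by
  let gx : Fin g → Mat r (MvPolynomial ((Fin g ⊕ Fin g ⊕ Fin m) × Fin r × Fin r) Ω) :=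
    fun j => gm Ω r (Sum.inl j)
  let gy : Fin g → Mat r (MvPolynomial ((Fin g ⊕ Fin g ⊕ Fin m) × Fin r × Fin r) Ω) :=
    fun j => gm Ω r (Sum.inr (Sum.inl j))
  let gA : Fin m → Mat r (MvPolynomial ((Fin g ⊕ Fin g ⊕ Fin m) × Fin r × Fin r) Ω) :=
    fun j => gm Ω r (Sum.inr (Sum.inr j))
  refine ⟨aeval (scoord gx gy (lastM (C c) gx gy gA)) F, ?_⟩
  intro x y A
  rw [map_aeval]
  have h5 : (eval (scoord x y A)).comp
      (algebraMap Ω (MvPolynomial ((Fin g ⊕ Fin g ⊕ Fin m) × Fin r × Fin r) Ω)) =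
      RingHom.id Ω := by
    ext x; simp
  rw [h5]
  change eval₂ _ _ F = eval₂ _ _ F
  congr 1
  funext z
  rw [scoord_map (eval (scoord x y A))]
  have e1 : (fun j => (gx j).map (eval (scoord x y A))) = x := by
    funext j
    exact gm_map _ _
  have e2 : (fun j => (gy j).map (eval (scoord x y A))) = y := by
    funext j
    exact gm_map _ _
  have e3 : (fun j => (gA j).map (eval (scoord x y A))) = A := by
    funext j
    exact gm_map _ _
  have e4 : (fun i => (lastM (C c) gx gy gA i).map (eval (scoord x y A))) = lastM c x y A := by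
    funext i
    rw [lastM_map, e1, e2, e3, eval_C]
  rw [e1, e2, e4]

/-- All the cases. -/
theorem density_int' [IsAlgClosed Ω] {g m : ℕ} (hr : 3 ≤ r) (ι : O →+* Ω)
    (hι : Function.Injective ι) (v : Oˣ) (hv : ∀ n : ℤ, v ^ n = 1 → n = 0)
    (a : Fin m → Fin r → Oˣ) (c : Fin r → Oˣ)
    (F : MvPolynomial ((Fin g ⊕ Fin g ⊕ Fin m) × Fin r × Fin r) Ω)
    (hF : ∀ (x y : Fin g → Mat r O) (A : Fin m → Mat r O), (∀ j, (x j).det = 1) →
      (∀ j, (y j).det = 1) →
      (∀ i, (A i).charpoly = ∏ k, (Polynomial.X - Polynomial.C (a i k : O))) →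
      (wval (sword x y A)).charpoly = ∏ k, (Polynomial.X - Polynomial.C (c k : O)) →
      eval (fun z => ι (scoord x y A z)) F = 0)
    (x y : Fin g → Mat r Ω) (A : Fin m → Mat r Ω) (hx : ∀ j, (x j).det = 1)
    (hy : ∀ j, (y j).det = 1)
    (hA : ∀ i, (A i).charpoly = ∏ k, (Polynomial.X - Polynomial.C (ι (a i k))))
    (hP : (wval (sword x y A)).charpoly = ∏ k, (Polynomial.X - Polynomial.C (ι (c k)))) :
    eval (scoord x y A) F = 0 := by
  by_cases hgm : 1 ≤ g ∨ 2 ≤ m
  · exact density_int hr hgm ι hι v hv a c F hF x y A hx hy hA hP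
  have hg : g = 0 := by omega
  subst hg
  obtain rfl | rfl : m = 0 ∨ m = 1 := by omega
  · -- the trivial group
    have e1 : (fun z => ι (scoord (r := r) (R := O) (fun j : Fin 0 => j.elim0) (fun j => j.elim0)
        (fun j : Fin 0 => j.elim0) z)) = scoord x y A := by
      funext z
      rcases z with ⟨i | i | i, w⟩ <;> exact i.elim0
    rw [← e1]
    apply hF
    · intro j; exact j.elim0
    · intro j; exact j.elim0
    · intro j; exact j.elim0
    · apply Polynomial.map_injective ι hι
      rw [← charpoly_map, Polynomial.map_prod]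
      have e2 : (wval (sword (r := r) (R := O) (fun j : Fin 0 => j.elim0) (fun j => j.elim0)
        (fun j : Fin 0 => j.elim0))).map ι = wval (sword x y A) := by
        simp [sword, wval]
      rw [e2, hP]
      simp
  · -- one matrix
    have hword : ∀ {R : Type} [CommRing R] (x y : Fin 0 → Mat r R) (A : Fin 1 → Mat r R),
        wval (sword x y A) = A 0 := by
      intro R _ x y A
      simp [sword, wval, Letter.val]
    set F' : MvPolynomial (Fin r × Fin r) Ω :=
      aeval (fun z : (Fin 0 ⊕ Fin 0 ⊕ Fin 1) × Fin r × Fin r => X z.2) F with hF'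
    have hev : ∀ (x y : Fin 0 → Mat r Ω) (A : Fin 1 → Mat r Ω),
        eval (fun z => A 0 z.1 z.2) F' = eval (scoord x y A) F := by
      intro x y A
      rw [hF', map_aeval]
      have h5 : (eval fun z : Fin r × Fin r => A 0 z.1 z.2).comp
          (algebraMap Ω (MvPolynomial (Fin r × Fin r) Ω)) = RingHom.id Ω := by
        ext x; simp
      rw [h5]
      change eval₂ _ _ F = eval₂ _ _ F
      congr 1
      funext z
      rcases z with ⟨i | i | i, w⟩
      · exact i.elim0
      · exact i.elim0
      · rw [eval_X, Fin.fin_one_eq_zero i]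
        rfl
    rw [← hev]
    have hinf : (ι.range : Set Ω).Infinite := by
      have hinj : Function.Injective fun n : ℤ => ι ((v ^ n : Oˣ) : O) := by
        intro n n' hnn
        have h1 : v ^ n = v ^ n' := Units.ext (hι hnn)
        have h2 : v ^ (n - n') = 1 := by rw [_root_.zpow_sub, h1, mul_inv_cancel]
        have := hv _ h2
        omega
      refine (Set.infinite_range_of_injective hinj).mono ?_
      rintro _ ⟨n, rfl⟩
      exact ⟨_, rfl⟩
    have hac : ∏ k, (Polynomial.X - Polynomial.C (a 0 k : O)) =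
        ∏ k, (Polynomial.X - Polynomial.C (c k : O)) := by
      apply prod_map_inj ι hι
      rw [← hA 0, ← hP, hword]
    refine class_density ι hι hinf (∏ k, (Polynomial.X - Polynomial.C (a 0 k : O)))
      (Polynomial.monic_prod_of_monic _ _ fun k _ => Polynomial.monic_X_sub_C _) ?_ F' ?_ (A 0) ?_
    · have : Nontrivial O := by
        refine ⟨⟨0, 1, fun h => ?_⟩⟩
        have := congrArg ι h
        rw [map_zero, map_one] at this
        exact zero_ne_one this
      rw [Polynomial.natDegree_prod_of_monic _ _ fun k _ => Polynomial.monic_X_sub_C _]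
      simp
    · intro B hB
      have h1 := hF (fun j => j.elim0) (fun j => j.elim0) (fun _ => B) (fun j => j.elim0)
        (fun j => j.elim0) (fun i => by rw [Fin.fin_one_eq_zero i]; exact hB)
        (by rw [hword, hB, hac])
      have h2 := hev (fun j => j.elim0) (fun j => j.elim0) (fun _ => B.map ι)
      rw [show (fun z : Fin r × Fin r => ι (B z.1 z.2)) =
        fun z => (fun _ : Fin 1 => B.map ι) 0 z.1 z.2 from rfl, h2, ← h1]
      congr 2
      funext z
      rcases z with ⟨i | i | i, w⟩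
      · exact i.elim0
      · exact i.elim0
      · rfl
    · rw [hA 0, Polynomial.map_prod]
      simp

/-- Density, `SL` version. -/
theorem dense_core [IsAlgClosed Ω] {g n : ℕ} (hr : 3 ≤ r) (hn : 1 ≤ n) (ι : O →+* Ω)
    (hι : Function.Injective ι) (v : Oˣ) (hv : ∀ n : ℤ, v ^ n = 1 → n = 0)
    (a : Fin n → Fin r → Oˣ)
    (F : MvPolynomial ((Fin g ⊕ Fin g ⊕ Fin n) × Fin r × Fin r) Ω)
    (hF : ∀ (x y : Fin g → Mat r O) (A : Fin n → Mat r O), (∀ j, (x j).det = 1) →
      (∀ j, (y j).det = 1) →
      (∀ i, (A i).charpoly = ∏ k, (Polynomial.X - Polynomial.C (a i k : O))) →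
      wval (sword x y A) = 1 → eval (fun z => ι (scoord x y A z)) F = 0)
    (x y : Fin g → Mat r Ω) (A : Fin n → Mat r Ω) (hx : ∀ j, (x j).det = 1)
    (hy : ∀ j, (y j).det = 1)
    (hA : ∀ i, (A i).charpoly = ∏ k, (Polynomial.X - Polynomial.C (ι (a i k))))
    (hP : wval (sword x y A) = 1) : eval (scoord x y A) F = 0 := by
  obtain ⟨m, rfl⟩ : ∃ m, n = m + 1 := ⟨n - 1, by omega⟩
  set c : Oˣ := ∏ k, a (Fin.last m) k with hc
  obtain ⟨G, hG⟩ := exists_poly_last (ι c) F
  -- the last matrix, over a ring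
  have key : ∀ {S : Type} [CommRing S] (x y : Fin g → Mat r S) (A : Fin m → Mat r S)
      (b : Fin r → Sˣ), (wval (sword x y A)).charpoly =
        ∏ k, (Polynomial.X - Polynomial.C (((b k)⁻¹ : Sˣ) : S)) →
      wval (sword x y A) * ((∏ k, b k : Sˣ) : S) • (wval (sword x y A)).adjugate = 1 := by
    intro S _ x y A b h
    rw [Matrix.mul_smul, mul_adjugate, det_of_charpoly _ h, smul_smul, Units.coe_prod,
      ← Finset.prod_mul_distrib]
    simp
  -- the decomposition
  set A₀ : Fin m → Mat r Ω := fun i => A i.castSucc with hA₀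
  have hAs : A = Fin.snoc A₀ (A (Fin.last m)) := by
    funext i
    refine Fin.lastCases ?_ (fun i => ?_) i
    · rw [Fin.snoc_last]
    · rw [Fin.snoc_castSucc]
  have hP' : wval (sword x y A₀) * A (Fin.last m) = 1 := by
    rw [← wval_snoc, ← hAs]
    exact hP
  have hcp : (wval (sword x y A₀)).charpoly =
      ∏ k, (Polynomial.X - Polynomial.C (ι (((a (Fin.last m) k)⁻¹ : Oˣ) : O))) :=
    inv_charpoly hP' (fun k => Units.map (ι : O →* Ω) (a (Fin.last m) k)) (hA (Fin.last m))
  have hlast : A = lastM (ι c) x y A₀ := by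
    rw [hAs, lastM]
    congr 1
    have h1 := key x y A₀ (fun k => Units.map (ι : O →* Ω) (a (Fin.last m) k)) hcp
    have h2 : ((∏ k, Units.map (ι : O →* Ω) (a (Fin.last m) k) : Ωˣ) : Ω) = ι c := by
      rw [← map_prod]
      rfl
    rw [h2] at h1
    have h3 : wval (sword x y A₀) * A (Fin.last m) =
        wval (sword x y A₀) * ι c • (wval (sword x y A₀)).adjugate := by rw [h1, hP']
    have h4 : A (Fin.last m) * wval (sword x y A₀) = 1 := mul_eq_one_comm.1 hP'
    have h5 := congrArg (fun M => A (Fin.last m) * M) h3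
    simp only [← mul_assoc, h4, one_mul] at h5
    exact h5
  rw [hlast, ← hG]
  refine density_int' hr ι hι v hv (fun i => a i.castSucc) (fun k => (a (Fin.last m) k)⁻¹) G ?_
    x y A₀ hx hy (fun i => hA i.castSucc) hcp
  intro x' y' A' hx' hy' hA' hc'
  have h1 : (fun z => ι (scoord x' y' A' z)) = scoord (fun j => (x' j).map ι)
      (fun j => (y' j).map ι) (fun i => (A' i).map ι) := by
    funext z
    exact scoord_map ι x' y' A' z
  rw [h1, hG]
  have h2 : lastM (ι c) (fun j => (x' j).map ι) (fun j => (y' j).map ι)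
      (fun i => (A' i).map ι) = fun i => (lastM (c : O) x' y' A' i).map ι := by
    funext i
    rw [lastM_map]
  rw [h2]
  have h3 : (fun z => ι (scoord x' y' (lastM (c : O) x' y' A') z)) = scoord
      (fun j => (x' j).map ι) (fun j => (y' j).map ι)
      (fun i => (lastM (c : O) x' y' A' i).map ι) := by
    funext z
    exact scoord_map ι x' y' _ z
  rw [← h3]
  have h4 := key x' y' A' (a (Fin.last m)) hc'
  refine hF x' y' (lastM (c : O) x' y' A') hx' hy' ?_ ?_
  · intro i
    refine Fin.lastCases ?_ (fun i => ?_) i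
    · rw [lastM, Fin.snoc_last]
      have h5 := inv_charpoly (mul_eq_one_comm.1 h4) (fun k => (a (Fin.last m) k)⁻¹) hc'
      rw [hc]
      simpa using h5
    · rw [lastM, Fin.snoc_castSucc]
      exact hA' i
  · rw [lastM, wval_snoc]
    exact h4

/-- Density, `GL` version. -/
theorem dense_core_GL [IsAlgClosed Ω] {g n : ℕ} (hr : 3 ≤ r) (hn : 1 ≤ n) (ι : O →+* Ω)
    (hι : Function.Injective ι) (v : Oˣ) (hv : ∀ n : ℤ, v ^ n = 1 → n = 0)
    (a : Fin n → Fin r → Oˣ)
    (F : MvPolynomial ((Fin g ⊕ Fin g ⊕ Fin n) × Fin r × Fin r) Ω)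
    (hF : ∀ (μ ν : Fin g → Oˣ) (x y : Fin g → Mat r O) (A : Fin n → Mat r O),
      (∀ j, (x j).det = 1) → (∀ j, (y j).det = 1) →
      (∀ i, (A i).charpoly = ∏ k, (Polynomial.X - Polynomial.C (a i k : O))) →
      wval (sword x y A) = 1 →
      eval (fun z => ι (scoord (fun j => (μ j : O) • x j) (fun j => (ν j : O) • y j) A z)) F = 0)
    (μ ν : Fin g → Ω)
    (x y : Fin g → Mat r Ω) (A : Fin n → Mat r Ω) (hx : ∀ j, (x j).det = 1)
    (hy : ∀ j, (y j).det = 1)
    (hA : ∀ i, (A i).charpoly = ∏ k, (Polynomial.X - Polynomial.C (ι (a i k))))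
    (hP : wval (sword x y A) = 1) :
    eval (scoord (fun j => μ j • x j) (fun j => ν j • y j) A) F = 0 := by
  classical
  -- the scaling factors
  let sc : ∀ {S : Type} [CommRing S], (Fin g → S) → (Fin g → S) → (Fin g ⊕ Fin g ⊕ Fin n) → S :=
    fun μ ν => Sum.elim μ (Sum.elim ν fun _ => 1)
  have hsc : ∀ {S : Type} [CommRing S] (μ ν : Fin g → S) (x y : Fin g → Mat r S)
      (A : Fin n → Mat r S), scoord (fun j => μ j • x j) (fun j => ν j • y j) A =
        fun z => sc μ ν z.1 * scoord x y A z := by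
    intro S _ μ ν x y A
    funext z
    rcases z with ⟨i | i | i, w⟩
    · rfl
    · rfl
    · exact (one_mul _).symm
  -- units
  have step : ∀ (μ ν : Fin g → Oˣ) (x y : Fin g → Mat r Ω) (A : Fin n → Mat r Ω),
      (∀ j, (x j).det = 1) → (∀ j, (y j).det = 1) →
      (∀ i, (A i).charpoly = ∏ k, (Polynomial.X - Polynomial.C (ι (a i k)))) →
      wval (sword x y A) = 1 →
      eval (scoord (fun j => ι (μ j) • x j) (fun j => ι (ν j) • y j) A) F = 0 := by
    intro μ ν x y A hx hy hA hP
    set G : MvPolynomial ((Fin g ⊕ Fin g ⊕ Fin n) × Fin r × Fin r) Ω :=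
      aeval (fun z => C (sc (fun j => ι (μ j)) (fun j => ι (ν j)) z.1) * X z) F with hG
    have hGe : ∀ (x y : Fin g → Mat r Ω) (A : Fin n → Mat r Ω), eval (scoord x y A) G =
        eval (scoord (fun j => ι (μ j) • x j) (fun j => ι (ν j) • y j) A) F := by
      intro x y A
      rw [hG, map_aeval]
      have h5 : (eval (scoord x y A)).comp
          (algebraMap Ω (MvPolynomial ((Fin g ⊕ Fin g ⊕ Fin n) × Fin r × Fin r) Ω)) =
          RingHom.id Ω := by
        ext x; simp
      rw [h5]
      change eval₂ _ _ F = eval₂ _ _ F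
      congr 1
      funext z
      rw [hsc, map_mul, eval_C, eval_X]
    rw [← hGe]
    refine dense_core hr hn ι hι v hv a G ?_ x y A hx hy hA hP
    intro x' y' A' hx' hy' hA' hP'
    have h1 : (fun z => ι (scoord x' y' A' z)) = scoord (fun j => (x' j).map ι)
        (fun j => (y' j).map ι) (fun i => (A' i).map ι) := by
      funext z
      exact scoord_map ι x' y' A' z
    rw [h1, hGe]
    have h2 := hF μ ν x' y' A' hx' hy' hA' hP'
    rw [← h2]
    congr 2
    funext z
    rw [scoord_map ι]
    simp only [smul_map]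
  -- the polynomial in the scaling factors
  set H : MvPolynomial (Fin g ⊕ Fin g) Ω :=
    aeval (fun z : (Fin g ⊕ Fin g ⊕ Fin n) × Fin r × Fin r =>
      (Sum.elim (fun j => X (Sum.inl j)) (Sum.elim (fun j => X (Sum.inr j)) fun _ => 1) z.1 :
        MvPolynomial (Fin g ⊕ Fin g) Ω) * C (scoord x y A z)) F with hH
  have hHe : ∀ μ ν : Fin g → Ω, eval (Sum.elim μ ν) H =
      eval (scoord (fun j => μ j • x j) (fun j => ν j • y j) A) F := by
    intro μ ν
    rw [hH, map_aeval]
    have h5 : (eval (Sum.elim μ ν)).comp (algebraMap Ω (MvPolynomial (Fin g ⊕ Fin g) Ω)) =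
        RingHom.id Ω := by
      ext x; simp
    rw [h5]
    change eval₂ _ _ F = eval₂ _ _ F
    congr 1
    funext z
    rw [hsc, map_mul, eval_C]
    rcases z with ⟨i | i | i, w⟩
    · simp [sc]
    · simp [sc]
    · simp [sc]
  have hinf : (Set.range fun w : Oˣ => ι w).Infinite := by
    have hinj : Function.Injective fun n : ℤ => ι ((v ^ n : Oˣ) : O) := by
      intro n n' hnn
      have h1 : v ^ n = v ^ n' := Units.ext (hι hnn)
      have h2 : v ^ (n - n') = 1 := by rw [_root_.zpow_sub, h1, mul_inv_cancel]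
      have := hv _ h2
      omega
    refine (Set.infinite_range_of_injective hinj).mono ?_
    rintro _ ⟨n, rfl⟩
    exact ⟨_, rfl⟩
  have hH0 : H = 0 := by
    refine MvPolynomial.funext_set (fun _ => Set.range fun w : Oˣ => ι w) (fun _ => hinf) ?_
    intro w hw
    rw [map_zero]
    have hw' : ∀ i, ∃ u : Oˣ, ι u = w i := fun i => hw i (Set.mem_univ i)
    choose u hu using hw'
    have h1 : w = Sum.elim (fun j => ι (u (Sum.inl j))) (fun j => ι (u (Sum.inr j))) := by
      funext i
      rcases i with i | i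
      · exact (hu _).symm
      · exact (hu _).symm
    rw [h1, hHe]
    exact step _ _ x y A hx hy hA hP
  rw [← hHe, hH0, map_zero]

end

end Pool.Agent.MP_3f0e22_ag.Asm
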