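import Pool.Agent.MP_3f0e22_ag.Acl

/-!
# MP_3f0e22_ag: block NT
-/

set_option autoImplicit false

namespace Pool.Agent.MP_3f0e22_ag

open Polynomial

theorem nt_exists_unit {L : Type} [Field L] [NumberField L] (θ : L) (hθ : θ ^ 2 = 2) :
    ∃ v : (NumberField.RingOfIntegers L)ˣ, ∀ n : ℤ, v ^ n = 1 → n = 0 := by
  have hint : IsIntegral ℤ θ := by
    refine ⟨X ^ 2 - C 2, monic_X_pow_sub_C 2 (by norm_num), ?_⟩
    simp [hθ]
  let t : NumberField.RingOfIntegers L := ⟨θ, hint⟩
  have ht : t * t = 2 := by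
    apply NumberField.RingOfIntegers.coe_injective
    have : algebraMap (NumberField.RingOfIntegers L) L t = θ := rfl
    rw [map_mul, this, ← pow_two, hθ, map_ofNat]
  have h1 : (1 + t) * (t - 1) = 1 := by
    have : (1 + t) * (t - 1) = t * t - 1 := by ring
    rw [this, ht]; norm_num
  have h2 : (t - 1) * (1 + t) = 1 := by rw [mul_comm]; exact h1
  refine ⟨⟨1 + t, t - 1, h1, h2⟩, ?_⟩
  intro n hn
  obtain ⟨φ⟩ : Nonempty (L →+* ℂ) := inferInstance
  set v : (NumberField.RingOfIntegers L)ˣ := ⟨1 + t, t - 1, h1, h2⟩ with hv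
  -- pass to `ℂ`
  have h3 : (φ (1 + θ)) ^ n = 1 := by
    have h4 : Units.map ((algebraMap (NumberField.RingOfIntegers L) L : _ →+* _) :
        (NumberField.RingOfIntegers L) →* L) v ^ n = 1 := by
      rw [← map_zpow, hn, map_one]
    have h5 := congrArg (fun u : Lˣ => (u : L)) h4
    have htt : algebraMap (NumberField.RingOfIntegers L) L t = θ := rfl
    have h6 : (1 + θ) ^ n = 1 := by
      have h7 : algebraMap (NumberField.RingOfIntegers L) L (1 + t) ^ n = 1 := by
        simpa [hv] using h5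
      rw [map_add, map_one, htt] at h7
      exact h7
    rw [← map_zpow₀, h6, map_one]
  have hφ : (φ θ) ^ 2 = 2 := by rw [← map_pow, hθ, map_ofNat]
  have hs : ((Real.sqrt 2 : ℝ) : ℂ) ^ 2 = 2 := by
    rw [← Complex.ofReal_pow, Real.sq_sqrt (by norm_num)]; norm_num
  have hcase : φ θ = ((Real.sqrt 2 : ℝ) : ℂ) ∨ φ θ = -((Real.sqrt 2 : ℝ) : ℂ) := by
    rw [← sq_eq_sq_iff_eq_or_eq_neg, hφ, hs]
  have hsq : (1 : ℝ) < Real.sqrt 2 := by
    rw [show (1 : ℝ) = Real.sqrt 1 by simp]
    exact Real.sqrt_lt_sqrt (by norm_num) (by norm_num)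
  have hsq2 : Real.sqrt 2 < 2 := by
    nlinarith [Real.sq_sqrt (show (0 : ℝ) ≤ 2 by norm_num), Real.sqrt_nonneg 2]
  have h7 : ‖φ (1 + θ)‖ ^ n = 1 := by
    rw [← norm_zpow, h3, norm_one]
  have h8 : 0 < ‖φ (1 + θ)‖ ∧ ‖φ (1 + θ)‖ ≠ 1 := by
    rcases hcase with h | h
    · have : φ (1 + θ) = ((1 + Real.sqrt 2 : ℝ) : ℂ) := by rw [map_add, map_one, h]; push_cast; ring
      rw [this, Complex.norm_real, Real.norm_eq_abs, abs_of_pos (by linarith)]
      constructor <;> [linarith; (intro h; linarith)]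
    · have : φ (1 + θ) = ((1 - Real.sqrt 2 : ℝ) : ℂ) := by rw [map_add, map_one, h]; push_cast; ring
      rw [this, Complex.norm_real, Real.norm_eq_abs, abs_of_neg (by linarith)]
      constructor
      · linarith
      · intro h; linarith
  have h9 := zpow_right_injective₀ h8.1 h8.2
  apply h9
  simp only [zpow_zero]
  exact h7

theorem exists_L {K : Type} [Field K] [NumberField K] (P : Polynomial K) (hP : P ≠ 0) :
    ∃ (L : Type) (_ : Field L) (_ : NumberField L) (_ : Algebra K L),
      (P.map (algebraMap K L)).Splits ∧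
        ∃ v : (NumberField.RingOfIntegers L)ˣ, ∀ n : ℤ, v ^ n = 1 → n = 0 := by
  set R : Polynomial K := P * (X ^ 2 - C 2) with hR
  have hQ : (X ^ 2 - C 2 : Polynomial K) ≠ 0 := X_pow_sub_C_ne_zero (by norm_num) _
  have hR0 : R ≠ 0 := mul_ne_zero hP hQ
  have hsp := SplittingField.splits R
  let : NumberField R.SplittingField :=
    { to_charZero := charZero_of_injective_algebraMap
        (algebraMap K R.SplittingField).injective
      to_finiteDimensional := by
        let := charZero_of_injective_algebraMap (algebraMap K R.SplittingField).injective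
        exact Module.Finite.trans (R := ℚ) K R.SplittingField }
  have hmap : (R.map (algebraMap K R.SplittingField)) =
      P.map (algebraMap K R.SplittingField) *
        (X ^ 2 - C 2 : Polynomial K).map (algebraMap K R.SplittingField) := by
    rw [hR, Polynomial.map_mul]
  have hne : R.map (algebraMap K R.SplittingField) ≠ 0 :=
    (Polynomial.map_ne_zero_iff (algebraMap K R.SplittingField).injective).2 hR0
  have hP' : (P.map (algebraMap K R.SplittingField)).Splits :=
    Splits.of_dvd hsp hne (by rw [hmap]; exact dvd_mul_right _ _)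
  have hQ' : ((X ^ 2 - C 2 : Polynomial K).map (algebraMap K R.SplittingField)).Splits :=
    Splits.of_dvd hsp hne (by rw [hmap]; exact dvd_mul_left _ _)
  have hdeg : ((X ^ 2 - C 2 : Polynomial K).map (algebraMap K R.SplittingField)).degree ≠ 0 := by
    rw [Polynomial.degree_map, degree_X_pow_sub_C (by norm_num)]
    norm_num
  obtain ⟨θ, hθ⟩ := Splits.exists_eval_eq_zero hQ' hdeg
  have hθ2 : θ ^ 2 = 2 := by
    simp at hθ
    exact sub_eq_zero.1 hθ
  exact ⟨R.SplittingField, inferInstance, inferInstance, inferInstance, hP', nt_exists_unit θ hθ2⟩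

end Pool.Agent.MP_3f0e22_ag

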