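import Pool.Agent.MP_3f0e22_ag.Asm5
import Pool.Agent.MP_3f0e22_ag.Nt

/-! # MP_3f0e22_ag, version 2: assembly, part 6: groups and number fields -/

set_option autoImplicit false

open Matrix NumberField

namespace Pool.Agent.MP_3f0e22_ag.Asm

section

variable {R : Type} [CommRing R] {r : ℕ}

/-- The inclusion of `SL_r(R)` in the ring of matrices. -/
def slM (R : Type) [CommRing R] (r : ℕ) : SpecialLinearGroup (Fin r) R →* Mat r R where
  toFun A := A.1
  map_one' := rfl
  map_mul' _ _ := rfl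

theorem slM_inv (A : SpecialLinearGroup (Fin r) R) : slM R r A⁻¹ = (slM R r A).adjugate :=
  Matrix.SpecialLinearGroup.coe_inv A

/-- The word of a tuple of elements of `SL_r(R)`. -/
theorem SL_wval {g n : ℕ} (x y : Fin g → SpecialLinearGroup (Fin r) R)
    (A : Fin n → SpecialLinearGroup (Fin r) R) :
    wval (sword (fun j => slM R r (x j)) (fun j => slM R r (y j)) fun i => slM R r (A i)) =
      slM R r ((List.ofFn fun j => x j * y j * (x j)⁻¹ * (y j)⁻¹).prod * (List.ofFn A).prod) := by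
  rw [map_mul, map_list_prod, map_list_prod, wval, sword, List.map_append, List.prod_append,
    List.map_ofFn, List.map_ofFn, List.map_ofFn, List.map_ofFn]
  have h : (Letter.val ∘ fun j : Fin g => Letter.hd (slM R r (x j)) (slM R r (y j))) =
      (slM R r) ∘ fun j => x j * y j * (x j)⁻¹ * (y j)⁻¹ := by
    funext j
    simp only [Function.comp, Letter.val, map_mul, slM_inv]
  rw [h]
  rfl

/-- The word of a tuple of elements of `GL_r(R)`. -/
theorem GL_wval {g n : ℕ} (x y : Fin g → GL (Fin r) R) (A : Fin n → GL (Fin r) R)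
    (μ ν : Fin g → Rˣ) (x' y' : Fin g → Mat r R) (hx : ∀ j, (x j : Mat r R) = (μ j : R) • x' j)
    (hy : ∀ j, (y j : Mat r R) = (ν j : R) • y' j) (hx' : ∀ j, (x' j).det = 1)
    (hy' : ∀ j, (y' j).det = 1) :
    wval (sword x' y' fun i => (A i : Mat r R)) =
      (((List.ofFn fun j => x j * y j * (x j)⁻¹ * (y j)⁻¹).prod * (List.ofFn A).prod : GL (Fin r) R) : Mat r R) := by
  have hinv : ∀ (z : GL (Fin r) R) (u : Rˣ) (z' : Mat r R), (z : Mat r R) = (u : R) • z' →
      z'.det = 1 → ((z⁻¹ : GL (Fin r) R) : Mat r R) = ((u⁻¹ : Rˣ) : R) • z'.adjugate := by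
    intro z u z' h1 h2
    rw [GeneralLinearGroup.coe_inv]
    apply Matrix.inv_eq_right_inv
    rw [h1, smul_mul_smul_comm, Units.mul_inv, one_smul, mul_adjugate, h2, one_smul]
  rw [Units.val_mul, wval, sword, List.map_append, List.prod_append, List.map_ofFn,
    List.map_ofFn]
  have h : ∀ l : List (GL (Fin r) R), ((l.prod : GL (Fin r) R) : Mat r R) =
      (l.map fun a : GL (Fin r) R => (a : Mat r R)).prod := by
    intro l
    induction l with
    | nil => simp
    | cons a l ih => rw [List.prod_cons, Units.val_mul, ih, List.map_cons, List.prod_cons]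
  rw [h, h, List.map_ofFn, List.map_ofFn]
  congr 1
  congr 1
  congr 1
  funext j
  simp only [Function.comp, Letter.val, Units.val_mul]
  rw [hinv (x j) (μ j) (x' j) (hx j) (hx' j), hinv (y j) (ν j) (y' j) (hy j) (hy' j), hx, hy]
  simp only [smul_mul_assoc, mul_smul_comm, smul_smul]
  have : ((ν j)⁻¹ : Rˣ) * (((μ j)⁻¹ : Rˣ) * ((ν j) * (μ j))) = 1 := by
    rw [mul_comm (ν j) (μ j), inv_mul_cancel_left, inv_mul_cancel]
  have h3 := congrArg (fun u : Rˣ => (u : R)) this
  simp only [Units.val_mul, Units.val_one] at h3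
  rw [show ((((ν j)⁻¹ : Rˣ) : R) * ((((μ j)⁻¹ : Rˣ) : R) * ((ν j : R) * (μ j : R)))) = 1 from h3,
    one_smul]

end

section

variable {K : Type} [Field K] [NumberField K] {r : ℕ}

/-- The roots are units of `𝓞 L`. -/
theorem exists_roots (L : Type) [Field L] [NumberField L] [Algebra K L]
    (χ : Polynomial (𝓞 K)) (hχ : χ.Monic) (hd : χ.natDegree = r)
    (hs : (χ.map (algebraMap (𝓞 K) L)).Splits) (hu : IsUnit ((χ.map (algebraMap (𝓞 K) (𝓞 L))).coeff 0)) :
    ∃ a : Fin r → (𝓞 L)ˣ, χ.map (algebraMap (𝓞 K) (𝓞 L)) =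
      ∏ k, (Polynomial.X - Polynomial.C (a k : 𝓞 L)) := by
  classical
  have hinj : Function.Injective (algebraMap (𝓞 L) L) := RingOfIntegers.coe_injective
  have hcomp : (algebraMap (𝓞 L) L).comp (algebraMap (𝓞 K) (𝓞 L)) = algebraMap (𝓞 K) L :=
    (IsScalarTower.algebraMap_eq (𝓞 K) (𝓞 L) L).symm
  have hm : (χ.map (algebraMap (𝓞 K) L)).Monic := hχ.map _
  have hcard : (χ.map (algebraMap (𝓞 K) L)).roots.card = r := by
    rw [← hs.natDegree_eq_card_roots, hχ.natDegree_map, hd]
  -- list the roots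
  obtain ⟨l, hl⟩ := Quot.exists_rep (χ.map (algebraMap (𝓞 K) L)).roots
  have hlen : l.length = r := by
    rw [← hcard, ← hl]; rfl
  have hint : ∀ k : Fin r, ∃ b : 𝓞 L, algebraMap (𝓞 L) L b = l.get (k.cast hlen.symm) := by
    intro k
    have h1 : l.get (k.cast hlen.symm) ∈ (χ.map (algebraMap (𝓞 K) L)).roots := by
      rw [← hl]
      exact List.get_mem _ _
    have h2 : IsIntegral (𝓞 K) (l.get (k.cast hlen.symm)) := by
      refine ⟨χ, hχ, ?_⟩
      rw [Polynomial.mem_roots hm.ne_zero, Polynomial.IsRoot, Polynomial.eval_map] at h1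
      exact h1
    have h3 : IsIntegral ℤ (l.get (k.cast hlen.symm)) := isIntegral_trans _ h2
    exact ⟨⟨_, h3⟩, rfl⟩
  choose b hb using hint
  have hprod : χ.map (algebraMap (𝓞 K) (𝓞 L)) = ∏ k, (Polynomial.X - Polynomial.C (b k)) := by
    apply Polynomial.map_injective _ hinj
    rw [Polynomial.map_map, hcomp, Polynomial.map_prod]
    simp only [Polynomial.map_sub, Polynomial.map_X, Polynomial.map_C, hb]
    rw [hs.eq_prod_roots_of_monic hm, ← hl]
    change (Multiset.map _ (l : Multiset L)).prod = _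
    rw [Multiset.map_coe, Multiset.prod_coe, ← List.prod_ofFn]
    congr 1
    apply List.ext_get
    · simp [hlen]
    · intro n h1 h2
      simp
  have hunit : ∀ k, IsUnit (b k) := by
    intro k
    rw [hprod, Polynomial.coeff_zero_eq_eval_zero, Polynomial.eval_prod] at hu
    have h1 := (IsUnit.prod_univ_iff.1 hu) k
    simpa using h1
  exact ⟨fun k => (hunit k).unit, by rw [hprod]; rfl⟩

theorem exists_inf_order (L : Type) [Field L] [NumberField L] [Infinite (𝓞 L)ˣ] :
    ∃ v : (𝓞 L)ˣ, ∀ m : ℤ, v ^ m = 1 → m = 0 := by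
  by_contra hcon
  push Not at hcon
  have h1 : ∀ v : (𝓞 L)ˣ, v ∈ Units.torsion L := by
    intro v
    obtain ⟨m, hm, hm0⟩ := hcon v
    rw [Units.torsion, CommGroup.mem_torsion, isOfFinOrder_iff_zpow_eq_one]
    exact ⟨m, hm0, hm⟩
  have h2 : Finite (𝓞 L)ˣ := by
    have h3 : (Units.torsion L) = ⊤ := eq_top_iff.2 fun v _ => h1 v
    have h4 : Finite (⊤ : Subgroup (𝓞 L)ˣ) := by rw [← h3]; infer_instance
    exact (Subgroup.topEquiv (G := (𝓞 L)ˣ)).toEquiv.finite_iff.1 h4
  exact not_finite (𝓞 L)ˣ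

end

end Pool.Agent.MP_3f0e22_ag.Asm
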