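import Pool.Agent.MP_3f0e22_ag.Defs3

/-!
# [CV3-CAP] diagonalisation over `O'`
-/

set_option autoImplicit false

open Matrix MvPolynomial NumberField

namespace Pool.Agent.MP_3f0e22_ag

namespace V3_CAP

section

variable {O K : Type*} [CommRing O] [Field K] (f : O →+* K) {r : ℕ}

theorem aeval_mulVec (A : Mat r O) {μ : O} {v : Fin r → K}
    (hv : A.map f *ᵥ v = f μ • v) (p : Polynomial O) :
    (Polynomial.aeval A p).map f *ᵥ v = f (p.eval μ) • v := by
  induction p using Polynomial.induction_on with
  | C a =>
    rw [Polynomial.aeval_C, Polynomial.eval_C]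
    have h1 : (algebraMap O (Mat r O) a).map f = f a • (1 : Matrix (Fin r) (Fin r) K) := by
      ext x y
      rw [Matrix.map_apply, Matrix.algebraMap_matrix_apply, Matrix.smul_apply, Matrix.one_apply]
      by_cases h : x = y
      · simp [h]
      · simp [h]
    rw [h1, Matrix.smul_mulVec, Matrix.one_mulVec]
  | add p q hp hq =>
    rw [map_add, Matrix.map_add _ (fun a b => map_add f a b), Matrix.add_mulVec, hp, hq,
      Polynomial.eval_add, map_add, add_smul]
  | monomial n a h =>
    rw [pow_succ, ← mul_assoc, map_mul, Polynomial.aeval_X, Matrix.map_mul, ← Matrix.mulVec_mulVec,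
      hv, Matrix.mulVec_smul, h, Polynomial.eval_mul (p := Polynomial.C a * Polynomial.X ^ n),
      Polynomial.eval_X, map_mul, smul_smul, mul_comm]

end

/-- the data over the fraction field -/
theorem exists_eigen {O : Type} [CommRing O] [IsDomain O] {r : ℕ} (t : Fin r → Oˣ)
    (ht : ∀ k l, k ≠ l → IsUnit ((t k : O) - (t l : O))) (A : Mat r O)
    (hA : A.charpoly = ∏ k, (Polynomial.X - Polynomial.C (t k : O))) :
    ∃ P Q : Matrix (Fin r) (Fin r) (FractionRing O), P * Q = 1 ∧ Q * P = 1 ∧
      ∀ k, A.map (algebraMap O (FractionRing O)) *ᵥ (fun a => P a k) =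
        algebraMap O (FractionRing O) (t k) • fun a => P a k := by
  set K := FractionRing O
  set f : O →+* K := algebraMap O K with hf
  have hfinj : Function.Injective f := IsFractionRing.injective O K
  have hex : ∀ k, ∃ v : Fin r → K, v ≠ 0 ∧ A.map f *ᵥ v = f (t k) • v := by
    intro k
    have h1 : (Matrix.scalar (Fin r) (t k : O) - A).det = 0 := by
      rw [← Matrix.eval_charpoly, hA, Polynomial.eval_prod]
      exact Finset.prod_eq_zero (Finset.mem_univ k) (by simp)
    have h2 : ((Matrix.scalar (Fin r) (t k : O) - A).map f).det = 0 := by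
      have := RingHom.map_det f (Matrix.scalar (Fin r) (t k : O) - A)
      rw [h1, map_zero] at this
      exact this.symm
    obtain ⟨v, hv0, hv⟩ := Matrix.exists_mulVec_eq_zero_iff.2 h2
    refine ⟨v, hv0, ?_⟩
    rw [Matrix.map_sub _ (fun a b => map_sub f a b), Matrix.sub_mulVec, sub_eq_zero] at hv
    rw [← hv]
    have h3 : (Matrix.scalar (Fin r) (t k : O)).map f = f (t k) • (1 : Matrix (Fin r) (Fin r) K) := by
      ext x y
      rw [Matrix.map_apply, Matrix.scalar_apply, Matrix.smul_apply, Matrix.one_apply,
        Matrix.diagonal_apply]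
      by_cases h : x = y
      · simp [h]
      · simp [h]
    rw [h3, Matrix.smul_mulVec, Matrix.one_mulVec]
  choose v hv0 hv using hex
  have hμ : Function.Injective fun k => f (t k : O) := by
    intro k l hkl
    by_contra h
    have h1 := hfinj hkl
    have h2 := ht k l h
    rw [h1, sub_self] at h2
    exact not_isUnit_zero h2
  have hli : LinearIndependent K v := by
    refine Module.End.eigenvectors_linearIndependent' (Matrix.toLin' (A.map f))
      (fun k => f (t k : O)) hμ v fun k => ?_
    rw [Module.End.hasEigenvector_iff, Module.End.mem_eigenspace_iff]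
    exact ⟨by rw [Matrix.toLin'_apply]; exact hv k, hv0 k⟩
  let P : Matrix (Fin r) (Fin r) K := Matrix.of fun a k => v k a
  have hPcol : P.col = v := by
    funext k a
    rfl
  have hPu : IsUnit P := by
    rw [← Matrix.linearIndependent_cols_iff_isUnit, hPcol]
    exact hli
  obtain ⟨u, hu⟩ := hPu
  refine ⟨P, (u⁻¹ : (Matrix (Fin r) (Fin r) K)ˣ), ?_, ?_, fun k => ?_⟩
  · rw [← hu]
    exact u.mul_inv
  · rw [← hu]
    exact u.inv_mul
  · exact hv k

theorem cap_aux {O O' K : Type} [CommRing O] [IsDomain O] [CommRing O'] [IsDomain O'] [Field K]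
    (i : O →+* O') (hi : Function.Injective i)
    (hcap : ∀ I : Ideal O, I.FG → ∃ α : O', I.map i = Ideal.span {α}) {r : ℕ} (t : Fin r → Oˣ)
    (ht : ∀ k l, k ≠ l → IsUnit ((t k : O) - (t l : O))) (A : Mat r O) (f : O →+* K)
    (hfinj : Function.Injective f) (P Q : Matrix (Fin r) (Fin r) K) (hPQ : P * Q = 1)
    (hQP : Q * P = 1) (hP : ∀ k, A.map f *ᵥ (fun a => P a k) = f (t k) • fun a => P a k) :
    ∃ k k' : Mat r O', k * k' = 1 ∧ A.map i * k = k * diagonal (fun j => i (t j : O)) := by
  classical
  -- matrices over `O` are determined by their action on the columns of `P`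
  have hext : ∀ M M' : Mat r O, (∀ l, M.map f *ᵥ (fun a => P a l) = M'.map f *ᵥ (fun a => P a l)) →
      M = M' := by
    intro M M' h
    have h1 : M.map f * P = M'.map f * P := by
      ext a l
      exact congrFun (h l) a
    have h2 : M.map f = M'.map f := by
      have h3 := congrArg (fun X : Matrix (Fin r) (Fin r) K => X * Q) h1
      simpa only [Matrix.mul_assoc, hPQ, Matrix.mul_one] using h3
    ext a b
    exact hfinj (congrFun (congrFun h2 a) b)
  -- the idempotents
  have hw : ∀ k l, ∃ w : O, k ≠ l → w * ((t k : O) - (t l : O)) = 1 := by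
    intro k l
    by_cases h : k = l
    · exact ⟨0, fun h' => absurd h h'⟩
    · obtain ⟨w, hw⟩ := (ht k l h).exists_left_inv
      exact ⟨w, fun _ => hw⟩
  choose w hw using hw
  let e : Fin r → Polynomial O := fun k =>
    ∏ j ∈ Finset.univ.erase k, (Polynomial.C (w k j) * (Polynomial.X - Polynomial.C (t j : O)))
  have he1 : ∀ k, (e k).eval (t k : O) = 1 := by
    intro k
    show (Polynomial.eval _ (∏ j ∈ _, _)) = _
    rw [Polynomial.eval_prod]
    refine Finset.prod_eq_one fun j hj => ?_
    rw [Finset.mem_erase] at hj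
    simp only [Polynomial.eval_mul, Polynomial.eval_C, Polynomial.eval_sub, Polynomial.eval_X]
    exact hw k j (Ne.symm hj.1)
  have he2 : ∀ k l, k ≠ l → (e k).eval (t l : O) = 0 := by
    intro k l h
    show (Polynomial.eval _ (∏ j ∈ _, _)) = _
    rw [Polynomial.eval_prod]
    exact Finset.prod_eq_zero (Finset.mem_erase.2 ⟨Ne.symm h, Finset.mem_univ l⟩) (by simp)
  let E : Fin r → Mat r O := fun k => Polynomial.aeval A (e k)
  have hE : ∀ k l, (E k).map f *ᵥ (fun a => P a l) =
      (if k = l then (1 : K) else 0) • fun a => P a l := by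
    intro k l
    rw [aeval_mulVec f A (hP l) (e k)]
    by_cases h : k = l
    · subst h
      rw [he1, map_one, if_pos rfl]
    · rw [he2 k l h, map_zero, if_neg h]
  -- the sum
  have hsum : ∑ k, E k = 1 := by
    refine hext _ _ fun l => ?_
    have h1 : (∑ k, E k).map f = ∑ k, (E k).map f := by
      ext a b
      simp only [Matrix.map_apply, Matrix.sum_apply, map_sum]
    rw [h1, Matrix.sum_mulVec]
    simp only [hE]
    rw [Matrix.map_one f (map_zero f) (map_one f), Matrix.one_mulVec]
    simp [ite_smul]
  -- eigenvectors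
  have hAE : ∀ k, A * E k = (t k : O) • E k := by
    intro k
    refine hext _ _ fun l => ?_
    have h2 : ((t k : O) • E k).map f = f (t k) • (E k).map f := by
      ext a b
      simp only [Matrix.map_apply, Matrix.smul_apply, smul_eq_mul, map_mul]
    rw [Matrix.map_mul, ← Matrix.mulVec_mulVec, h2, Matrix.smul_mulVec, hE, Matrix.mulVec_smul, hP]
    by_cases h : k = l
    · subst h
      rw [if_pos rfl, one_smul, one_smul]
    · rw [if_neg h, zero_smul, zero_smul, smul_zero]
  -- rank one
  have hEv : ∀ k a b, f (E k a b) = P a k * Q k b := by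
    intro k a b
    have h1 : (E k).map f = (E k).map f * P * Q := by rw [Matrix.mul_assoc, hPQ, Matrix.mul_one]
    have h2 : f (E k a b) = ((E k).map f * P * Q) a b := congrFun (congrFun h1 a) b
    rw [h2, Matrix.mul_apply]
    have h3 : ∀ l, ((E k).map f * P) a l = (if k = l then (1 : K) else 0) * P a l := fun l =>
      congrFun (hE k l) a
    simp only [h3]
    simp
  have hminor : ∀ k a a' b b', E k a b * E k a' b' = E k a' b * E k a b' := by
    intro k a a' b b'
    apply hfinj
    rw [map_mul, map_mul, hEv, hEv, hEv, hEv]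
    ring
  have hne : ∀ k, ∃ a b, E k a b ≠ 0 := by
    intro k
    by_contra hcon
    push Not at hcon
    have h0 : E k = 0 := by
      ext a b
      exact hcon a b
    have h1 := hE k k
    rw [h0, if_pos rfl, one_smul, Matrix.map_zero f (map_zero f), Matrix.zero_mulVec] at h1
    have h2 : (Q * P) k k = 0 := by
      rw [Matrix.mul_apply]
      refine Finset.sum_eq_zero fun a _ => ?_
      have : P a k = 0 := (congrFun h1 a).symm
      rw [this, mul_zero]
    rw [hQP, Matrix.one_apply_eq] at h2
    exact one_ne_zero h2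
  -- the factorisation over `O'`
  have hfac : ∀ k, ∃ (x φ : Fin r → O'), (∀ a b, i (E k a b) = x a * φ b) ∧
      A.map i *ᵥ x = i (t k) • x := by
    intro k
    obtain ⟨a₀, b₀, h0⟩ := hne k
    let u : Fin r → O := fun a => E k a b₀
    obtain ⟨α, hα⟩ := hcap (Ideal.span (Set.range u)) ⟨Finset.univ.image u, by simp⟩
    rw [Ideal.map_span] at hα
    have h1 : ∀ a, i (u a) ∈ Ideal.span {α} := by
      intro a
      rw [← hα]
      exact Ideal.subset_span ⟨u a, ⟨a, rfl⟩, rfl⟩
    have h2 : α ∈ Ideal.span (Set.range fun a => i (u a)) := by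
      have h3 : α ∈ Ideal.span {α} := Ideal.mem_span_singleton_self α
      rw [← hα, ← Set.range_comp] at h3
      exact h3
    have hα0 : α ≠ 0 := by
      rintro rfl
      have h3 := h1 a₀
      rw [Ideal.mem_span_singleton', ] at h3
      obtain ⟨c, hc⟩ := h3
      rw [mul_zero] at hc
      exact h0 (hi (by rw [map_zero]; exact hc.symm))
    choose x hx using fun a => Ideal.mem_span_singleton'.1 (h1 a)
    obtain ⟨c, hc⟩ := Ideal.mem_span_range_iff_exists_fun.1 h2
    have hcx : ∑ a, c a * x a = 1 := by
      apply mul_right_cancel₀ hα0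
      rw [Finset.sum_mul, one_mul]
      conv_rhs => rw [← hc]
      refine Finset.sum_congr rfl fun a _ => ?_
      rw [← hx a]
      ring
    have hcross : ∀ a a' b, i (E k a b) * x a' = i (E k a' b) * x a := by
      intro a a' b
      apply mul_right_cancel₀ hα0
      rw [mul_assoc, mul_assoc, hx, hx, ← map_mul, ← map_mul]
      congr 1
      exact hminor k a a' b b₀
    refine ⟨x, fun b => ∑ a', c a' * i (E k a' b), ?_, ?_⟩
    · intro a b
      calc i (E k a b) = i (E k a b) * ∑ a', c a' * x a' := by rw [hcx, mul_one]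
        _ = ∑ a', c a' * (i (E k a b) * x a') := by
            rw [Finset.mul_sum]
            exact Finset.sum_congr rfl fun a' _ => by ring
        _ = ∑ a', c a' * (i (E k a' b) * x a) :=
            Finset.sum_congr rfl fun a' _ => by rw [hcross a a' b]
        _ = x a * ∑ a', c a' * i (E k a' b) := by
            rw [Finset.mul_sum]
            exact Finset.sum_congr rfl fun a' _ => by ring
    · funext a
      apply mul_right_cancel₀ hα0
      have h4 : (A * E k) a b₀ = ((t k : O) • E k) a b₀ := by rw [hAE]
      rw [Matrix.mul_apply, Matrix.smul_apply, smul_eq_mul] at h4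
      have h5 := congrArg i h4
      rw [map_sum, map_mul] at h5
      show (∑ b, i (A a b) * x b) * α = i (t k) * x a * α
      rw [Finset.sum_mul, mul_assoc, hx a]
      rw [← show i (E k a b₀) = i (u a) from rfl, ← h5]
      refine Finset.sum_congr rfl fun b _ => ?_
      rw [mul_assoc, hx b, map_mul]
  choose x φ hxφ hx using hfac
  refine ⟨Matrix.of fun a j => x j a, Matrix.of fun j b => φ j b, ?_, ?_⟩
  · ext a b
    rw [Matrix.mul_apply]
    have h1 : ∀ j, (Matrix.of fun a j => x j a) a j * (Matrix.of fun j b => φ j b) j b =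
        i (E j a b) := fun j => (hxφ j a b).symm
    simp only [h1]
    rw [← map_sum]
    have h2 : ∑ j, E j a b = (1 : Mat r O) a b := by rw [← hsum, Matrix.sum_apply]
    rw [h2, Matrix.one_apply, Matrix.one_apply]
    by_cases h : a = b
    · simp [h]
    · simp [h]
  · ext a j
    rw [Matrix.mul_diagonal]
    have h1 := congrFun (hx j) a
    show (∑ b, i (A a b) * x j b) = x j a * i (t j)
    refine (show (∑ b, i (A a b) * x j b) = _ from h1).trans ?_
    show i (t j) * x j a = _
    ring

/-- CAP: diagonalisation over `O'` -/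
theorem cap {O O' : Type} [CommRing O] [IsDomain O] [CommRing O'] [IsDomain O'] (i : O →+* O')
    (hi : Function.Injective i)
    (hcap : ∀ I : Ideal O, I.FG → ∃ α : O', I.map i = Ideal.span {α}) {r : ℕ} (t : Fin r → Oˣ)
    (ht : ∀ k l, k ≠ l → IsUnit ((t k : O) - (t l : O))) (A : Mat r O)
    (hA : A.charpoly = ∏ k, (Polynomial.X - Polynomial.C (t k : O))) :
    ∃ k k' : Mat r O', k * k' = 1 ∧ A.map i * k = k * diagonal (fun j => i (t j : O)) := by
  obtain ⟨P, Q, hPQ, hQP, hP⟩ := exists_eigen t ht A hA
  exact cap_aux i hi hcap t ht A (algebraMap O (FractionRing O))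
    (IsFractionRing.injective O (FractionRing O)) P Q hPQ hQP hP

end V3_CAP

end Pool.Agent.MP_3f0e22_ag

namespace Pool.Agent.MP_3f0e22_ag

alias cap := V3_CAP.cap

end Pool.Agent.MP_3f0e22_ag
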