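import Pool.Agent.MP_3f0e22_ag.Defs3
import Pool.Agent.MP_3f0e22_ag.Asm2

set_option autoImplicit false

open Matrix

namespace Pool.Agent.MP_3f0e22_ag.V3_CUT2

section

variable {Ω : Type} [Field Ω] {r : ℕ}

/-- The Lagrange basis polynomials. -/
noncomputable def lag (t : Fin r → Ω) (k : Fin r) : Polynomial Ω := Lagrange.basis Finset.univ t k

/-- `∑ k, ε_k(M) h E_kk`. -/
noncomputable def hs (t : Fin r → Ω) (h : Mat r Ω) (R : Type) [CommRing R] [Algebra Ω R]
    (M : Mat r R) : Mat r R :=
  ∑ k, Polynomial.aeval M (lag t k) * h.map (algebraMap Ω R) * Matrix.single k k 1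

theorem lag_mul (t : Fin r → Ω) (k : Fin r) : ∃ c : Polynomial Ω,
    (Polynomial.X - Polynomial.C (t k)) * lag t k =
      c * ∏ j, (Polynomial.X - Polynomial.C (t j)) := by
  refine ⟨∏ j ∈ Finset.univ.erase k, Polynomial.C (t k - t j)⁻¹, ?_⟩
  have h1 : lag t k = (∏ j ∈ Finset.univ.erase k, Polynomial.C (t k - t j)⁻¹) *
      ∏ j ∈ Finset.univ.erase k, (Polynomial.X - Polynomial.C (t j)) := by
    rw [← Finset.prod_mul_distrib]
    rfl
  rw [h1, ← Finset.mul_prod_erase Finset.univ (fun j => Polynomial.X - Polynomial.C (t j))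
    (Finset.mem_univ k)]
  ring

theorem mul_eps (t : Fin r → Ω) (M : Mat r Ω)
    (hM : M.charpoly = ∏ k, (Polynomial.X - Polynomial.C (t k))) (k : Fin r) :
    M * Polynomial.aeval M (lag t k) = t k • Polynomial.aeval M (lag t k) := by
  obtain ⟨c, hc⟩ := lag_mul t k
  have h1 := congrArg (Polynomial.aeval M) hc
  rw [← hM, map_mul, map_mul, Matrix.aeval_self_charpoly, mul_zero, map_sub, Polynomial.aeval_X,
    Polynomial.aeval_C, sub_mul, sub_eq_zero] at h1
  rw [h1, Algebra.smul_def]

theorem aeval_mul_eigen (t : Fin r → Ω) (M h : Mat r Ω) (hM : M * h = h * Matrix.diagonal t)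
    (p : Polynomial Ω) :
    Polynomial.aeval M p * h = h * Matrix.diagonal (fun k => p.eval (t k)) := by
  induction p using Polynomial.induction_on with
  | C a =>
    rw [Polynomial.aeval_C]
    have h1 : (fun k => Polynomial.eval (t k) (Polynomial.C a)) = fun _ => a := by
      funext k; simp
    rw [h1, Algebra.algebraMap_eq_smul_one, smul_mul_assoc, one_mul]
    have h2 : (Matrix.diagonal (fun _ : Fin r => a)) = a • (1 : Mat r Ω) := by
      ext i j
      by_cases hij : i = j <;> simp [hij]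
    rw [h2, mul_smul_comm, mul_one]
  | add p q hp hq =>
    rw [map_add, add_mul, hp, hq, ← mul_add, Matrix.diagonal_add]
    congr 2
    funext k
    simp
  | monomial n a ih =>
    have h1 : (Polynomial.C a * Polynomial.X ^ (n + 1) : Polynomial Ω) =
        Polynomial.C a * Polynomial.X ^ n * Polynomial.X := by ring
    rw [h1, map_mul, Polynomial.aeval_X, mul_assoc, hM, ← mul_assoc, ih, mul_assoc,
      Matrix.diagonal_mul_diagonal]
    congr 2
    funext k
    simp

theorem lag_eval (t : Fin r → Ω) (ht : Function.Injective t) (k j : Fin r) :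
    (lag t k).eval (t j) = if j = k then 1 else 0 := by
  split_ifs with h
  · subst h
    exact Lagrange.eval_basis_self ht.injOn (Finset.mem_univ _)
  · exact Lagrange.eval_basis_of_ne (Ne.symm h) (Finset.mem_univ _)

theorem hs_mul (t : Fin r → Ω) (h M : Mat r Ω)
    (hM : M.charpoly = ∏ k, (Polynomial.X - Polynomial.C (t k))) :
    M * hs t h Ω M = hs t h Ω M * Matrix.diagonal t := by
  unfold hs
  rw [Finset.mul_sum, Finset.sum_mul]
  refine Finset.sum_congr rfl fun k _ => ?_
  have h1 : Matrix.single k k (1 : Ω) * Matrix.diagonal t = t k • Matrix.single k k (1 : Ω) := by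
    ext i j
    rw [Matrix.mul_diagonal, Matrix.smul_apply, smul_eq_mul, mul_comm]
    by_cases hj : k = j
    · subst hj; rfl
    · have h0 : Matrix.single k k (1 : Ω) i j = 0 := by
        rw [Matrix.single_apply, if_neg]
        rintro ⟨-, h⟩
        exact hj h
      rw [h0, mul_zero, mul_zero]
  rw [mul_assoc _ _ (Matrix.diagonal t), h1, ← mul_assoc, ← mul_assoc, mul_eps t M hM, smul_mul_assoc,
    smul_mul_assoc, mul_smul_comm]

theorem hs_self (t : Fin r → Ω) (ht : Function.Injective t) (h M : Mat r Ω)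
    (hM : M * h = h * Matrix.diagonal t) : hs t h Ω M = h := by
  unfold hs
  have h0 : h.map (algebraMap Ω Ω) = h := by
    ext i j; simp
  have h1 : ∀ k, Polynomial.aeval M (lag t k) * h.map (algebraMap Ω Ω) * Matrix.single k k 1 =
      h * Matrix.single k k 1 := by
    intro k
    rw [h0, aeval_mul_eigen t M h hM, mul_assoc]
    congr 1
    ext i j
    rw [Matrix.diagonal_mul, lag_eval t ht]
    by_cases hi : i = k
    · rw [if_pos hi, one_mul]
    · rw [if_neg hi, zero_mul, Matrix.single_apply_of_row_ne (Ne.symm hi)]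
  rw [Finset.sum_congr rfl fun k _ => h1 k, ← Finset.mul_sum]
  have h2 : ∑ k : Fin r, Matrix.single k k (1 : Ω) = 1 := by
    ext i j
    rw [Matrix.sum_apply, Matrix.one_apply]
    split_ifs with hij
    · subst hij
      rw [Finset.sum_eq_single i]
      · simp
      · intro k _ hk
        exact Matrix.single_apply_of_row_ne hk _ _ _
      · simp
    · refine Finset.sum_eq_zero fun k _ => ?_
      by_cases hk : k = i
      · subst hk
        rw [Matrix.single_apply, if_neg]
        rintro ⟨-, h⟩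
        exact hij h
      · exact Matrix.single_apply_of_row_ne hk _ _ _
  rw [h2, mul_one]

theorem map_single (k : Fin r) {R R' : Type} [CommRing R] [CommRing R'] (φ : R →+* R') :
    (Matrix.single k k (1 : R)).map φ = Matrix.single k k (1 : R') := by
  ext i j
  simp only [Matrix.map_apply, Matrix.single_apply]
  split_ifs <;> simp

theorem hs_map (t : Fin r → Ω) (h : Mat r Ω) {R R' : Type} [CommRing R] [Algebra Ω R]
    [CommRing R'] [Algebra Ω R'] (φ : R →ₐ[Ω] R') (M : Mat r R) :
    (hs t h R M).map φ = hs t h R' (M.map φ) := by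
  have h0 : ∀ X : Mat r R, X.map φ = φ.mapMatrix X := fun _ => rfl
  unfold hs
  rw [h0, map_sum]
  refine Finset.sum_congr rfl fun k _ => ?_
  rw [map_mul, map_mul, ← Polynomial.aeval_algHom_apply]
  congr 1
  · congr 1
    ext i j
    simp
  · exact map_single k (φ : R →+* R')

/-- an eigenbasis with determinant 1 -/
theorem exists_h (hr : 1 ≤ r) (t : Fin r → Ω) (ht : Function.Injective t) (a : Mat r Ω)
    (ha : a.charpoly = ∏ k, (Polynomial.X - Polynomial.C (t k))) :
    ∃ h : Mat r Ω, a * h = h * Matrix.diagonal t ∧ h.det = 1 := by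
  have h1 : ∀ k, ∃ v : Fin r → Ω, v ≠ 0 ∧ (Matrix.scalar _ (t k) - a) *ᵥ v = 0 := by
    intro k
    rw [Matrix.exists_mulVec_eq_zero_iff, ← Matrix.eval_charpoly, ha, Polynomial.eval_prod]
    exact Finset.prod_eq_zero (Finset.mem_univ k) (by simp)
  choose v hv0 hv using h1
  have hev : ∀ k, a *ᵥ v k = t k • v k := by
    intro k
    have := hv k
    rw [Matrix.sub_mulVec, sub_eq_zero] at this
    rw [← this]
    ext i
    simp [Matrix.scalar_apply, Matrix.mulVec_diagonal]
  have hli : LinearIndependent Ω v := by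
    refine Module.End.eigenvectors_linearIndependent' (Matrix.toLin' a) t ht v fun k => ?_
    rw [Module.End.hasEigenvector_iff, Module.End.mem_eigenspace_iff]
    exact ⟨by rw [Matrix.toLin'_apply]; exact hev k, hv0 k⟩
  set h0 : Mat r Ω := Matrix.of fun i k => v k i with hh0
  have hmul : a * h0 = h0 * Matrix.diagonal t := by
    ext i k
    rw [Matrix.mul_diagonal]
    have := congrFun (hev k) i
    simp only [Pi.smul_apply, smul_eq_mul] at this
    rw [hh0, Matrix.of_apply, mul_comm, ← this]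
    rfl
  have hdet : h0.det ≠ 0 := by
    rw [← isUnit_iff_ne_zero, ← Matrix.isUnit_iff_isUnit_det,
      ← Matrix.linearIndependent_cols_iff_isUnit]
    exact hli
  let i0 : Fin r := ⟨0, hr⟩
  set s : Fin r → Ω := fun k => if k = i0 then (h0.det)⁻¹ else 1 with hs
  refine ⟨h0 * Matrix.diagonal s, ?_, ?_⟩
  · rw [← mul_assoc, hmul, mul_assoc, mul_assoc, Matrix.diagonal_mul_diagonal,
      Matrix.diagonal_mul_diagonal]
    congr 2
    funext k
    exact mul_comm _ _
  · rw [Matrix.det_mul, Matrix.det_diagonal, hs, Finset.prod_ite_eq' Finset.univ i0,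
      if_pos (Finset.mem_univ _), mul_inv_cancel₀ hdet]

/-- the diagonal matrix `(d₁, d₂, …, d₂)` -/
def dg {R : Type} (i0 : Fin r) (d₁ d₂ : R) : Fin r → R := fun k => if k = i0 then d₁ else d₂

theorem prod_dg {R : Type} [CommRing R] (i0 : Fin r) (d₁ d₂ : R) :
    ∏ k, dg i0 d₁ d₂ k = d₁ * d₂ ^ (r - 1) := by
  unfold dg
  rw [← Finset.mul_prod_erase Finset.univ _ (Finset.mem_univ i0), if_pos rfl]
  congr 1
  rw [Finset.prod_congr rfl (fun k hk => if_neg (Finset.ne_of_mem_erase hk)), Finset.prod_const,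
    Finset.card_erase_of_mem (Finset.mem_univ _), Finset.card_univ, Fintype.card_fin]

/-- CUT2: the polynomial family of the conjugating matrices. -/
theorem conj_family {Ω : Type} [Field Ω] {r : ℕ} (hr : 1 ≤ r) (t : Fin r → Ω) (ht : Function.Injective t)
    (a b : Mat r Ω) (ha : a.charpoly = ∏ k, (Polynomial.X - Polynomial.C (t k)))
    (hb : b.det = 1) :
    ∃ (N : ∀ (R : Type) [CommRing R] [Algebra Ω R], Mat r R → Mat r R → Mat r R)
      (δ : ∀ (R : Type) [CommRing R] [Algebra Ω R], Mat r R → Mat r R → R),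
      (∀ (R R' : Type) [CommRing R] [Algebra Ω R] [CommRing R'] [Algebra Ω R'] (φ : R →ₐ[Ω] R')
        (M₁ M₂ : Mat r R), (N R M₁ M₂).map φ = N R' (M₁.map φ) (M₂.map φ) ∧
          φ (δ R M₁ M₂) = δ R' (M₁.map φ) (M₂.map φ)) ∧
      (∀ M₁ M₂ : Mat r Ω, M₁.charpoly = ∏ k, (Polynomial.X - Polynomial.C (t k)) →
        M₂.charpoly = ∏ k, (Polynomial.X - Polynomial.C (t k)) → δ Ω M₁ M₂ ≠ 0 →
        ((δ Ω M₁ M₂)⁻¹ • N Ω M₁ M₂).det = 1 ∧
          ((δ Ω M₁ M₂)⁻¹ • N Ω M₁ M₂) * M₁ = M₂ * ((δ Ω M₁ M₂)⁻¹ • N Ω M₁ M₂)) ∧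
      δ Ω a (b * a * b.adjugate) = 1 ∧ N Ω a (b * a * b.adjugate) = b := by
  obtain ⟨h1, hah, hdet1⟩ := exists_h hr t ht a ha
  let i0 : Fin r := ⟨0, hr⟩
  set h2 : Mat r Ω := b * h1 with hh2
  refine ⟨fun R _ _ M₁ M₂ => hs t h2 R M₂ *
      Matrix.diagonal (dg i0 (hs t h1 R M₁).det (hs t h2 R M₂).det) * (hs t h1 R M₁).adjugate,
    fun R _ _ M₁ M₂ => (hs t h1 R M₁).det * (hs t h2 R M₂).det, ?_, ?_, ?_⟩
  · intro R R' _ _ _ _ φ M₁ M₂
    have hd : ∀ X : Mat r R, φ X.det = (X.map φ).det := fun X => by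
      rw [AlgHom.map_det]; rfl
    constructor
    · have h0 : ∀ X : Mat r R, X.map φ = φ.mapMatrix X := fun _ => rfl
      rw [h0, map_mul, map_mul, AlgHom.map_adjugate, ← h0, ← h0, ← h0, hs_map, hs_map]
      congr 2
      rw [Matrix.diagonal_map (map_zero φ)]
      congr 1
      funext k
      simp only [dg]
      rw [apply_ite φ, hd, hd, hs_map, hs_map]
    · rw [map_mul, hd, hd, hs_map, hs_map]
  · intro M₁ M₂ hM₁ hM₂ hδ
    set g1 := hs t h1 Ω M₁ with hg1
    set g2 := hs t h2 Ω M₂ with hg2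
    have e1 : M₁ * g1 = g1 * Matrix.diagonal t := hs_mul t h1 M₁ hM₁
    have e2 : M₂ * g2 = g2 * Matrix.diagonal t := hs_mul t h2 M₂ hM₂
    have hd1 : g1.det ≠ 0 := left_ne_zero_of_mul hδ
    have hd2 : g2.det ≠ 0 := right_ne_zero_of_mul hδ
    constructor
    · rw [Matrix.det_smul, Matrix.det_mul, Matrix.det_mul, Matrix.det_diagonal, prod_dg,
        Matrix.det_adjugate, Fintype.card_fin]
      show (g1.det * g2.det)⁻¹ ^ r * (g2.det * (g1.det * g2.det ^ (r - 1)) * g1.det ^ (r - 1)) = 1
      have h3 : g2.det * (g1.det * g2.det ^ (r - 1)) * g1.det ^ (r - 1) = (g1.det * g2.det) ^ r := by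
        have h4 : ∀ z : Ω, z ^ r = z ^ (r - 1) * z := fun z => by
          rw [← pow_succ, Nat.sub_add_cancel hr]
        rw [h4, mul_pow]
        ring
      rw [h3, ← mul_pow, inv_mul_cancel₀ hδ, one_pow]
    · have e3 : g1.adjugate * M₁ = Matrix.diagonal t * g1.adjugate := by
        have h3 : g1.adjugate * (M₁ * g1) * g1.adjugate =
            g1.adjugate * (g1 * Matrix.diagonal t) * g1.adjugate := by rw [e1]
        have h4 : g1.adjugate * (M₁ * g1) * g1.adjugate = g1.det • (g1.adjugate * M₁) := by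
          rw [mul_assoc, mul_assoc M₁, Matrix.mul_adjugate, mul_smul_comm, mul_one, mul_smul_comm]
        have h5 : g1.adjugate * (g1 * Matrix.diagonal t) * g1.adjugate =
            g1.det • (Matrix.diagonal t * g1.adjugate) := by
          rw [← mul_assoc g1.adjugate, Matrix.adjugate_mul, smul_mul_assoc, one_mul, smul_mul_assoc]
        rw [h4, h5] at h3
        exact smul_right_injective _ hd1 h3
      rw [smul_mul_assoc, mul_smul_comm]
      congr 1
      rw [mul_assoc, e3, ← mul_assoc, mul_assoc g2, Matrix.diagonal_mul_diagonal, ← mul_assoc,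
        ← mul_assoc, e2, mul_assoc g2 (Matrix.diagonal t), Matrix.diagonal_mul_diagonal]
      congr 3
      funext k
      exact mul_comm _ _
  · have hbb : b.adjugate * b = 1 := by rw [Matrix.adjugate_mul, hb, one_smul]
    have e2 : (b * a * b.adjugate) * h2 = h2 * Matrix.diagonal t := by
      rw [hh2, mul_assoc, ← mul_assoc b.adjugate, hbb, one_mul, mul_assoc, hah, ← mul_assoc]
    have g1 : hs t h1 Ω a = h1 := hs_self t ht h1 a hah
    have g2 : hs t h2 Ω (b * a * b.adjugate) = h2 := hs_self t ht h2 _ e2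
    have hdet2 : h2.det = 1 := by rw [hh2, Matrix.det_mul, hb, hdet1, one_mul]
    constructor
    · simp only [g1, g2, hdet1, hdet2, one_mul]
    · simp only [g1, g2, hdet1, hdet2]
      have h3 : Matrix.diagonal (dg i0 (1 : Ω) 1) = 1 := by
        rw [← Matrix.diagonal_one]
        congr 1
        funext k
        simp [dg]
      rw [h3, mul_one, hh2, mul_assoc, Matrix.mul_adjugate, hdet1, one_smul, mul_one]

end

end Pool.Agent.MP_3f0e22_ag.V3_CUT2

namespace Pool.Agent.MP_3f0e22_ag

alias conj_family := V3_CUT2.conj_family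

end Pool.Agent.MP_3f0e22_ag
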