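import Mathlib

set_option autoImplicit false

open MvPolynomial

namespace Pool.Agent.MP_3f0e22_ag.V3_DEN

theorem den_aux {Ω : Type*} [Field Ω] {σ τ : Type*} (F : MvPolynomial σ Ω)
    (N : σ → MvPolynomial τ Ω) (δ : MvPolynomial τ Ω) :
    ∃ (Φ : MvPolynomial τ Ω) (k : ℕ), ∀ z : τ → Ω, eval z δ ≠ 0 →
      eval z Φ = eval z δ ^ k * eval (fun s => eval z (N s) / eval z δ) F := by
  induction F using MvPolynomial.induction_on with
  | C a => exact ⟨C a, 0, fun z _ => by simp⟩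
  | add p q hp hq =>
    obtain ⟨P, k, hP⟩ := hp
    obtain ⟨Q, l, hQ⟩ := hq
    refine ⟨P * δ ^ l + Q * δ ^ k, k + l, fun z hz => ?_⟩
    rw [map_add, map_mul, map_mul, map_pow, map_pow, hP z hz, hQ z hz, map_add]
    ring
  | mul_X p s hp =>
    obtain ⟨P, k, hP⟩ := hp
    refine ⟨P * N s, k + 1, fun z hz => ?_⟩
    rw [map_mul, hP z hz, map_mul, eval_X, pow_succ]
    field_simp

theorem exists_den {Ω : Type*} [Field Ω] {σ τ : Type*} (F : MvPolynomial σ Ω)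
    (N : σ → MvPolynomial τ Ω) (δ : MvPolynomial τ Ω) :
    ∃ Φ : MvPolynomial τ Ω, ∀ z : τ → Ω, (eval z δ = 0 → eval z Φ = 0) ∧
      (eval z δ ≠ 0 → ∃ c : Ω, c ≠ 0 ∧
        eval z Φ = c * eval (fun s => eval z (N s) / eval z δ) F) := by
  obtain ⟨P, k, hP⟩ := den_aux F N δ
  refine ⟨P * δ, fun z => ⟨fun h => by rw [map_mul, h, mul_zero], fun h => ?_⟩⟩
  refine ⟨eval z δ ^ (k + 1), pow_ne_zero _ h, ?_⟩
  rw [map_mul, hP z h]
  ring

end Pool.Agent.MP_3f0e22_ag.V3_DEN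

namespace Pool.Agent.MP_3f0e22_ag

alias exists_den := V3_DEN.exists_den

end Pool.Agent.MP_3f0e22_ag
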