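import Pool.Agent.MP_3f0e22_ag.VCUT1
import Pool.Agent.MP_3f0e22_ag.VCUT2
import Pool.Agent.MP_3f0e22_ag.VCAP
import Pool.Agent.MP_3f0e22_ag.VDEN
import Pool.Agent.MP_3f0e22_ag.Asm6

set_option autoImplicit false

open Matrix MvPolynomial NumberField

namespace Pool.Agent.MP_3f0e22_ag.V3_CUT3

open Pool.Agent.MP_3f0e22_ag

section

variable {R : Type*} [CommRing R] {r : ℕ}

theorem charpoly_smul_aux (c c' : R) (h : c * c' = 1) (M : Mat r R) :
    (c • M).charpoly = Polynomial.C c ^ r *
      M.charpoly.comp (Polynomial.C c' * Polynomial.X) := by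
  have h1 : charmatrix (c • M) = Polynomial.C c •
      (charmatrix M).map (Polynomial.compRingHom (Polynomial.C c' * Polynomial.X)) := by
    have h2 : Polynomial.C c * Polynomial.C c' = (1 : Polynomial R) := by
      rw [← Polynomial.C_mul, h, Polynomial.C_1]
    ext i j : 2
    by_cases hij : i = j
    · subst hij
      simp only [charmatrix_apply, diagonal_apply_eq, Matrix.smul_apply, map_apply,
        Polynomial.coe_compRingHom, Polynomial.sub_comp, Polynomial.X_comp, Polynomial.C_comp,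
        smul_eq_mul, Polynomial.C_mul, mul_sub]
      rw [← mul_assoc, h2, one_mul]
    · simp only [charmatrix_apply, diagonal_apply_ne _ hij, Matrix.smul_apply, map_apply,
        Polynomial.coe_compRingHom, Polynomial.neg_comp, Polynomial.C_comp,
        smul_eq_mul, Polynomial.C_mul, zero_sub, mul_neg]
  rw [Matrix.charpoly, h1, det_smul, Fintype.card_fin, Matrix.charpoly]
  congr 1
  rw [← Polynomial.coe_compRingHom_apply, RingHom.map_det]
  rfl

theorem charpoly_smul_prod (c : Rˣ) (M : Mat r R) (a : Fin r → R)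
    (hM : M.charpoly = ∏ k, (Polynomial.X - Polynomial.C (a k))) :
    ((c : R) • M).charpoly = ∏ k, (Polynomial.X - Polynomial.C ((c : R) * a k)) := by
  rw [charpoly_smul_aux (c : R) ((c⁻¹ : Rˣ) : R) (by simp) M, hM, Polynomial.prod_comp]
  have h0 : Polynomial.C (c : R) ^ r = ∏ _k : Fin r, Polynomial.C (c : R) := by simp
  have h2 : Polynomial.C (c : R) * Polynomial.C ((c⁻¹ : Rˣ) : R) = (1 : Polynomial R) := by
    rw [← Polynomial.C_mul]; simp
  rw [h0, ← Finset.prod_mul_distrib]
  refine Finset.prod_congr rfl fun k _ => ?_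
  simp only [Polynomial.sub_comp, Polynomial.X_comp, Polynomial.C_comp, mul_sub]
  rw [← mul_assoc, h2, one_mul, Polynomial.C_mul]

theorem cval_succ {g : ℕ} (a b : Fin (g + 1) → Mat r R) :
    cval a b = a 0 * b 0 * (a 0).adjugate * (b 0).adjugate *
      cval (fun j => a j.succ) (fun j => b j.succ) := by
  simp [cval, List.ofFn_succ]

theorem wval_two {g : ℕ} (x y : Fin g → Mat r R) (A : Fin 2 → Mat r R) :
    wval (sword x y A) = cval x y * (A 0 * A 1) := by
  simp [wval, sword, cval, Letter.val, List.ofFn_succ, List.map_ofFn, Function.comp_def]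

/-- The first relation. -/
theorem relA {g : ℕ} (ζ ζ' : R) (hζ : ζ' * ζ = 1) (a b : Fin (g + 1) → Mat r R)
    (h : CRep ζ a b) (A : Fin 2 → Mat r R) (h0 : A 0 = a 0)
    (h1 : A 1 = ζ' • (b 0 * (a 0).adjugate * (b 0).adjugate)) :
    wval (sword (fun j => a j.succ) (fun j => b j.succ) A) = 1 := by
  rw [wval_two, h0, h1]
  set P := cval (fun j => a j.succ) (fun j => b j.succ) with hP
  set C := a 0 * b 0 * (a 0).adjugate * (b 0).adjugate with hC
  have h2 : C * P = ζ • (1 : Mat r R) := by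
    rw [← h.rel, cval_succ]
  have h3 : a 0 * ζ' • (b 0 * (a 0).adjugate * (b 0).adjugate) = ζ' • C := by
    rw [Matrix.mul_smul, hC]
    simp only [mul_assoc]
  rw [h3]
  apply mul_eq_one_comm.1
  rw [Matrix.smul_mul, h2, smul_smul, hζ, one_smul]

/-- The second relation. -/
theorem relB {g : ℕ} (ζ : R) (x y : Fin g → Mat r R) (A : Fin 2 → Mat r R)
    (hx : ∀ j, (x j).det = 1) (hy : ∀ j, (y j).det = 1) (hA0 : (A 0).det = 1)
    (hw : wval (sword x y A) = 1) (M₂ b : Mat r R) (hM : M₂ * (ζ • A 1) = 1) (hb : b.det = 1)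
    (hbM : b * A 0 = M₂ * b) :
    CRep ζ (Fin.cons (A 0) x : Fin (g + 1) → Mat r R) (Fin.cons b y) := by
  have hbb : b * b.adjugate = 1 := by rw [mul_adjugate, hb, one_smul]
  have hbb' : b.adjugate * b = 1 := by rw [adjugate_mul, hb, one_smul]
  have hAA : (A 0).adjugate * A 0 = 1 := by rw [adjugate_mul, hA0, one_smul]
  have h1 : b * (A 0).adjugate * b.adjugate * M₂ = 1 := by
    have h2 : M₂ = b * A 0 * b.adjugate := by
      rw [hbM, mul_assoc, hbb, mul_one]
    rw [h2]
    calc b * (A 0).adjugate * b.adjugate * (b * A 0 * b.adjugate)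
        = b * (A 0).adjugate * (b.adjugate * b) * (A 0 * b.adjugate) := by
          simp only [mul_assoc]
      _ = b * ((A 0).adjugate * A 0) * b.adjugate := by
          rw [hbb', mul_one]; simp only [mul_assoc]
      _ = 1 := by rw [hAA, mul_one, hbb]
  have h3 : b * (A 0).adjugate * b.adjugate = ζ • A 1 := by
    calc b * (A 0).adjugate * b.adjugate = b * (A 0).adjugate * b.adjugate * (M₂ * (ζ • A 1)) := by
          rw [hM, mul_one]
      _ = (b * (A 0).adjugate * b.adjugate * M₂) * (ζ • A 1) := (mul_assoc _ _ _).symm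
      _ = ζ • A 1 := by rw [h1, one_mul]
  refine ⟨fun j => ?_, fun j => ?_, ?_⟩
  · refine Fin.cases ?_ (fun j => ?_) j
    · simpa using hA0
    · simpa using hx j
  · refine Fin.cases ?_ (fun j => ?_) j
    · simpa using hb
    · simpa using hy j
  · rw [cval_succ]
    simp only [Fin.cons_zero, Fin.cons_succ]
    rw [wval_two] at hw
    have h4 := mul_eq_one_comm.1 hw
    have h5 : A 0 * b * (A 0).adjugate * b.adjugate = ζ • (A 0 * A 1) := by
      calc A 0 * b * (A 0).adjugate * b.adjugate = A 0 * (b * (A 0).adjugate * b.adjugate) := by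
            simp only [mul_assoc]
        _ = ζ • (A 0 * A 1) := by rw [h3, Matrix.mul_smul]
    rw [h5, Matrix.smul_mul, h4]

theorem det_of_charpoly' {M : Mat r R} (a : Fin r → R)
    (hM : M.charpoly = ∏ k, (Polynomial.X - Polynomial.C (a k))) : M.det = ∏ k, a k :=
  Asm.det_of_charpoly a hM

end

section

variable {Ω : Type} [Field Ω] {r g : ℕ}

/-- The polynomial `Φ`. -/
theorem exists_Phi (ζ' : Ω)
    (N : ∀ (R : Type) [CommRing R] [Algebra Ω R], Mat r R → Mat r R → Mat r R)
    (δ : ∀ (R : Type) [CommRing R] [Algebra Ω R], Mat r R → Mat r R → R)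
    (hnat : ∀ (R R' : Type) [CommRing R] [Algebra Ω R] [CommRing R'] [Algebra Ω R']
      (φ : R →ₐ[Ω] R') (M₁ M₂ : Mat r R),
        (N R M₁ M₂).map φ = N R' (M₁.map φ) (M₂.map φ) ∧
          φ (δ R M₁ M₂) = δ R' (M₁.map φ) (M₂.map φ))
    (F : MvPolynomial ((Fin (g + 1) ⊕ Fin (g + 1)) × Fin r × Fin r) Ω) :
    ∃ Φ : MvPolynomial ((Fin g ⊕ Fin g ⊕ Fin 2) × Fin r × Fin r) Ω,
      ∀ (X Y : Fin g → Mat r Ω) (A : Fin 2 → Mat r Ω),
        (δ Ω (A 0) (ζ' • (A 1).adjugate) = 0 → eval (scoord X Y A) Φ = 0) ∧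
        (δ Ω (A 0) (ζ' • (A 1).adjugate) ≠ 0 → ∃ c : Ω, c ≠ 0 ∧ eval (scoord X Y A) Φ =
          c * eval (ccoord (Fin.cons (A 0) X : Fin (g + 1) → Mat r Ω)
            (Fin.cons ((δ Ω (A 0) (ζ' • (A 1).adjugate))⁻¹ • N Ω (A 0) (ζ' • (A 1).adjugate)) Y))
            F) := by
  let τ := (Fin g ⊕ Fin g ⊕ Fin 2) × Fin r × Fin r
  let gX : Fin g → Mat r (MvPolynomial τ Ω) := fun j => Asm.gm Ω r (Sum.inl j)
  let gY : Fin g → Mat r (MvPolynomial τ Ω) := fun j => Asm.gm Ω r (Sum.inr (Sum.inl j))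
  let gA : Fin 2 → Mat r (MvPolynomial τ Ω) := fun j => Asm.gm Ω r (Sum.inr (Sum.inr j))
  let g2 : Mat r (MvPolynomial τ Ω) := (C ζ' : MvPolynomial τ Ω) • (gA 1).adjugate
  let gδ : MvPolynomial τ Ω := δ (MvPolynomial τ Ω) (gA 0) g2
  let gN : Mat r (MvPolynomial τ Ω) := N (MvPolynomial τ Ω) (gA 0) g2
  let NN : (Fin (g + 1) ⊕ Fin (g + 1)) × Fin r × Fin r → MvPolynomial τ Ω := fun s =>
    match s with
    | (Sum.inl j, p) => (Fin.cons (gδ • gA 0) (fun j => gδ • gX j) :
        Fin (g + 1) → Mat r (MvPolynomial τ Ω)) j p.1 p.2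
    | (Sum.inr j, p) => (Fin.cons gN (fun j => gδ • gY j) :
        Fin (g + 1) → Mat r (MvPolynomial τ Ω)) j p.1 p.2
  obtain ⟨Φ, hΦ⟩ := exists_den F NN gδ
  refine ⟨Φ, fun X Y A => ?_⟩
  set z : τ → Ω := scoord X Y A with hz
  have eX : ∀ j, (gX j).map (aeval z : MvPolynomial τ Ω →ₐ[Ω] Ω) = X j := by
    intro j
    ext a b
    simp [gX, Asm.gm, hz, scoord]
  have eY : ∀ j, (gY j).map (aeval z : MvPolynomial τ Ω →ₐ[Ω] Ω) = Y j := by
    intro j
    ext a b
    simp [gY, Asm.gm, hz, scoord]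
  have eA : ∀ j, (gA j).map (aeval z : MvPolynomial τ Ω →ₐ[Ω] Ω) = A j := by
    intro j
    ext a b
    simp [gA, Asm.gm, hz, scoord]
  have e2 : g2.map (aeval z : MvPolynomial τ Ω →ₐ[Ω] Ω) = ζ' • (A 1).adjugate := by
    have h1 : (gA 1).adjugate.map (aeval z : MvPolynomial τ Ω →ₐ[Ω] Ω) = (A 1).adjugate := by
      rw [← eA 1]
      exact (aeval z : MvPolynomial τ Ω →ₐ[Ω] Ω).toRingHom.map_adjugate (gA 1)
    rw [← h1]
    ext a b
    simp [g2]
  have hN : gN.map (aeval z : MvPolynomial τ Ω →ₐ[Ω] Ω) = N Ω (A 0) (ζ' • (A 1).adjugate) := by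
    have := (hnat (MvPolynomial τ Ω) Ω (aeval z) (gA 0) g2).1
    rw [eA 0, e2] at this
    exact this
  have hδ : (aeval z : MvPolynomial τ Ω →ₐ[Ω] Ω) gδ = δ Ω (A 0) (ζ' • (A 1).adjugate) := by
    have := (hnat (MvPolynomial τ Ω) Ω (aeval z) (gA 0) g2).2
    rw [eA 0, e2] at this
    exact this
  have hδ' : eval z gδ = δ Ω (A 0) (ζ' • (A 1).adjugate) := by
    rw [← hδ, aeval_eq_eval]
  rw [← hδ']
  refine ⟨(hΦ z).1, fun hd => ?_⟩
  obtain ⟨c, hc, hcF⟩ := (hΦ z).2 hd
  refine ⟨c, hc, ?_⟩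
  rw [hcF]
  have key : ∀ (M : Mat r (MvPolynomial τ Ω)) (M' : Mat r Ω) (p : Fin r × Fin r),
      M.map (aeval z : MvPolynomial τ Ω →ₐ[Ω] Ω) = M' →
      eval z ((gδ • M) p.1 p.2) / eval z gδ = M' p.1 p.2 := by
    intro M M' p hM
    have h1 : eval z (M p.1 p.2) = M' p.1 p.2 := by
      rw [← hM]
      rfl
    rw [Matrix.smul_apply, smul_eq_mul, map_mul, h1]
    field_simp
  have hfun : (fun s => eval z (NN s) / eval z gδ) =
      ccoord (Fin.cons (A 0) X : Fin (g + 1) → Mat r Ω)
        (Fin.cons ((eval z gδ)⁻¹ • N Ω (A 0) (ζ' • (A 1).adjugate)) Y) := by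
   funext s
   rcases s with ⟨i | i, p⟩
   · refine Fin.cases ?_ (fun j => ?_) i
     · exact key _ _ p (eA 0)
     · exact key _ _ p (eX j)
   · refine Fin.cases ?_ (fun j => ?_) i
     · have h1 : eval z (gN p.1 p.2) = N Ω (A 0) (ζ' • (A 1).adjugate) p.1 p.2 := by
         rw [← hN]
         rfl
       change eval z (gN p.1 p.2) / eval z gδ =
         ((eval z gδ)⁻¹ • N Ω (A 0) (ζ' • (A 1).adjugate)) p.1 p.2
       rw [h1, Matrix.smul_apply, smul_eq_mul]
       field_simp
     · exact key _ _ p (eY j)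
  rw [hfun]

end

section main

theorem cut_density {O O' Ω : Type} [CommRing O] [IsDomain O] [CommRing O'] [IsDomain O']
    [Field Ω] [IsAlgClosed Ω] (i : O →+* O') (ι : O' →+* Ω) (hi : Function.Injective i)
    (hι : Function.Injective ι)
    (hcap : ∀ I : Ideal O, I.FG → ∃ α : O', I.map i = Ideal.span {α}) {r g : ℕ} (hr : 3 ≤ r)
    (v : Oˣ) (hv : ∀ m : ℤ, v ^ m = 1 → m = 0) (t : Fin r → Oˣ) (ht1 : ∏ k, t k = 1)
    (ht : ∀ k l, k ≠ l → IsUnit ((t k : O) - (t l : O))) (ζ : O) (hζ : ζ ^ r = 1)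
    (F : MvPolynomial ((Fin (g + 1) ⊕ Fin (g + 1)) × Fin r × Fin r) Ω)
    (hF : ∀ a b : Fin (g + 1) → Mat r O', CRep (i ζ) a b →
      eval (fun x => ι (ccoord a b x)) F = 0)
    (a b : Fin (g + 1) → Mat r Ω) (h : CRep (ι (i ζ)) a b)
    (ha : (a 0).charpoly = ∏ k, (Polynomial.X - Polynomial.C (ι (i (t k : O))))) :
    eval (ccoord a b) F = 0 := by
  classical
  -- the unit
  obtain ⟨z, hz⟩ : ∃ z : Oˣ, (z : O) = ζ :=
    ⟨Units.ofPowEqOne ζ r hζ (by omega), rfl⟩
  have hzr : z ^ r = 1 := by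
    apply Units.ext
    rw [Units.val_pow_eq_pow_val, hz, hζ, Units.val_one]
  set φ : O →+* Ω := ι.comp i with hφ
  have hφi : Function.Injective φ := hι.comp hi
  have hti : Function.Injective fun k => φ (t k : O) := by
    intro k l hkl
    by_contra hne
    have h1 := hφi hkl
    have h2 := ht k l hne
    rw [h1, sub_self] at h2
    exact not_isUnit_zero h2
  have hdetΩ : (a 0).det = 1 := h.det_a 0
  obtain ⟨N, δ, hnat, hprop, hbase1, hbase2⟩ := conj_family (by omega : 1 ≤ r)
    (fun k => φ (t k : O)) hti (a 0) (b 0) ha (h.det_b 0)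
  set ζ' : Ω := φ ((z⁻¹ : Oˣ) : O) with hζ'
  have hζφ : φ ζ = φ (z : O) := by rw [hz]
  have hζ1 : ζ' * φ ζ = 1 := by
    rw [hζφ, hζ', ← map_mul]
    simp
  obtain ⟨Φ, hΦ⟩ := exists_Phi ζ' N δ hnat F
  set e : Fin 2 → Fin r → Oˣ := ![t, fun k => z⁻¹ * (t k)⁻¹] with he
  -- the target
  set A : Fin 2 → Mat r Ω := ![a 0, ζ' • (b 0 * (a 0).adjugate * (b 0).adjugate)] with hA
  have hA0 : A 0 = a 0 := rfl
  have hA1 : A 1 = ζ' • (b 0 * (a 0).adjugate * (b 0).adjugate) := rfl
  have hbb : b 0 * (b 0).adjugate = 1 := by rw [mul_adjugate, h.det_b 0, one_smul]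
  have hbb' : (b 0).adjugate * b 0 = 1 := by rw [adjugate_mul, h.det_b 0, one_smul]
  have haa : a 0 * (a 0).adjugate = 1 := by rw [mul_adjugate, hdetΩ, one_smul]
  have haa' : (a 0).adjugate * a 0 = 1 := by rw [adjugate_mul, hdetΩ, one_smul]
  have hcpM : (b 0 * a 0 * (b 0).adjugate).charpoly =
      ∏ k, (Polynomial.X - Polynomial.C (φ (t k : O))) := by
    rw [charpoly_mul_comm, ← mul_assoc, hbb', one_mul]
    exact ha
  have hinv : A 1 * (φ (z : O) • (b 0 * a 0 * (b 0).adjugate)) = 1 := by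
    rw [hA1, Matrix.smul_mul, Matrix.mul_smul, smul_smul, ← hζφ, hζ1, one_smul]
    calc b 0 * (a 0).adjugate * (b 0).adjugate * (b 0 * a 0 * (b 0).adjugate)
        = b 0 * (a 0).adjugate * ((b 0).adjugate * b 0) * (a 0 * (b 0).adjugate) := by
          simp only [mul_assoc]
      _ = b 0 * ((a 0).adjugate * a 0) * (b 0).adjugate := by
          rw [hbb', mul_one]; simp only [mul_assoc]
      _ = 1 := by rw [haa', mul_one, hbb]
  have hcpA1 : (A 1).charpoly = ∏ k, (Polynomial.X - Polynomial.C (φ (e 1 k : O))) := by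
    have h1 := charpoly_smul_prod (Units.map (φ : O →* Ω) z) (b 0 * a 0 * (b 0).adjugate)
      (fun k => φ (t k : O)) hcpM
    have h2 := Asm.inv_charpoly hinv (fun k => Units.map (φ : O →* Ω) (z * t k)) (by
      simpa using h1)
    rw [h2]
    refine Finset.prod_congr rfl fun k _ => ?_
    congr 2
    rw [← map_inv]
    have h3 : (z * t k)⁻¹ = z⁻¹ * (t k)⁻¹ := mul_inv z (t k)
    rw [h3]
    rfl
  have hdetA1 : (A 1).det = 1 := by
    have h1 : (A 1).det * (φ (z : O) • (b 0 * a 0 * (b 0).adjugate)).det = 1 := by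
      rw [← det_mul, hinv, det_one]
    rw [det_smul, Fintype.card_fin, ← map_pow, ← Units.val_pow_eq_pow_val, hzr, Units.val_one,
      map_one, one_mul, det_mul, det_mul, det_adjugate, h.det_b 0, hdetΩ, one_pow, mul_one,
      mul_one, mul_one] at h1
    exact h1
  have hadj : ζ' • (A 1).adjugate = b 0 * a 0 * (b 0).adjugate := by
    have h1 : (A 1).adjugate = φ (z : O) • (b 0 * a 0 * (b 0).adjugate) := by
      calc (A 1).adjugate = (A 1).adjugate *
            (A 1 * (φ (z : O) • (b 0 * a 0 * (b 0).adjugate))) := by rw [hinv, mul_one]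
        _ = ((A 1).adjugate * A 1) * (φ (z : O) • (b 0 * a 0 * (b 0).adjugate)) :=
            (mul_assoc _ _ _).symm
        _ = _ := by rw [adjugate_mul, hdetA1, one_smul, one_mul]
    rw [h1, smul_smul, ← hζφ, hζ1, one_smul]
  have hrel : wval (sword (fun j => a j.succ) (fun j => b j.succ) A) = 1 :=
    relA (φ ζ) ζ' hζ1 a b h A rfl rfl
  -- the density
  have hzero : eval (scoord (fun j => a j.succ) (fun j => b j.succ) A) Φ = 0 := by
    refine Asm.dense_core hr (by norm_num : 1 ≤ 2) φ hφi v hv e Φ ?_ _ _ A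
      (fun j => h.det_a j.succ) (fun j => h.det_b j.succ) ?_ hrel
    · intro x y B hx hy hB hw
      have h1 : (fun z => φ (scoord x y B z)) = scoord (fun j => (x j).map φ)
          (fun j => (y j).map φ) (fun i => (B i).map φ) := by
        funext z
        exact Asm.scoord_map φ x y B z
      rw [h1]
      set X : Fin g → Mat r Ω := fun j => (x j).map φ with hX
      set Y : Fin g → Mat r Ω := fun j => (y j).map φ with hY
      set BB : Fin 2 → Mat r Ω := fun j => (B j).map φ with hBB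
      by_cases hd : δ Ω (BB 0) (ζ' • (BB 1).adjugate) = 0
      · exact (hΦ X Y BB).1 hd
      obtain ⟨c, hc, hcF⟩ := (hΦ X Y BB).2 hd
      rw [hcF]
      -- the integral matrices
      have hB0 : (B 0).charpoly = ∏ k, (Polynomial.X - Polynomial.C (t k : O)) := hB 0
      have hB1 : (B 1).charpoly = ∏ k, (Polynomial.X - Polynomial.C ((z⁻¹ * (t k)⁻¹ : Oˣ) : O)) :=
        hB 1
      have hdB0 : (B 0).det = 1 := by
        rw [det_of_charpoly' _ hB0, ← Units.coe_prod, ht1, Units.val_one]
      have hdB1 : (B 1).det = 1 := by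
        rw [det_of_charpoly' _ hB1, ← Units.coe_prod, Finset.prod_mul_distrib,
          Finset.prod_const, Finset.card_univ, Fintype.card_fin, Finset.prod_inv_distrib, ht1,
          inv_pow, hzr]
        simp
      set M₂ : Mat r O := ((z⁻¹ : Oˣ) : O) • (B 1).adjugate with hM₂
      have hM₂B : M₂ * ((z : O) • B 1) = 1 := by
        rw [hM₂, Matrix.smul_mul, Matrix.mul_smul, smul_smul, adjugate_mul, hdB1, one_smul]
        simp
      have hcpM₂ : M₂.charpoly = ∏ k, (Polynomial.X - Polynomial.C (t k : O)) := by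
        have h2 := charpoly_smul_prod z (B 1) (fun k => ((z⁻¹ * (t k)⁻¹ : Oˣ) : O)) hB1
        have h3 := Asm.inv_charpoly hM₂B (fun k => (t k)⁻¹) (by
          rw [h2]
          refine Finset.prod_congr rfl fun k _ => ?_
          rw [← Units.val_mul, mul_inv_cancel_left])
        simpa using h3
      have hM₂φ : M₂.map φ = ζ' • (BB 1).adjugate := by
        have h2 : (BB 1).adjugate = (B 1).adjugate.map φ := (φ.map_adjugate (B 1)).symm
        rw [h2, hM₂]
        ext p q
        simp [hζ']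
      have hcpΩ0 : (BB 0).charpoly = ∏ k, (Polynomial.X - Polynomial.C (φ (t k : O))) := by
        have : BB 0 = (B 0).map φ := rfl
        rw [this, charpoly_map, hB0, Polynomial.map_prod]
        simp
      have hcpΩ2 : (ζ' • (BB 1).adjugate).charpoly =
          ∏ k, (Polynomial.X - Polynomial.C (φ (t k : O))) := by
        rw [← hM₂φ, charpoly_map, hcpM₂, Polynomial.map_prod]
        simp
      obtain ⟨hp1, hp2⟩ := hprop (BB 0) (ζ' • (BB 1).adjugate) hcpΩ0 hcpΩ2 hd
      set b' : Mat r Ω := (δ Ω (BB 0) (ζ' • (BB 1).adjugate))⁻¹ •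
        N Ω (BB 0) (ζ' • (BB 1).adjugate) with hb'
      -- the polynomial in the entries of `b`
      set F₁ : MvPolynomial (Fin r × Fin r) Ω := aeval (fun s :
        (Fin (g + 1) ⊕ Fin (g + 1)) × Fin r × Fin r =>
          match s with
          | (Sum.inl j, p) =>
            (C ((Fin.cons (BB 0) X : Fin (g + 1) → Mat r Ω) j p.1 p.2) :
              MvPolynomial (Fin r × Fin r) Ω)
          | (Sum.inr j, p) =>
            (Fin.cons (fun p q => MvPolynomial.X (p, q)) (fun j p q => C (Y j p q)) :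
              Fin (g + 1) → Mat r (MvPolynomial (Fin r × Fin r) Ω)) j p.1 p.2) F with hF₁
      have hF₁e : ∀ bb : Mat r Ω, eval (fun p => bb p.1 p.2) F₁ =
          eval (ccoord (Fin.cons (BB 0) X : Fin (g + 1) → Mat r Ω) (Fin.cons bb Y)) F := by
        intro bb
        rw [hF₁, map_aeval]
        have h5 : (eval fun p : Fin r × Fin r => bb p.1 p.2).comp
            (algebraMap Ω (MvPolynomial (Fin r × Fin r) Ω)) = RingHom.id Ω := by
          ext c; simp
        rw [h5]
        change eval₂ _ _ F = eval₂ _ _ F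
        congr 1
        funext s
        rcases s with ⟨j | j, p⟩
        · exact eval_C _
        · refine Fin.cases ?_ (fun j => ?_) j
          · exact eval_X _
          · exact eval_C _
      have hgoal : eval (ccoord (Fin.cons (BB 0) X : Fin (g + 1) → Mat r Ω) (Fin.cons b' Y)) F
          = 0 := by
        rw [← hF₁e]
        refine conj_density i ι hι (Units.map (i : O →* O') v) ?_ t ?_ (B 0) M₂
          (cap i hi hcap t ht (B 0) hB0) (cap i hi hcap t ht M₂ hcpM₂) F₁ ?_ b' hp1 ?_
        · intro m hm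
          apply hv m
          rw [← map_zpow] at hm
          apply Units.ext
          apply hi
          have h3 := congrArg (fun u : O'ˣ => (u : O')) hm
          simp only [Units.coe_map, MonoidHom.coe_coe, Units.val_one] at h3
          rw [h3, Units.val_one, map_one]
        · intro k l hkl hc
          have h2 := ht k l hkl
          rw [hi hc, sub_self] at h2
          exact not_isUnit_zero h2
        · intro bb hbb1 hbb2
          have h2 : (fun p : Fin r × Fin r => ι (bb p.1 p.2)) =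
            fun p => (bb.map ι) p.1 p.2 := rfl
          rw [h2, hF₁e]
          have h3 : ccoord (Fin.cons (BB 0) X : Fin (g + 1) → Mat r Ω) (Fin.cons (bb.map ι) Y) =
              fun s => ι (ccoord (Fin.cons ((B 0).map i) (fun j => (x j).map i) :
                Fin (g + 1) → Mat r O') (Fin.cons bb (fun j => (y j).map i)) s) := by
            funext s
            rcases s with ⟨j | j, p⟩
            · refine Fin.cases ?_ (fun j => ?_) j <;> rfl
            · refine Fin.cases ?_ (fun j => ?_) j <;> rfl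
          rw [h3]
          apply hF
          have hdet : ∀ M : Mat r O, M.det = 1 → (M.map i).det = 1 := by
            intro M hM
            have := i.map_det M
            rw [hM, map_one] at this
            exact this.symm
          refine relB (i ζ) (fun j => (x j).map i) (fun j => (y j).map i)
            (fun j => (B j).map i) (fun j => hdet _ (hx j)) (fun j => hdet _ (hy j))
            (hdet _ hdB0) ?_ (M₂.map i) bb ?_ hbb1 hbb2
          · rw [← Asm.sword_map, ← Asm.wval_map, hw]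
            exact Matrix.map_one i (map_zero i) (map_one i)
          · have h4 := congrArg (fun M : Mat r O => M.map i) hM₂B
            simp only [Matrix.map_mul, Matrix.map_one i (map_zero i) (map_one i)] at h4
            have h5 : ((z : O) • B 1).map i = i ζ • (B 1).map i := by
              rw [Asm.smul_map i, hz]
            rw [h5] at h4
            exact h4
        · rw [hM₂φ]
          exact hp2
      rw [hgoal, mul_zero]
    · intro j
      fin_cases j
      · exact ha
      · exact hcpA1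
  -- conclusion
  have hd1 : δ Ω (A 0) (ζ' • (A 1).adjugate) = 1 := by
    rw [hadj, hA0]; exact hbase1
  have hN1 : N Ω (A 0) (ζ' • (A 1).adjugate) = b 0 := by
    rw [hadj, hA0]; exact hbase2
  obtain ⟨c, hc, hcF⟩ := (hΦ (fun j => a j.succ) (fun j => b j.succ) A).2 (by rw [hd1]; exact one_ne_zero)
  rw [hzero, hd1, hN1, inv_one, one_smul, hA0] at hcF
  have h5 : (Fin.cons (a 0) (fun j : Fin g => a j.succ) : Fin (g + 1) → Mat r Ω) = a := by
    funext j
    refine Fin.cases ?_ (fun j => ?_) j <;> simp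
  have h6 : (Fin.cons (b 0) (fun j : Fin g => b j.succ) : Fin (g + 1) → Mat r Ω) = b := by
    funext j
    refine Fin.cases ?_ (fun j => ?_) j <;> simp
  rw [h5, h6] at hcF
  rcases mul_eq_zero.1 hcF.symm with h7 | h7
  · exact absurd h7 hc
  · exact h7

end main

end Pool.Agent.MP_3f0e22_ag.V3_CUT3

namespace Pool.Agent.MP_3f0e22_ag

alias cut_density := V3_CUT3.cut_density

end Pool.Agent.MP_3f0e22_ag
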