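import Pool.Agent.MP_3f0e22_ag.Defs3
import Pool.Agent.MP_3f0e22_ag.RK2

/-!
# MP_3f0e22_ag, version 3: RKc (the transcendence degree: exact bounds, submodularity)
-/

set_option autoImplicit false

open Matrix MvPolynomial

namespace Pool.Agent.MP_3f0e22_ag

namespace V3_RKc

section RK

variable {K E : Type*} [Field K] [Field E] [Algebra K E]

theorem Bd_exact {A C : Set E} (hA : A.Finite) (hC : C.Finite) (h : C ⊆ acl K A) :
    Bd K C A (rk K A - rk K C) := by
  classical
  -- the sizes of the finite `T ⊆ A` with `rk (C ∪ T) = rk C + |T|` are bounded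
  have hb : ∀ T : Finset E, (T : Set E) ⊆ A → rk K (C ∪ T) ≤ rk K A := by
    intro T hT
    refine rk_mono hA (Set.union_subset h ?_)
    exact hT.trans (subset_acl _)
  let P : ℕ → Prop := fun n => ∃ T : Finset E, (T : Set E) ⊆ A ∧
    rk K (C ∪ (T : Set E)) = rk K C + T.card ∧ T.card = n
  have hP0 : P 0 := ⟨∅, by simp, by simp, by simp⟩
  have hPb : ∀ n, P n → n ≤ rk K A := by
    rintro n ⟨T, hT, hr, rfl⟩
    have := hb T hT
    omega
  obtain ⟨n, ⟨T, hT, hr, hn⟩, hmax⟩ : ∃ n, P n ∧ ∀ m, P m → m ≤ n := by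
    have h1 := Nat.findGreatest_spec (P := P) (Nat.zero_le (rk K A)) hP0
    exact ⟨_, h1, fun m hm => Nat.le_findGreatest (hPb m hm) hm⟩
  have hsub : A ⊆ acl K (C ∪ (T : Set E)) := by
    intro x hx
    by_contra hcon
    have h1 : rk K (insert x (C ∪ (T : Set E))) = rk K (C ∪ (T : Set E)) + 1 :=
      rk_insert (hC.union T.finite_toSet) hcon
    have hxT : x ∉ T := fun hx' => hcon (subset_acl _ (Or.inr (by exact_mod_cast hx')))
    have h2 : P (n + 1) := by
      refine ⟨insert x T, ?_, ?_, ?_⟩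
      · rw [Finset.coe_insert]
        exact Set.insert_subset hx hT
      · rw [Finset.coe_insert, Set.union_insert, h1, hr, Finset.card_insert_of_notMem hxT]
        omega
      · rw [Finset.card_insert_of_notMem hxT, hn]
    have := hmax _ h2
    omega
  refine ⟨T, ?_, hsub⟩
  have := hb T hT
  omega

theorem rk_submod {A B C : Set E} (hA : A.Finite) (hB : B.Finite) (hC : C.Finite)
    (h : C ⊆ acl K A) : rk K (A ∪ B) + rk K C ≤ rk K A + rk K (B ∪ C) := by
  have h1 : Bd K (B ∪ C) A (rk K A - rk K C) :=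
    (Bd_exact hA hC h).mono (Set.subset_union_right.trans (subset_acl _))
      (Set.subset_union_right.trans (subset_acl _)) le_rfl
  have h2 : rk K ((B ∪ C) ∪ A) ≤ rk K (B ∪ C) + (rk K A - rk K C) :=
    rk_union (hB.union hC) h1
  have h3 : rk K C ≤ rk K A := rk_mono hA h
  have h4 : rk K (A ∪ B) ≤ rk K ((B ∪ C) ∪ A) := by
    refine rk_mono ((hB.union hC).union hA) ?_
    refine Set.Subset.trans ?_ (subset_acl _)
    exact Set.union_subset Set.subset_union_right
      (Set.subset_union_left.trans Set.subset_union_left)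
  omega

theorem rk_union_le {A B : Set E} (hA : A.Finite) (hB : B.Finite) :
    rk K (A ∪ B) ≤ rk K A + rk K B := by
  have h1 : Bd K A B (rk K B) :=
    (Bd_rk hB).mono (Set.empty_subset _) (Set.subset_union_right.trans (subset_acl _)) le_rfl
  exact rk_union hA h1

end RK

end V3_RKc

end Pool.Agent.MP_3f0e22_ag

namespace Pool.Agent.MP_3f0e22_ag

alias Bd_exact := V3_RKc.Bd_exact
alias rk_submod := V3_RKc.rk_submod
alias rk_union_le := V3_RKc.rk_union_le

end Pool.Agent.MP_3f0e22_ag
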