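import Pool.Agent.MP_3f0e22_ag.Defs3
import Pool.Agent.MP_3f0e22_ag.RK2
import Pool.Agent.MP_3f0e22_ag.VRKc

set_option autoImplicit false

open Matrix MvPolynomial NumberField

namespace Pool.Agent.MP_3f0e22_ag.V3_DG3

section DG

variable {K E : Type*} [Field K] [Field E] [Algebra K E] {r : ℕ}

theorem mem_of_zpow {S : Set E} {x : E} {n : ℤ} (hn : n ≠ 0) (h : x ^ n ∈ acl K S) :
    x ∈ acl K S := by
  have h1 : x ^ n.natAbs ∈ acl K S := by
    have h2 : x ^ (n.natAbs : ℤ) ∈ acl K S := by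
      rcases Int.natAbs_eq n with h2 | h2
      · rw [← h2]; exact h
      · have h3 : (n.natAbs : ℤ) = -n := by omega
        rw [h3, _root_.zpow_neg]
        exact inv_mem h
    rwa [zpow_natCast] at h2
  exact RK2.mem_of_isAlgebraic (IsAlgebraic.of_pow (Int.natAbs_pos.2 hn)
    (isAlgebraic_algebraMap (⟨_, h1⟩ : acl K S)))

/-- DG3 -/
theorem mulInd_of_rk (hr : 1 ≤ r) (β : Fin r → E) (h1 : ∏ i, β i = 1)
    (h : r - 1 ≤ rk K (Set.range β)) : MulInd β := by
  classical
  have hβ0 : ∀ i, β i ≠ 0 := fun i =>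
    Finset.prod_ne_zero_iff.1 (by rw [h1]; exact one_ne_zero) i (Finset.mem_univ i)
  refine ⟨hβ0, h1, ?_⟩
  intro m hm i j
  by_contra hij
  have hne : j ≠ i := by
    rintro rfl; exact hij rfl
  set T : Finset E := ((Finset.univ.erase i).erase j).image β with hT
  have hmemT : ∀ k ∈ (Finset.univ.erase i).erase j, β k ∈ acl K (T : Set E) := by
    intro k hk
    apply subset_acl
    rw [Finset.mem_coe, hT]
    exact Finset.mem_image_of_mem _ hk
  have e1 : ∏ k, β k ^ (m k - m i) = 1 := by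
    have : ∀ k, β k ^ (m k - m i) = β k ^ m k / β k ^ m i := fun k => zpow_sub₀ (hβ0 k) _ _
    simp_rw [this]
    rw [Finset.prod_div_distrib, hm, Finset.prod_zpow, h1]
    simp
  have e2 : β j ^ (m j - m i) * ∏ k ∈ (Finset.univ.erase i).erase j, β k ^ (m k - m i) = 1 := by
    rw [Finset.mul_prod_erase (Finset.univ.erase i) (fun k => β k ^ (m k - m i))
      (Finset.mem_erase.2 ⟨hne, Finset.mem_univ _⟩)]
    have := Finset.mul_prod_erase Finset.univ (fun k => β k ^ (m k - m i)) (Finset.mem_univ i)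
    rw [e1] at this
    simpa using this
  have hj : β j ∈ acl K (T : Set E) := by
    apply mem_of_zpow (n := m j - m i) (by omega)
    rw [eq_inv_of_mul_eq_one_left e2]
    apply inv_mem
    apply prod_mem
    intro k hk
    exact zpow_mem (hmemT k hk) _
  have e3 : β i * ∏ k ∈ Finset.univ.erase i, β k = 1 := by
    rw [Finset.mul_prod_erase Finset.univ β (Finset.mem_univ i), h1]
  have hi : β i ∈ acl K (T : Set E) := by
    rw [eq_inv_of_mul_eq_one_left e3]
    apply inv_mem
    apply prod_mem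
    intro k hk
    by_cases hkj : k = j
    · rw [hkj]; exact hj
    · exact hmemT k (Finset.mem_erase.2 ⟨hkj, hk⟩)
  have hsub : Set.range β ⊆ acl K (∅ ∪ (T : Set E)) := by
    rw [Set.empty_union]
    rintro _ ⟨k, rfl⟩
    by_cases hki : k = i
    · rw [hki]; exact hi
    · by_cases hkj : k = j
      · rw [hkj]; exact hj
      · exact hmemT k (Finset.mem_erase.2 ⟨hkj, Finset.mem_erase.2 ⟨hki, Finset.mem_univ _⟩⟩)
  have hcard : T.card ≤ r - 2 := by
    rw [hT]
    refine Finset.card_image_le.trans ?_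
    rw [Finset.card_erase_of_mem (Finset.mem_erase.2 ⟨hne, Finset.mem_univ _⟩),
      Finset.card_erase_of_mem (Finset.mem_univ _), Finset.card_univ, Fintype.card_fin]
    omega
  have h2 : rk K (Set.range β) ≤ r - 2 := RK1.rk_le ⟨T, hcard, hsub⟩
  have h3 : (i : ℕ) ≠ j := fun h => hne (Fin.ext h.symm)
  have h4 := i.2
  have h5 := j.2
  omega

end DG

end Pool.Agent.MP_3f0e22_ag.V3_DG3

namespace Pool.Agent.MP_3f0e22_ag

alias mulInd_of_rk := V3_DG3.mulInd_of_rk

end Pool.Agent.MP_3f0e22_ag
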