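import Pool.Agent.MP_3f0e22_ag.Defs2

/-!
# MP_3f0e22_ag, version 2: block CHN, chains of eigenvectors
-/

set_option autoImplicit false

open Matrix MvPolynomial

namespace Pool.Agent.MP_3f0e22_ag

section CHN

variable {K E : Type*} [Field K] [Field E] [Algebra K E]

theorem Ch.finite {r : ℕ} {M : Mat r E} {S : Set E} (h : Ch r M S) : S.Finite := by
  induction r generalizing S with
  | zero =>
    have h' : S = ∅ := h
    rw [h']
    exact Set.finite_empty
  | succ n ih =>
    obtain ⟨p, x, l, S', -, -, -, h', rfl⟩ := h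
    exact (Set.finite_range x).union (ih h')

theorem CHN_det {R : Type*} [CommRing R] {n : ℕ} {p p' : Fin (n + 1)} {x z : Fin (n + 1) → R}
    {q : Mat (n + 1) R} {l : R} (hx : x p = 1) (h : q *ᵥ z = l • x) :
    z p' * q.det = (-1) ^ ((p : ℕ) + p') * l *
      (Matrix.of fun i j : Fin n =>
        q (p.succAbove i) (p'.succAbove j) - x (p.succAbove i) * q p (p'.succAbove j)).det := by
  have h1 : (q.updateCol p' (l • x)).det = z p' * q.det := by
    rw [← Matrix.cramer_apply, ← h, Matrix.cramer_eq_adjugate_mulVec, Matrix.mulVec_mulVec,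
      Matrix.adjugate_mul, Matrix.smul_mulVec, Matrix.one_mulVec, Pi.smul_apply, smul_eq_mul,
      mul_comm]
  rw [← h1]
  set B : Mat (n + 1) R := fun i j =>
    (q.updateCol p' (l • x)) i j - (if i = p then 0 else x i) * (q.updateCol p' (l • x)) p j
    with hB
  have h2 : (q.updateCol p' (l • x)).det = B.det := by
    refine (Matrix.det_eq_of_forall_row_eq_smul_add_const (fun i => if i = p then 0 else x i) p
      (by simp) (fun i j => ?_)).symm.symm
    simp only [hB]
    by_cases hi : i = p
    · simp [hi]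
    · simp [hi]
  have h3 : ∀ i, B i p' = if i = p then l else 0 := by
    intro i
    simp only [hB, Matrix.updateCol_self, Pi.smul_apply, smul_eq_mul, hx]
    by_cases hi : i = p
    · simp [hi, hx]
    · simp [hi]
      ring
  rw [h2, Matrix.det_succ_column B p', Finset.sum_eq_single p]
  · rw [h3, if_pos rfl]
    congr 2
    ext i j
    have hj : p'.succAbove j ≠ p' := Fin.succAbove_ne p' j
    have hi : p.succAbove i ≠ p := Fin.succAbove_ne p i
    change B (p.succAbove i) (p'.succAbove j) = _
    simp only [hB, Matrix.updateCol_ne hj, if_neg hi, Matrix.of_apply]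
  · intro i _ hi
    rw [h3, if_neg hi]
    simp
  · intro hp
    exact absurd (Finset.mem_univ p) hp

theorem qt_charpoly {n : ℕ} {p : Fin (n + 1)} {x : Fin (n + 1) → E} {M : Mat (n + 1) E} {l : E}
    (hx : x p = 1) (h : M *ᵥ x = l • x) :
    M.charpoly = (Polynomial.X - Polynomial.C l) * (qt p x M).charpoly := by
  have h1 : M.charmatrix *ᵥ (fun i => Polynomial.C (x i)) =
      (Polynomial.X - Polynomial.C l) • (fun i => Polynomial.C (x i)) := by
    ext1 i
    have h2 : ∑ j, M i j * x j = l * x i := congrFun h i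
    simp only [Matrix.mulVec, dotProduct, Pi.smul_apply, smul_eq_mul, Matrix.charmatrix_apply,
      sub_mul, Finset.sum_sub_distrib, ← Polynomial.C_mul]
    rw [← h2, map_sum]
    congr 1
    simp [Matrix.diagonal_apply]
  have h2 := CHN_det (p := p) (p' := p) (x := fun i => Polynomial.C (x i))
    (z := fun i => Polynomial.C (x i)) (q := M.charmatrix) (l := Polynomial.X - Polynomial.C l)
    (by simp [hx]) h1
  simp only [hx, Polynomial.C_1, one_mul] at h2
  rw [Even.neg_one_pow ⟨(p : ℕ), rfl⟩, one_mul] at h2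
  rw [Matrix.charpoly, h2, Matrix.charpoly]
  congr 2
  ext1 i j
  have hj : p ≠ p.succAbove j := (Fin.succAbove_ne p j).symm
  simp only [Matrix.of_apply, Matrix.charmatrix_apply, qt, Matrix.diagonal_apply, if_neg hj,
    Polynomial.C_sub, Polynomial.C_mul, (Fin.succAbove_right_injective (p := p)).eq_iff]
  ring

theorem qt2_self {n : ℕ} (p : Fin (n + 1)) (x : Fin (n + 1) → E) (M : Mat (n + 1) E) :
    qt2 p p x M = qt p x M := rfl

theorem qt2_mul {n : ℕ} {p p' p'' : Fin (n + 1)} {x x' : Fin (n + 1) → E} {M q : Mat (n + 1) E}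
    {l : E} (hx : x p = 1) (hx' : x' p' = 1) (h : M *ᵥ x' = l • x) :
    qt2 p p'' x (M * q) = qt2 p p' x M * qt2 p' p'' x' q := by
  have hM : ∀ i, ∑ k, M i k * x' k = l * x i := fun i => congrFun h i
  ext i j
  simp only [qt2, Matrix.mul_apply]
  have h1 : ∀ k, (M (p.succAbove i) k - x (p.succAbove i) * M p k) * q k (p''.succAbove j) =
      M (p.succAbove i) k * q k (p''.succAbove j) -
        x (p.succAbove i) * (M p k * q k (p''.succAbove j)) := fun k => by ring
  have h2 : ∑ k, (M (p.succAbove i) k - x (p.succAbove i) * M p k) * x' k = 0 := by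
    have : ∀ k, (M (p.succAbove i) k - x (p.succAbove i) * M p k) * x' k =
        M (p.succAbove i) k * x' k - x (p.succAbove i) * (M p k * x' k) := fun k => by ring
    simp only [this, Finset.sum_sub_distrib, ← Finset.mul_sum, hM, hx]
    ring
  rw [Finset.mul_sum, ← Finset.sum_sub_distrib]
  simp only [← h1]
  rw [Fin.sum_univ_succAbove _ p'] at h2 ⊢
  rw [hx', mul_one] at h2
  have h3 : ∀ k : Fin n, (M (p.succAbove i) (p'.succAbove k) -
        x (p.succAbove i) * M p (p'.succAbove k)) *
      (q (p'.succAbove k) (p''.succAbove j) - x' (p'.succAbove k) * q p' (p''.succAbove j)) =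
      (M (p.succAbove i) (p'.succAbove k) - x (p.succAbove i) * M p (p'.succAbove k)) *
        q (p'.succAbove k) (p''.succAbove j) -
      (M (p.succAbove i) (p'.succAbove k) - x (p.succAbove i) * M p (p'.succAbove k)) *
        x' (p'.succAbove k) * q p' (p''.succAbove j) := fun k => by ring
  simp only [h3, Finset.sum_sub_distrib, ← Finset.sum_mul]
  linear_combination q p' (p''.succAbove j) * h2

theorem qt2_det {n : ℕ} {p p' : Fin (n + 1)} {x z : Fin (n + 1) → E} {q : Mat (n + 1) E}
    {l : E} (hx : x p = 1) (h : q *ᵥ z = l • x) :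
    z p' * q.det = (-1) ^ ((p : ℕ) + p') * l * (qt2 p p' x q).det :=
  CHN_det hx h

theorem qt_conj {n : ℕ} {p : Fin (n + 1)} {x : Fin (n + 1) → E} {M : Mat (n + 1) E} {l : E}
    (hx : x p = 1) (h : M *ᵥ x = l • x) : ∃ g g' : Mat (n + 1) E, g * g' = 1 ∧ g' * g = 1 ∧
      (∀ i : Fin n, g' *ᵥ Pi.single (p.succAbove i) 1 = Pi.single (p.succAbove i) 1) ∧
      g' *ᵥ Pi.single p 1 = x ∧ (∀ i j : Fin n, (g * M * g') (p.succAbove i) (p.succAbove j) = qt p x M i j) ∧
      (∀ i : Fin n, (g * M * g') (p.succAbove i) p = 0) ∧ (g * M * g') p p = l := by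
  set v : Fin (n + 1) → E := x - Pi.single p 1 with hv
  have hvp : v p = 0 := by simp [hv, hx]
  have hvi : ∀ i : Fin n, v (p.succAbove i) = x (p.succAbove i) := fun i => by
    simp [hv]
  set N : Mat (n + 1) E := Matrix.vecMulVec v (Pi.single p 1) with hN
  have hNN : N * N = 0 := by
    rw [hN, Matrix.vecMulVec_mul_vecMulVec]
    simp [hvp]
  have hNij : ∀ i j, N i j = if j = p then v i else 0 := by
    intro i j
    simp only [hN, Matrix.vecMulVec_apply, Pi.single_apply]
    by_cases hj : j = p <;> simp [hj]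
  have hMv : ∀ i, ∑ j, M i j * x j = l * x i := fun i => congrFun h i
  -- entries of `g * A` and `A * g'`
  have hl : ∀ (A : Mat (n + 1) E) i j, ((1 - N) * A) i j = A i j - v i * A p j := by
    intro A i j
    rw [sub_mul, one_mul, Matrix.sub_apply, Matrix.mul_apply]
    simp [hNij]
  have hr : ∀ (A : Mat (n + 1) E) i j, j ≠ p → (A * (1 + N)) i j = A i j := by
    intro A i j hj
    rw [mul_add, mul_one, Matrix.add_apply, Matrix.mul_apply]
    simp [hNij, hj]
  have hrp : ∀ (A : Mat (n + 1) E) i, (A * (1 + N)) i p = ∑ j, A i j * x j := by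
    intro A i
    rw [mul_add, mul_one, Matrix.add_apply, Matrix.mul_apply]
    simp only [hNij, if_true, hv, Pi.sub_apply, mul_sub, Finset.sum_sub_distrib]
    simp [Pi.single_apply]
  refine ⟨1 - N, 1 + N, ?_, ?_, ?_, ?_, ?_, ?_, ?_⟩
  · rw [sub_mul, mul_add, mul_add, hNN]; simp
  · rw [add_mul, mul_sub, mul_sub, hNN]; simp
  · intro i
    ext k
    have hi : p.succAbove i ≠ p := Fin.succAbove_ne p i
    rw [Matrix.mulVec_single_one, Matrix.col_apply, Matrix.add_apply, hNij, if_neg hi, add_zero,
      Matrix.one_apply, Pi.single_apply]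
  · ext k
    rw [Matrix.mulVec_single_one, Matrix.col_apply, Matrix.add_apply, hNij, if_pos rfl,
      Matrix.one_apply, hv, Pi.sub_apply, Pi.single_apply]
    ring
  · intro i j
    have hj : p.succAbove j ≠ p := Fin.succAbove_ne p j
    rw [hr _ _ _ hj, hl, hvi, qt]
  · intro i
    rw [hrp]
    simp only [hl, hvi, sub_mul, Finset.sum_sub_distrib, mul_assoc, ← Finset.mul_sum, hMv, hx]
    ring
  · rw [hrp]
    simp only [hl, hvp, zero_mul, sub_zero, hMv, hx, mul_one]

theorem exists_ch [IsAlgClosed E] (r : ℕ) (M : Mat r E) : ∃ S, Ch r M S := by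
  classical
  induction r with
  | zero => exact ⟨∅, rfl⟩
  | succ n ih =>
    obtain ⟨l, hl⟩ := Module.End.exists_eigenvalue (Matrix.toLin' M)
    obtain ⟨v, hv⟩ := hl.exists_hasEigenvector
    have hv1 : M *ᵥ v = l • v := by
      have := hv.apply_eq_smul
      rwa [Matrix.toLin'_apply] at this
    have hne : (Finset.univ.filter fun i => v i ≠ 0).Nonempty := by
      obtain ⟨i, hi⟩ := Function.ne_iff.1 hv.2
      exact ⟨i, by simpa using hi⟩
    set p := (Finset.univ.filter fun i => v i ≠ 0).max' hne with hp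
    have hp1 : v p ≠ 0 := by
      have := Finset.max'_mem _ hne
      rw [← hp] at this
      simpa using this
    have hp2 : ∀ i, p < i → v i = 0 := by
      intro i hi
      by_contra hc
      have := Finset.le_max' (Finset.univ.filter fun i => v i ≠ 0) i (by simpa using hc)
      rw [← hp] at this
      exact absurd this (not_le.2 hi)
    obtain ⟨S', hS'⟩ := ih (qt p ((v p)⁻¹ • v) M)
    refine ⟨Set.range ((v p)⁻¹ • v) ∪ S', p, (v p)⁻¹ • v, l, S', ?_, ?_, ?_, hS', rfl⟩
    · simp [hp1]
    · intro i hi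
      simp [hp2 i hi]
    · rw [Matrix.mulVec_smul, hv1, smul_comm]

end CHN

end Pool.Agent.MP_3f0e22_ag
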