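import Pool.Agent.MP_3f0e22_ag.Defs2
import Pool.Agent.MP_3f0e22_ag.Ba

/-! # Q2: `levs_inv`, `boundQ_row` -/

set_option autoImplicit false

open Matrix MvPolynomial

namespace Pool.Agent.MP_3f0e22_ag.Q2

variable {K E : Type*} [Field K] [Field E] [Algebra K E]

/-- block triangularity of the inverse -/
theorem inv_block {r : ℕ} (M : Mat r E) (hM : M.det ≠ 0) (k : ℕ)
    (h : ∀ i j : Fin r, k ≤ (i : ℕ) → (j : ℕ) < k → M i j = 0) :
    ∀ i j : Fin r, k ≤ (i : ℕ) → (j : ℕ) < k → M⁻¹ i j = 0 := by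
  have hu : IsUnit M.det := isUnit_iff_ne_zero.2 hM
  haveI : Invertible M := M.invertibleOfIsUnitDet hu
  have h1 : BlockTriangular M (fun i : Fin r => if (i : ℕ) < k then (0 : ℕ) else 1) := by
    intro i j hij
    simp only at hij
    split_ifs at hij with h2 h3 h3
    · exact absurd hij (lt_irrefl _)
    · exact h i j (not_lt.1 h3) h2
    · exact absurd hij (by norm_num)
    · exact absurd hij (lt_irrefl _)
  have h2 := blockTriangular_inv_of_blockTriangular h1
  intro i j hi hj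
  refine h2 ?_
  simp only
  rw [if_pos hj, if_neg (not_lt.2 hi)]
  norm_num

theorem levs_inv {r : ℕ} (M : Mat r E) (hM : M.det ≠ 0) (c : Fin r → E) (hc : ∀ k, c k ≠ 0) :
    levs (M⁻¹ * diagonal c) = levs M := by
  classical
  have hu : IsUnit M.det := isUnit_iff_ne_zero.2 hM
  have hM' : M⁻¹.det ≠ 0 := by
    rw [det_nonsing_inv, Ring.inverse_eq_inv']
    exact inv_ne_zero hM
  unfold levs
  refine Finset.filter_congr fun k _ => ?_
  constructor
  · intro h
    have h1 : ∀ i j : Fin r, k ≤ (i : ℕ) → (j : ℕ) < k → M⁻¹ i j = 0 := by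
      intro i j hi hj
      have := h i j hi hj
      rw [mul_diagonal] at this
      exact (mul_eq_zero.1 this).resolve_right (hc j)
    have h2 := inv_block M⁻¹ hM' k h1
    rwa [nonsing_inv_nonsing_inv _ hu] at h2
  · intro h i j hi hj
    rw [mul_diagonal, inv_block M hM k h i j hi hj, zero_mul]

theorem boundQ_row {n : ℕ} (B : Set E) (ρ z : Fin (n + 1) → E) (q : Mat (n + 1) E)
    (hq : ent q ⊆ acl K B) (hqd : q.det ≠ 0) (k : ℕ) (p' : Fin (n + 1)) (hkp : k ≤ p')
    (hz : z p' ≠ 0) (hzB : ∀ i, z i ∈ acl K B) (l : E) (hl : l ∈ acl K B)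
    (h1 : ∀ j : Fin (n + 1), (j : ℕ) < k → ∑ i, ρ i * q i j = 0)
    (h2 : ∑ i, ρ i * (q *ᵥ z) i = l) : Bd K B (Set.range ρ) (n - k) := by
  classical
  have hu : IsUnit q.det := isUnit_iff_ne_zero.2 hqd
  have hkn : k ≤ n := by have := p'.2; omega
  set σ : Fin (n + 1) → E := ρ ᵥ* q with hσ
  have hσ1 : ∀ j : Fin (n + 1), (j : ℕ) < k → σ j = 0 := fun j hj => h1 j hj
  have hσ2 : ∑ j, z j * σ j = l := by
    have h3 : ρ ⬝ᵥ (q *ᵥ z) = l := h2
    rw [dotProduct_mulVec] at h3
    rw [← h3, dotProduct]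
    exact Finset.sum_congr rfl fun j _ => mul_comm _ _
  -- the free coordinates
  set e : Fin (n + 1 - k) → Fin (n + 1) := fun t => ⟨k + t, by have := t.2; omega⟩ with he
  have hei : Function.Injective e := by
    intro s t hst
    have := congrArg Fin.val hst
    simp only [he] at this
    exact Fin.ext (by omega)
  have hsum : ∑ t, z (e t) * σ (e t) = l := by
    rw [← hσ2]
    refine (Finset.sum_map Finset.univ ⟨e, hei⟩ (fun j => z j * σ j)).symm.trans ?_
    refine Finset.sum_subset (Finset.subset_univ _) ?_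
    intro j _ hj
    have hjk : (j : ℕ) < k := by
      by_contra hjk
      push Not at hjk
      apply hj
      rw [Finset.mem_map]
      exact ⟨⟨j - k, by have := j.2; omega⟩, Finset.mem_univ _, Fin.ext (by
        simp only [he, Function.Embedding.coeFn_mk]; omega)⟩
    rw [hσ1 j hjk, mul_zero]
  have h3 : Bd K B (Set.range fun t => σ (e t)) (n + 1 - k - 1) := by
    refine Bd.linear _ (fun t => z (e t)) l (fun t => hzB _) hl hsum
      ⟨p' - k, by have := p'.2; omega⟩ ?_
    have : e ⟨p' - k, by have := p'.2; omega⟩ = p' := Fin.ext (by simp only [he]; omega)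
    rw [this]
    exact hz
  refine h3.mono (subset_acl _) ?_ (by omega)
  -- `ρ = σ q⁻¹`
  have hB : acl K B ≤ acl K (B ∪ Set.range fun t => σ (e t)) := acl_mono Set.subset_union_left
  have hσm : ∀ j, σ j ∈ acl K (B ∪ Set.range fun t => σ (e t)) := by
    intro j
    by_cases hjk : (j : ℕ) < k
    · rw [hσ1 j hjk]
      exact zero_mem _
    · refine subset_acl _ (Or.inr ⟨⟨j - k, by have := j.2; omega⟩, ?_⟩)
      have : e ⟨j - k, by have := j.2; omega⟩ = j := Fin.ext (by simp only [he]; omega)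
      simp only [this]
  have hqi : ∀ i j, q⁻¹ i j ∈ acl K (B ∪ Set.range fun t => σ (e t)) := by
    intro i j
    rw [inv_def, Ring.inverse_eq_inv', Matrix.smul_apply, smul_eq_mul]
    have hqF : ∀ i j, q i j ∈ acl K (B ∪ Set.range fun t => σ (e t)) := fun i j => hB (hq ⟨i, j, rfl⟩)
    exact mul_mem (inv_mem (det_mem_of _ q hqF)) (adjugate_mem_of _ q hqF i j)
  have hρ : ρ = σ ᵥ* q⁻¹ := by
    rw [hσ, vecMul_vecMul, mul_nonsing_inv _ hu, vecMul_one]
  rintro _ ⟨i, rfl⟩
  rw [hρ]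
  change ∑ j, σ j * q⁻¹ j i ∈ _
  exact sum_mem fun j _ => mul_mem (hσm j) (hqi j i)

end Pool.Agent.MP_3f0e22_ag.Q2

namespace Pool.Agent.MP_3f0e22_ag

alias boundQ_row := Q2.boundQ_row
alias levs_inv := Q2.levs_inv

end Pool.Agent.MP_3f0e22_ag
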