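import Pool.Agent.MP_3f0e22_ag.Q1
import Pool.Agent.MP_3f0e22_ag.Q2
import Pool.Agent.MP_3f0e22_ag.CHN
import Pool.Agent.MP_3f0e22_ag.RK2
import Pool.Agent.MP_3f0e22_ag.Ba

/-! # MP_3f0e22_ag, version 2, row Q3: `boundQ` -/

set_option autoImplicit false

open Matrix MvPolynomial

namespace Pool.Agent.MP_3f0e22_ag.Q3

variable {K E : Type*} [Field K] [Field E] [Algebra K E]

theorem coeff_quot {F : IntermediateField K E} {A P : Polynomial E} {l : E}
    (h : A = (Polynomial.X - Polynomial.C l) * P) (hA : ∀ i, A.coeff i ∈ F) (hl : l ∈ F) (i : ℕ) :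
    P.coeff i ∈ F := by
  have h1 : ∀ k i : ℕ, P.natDegree < i + k → P.coeff i ∈ F := by
    intro k
    induction k with
    | zero =>
      intro i hi
      rw [Polynomial.coeff_eq_zero_of_natDegree_lt (by simpa using hi)]
      exact zero_mem F
    | succ k ih =>
      intro i hi
      have h2 : P.coeff i = A.coeff (i + 1) + l * P.coeff (i + 1) := by
        rw [h, sub_mul, Polynomial.coeff_sub, Polynomial.coeff_X_mul, Polynomial.coeff_C_mul]
        ring
      rw [h2]
      exact add_mem (hA _) (mul_mem hl (ih (i + 1) (by omega)))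
  exact h1 (P.natDegree + 1) i (by omega)

theorem eig_mem {r : ℕ} {B : Set E} {a : Mat (r + 1) E} {p : Fin (r + 1)} {x : Fin (r + 1) → E}
    {l : E} (hc : cpc a ⊆ acl K B) (hx1 : x p = 1) (hax : a *ᵥ x = l • x) :
    l ∈ acl K B ∧ cpc (qt p x a) ⊆ acl K B := by
  have h1 := qt_charpoly hx1 hax
  have hA : ∀ i, a.charpoly.coeff i ∈ acl K B := fun i => hc ⟨i, rfl⟩
  have hl : l ∈ acl K B := by
    refine acl_isAlg (p := a.charpoly) hA (Matrix.charpoly_monic a).ne_zero ?_
    rw [h1]
    simp
  refine ⟨hl, ?_⟩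
  rintro _ ⟨i, rfl⟩
  exact coeff_quot h1 hA hl i

theorem Bd_x {n : ℕ} (B : Set E) (p : Fin (n + 1)) (x : Fin (n + 1) → E) (hx1 : x p = 1)
    (hx0 : ∀ i, p < i → x i = 0) : Bd K B (Set.range x) p := by
  classical
  refine ⟨(Finset.univ.filter fun i : Fin (n + 1) => i < p).image x, ?_, ?_⟩
  · refine Finset.card_image_le.trans ?_
    have h : (Finset.univ.filter fun i : Fin (n + 1) => i < p) = Finset.Iio p := by
      ext i
      simp
    rw [h, Fin.card_Iio]
  · rintro _ ⟨i, rfl⟩
    rcases lt_trichotomy i p with h | h | h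
    · apply subset_acl
      right
      simp only [Finset.coe_image, Finset.coe_filter, Finset.mem_univ, true_and]
      exact ⟨i, h, rfl⟩
    · subst h
      rw [hx1]
      exact one_mem _
    · rw [hx0 i h]
      exact zero_mem _

theorem exists_last {n : ℕ} (z : Fin (n + 1) → E) (hz : z ≠ 0) :
    ∃ p' : Fin (n + 1), z p' ≠ 0 ∧ ∀ i, p' < i → z i = 0 := by
  classical
  have h1 : (Finset.univ.filter fun i => z i ≠ 0).Nonempty := by
    by_contra h
    rw [Finset.not_nonempty_iff_eq_empty] at h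
    apply hz
    funext i
    by_contra hi
    have : i ∈ (Finset.univ.filter fun i => z i ≠ 0) := by simpa using hi
    rw [h] at this
    simp at this
  refine ⟨_, (Finset.mem_filter.1 (Finset.max'_mem _ h1)).2, ?_⟩
  intro i hi
  by_contra hzi
  have h2 := Finset.le_max' (Finset.univ.filter fun i => z i ≠ 0) i (by simpa using hzi)
  exact absurd hi (not_lt.2 h2)

theorem kmax_spec {r : ℕ} (M : Mat r E) (p : Fin r) (i : Fin r) (hi : kmax M p ≤ i) (j : Fin r)
    (hj : (j : ℕ) < kmax M p) : M i j = 0 := by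
  have h0 : kmax M p ∈ (levs M).filter (· ≤ (p : ℕ)) := by
    have hne : ((levs M).filter (· ≤ (p : ℕ))).Nonempty := by
      by_contra h
      rw [Finset.not_nonempty_iff_eq_empty] at h
      rw [kmax, h] at hj
      simp at hj
    obtain ⟨b, hb, hb2⟩ := Finset.exists_mem_eq_sup _ hne id
    rw [kmax, hb2]
    exact hb
  have h1 := (Finset.mem_filter.1 h0).1
  classical
  simp only [levs, Finset.mem_filter] at h1
  exact h1.2 i j hi hj

theorem kmax_le {r : ℕ} (M : Mat r E) (p : ℕ) : kmax M p ≤ p := by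
  rw [kmax]
  refine Finset.sup_le fun b hb => ?_
  exact (Finset.mem_filter.1 hb).2

/-- (Q) -/
theorem boundQ (r : ℕ) (B : Set E) (a q : Mat r E) (S : Set E) (hq : ent q ⊆ acl K B)
    (hqd : q.det ≠ 0) (had : a.det ≠ 0) (hc : cpc a ⊆ acl K B) (hS : Ch r a S) :
    ∃ n, n + (levs (a * q)).card + (if 3 ≤ r ∧ (levs (a * q)).Nonempty then 1 else 0) ≤
      r * (r - 1) ∧ Bd K B (ent a ∪ S) n := by
  induction r generalizing B S with
  | zero =>
    refine ⟨0, ?_, ?_⟩
    · simp [levs]
    · have hS' : S = ∅ := hS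
      refine Bd.of_subset ?_
      rw [hS']
      rintro _ (⟨i, _⟩ | h)
      · exact i.elim0
      · exact absurd h (Set.notMem_empty _)
  | succ n ih =>
    obtain ⟨p, x, l, S', hx1, hx0, hax, hS', rfl⟩ := hS
    have hunit : IsUnit q.det := isUnit_iff_ne_zero.2 hqd
    obtain ⟨z, hzdef⟩ : ∃ z, z = q⁻¹ *ᵥ x := ⟨_, rfl⟩
    have hqz : q *ᵥ z = x := by
      rw [hzdef, Matrix.mulVec_mulVec, Matrix.mul_nonsing_inv _ hunit, Matrix.one_mulVec]
    have hz : z ≠ 0 := by
      intro h
      rw [h, Matrix.mulVec_zero] at hqz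
      rw [← hqz] at hx1
      simp at hx1
    obtain ⟨p', hzp', hz0⟩ := exists_last z hz
    have hqz1 : q *ᵥ z = (1 : E) • x := by rw [hqz, one_smul]
    -- determinants
    have hqd' : (qt2 p p' x q).det ≠ 0 := by
      intro h
      have h1 := qt2_det (p' := p') hx1 hqz1
      rw [h, mul_zero] at h1
      exact mul_ne_zero hzp' hqd h1
    have hdet := qt2_det (p' := p) hx1 hax
    rw [hx1, one_mul, qt2_self] at hdet
    have had' : (qt p x a).det ≠ 0 := by
      intro h
      rw [h, mul_zero] at hdet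
      exact had hdet
    obtain ⟨hl, hc'⟩ := eig_mem hc hx1 hax
    have hBB' : acl K B ≤ acl K (B ∪ Set.range x) := acl_mono Set.subset_union_left
    have hxB' : ∀ i, x i ∈ acl K (B ∪ Set.range x) := fun i =>
      subset_acl _ (Or.inr ⟨i, rfl⟩)
    have hqB' : ∀ i j, q i j ∈ acl K (B ∪ Set.range x) := fun i j => hBB' (hq ⟨i, j, rfl⟩)
    have hq' : ent (qt2 p p' x q) ⊆ acl K (B ∪ Set.range x) := by
      rintro _ ⟨i, j, rfl⟩
      exact sub_mem (hqB' _ _) (mul_mem (hxB' _) (hqB' _ _))
    obtain ⟨n', hn', hBd'⟩ := ih (B ∪ Set.range x) (qt p x a) (qt2 p p' x q) S' hq' hqd' had'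
      (hc'.trans hBB') hS'
    obtain ⟨hk1, hk2⟩ := boundQ_lev a q had hqd p p' x z l hx1 hx0 hax hqz hzp' hz0
    have hzB : ∀ i, z i ∈ acl K (B ∪ Set.range x) := by
      intro i
      refine solve_mem _ q hqB' hqd z (fun i => ?_) i
      rw [hqz]
      exact hxB' i
    have hrow : Bd K (B ∪ Set.range x) (Set.range fun i => a p i) (n - kmax (a * q) p) := by
      refine boundQ_row _ (fun i => a p i) z q (by rintro _ ⟨i, j, rfl⟩; exact hqB' i j) hqd _ p'
        hk1 hzp' hzB l (hBB' hl) ?_ ?_
      · intro j hj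
        have := kmax_spec (a * q) p p (kmax_le _ _) j hj
        rwa [Matrix.mul_apply] at this
      · have h1 := congrFun hax p
        rw [Pi.smul_apply, hx1, smul_eq_mul, mul_one] at h1
        rw [hqz]
        exact h1
    have hall := (Bd_x (K := K) B p x hx1 hx0).trans (hrow.trans (hBd'.mono
      (B' := (B ∪ Set.range x) ∪ Set.range fun i => a p i)
      (Set.subset_union_left.trans (subset_acl _))
      (Set.subset_union_right.trans (subset_acl _)) le_rfl))
    refine ⟨p + (n - kmax (a * q) p + n'), ?_, hall.mono (subset_acl _) ?_ le_rfl⟩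
    · have h3 : kmax (a * q) p ≤ n := hk1.trans (Nat.lt_succ_iff.1 p'.2)
      have h4 : (n + 1) * (n + 1 - 1) = n * (n - 1) + 2 * n := by
        cases n with
        | zero => rfl
        | succ m => simp; ring
      rw [h4]
      omega
    · have hsub : ∀ y, (y ∈ Set.range x ∨ y ∈ (Set.range fun i => a p i) ∨ y ∈ ent (qt p x a) ∨
          y ∈ S') → y ∈ acl K (B ∪ (Set.range x ∪ ((Set.range fun i => a p i) ∪
            (ent (qt p x a) ∪ S')))) := by
        intro y hy
        exact subset_acl _ (Or.inr hy)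
      have hB2 : acl K B ≤ acl K (B ∪ (Set.range x ∪ ((Set.range fun i => a p i) ∪
            (ent (qt p x a) ∪ S')))) := acl_mono Set.subset_union_left
      have hx2 := fun i => hsub (x i) (Or.inl ⟨i, rfl⟩)
      have hr2 := fun i => hsub (a p i) (Or.inr (Or.inl ⟨i, rfl⟩))
      have ha2 := fun i j => hsub (qt p x a i j) (Or.inr (Or.inr (Or.inl ⟨i, j, rfl⟩)))
      have hij : ∀ (i : Fin (n + 1)) (j : Fin n), a i (p.succAbove j) ∈
          acl K (B ∪ (Set.range x ∪ ((Set.range fun i => a p i) ∪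
            (ent (qt p x a) ∪ S')))) := by
        intro i j
        rcases Fin.eq_self_or_eq_succAbove p i with h | ⟨i', h⟩
        · rw [h]
          exact hr2 _
        · rw [h]
          have h5 : a (p.succAbove i') (p.succAbove j) =
              qt p x a i' j + x (p.succAbove i') * a p (p.succAbove j) := by
            rw [qt]
            ring
          rw [h5]
          exact add_mem (ha2 _ _) (mul_mem (hx2 _) (hr2 _))
      rintro y (⟨i, j, rfl⟩ | ⟨i, rfl⟩ | hy)
      · rcases Fin.eq_self_or_eq_succAbove p j with h | ⟨j', h⟩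
        · rw [h]
          have h6 := congrFun hax i
          rw [Matrix.mulVec, dotProduct, Fin.sum_univ_succAbove _ p, hx1, mul_one,
            Pi.smul_apply, smul_eq_mul] at h6
          have h7 : a i p = l * x i - ∑ j : Fin n, a i (p.succAbove j) * x (p.succAbove j) := by
            rw [← h6]
            ring
          rw [h7]
          exact sub_mem (mul_mem (hB2 hl) (hx2 _)) (sum_mem fun j _ => mul_mem (hij _ _) (hx2 _))
        · rw [h]
          exact hij _ _
      · exact hx2 i
      · exact hsub y (Or.inr (Or.inr (Or.inr hy)))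

end Pool.Agent.MP_3f0e22_ag.Q3

namespace Pool.Agent.MP_3f0e22_ag

alias boundQ := Q3.boundQ

end Pool.Agent.MP_3f0e22_ag
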