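import Pool.Agent.MP_3f0e22_ag.Defs2
import Pool.Agent.MP_3f0e22_ag.Ba

/-!
# MP_3f0e22_ag, version 2, block S1: coefficients of characteristic polynomials
-/

set_option autoImplicit false

open Matrix

namespace Pool.Agent.MP_3f0e22_ag.S1

open Pool.Agent.MP_3f0e22_ag

variable {K E : Type*} [Field K] [Field E] [Algebra K E] {r : ℕ}

theorem coeff_zero_eq (a : Mat r E) (ha : a.det = 1) : a.charpoly.coeff 0 = (-1) ^ r := by
  have h := Matrix.det_eq_sign_charpoly_coeff a
  rw [ha, Fintype.card_fin] at h
  have h2 : ((-1 : E) ^ r) * (-1) ^ r = 1 := by rw [← mul_pow]; simp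
  calc a.charpoly.coeff 0 = ((-1) ^ r * (-1) ^ r) * a.charpoly.coeff 0 := by rw [h2, one_mul]
    _ = (-1) ^ r * ((-1) ^ r * a.charpoly.coeff 0) := by ring
    _ = (-1) ^ r := by rw [← h, mul_one]

theorem bound_cpc (B : Set E) (a : Mat r E) (ha : a.det = 1) : Bd K B (cpc a) (r - 1) := by
  classical
  refine ⟨(Finset.Ico 1 r).image fun i => a.charpoly.coeff i,
    Finset.card_image_le.trans (by simp), ?_⟩
  rintro _ ⟨i, rfl⟩
  rcases Nat.eq_zero_or_pos i with h0 | h0
  · subst h0
    show a.charpoly.coeff 0 ∈ _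
    rw [coeff_zero_eq a ha]
    exact pow_mem (neg_mem (one_mem _)) _
  · rcases lt_or_ge i r with h1 | h1
    · refine subset_acl _ (Or.inr ?_)
      rw [Finset.mem_coe, Finset.mem_image]
      exact ⟨i, Finset.mem_Ico.2 ⟨h0, h1⟩, rfl⟩
    · show a.charpoly.coeff i ∈ _
      rcases h1.eq_or_lt with h2 | h2
      · have h3 := a.charpoly_monic.coeff_natDegree
        rw [Matrix.charpoly_natDegree_eq_dim, Fintype.card_fin] at h3
        rw [← h2, h3]
        exact one_mem _
      · rw [Polynomial.coeff_eq_zero_of_natDegree_lt (by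
          rw [Matrix.charpoly_natDegree_eq_dim, Fintype.card_fin]; exact h2)]
        exact zero_mem _

theorem coeff_prod_mem (F : IntermediateField K E) (s : Multiset E) (hs : ∀ x ∈ s, x ∈ F) :
    ∀ i, ((s.map fun a => Polynomial.X - Polynomial.C a).prod).coeff i ∈ F := by
  induction s using Multiset.induction_on with
  | empty =>
    intro i
    rw [Multiset.map_zero, Multiset.prod_zero, Polynomial.coeff_one]
    split_ifs
    · exact one_mem _
    · exact zero_mem _
  | cons a s ih =>
    have ih' := ih fun x hx => hs x (Multiset.mem_cons_of_mem hx)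
    have ha : a ∈ F := hs a (Multiset.mem_cons_self a s)
    intro i
    rw [Multiset.map_cons, Multiset.prod_cons, sub_mul, Polynomial.coeff_sub,
      Polynomial.coeff_C_mul]
    refine sub_mem ?_ (mul_mem ha (ih' i))
    rcases i with _ | i
    · rw [Polynomial.coeff_X_mul_zero]
      exact zero_mem _
    · rw [Polynomial.coeff_X_mul]
      exact ih' i

theorem bound_cpc' [IsAlgClosed E] (hr : 2 ≤ r) (B : Set E) (a : Mat r E) (ha : a.det = 1)
    (h : ¬ a.charpoly.Separable) : Bd K B (cpc a) (r - 2) := by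
  classical
  have hspl := IsAlgClosed.splits a.charpoly
  have hm := a.charpoly_monic
  rw [← Polynomial.nodup_roots_iff_of_splits hm.ne_zero hspl, Multiset.nodup_iff_ne_cons_cons] at h
  push Not at h
  obtain ⟨m, s, hs⟩ := h
  have hcard : Multiset.card a.charpoly.roots = r := by
    rw [← hspl.natDegree_eq_card_roots, Matrix.charpoly_natDegree_eq_dim, Fintype.card_fin]
  have hsc : Multiset.card s = r - 2 := by
    rw [hs] at hcard
    simp only [Multiset.card_cons] at hcard
    omega
  -- the product of the eigenvalues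
  have hprod : m * (m * s.prod) = 1 := by
    have h1 := hspl.coeff_zero_eq_prod_roots_of_monic hm
    rw [coeff_zero_eq a ha, Matrix.charpoly_natDegree_eq_dim, Fintype.card_fin, hs,
      Multiset.prod_cons, Multiset.prod_cons] at h1
    have h2 : ((-1 : E) ^ r) * (-1) ^ r = 1 := by rw [← mul_pow]; simp
    calc m * (m * s.prod) = ((-1) ^ r * (-1) ^ r) * (m * (m * s.prod)) := by rw [h2, one_mul]
      _ = (-1) ^ r * ((-1) ^ r * (m * (m * s.prod))) := by ring
      _ = 1 := by rw [← h1, h2]
  -- it is enough to have the eigenvalues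
  have key : ∀ T : Finset E, T.card ≤ r - 2 → (∀ x ∈ a.charpoly.roots, x ∈ acl K (B ∪ T)) →
      Bd K B (cpc a) (r - 2) := by
    intro T hT hx
    refine ⟨T, hT, ?_⟩
    rintro _ ⟨i, rfl⟩
    have h1 := coeff_prod_mem (acl K (B ∪ T)) a.charpoly.roots hx i
    rw [← hspl.eq_prod_roots_of_monic hm] at h1
    exact h1
  rcases Multiset.empty_or_exists_mem s with h0 | ⟨l, hl⟩
  · -- `r = 2`: `m ^ 2 = 1`
    rw [h0] at hprod hs
    rw [Multiset.prod_zero, mul_one] at hprod
    refine key ∅ (by simp) fun x hx => ?_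
    rw [hs] at hx
    simp only [Multiset.mem_cons, Multiset.notMem_zero, or_false, or_self] at hx
    rw [hx]
    have h1 : (m - 1) * (m + 1) = 0 := by linear_combination hprod
    rcases mul_eq_zero.1 h1 with h2 | h2
    · rw [sub_eq_zero.1 h2]; exact one_mem _
    · rw [eq_neg_of_add_eq_zero_left h2]; exact neg_mem (one_mem _)
  · obtain ⟨s', hs'⟩ := Multiset.exists_cons_of_mem hl
    rw [hs', Multiset.prod_cons] at hprod
    rw [hs', Multiset.card_cons] at hsc
    have hT : (insert m s'.toFinset).card ≤ r - 2 := by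
      refine (Finset.card_insert_le _ _).trans ?_
      have := Multiset.toFinset_card_le s'
      omega
    refine key (insert m s'.toFinset) hT fun x hx => ?_
    have hmT : m ∈ acl K (B ∪ ↑(insert m s'.toFinset)) := subset_acl _ (Or.inr (by simp))
    have hsT : ∀ y ∈ s', y ∈ acl K (B ∪ ↑(insert m s'.toFinset)) := fun y hy =>
      subset_acl _ (Or.inr (by simp [hy]))
    have hlT : l ∈ acl K (B ∪ ↑(insert m s'.toFinset)) := by
      have h1 : (m * (m * s'.prod)) * l = 1 := by linear_combination hprod
      rw [eq_inv_of_mul_eq_one_right h1]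
      exact inv_mem (mul_mem hmT (mul_mem hmT (_root_.multiset_prod_mem s' hsT)))
    rw [hs, hs'] at hx
    simp only [Multiset.mem_cons] at hx
    rcases hx with hx | hx | hx | hx
    · rw [hx]; exact hmT
    · rw [hx]; exact hmT
    · rw [hx]; exact hlT
    · exact hsT x hx

end Pool.Agent.MP_3f0e22_ag.S1

namespace Pool.Agent.MP_3f0e22_ag

alias bound_cpc := S1.bound_cpc
alias bound_cpc' := S1.bound_cpc'

end Pool.Agent.MP_3f0e22_ag
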