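import Pool.Agent.MP_3f0e22_ag.Defs2

/-!
# MP_3f0e22_ag, version 2: the centralizer (Z1)
-/

set_option autoImplicit false

open Matrix

namespace Pool.Agent.MP_3f0e22_ag

section Zt

variable {E : Type*} [Field E]

theorem z1_mem {r : ℕ} (M X : Mat r E) :
    X ∈ LinearMap.ker (LinearMap.mulLeft E M - LinearMap.mulRight E M) ↔ M * X = X * M := by
  simp [LinearMap.mem_ker, sub_eq_zero]

theorem zeta_conj {r : ℕ} (M g g' : Mat r E) (h : g * g' = 1) : zeta (g * M * g') = zeta M := by
  have h' : g' * g = 1 := mul_eq_one_comm.mp h
  unfold zeta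
  have key : ∀ X : Mat r E, M * X = X * M ↔ (g * M * g') * (g * X * g') = (g * X * g') * (g * M * g') := by
    intro X
    have e1 : (g * M * g') * (g * X * g') = g * (M * X) * g' := by
      calc (g * M * g') * (g * X * g') = g * M * (g' * g) * X * g' := by noncomm_ring
        _ = g * (M * X) * g' := by rw [h']; noncomm_ring
    have e2 : (g * X * g') * (g * M * g') = g * (X * M) * g' := by
      calc (g * X * g') * (g * M * g') = g * X * (g' * g) * M * g' := by noncomm_ring
        _ = g * (X * M) * g' := by rw [h']; noncomm_ring
    rw [e1, e2]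
    constructor
    · intro hh; rw [hh]
    · intro hh
      have this := congrArg (fun Y : Mat r E => g' * Y * g) hh
      have e3 : ∀ Y : Mat r E, g' * (g * Y * g') * g = Y := by
        intro Y
        calc g' * (g * Y * g') * g = (g' * g) * Y * (g' * g) := by noncomm_ring
          _ = Y := by rw [h']; simp
      calc M * X = g' * (g * (M * X) * g') * g := (e3 _).symm
        _ = g' * (g * (X * M) * g') * g := this
        _ = X * M := e3 _
  let φ : Mat r E ≃ₗ[E] Mat r E :=
    { toFun := fun X => g * X * g'
      map_add' := fun X Y => by noncomm_ring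
      map_smul' := fun c X => by simp
      invFun := fun X => g' * X * g
      left_inv := fun X => by
        show g' * (g * X * g') * g = X
        calc g' * (g * X * g') * g = (g' * g) * X * (g' * g) := by noncomm_ring
          _ = X := by rw [h']; simp
      right_inv := fun X => by
        show g * (g' * X * g) * g' = X
        calc g * (g' * X * g) * g' = (g * g') * X * (g * g') := by noncomm_ring
          _ = X := by rw [h]; simp }
  have hmap : (LinearMap.ker (LinearMap.mulLeft E M - LinearMap.mulRight E M)).map
      (φ : Mat r E →ₗ[E] Mat r E) =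
      LinearMap.ker (LinearMap.mulLeft E (g * M * g') - LinearMap.mulRight E (g * M * g')) := by
    ext Y
    rw [Submodule.mem_map]
    constructor
    · rintro ⟨X, hX, rfl⟩
      rw [z1_mem] at hX ⊢
      exact (key X).mp hX
    · intro hY
      refine ⟨φ.symm Y, ?_, ?_⟩
      · rw [z1_mem] at hY ⊢
        rw [key]
        have : g * (φ.symm Y) * g' = Y := φ.apply_symm_apply Y
        rw [this]
        exact hY
      · exact φ.apply_symm_apply Y
  rw [← hmap]
  exact LinearEquiv.finrank_map_eq φ _

theorem zeta_adjugate {r : ℕ} (a : Mat r E) (h : a.det = 1) : zeta a.adjugate = zeta a := by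
  have h1 : a * a.adjugate = 1 := by rw [mul_adjugate, h, one_smul]
  have h2 : a.adjugate * a = 1 := by rw [adjugate_mul, h, one_smul]
  unfold zeta
  have : LinearMap.ker (LinearMap.mulLeft E a.adjugate - LinearMap.mulRight E a.adjugate) =
      LinearMap.ker (LinearMap.mulLeft E a - LinearMap.mulRight E a) := by
    ext X
    rw [z1_mem, z1_mem]
    constructor
    · intro hh
      calc a * X = a * X * (a.adjugate * a) := by rw [h2, mul_one]
        _ = a * (X * a.adjugate) * a := by noncomm_ring
        _ = a * (a.adjugate * X) * a := by rw [hh]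
        _ = (a * a.adjugate) * X * a := by noncomm_ring
        _ = X * a := by rw [h1, one_mul]
    · intro hh
      calc a.adjugate * X = a.adjugate * X * (a * a.adjugate) := by rw [h1, mul_one]
        _ = a.adjugate * (X * a) * a.adjugate := by noncomm_ring
        _ = a.adjugate * (a * X) * a.adjugate := by rw [hh]
        _ = (a.adjugate * a) * X * a.adjugate := by noncomm_ring
        _ = X * a.adjugate := by rw [h2, one_mul]
  rw [this]

theorem zeta_zero (M : Mat 0 E) : zeta M = 0 := by
  unfold zeta
  exact Module.finrank_zero_of_subsingleton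

theorem z1_diag {r : ℕ} (d : Fin r → E) (hd : Function.Injective d) :
    zeta (diagonal d) ≤ r := by
  unfold zeta
  have hle : LinearMap.ker (LinearMap.mulLeft E (diagonal d) - LinearMap.mulRight E (diagonal d)) ≤
      LinearMap.range (diagonalLinearMap (Fin r) E E) := by
    intro X hX
    rw [z1_mem] at hX
    refine ⟨fun i => X i i, ?_⟩
    ext i j
    show diagonal (fun i => X i i) i j = X i j
    rw [diagonal_apply]
    split_ifs with hij
    · rw [hij]
    · have := congrFun (congrFun hX i) j
      rw [diagonal_mul, mul_diagonal] at this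
      have h1 : (d i - d j) * X i j = 0 := by linear_combination this
      rcases mul_eq_zero.mp h1 with h2 | h2
      · exact absurd (hd (sub_eq_zero.mp h2)) hij
      · exact h2.symm
  calc Module.finrank E _ ≤ Module.finrank E (LinearMap.range (diagonalLinearMap (Fin r) E E)) :=
        Submodule.finrank_mono hle
    _ ≤ Module.finrank E (Fin r → E) := LinearMap.finrank_range_le _
    _ = r := by simp

theorem zeta_separable [IsAlgClosed E] {r : ℕ} (M : Mat r E) (h : M.charpoly.Separable) :
    zeta M ≤ r := by
  classical
  have hnd : M.charpoly.roots.Nodup := Polynomial.nodup_roots h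
  have hcard : M.charpoly.roots.card = r := by
    rw [← (IsAlgClosed.splits M.charpoly).natDegree_eq_card_roots, charpoly_natDegree_eq_dim,
      Fintype.card_fin]
  have hc2 : M.charpoly.roots.toFinset.card = r := by
    rw [Multiset.toFinset_card_of_nodup hnd, hcard]
  let e : Fin r ≃ M.charpoly.roots.toFinset := (Finset.equivFinOfCardEq hc2).symm
  let μ : Fin r → E := fun i => (e i : E)
  have hμ : Function.Injective μ := Subtype.val_injective.comp e.injective
  have hev : ∀ i, ∃ v : Fin r → E, v ≠ 0 ∧ M *ᵥ v = μ i • v := by
    intro i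
    have hroot : M.charpoly.IsRoot (μ i) := by
      have := (e i).2
      rw [Multiset.mem_toFinset] at this
      exact Polynomial.isRoot_of_mem_roots this
    have h1 : Module.End.HasEigenvalue (toLin' M) (μ i) := by
      rw [Module.End.hasEigenvalue_iff_isRoot_charpoly, charpoly_toLin']
      exact hroot
    obtain ⟨v, hv⟩ := h1.exists_hasEigenvector
    exact ⟨v, hv.2, by simpa using hv.apply_eq_smul⟩
  choose v hv0 hv using hev
  have hli : LinearIndependent E v :=
    Module.End.eigenvectors_linearIndependent' (toLin' M) μ hμ v
      (fun i => ⟨by rw [Module.End.mem_eigenspace_iff]; simpa using hv i, hv0 i⟩)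
  let P : Mat r E := Matrix.of fun i j => v j i
  have hPt : P.transpose = Matrix.of v := by ext i j; rfl
  have hunit : IsUnit P := by
    rw [← isUnit_transpose]
    rw [hPt]
    exact (linearIndependent_rows_iff_isUnit).mp hli
  have hMP : M * P = P * diagonal μ := by
    ext i j
    rw [mul_diagonal]
    have := congrFun (hv j) i
    simp only [Pi.smul_apply, smul_eq_mul, mulVec, dotProduct] at this
    rw [mul_apply]
    show ∑ k, M i k * v j k = v j i * μ j
    rw [this, mul_comm]
  obtain ⟨u, hu⟩ := hunit
  have hPP : P * (u⁻¹ : (Mat r E)ˣ) = 1 := by rw [← hu]; exact u.mul_inv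
  have hM : M = P * diagonal μ * (u⁻¹ : (Mat r E)ˣ) := by
    rw [← hMP, mul_assoc, hPP, mul_one]
  rw [hM, zeta_conj _ _ _ hPP]
  exact z1_diag μ hμ

end Zt

end Pool.Agent.MP_3f0e22_ag
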