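import Pool.Agent.MP_3f0e22_ag.Defs2

/-!
# MP_3f0e22_ag, version 2: the centralizer and quotients (Z2)
-/

set_option autoImplicit false

open Matrix

namespace Pool.Agent.MP_3f0e22_ag

section Zt

variable {E : Type*} [Field E]

theorem z2_mem {r : ℕ} (M X : Mat r E) :
    X ∈ LinearMap.ker (LinearMap.mulLeft E M - LinearMap.mulRight E M) ↔ M * X = X * M := by
  simp [LinearMap.mem_ker, sub_eq_zero]

theorem z2_rn {V W : Type*} [AddCommGroup V] [Module E V] [FiniteDimensional E V]
    [AddCommGroup W] [Module E W] (p : Submodule E V) (f : V →ₗ[E] W) :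
    Module.finrank E p = Module.finrank E (p.map f) +
      Module.finrank E (p ⊓ LinearMap.ker f : Submodule E V) := by
  have h := LinearMap.finrank_range_add_finrank_ker (f.domRestrict p)
  rw [LinearMap.range_domRestrict, LinearMap.ker_domRestrict] at h
  rw [← h, ← Submodule.map_comap_subtype, Submodule.finrank_map_subtype_eq]

/-- The projection `E^(n+1) → E^(n+1)/(x)`. -/
def z2_pi {n : ℕ} (p : Fin (n + 1)) (x : Fin (n + 1) → E) : Matrix (Fin n) (Fin (n + 1)) E :=
  Matrix.of fun i j => (if j = p.succAbove i then 1 else 0) - x (p.succAbove i) * (if j = p then 1 else 0)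

/-- The section. -/
def z2_sg (E : Type*) [Field E] {n : ℕ} (p : Fin (n + 1)) : Matrix (Fin (n + 1)) (Fin n) E :=
  Matrix.of fun i j => if i = p.succAbove j then 1 else 0

theorem z2_pi_mul {n m : ℕ} (p : Fin (n + 1)) (x : Fin (n + 1) → E)
    (X : Matrix (Fin (n + 1)) (Fin m) E) (i : Fin n) (j : Fin m) :
    (z2_pi p x * X) i j = X (p.succAbove i) j - x (p.succAbove i) * X p j := by
  rw [mul_apply]
  simp [z2_pi, sub_mul, Finset.sum_sub_distrib]

theorem z2_mul_sg {n m : ℕ} (p : Fin (n + 1))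
    (X : Matrix (Fin m) (Fin (n + 1)) E) (i : Fin m) (j : Fin n) :
    (X * z2_sg E p) i j = X i (p.succAbove j) := by
  rw [mul_apply]
  simp [z2_sg]

theorem z2_qt {n : ℕ} (p : Fin (n + 1)) (x : Fin (n + 1) → E) (M : Mat (n + 1) E) :
    z2_pi p x * M * z2_sg E p = qt p x M := by
  ext i j
  rw [z2_mul_sg, z2_pi_mul]
  rfl

theorem z2_one {n : ℕ} (p : Fin (n + 1)) (x : Fin (n + 1) → E) (hx : x p = 1)
    {m : ℕ} (X : Matrix (Fin (n + 1)) (Fin m) E) :
    X = z2_sg E p * (z2_pi p x * X) + vecMulVec x (X p) := by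
  ext i j
  rw [Matrix.add_apply, vecMulVec_apply, mul_apply]
  simp only [z2_pi_mul]
  rcases Fin.eq_self_or_eq_succAbove p i with rfl | ⟨k, rfl⟩
  · have : ∀ k : Fin n, (z2_sg E i) i k = 0 := by
      intro k
      simp [z2_sg, Fin.ne_succAbove]
    simp [this, hx]
  · have : ∀ k' : Fin n, (z2_sg E p) (p.succAbove k) k' = if k = k' then 1 else 0 := by
      intro k'
      simp [z2_sg]
    simp [this]

theorem z2_factor {n : ℕ} (p : Fin (n + 1)) (x : Fin (n + 1) → E) (hx : x p = 1)
    {m : ℕ} (X : Matrix (Fin m) (Fin (n + 1)) E) (h : X *ᵥ x = 0) :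
    X * z2_sg E p * z2_pi p x = X := by
  have h1 := z2_one p x hx (1 : Mat (n + 1) E)
  rw [Matrix.mul_one] at h1
  have h2 : X * vecMulVec x ((1 : Mat (n + 1) E) p) = 0 := by
    rw [mul_vecMulVec, h]
    ext i j
    simp [vecMulVec_apply]
  calc X * z2_sg E p * z2_pi p x = X * (z2_sg E p * z2_pi p x) := by rw [Matrix.mul_assoc]
    _ = X * (z2_sg E p * z2_pi p x) + X * vecMulVec x ((1 : Mat (n + 1) E) p) := by rw [h2, add_zero]
    _ = X * (1 : Mat (n + 1) E) := by rw [← Matrix.mul_add, ← h1]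
    _ = X := Matrix.mul_one X

theorem z2_pi_x {n : ℕ} (p : Fin (n + 1)) (x : Fin (n + 1) → E) (hx : x p = 1) :
    z2_pi p x *ᵥ x = 0 := by
  ext i
  simp [mulVec, dotProduct, z2_pi, sub_mul, Finset.sum_sub_distrib, hx]

theorem z2_pi_M {n : ℕ} {p : Fin (n + 1)} {x : Fin (n + 1) → E} {M : Mat (n + 1) E} {l : E}
    (hx : x p = 1) (h : M *ᵥ x = l • x) : z2_pi p x * M = qt p x M * z2_pi p x := by
  rw [← z2_qt]
  refine (z2_factor p x hx (z2_pi p x * M) ?_).symm
  rw [← mulVec_mulVec, h, mulVec_smul, z2_pi_x p x hx, smul_zero]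

/-- Passing to the quotient by an eigenvector. -/
theorem zeta_qt {n : ℕ} {p : Fin (n + 1)} {x : Fin (n + 1) → E} {M : Mat (n + 1) E} {l : E}
    (hx : x p = 1) (h : M *ᵥ x = l • x) :
    zeta M + 1 ≤ zeta (qt p x M) +
      2 * Module.finrank E (LinearMap.ker (M - scalar (Fin (n + 1)) l).mulVecLin) := by
  classical
  set γ := Module.finrank E (LinearMap.ker (M - scalar (Fin (n + 1)) l).mulVecLin) with hγ
  set CM := LinearMap.ker (LinearMap.mulLeft E M - LinearMap.mulRight E M) with hCM
  have hz : zeta M = Module.finrank E CM := rfl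
  -- the three linear maps
  let a : Mat (n + 1) E →ₗ[E] (Fin (n + 1) → E) :=
    { toFun := fun X => X *ᵥ x
      map_add' := fun X Y => add_mulVec X Y x
      map_smul' := fun c X => smul_mulVec c X x }
  let b : Mat (n + 1) E →ₗ[E] Mat n E :=
    { toFun := fun X => z2_pi p x * X * z2_sg E p
      map_add' := fun X Y => by rw [Matrix.mul_add, Matrix.add_mul]
      map_smul' := fun c X => by simp [Matrix.mul_smul, Matrix.smul_mul] }
  let ro : Mat (n + 1) E →ₗ[E] (Fin (n + 1) → E) :=
    { toFun := fun X => X p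
      map_add' := fun X Y => rfl
      map_smul' := fun c X => rfl }
  let dx : (Fin (n + 1) → E) →ₗ[E] E :=
    { toFun := fun ρ => ρ ⬝ᵥ x
      map_add' := fun X Y => add_dotProduct X Y x
      map_smul' := fun c X => by simp }
  set L := LinearMap.ker (M - scalar (Fin (n + 1)) l)ᵀ.mulVecLin with hL
  have hLγ : Module.finrank E L = γ := by
    have h1 := LinearMap.finrank_range_add_finrank_ker (M - scalar (Fin (n + 1)) l).mulVecLin
    have h2 := LinearMap.finrank_range_add_finrank_ker (M - scalar (Fin (n + 1)) l)ᵀ.mulVecLin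
    have h3 := rank_transpose (M - scalar (Fin (n + 1)) l)
    unfold Matrix.rank at h3
    rw [hL, hγ]
    omega
  have memL : ∀ ρ : Fin (n + 1) → E, ρ ∈ L ↔ ρ ᵥ* M = l • ρ := by
    intro ρ
    rw [hL, LinearMap.mem_ker, mulVecLin_apply, mulVec_transpose, vecMul_sub]
    rw [sub_eq_zero]
    have : ρ ᵥ* (scalar (Fin (n + 1)) l : Mat (n + 1) E) = l • ρ := by
      rw [scalar_apply]
      ext i
      simp [vecMul_diagonal, mul_comm]
    rw [this]
  -- step 1
  have s1 := z2_rn CM a
  have s1' : Module.finrank E (CM.map a) ≤ γ := by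
    rw [hγ]
    refine Submodule.finrank_mono ?_
    rintro _ ⟨X, hX, rfl⟩
    have hX' : M * X = X * M := (z2_mem M X).mp hX
    rw [LinearMap.mem_ker, mulVecLin_apply, sub_mulVec]
    show M *ᵥ (X *ᵥ x) - _ = 0
    rw [mulVec_mulVec, hX', ← mulVec_mulVec, h, sub_eq_zero, mulVec_smul]
    rw [scalar_apply]
    ext i
    show _ = (diagonal (fun _ => l) *ᵥ (X *ᵥ x)) i
    rw [mulVec_diagonal]
    rfl
  -- step 2
  have s2 := z2_rn (CM ⊓ LinearMap.ker a) b
  set CB := LinearMap.ker (LinearMap.mulLeft E (qt p x M) - LinearMap.mulRight E (qt p x M)) with hCB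
  have hzb : zeta (qt p x M) = Module.finrank E CB := rfl
  have s2a : (CM ⊓ LinearMap.ker a).map b ≤ CB := by
    rintro _ ⟨X, hX, rfl⟩
    have hX' : M * X = X * M := (z2_mem M X).mp hX.1
    have hX2 : X *ᵥ x = 0 := hX.2
    rw [hCB, z2_mem]
    show qt p x M * (z2_pi p x * X * z2_sg E p) = (z2_pi p x * X * z2_sg E p) * qt p x M
    calc qt p x M * (z2_pi p x * X * z2_sg E p) = (qt p x M * z2_pi p x) * X * z2_sg E p := by
          simp only [Matrix.mul_assoc]
      _ = z2_pi p x * (M * X) * z2_sg E p := by rw [← z2_pi_M hx h]; simp only [Matrix.mul_assoc]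
      _ = z2_pi p x * (X * M) * z2_sg E p := by rw [hX']
      _ = z2_pi p x * ((X * z2_sg E p * z2_pi p x) * M) * z2_sg E p := by rw [z2_factor p x hx X hX2]
      _ = (z2_pi p x * X * z2_sg E p) * (z2_pi p x * M * z2_sg E p) := by
          simp only [Matrix.mul_assoc]
      _ = (z2_pi p x * X * z2_sg E p) * qt p x M := by rw [z2_qt p x M]
  -- step 3
  have s3 := z2_rn ((CM ⊓ LinearMap.ker a) ⊓ LinearMap.ker b) ro
  have form : ∀ X : Mat (n + 1) E, X *ᵥ x = 0 → z2_pi p x * X * z2_sg E p = 0 →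
      X = vecMulVec x (X p) := by
    intro X h1 h2
    have h3 : z2_pi p x * X = 0 := by
      rw [← z2_factor p x hx (z2_pi p x * X) (by rw [← mulVec_mulVec, h1, mulVec_zero]), h2,
        Matrix.zero_mul]
    have h4 := z2_one p x hx X
    rw [h3, Matrix.mul_zero, zero_add] at h4
    exact h4
  have s3a : (((CM ⊓ LinearMap.ker a) ⊓ LinearMap.ker b) ⊓ LinearMap.ker ro) = ⊥ := by
    rw [eq_bot_iff]
    intro X hX
    have h1 := form X hX.1.1.2 hX.1.2
    have h2 : X p = 0 := hX.2
    rw [Submodule.mem_bot, h1, h2]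
    ext i j
    simp [vecMulVec_apply]
  rw [s3a, finrank_bot, add_zero] at s3
  have left_eig : ∀ ρ : Fin (n + 1) → E, M * vecMulVec x ρ = vecMulVec x ρ * M → ρ ∈ L := by
    intro ρ hρ
    rw [memL]
    rw [mul_vecMulVec, h, vecMulVec_mul] at hρ
    ext j
    have := congrFun (congrFun hρ p) j
    rw [vecMulVec_apply, vecMulVec_apply, hx] at this
    simp only [Pi.smul_apply, smul_eq_mul, hx] at this ⊢
    linear_combination -this
  have s3b : ((CM ⊓ LinearMap.ker a) ⊓ LinearMap.ker b).map ro ≤ L ⊓ LinearMap.ker dx := by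
    rintro _ ⟨X, hX, rfl⟩
    have h1 := form X hX.1.2 hX.2
    have hX' : M * X = X * M := (z2_mem M X).mp hX.1.1
    refine ⟨?_, ?_⟩
    · apply left_eig
      show M * vecMulVec x (X p) = vecMulVec x (X p) * M
      rw [← h1]
      exact hX'
    · have h2 : X *ᵥ x = 0 := hX.1.2
      rw [SetLike.mem_coe, LinearMap.mem_ker]
      show X p ⬝ᵥ x = 0
      exact congrFun h2 p
  have s3c : Module.finrank E (L ⊓ LinearMap.ker dx : Submodule E _) ≤ γ := by
    rw [← hLγ]
    exact Submodule.finrank_mono inf_le_left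
  have s3d := Submodule.finrank_mono s3b
  by_cases hid : (1 : Mat n E) ∈ (CM ⊓ LinearMap.ker a).map b
  · -- the left eigenspace contains an element with value one
    obtain ⟨X, hX, hX1⟩ := hid
    have hX' : M * X = X * M := (z2_mem M X).mp hX.1
    have hX2 : X *ᵥ x = 0 := hX.2
    have hX3 : z2_pi p x * X * z2_sg E p = 1 := hX1
    have h5 : z2_pi p x * X = z2_pi p x := by
      rw [← z2_factor p x hx (z2_pi p x * X) (by rw [← mulVec_mulVec, hX2, mulVec_zero]), hX3,
        Matrix.one_mul]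
    have h6 : (1 : Mat (n + 1) E) - X = vecMulVec x (((1 : Mat (n + 1) E) - X) p) := by
      have h4 := z2_one p x hx ((1 : Mat (n + 1) E) - X)
      rw [Matrix.mul_sub, Matrix.mul_one, h5, sub_self, Matrix.mul_zero, zero_add] at h4
      exact h4
    have h7 : (((1 : Mat (n + 1) E) - X) p) ∈ L := by
      apply left_eig
      rw [← h6, Matrix.mul_sub, Matrix.sub_mul, hX', Matrix.mul_one, Matrix.one_mul]
    have h8 : (((1 : Mat (n + 1) E) - X) p) ⬝ᵥ x = 1 := by
      have h9 : ((1 : Mat (n + 1) E) - X) *ᵥ x = x := by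
        rw [sub_mulVec, hX2, one_mulVec, sub_zero]
      have := congrFun h9 p
      rw [hx] at this
      exact this
    have h9 : Module.finrank E (L ⊓ LinearMap.ker dx : Submodule E _) < γ := by
      rw [← hLγ]
      apply Submodule.finrank_lt_finrank_of_lt
      refine lt_of_le_of_ne inf_le_left ?_
      intro heq
      have h10 : (((1 : Mat (n + 1) E) - X) p) ∈ (L ⊓ LinearMap.ker dx : Submodule E _) := by
        rw [heq]; exact h7
      have h11 : (((1 : Mat (n + 1) E) - X) p) ⬝ᵥ x = 0 := h10.2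
      rw [h8] at h11
      exact one_ne_zero h11
    have s2b := Submodule.finrank_mono s2a
    omega
  · have s2b : Module.finrank E ((CM ⊓ LinearMap.ker a).map b) < Module.finrank E CB := by
      apply Submodule.finrank_lt_finrank_of_lt
      refine lt_of_le_of_ne s2a ?_
      intro heq
      apply hid
      rw [heq, hCB, z2_mem, mul_one, one_mul]
    omega

end Zt

end Pool.Agent.MP_3f0e22_ag
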