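import Pool.Agent.MP_3f0e22_ag.SP1
import Pool.Agent.MP_3f0e22_ag.Z1
import Pool.Agent.MP_3f0e22_ag.Z2
import Pool.Agent.MP_3f0e22_ag.CHN
import Pool.Agent.MP_3f0e22_ag.RK2

/-! # MP_3f0e22_ag, version 2: row SP2 (generic chains) -/

set_option autoImplicit false

open Matrix MvPolynomial

namespace Pool.Agent.MP_3f0e22_ag.SP2

variable {K E : Type*} [Field K] [Field E] [Algebra K E]

theorem exists_chain [IsAlgClosed E] (hU : Univ K E) (r : ℕ) (M : Mat r E) (A : Set E)
    (hA : A.Finite) (hM : ent M ⊆ acl K A) :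
    ∃ (S : Set E) (e : ℕ), Ch r M S ∧ zeta M ≤ r + 2 * e ∧ rk K A + e ≤ rk K (A ∪ S) := by
  induction r generalizing A with
  | zero => exact ⟨∅, 0, rfl, (zeta_zero M).le, by simp⟩
  | succ n ih =>
    obtain ⟨l, hl⟩ : ∃ l, M.charpoly.eval l = 0 := by
      refine IsAlgClosed.exists_root _ ?_
      rw [Matrix.charpoly_degree_eq_dim, Fintype.card_fin]
      exact Nat.cast_ne_zero.2 (Nat.succ_ne_zero n)
    obtain ⟨p, x, hx1, hx0, hMx, hrk⟩ := exists_eig hU M A hA hM l hl
    have hA' : (A ∪ Set.range x).Finite := hA.union (Set.finite_range x)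
    have h1 : ∀ i j, M i j ∈ acl K (A ∪ Set.range x) := fun i j =>
      acl_mono Set.subset_union_left (hM ⟨i, j, rfl⟩)
    have h2 : ∀ i, x i ∈ acl K (A ∪ Set.range x) := fun i =>
      subset_acl _ (Or.inr ⟨i, rfl⟩)
    have hM' : ent (qt p x M) ⊆ acl K (A ∪ Set.range x) := by
      rintro _ ⟨i, j, rfl⟩
      exact sub_mem (h1 _ _) (mul_mem (h2 _) (h1 _ _))
    obtain ⟨S', e', hch, hz, hr⟩ := ih (qt p x M) (A ∪ Set.range x) hA' hM'
    have h3 := zeta_qt hx1 hMx
    have h4 : 1 ≤ Module.finrank E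
        (LinearMap.ker (M - scalar (Fin (n + 1)) l).mulVecLin) := by
      rw [Nat.one_le_iff_ne_zero, ← Nat.pos_iff_ne_zero, Module.finrank_pos_iff_exists_ne_zero]
      refine ⟨⟨x, ?_⟩, ?_⟩
      · rw [LinearMap.mem_ker, Matrix.mulVecLin_apply, Matrix.sub_mulVec, hMx, sub_eq_zero]
        ext i
        simp [Matrix.scalar_apply, Matrix.mulVec_diagonal]
      · intro h
        have h5 : x p = 0 := by
          have := congrArg Subtype.val h
          simpa using congrFun this p
        rw [hx1] at h5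
        exact one_ne_zero h5
    refine ⟨Set.range x ∪ S', e' + (Module.finrank E
        (LinearMap.ker (M - scalar (Fin (n + 1)) l).mulVecLin) - 1),
      ⟨p, x, l, S', hx1, hx0, hMx, hch, rfl⟩, by omega, ?_⟩
    rw [← Set.union_assoc]
    omega

end Pool.Agent.MP_3f0e22_ag.SP2

namespace Pool.Agent.MP_3f0e22_ag

alias exists_chain := SP2.exists_chain

end Pool.Agent.MP_3f0e22_ag
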