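import Pool.Agent.MP_3f0e22_ag.RK2
import Pool.Agent.MP_3f0e22_ag.Z1
import Pool.Agent.MP_3f0e22_ag.Ba

/-!
# MP_3f0e22_ag: the elements which conjugate `c` to `a'` (row Z3)
-/

set_option autoImplicit false

open Matrix MvPolynomial

namespace Pool.Agent.MP_3f0e22_ag.Z3

variable {K E : Type*} [Field K] [Field E] [Algebra K E]

/-- The solutions of `X c = a' X` are combinations of the solutions with entries in `F`. -/
theorem mem_span (F : IntermediateField K E) {r : ℕ} (c a' X : Mat r E)
    (hc : ent c ⊆ (F : Set E)) (ha : ent a' ⊆ (F : Set E)) (h : X * c = a' * X) :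
    X ∈ Submodule.span E {Y : Mat r E | Y * c = a' * Y ∧ ent Y ⊆ (F : Set E)} := by
  classical
  let β := Module.Basis.ofVectorSpace F E
  let T : Finset (Module.Basis.ofVectorSpaceIndex F E) :=
    Finset.univ.biUnion fun j : Fin r => Finset.univ.biUnion fun k : Fin r =>
      (β.repr (X j k)).support
  let Xt : Module.Basis.ofVectorSpaceIndex F E → Mat r E := fun t j k => ((β.repr (X j k) t : F) : E)
  have hX : X = ∑ t ∈ T, β t • Xt t := by
    ext j k
    have h1 := β.linearCombination_repr (X j k)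
    rw [Finsupp.linearCombination_apply, Finsupp.sum_of_support_subset (s := T)] at h1
    · rw [Matrix.sum_apply]
      refine h1.symm.trans (Finset.sum_congr rfl fun t _ => ?_)
      rw [Matrix.smul_apply, smul_eq_mul, mul_comm]
      rfl
    · intro t ht
      simp only [T, Finset.mem_biUnion, Finset.mem_univ, true_and]
      exact ⟨j, k, ht⟩
    · intro i _
      rw [zero_smul]
  have hXt : ∀ t, Xt t * c = a' * Xt t := by
    intro t
    ext j k
    have h1 : ∑ l, X j l * c l k = ∑ l, a' j l * X l k := by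
      have := congrFun (congrFun h j) k
      simpa only [Matrix.mul_apply] using this
    have h2 : ∀ l, X j l * c l k = (⟨c l k, hc ⟨l, k, rfl⟩⟩ : F) • X j l := by
      intro l
      rw [mul_comm]; rfl
    have h3 : ∀ l, a' j l * X l k = (⟨a' j l, ha ⟨j, l, rfl⟩⟩ : F) • X l k := fun l => rfl
    rw [Finset.sum_congr rfl fun l _ => h2 l, Finset.sum_congr rfl fun l _ => h3 l] at h1
    have h4 := congrArg (fun x => ((β.repr x t : F) : E)) h1
    simp only [map_sum, map_smul, Finsupp.coe_finsetSum, Finset.sum_apply, Finsupp.smul_apply,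
      smul_eq_mul, IntermediateField.coe_sum, IntermediateField.coe_mul] at h4
    rw [Matrix.mul_apply, Matrix.mul_apply]
    rw [← h4]
    exact Finset.sum_congr rfl fun l _ => mul_comm _ _
  rw [hX]
  refine Submodule.sum_mem _ fun t _ => Submodule.smul_mem _ _ (Submodule.subset_span ⟨hXt t, ?_⟩)
  rintro x ⟨j, k, rfl⟩
  exact (β.repr (X j k) t).2

/-- The space of the solutions of `X c = a' X`. -/
def W {r : ℕ} (c a' : Mat r E) : Submodule E (Mat r E) :=
  LinearMap.ker (LinearMap.mulRight E c - LinearMap.mulLeft E a')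

theorem mem_W {r : ℕ} {c a' X : Mat r E} : X ∈ W c a' ↔ X * c = a' * X := by
  rw [W, LinearMap.mem_ker, LinearMap.sub_apply, LinearMap.mulRight_apply, LinearMap.mulLeft_apply,
    sub_eq_zero]

theorem finrank_W {r : ℕ} (b c a' : Mat r E) (hb : b.det = 1) (h : b * c = a' * b) :
    Module.finrank E (W c a') = zeta c := by
  have hu : IsUnit b.det := by rw [hb]; exact isUnit_one
  have h1 : b * b⁻¹ = 1 := Matrix.mul_nonsing_inv b hu
  have h2 : b⁻¹ * b = 1 := Matrix.nonsing_inv_mul b hu
  have hc : b⁻¹ * a' = c * b⁻¹ := by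
    calc b⁻¹ * a' = b⁻¹ * (a' * b) * b⁻¹ := by rw [mul_assoc, mul_assoc, h1, mul_one]
      _ = c * b⁻¹ := by rw [← h, ← mul_assoc, h2, one_mul]
  have m1 : ∀ x : W c a', b⁻¹ * x.1 ∈ LinearMap.ker (LinearMap.mulLeft E c - LinearMap.mulRight E c) := by
    intro x
    have hX := mem_W.1 x.2
    rw [LinearMap.mem_ker, LinearMap.sub_apply, LinearMap.mulRight_apply, LinearMap.mulLeft_apply,
      sub_eq_zero, mul_assoc, hX, ← mul_assoc, ← mul_assoc, hc]
  have m2 : ∀ z : LinearMap.ker (LinearMap.mulLeft E c - LinearMap.mulRight E c),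
      b * z.1 ∈ W c a' := by
    intro z
    have hZ := z.2
    rw [LinearMap.mem_ker, LinearMap.sub_apply, LinearMap.mulRight_apply, LinearMap.mulLeft_apply,
      sub_eq_zero] at hZ
    rw [mem_W, mul_assoc, ← hZ, ← mul_assoc, h, mul_assoc]
  rw [zeta]
  exact LinearEquiv.finrank_eq (M := W c a')
    { toFun := fun x => ⟨b⁻¹ * x.1, m1 x⟩
      invFun := fun z => ⟨b * z.1, m2 z⟩
      left_inv := fun x => by
        apply Subtype.ext
        show b * (b⁻¹ * x.1) = x.1
        rw [← mul_assoc, h1, one_mul]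
      right_inv := fun z => by
        apply Subtype.ext
        show b⁻¹ * (b * z.1) = z.1
        rw [← mul_assoc, h2, one_mul]
      map_add' := fun x y => by
        apply Subtype.ext
        show b⁻¹ * (x.1 + y.1) = b⁻¹ * x.1 + b⁻¹ * y.1
        rw [mul_add]
      map_smul' := fun a x => by
        apply Subtype.ext
        show b⁻¹ * (a • x.1) = a • (b⁻¹ * x.1)
        rw [Matrix.mul_smul] }

/-- A basis with entries in `F`. -/
theorem exists_basis (F : IntermediateField K E) {r : ℕ} (b c a' : Mat r E)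
    (hc : ent c ⊆ (F : Set E)) (ha : ent a' ⊆ (F : Set E)) (hb : b.det = 1)
    (h : b * c = a' * b) :
    ∃ (w : Fin (zeta c) → Mat r E) (x : Fin (zeta c) → E), (∀ i, ent (w i) ⊆ (F : Set E)) ∧
      b = ∑ i, x i • w i := by
  classical
  set s : Set (Mat r E) := {Y : Mat r E | Y * c = a' * Y ∧ ent Y ⊆ (F : Set E)} with hs
  obtain ⟨t, hts, hspan, hli⟩ := exists_linearIndependent E s
  have hW : Submodule.span E s = W c a' := by
    apply le_antisymm
    · rw [Submodule.span_le]
      intro Y hY
      exact mem_W.2 hY.1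
    · intro Y hY
      exact mem_span F c a' Y hc ha (mem_W.1 hY)
  have hfin : t.Finite := hli.setFinite
  have : Fintype t := hfin.fintype
  have hcard : Fintype.card t = zeta c := by
    have h1 := finrank_span_set_eq_card (R := E) (s := t) hli
    rw [hspan, hW, finrank_W b c a' hb h] at h1
    rw [h1, Set.toFinset_card]
  let e : Fin (zeta c) ≃ t := (Fintype.equivFinOfCardEq hcard).symm
  have hbs : b ∈ Submodule.span E (Set.range fun i : Fin (zeta c) => (e i : Mat r E)) := by
    have h1 : (Set.range fun i : Fin (zeta c) => (e i : Mat r E)) = t := by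
      ext Y
      constructor
      · rintro ⟨i, rfl⟩
        exact (e i).2
      · intro hY
        exact ⟨e.symm ⟨Y, hY⟩, by simp⟩
    rw [h1, hspan, hW]
    exact mem_W.2 h
  rw [Submodule.mem_span_range_iff_exists_fun] at hbs
  obtain ⟨x, hx⟩ := hbs
  exact ⟨fun i => e i, x, fun i => (hts (e i).2).2, hx.symm⟩

/-- The elements which conjugate `c` to `a'`. -/
theorem boundZ {r : ℕ} (hr : 1 ≤ r) (B : Set E) (b c a' : Mat r E) (hc : ent c ⊆ acl K B)
    (ha : ent a' ⊆ acl K B) (hb : b.det = 1) (h : b * c = a' * b) :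
    Bd K B (ent b) (zeta c - 1) := by
  classical
  obtain ⟨w, x, hw, hx⟩ := exists_basis (acl K B) b c a' hc ha hb h
  -- the polynomial `det (∑ X_i w_i) - 1`
  let wF : Fin (zeta c) → Mat r (acl K B) := fun i j k => ⟨w i j k, hw i ⟨j, k, rfl⟩⟩
  let MF : Matrix (Fin r) (Fin r) (MvPolynomial (Fin (zeta c)) (acl K B)) :=
    ∑ i, (X i : MvPolynomial (Fin (zeta c)) (acl K B)) • (wF i).map (C : _ →+* _)
  let pF : MvPolynomial (Fin (zeta c)) (acl K B) := MF.det - 1
  let p : MvPolynomial (Fin (zeta c)) E := pF.map (algebraMap (acl K B) E)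
  have heval : ∀ y : Fin (zeta c) → E, eval y p = (∑ i, y i • w i).det - 1 := by
    intro y
    have h1 : eval y p = eval₂Hom (algebraMap (acl K B) E) y pF := by
      show eval y (pF.map (algebraMap (acl K B) E)) = _
      rw [eval_map]
      rfl
    rw [h1]
    show eval₂Hom (algebraMap (acl K B) E) y (MF.det - 1) = _
    rw [map_sub, map_one, RingHom.map_det]
    congr 2
    ext j k
    rw [RingHom.mapMatrix_apply, Matrix.map_apply]
    show eval₂Hom (algebraMap (acl K B) E) y ((∑ i, (X i : MvPolynomial (Fin (zeta c)) (acl K B)) •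
      (wF i).map (C : _ →+* _)) j k) = _
    rw [Matrix.sum_apply, Matrix.sum_apply, map_sum]
    refine Finset.sum_congr rfl fun i _ => ?_
    rw [Matrix.smul_apply, Matrix.smul_apply, Matrix.map_apply, smul_eq_mul, smul_eq_mul, map_mul]
    simp only [coe_eval₂Hom, eval₂_X, eval₂_C]
    rfl
  have hp0 : p ≠ 0 := by
    intro h0
    have h1 := heval 0
    have : Nonempty (Fin r) := ⟨⟨0, hr⟩⟩
    rw [h0, map_zero] at h1
    simp only [Pi.zero_apply, zero_smul, Finset.sum_const_zero] at h1
    rw [Matrix.det_zero] at h1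
    simp at h1
  have hpx : eval x p = 0 := by
    rw [heval, ← hx, hb, sub_self]
  have hcoef : ∀ d, p.coeff d ∈ acl K B := by
    intro d
    show coeff d (pF.map (algebraMap (acl K B) E)) ∈ _
    rw [coeff_map]
    exact (coeff d pF).2
  refine (Bd.of_poly x p hcoef hp0 hpx).mono (subset_acl _) ?_ le_rfl
  rintro y ⟨j, k, rfl⟩
  rw [hx, Matrix.sum_apply]
  refine sum_mem fun i _ => ?_
  rw [Matrix.smul_apply, smul_eq_mul]
  refine mul_mem ?_ ?_
  · exact subset_acl _ (Or.inr ⟨i, rfl⟩)
  · exact acl_mono Set.subset_union_left (hw i ⟨j, k, rfl⟩)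

end Pool.Agent.MP_3f0e22_ag.Z3

namespace Pool.Agent.MP_3f0e22_ag

alias boundZ := Z3.boundZ

end Pool.Agent.MP_3f0e22_ag
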