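import Pool.Agent.MP_3f0e22_ag.H2
import Pool.Agent.MP_3f0e22_ag.Q3
import Pool.Agent.MP_3f0e22_ag.Z1
import Pool.Agent.MP_3f0e22_ag.Z2
import Pool.Agent.MP_3f0e22_ag.Z3
import Pool.Agent.MP_3f0e22_ag.SP2
import Pool.Agent.MP_3f0e22_ag.S1
import Pool.Agent.MP_3f0e22_ag.RK2

/-!
# [CV2-E1] one handle
-/

set_option autoImplicit false

open Matrix MvPolynomial

namespace Pool.Agent.MP_3f0e22_ag

section

variable {K E : Type*} [Field K] [Field E] [Algebra K E] {r : ℕ}

theorem E1_ent {E : Type*} {r : ℕ} {M : Mat r E} {S : Set E} : ent M ⊆ S ↔ ∀ i j, M i j ∈ S := by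
  constructor
  · intro h i j
    exact h ⟨i, j, rfl⟩
  · rintro h _ ⟨i, j, rfl⟩
    exact h i j

theorem E1_mul {F : IntermediateField K E} {M N : Mat r E} (hM : ent M ⊆ (F : Set E))
    (hN : ent N ⊆ (F : Set E)) : ent (M * N) ⊆ (F : Set E) := by
  rw [E1_ent] at *
  intro i j
  rw [Matrix.mul_apply]
  exact sum_mem fun k _ => mul_mem (hM i k) (hN k j)

theorem E1_lift {F : IntermediateField K E} {M : Mat r E} (hM : ent M ⊆ (F : Set E)) :
    ∃ M₀ : Mat r F, M = M₀.map (algebraMap F E) := by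
  rw [E1_ent] at hM
  exact ⟨fun i j => ⟨M i j, hM i j⟩, rfl⟩

theorem E1_map {F : IntermediateField K E} (M₀ : Mat r F) :
    ent (M₀.map (algebraMap F E)) ⊆ (F : Set E) := by
  rw [E1_ent]
  intro i j
  exact (M₀ i j).2

theorem E1_adj {F : IntermediateField K E} {M : Mat r E} (hM : ent M ⊆ (F : Set E)) :
    ent M.adjugate ⊆ (F : Set E) := by
  obtain ⟨M₀, rfl⟩ := E1_lift hM
  have := RingHom.map_adjugate (algebraMap F E) M₀
  rw [RingHom.mapMatrix_apply, RingHom.mapMatrix_apply] at this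
  rw [← this]
  exact E1_map _

theorem E1_det {F : IntermediateField K E} {M : Mat r E} (hM : ent M ⊆ (F : Set E)) :
    M.det ∈ F := by
  obtain ⟨M₀, rfl⟩ := E1_lift hM
  have := RingHom.map_det (algebraMap F E) M₀
  rw [RingHom.mapMatrix_apply] at this
  rw [← this]
  exact (M₀.det).2

theorem E1_inv {F : IntermediateField K E} {M : Mat r E} (hM : ent M ⊆ (F : Set E)) :
    ent M⁻¹ ⊆ (F : Set E) := by
  rw [Matrix.inv_def, Ring.inverse_eq_inv', E1_ent]
  intro i j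
  rw [Matrix.smul_apply, smul_eq_mul]
  exact mul_mem (inv_mem (E1_det hM)) (E1_ent.1 (E1_adj hM) i j)

theorem E1_unit_inv {F : IntermediateField K E} {u : (Mat r E)ˣ}
    (hu : ent (u : Mat r E) ⊆ (F : Set E)) : ent ((u⁻¹ : (Mat r E)ˣ) : Mat r E) ⊆ (F : Set E) := by
  rw [Matrix.coe_units_inv]
  exact E1_inv hu

theorem E1_unit_mul {F : IntermediateField K E} {u v : (Mat r E)ˣ}
    (hu : ent (u : Mat r E) ⊆ (F : Set E)) (hv : ent (v : Mat r E) ⊆ (F : Set E)) :
    ent ((u * v : (Mat r E)ˣ) : Mat r E) ⊆ (F : Set E) := by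
  rw [Units.val_mul]
  exact E1_mul hu hv

theorem E1_cpc {F : IntermediateField K E} {M : Mat r E} (hM : ent M ⊆ (F : Set E)) :
    cpc M ⊆ (F : Set E) := by
  obtain ⟨M₀, rfl⟩ := E1_lift hM
  rintro _ ⟨i, rfl⟩
  simp only
  rw [Matrix.charpoly_map, Polynomial.coeff_map]
  exact (M₀.charpoly.coeff i).2

theorem E1_cpc_finite (M : Mat r E) : (cpc M).Finite := by
  refine ((Finset.range (r + 1)).finite_toSet.image (fun i => M.charpoly.coeff i) |>.union
    (Set.finite_singleton 0)).subset ?_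
  rintro _ ⟨i, rfl⟩
  by_cases hi : i < r + 1
  · exact Or.inl ⟨i, by simpa using hi, rfl⟩
  · right
    rw [Set.mem_singleton_iff]
    refine Polynomial.coeff_eq_zero_of_natDegree_lt ?_
    rw [Matrix.charpoly_natDegree_eq_dim, Fintype.card_fin]
    omega

theorem E1_charpoly_conj (M : Mat r E) (u : (Mat r E)ˣ) :
    ((u : Mat r E) * M * ((u⁻¹ : (Mat r E)ˣ) : Mat r E)).charpoly = M.charpoly := by
  rw [Matrix.charpoly_mul_comm, ← mul_assoc, Units.inv_mul, one_mul]

theorem E1_det_ne (u : (Mat r E)ˣ) : (u : Mat r E).det ≠ 0 :=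
  ((Matrix.isUnit_iff_isUnit_det _).1 u.isUnit).ne_zero

end

theorem handle_bound {K E : Type*} [Field K] [Field E] [Algebra K E] [IsAlgClosed E]
    (hU : Univ K E) {r : ℕ} (hr : 3 ≤ r) (B : Set E) (hB : B.Finite) (Y Y' h a b n : Mat r E)
    (c : Fin r → E) (hY : ent Y ⊆ acl K B) (hYd : Y.det ≠ 0) (hY' : ent Y' ⊆ acl K B)
    (hYd' : Y'.det ≠ 0) (hh : ent h ⊆ acl K B) (hhd : h.det ≠ 0)
    (hc : ∀ k, c k ≠ 0 ∧ c k ∈ acl K (∅ : Set E)) (ha : a.det = 1) (hb : b.det = 1) (hn : UpU n)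
    (hP : Y * (a * b * a.adjugate * b.adjugate) * Y' * h = h * (diagonal c * n)) :
    rk K (B ∪ ent a ∪ ent b) ≤ rk K B + (3 * (r * (r - 1) / 2) + (r - 1)) ∧
      (rk K (B ∪ ent a ∪ ent b) = rk K B + (3 * (r * (r - 1) / 2) + (r - 1)) →
        rk K B + (r ^ 2 - 1) ≤ rk K (B ∪ ent a)) := by
  classical
  -- units
  have mk : ∀ M : Mat r E, M.det ≠ 0 → ∃ u : (Mat r E)ˣ, (u : Mat r E) = M := fun M hM =>
    ((Matrix.isUnit_iff_isUnit_det _).2 (isUnit_iff_ne_zero.2 hM))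
  have hnd : n.det ≠ 0 := by
    have : n.det = 1 := by
      rw [Matrix.det_of_isUpperTriangular (fun i j hij => hn.2 i j hij)]
      exact Finset.prod_eq_one fun i _ => hn.1 i
    rw [this]; exact one_ne_zero
  have hcd : (diagonal c).det ≠ 0 := by
    rw [Matrix.det_diagonal]
    exact Finset.prod_ne_zero_iff.2 fun i _ => (hc i).1
  obtain ⟨Yu, rfl⟩ := mk Y hYd
  obtain ⟨Zu, rfl⟩ := mk Y' hYd'
  obtain ⟨hu, rfl⟩ := mk h hhd
  obtain ⟨au, rfl⟩ := mk a (by rw [ha]; exact one_ne_zero)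
  obtain ⟨bu, rfl⟩ := mk b (by rw [hb]; exact one_ne_zero)
  obtain ⟨nu, rfl⟩ := mk n hnd
  obtain ⟨cu, hcu⟩ := mk _ hcd
  have hadj : ∀ u : (Mat r E)ˣ, (u : Mat r E).det = 1 →
      (u : Mat r E).adjugate = ((u⁻¹ : (Mat r E)ˣ) : Mat r E) := by
    intro u hu1
    rw [Matrix.coe_units_inv, Matrix.inv_def, hu1, Ring.inverse_one, one_smul]
  rw [hadj au ha, hadj bu hb, ← hcu] at hP
  have hP' : Yu * (au * bu * au⁻¹ * bu⁻¹) * Zu * hu = hu * (cu * nu) := by
    apply Units.ext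
    simpa only [Units.val_mul] using hP
  set a' := bu * au⁻¹ * bu⁻¹ with ha'
  have ha'2 : a' = au⁻¹ * Yu⁻¹ * hu * cu * nu * hu⁻¹ * Zu⁻¹ := by
    have h1 : hu * cu * nu = Yu * (au * bu * au⁻¹ * bu⁻¹) * Zu * hu := by
      rw [hP', mul_assoc]
    have h2 : au⁻¹ * Yu⁻¹ * hu * cu * nu * hu⁻¹ * Zu⁻¹ =
        au⁻¹ * Yu⁻¹ * (hu * cu * nu) * hu⁻¹ * Zu⁻¹ := by group
    rw [h2, h1, ha']
    group
  set g := hu⁻¹ * Zu⁻¹ * au⁻¹ * Yu⁻¹ * hu * cu with hg
  have hng : nu * g = (nu * hu⁻¹ * Zu⁻¹) * a' * (nu * hu⁻¹ * Zu⁻¹)⁻¹ := by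
    rw [ha'2, hg]; group
  set â := hu⁻¹ * Yu * au * Yu⁻¹ * hu with hâ
  have hâ2 : â = (hu⁻¹ * Yu) * au * (hu⁻¹ * Yu)⁻¹ := by
    rw [hâ]; group
  set q := hu⁻¹ * Yu * Zu * hu with hq
  have haq : g = (â * q)⁻¹ * cu := by
    rw [hg, hâ, hq]; group
  -- entries
  set N := r * (r - 1) / 2 with hN
  set F : IntermediateField K E := acl K (B ∪ ent (au : Mat r E)) with hF
  have hBF : acl K B ≤ F := acl_mono Set.subset_union_left
  have hcB : ent (cu : Mat r E) ⊆ (acl K B : Set E) := by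
    rw [hcu, E1_ent]
    intro i j
    by_cases hij : i = j
    · subst hij
      rw [diagonal_apply_eq]
      exact acl_mono (Set.empty_subset B) (hc i).2
    · rw [diagonal_apply_ne _ hij]
      exact zero_mem _
  have aF : ent (au : Mat r E) ⊆ (F : Set E) := Set.subset_union_right.trans (subset_acl _)
  have YF : ent (Yu : Mat r E) ⊆ (F : Set E) := hY.trans hBF
  have ZF : ent (Zu : Mat r E) ⊆ (F : Set E) := hY'.trans hBF
  have hF' : ent (hu : Mat r E) ⊆ (F : Set E) := hh.trans hBF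
  have cF : ent (cu : Mat r E) ⊆ (F : Set E) := hcB.trans hBF
  have gF : ent (g : Mat r E) ⊆ (F : Set E) := by
    rw [hg]
    exact E1_unit_mul (E1_unit_mul (E1_unit_mul (E1_unit_mul (E1_unit_mul (E1_unit_inv hF')
      (E1_unit_inv ZF)) (E1_unit_inv aF)) (E1_unit_inv YF)) hF') cF
  have âF : ent (â : Mat r E) ⊆ (F : Set E) := by
    rw [hâ]
    exact E1_unit_mul (E1_unit_mul (E1_unit_mul (E1_unit_mul (E1_unit_inv hF') YF) aF)
      (E1_unit_inv YF)) hF'
  have qB : ent (q : Mat r E) ⊆ (acl K B : Set E) := by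
    rw [hq]
    exact E1_unit_mul (E1_unit_mul (E1_unit_mul (E1_unit_inv hh) hY) hY') hh
  have haâ : ent (au : Mat r E) ⊆ (acl K (B ∪ ent (â : Mat r E)) : Set E) := by
    have h1 : au = (hu⁻¹ * Yu)⁻¹ * â * (hu⁻¹ * Yu) := by rw [hâ2]; group
    have h2 : acl K B ≤ acl K (B ∪ ent (â : Mat r E)) := acl_mono Set.subset_union_left
    have h3 : ent (â : Mat r E) ⊆ (acl K (B ∪ ent (â : Mat r E)) : Set E) :=
      Set.subset_union_right.trans (subset_acl _)
    rw [h1]
    exact E1_unit_mul (E1_unit_mul (E1_unit_inv (E1_unit_mul (E1_unit_inv (hh.trans h2))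
      (hY.trans h2))) h3) (E1_unit_mul (E1_unit_inv (hh.trans h2)) (hY.trans h2))
  -- characteristic polynomials and centralizers
  have hcp1 : ((nu : Mat r E) * (g : Mat r E)).charpoly = ((au⁻¹ : (Mat r E)ˣ) : Mat r E).charpoly := by
    rw [← Units.val_mul, hng, Units.val_mul, Units.val_mul, E1_charpoly_conj, ha', Units.val_mul,
      Units.val_mul, E1_charpoly_conj]
  have hcp2 : (â : Mat r E).charpoly = (au : Mat r E).charpoly := by
    rw [hâ2, Units.val_mul, Units.val_mul, E1_charpoly_conj]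
  have hz0 : zeta ((au⁻¹ : (Mat r E)ˣ) : Mat r E) = zeta (au : Mat r E) := by
    rw [← hadj au ha, zeta_adjugate _ ha]
  have hzc : ∀ (M : Mat r E) (u : (Mat r E)ˣ),
      zeta ((u : Mat r E) * M * ((u⁻¹ : (Mat r E)ˣ) : Mat r E)) = zeta M := fun M u =>
    zeta_conj M _ _ (Units.mul_inv u)
  have hz1 : zeta ((nu : Mat r E) * (g : Mat r E)) = zeta (au : Mat r E) := by
    rw [← Units.val_mul, hng, Units.val_mul, Units.val_mul, hzc, ha', Units.val_mul,
      Units.val_mul, hzc, hz0]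
  have hz2 : zeta (â : Mat r E) = zeta (au : Mat r E) := by
    rw [hâ2, Units.val_mul, Units.val_mul, hzc]
  have hcpF : cpc ((nu : Mat r E) * (g : Mat r E)) ⊆ (F : Set E) := by
    have : cpc ((nu : Mat r E) * (g : Mat r E)) = cpc ((au⁻¹ : (Mat r E)ˣ) : Mat r E) := by
      unfold cpc; rw [hcp1]
    rw [this]
    exact E1_cpc (E1_unit_inv aF)
  have hcpâ : cpc (â : Mat r E) = cpc (au : Mat r E) := by
    unfold cpc; rw [hcp2]
  have hlev : levs (g : Mat r E) = levs ((â : Mat r E) * (q : Mat r E)) := by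
    have h1 : (g : Mat r E) = ((â : Mat r E) * (q : Mat r E))⁻¹ * diagonal c := by
      rw [haq, Units.val_mul, hcu, Matrix.coe_units_inv, Units.val_mul]
    rw [h1]
    exact levs_inv _ (by rw [← Units.val_mul]; exact E1_det_ne _) c fun k => (hc k).1
  -- (1)
  have fa : (ent (au : Mat r E)).Finite := ent_finite _
  have fn : (ent (nu : Mat r E)).Finite := ent_finite _
  have fb : (ent (bu : Mat r E)).Finite := ent_finite _
  set B₁ : Set E := B ∪ ent (au : Mat r E) ∪ ent (nu : Mat r E) with hB₁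
  have fB₁ : B₁.Finite := (hB.union fa).union fn
  have hFB₁ : F ≤ acl K B₁ := acl_mono Set.subset_union_left
  have nB₁ : ent (nu : Mat r E) ⊆ (acl K B₁ : Set E) :=
    Set.subset_union_right.trans (subset_acl _)
  have a'B₁ : ent (a' : Mat r E) ⊆ (acl K B₁ : Set E) := by
    rw [ha'2]
    exact E1_unit_mul (E1_unit_mul (E1_unit_mul (E1_unit_mul (E1_unit_mul (E1_unit_mul
      (E1_unit_inv (aF.trans hFB₁)) (E1_unit_inv (YF.trans hFB₁))) (hF'.trans hFB₁))
      (cF.trans hFB₁)) nB₁) (E1_unit_inv (hF'.trans hFB₁))) (E1_unit_inv (ZF.trans hFB₁))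
  have i1 : rk K (B₁ ∪ ent (bu : Mat r E)) ≤ rk K B₁ + (zeta (au : Mat r E) - 1) := by
    refine rk_union fB₁ ?_
    rw [← hz0]
    refine boundZ (by omega) B₁ (bu : Mat r E) _ (a' : Mat r E)
      (E1_unit_inv (aF.trans hFB₁)) a'B₁ hb ?_
    rw [← Units.val_mul, ← Units.val_mul, ha']
    congr 1
    group
  have i0 : rk K (B ∪ ent (au : Mat r E) ∪ ent (bu : Mat r E)) ≤
      rk K (B₁ ∪ ent (bu : Mat r E)) := by
    refine rk_mono (fB₁.union fb) ?_
    refine Set.Subset.trans ?_ (subset_acl _)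
    exact Set.union_subset_union_left _ Set.subset_union_left
  -- (2)
  obtain ⟨S, e, hS, he1, he2⟩ := exists_chain hU r ((nu : Mat r E) * (g : Mat r E)) B₁ fB₁
    (E1_mul nB₁ (gF.trans hFB₁))
  rw [hz1] at he1
  have i2 : rk K (B₁ ∪ S) ≤ rk K (B ∪ ent (au : Mat r E)) +
      ((r - 1).choose 2 + (levs (g : Mat r E)).card) := by
    refine le_trans (rk_mono ?_ ?_) (rk_union (hB.union fa)
      (boundH r (B ∪ ent (au : Mat r E)) (nu : Mat r E) (g : Mat r E) S gF (E1_det_ne g) hn hcpF hS))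
    · exact (hB.union fa).union (fn.union hS.finite)
    · refine Set.Subset.trans ?_ (subset_acl _)
      rw [hB₁, Set.union_assoc (B ∪ ent (au : Mat r E))]
  -- (3)
  obtain ⟨S', e', hS', he1', he2'⟩ := exists_chain hU r (â : Mat r E)
    (B ∪ ent (au : Mat r E)) (hB.union fa) âF
  rw [hz2] at he1'
  have fcp : (cpc (au : Mat r E)).Finite := E1_cpc_finite _
  obtain ⟨m, hm1, hm2⟩ := boundQ r (B ∪ cpc (au : Mat r E)) (â : Mat r E) (q : Mat r E) S'
    (qB.trans (acl_mono Set.subset_union_left)) (E1_det_ne q) (E1_det_ne â)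
    (by rw [hcpâ]; exact Set.subset_union_right.trans (subset_acl _)) hS'
  have i3 : rk K (B ∪ ent (au : Mat r E) ∪ S') ≤ rk K (B ∪ cpc (au : Mat r E)) + m := by
    refine le_trans (rk_mono ?_ ?_) (rk_union (hB.union fcp) hm2)
    · exact (hB.union fcp).union ((ent_finite _).union hS'.finite)
    · have h1 : B ∪ ent (â : Mat r E) ⊆
          B ∪ cpc (au : Mat r E) ∪ (ent (â : Mat r E) ∪ S') := by
        intro x hx
        rcases hx with hx | hx
        · exact Or.inl (Or.inl hx)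
        · exact Or.inr (Or.inl hx)
      refine Set.union_subset (Set.union_subset ?_ ?_) ?_
      · exact (Set.subset_union_left.trans h1).trans (subset_acl _)
      · exact haâ.trans (acl_mono h1)
      · refine Set.Subset.trans ?_ (subset_acl _)
        exact Set.subset_union_right.trans Set.subset_union_right
  rw [← hlev] at hm1
  -- (4)
  have i4 : rk K (B ∪ cpc (au : Mat r E)) ≤ rk K B + (r - 1) := rk_union hB (bound_cpc B _ ha)
  have i4' : ¬ (au : Mat r E).charpoly.Separable →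
      rk K (B ∪ cpc (au : Mat r E)) ≤ rk K B + (r - 2) := fun h =>
    rk_union hB (bound_cpc' (by omega) B _ ha h)
  -- arithmetic
  have hNN : r * (r - 1) = 2 * N := by
    rw [hN, Nat.mul_div_cancel' (Nat.even_mul_pred_self r).two_dvd]
  have hCh : (r - 1).choose 2 + (r - 1) = N := by
    obtain ⟨k, rfl⟩ : ∃ k, r = k + 2 := ⟨r - 2, by omega⟩
    rw [Nat.choose_two_right]
    have e1 : (k + 2 - 1) * (k + 2 - 1 - 1) = (k + 1) * k := rfl
    have e2 : (k + 2) * (k + 2 - 1) = (k + 1) * k + 2 * (k + 1) := by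
      have : k + 2 - 1 = k + 1 := rfl
      rw [this]; ring
    rw [hN, e1, e2, Nat.add_mul_div_left _ _ (by norm_num)]
    rfl
  have hr2 : r ^ 2 - 1 = 2 * N + (r - 1) := by
    rw [← hNN]
    obtain ⟨k, rfl⟩ : ∃ k, r = k + 1 := ⟨r - 1, by omega⟩
    have : k + 1 - 1 = k := rfl
    rw [this]
    have : (k + 1) ^ 2 = (k + 1) * k + k + 1 := by ring
    omega
  refine ⟨?_, ?_⟩
  · split_ifs at hm1 <;> omega
  · intro heq
    by_cases hsep : (au : Mat r E).charpoly.Separable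
    · have hf : (levs (g : Mat r E)).card = 0 := by
        by_contra hf
        have hne : (levs (g : Mat r E)).Nonempty := Finset.card_pos.1 (Nat.pos_of_ne_zero hf)
        rw [if_pos ⟨hr, hne⟩] at hm1
        omega
      have hzz : zeta (au : Mat r E) ≤ r := zeta_separable _ hsep
      rw [hr2]
      omega
    · exfalso
      have := i4' hsep
      split_ifs at hm1 <;> omega

end Pool.Agent.MP_3f0e22_ag
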