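import Pool.Agent.MP_3f0e22_ag.Defs2

/-!
# MP_3f0e22_ag, version 2: the transcendence degree
-/

set_option autoImplicit false

open Matrix MvPolynomial

namespace Pool.Agent.MP_3f0e22_ag.RK1

section RK

variable {K E : Type*} [Field K] [Field E] [Algebra K E]

theorem ent_finite {r : ℕ} (M : Mat r E) : (ent M).Finite := by
  have h : ent M = Set.range fun p : Fin r × Fin r => M p.1 p.2 := by
    ext x
    simp [ent]
  rw [h]
  exact Set.finite_range _

theorem Letter.ents_finite {r : ℕ} (l : Letter r E) : l.ents.Finite := by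
  cases l with
  | pt A => exact ent_finite A
  | hd a b => exact (ent_finite a).union (ent_finite b)

theorem wents_finite {r : ℕ} (w : List (Letter r E)) : (wents w).Finite := by
  have h : wents w = ⋃ l ∈ {l | l ∈ w}, l.ents := by
    ext x
    simp [wents]
  rw [h]
  exact (List.finite_toSet w).biUnion fun l _ => Letter.ents_finite l

theorem Bd_rk {A : Set E} (hA : A.Finite) : Bd K ∅ A (rk K A) := by
  classical
  have h : {n | Bd K (∅ : Set E) A n}.Nonempty := by
    refine ⟨hA.toFinset.card, ?_⟩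
    have h1 := Bd.of_finset (K := K) (B := (∅ : Set E)) hA.toFinset
    rw [hA.coe_toFinset] at h1
    exact h1
  exact Nat.sInf_mem h

theorem rk_le {A : Set E} {n : ℕ} (h : Bd K ∅ A n) : rk K A ≤ n := Nat.sInf_le h

theorem rk_mono {A A' : Set E} (hA' : A'.Finite) (h : A ⊆ acl K A') : rk K A ≤ rk K A' := by
  refine rk_le ((Bd_rk hA').mono (Set.empty_subset _) ?_ le_rfl)
  rw [Set.empty_union]
  exact h

theorem rk_union {B A : Set E} {n : ℕ} (hB : B.Finite) (h : Bd K B A n) :
    rk K (B ∪ A) ≤ rk K B + n := by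
  refine rk_le ((Bd_rk hB).trans ?_)
  rw [Set.empty_union]
  exact h

theorem Bd.adjoin {T A : Set E} {n : ℕ}
    (h : Bd (IntermediateField.adjoin K T) (∅ : Set E) A n) : Bd K T A n := by
  obtain ⟨S, hS, hA⟩ := h
  refine ⟨S, hS, fun x hx => ?_⟩
  have h1 := hA hx
  rw [SetLike.mem_coe, mem_acl] at h1 ⊢
  rw [Set.empty_union] at h1
  have h2 := IntermediateField.adjoin_adjoin_left K T (S : Set E)
  have h3 : IsAlgebraic ((IntermediateField.adjoin (IntermediateField.adjoin K T)
      (S : Set E)).restrictScalars K) x := h1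
  rw [h2] at h3
  exact h3

theorem acl_isAlg {A : Set E} {p : Polynomial E} (hp : ∀ i, p.coeff i ∈ acl K A) (h0 : p ≠ 0)
    {x : E} (hx : p.eval x = 0) : x ∈ acl K A := by
  have h1 : p ∈ Polynomial.lifts (algebraMap (acl K A) E) := by
    rw [Polynomial.lifts_iff_coeff_lifts]
    intro n
    exact ⟨⟨_, hp n⟩, rfl⟩
  obtain ⟨q, hq⟩ := (Polynomial.mem_lifts _).1 h1
  have h2 : IsAlgebraic (acl K A) x := by
    refine ⟨q, ?_, ?_⟩
    · rintro rfl
      exact h0 (by rw [← hq, Polynomial.map_zero])
    · rw [Polynomial.aeval_def, ← Polynomial.eval_map, hq, hx]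
  have h3 : IsAlgebraic (algebraicClosure (IntermediateField.adjoin K A) E) x := h2
  rw [mem_acl]
  haveI : Algebra.IsAlgebraic (IntermediateField.adjoin K A)
      (algebraicClosure (IntermediateField.adjoin K A) E) := inferInstance
  exact IsAlgebraic.restrictScalars _ h3

end RK

end Pool.Agent.MP_3f0e22_ag.RK1

namespace Pool.Agent.MP_3f0e22_ag

alias ent_finite := RK1.ent_finite
alias Letter.ents_finite := RK1.Letter.ents_finite
alias wents_finite := RK1.wents_finite
alias Bd_rk := RK1.Bd_rk
alias rk_le := RK1.rk_le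
alias rk_mono := RK1.rk_mono
alias rk_union := RK1.rk_union
alias Bd.adjoin := RK1.Bd.adjoin
alias acl_isAlg := RK1.acl_isAlg

end Pool.Agent.MP_3f0e22_ag
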