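import Pool.Agent.MP_3f0e22_ag.Defs3
import Pool.Agent.MP_3f0e22_ag.S4
import Pool.Agent.MP_3f0e22_ag.RK1
import Pool.Agent.MP_3f0e22_ag.E1

set_option autoImplicit false

open Matrix MvPolynomial NumberField

namespace Pool.Agent.MP_3f0e22_ag.V3_DG4

variable {K E : Type*} [Field K] [Field E] [Algebra K E] {r : ℕ}

/-- DG4 -/
theorem prinOK_of_rk (f f' a : Mat r E) {B : Set E} (hB : B.Finite) (hf : ent f ⊆ acl K B)
    (hff : f' * f = 1) (ha : a.det = 1) (h : rk K B + (r ^ 2 - 1) ≤ rk K (B ∪ ent a))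
    (hr : 2 ≤ r) : PrinOK (f' * a * f) := by
  classical
  intro s h0
  have hf' : f' = f⁻¹ := (Matrix.inv_eq_left_inv hff).symm
  have hfe : ent f' ⊆ acl K B := by
    rw [hf']
    exact E1_inv hf
  have hdet : f'.det * f.det = 1 := by rw [← Matrix.det_mul, hff, Matrix.det_one]
  have hd1 : f'.det ≠ 0 := left_ne_zero_of_mul_eq_one hdet
  have hd2 : f.det ≠ 0 := right_ne_zero_of_mul_eq_one hdet
  have hsr : s.card ≤ r := by
    have := Finset.card_le_univ s
    rwa [Fintype.card_fin] at this
  rcases Nat.lt_or_ge s.card r with hk | hk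
  · -- the permutation
    let e : Fin s.card ≃ {x // x ∈ s} := s.equivFin.symm
    let e0 : {x : Fin r // (x : ℕ) < s.card} ≃ Fin s.card :=
      { toFun := fun x => ⟨x.1.1, x.2⟩
        invFun := fun i => ⟨Fin.castLE hsr i, i.2⟩
        left_inv := fun x => rfl
        right_inv := fun i => rfl }
    let e1 : {x : Fin r // (x : ℕ) < s.card} ≃ {x // x ∈ s} := e0.trans e
    let σ : Equiv.Perm (Fin r) := e1.extendSubtype
    have hσ : ∀ i : Fin s.card, σ (Fin.castLE hsr i) = (e i : Fin r) := fun i =>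
      e1.extendSubtype_apply_of_mem (Fin.castLE hsr i) i.2
    set M : Mat r E := f'.submatrix σ id with hM
    set N : Mat r E := f.submatrix id σ with hN
    have hMN : M * a * N = (f' * a * f).submatrix σ σ := rfl
    have hMe : ent M ⊆ acl K B := by
      rintro _ ⟨i, j, rfl⟩
      exact hfe ⟨σ i, j, rfl⟩
    have hNe : ent N ⊆ acl K B := by
      rintro _ ⟨i, j, rfl⟩
      exact hf ⟨i, σ j, rfl⟩
    have hs : ((Equiv.Perm.sign σ : ℤˣ) : E) ≠ 0 := by
      rcases Int.units_eq_one_or (Equiv.Perm.sign σ) with h1 | h1 <;> simp [h1]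
    have hMd : M.det ≠ 0 := by
      rw [hM, Matrix.det_permute]
      exact mul_ne_zero hs hd1
    have hNd : N.det ≠ 0 := by
      rw [hN, Matrix.det_permute']
      exact mul_ne_zero hs hd2
    have hD : D s.card (M * a * N) = 0 := by
      rw [hMN, D, dif_pos hsr]
      rw [← h0, ← Matrix.det_submatrix_equiv_self e]
      congr 1
      ext i j
      rw [Matrix.submatrix_apply, Matrix.submatrix_apply, Matrix.submatrix_apply,
        Matrix.submatrix_apply, hσ, hσ]
    have h1 := RK1.rk_union hB (S4.boundE B M N a hMe hMd hNe hNd ha hk hD)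
    have h2 : 4 ≤ r ^ 2 := by nlinarith
    omega
  · have hs : ∀ x, x ∈ s := by
      have := Finset.eq_univ_of_card s (by rw [Fintype.card_fin]; omega)
      intro x
      rw [this]
      exact Finset.mem_univ x
    have h1 : (f' * a * f).det = 1 := by
      rw [Matrix.det_mul, Matrix.det_mul, ha, mul_one, hdet]
    have h2 := Matrix.det_submatrix_equiv_self (Equiv.subtypeUnivEquiv hs) (f' * a * f)
    rw [h1] at h2
    have h3 : ((f' * a * f).submatrix (Equiv.subtypeUnivEquiv hs) (Equiv.subtypeUnivEquiv hs)).det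
        = 0 := h0
    rw [h2] at h3
    exact one_ne_zero h3

end Pool.Agent.MP_3f0e22_ag.V3_DG4

namespace Pool.Agent.MP_3f0e22_ag

alias prinOK_of_rk := V3_DG4.prinOK_of_rk

end Pool.Agent.MP_3f0e22_ag
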