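import Pool.Agent.MP_3f0e22_ag.Ba

/-! # Block GEN1: a vanishing minor lowers the transcendence degree -/

set_option autoImplicit false

open Matrix MvPolynomial

namespace Pool.Agent.MP_3f0e22_ag.Gen1

variable {K E : Type*} [Field K] [Field E] [Algebra K E] {r : ℕ}

theorem ent_mul {F : IntermediateField K E} {M N : Mat r E} (hM : ent M ⊆ F) (hN : ent N ⊆ F) :
    ent (M * N) ⊆ F := by
  rintro _ ⟨i, j, rfl⟩
  rw [Matrix.mul_apply]
  exact sum_mem fun k _ => mul_mem (hM ⟨i, k, rfl⟩) (hN ⟨k, j, rfl⟩)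

theorem ent_one {F : IntermediateField K E} : ent (1 : Mat r E) ⊆ F := by
  rintro _ ⟨i, j, rfl⟩
  rw [Matrix.one_apply]
  split_ifs
  · exact one_mem F
  · exact zero_mem F

/-- the products without `y 0` -/
def Hq (u y : ℕ → Mat r E) : ℕ → Mat r E
  | 0 => u 0
  | i + 1 => u (i + 1) * y (i + 1) * Hq u y i

theorem Q_eq (u y : ℕ → Mat r E) (i : ℕ) : Q u y (i + 1) = Hq u y i * y 0 := by
  induction i with
  | zero => simp [Q, Hq]
  | succ i ih =>
    rw [Q, ih, Hq]
    simp only [Matrix.mul_assoc]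

/-- entries of `y 1, …, y m` and `u 0, …, u (m - 1)` -/
def BS (u y : ℕ → Mat r E) (m : ℕ) : Set E :=
  {x | (∃ i, 1 ≤ i ∧ i ≤ m ∧ x ∈ ent (y i)) ∨ ∃ i < m, x ∈ ent (u i)}

theorem card_lt (r : ℕ) :
    2 * (Finset.univ.filter fun p : Fin r × Fin r => p.2 < p.1).card = r * (r - 1) := by
  have h1 : (Finset.univ.filter fun p : Fin r × Fin r => p.2 < p.1).card =
      (Finset.univ.filter fun p : Fin r × Fin r => p.1 < p.2).card := by
    apply Finset.card_bij (fun p _ => (p.2, p.1))
    · intro p hp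
      simpa using hp
    · rintro ⟨a, b⟩ _ ⟨c, d⟩ _ h
      simp only [Prod.mk.injEq] at h ⊢
      exact ⟨h.2, h.1⟩
    · rintro ⟨a, b⟩ hp
      exact ⟨(b, a), by simpa using hp, rfl⟩
  have h2 : (Finset.univ.filter fun p : Fin r × Fin r => p.2 < p.1).card +
      (Finset.univ.filter fun p : Fin r × Fin r => p.1 < p.2).card +
      (Finset.univ.filter fun p : Fin r × Fin r => p.1 = p.2).card = r * r := by
    rw [← Finset.card_union_of_disjoint, ← Finset.card_union_of_disjoint]
    · have : (Finset.univ.filter fun p : Fin r × Fin r => p.2 < p.1) ∪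
          (Finset.univ.filter fun p : Fin r × Fin r => p.1 < p.2) ∪
          (Finset.univ.filter fun p : Fin r × Fin r => p.1 = p.2) = Finset.univ := by
        ext p
        simp only [Finset.mem_union, Finset.mem_filter, Finset.mem_univ, true_and, iff_true]
        rcases lt_trichotomy p.1 p.2 with h | h | h
        · exact Or.inl (Or.inr h)
        · exact Or.inr h
        · exact Or.inl (Or.inl h)
      rw [this, Finset.card_univ, Fintype.card_prod, Fintype.card_fin]
    · rw [Finset.disjoint_left]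
      intro p hp hp2
      simp only [Finset.mem_union, Finset.mem_filter, Finset.mem_univ, true_and] at hp hp2
      rcases hp with hp | hp
      · exact absurd hp2 hp.ne'
      · exact absurd hp2 hp.ne
    · rw [Finset.disjoint_left]
      intro p hp hp2
      simp only [Finset.mem_filter, Finset.mem_univ, true_and] at hp hp2
      exact absurd hp (not_lt.mpr hp2.le)
  have h3 : (Finset.univ.filter fun p : Fin r × Fin r => p.1 = p.2).card = r := by
    have : (Finset.univ.filter fun p : Fin r × Fin r => p.1 = p.2) =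
        Finset.univ.image fun i : Fin r => (i, i) := by
      ext ⟨a, b⟩
      simp [eq_comm]
    rw [this, Finset.card_image_of_injective, Finset.card_univ, Fintype.card_fin]
    intro a b h
    exact (Prod.mk.inj h).1
  rw [← h1] at h2
  have h4 : r * (r - 1) + r = r * r := by
    cases r with
    | zero => rfl
    | succ n => simp; ring
  omega

theorem Bd_low (B : Set E) {y : Mat r E} (hy : LowU y) :
    Bd K B (ent y) (Finset.univ.filter fun p : Fin r × Fin r => p.2 < p.1).card := by
  classical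
  refine ⟨(Finset.univ.filter fun p : Fin r × Fin r => p.2 < p.1).image
    (fun p => y p.1 p.2), Finset.card_image_le, ?_⟩
  rintro _ ⟨i, j, rfl⟩
  rcases lt_trichotomy i j with h | h | h
  · rw [hy.2 i j h]; exact zero_mem _
  · subst h; rw [hy.1 i]; exact one_mem _
  · apply subset_acl
    right
    simp only [Finset.coe_image, Finset.coe_filter, Finset.mem_univ, true_and, Set.mem_image,
      Set.mem_ofPred_eq]
    exact ⟨(i, j), h, rfl⟩

theorem Bd_up (B : Set E) {u : Mat r E} (hu : UpU u) :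
    Bd K B (ent u) (Finset.univ.filter fun p : Fin r × Fin r => p.2 < p.1).card := by
  have h1 := Bd_low (K := K) B hu.transpose
  refine h1.mono (subset_acl _) ?_ le_rfl
  rintro _ ⟨i, j, rfl⟩
  exact subset_acl _ (Or.inr ⟨j, i, rfl⟩)

theorem Bd_BS (u y : ℕ → Mat r E) (m : ℕ) (hy : ∀ i, 1 ≤ i → i ≤ m → LowU (y i))
    (hu : ∀ i < m, UpU (u i)) : Bd K ∅ (BS u y m) (m * (r * (r - 1))) := by
  induction m with
  | zero =>
    refine (Bd.of_subset (K := K) (B := (∅ : Set E)) (A := ∅) (Set.empty_subset _)).mono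
      (subset_acl _) ?_ (by simp)
    rintro x (⟨i, h1, h2, _⟩ | ⟨i, h1, _⟩)
    · omega
    · omega
  | succ m ih =>
    have h1 := ih (fun i hi hi2 => hy i hi (by omega)) (fun i hi => hu i (by omega))
    have h2 := h1.trans (Bd_low (K := K) _ (hy (m + 1) (by omega) le_rfl))
    have h3 := h2.trans (Bd_up (K := K) _ (hu m (by omega)))
    have hc := card_lt r
    refine h3.mono (subset_acl _) ?_ ?_
    · rintro x (⟨i, h1, h2, hx⟩ | ⟨i, h1, hx⟩)
      · apply subset_acl
        right
        rcases Nat.lt_or_ge m i with hi | hi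
        · have : i = m + 1 := by omega
          subst this
          exact Or.inl (Or.inr hx)
        · exact Or.inl (Or.inl (Or.inl ⟨i, h1, hi, hx⟩))
      · apply subset_acl
        right
        rcases Nat.lt_or_ge i m with hi | hi
        · exact Or.inl (Or.inl (Or.inr ⟨i, hi, hx⟩))
        · have : i = m := by omega
          subst this
          exact Or.inr hx
    · have h5 : (m + 1) * (r * (r - 1)) = m * (r * (r - 1)) + r * (r - 1) := by ring
      omega

theorem ent_Hq (u y : ℕ → Mat r E) (m i : ℕ) (hi : i < m) :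
    ent (Hq u y i) ⊆ acl K (BS u y m) := by
  induction i with
  | zero =>
    rintro x hx
    exact subset_acl _ (Or.inr ⟨0, hi, hx⟩)
  | succ i ih =>
    rw [Hq]
    refine ent_mul (ent_mul ?_ ?_) (ih (by omega))
    · intro x hx
      exact subset_acl _ (Or.inr ⟨i + 1, hi, hx⟩)
    · intro x hx
      exact subset_acl _ (Or.inl ⟨i + 1, by omega, by omega, hx⟩)

theorem det_Hq (u y : ℕ → Mat r E) (i : ℕ) (hy : ∀ j, 1 ≤ j → j ≤ i → LowU (y j))
    (hu : ∀ j ≤ i, UpU (u j)) : (Hq u y i).det = 1 := by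
  induction i with
  | zero => exact (hu 0 le_rfl).det
  | succ i ih =>
    rw [Hq, Matrix.det_mul, Matrix.det_mul, (hu (i + 1) le_rfl).det,
      (hy (i + 1) (by omega) le_rfl).det, ih (fun j h1 h2 => hy j h1 (by omega))
      (fun j h => hu j (by omega))]
    ring

theorem det_Q (u y : ℕ → Mat r E) (i : ℕ) (hy : ∀ j < i, LowU (y j))
    (hu : ∀ j < i, UpU (u j)) : (Q u y i).det = 1 := by
  induction i with
  | zero => rw [Q, Matrix.det_one]
  | succ i ih =>
    rw [Q, Matrix.det_mul, Matrix.det_mul, (hu i (by omega)).det, (hy i (by omega)).det,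
      ih (fun j h => hy j (by omega)) (fun j h => hu j (by omega))]
    ring

/-- an upper triangular matrix with unit diagonal entries is `diagonal * UpU` -/
theorem exists_up {U : Mat r E} {δ : Fin r → E} (hδ : ∀ k, δ k ≠ 0)
    (h0 : ∀ i j : Fin r, j < i → U i j = 0) (h1 : ∀ i, U i i = δ i) :
    ∃ v : Mat r E, UpU v ∧ U = diagonal δ * v := by
  refine ⟨Matrix.of fun i j => (δ i)⁻¹ * U i j, ⟨fun i => ?_, fun i j hij => ?_⟩, ?_⟩
  · rw [Matrix.of_apply, h1, inv_mul_cancel₀ (hδ i)]
  · rw [Matrix.of_apply, h0 i j hij, mul_zero]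
  · ext i j
    rw [Matrix.diagonal_mul, Matrix.of_apply, mul_inv_cancel_left₀ (hδ i)]

theorem D_up {v : Mat r E} (hv : UpU v) {k : ℕ} (hk : k ≤ r) : D k v = 1 := by
  have h := D_mul_up hv k (1 : Mat r E)
  rw [Matrix.one_mul, D_one k hk] at h
  exact h

/-- the last `y` lies in the field generated by the entries of `Q` -/
theorem ent_last (F : IntermediateField K E) {y M : Mat r E} (hy : LowU y) (hM : ent M ⊆ F)
    {δ : Fin r → E} (hδ : ∀ k, δ k ≠ 0)
    (h0 : ∀ i j : Fin r, j < i → (y * M) i j = 0) (h1 : ∀ i, (y * M) i i = δ i) :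
    ent y ⊆ F := by
  obtain ⟨v, hv, hyM⟩ := exists_up hδ h0 h1
  have hD : ∀ k ≤ r, D k M = ∏ i : Fin k, if h : k ≤ r then δ (i.castLE h) else 1 := by
    intro k hk
    rw [← D_low_mul hy k M, hyM, D_diag_mul δ hk, D_up hv hk, mul_one]
    refine Finset.prod_congr rfl fun i _ => ?_
    rw [dif_pos hk]
  have hD0 : ∀ k ≤ r, D k M ≠ 0 := by
    intro k hk
    rw [hD k hk]
    refine Finset.prod_ne_zero_iff.2 fun i _ => ?_
    rw [dif_pos hk]
    exact hδ _
  -- descend `M` to `F`
  let M' : Mat r F := fun i j => ⟨M i j, hM ⟨i, j, rfl⟩⟩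
  have hM' : M'.map (algebraMap F E) = M := by
    ext i j; rfl
  have hu' : ∀ k ≤ r, IsUnit (D k M') := by
    intro k hk
    rw [isUnit_iff_ne_zero]
    intro h
    apply hD0 k hk
    rw [← hM', D_map, h, map_zero]
  obtain ⟨l, w, d, hl, hw, hM2⟩ := exists_lu M' hu'
  -- compare the two decompositions
  have hadj : y.adjugate * y = 1 := by
    rw [Matrix.adjugate_mul, hy.det, one_smul]
  have hadj' : y * y.adjugate = 1 := by
    rw [Matrix.mul_adjugate, hy.det, one_smul]
  have e1 : M = y.adjugate * diagonal δ * v := by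
    calc M = (y.adjugate * y) * M := by rw [hadj, Matrix.one_mul]
      _ = y.adjugate * (y * M) := by rw [Matrix.mul_assoc]
      _ = y.adjugate * diagonal δ * v := by rw [hyM, Matrix.mul_assoc]
  have e2 : M = l.map (algebraMap F E) * diagonal (fun k => (algebraMap F E) (d k : F)) *
      w.map (algebraMap F E) := by
    rw [← hM', hM2, Matrix.map_mul, Matrix.map_mul]
    congr 2
    rw [Matrix.diagonal_map (map_zero _)]
  let d1 : Fin r → Eˣ := fun k => Units.mk0 (δ k) (hδ k)
  let d2 : Fin r → Eˣ := fun k => Units.map (algebraMap F E : F →* E) (d k)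
  have key := lu_unique (R := E) (l := y.adjugate) (l' := l.map (algebraMap F E)) (v := v)
    (v' := w.map (algebraMap F E)) (d := d1) (d' := d2) hy.adjugate
    (hl.map _) hv (hw.map _) (by
      have e3 : (fun k => ((d1 k : Eˣ) : E)) = δ := rfl
      have e4 : (fun k => ((d2 k : Eˣ) : E)) = fun k => (algebraMap F E) (d k : F) := rfl
      rw [e3, e4, ← e1, ← e2])
  have e5 : y = (l.map (algebraMap F E)).adjugate := by
    have h5 : (y.adjugate).adjugate * y.adjugate = 1 := by
      rw [Matrix.adjugate_mul, hy.adjugate.det, one_smul]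
    rw [← key.1]
    calc y = ((y.adjugate).adjugate * y.adjugate) * y := by rw [h5, Matrix.one_mul]
      _ = (y.adjugate).adjugate * (y.adjugate * y) := by rw [Matrix.mul_assoc]
      _ = (y.adjugate).adjugate := by rw [hadj, Matrix.mul_one]
  have e6 : (l.map (algebraMap F E)).adjugate = (l.adjugate).map (algebraMap F E) :=
    (RingHom.map_adjugate (algebraMap F E) l).symm
  rintro _ ⟨i, j, rfl⟩
  rw [e5, e6]
  exact (l.adjugate i j).2

/-- GEN1 -/
theorem bad_minor (hr : 3 ≤ r) {s : ℕ} (hs : 1 ≤ s) (δ : Fin r → K) (hδ : ∀ k, δ k ≠ 0)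
    (u y : ℕ → Mat r E) (h : InZ s (fun k => algebraMap K E (δ k)) u y)
    (hbad : ∃ i ≤ s, ∃ k ≤ r, D k (Q u y i) = 0) :
    Bd K ∅ (ents s u y) (s * (r * (r - 1)) - r) := by
  have hδE : ∀ k, algebraMap K E (δ k) ≠ 0 := fun k => by
    rw [ne_eq, map_eq_zero]; exact hδ k
  obtain ⟨v, hv, hyQ⟩ := exists_up hδE h.zero h.diag
  -- minors of the last `Q`
  have hDs : ∀ k, ∀ hk : k ≤ r, D k (Q u y s) =
      ∏ i : Fin k, algebraMap K E (δ (i.castLE hk)) := by
    intro k hk
    rw [← D_low_mul (h.low s le_rfl) k, hyQ, D_diag_mul _ hk, D_up hv hk, mul_one]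
  have hDs0 : ∀ k ≤ r, D k (Q u y s) ≠ 0 := by
    intro k hk
    rw [hDs k hk]
    exact Finset.prod_ne_zero_iff.2 fun i _ => hδE _
  obtain ⟨i, his, k, hkr, hik⟩ := hbad
  have hi1 : i < s := by
    rcases Nat.lt_or_ge i s with h1 | h1
    · exact h1
    · have : i = s := le_antisymm his h1
      subst this
      exact absurd hik (hDs0 k hkr)
  have hi0 : 1 ≤ i := by
    rcases Nat.eq_zero_or_pos i with h1 | h1
    · subst h1
      rw [Q, D_one k hkr] at hik
      exact absurd hik one_ne_zero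
    · exact h1
  have hk0 : 1 ≤ k := by
    rcases Nat.eq_zero_or_pos k with h1 | h1
    · subst h1
      rw [D_zero] at hik
      exact absurd hik one_ne_zero
    · exact h1
  have hdetQ : ∀ j ≤ s, (Q u y j).det = 1 := fun j hj =>
    det_Q u y j (fun j' h1 => h.low j' (by omega)) (fun j' h1 => h.up j' (by omega))
  have hk1 : k < r := by
    rcases Nat.lt_or_ge k r with h1 | h1
    · exact h1
    · have : k = r := le_antisymm hkr h1
      subst this
      rw [D_self, hdetQ i his] at hik
      exact absurd hik one_ne_zero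
  obtain ⟨n, rfl⟩ : ∃ n, r = n + 1 := ⟨r - 1, by omega⟩
  obtain ⟨s', rfl⟩ : ∃ s', s = s' + 2 := ⟨s - 2, by omega⟩
  obtain ⟨i', rfl⟩ : ∃ i', i = i' + 1 := ⟨i - 1, by omega⟩
  have hQs : Q u y (s' + 2) = u (s' + 1) * (y (s' + 1) * Hq u y s') * y 0 := by
    rw [Q_eq, Hq]
    simp only [Matrix.mul_assoc]
  have hB : Bd K ∅ (BS u y (s' + 1)) ((s' + 1) * ((n + 1) * (n + 1 - 1))) :=
    Bd_BS u y (s' + 1) (fun i _ hi => h.low i (by omega)) (fun i hi => h.up i (by omega))
  have hmain := boundB (K := K) n (by omega) (BS u y (s' + 1)) (y (s' + 1) * Hq u y s')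
    (Hq u y i') (u (s' + 1)) (y 0)
    (ent_mul (fun x hx => subset_acl _ (Or.inl ⟨s' + 1, by omega, le_rfl, hx⟩))
      (ent_Hq u y (s' + 1) s' (by omega)))
    (by
      rw [Matrix.det_mul, (h.low (s' + 1) (by omega)).det,
        det_Hq u y s' (fun j _ hj => h.low j (by omega)) (fun j hj => h.up j (by omega)), one_mul]
      exact one_ne_zero)
    (ent_Hq u y (s' + 1) i' (by omega))
    (by
      rw [det_Hq u y i' (fun j _ hj => h.low j (by omega)) (fun j hj => h.up j (by omega))]
      exact one_ne_zero)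
    (h.up (s' + 1) (by omega)) (h.low 0 (by omega))
    (by
      intro k' h1 h2
      rw [← hQs]
      refine ⟨?_, hDs0 k' (by omega)⟩
      rw [hDs k' (by omega)]
      exact prod_mem fun j _ => IntermediateField.algebraMap_mem _ _)
    ⟨k, hk0, by omega, by rw [← Q_eq]; exact hik⟩
  have hall := hB.trans (hmain.mono (B' := ∅ ∪ BS u y (s' + 1))
    (fun x hx => subset_acl _ (Or.inr hx)) (Set.subset_union_right.trans (subset_acl _)) le_rfl)
  refine hall.mono (subset_acl _) ?_ ?_
  · -- all entries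
    have hy' : ∀ j ≤ s' + 1, ent (y j) ⊆
        acl K (∅ ∪ (BS u y (s' + 1) ∪ (ent (u (s' + 1)) ∪ ent (y 0)))) := by
      intro j hj x hx
      apply subset_acl
      right
      rcases Nat.eq_zero_or_pos j with h1 | h1
      · subst h1
        exact Or.inr (Or.inr hx)
      · exact Or.inl (Or.inl ⟨j, h1, hj, hx⟩)
    have hu' : ∀ j < s' + 2, ent (u j) ⊆
        acl K (∅ ∪ (BS u y (s' + 1) ∪ (ent (u (s' + 1)) ∪ ent (y 0)))) := by
      intro j hj x hx
      apply subset_acl
      right
      rcases Nat.lt_or_ge j (s' + 1) with h1 | h1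
      · exact Or.inl (Or.inr ⟨j, h1, hx⟩)
      · have : j = s' + 1 := by omega
        subst this
        exact Or.inr (Or.inl hx)
    have hQ : ∀ j ≤ s' + 2, ent (Q u y j) ⊆
        acl K (∅ ∪ (BS u y (s' + 1) ∪ (ent (u (s' + 1)) ∪ ent (y 0)))) := by
      intro j
      induction j with
      | zero => intro _; rw [Q]; exact ent_one
      | succ j ih =>
        intro hj
        rw [Q]
        exact ent_mul (ent_mul (hu' j (by omega)) (hy' j (by omega))) (ih (by omega))
    rintro x (⟨j, hj, hx⟩ | ⟨j, hj, hx⟩)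
    · rcases Nat.lt_or_ge j (s' + 2) with h1 | h1
      · exact hy' j (by omega) hx
      · have : j = s' + 2 := by omega
        subst this
        exact ent_last _ (h.low (s' + 2) le_rfl) (hQ (s' + 2) le_rfl) hδE h.zero h.diag hx
    · exact hu' j hj hx
  · have h1 : n + 1 - 1 = n := by omega
    rw [h1]
    obtain ⟨n', rfl⟩ : ∃ n', n = n' + 2 := ⟨n - 2, by omega⟩
    have h2 : (s' + 1) * ((n' + 2 + 1) * (n' + 2)) + ((n' + 2) ^ 2 - 1) + (n' + 2 + 1) =
        (s' + 2) * ((n' + 2 + 1) * (n' + 2)) := by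
      have h3 : (n' + 2) ^ 2 - 1 = n' ^ 2 + 4 * n' + 3 := by
        have : (n' + 2) ^ 2 = n' ^ 2 + 4 * n' + 3 + 1 := by ring
        rw [this]; rfl
      rw [h3]; ring
    omega

end Pool.Agent.MP_3f0e22_ag.Gen1

namespace Pool.Agent.MP_3f0e22_ag

alias bad_minor := Gen1.bad_minor

end Pool.Agent.MP_3f0e22_ag
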