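import Pool.Agent.MP_3f0e22_ag.Q3
import Pool.Agent.MP_3f0e22_ag.CHN
import Pool.Agent.MP_3f0e22_ag.RK2
import Pool.Agent.MP_3f0e22_ag.Ba
import Pool.Agent.MP_3f0e22_ag.Gen1

/-!
# MP_3f0e22_ag, version 2, block S6: letters and stable flags
-/

set_option autoImplicit false

open Matrix

namespace Pool.Agent.MP_3f0e22_ag.S6

variable {K E : Type*} [Field K] [Field E] [Algebra K E] {r : ℕ}

/-- a matrix of determinant one has at most `r ^ 2 - 1` independent entries -/
theorem bound_det_one (B : Set E) (a : Mat r E) (ha : a.det = 1) : Bd K B (ent a) (r ^ 2 - 1) := by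
  classical
  cases r with
  | zero =>
    refine (Bd.of_subset (K := K) (B := B) (A := (∅ : Set E)) (Set.empty_subset _)).mono
      (subset_acl _) (fun x hx => ?_) (Nat.zero_le _)
    obtain ⟨i, _⟩ := hx
    exact i.elim0
  | succ n =>
    have hexp := Matrix.det_succ_row_zero a
    rw [ha] at hexp
    -- a nonzero cofactor
    obtain ⟨j, hj⟩ : ∃ j : Fin (n + 1), (a.submatrix Fin.succ j.succAbove).det ≠ 0 := by
      by_contra hcon
      push Not at hcon
      rw [Finset.sum_eq_zero (fun j _ => by rw [hcon j, mul_zero])] at hexp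
      exact one_ne_zero hexp
    set I : Finset (Fin (n + 1) × Fin (n + 1)) := Finset.univ.erase (0, j) with hI
    have hIc : I.card = (n + 1) ^ 2 - 1 := by
      rw [hI, Finset.card_erase_of_mem (Finset.mem_univ _), Finset.card_univ, Fintype.card_prod,
        Fintype.card_fin, sq]
    refine ⟨I.image fun q => a q.1 q.2, Finset.card_image_le.trans hIc.le, ?_⟩
    set F := acl K (B ∪ ↑(I.image fun q => a q.1 q.2)) with hF
    have hmem : ∀ i k, (i, k) ≠ ((0 : Fin (n + 1)), j) → a i k ∈ F := by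
      intro i k hik
      exact subset_acl _ (Or.inr (Finset.mem_coe.2 (Finset.mem_image.2
        ⟨(i, k), Finset.mem_erase.2 ⟨hik, Finset.mem_univ _⟩, rfl⟩)))
    have hcof : ∀ k : Fin (n + 1), (a.submatrix Fin.succ k.succAbove).det ∈ F := by
      intro k
      refine det_mem_of F _ fun i m => ?_
      rw [Matrix.submatrix_apply]
      refine hmem _ _ fun hcon => ?_
      exact Fin.succ_ne_zero i (Prod.ext_iff.1 hcon).1
    rintro _ ⟨i, k, rfl⟩
    by_cases hik : (i, k) = ((0 : Fin (n + 1)), j)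
    · have hi0 : i = 0 := congrArg Prod.fst hik
      have hkj : k = j := congrArg Prod.snd hik
      rw [hi0]
      rw [← hkj] at hj
      rw [← Finset.add_sum_erase _ _ (Finset.mem_univ k)] at hexp
      have h1 : a 0 k = (1 - ∑ m ∈ Finset.univ.erase k, (-1) ^ (m : ℕ) * a 0 m *
          (a.submatrix Fin.succ m.succAbove).det) /
          ((-1) ^ (k : ℕ) * (a.submatrix Fin.succ k.succAbove).det) := by
        rw [eq_div_iff (mul_ne_zero (pow_ne_zero _ (neg_ne_zero.2 one_ne_zero)) hj)]
        linear_combination -hexp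
      change a 0 k ∈ F
      rw [h1]
      refine div_mem (sub_mem (one_mem F) (sum_mem fun m hm => ?_))
        (mul_mem (pow_mem (neg_mem (one_mem F)) _) (hcof k))
      refine mul_mem (mul_mem (pow_mem (neg_mem (one_mem F)) _) (hmem _ _ fun hcon => ?_)) (hcof m)
      exact (Finset.mem_erase.1 hm).1 ((congrArg Prod.snd hcon).trans hkj.symm)
    · exact hmem i k hik

theorem bound_letter [IsAlgClosed E] (l : Letter r E) (hl : l.Valid K) (B : Set E) :
    Bd K B l.ents l.cnt := by
  cases l with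
  | pt A =>
    obtain ⟨hd, hc⟩ := hl
    obtain ⟨S, hS⟩ := exists_ch r A
    have hcp : cpc A ⊆ acl K B := by
      rintro _ ⟨i, rfl⟩
      exact acl_mono (Set.empty_subset B) (hc i)
    have h1d : (1 : Mat r E).det ≠ 0 := by rw [Matrix.det_one]; exact one_ne_zero
    obtain ⟨n, hn, hbd⟩ := boundQ (K := K) r B A 1 S Gen1.ent_one h1d hd hcp hS
    · refine hbd.mono (subset_acl _) (fun x hx => subset_acl _ (Or.inr (Or.inl hx))) ?_
      change n ≤ r * (r - 1)
      omega
  | hd a b =>
    obtain ⟨ha, hb⟩ := hl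
    have h1 := bound_det_one (K := K) B a ha
    have h2 := bound_det_one (K := K) (B ∪ ent a) b hb
    refine (h1.trans h2).mono (subset_acl _)
      (Set.subset_union_right.trans (subset_acl _)) ?_
    change _ ≤ 2 * (r ^ 2 - 1)
    omega

/-- An invertible matrix which stabilises a flag. -/
theorem Stab.exists_upU {M h : Mat r E} (hS : Stab M h) (hM : M.det ≠ 0) (hh : h.det ≠ 0)
    (hc : cpc M ⊆ acl K (∅ : Set E)) : ∃ (c : Fin r → E) (n : Mat r E),
      (∀ k, c k ≠ 0 ∧ c k ∈ acl K (∅ : Set E)) ∧ UpU n ∧ M * h = h * (diagonal c * n) := by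
  obtain ⟨v, hv, hMv⟩ := hS
  have hcp : M.charpoly = v.charpoly := by
    have h1 : h⁻¹ * h = 1 := Matrix.nonsing_inv_mul h (isUnit_iff_ne_zero.2 hh)
    have h2 : h * h⁻¹ = 1 := Matrix.mul_nonsing_inv h (isUnit_iff_ne_zero.2 hh)
    have h3 : M = h * (v * h⁻¹) := by
      rw [← Matrix.mul_assoc, ← hMv, Matrix.mul_assoc, h2, Matrix.mul_one]
    rw [h3, Matrix.charpoly_mul_comm, Matrix.mul_assoc, h1, Matrix.mul_one]
  have hdet : v.det ≠ 0 := by
    have h1 := congrArg Matrix.det hMv
    rw [Matrix.det_mul, Matrix.det_mul] at h1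
    intro hcon
    rw [hcon, mul_zero] at h1
    exact mul_ne_zero hM hh h1
  have hup : v.IsUpperTriangular := fun i j hij => hv i j hij
  have hdiag : ∀ k, v k k ≠ 0 := by
    rw [Matrix.det_of_isUpperTriangular hup] at hdet
    intro k
    exact Finset.prod_ne_zero_iff.1 hdet k (Finset.mem_univ k)
  obtain ⟨n, hn, hvn⟩ := Gen1.exists_up (U := v) (δ := fun k => v k k) hdiag hv (fun _ => rfl)
  refine ⟨fun k => v k k, n, fun k => ⟨hdiag k, ?_⟩, hn, by rw [← hvn]; exact hMv⟩
  refine acl_isAlg (K := K) (A := ∅) (p := M.charpoly) (fun i => hc ⟨i, rfl⟩)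
    (Matrix.charpoly_monic M).ne_zero ?_
  rw [hcp, Matrix.charpoly_of_isUpperTriangular v hup, Polynomial.eval_prod]
  exact Finset.prod_eq_zero (Finset.mem_univ k) (by simp)

end Pool.Agent.MP_3f0e22_ag.S6

namespace Pool.Agent.MP_3f0e22_ag

alias bound_letter := S6.bound_letter
alias Stab.exists_upU := S6.Stab.exists_upU

end Pool.Agent.MP_3f0e22_ag
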