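import Pool.Agent.MP_3f0e22_ag.VRKc
import Pool.Agent.MP_3f0e22_ag.HB
import Pool.Agent.MP_3f0e22_ag.S4
import Pool.Agent.MP_3f0e22_ag.S6

/-!
# [CV3-DG12] a generic matrix of determinant one is diagonalisable over the closure of its entries
-/

set_option autoImplicit false

open Matrix MvPolynomial

namespace Pool.Agent.MP_3f0e22_ag.V3_DG12

open Pool.Agent.MP_3f0e22_ag

variable {K E : Type*} [Field K] [Field E] [Algebra K E] {r : ℕ}

/-- DG1 -/
theorem rk_ent_le (M : Mat r E) (hM : M.det = 1) (hr : 1 ≤ r) (B : Set E) :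
    Bd K B (ent M) (r ^ 2 - 1) := S6.bound_det_one (K := K) B M hM

/-- an eigenvector over an intermediate field -/
theorem exists_eigvec (F : IntermediateField K E) (b : Mat r E) (hb : ent b ⊆ (F : Set E)) (l : E)
    (hl : l ∈ F) (h0 : b.charpoly.eval l = 0) :
    ∃ v : Fin r → E, v ≠ 0 ∧ (∀ i, v i ∈ F) ∧ b *ᵥ v = l • v := by
  obtain ⟨b₀, rfl⟩ := E1_lift hb
  set l₀ : F := ⟨l, hl⟩ with hl₀
  have h1 : b₀.charpoly.eval l₀ = 0 := by
    have h2 : (b₀.charpoly.map (algebraMap F E)).eval (algebraMap F E l₀) = 0 := by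
      rw [← Matrix.charpoly_map]
      exact h0
    rw [Polynomial.eval_map_algebraMap, Polynomial.aeval_algebraMap_apply,
      Polynomial.coe_aeval_eq_eval] at h2
    exact (map_eq_zero_iff _ (algebraMap F E).injective).1 h2
  rw [Matrix.eval_charpoly] at h1
  obtain ⟨v, hv0, hv⟩ := Matrix.exists_mulVec_eq_zero_iff.2 h1
  refine ⟨fun i => algebraMap F E (v i), ?_, fun i => (v i).2, ?_⟩
  · intro hcon
    refine hv0 (funext fun i => ?_)
    have := congrFun hcon i
    exact (map_eq_zero_iff _ (algebraMap F E).injective).1 this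
  · have h3 : b₀ *ᵥ v = l₀ • v := by
      rw [Matrix.sub_mulVec, sub_eq_zero] at hv
      rw [← hv]
      ext i
      rw [Matrix.scalar_apply, Matrix.mulVec_diagonal]
      rfl
    ext i
    have h4 := congrArg (algebraMap F E) (congrFun h3 i)
    rw [RingHom.map_mulVec] at h4
    simp only [Pi.smul_apply, smul_eq_mul, map_mul] at h4
    exact h4

/-- DG2 -/
theorem exists_diag [IsAlgClosed E] (hr : 2 ≤ r) (b : Mat r E) (hb : b.det = 1)
    (h : r ^ 2 - 1 ≤ rk K (ent b)) :
    ∃ (f : Mat r E) (β : Fin r → E), f.det ≠ 0 ∧ ent f ⊆ acl K (ent b) ∧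
      b * f = f * diagonal β ∧ ∏ i, β i = 1 ∧ r - 1 ≤ rk K (Set.range β) := by
  classical
  have hbd : b.det ≠ 0 := by rw [hb]; exact one_ne_zero
  have hcf : (cpc b).Finite := E1_cpc_finite b
  obtain ⟨S, hS⟩ := exists_ch r b
  have h1d : (1 : Mat r E).det ≠ 0 := by rw [Matrix.det_one]; exact one_ne_zero
  obtain ⟨n, hn, hbd'⟩ := boundQ (K := K) r (cpc b) b 1 S Gen1.ent_one h1d hbd (subset_acl _) hS
  have h1 : Bd K (cpc b) (ent b) (r * (r - 1)) :=
    hbd'.mono (subset_acl _) (fun x hx => subset_acl _ (Or.inr (Or.inl hx))) (by omega)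
  have h2 : rk K (ent b) ≤ rk K (cpc b) + r * (r - 1) :=
    (rk_mono (hcf.union (ent_finite b)) (Set.subset_union_right.trans (subset_acl _))).trans
      (rk_union hcf h1)
  have h3 : r - 1 ≤ rk K (cpc b) := by
    obtain ⟨s, rfl⟩ : ∃ s, r = s + 1 := ⟨r - 1, by omega⟩
    have h4 : (s + 1) ^ 2 = (s + 1) * s + s + 1 := by ring
    have h5 : (s + 1) * (s + 1 - 1) = (s + 1) * s := by rw [Nat.add_sub_cancel]
    rw [h5] at h2
    omega
  have hsep : b.charpoly.Separable := by
    by_contra hns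
    have h4 := rk_le (bound_cpc' (K := K) hr ∅ b hb hns)
    omega
  have hspl := IsAlgClosed.splits b.charpoly
  have hm := b.charpoly_monic
  have hnd : b.charpoly.roots.Nodup :=
    (Polynomial.nodup_roots_iff_of_splits hm.ne_zero hspl).2 hsep
  have hcard : Multiset.card b.charpoly.roots = r := by
    rw [← hspl.natDegree_eq_card_roots, Matrix.charpoly_natDegree_eq_dim, Fintype.card_fin]
  have hfc : b.charpoly.roots.toFinset.card = r := by
    rw [Multiset.toFinset_card_of_nodup hnd, hcard]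
  let e : Fin r ≃ b.charpoly.roots.toFinset := (Finset.equivFinOfCardEq hfc).symm
  set β : Fin r → E := fun k => (e k : E) with hβ
  have hinj : Function.Injective β := Subtype.val_injective.comp e.injective
  have hroot : ∀ k, β k ∈ b.charpoly.roots := fun k => Multiset.mem_toFinset.1 (e k).2
  have hrange : ∀ x ∈ b.charpoly.roots, x ∈ Set.range β := by
    intro x hx
    refine ⟨e.symm ⟨x, Multiset.mem_toFinset.2 hx⟩, ?_⟩
    rw [hβ]
    simp
  have heval : ∀ k, b.charpoly.eval (β k) = 0 := fun k =>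
    (Polynomial.mem_roots hm.ne_zero).1 (hroot k)
  have hprod : ∏ i, β i = 1 := by
    have h4 : ∏ i, β i = ∏ x ∈ b.charpoly.roots.toFinset, x :=
      (Equiv.prod_comp e (fun x => (x : E))).trans
        (Finset.prod_coe_sort b.charpoly.roots.toFinset fun x => x)
    rw [h4, ← hb, Matrix.det_eq_prod_roots_charpoly]
    rw [Finset.prod, Multiset.toFinset_val, hnd.dedup, Multiset.map_id']
  have hbF : ent b ⊆ (acl K (ent b) : Set E) := subset_acl _
  have hβF : ∀ k, β k ∈ acl K (ent b) := fun k =>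
    acl_isAlg (p := b.charpoly) (fun i => E1_cpc hbF ⟨i, rfl⟩) hm.ne_zero (heval k)
  choose v hv0 hvF hv using fun k => exists_eigvec (acl K (ent b)) b hbF (β k) (hβF k) (heval k)
  refine ⟨Matrix.of fun i k => v k i, β, ?_, ?_, ?_, hprod, ?_⟩
  · have hli : LinearIndependent E v := by
      refine Module.End.eigenvectors_linearIndependent' (Matrix.toLin' b) β hinj v fun k => ?_
      refine ⟨?_, hv0 k⟩
      rw [Module.End.mem_eigenspace_iff, Matrix.toLin'_apply]
      exact hv k
    have hu : IsUnit (Matrix.of fun i k => v k i : Mat r E) := by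
      rw [← Matrix.linearIndependent_cols_iff_isUnit]
      exact hli
    exact ((Matrix.isUnit_iff_isUnit_det _).1 hu).ne_zero
  · rintro _ ⟨i, k, rfl⟩
    exact hvF k i
  · ext i k
    rw [Matrix.mul_diagonal, Matrix.mul_apply, Matrix.of_apply]
    have h5 := congrFun (hv k) i
    rw [Matrix.mulVec, dotProduct] at h5
    simp only [Pi.smul_apply, smul_eq_mul] at h5
    simp only [Matrix.of_apply]
    rw [h5, mul_comm]
  · refine h3.trans (rk_mono (Set.finite_range β) ?_)
    rintro _ ⟨i, rfl⟩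
    have h6 := S1.coeff_prod_mem (acl K (Set.range β)) b.charpoly.roots
      (fun x hx => subset_acl _ (hrange x hx)) i
    rw [← hspl.eq_prod_roots_of_monic hm] at h6
    exact h6

end Pool.Agent.MP_3f0e22_ag.V3_DG12

namespace Pool.Agent.MP_3f0e22_ag

alias rk_ent_le := V3_DG12.rk_ent_le
alias exists_diag := V3_DG12.exists_diag

end Pool.Agent.MP_3f0e22_ag
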