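import Pool.Agent.MP_3f0e22_ag.Defs3
import Pool.Agent.MP_3f0e22_ag.Acl
import Pool.Agent.MP_3f0e22_ag.Asm5
import Pool.Agent.MP_3f0e22_ag.E1

/-!
# MP_3f0e22_ag, version 3, block INV: zeta_smul, cpc_smul_adjugate
-/

set_option autoImplicit false

open Matrix

namespace Pool.Agent.MP_3f0e22_ag.V3_INV

open Pool.Agent.MP_3f0e22_ag

section

variable {K E : Type*} [Field K] [Field E] [Algebra K E] {r : ℕ}

theorem zeta_smul (M : Mat r E) {c : E} (hc : c ≠ 0) : zeta (c • M) = zeta M := by
  have h : LinearMap.mulLeft E (c • M) - LinearMap.mulRight E (c • M) =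
      c • (LinearMap.mulLeft E M - LinearMap.mulRight E M) := by
    ext X
    simp [smul_sub]
  rw [zeta, zeta, h, LinearMap.ker_smul _ _ hc]

theorem charpoly_smul (A : Mat r E) {c : E} (hc : c ≠ 0) :
    (c • A).charpoly = Polynomial.C (c ^ r) *
      (A.charpoly).comp (Polynomial.C c⁻¹ * Polynomial.X) := by
  have h1 : (c • A).charmatrix = (Polynomial.C c) •
      ((Polynomial.compRingHom (Polynomial.C c⁻¹ * Polynomial.X)).mapMatrix A.charmatrix) := by
    ext1 i j
    rw [Matrix.smul_apply, RingHom.mapMatrix_apply, Matrix.map_apply]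
    by_cases hij : i = j
    · subst hij
      rw [charmatrix_apply_eq, charmatrix_apply_eq]
      have hcc : (Polynomial.C c : Polynomial E) * Polynomial.C c⁻¹ = 1 := by
        rw [← Polynomial.C_mul, mul_inv_cancel₀ hc, Polynomial.C_1]
      simp only [Matrix.smul_apply, smul_eq_mul, map_mul, Polynomial.coe_compRingHom_apply,
        Polynomial.sub_comp, Polynomial.X_comp, Polynomial.C_comp]
      rw [mul_sub, ← mul_assoc, hcc, one_mul]
    · rw [charmatrix_apply_ne _ _ _ hij, charmatrix_apply_ne _ _ _ hij]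
      simp only [Matrix.smul_apply, smul_eq_mul, map_mul, Polynomial.coe_compRingHom_apply,
        Polynomial.neg_comp, Polynomial.C_comp]
      ring
  rw [Matrix.charpoly, h1, Matrix.det_smul, Fintype.card_fin, ← RingHom.map_det, map_pow]
  rfl

theorem cpc_smul_adjugate (M : Mat r E) (hM : M.det = 1) {c : E} (hc : c ∈ acl K (∅ : Set E)) :
    cpc (c • M.adjugate) ⊆ acl K (cpc M) := by
  have hcF : c ∈ acl K (cpc M) := acl_mono (Set.empty_subset _) hc
  have hsub : cpc M ⊆ acl K (cpc M) := subset_acl _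
  have hU : IsUnit M := (isUnit_iff_isUnit_det _).2 (by rw [hM]; exact isUnit_one)
  have hinv : M.adjugate = M⁻¹ := by
    rw [Matrix.inv_def, hM, Ring.inverse_one, one_smul]
  have hadj : ∀ i, (M.adjugate).charpoly.coeff i ∈ acl K (cpc M) := by
    intro i
    rw [hinv, charpoly_inv M hU, hM, Ring.inverse_one, ← reverse_charpoly]
    have h2 : ∀ j, M.charpoly.reverse.coeff j ∈ acl K (cpc M) := by
      intro j
      rw [Polynomial.coeff_reverse]
      exact hsub ⟨_, rfl⟩
    rcases neg_one_pow_eq_or (Polynomial E) (Fintype.card (Fin r)) with h | h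
    · rw [h]
      simpa using h2 i
    · rw [h]
      simpa using neg_mem (h2 i)
  rintro _ ⟨i, rfl⟩
  simp only
  by_cases h0 : c = 0
  · subst h0
    rw [zero_smul, charpoly_zero, Polynomial.coeff_X_pow]
    split_ifs
    · exact one_mem _
    · exact zero_mem _
  · rw [charpoly_smul _ h0, Polynomial.coeff_C_mul, Polynomial.comp_C_mul_X_coeff]
    exact mul_mem (pow_mem hcF _) (mul_mem (hadj i) (pow_mem (inv_mem hcF) _))

end

end Pool.Agent.MP_3f0e22_ag.V3_INV

namespace Pool.Agent.MP_3f0e22_ag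

alias zeta_smul := V3_INV.zeta_smul
alias cpc_smul_adjugate := V3_INV.cpc_smul_adjugate

end Pool.Agent.MP_3f0e22_ag
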