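import Pool.Agent.MP_3f0e22_ag.VPB
import Pool.Agent.MP_3f0e22_ag.VRKc
import Pool.Agent.MP_3f0e22_ag.VINV
import Pool.Agent.MP_3f0e22_ag.VDG12

/-!
# MP_3f0e22_ag, version 3, block GPR: the first pair of a generic representation is generic
-/

set_option autoImplicit false

open Matrix MvPolynomial

namespace Pool.Agent.MP_3f0e22_ag.V3_GPR

open Pool.Agent.MP_3f0e22_ag

variable {K E : Type*} [Field K] [Field E] [Algebra K E] {r : ℕ}

theorem det_comm (a b : Mat r E) (ha : a.det = 1) (hb : b.det = 1) :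
    (a * b * a.adjugate * b.adjugate).det = 1 := by
  rw [det_mul, det_mul, det_mul, det_adjugate, det_adjugate, ha, hb]
  simp

theorem cval_succ {g : ℕ} (a b : Fin (g + 1) → Mat r E) :
    cval a b = (a 0 * b 0 * (a 0).adjugate * (b 0).adjugate) *
      cval (fun j : Fin g => a j.succ) (fun j : Fin g => b j.succ) := by
  unfold cval
  rw [List.ofFn_succ, List.prod_cons]

theorem cval_zero (a b : Fin 0 → Mat r E) : cval a b = 1 := by
  unfold cval
  rw [List.ofFn_zero, List.prod_nil]

omit [Field E] in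
theorem cents_succ {g : ℕ} (a b : Fin (g + 1) → Mat r E) :
    cents a b = cents (fun j : Fin g => a j.succ) (fun j : Fin g => b j.succ) ∪
      ent (a 0) ∪ ent (b 0) := by
  ext x
  constructor
  · rintro ⟨j, hj⟩
    induction j using Fin.cases with
    | zero =>
      rcases hj with hj | hj
      · exact Or.inl (Or.inr hj)
      · exact Or.inr hj
    | succ j => exact Or.inl (Or.inl ⟨j, hj⟩)
  · rintro ((⟨j, hj⟩ | hx) | hx)
    · exact ⟨j.succ, hj⟩
    · exact ⟨0, Or.inl hx⟩
    · exact ⟨0, Or.inr hx⟩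

omit [Field E] in
theorem cents_zero (a b : Fin 0 → Mat r E) : cents a b = (∅ : Set E) := by
  ext x
  constructor
  · rintro ⟨j, _⟩
    exact j.elim0
  · intro hx
    exact hx.elim

theorem cents_finite {g : ℕ} (a b : Fin g → Mat r E) : (cents a b).Finite := by
  induction g with
  | zero => rw [cents_zero]; exact Set.finite_empty
  | succ g ih =>
    rw [cents_succ]
    exact ((ih _ _).union (ent_finite _)).union (ent_finite _)

theorem det_cval {g : ℕ} (a b : Fin g → Mat r E) (ha : ∀ j, (a j).det = 1)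
    (hb : ∀ j, (b j).det = 1) : (cval a b).det = 1 := by
  induction g with
  | zero => rw [cval_zero, det_one]
  | succ g ih =>
    rw [cval_succ, det_mul, det_comm _ _ (ha 0) (hb 0), one_mul]
    exact ih _ _ (fun j => ha j.succ) fun j => hb j.succ

theorem ent_comm {F : IntermediateField K E} (a b : Mat r E) (ha : ent a ⊆ (F : Set E))
    (hb : ent b ⊆ (F : Set E)) : ent (a * b * a.adjugate * b.adjugate) ⊆ (F : Set E) :=
  E1_mul (E1_mul (E1_mul ha hb) (E1_adj ha)) (E1_adj hb)

theorem ent_one (F : IntermediateField K E) : ent (1 : Mat r E) ⊆ (F : Set E) := by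
  rw [E1_ent]
  intro i j
  rw [Matrix.one_apply]
  split_ifs
  · exact one_mem F
  · exact zero_mem F

theorem ent_cval {F : IntermediateField K E} {g : ℕ} (a b : Fin g → Mat r E)
    (h : cents a b ⊆ (F : Set E)) : ent (cval a b) ⊆ (F : Set E) := by
  induction g with
  | zero => rw [cval_zero]; exact ent_one F
  | succ g ih =>
    rw [cents_succ] at h
    rw [cval_succ]
    refine E1_mul (ent_comm _ _ ?_ ?_) (ih _ _ ?_)
    · exact fun x hx => h (Or.inl (Or.inr hx))
    · exact fun x hx => h (Or.inr hx)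
    · exact fun x hx => h (Or.inl (Or.inl hx))

theorem rk_empty : rk K (∅ : Set E) = 0 :=
  Nat.le_zero.1 (rk_le (Bd.of_subset (Set.empty_subset _)))

theorem rk_ent (hr : 1 ≤ r) (M : Mat r E) (hM : M.det = 1) : rk K (ent M) ≤ r ^ 2 - 1 :=
  rk_le (rk_ent_le M hM hr ∅)

theorem rk_cents (hr : 1 ≤ r) {g : ℕ} (a b : Fin g → Mat r E) (ha : ∀ j, (a j).det = 1)
    (hb : ∀ j, (b j).det = 1) : rk K (cents a b) ≤ 2 * g * (r ^ 2 - 1) := by
  induction g with
  | zero => rw [cents_zero, rk_empty]; exact Nat.zero_le _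
  | succ g ih =>
    rw [cents_succ]
    have h1 := ih (fun j : Fin g => a j.succ) (fun j : Fin g => b j.succ) (fun j => ha j.succ)
      fun j => hb j.succ
    have h2 := rk_ent (K := K) hr _ (ha 0)
    have h3 := rk_ent (K := K) hr _ (hb 0)
    have h4 := rk_union_le (K := K)
      ((cents_finite (fun j : Fin g => a j.succ) (fun j : Fin g => b j.succ)).union
        (ent_finite (a 0))) (ent_finite (b 0))
    have h5 := rk_union_le (K := K)
      (cents_finite (fun j : Fin g => a j.succ) (fun j : Fin g => b j.succ))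
        (ent_finite (a 0))
    have h6 : 2 * (g + 1) * (r ^ 2 - 1) = 2 * g * (r ^ 2 - 1) + (r ^ 2 - 1) + (r ^ 2 - 1) := by
      ring
    omega

theorem ent_smul {F : IntermediateField K E} {ζ : E} (hζ : ζ ∈ F) {M : Mat r E}
    (hM : ent M ⊆ (F : Set E)) : ent (ζ • M) ⊆ (F : Set E) := by
  rw [E1_ent] at *
  intro i j
  rw [Matrix.smul_apply, smul_eq_mul]
  exact mul_mem hζ (hM i j)

theorem generic_pair [IsAlgClosed E] (hU : Univ K E) (hr : 3 ≤ r) {g : ℕ} (ζ : E)
    (hζ : ζ ∈ acl K (∅ : Set E)) (hζ0 : ζ ≠ 0) (a b : Fin (g + 2) → Mat r E)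
    (h : CRep ζ a b) (hrk : (2 * g + 3) * (r ^ 2 - 1) ≤ rk K (cents a b))
    (h1 : rk K (cpc (a 0 * b 0 * (a 0).adjugate * (b 0).adjugate)) + r ^ 2 ≤
      rk K (ent (a 0 * b 0 * (a 0).adjugate * (b 0).adjugate)) +
        zeta (a 0 * b 0 * (a 0).adjugate * (b 0).adjugate)) :
    2 * (r ^ 2 - 1) ≤ rk K (ent (a 0) ∪ ent (b 0)) := by
  classical
  have hrel := h.rel
  rw [cval_succ, cval_succ] at hrel
  set a' : Fin (g + 1) → Mat r E := fun j => a j.succ with ha'
  set b' : Fin (g + 1) → Mat r E := fun j => b j.succ with hb'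
  set a'' : Fin g → Mat r E := fun j => a' j.succ with ha''
  set b'' : Fin g → Mat r E := fun j => b' j.succ with hb''
  have da' : ∀ j, (a' j).det = 1 := fun j => h.det_a j.succ
  have db' : ∀ j, (b' j).det = 1 := fun j => h.det_b j.succ
  have da'' : ∀ j, (a'' j).det = 1 := fun j => da' j.succ
  have db'' : ∀ j, (b'' j).det = 1 := fun j => db' j.succ
  set Y : Mat r E := a 0 * b 0 * (a 0).adjugate * (b 0).adjugate with hY
  set Z : Mat r E := cval a'' b'' with hZ
  set W : Mat r E := a' 0 * b' 0 * (a' 0).adjugate * (b' 0).adjugate * Z with hW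
  have dY : Y.det = 1 := det_comm _ _ (h.det_a 0) (h.det_b 0)
  have dZ : Z.det = 1 := det_cval _ _ da'' db''
  have dW : W.det = 1 := by
    rw [hW, det_mul, det_comm _ _ (da' 0) (db' 0), dZ, one_mul]
  have hYW : W = ζ • Y.adjugate := by
    have h2 : Y.adjugate * (Y * W) = ζ • Y.adjugate := by
      rw [hrel, mul_smul_comm, mul_one]
    rw [← h2, ← mul_assoc, adjugate_mul, dY, one_smul, one_mul]
  have hYW' : Y = ζ • W.adjugate := by
    have h2 : (Y * W) * W.adjugate = ζ • W.adjugate := by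
      rw [hrel, smul_mul_assoc, one_mul]
    rw [← h2, mul_assoc, mul_adjugate, dW, one_smul, mul_one]
  set T : Set E := cents a'' b'' with hT
  have fT : T.Finite := cents_finite _ _
  have rT : rk K T ≤ 2 * g * (r ^ 2 - 1) := rk_cents (by omega) _ _ da'' db''
  -- pair bounds
  obtain ⟨e, he1, he2⟩ := pair_bound hU hr (T := ∅) Set.finite_empty (a 0) (b 0) 1
    (h.det_a 0) (h.det_b 0) (ent_one _) (by rw [det_one]; exact one_ne_zero)
  rw [mul_one, ← hY] at he1 he2
  rw [rk_empty, Set.empty_union, zero_add] at he2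
  obtain ⟨e', he1', he2'⟩ := pair_bound hU hr (T := T) fT (a' 0) (b' 0) Z
    (da' 0) (db' 0) (ent_cval _ _ (subset_acl _)) (by rw [dZ]; exact one_ne_zero)
  rw [← hW] at he1' he2'
  have hzW : zeta W = zeta Y := by
    rw [hYW, zeta_smul _ hζ0, zeta_adjugate _ dY]
  have hpW : rk K (cpc W) ≤ rk K (cpc Y) := by
    refine rk_mono (E1_cpc_finite _) ?_
    rw [hYW]
    exact cpc_smul_adjugate Y dY hζ
  -- submodularity
  set A : Set E := ent (a 0) ∪ ent (b 0) with hA
  set B : Set E := T ∪ ent (a' 0) ∪ ent (b' 0) with hB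
  have fA : A.Finite := (ent_finite _).union (ent_finite _)
  have fB : B.Finite := (fT.union (ent_finite _)).union (ent_finite _)
  have fC : (ent Y).Finite := ent_finite _
  have CA : ent Y ⊆ acl K A := by
    refine ent_comm _ _ ?_ ?_
    · exact Set.subset_union_left.trans (subset_acl _)
    · exact Set.subset_union_right.trans (subset_acl _)
  have CW : ent W ⊆ acl K B := by
    refine E1_mul (ent_comm _ _ ?_ ?_) (ent_cval _ _ ?_)
    · exact fun x hx => subset_acl _ (Or.inl (Or.inr hx))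
    · exact fun x hx => subset_acl _ (Or.inr hx)
    · exact fun x hx => subset_acl _ (Or.inl (Or.inl hx))
  have CB : ent Y ⊆ acl K B := by
    rw [hYW']
    exact ent_smul (acl_mono (Set.empty_subset _) hζ) (E1_adj CW)
  have hsub := rk_submod (K := K) fA fB fC CA
  have hBC : rk K (B ∪ ent Y) ≤ rk K B :=
    rk_mono fB (Set.union_subset (subset_acl _) CB)
  have hcen : rk K (cents a b) ≤ rk K (A ∪ B) := by
    refine rk_mono (fA.union fB) (Set.Subset.trans ?_ (subset_acl _))
    rw [cents_succ, ← ha', ← hb', cents_succ, ← ha'', ← hb'', ← hT]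
    rintro x ((hx | hx) | hx)
    · exact Or.inr hx
    · exact Or.inl (Or.inl hx)
    · exact Or.inl (Or.inr hx)
  -- arithmetic
  have hp : rk K (cpc Y) ≤ r - 1 := rk_le (S1.bound_cpc ∅ Y dY)
  have hp' : ¬ Y.charpoly.Separable → rk K (cpc Y) ≤ r - 2 := fun hs =>
    rk_le (S1.bound_cpc' (by omega) ∅ Y dY hs)
  have hs' : Y.charpoly.Separable → zeta Y ≤ r := fun hs => zeta_separable _ hs
  set N := r * (r - 1) / 2 with hN
  have hNN : r * (r - 1) = 2 * N := by
    rw [hN, Nat.mul_div_cancel' (Nat.even_mul_pred_self r).two_dvd]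
  have hr2 : r ^ 2 = 2 * N + r := by
    rw [← hNN]
    obtain ⟨k, rfl⟩ : ∃ k, r = k + 1 := ⟨r - 1, by omega⟩
    rw [Nat.add_sub_cancel]
    ring
  have hgD : (2 * g + 3) * (r ^ 2 - 1) = 2 * g * (r ^ 2 - 1) + 3 * (r ^ 2 - 1) := by ring
  rw [hgD] at hrk
  generalize 2 * g * (r ^ 2 - 1) = G at *
  rw [hzW] at he1'
  by_cases hs : Y.charpoly.Separable
  · have := hs' hs
    omega
  · have := hp' hs
    omega

end Pool.Agent.MP_3f0e22_ag.V3_GPR

namespace Pool.Agent.MP_3f0e22_ag

alias generic_pair := V3_GPR.generic_pair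

end Pool.Agent.MP_3f0e22_ag
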