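import Pool.Agent.MP_3f0e22_ag.Defs3

set_option autoImplicit false

open Matrix MvPolynomial NumberField

namespace Pool.Agent.MP_3f0e22_ag.V3_TW

/-- TW -/
theorem torus_pow {E : Type*} [Field E] {r : ℕ} (β : Fin r → E) (hβ : MulInd β)
    (G : MvPolynomial (Fin r) E) (h : ∀ n : ℕ, eval (fun i => β i ^ n) G = 0)
    (w : Fin r → E) (hw : ∏ i, w i = 1) : eval w G = 0 := by
  classical
  obtain ⟨hβ0, hβ1, hm⟩ := hβ
  have hw0 : ∀ i, w i ≠ 0 := by
    intro i h0
    have h1 := Finset.prod_eq_zero (Finset.mem_univ i) h0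
    rw [hw] at h1
    exact one_ne_zero h1
  let b : (Fin r →₀ ℕ) → E := fun d => ∏ i, β i ^ d i
  let W : (Fin r →₀ ℕ) → E := fun d => ∏ i, w i ^ d i
  have hb0 : ∀ d, b d ≠ 0 := fun d => Finset.prod_ne_zero_iff.2 fun i _ => pow_ne_zero _ (hβ0 i)
  have hkey : ∀ d d', b d = b d' → W d = W d' := by
    intro d d' hd
    have h1 : ∏ i, β i ^ ((d i : ℤ) - d' i) = 1 := by
      have h2 : ∀ i, β i ^ ((d i : ℤ) - d' i) = β i ^ d i / β i ^ d' i := fun i => by
        rw [zpow_sub₀ (hβ0 i), zpow_natCast, zpow_natCast]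
      simp_rw [h2]
      rw [Finset.prod_div_distrib]
      change b d / b d' = 1
      rw [hd, div_self (hb0 d')]
    have h2 := hm _ h1
    rcases isEmpty_or_nonempty (Fin r) with he | ⟨⟨i0⟩⟩
    · simp [W]
    · have h3 : ∀ i, w i ^ d i = w i ^ d' i * w i ^ ((d i0 : ℤ) - d' i0) := by
        intro i
        rw [← zpow_natCast, ← zpow_natCast, ← zpow_add₀ (hw0 i)]
        congr 1
        have h4 := h2 i i0
        omega
      change ∏ i, w i ^ d i = ∏ i, w i ^ d' i
      simp_rw [h3]
      rw [Finset.prod_mul_distrib, Finset.prod_zpow, hw, _root_.one_zpow, mul_one]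
  have hC : ∀ x ∈ G.support.image b, ∑ d ∈ G.support with b d = x, G.coeff d = 0 := by
    have hli : LinearIndependent E (fun x : E => ((powersHom E x : Multiplicative ℕ →* E) :
        Multiplicative ℕ → E)) :=
      (linearIndependent_monoidHom (Multiplicative ℕ) E).comp (powersHom E)
        (powersHom E).injective
    rw [linearIndependent_iff'] at hli
    refine hli (G.support.image b) (fun x => ∑ d ∈ G.support with b d = x, G.coeff d) ?_
    funext n
    rw [Finset.sum_apply, Pi.zero_apply]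
    have h1 := h (Multiplicative.toAdd n)
    rw [eval_eq'] at h1
    rw [← Finset.sum_fiberwise_of_maps_to (g := b)
      (fun d hd => Finset.mem_image_of_mem b hd)] at h1
    rw [← h1]
    refine Finset.sum_congr rfl fun x _ => ?_
    rw [Pi.smul_apply, powersHom_apply, smul_eq_mul, Finset.sum_mul]
    refine Finset.sum_congr rfl fun d hd => ?_
    rw [← (Finset.mem_filter.1 hd).2]
    congr 1
    change (∏ i, β i ^ d i) ^ (Multiplicative.toAdd n) = _
    rw [← Finset.prod_pow]
    refine Finset.prod_congr rfl fun i _ => ?_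
    rw [← pow_mul, ← pow_mul, mul_comm]
  rw [eval_eq', ← Finset.sum_fiberwise_of_maps_to (g := b)
      (fun d hd => Finset.mem_image_of_mem b hd)]
  refine Finset.sum_eq_zero fun x hx => ?_
  obtain ⟨d0, hd0, rfl⟩ := Finset.mem_image.1 hx
  have h1 : ∑ d ∈ G.support with b d = b d0, G.coeff d * ∏ i, w i ^ d i =
      ∑ d ∈ G.support with b d = b d0, G.coeff d * W d0 := by
    refine Finset.sum_congr rfl fun d hd => ?_
    rw [← hkey d d0 (Finset.mem_filter.1 hd).2]
  rw [h1, ← Finset.sum_mul, hC _ hx, zero_mul]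

end Pool.Agent.MP_3f0e22_ag.V3_TW

namespace Pool.Agent.MP_3f0e22_ag

alias torus_pow := V3_TW.torus_pow

end Pool.Agent.MP_3f0e22_ag
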