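import Mathlib

set_option autoImplicit false

open MvPolynomial

namespace Pool.Agent.MP_3f0e22_ag

namespace V3_ZS2

/-- ZS2: Nullstellensatz -/
theorem exists_point {E E' σ : Type} [Field E] [IsAlgClosed E] [Field E'] [Algebra E E']
    [Finite σ] (s : Set (MvPolynomial σ E)) (x : σ → E') (hx : ∀ f ∈ s, aeval x f = 0) :
    ∃ y : σ → E, ∀ f ∈ s, eval y f = 0 := by
  have hle : Ideal.span s ≤ RingHom.ker (aeval (R := E) x) :=
    Ideal.span_le.2 fun f hf => hx f hf
  have hne : Ideal.span s ≠ ⊤ := by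
    intro h
    have h1 : (1 : MvPolynomial σ E) ∈ RingHom.ker (aeval (R := E) x) := hle (h ▸ trivial)
    rw [RingHom.mem_ker, map_one] at h1
    exact one_ne_zero h1
  obtain ⟨m, hm, hsm⟩ := Ideal.exists_le_maximal _ hne
  obtain ⟨y, hy⟩ := isMaximal_iff_eq_vanishingIdeal_singleton.1 hm
  refine ⟨y, fun f hf => ?_⟩
  have h1 : f ∈ vanishingIdeal E {y} := hy ▸ hsm (Ideal.subset_span hf)
  rw [mem_vanishingIdeal_singleton_iff, aeval_eq_eval] at h1
  exact h1

end V3_ZS2

end Pool.Agent.MP_3f0e22_ag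

namespace Pool.Agent.MP_3f0e22_ag

alias exists_point := V3_ZS2.exists_point

end Pool.Agent.MP_3f0e22_ag
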