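import Pool.Agent.MP_3f0e22_ag.VZS1
import Pool.Agent.MP_3f0e22_ag.VZS2
import Pool.Agent.MP_3f0e22_ag.Gp

set_option autoImplicit false

open Matrix MvPolynomial

namespace Pool.Agent.MP_3f0e22_ag.V3_ZS3

open Pool.Agent.MP_3f0e22_ag

/-- scaling of the characteristic polynomial -/
theorem charpoly_smul_coeff {E : Type*} [Field E] {r : ℕ} (M : Mat r E) (a : E) (ha : a ≠ 0)
    (k : ℕ) : a ^ k * (a • M).charpoly.coeff k = a ^ r * M.charpoly.coeff k := by
  have h1 : (a • M).charpoly.comp (Polynomial.C a * Polynomial.X) =
      Polynomial.C (a ^ r) * M.charpoly := by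
    have h2 : (a • M).charpoly.comp (Polynomial.C a * Polynomial.X) =
        ((a • M).charmatrix.map (Polynomial.compRingHom (Polynomial.C a * Polynomial.X))).det := by
      rw [Matrix.charpoly]
      exact RingHom.map_det (Polynomial.compRingHom (Polynomial.C a * Polynomial.X))
        ((a • M).charmatrix)
    have h3 : (a • M).charmatrix.map (Polynomial.compRingHom (Polynomial.C a * Polynomial.X)) =
        (Polynomial.C a) • M.charmatrix := by
      ext1 i j
      by_cases hij : i = j
      · subst hij
        simp [Matrix.charmatrix_apply_eq, mul_sub]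
      · simp [Matrix.charmatrix_apply_ne _ _ _ hij]
    rw [h2, h3, Matrix.det_smul, Fintype.card_fin, Matrix.charpoly, map_pow]
  have h4 := congrArg (fun p => Polynomial.coeff p k) h1
  simp only [Polynomial.comp_C_mul_X_coeff, Polynomial.coeff_C_mul] at h4
  rw [mul_comm]
  exact h4

theorem exists_z {E : Type} [Field E] [IsAlgClosed E] {r : ℕ} (hr : 1 ≤ r) (α : Mat r E)
    (hα : PrinOK α) (χ : Polynomial E) (hχ : χ.Monic) (hd : χ.natDegree = r) :
    ∃ z : Fin r → E, (α * diagonal z).charpoly = χ := by
  classical
  -- the generic matrix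
  set M : Matrix (Fin r) (Fin r) (MvPolynomial (Option (Fin r)) E) :=
    α.map C * diagonal (fun i => X (some i)) with hM
  let f : Fin r → MvPolynomial (Option (Fin r)) E := fun k =>
    M.charpoly.coeff k - X none ^ (r - (k : ℕ)) * C (χ.coeff k)
  have hmap : ∀ {E' : Type} [Field E'] [Algebra E E'] (x : Option (Fin r) → E'),
      M.map (aeval x : MvPolynomial (Option (Fin r)) E →ₐ[E] E') =
        α.map (algebraMap E E') * diagonal (fun i => x (some i)) := by
    intro E' _ _ x
    rw [hM, Matrix.map_mul, Matrix.diagonal_map (map_zero _)]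
    congr 1
    · ext i j
      simp
    · ext i j
      simp
  have hcoef : ∀ {E' : Type} [Field E'] [Algebra E E'] (x : Option (Fin r) → E') (k : ℕ),
      aeval x (M.charpoly.coeff k) =
        (α.map (algebraMap E E') * diagonal (fun i => x (some i))).charpoly.coeff k := by
    intro E' _ _ x k
    rw [← hmap x]
    have h1 := Matrix.charpoly_map M ((aeval x : MvPolynomial (Option (Fin r)) E →ₐ[E] E') : _ →+* E')
    have h2 : M.map (aeval x : MvPolynomial (Option (Fin r)) E →ₐ[E] E') =
      M.map ((aeval x : MvPolynomial (Option (Fin r)) E →ₐ[E] E') : _ →+* E') := rfl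
    rw [h2, h1, Polynomial.coeff_map]
    rfl
  have hf : ∀ {E' : Type} [Field E'] [Algebra E E'] (x : Option (Fin r) → E') (k : Fin r),
      aeval x (f k) = (α.map (algebraMap E E') * diagonal (fun i => x (some i))).charpoly.coeff k -
        x none ^ (r - (k : ℕ)) * algebraMap E E' (χ.coeff k) := by
    intro E' _ _ x k
    simp only [f]
    rw [map_sub, hcoef x, map_mul, map_pow, aeval_X, aeval_C]
  let s : Finset (MvPolynomial (Option (Fin r)) E) := Finset.univ.image f
  have hs : s.card ≤ r := by
    refine Finset.card_image_le.trans ?_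
    rw [Finset.card_univ, Fintype.card_fin]
  obtain ⟨E', fE', aE', x, hx, -, hS⟩ := exists_generic s (1 : MvPolynomial (Option (Fin r)) E)
    (fun _ => 0) (by
      intro g hg
      obtain ⟨k, -, rfl⟩ := Finset.mem_image.1 hg
      have h1 := hf (E' := E) (fun _ => 0) k
      have hk := k.2
      have h2 : (α.map (algebraMap E E) * diagonal (fun _ : Fin r => (0 : E))) = 0 := by
        have : diagonal (fun _ : Fin r => (0 : E)) = 0 := Matrix.diagonal_zero
        rw [this, mul_zero]
      rw [h2, Matrix.charpoly_zero, Fintype.card_fin, Polynomial.coeff_X_pow,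
        if_neg (by omega), zero_pow (by omega), zero_mul, sub_zero] at h1
      exact h1) (by simp)
  have hx' : ∀ k : Fin r, (α.map (algebraMap E E') *
      diagonal (fun i => x (some i))).charpoly.coeff k =
        x none ^ (r - (k : ℕ)) * algebraMap E E' (χ.coeff k) := by
    intro k
    have h1 := hx (f k) (Finset.mem_image_of_mem _ (Finset.mem_univ _))
    rw [hf x k] at h1
    exact sub_eq_zero.1 h1
  have hα' : PrinOK (α.map (algebraMap E E')) := by
    intro t
    have h1 := hα t
    have h2 : ((α.map (algebraMap E E')).submatrix (fun i : t => (i : Fin r))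
        (fun i : t => (i : Fin r))) = ((algebraMap E E').mapMatrix
          (α.submatrix (fun i : t => (i : Fin r)) (fun i : t => (i : Fin r)))) := rfl
    rw [h2, ← RingHom.map_det]
    exact (_root_.map_ne_zero _).2 h1
  set N : Mat r E' := α.map (algebraMap E E') * diagonal (fun i => x (some i)) with hN
  have hNm := Matrix.charpoly_monic N
  have hNd : N.charpoly.natDegree = r := by
    rw [Matrix.charpoly_natDegree_eq_dim, Fintype.card_fin]
  have ha : x none ≠ 0 := by
    intro h0
    have h1 : N.charpoly = Polynomial.X ^ r := by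
      ext k
      rw [Polynomial.coeff_X_pow]
      rcases lt_trichotomy k r with h | h | h
      · rw [if_neg (by omega)]
        have := hx' ⟨k, h⟩
        rw [this, h0, zero_pow (by simp only; omega), zero_mul]
      · rw [if_pos h, h]
        have := hNm.coeff_natDegree
        rwa [hNd] at this
      · rw [if_neg (by omega)]
        exact Polynomial.coeff_eq_zero_of_natDegree_lt (by omega)
    have h2 := eq_zero_of_charpoly (α.map (algebraMap E E')) hα' (fun i => x (some i)) h1
    have h3 := hS ∅ (by
      rintro _ ⟨o, rfl⟩
      have : x o = 0 := by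
        cases o with
        | none => exact h0
        | some i => exact congrFun h2 i
      rw [this]
      exact zero_mem _)
    rw [Fintype.card_option, Fintype.card_fin, Finset.card_empty] at h3
    omega
  -- normalise
  let w : Fin r → E' := fun i => x (some i) / x none
  have hw : (α.map (algebraMap E E') * diagonal w).charpoly = χ.map (algebraMap E E') := by
    have e : N = x none • (α.map (algebraMap E E') * diagonal w) := by
      rw [← Matrix.mul_smul, ← Matrix.diagonal_smul, hN]
      congr 2
      ext i
      simp only [w, Pi.smul_apply, smul_eq_mul]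
      field_simp
    set N' := α.map (algebraMap E E') * diagonal w with hN'
    have hm' := Matrix.charpoly_monic N'
    have hd' : N'.charpoly.natDegree = r := by
      rw [Matrix.charpoly_natDegree_eq_dim, Fintype.card_fin]
    ext k
    rw [Polynomial.coeff_map]
    rcases lt_trichotomy k r with h | h | h
    · have h1 := charpoly_smul_coeff N' (x none) ha k
      rw [← e, hx' ⟨k, h⟩] at h1
      simp only at h1
      rw [← mul_assoc, ← pow_add, Nat.add_sub_cancel' h.le] at h1
      exact (mul_left_cancel₀ (pow_ne_zero _ ha) h1).symm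
    · rw [h]
      have h1 := hm'.coeff_natDegree
      rw [hd'] at h1
      have h2 := hχ.coeff_natDegree
      rw [hd] at h2
      rw [h1, h2, map_one]
    · rw [Polynomial.coeff_eq_zero_of_natDegree_lt (by omega),
        Polynomial.coeff_eq_zero_of_natDegree_lt (by omega), map_zero]
  -- the Nullstellensatz
  set M' : Matrix (Fin r) (Fin r) (MvPolynomial (Fin r) E) :=
    α.map C * diagonal (fun i => X i) with hM'
  have hmap' : ∀ {E' : Type} [Field E'] [Algebra E E'] (y : Fin r → E') (k : ℕ),
      aeval y (M'.charpoly.coeff k) =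
        (α.map (algebraMap E E') * diagonal y).charpoly.coeff k := by
    intro E' _ _ y k
    have h0 : M'.map ((aeval y : MvPolynomial (Fin r) E →ₐ[E] E') : _ →+* E') =
        α.map (algebraMap E E') * diagonal y := by
      rw [hM', Matrix.map_mul, Matrix.diagonal_map (map_zero _)]
      congr 1
      · ext i j
        simp
      · ext i j
        simp
    rw [← h0, Matrix.charpoly_map, Polynomial.coeff_map]
    rfl
  obtain ⟨y, hy⟩ := exists_point (E := E) (E' := E') (σ := Fin r)
    (Set.range fun k : ℕ => M'.charpoly.coeff k - C (χ.coeff k)) w (by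
      rintro _ ⟨k, rfl⟩
      rw [map_sub, hmap' w k, hw, Polynomial.coeff_map, aeval_C, sub_self])
  refine ⟨y, ?_⟩
  ext k
  have h1 := hy _ ⟨k, rfl⟩
  have h2 := hmap' (E' := E) y k
  have h3 : α.map (algebraMap E E) = α := by
    ext i j
    rfl
  rw [h3] at h2
  rw [← h2]
  rw [map_sub, eval_C, sub_eq_zero] at h1
  rw [← h1]
  rfl

end Pool.Agent.MP_3f0e22_ag.V3_ZS3

namespace Pool.Agent.MP_3f0e22_ag

alias exists_z := V3_ZS3.exists_z

end Pool.Agent.MP_3f0e22_ag
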