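import Pool.Agent.MP_3f0e22_ag.VKG
import Pool.Agent.MP_3f0e22_ag.VGPR
import Pool.Agent.MP_3f0e22_ag.VDG3
import Pool.Agent.MP_3f0e22_ag.VDG4
import Pool.Agent.MP_3f0e22_ag.VZS3
import Pool.Agent.MP_3f0e22_ag.VTW
import Pool.Agent.MP_3f0e22_ag.VCUT3

/-! # MP_3f0e22_ag, version 3: assembly, part 7: closed surfaces with at least two handles -/

set_option autoImplicit false

open Matrix MvPolynomial

namespace Pool.Agent.MP_3f0e22_ag.Asm

section

variable {R : Type*} [CommRing R] {r g : ℕ}

theorem cval_succ (a b : Fin (g + 1) → Mat r R) :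
    cval a b = a 0 * b 0 * (a 0).adjugate * (b 0).adjugate *
      cval (fun j => a j.succ) (fun j => b j.succ) := by
  rw [cval, List.ofFn_succ, List.prod_cons, cval]

/-- The Dehn twists. -/
theorem CRep.twist {ζ : R} {a b : Fin (g + 1) → Mat r R} (h : CRep ζ a b) (x : Mat r R)
    (hx : x.det = 1) (hb : x * b 0 = b 0 * x) : CRep ζ (Function.update a 0 (a 0 * x)) b where
  det_a j := by
    by_cases hj : j = 0
    · subst hj
      rw [Function.update_self, det_mul, h.det_a, hx, one_mul]
    · rw [Function.update_of_ne hj, h.det_a]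
  det_b := h.det_b
  rel := by
    rw [← h.rel, cval_succ, cval_succ, Function.update_self]
    have h1 : a 0 * x * b 0 * (a 0 * x).adjugate * (b 0).adjugate =
        a 0 * b 0 * (a 0).adjugate * (b 0).adjugate := by
      rw [adjugate_mul_distrib]
      have h2 : x * b 0 * x.adjugate = b 0 := by
        rw [hb, mul_assoc, mul_adjugate, hx, one_smul, mul_one]
      calc a 0 * x * b 0 * (x.adjugate * (a 0).adjugate) * (b 0).adjugate =
          a 0 * (x * b 0 * x.adjugate) * (a 0).adjugate * (b 0).adjugate := by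
            simp only [mul_assoc]
        _ = _ := by rw [h2]
    rw [h1]
    rfl

theorem ccoord_map {R : Type*} {R' : Type*} {r g : ℕ} (φ : R → R') (a b : Fin g → Mat r R) :
    (fun x => φ (ccoord a b x)) = ccoord (fun j => (a j).map φ) (fun j => (b j).map φ) := by
  funext x
  rcases x with ⟨i | i, w⟩ <;> rfl

end

section

variable {E : Type} [Field E] {r g : ℕ}

/-- Substitution in the first matrix. -/
theorem exists_subst {σ : Type} (F : MvPolynomial ((Fin (g + 1) ⊕ Fin (g + 1)) × Fin r × Fin r) E)
    (P : Fin (g + 1) → Mat r (MvPolynomial σ E)) (Q : Fin (g + 1) → Mat r (MvPolynomial σ E)) :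
    ∃ G : MvPolynomial σ E, ∀ w : σ → E, eval w G =
      eval (ccoord (fun j => (P j).map (eval w)) fun j => (Q j).map (eval w)) F := by
  refine ⟨aeval (ccoord P Q) F, fun w => ?_⟩
  have h1 : eval w (aeval (ccoord P Q) F) = eval (fun x => eval w (ccoord P Q x)) F := by
    rw [← MvPolynomial.coe_aeval_eq_eval, ← MvPolynomial.coe_aeval_eq_eval]
    change (aeval w) ((aeval (ccoord P Q)) F) = (aeval fun x => eval w (ccoord P Q x)) F
    rw [← AlgHom.comp_apply]
    congr 1
    apply MvPolynomial.algHom_ext
    intro x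
    simp
  rw [h1, ccoord_map]

end

section

variable {O O' Ω : Type} [CommRing O] [IsDomain O] [CommRing O'] [IsDomain O'] [Field Ω]
  [IsAlgClosed Ω] {r g : ℕ}

theorem mat_eval_C {σ : Type} {E : Type} [Field E] (M : Mat r E) (w : σ → E) :
    (M.map C).map (eval w) = M := by
  ext i j
  simp

/-- Density for the closed surfaces with at least two handles. -/
theorem closed_core (i : O →+* O') (ι : O' →+* Ω) (hi : Function.Injective i)
    (hι : Function.Injective ι)
    (hcap : ∀ I : Ideal O, I.FG → ∃ α : O', I.map i = Ideal.span {α}) (hr : 3 ≤ r)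
    (v : Oˣ) (hv : ∀ m : ℤ, v ^ m = 1 → m = 0) (t : Fin r → Oˣ) (ht1 : ∏ k, t k = 1)
    (ht : ∀ k l, k ≠ l → IsUnit ((t k : O) - (t l : O))) (ζ : O) (hζ : ζ ^ r = 1)
    (F : MvPolynomial ((Fin (g + 2) ⊕ Fin (g + 2)) × Fin r × Fin r) Ω)
    (hF : ∀ a b : Fin (g + 2) → Mat r O', CRep (i ζ) a b →
      eval (fun x => ι (ccoord a b x)) F = 0)
    (a b : Fin (g + 2) → Mat r Ω) (h : CRep (ι (i ζ)) a b) : eval (ccoord a b) F = 0 := by
  by_contra hne
  have hζ' : (ι (i ζ)) ^ r = 1 := by rw [← map_pow, ← map_pow, hζ, map_one, map_one]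
  obtain ⟨E, _, _, _, a', b', hU, hCR, hFE, hrk, h1⟩ :=
    exists_generic_closed' (g := g + 1) (by omega) (ι (i ζ)) hζ' a b h F hne
  have hpair := generic_pair (g := g) hU hr _ (algebraMap_mem_acl _ _) (by
    rw [map_ne_zero]
    rintro h0
    rw [h0, zero_pow (by omega)] at hζ'
    exact one_ne_zero hζ'.symm) a' b' hCR (by
      have : 2 * (g + 1 + 1) * (r ^ 2 - 1) = (2 * g + 3) * (r ^ 2 - 1) + (r ^ 2 - 1) := by ring
      omega) h1
  set A := a' 0 with hA
  set b₀ := b' 0 with hb₀
  have hAd : A.det = 1 := hCR.det_a 0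
  have hbd : b₀.det = 1 := hCR.det_b 0
  have e1 : rk Ω (ent b₀ ∪ ent A) ≤ rk Ω (ent b₀) + (r ^ 2 - 1) :=
    rk_union (ent_finite _) (rk_ent_le A hAd (by omega) _)
  have e2 : rk Ω (ent b₀) ≤ r ^ 2 - 1 := rk_le (rk_ent_le b₀ hbd (by omega) _)
  rw [Set.union_comm] at hpair
  obtain ⟨f, β, hfd, hfacl, hbf, hβ1, hβrk⟩ := exists_diag (K := Ω) (by omega) b₀ hbd (by omega)
  have hMI := mulInd_of_rk (K := Ω) (by omega) β hβ1 hβrk
  have hff : f⁻¹ * f = 1 := nonsing_inv_mul f (isUnit_iff_ne_zero.2 hfd)
  have hff' : f * f⁻¹ = 1 := mul_nonsing_inv f (isUnit_iff_ne_zero.2 hfd)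
  have hPr : PrinOK (f⁻¹ * A * f) := prinOK_of_rk (K := Ω) f f⁻¹ A (ent_finite b₀) hfacl hff hAd
    (by omega) (by omega)
  set ιE : O' →+* E := (algebraMap Ω E).comp ι with hιE
  have hιE' : Function.Injective ιE := (algebraMap Ω E).injective.comp hι
  obtain ⟨z, hz⟩ := exists_z (by omega) (f⁻¹ * A * f) hPr
    (∏ k, (Polynomial.X - Polynomial.C (ιE (i (t k : O)))))
    (Polynomial.monic_prod_of_monic _ _ fun k _ => Polynomial.monic_X_sub_C _) (by
      rw [Polynomial.natDegree_prod_of_monic _ _ fun k _ => Polynomial.monic_X_sub_C _]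
      simp)
  have hαd : (f⁻¹ * A * f).det = 1 := by
    rw [det_mul_comm, ← mul_assoc, hff', one_mul, hAd]
  have hz1 : ∏ k, z k = 1 := by
    have h2 := congrArg (fun p => (-1) ^ r * Polynomial.coeff p 0) hz
    have h3 : ((f⁻¹ * A * f) * diagonal z).det =
        (-1) ^ r * ((f⁻¹ * A * f) * diagonal z).charpoly.coeff 0 := by
      rw [det_eq_sign_charpoly_coeff, Fintype.card_fin]
    rw [← h3, det_mul, hαd, one_mul, det_diagonal] at h2
    rw [h2, Polynomial.coeff_zero_eq_eval_zero, Polynomial.eval_prod]
    have h4 : ∏ k : Fin r, Polynomial.eval 0 (Polynomial.X - Polynomial.C (ιE (i (t k : O)))) =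
        (-1) ^ r * ιE (i ((∏ k, t k : Oˣ) : O)) := by
      rw [Units.coe_prod, map_prod, map_prod]
      simp only [Polynomial.eval_sub, Polynomial.eval_X, Polynomial.eval_C, zero_sub]
      rw [Finset.prod_neg, Finset.card_univ, Fintype.card_fin]
    rw [h4, ht1, Units.val_one, map_one, map_one, mul_one, ← mul_pow, neg_mul_neg, one_mul,
      one_pow]
  -- conjugates of diagonal matrices
  have hconj : ∀ w : Fin r → E, (f * diagonal w * f⁻¹) * b₀ = b₀ * (f * diagonal w * f⁻¹) := by
    intro w
    have h2 : f⁻¹ * b₀ = diagonal β * f⁻¹ := by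
      calc f⁻¹ * b₀ = f⁻¹ * (b₀ * f) * f⁻¹ := by rw [mul_assoc, mul_assoc, hff', mul_one]
        _ = _ := by rw [hbf, ← mul_assoc f⁻¹, hff, one_mul]
    have h3 : diagonal w * diagonal β = diagonal β * diagonal w := by
      rw [diagonal_mul_diagonal, diagonal_mul_diagonal]
      congr 1
      funext k
      exact mul_comm _ _
    calc (f * diagonal w * f⁻¹) * b₀ = f * (diagonal w * diagonal β) * f⁻¹ := by
          rw [mul_assoc, h2]; simp only [mul_assoc]
      _ = f * (diagonal β * diagonal w) * f⁻¹ := by rw [h3]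
      _ = (f * diagonal β) * (diagonal w * f⁻¹) := by simp only [mul_assoc]
      _ = _ := by rw [← hbf]; simp only [mul_assoc]
  have hconjd : ∀ w : Fin r → E, ∏ k, w k = 1 → (f * diagonal w * f⁻¹).det = 1 := by
    intro w hw
    rw [det_mul_comm, ← mul_assoc, hff, one_mul, det_diagonal, hw]
  set FE : MvPolynomial ((Fin (g + 2) ⊕ Fin (g + 2)) × Fin r × Fin r) E :=
    MvPolynomial.map (algebraMap Ω E) F with hFE'
  have hFEeval : ∀ x : ((Fin (g + 2) ⊕ Fin (g + 2)) × Fin r × Fin r) → E,
      eval x FE = aeval x F := by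
    intro x
    rw [hFE', eval_map, aeval_def]
  -- the point of the class `t`
  have hCR0 := CRep.twist hCR (f * diagonal z * f⁻¹) (hconjd z hz1) (hconj z)
  have hch0 : (Function.update a' 0 (a' 0 * (f * diagonal z * f⁻¹)) 0).charpoly =
      ∏ k, (Polynomial.X - Polynomial.C (ιE (i (t k : O)))) := by
    rw [Function.update_self, ← hz]
    have h2 : a' 0 * (f * diagonal z * f⁻¹) = f * ((f⁻¹ * A * f) * diagonal z) * f⁻¹ := by
      calc a' 0 * (f * diagonal z * f⁻¹) = (f * f⁻¹) * A * (f * diagonal z * f⁻¹) := by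
            rw [hff', one_mul]
        _ = _ := by simp only [mul_assoc]
    rw [h2]
    rw [Matrix.charpoly_mul_comm, ← mul_assoc, hff, one_mul]
  -- the powers
  have hpow : ∀ n : ℕ, eval (ccoord (Function.update a' 0
      (a' 0 * (f * diagonal z * f⁻¹) * b₀ ^ n)) b') FE = 0 := by
    intro n
    obtain ⟨Fn, hFn⟩ := exists_subst (g := g + 1) FE
      (Function.update (fun j => Matrix.of fun k l => (X (Sum.inl j, k, l) :
          MvPolynomial ((Fin (g + 2) ⊕ Fin (g + 2)) × Fin r × Fin r) E)) 0
        ((Matrix.of fun k l => (X (Sum.inl 0, k, l) :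
          MvPolynomial ((Fin (g + 2) ⊕ Fin (g + 2)) × Fin r × Fin r) E)) *
          (Matrix.of fun k l => (X (Sum.inr 0, k, l) :
          MvPolynomial ((Fin (g + 2) ⊕ Fin (g + 2)) × Fin r × Fin r) E)) ^ n))
      (fun j => Matrix.of fun k l => (X (Sum.inr j, k, l) :
          MvPolynomial ((Fin (g + 2) ⊕ Fin (g + 2)) × Fin r × Fin r) E))
    have hFn' : ∀ x y : Fin (g + 2) → Mat r E, eval (ccoord x y) Fn =
        eval (ccoord (Function.update x 0 (x 0 * y 0 ^ n)) y) FE := by
      intro x y
      rw [hFn]
      refine congrArg (fun z => eval z FE) (congrArg₂ ccoord ?_ ?_)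
      · funext j
        by_cases hj : j = 0
        · subst hj
          rw [Function.update_self, Function.update_self]
          have h2 : ∀ (M N : Mat r (MvPolynomial ((Fin (g + 2) ⊕ Fin (g + 2)) × Fin r × Fin r) E)),
              (M * N ^ n).map (eval (ccoord x y)) =
                M.map (eval (ccoord x y)) * (N.map (eval (ccoord x y))) ^ n := by
            intro M N
            have := map_mul (RingHom.mapMatrix (m := Fin r) (eval (ccoord x y))) M (N ^ n)
            rw [map_pow] at this
            exact this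
          rw [h2]
          congr 1
          · ext k l; simp [ccoord]
          · congr 1
            ext k l; simp [ccoord]
        · rw [Function.update_of_ne hj, Function.update_of_ne hj]
          ext k l; simp [ccoord]
      · funext j
        ext k l; simp [ccoord]
    have h3 := cut_density (g := g + 1) i ιE hi hιE' hcap hr v hv t ht1 ht ζ hζ Fn ?_
      (Function.update a' 0 (a' 0 * (f * diagonal z * f⁻¹))) b' hCR0 hch0
    · rw [hFn'] at h3
      rw [← h3, Function.update_self, Function.update_idem]
    · intro x y hxy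
      have h4 := hF (Function.update x 0 (x 0 * y 0 ^ n)) y (CRep.twist hxy (y 0 ^ n) (by
        rw [det_pow, hxy.det_b, one_pow]) (by rw [← pow_succ, ← pow_succ']))
      rw [ccoord_map, hFn', hFEeval]
      have h5 : ccoord (Function.update (fun j => (x j).map ιE) 0
          ((x 0).map ιE * (y 0).map ιE ^ n)) (fun j => (y j).map ιE) =
          fun w => algebraMap Ω E (ι (ccoord (Function.update x 0 (x 0 * y 0 ^ n)) y w)) := by
        have h6 : (fun w => algebraMap Ω E (ι (ccoord (Function.update x 0 (x 0 * y 0 ^ n)) y w))) =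
            fun w => ιE (ccoord (Function.update x 0 (x 0 * y 0 ^ n)) y w) := rfl
        rw [h6, ccoord_map]
        congr 1
        funext j
        by_cases hj : j = 0
        · subst hj
          rw [Function.update_self, Function.update_self]
          have := map_mul (RingHom.mapMatrix (m := Fin r) ιE) (x 0) (y 0 ^ n)
          rw [map_pow] at this
          exact this.symm
        · rw [Function.update_of_ne hj, Function.update_of_ne hj]
      rw [h5]
      have h7 : (aeval fun w => algebraMap Ω E
          (ι (ccoord (Function.update x 0 (x 0 * y 0 ^ n)) y w))) F =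
          algebraMap Ω E (eval (fun w => ι (ccoord (Function.update x 0 (x 0 * y 0 ^ n)) y w)) F) := by
        exact MvPolynomial.aeval_algebraMap_apply E
          (fun w => ι (ccoord (Function.update x 0 (x 0 * y 0 ^ n)) y w)) F
      rw [h7, h4, map_zero]
  -- the torus
  obtain ⟨G, hG⟩ := exists_subst (g := g + 1) FE
    (Function.update (fun j => (a' j).map C) 0
      (((a' 0 * f * diagonal z).map C) * diagonal (fun k => (X k : MvPolynomial (Fin r) E)) *
        f⁻¹.map C))
    (fun j => (b' j).map C)
  have hG' : ∀ w : Fin r → E, eval w G =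
      eval (ccoord (Function.update a' 0 (a' 0 * (f * diagonal z * f⁻¹) *
        (f * diagonal w * f⁻¹))) b') FE := by
    intro w
    rw [hG]
    refine congrArg (fun z => eval z FE) (congrArg₂ ccoord ?_ ?_)
    · funext j
      by_cases hj : j = 0
      · subst hj
        rw [Function.update_self, Function.update_self]
        have h2 : ∀ (M N P : Mat r (MvPolynomial (Fin r) E)), (M * N * P).map (eval w) =
            M.map (eval w) * N.map (eval w) * P.map (eval w) := by
          intro M N P
          exact (map_mul (RingHom.mapMatrix (m := Fin r) (eval w)) (M * N) P).trans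
            (congrArg (· * (RingHom.mapMatrix (m := Fin r) (eval w)) P)
              (map_mul (RingHom.mapMatrix (m := Fin r) (eval w)) M N))
        have h4 : (diagonal (fun k => (X k : MvPolynomial (Fin r) E))).map (eval w) =
            diagonal w := by
          rw [diagonal_map (map_zero _)]
          congr 1
          funext k
          simp
        rw [h2, mat_eval_C, mat_eval_C, h4]
        calc a' 0 * f * diagonal z * diagonal w * f⁻¹ =
            a' 0 * f * diagonal z * (f⁻¹ * f) * diagonal w * f⁻¹ := by rw [hff, mul_one]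
          _ = _ := by simp only [mul_assoc]
      · rw [Function.update_of_ne hj, Function.update_of_ne hj, mat_eval_C]
    · funext j
      rw [mat_eval_C]
  have hbpow : ∀ n : ℕ, f * diagonal (fun k => β k ^ n) * f⁻¹ = b₀ ^ n := by
    intro n
    have h2 : b₀ = f * diagonal β * f⁻¹ := by
      rw [← hbf, mul_assoc, hff', mul_one]
    induction n with
    | zero =>
      simp only [pow_zero]
      rw [show (diagonal fun _ : Fin r => (1 : E)) = 1 from diagonal_one, mul_one, hff']
    | succ n ih =>
      rw [pow_succ, ← ih]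
      conv_rhs => rw [h2]
      have h3 : diagonal (fun k => β k ^ (n + 1)) = diagonal (fun k => β k ^ n) * diagonal β := by
        rw [diagonal_mul_diagonal]
        congr 1
        funext k
        exact pow_succ _ _
      rw [h3]
      calc f * (diagonal (fun k => β k ^ n) * diagonal β) * f⁻¹ =
          f * diagonal (fun k => β k ^ n) * (f⁻¹ * f) * diagonal β * f⁻¹ := by
            rw [hff, mul_one]; simp only [mul_assoc]
        _ = _ := by simp only [mul_assoc]
  have hz0 : ∀ k, z k ≠ 0 := by
    intro k hk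
    rw [Finset.prod_eq_zero (Finset.mem_univ k) hk] at hz1
    exact zero_ne_one hz1
  have h8 := torus_pow β hMI G (fun n => by
    rw [hG', hbpow, hpow]) (fun k => (z k)⁻¹) (by
      rw [Finset.prod_inv_distrib, hz1, inv_one])
  rw [hG'] at h8
  have h9 : a' 0 * (f * diagonal z * f⁻¹) * (f * diagonal (fun k => (z k)⁻¹) * f⁻¹) = a' 0 := by
    have h10 : diagonal z * diagonal (fun k => (z k)⁻¹) = (1 : Mat r E) := by
      rw [diagonal_mul_diagonal, ← diagonal_one]
      congr 1
      funext k
      exact mul_inv_cancel₀ (hz0 k)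
    calc a' 0 * (f * diagonal z * f⁻¹) * (f * diagonal (fun k => (z k)⁻¹) * f⁻¹) =
        a' 0 * f * diagonal z * (f⁻¹ * f) * diagonal (fun k => (z k)⁻¹) * f⁻¹ := by
          simp only [mul_assoc]
      _ = a' 0 * f * (diagonal z * diagonal (fun k => (z k)⁻¹)) * f⁻¹ := by
          rw [hff, mul_one]; simp only [mul_assoc]
      _ = a' 0 := by rw [h10, mul_one, mul_assoc, hff', mul_one]
  rw [h9, Function.update_eq_self, hFEeval] at h8
  exact hFE h8

end

end Pool.Agent.MP_3f0e22_ag.Asm
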