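import Mathlib

set_option autoImplicit false

open NumberField nonZeroDivisors

namespace Pool.Agent.MP_3f0e22_ag.V3_CLS

theorem exists_roots (L : Type) [Field L] [NumberField L] {ι : Type} [Fintype ι] (h : ℕ)
    (hh : h ≠ 0) (x : ι → L) :
    ∃ (L' : Type) (_ : Field L') (_ : NumberField L') (_ : Algebra L L'), ∀ c, ∃ y : L',
      y ^ h = algebraMap L L' (x c) := by
  classical
  let f : Polynomial L := ∏ c, (Polynomial.X ^ h - Polynomial.C (x c))
  have hf : f ≠ 0 := by
    apply Finset.prod_ne_zero_iff.2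
    intro c _
    exact Polynomial.X_pow_sub_C_ne_zero (Nat.pos_of_ne_zero hh) _
  have hfin : Module.Finite L (Polynomial.SplittingField f) := inferInstance
  have hnf : NumberField (Polynomial.SplittingField f) :=
    NumberField.of_module_finite L (Polynomial.SplittingField f)
  have hsp : (f.map (algebraMap L (Polynomial.SplittingField f))).Splits :=
    Polynomial.SplittingField.splits f
  refine ⟨Polynomial.SplittingField f, inferInstance, hnf, inferInstance, ?_⟩
  intro c
  have hfac : (Polynomial.X ^ h - Polynomial.C (x c)) ∣ f :=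
    Finset.dvd_prod_of_mem _ (Finset.mem_univ c)
  have h2 : ((Polynomial.X ^ h - Polynomial.C (x c)).map
      (algebraMap L (Polynomial.SplittingField f))).Splits :=
    hsp.of_dvd (Polynomial.map_ne_zero hf) (Polynomial.map_dvd _ hfac)
  have h3 : ((Polynomial.X ^ h - Polynomial.C (x c)).map
      (algebraMap L (Polynomial.SplittingField f))).degree ≠ 0 := by
    rw [Polynomial.degree_map, Polynomial.degree_X_pow_sub_C (Nat.pos_of_ne_zero hh)]
    exact_mod_cast hh
  obtain ⟨y, hy⟩ := h2.exists_eval_eq_zero h3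
  refine ⟨y, ?_⟩
  simpa [sub_eq_zero] using hy

/-- CLS: capitulation -/
theorem exists_capitulation (L : Type) [Field L] [NumberField L] :
    ∃ (L' : Type) (_ : Field L') (_ : NumberField L') (_ : Algebra L L'), ∀ I : Ideal (𝓞 L),
      ∃ α : 𝓞 L', I.map (algebraMap (𝓞 L) (𝓞 L')) = Ideal.span {α} := by
  classical
  have hh : Fintype.card (ClassGroup (𝓞 L)) ≠ 0 := Fintype.card_ne_zero
  set h : ℕ := Fintype.card (ClassGroup (𝓞 L)) with hhdef
  choose J hJ using fun c : ClassGroup (𝓞 L) => ClassGroup.mk0_surjective c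
  -- J c ^ h is principal
  have hpr : ∀ c, ∃ x : 𝓞 L, (J c : Ideal (𝓞 L)) ^ h = Ideal.span {x} := by
    intro c
    have h1 : ClassGroup.mk0 (J c ^ h) = 1 := by
      rw [map_pow, hJ c, pow_card_eq_one]
    have h2 := (ClassGroup.mk0_eq_one_iff (J c ^ h).2).1 h1
    obtain ⟨x, hx⟩ := h2.principal
    exact ⟨x, by simpa using hx⟩
  choose x hx using hpr
  obtain ⟨L', i1, i2, i3, hroot⟩ := exists_roots L h hh (fun c => ((x c : 𝓞 L) : L))
  choose y hy using hroot
  have hyint : ∀ c, IsIntegral ℤ (y c) := by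
    intro c
    apply IsIntegral.of_pow (Nat.pos_of_ne_zero hh)
    rw [hy c]
    exact (RingOfIntegers.isIntegral_coe (x c)).algebraMap
  let Y : ClassGroup (𝓞 L) → 𝓞 L' := fun c => ⟨y c, hyint c⟩
  have hY : ∀ c, Y c ^ h = algebraMap (𝓞 L) (𝓞 L') (x c) := by
    intro c
    apply RingOfIntegers.ext
    exact hy c
  have hmain : ∀ c, (J c : Ideal (𝓞 L)).map (algebraMap (𝓞 L) (𝓞 L')) = Ideal.span {Y c} := by
    intro c
    have h1 : ((J c : Ideal (𝓞 L)).map (algebraMap (𝓞 L) (𝓞 L'))) ^ h = (Ideal.span {Y c}) ^ h := by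
      rw [← Ideal.map_pow, hx c, Ideal.map_span, Set.image_singleton, ← hY c,
        Ideal.span_singleton_pow]
    exact dvd_antisymm ((UniqueFactorizationMonoid.pow_dvd_pow_iff_dvd hh).1 h1.dvd)
      ((UniqueFactorizationMonoid.pow_dvd_pow_iff_dvd hh).1 h1.symm.dvd)
  refine ⟨L', inferInstance, inferInstance, inferInstance, ?_⟩
  intro I
  by_cases hI : I = ⊥
  · exact ⟨0, by simp [hI, Ideal.map_bot]⟩
  have hI' : I ∈ (Ideal (𝓞 L))⁰ := mem_nonZeroDivisors_of_ne_zero hI
  set c := ClassGroup.mk0 ⟨I, hI'⟩ with hc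
  have h1 : ClassGroup.mk0 ⟨I, hI'⟩ = ClassGroup.mk0 (J c) := by rw [hJ c]
  obtain ⟨a, b, ha, hb, hab⟩ := ClassGroup.mk0_eq_mk0_iff.1 h1
  set φ := algebraMap (𝓞 L) (𝓞 L') with hφ
  have hinj : Function.Injective φ := FaithfulSMul.algebraMap_injective _ _
  have h2 : Ideal.span {φ a} * I.map φ = Ideal.span {φ b * Y c} := by
    have := congrArg (Ideal.map φ) hab
    rw [Ideal.map_mul, Ideal.map_mul, Ideal.map_span, Ideal.map_span, Set.image_singleton,
      Set.image_singleton, hmain c, Ideal.span_singleton_mul_span_singleton] at this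
    exact this
  have h3 : φ b * Y c ∈ Ideal.span {φ a} := by
    have : φ b * Y c ∈ Ideal.span {φ a} * I.map φ := by
      rw [h2]; exact Ideal.mem_span_singleton_self _
    rw [Ideal.mem_span_singleton_mul] at this
    obtain ⟨z, _, hz⟩ := this
    exact Ideal.mem_span_singleton.2 ⟨z, hz.symm⟩
  obtain ⟨α, hα⟩ := Ideal.mem_span_singleton.1 h3
  refine ⟨α, ?_⟩
  rw [hα, ← Ideal.span_singleton_mul_span_singleton] at h2
  have h4 : φ a ≠ 0 := fun h0 => ha (hinj (h0.trans (map_zero φ).symm))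
  exact (Ideal.span_singleton_mul_right_inj h4).1 h2

end Pool.Agent.MP_3f0e22_ag.V3_CLS

namespace Pool.Agent.MP_3f0e22_ag

alias exists_capitulation := V3_CLS.exists_capitulation

end Pool.Agent.MP_3f0e22_ag
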