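import Pool.Agent.MP_3f0e22_ag.Nt

set_option autoImplicit false

open Polynomial NumberField

namespace Pool.Agent.MP_3f0e22_ag.V3_EXC

open Pool.Agent.MP_3f0e22_ag

theorem exc_prim {K L : Type} [Field K] [Field L] [CharZero L] [Algebra K L] (n : ℕ) (hn : 0 < n)
    (P : Polynomial K) (hP : P ≠ 0) (h : (P.map (algebraMap K L)).Splits)
    (hd : cyclotomic n K ∣ P) : ∃ z : L, IsPrimitiveRoot z n := by
  have hne : P.map (algebraMap K L) ≠ 0 :=
    (Polynomial.map_ne_zero_iff (algebraMap K L).injective).2 hP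
  have h1 : ((cyclotomic n K).map (algebraMap K L)).Splits :=
    Splits.of_dvd h hne (Polynomial.map_dvd _ hd)
  rw [map_cyclotomic] at h1
  have hdeg : (cyclotomic n L).degree ≠ 0 := (degree_cyclotomic_pos n L hn).ne'
  obtain ⟨z, hz⟩ := Splits.exists_eval_eq_zero h1 hdeg
  have : NeZero (n : L) := ⟨by exact_mod_cast hn.ne'⟩
  exact ⟨z, isRoot_cyclotomic_iff.1 hz⟩

/-- the differences of the geometric sums are units -/
theorem exc_sub {A : Type} [CommRing A] [IsDomain A] {p r : ℕ} (hp : p.Prime) (hpr : r < p) {z : A}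
    (hz : IsPrimitiveRoot z p) (s : A) (hs : IsUnit s) (k l : Fin r) (hkl : k < l) :
    IsUnit (s * ∑ i ∈ Finset.range (l + 1), z ^ i - s * ∑ i ∈ Finset.range (k + 1), z ^ i) := by
  have hkl' : (k : ℕ) < l := hkl
  have hzu : IsUnit z := hz.isUnit hp.ne_zero
  have h1 : ∑ i ∈ Finset.range (l + 1), z ^ i = ∑ i ∈ Finset.range (k + 1), z ^ i +
      z ^ ((k : ℕ) + 1) * ∑ i ∈ Finset.range (l - k), z ^ i := by
    have e : (l : ℕ) + 1 = (k + 1) + (l - k) := by omega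
    rw [e, Finset.sum_range_add, Finset.mul_sum]
    congr 1
    refine Finset.sum_congr rfl fun i _ => ?_
    rw [pow_add]
  have h2 : s * ∑ i ∈ Finset.range (l + 1), z ^ i - s * ∑ i ∈ Finset.range (k + 1), z ^ i =
      s * (z ^ ((k : ℕ) + 1) * ∑ i ∈ Finset.range (l - k), z ^ i) := by
    rw [h1]; ring
  rw [h2]
  have hl := l.2
  refine hs.mul ((hzu.pow _).mul (hz.geom_sum_isUnit hp.two_le ?_))
  exact (Nat.coprime_of_lt_prime (by omega) (by omega) hp).symm

theorem exists_exc {K : Type} [Field K] [NumberField K] (r : ℕ) (hr : 1 ≤ r) :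
    ∃ (L : Type) (_ : Field L) (_ : NumberField L) (_ : Algebra K L) (t : Fin r → (𝓞 L)ˣ)
      (v : (𝓞 L)ˣ) (ζ : 𝓞 L), (∏ k, t k = 1) ∧
    (∀ k l, k ≠ l → IsUnit ((t k : 𝓞 L) - (t l : 𝓞 L))) ∧ (∀ m : ℤ, v ^ m = 1 → m = 0) ∧
      IsPrimitiveRoot ζ r := by
  obtain ⟨p, hpr, hp⟩ := Nat.exists_infinite_primes (r + 1)
  have hrp : r < p := hpr
  have : NeZero p := ⟨hp.ne_zero⟩
  have : NeZero r := ⟨by omega⟩
  -- first step
  have hc1 : cyclotomic p K ≠ 0 := cyclotomic_ne_zero p K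
  have hc2 : cyclotomic r K ≠ 0 := cyclotomic_ne_zero r K
  have hP : cyclotomic p K * cyclotomic r K ≠ 0 := mul_ne_zero hc1 hc2
  obtain ⟨L1, fL1, nL1, aL1, hs1, -⟩ := exists_L (cyclotomic p K * cyclotomic r K) hP
  obtain ⟨z1, hz1⟩ := exc_prim p hp.pos _ hP hs1 (dvd_mul_right _ _)
  obtain ⟨x1, hx1⟩ := exc_prim r (by omega) _ hP hs1 (dvd_mul_left _ _)
  -- second step
  set c1 : L1 := ∏ k : Fin r, ∑ i ∈ Finset.range ((k : ℕ) + 1), z1 ^ i with hc
  have hc10 : c1 ≠ 0 := by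
    rw [hc, Finset.prod_ne_zero_iff]
    intro k _
    have hk := k.2
    exact (hz1.geom_sum_isUnit hp.two_le
      (Nat.coprime_of_lt_prime (by omega) (by omega) hp).symm).ne_zero
  have hQ : (X ^ r - C (c1⁻¹) : Polynomial L1) ≠ 0 := X_pow_sub_C_ne_zero (by omega) _
  obtain ⟨L, fL, nL, aL, hs2, v, hv⟩ := exists_L (X ^ r - C (c1⁻¹) : Polynomial L1) hQ
  obtain ⟨s, hs⟩ : ∃ s : L, s ^ r * algebraMap L1 L c1 = 1 := by
    have hdeg : ((X ^ r - C (c1⁻¹) : Polynomial L1).map (algebraMap L1 L)).degree ≠ 0 := by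
      rw [Polynomial.degree_map, degree_X_pow_sub_C (by omega)]
      exact_mod_cast (by omega : r ≠ 0)
    obtain ⟨s, hs⟩ := Splits.exists_eval_eq_zero hs2 hdeg
    refine ⟨s, ?_⟩
    simp only [Polynomial.map_sub, Polynomial.map_pow, Polynomial.map_X, Polynomial.map_C,
      eval_sub, eval_pow, eval_X, eval_C, map_inv₀] at hs
    rw [sub_eq_zero.1 hs, inv_mul_cancel₀]
    exact (_root_.map_ne_zero _).2 hc10
  have hz2 : IsPrimitiveRoot (algebraMap L1 L z1) p := hz1.map_of_injective (algebraMap L1 L).injective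
  have hx2 : IsPrimitiveRoot (algebraMap L1 L x1) r := hx1.map_of_injective (algebraMap L1 L).injective
  set z : 𝓞 L := hz2.toInteger with hz
  set x : 𝓞 L := hx2.toInteger with hx
  have hzp : IsPrimitiveRoot z p := hz2.toInteger_isPrimitiveRoot
  have hxp : IsPrimitiveRoot x r := hx2.toInteger_isPrimitiveRoot
  have hu : ∀ k : Fin r, IsUnit (∑ i ∈ Finset.range ((k : ℕ) + 1), z ^ i) := fun k => by
    have hk := k.2
    exact hzp.geom_sum_isUnit hp.two_le (Nat.coprime_of_lt_prime (by omega) (by omega) hp).symm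
  have hcu : IsUnit (∏ k : Fin r, ∑ i ∈ Finset.range ((k : ℕ) + 1), z ^ i) := by
    rw [IsUnit.prod_iff]
    exact fun k _ => hu k
  obtain ⟨c, hcc⟩ := hcu
  have hcL : algebraMap (𝓞 L) L (c : 𝓞 L) = algebraMap L1 L c1 := by
    rw [hcc, hc, map_prod, map_prod]
    refine Finset.prod_congr rfl fun k _ => ?_
    rw [map_sum, map_sum]
    refine Finset.sum_congr rfl fun i _ => ?_
    rw [map_pow, map_pow]
    rfl
  have hsi : s ^ r = algebraMap (𝓞 L) L ((c⁻¹ : (𝓞 L)ˣ) : 𝓞 L) := by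
    have h1 : algebraMap (𝓞 L) L ((c⁻¹ : (𝓞 L)ˣ) : 𝓞 L) * algebraMap (𝓞 L) L (c : 𝓞 L) = 1 := by
      rw [← map_mul, Units.inv_mul, map_one]
    rw [hcL] at h1
    have h2 : algebraMap L1 L c1 ≠ 0 := (_root_.map_ne_zero _).2 hc10
    exact mul_right_cancel₀ h2 (hs.trans h1.symm)
  have hsint : IsIntegral ℤ s := by
    have h1 : IsIntegral ℤ (s ^ r) := by
      rw [hsi]
      exact RingOfIntegers.isIntegral_coe _
    exact IsIntegral.of_pow (by omega) h1
  set S : 𝓞 L := ⟨s, hsint⟩ with hS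
  have hSc : S ^ r * (c : 𝓞 L) = 1 := by
    apply RingOfIntegers.ext
    change algebraMap (𝓞 L) L (S ^ r * (c : 𝓞 L)) = algebraMap (𝓞 L) L 1
    rw [map_mul, map_pow, hcL, map_one]
    exact hs
  have hSu : IsUnit S := by
    refine IsUnit.of_mul_eq_one (S ^ (r - 1) * c) ?_
    rw [← mul_assoc, ← pow_succ', Nat.sub_add_cancel hr]
    exact hSc
  obtain ⟨S', hS'⟩ := hSu
  choose u hu' using hu
  refine ⟨L, fL, nL, ((algebraMap L1 L).comp (algebraMap K L1)).toAlgebra, fun k => S' * u k, v, x,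
    ?_, ?_, hv, hxp⟩
  · apply Units.ext
    rw [Finset.prod_mul_distrib, Finset.prod_const, Finset.card_univ, Fintype.card_fin]
    push_cast
    rw [hS', Finset.prod_congr rfl (fun k _ => hu' k), ← hcc]
    exact hSc
  · intro k l hkl
    push_cast
    rw [hu', hu']
    rcases lt_or_gt_of_ne hkl with h | h
    · have h1 := exc_sub hp hrp hzp (S' : 𝓞 L) S'.isUnit k l h
      have e : (S' : 𝓞 L) * ∑ i ∈ Finset.range ((k : ℕ) + 1), z ^ i -
          S' * ∑ i ∈ Finset.range ((l : ℕ) + 1), z ^ i =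
          -((S' : 𝓞 L) * ∑ i ∈ Finset.range ((l : ℕ) + 1), z ^ i -
            S' * ∑ i ∈ Finset.range ((k : ℕ) + 1), z ^ i) := by ring
      rw [e]
      exact h1.neg
    · exact exc_sub hp hrp hzp (S' : 𝓞 L) S'.isUnit l k h

end Pool.Agent.MP_3f0e22_ag.V3_EXC

namespace Pool.Agent.MP_3f0e22_ag

alias exists_exc := V3_EXC.exists_exc

end Pool.Agent.MP_3f0e22_ag
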