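import Pool.Agent.MP_3f0e22_ag.Asm8
import Pool.Agent.MP_3f0e22_ag.VEXC
import Pool.Agent.MP_3f0e22_ag.VCLS

/-! # MP_3f0e22_ag, version 3: assembly, part 9: groups and number fields -/

set_option autoImplicit false

open Matrix MvPolynomial NumberField

namespace Pool.Agent.MP_3f0e22_ag.Asm

section

variable {R : Type} [CommRing R] {r g : ℕ}

/-- The word of a tuple of elements of `SL_r(R)`. -/
theorem SL_cval (x y : Fin g → SpecialLinearGroup (Fin r) R) :
    cval (fun j => slM R r (x j)) (fun j => slM R r (y j)) =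
      slM R r (List.ofFn fun j => x j * y j * (x j)⁻¹ * (y j)⁻¹).prod := by
  rw [map_list_prod, cval, List.map_ofFn]
  congr 2

/-- The word of a tuple of elements of `GL_r(R)`. -/
theorem GL_cval (x y : Fin g → GL (Fin r) R)
    (μ ν : Fin g → Rˣ) (x' y' : Fin g → Mat r R) (hx : ∀ j, (x j : Mat r R) = (μ j : R) • x' j)
    (hy : ∀ j, (y j : Mat r R) = (ν j : R) • y' j) (hx' : ∀ j, (x' j).det = 1)
    (hy' : ∀ j, (y' j).det = 1) :
    cval x' y' =
      (((List.ofFn fun j => x j * y j * (x j)⁻¹ * (y j)⁻¹).prod : GL (Fin r) R) : Mat r R) := by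
  have h1 := GL_wval x y (fun j : Fin 0 => j.elim0) μ ν x' y' hx hy hx' hy'
  rw [List.ofFn_zero, List.prod_nil, mul_one] at h1
  rw [← h1, wval, sword, List.ofFn_zero, List.append_nil, List.map_ofFn, cval]
  rfl

end

/-- The number fields. -/
theorem exists_fields {K : Type} [Field K] [NumberField K] {r : ℕ} (hr : 1 ≤ r) :
    ∃ (L₀ : Type) (_ : Field L₀) (_ : NumberField L₀) (_ : Algebra K L₀)
      (L : Type) (_ : Field L) (_ : NumberField L) (_ : Algebra L₀ L)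
      (t : Fin r → (𝓞 L₀)ˣ) (v : (𝓞 L₀)ˣ) (ζ ξ : 𝓞 L₀), (∏ k, t k = 1) ∧
      (∀ k l, k ≠ l → IsUnit ((t k : 𝓞 L₀) - (t l : 𝓞 L₀))) ∧ (∀ m : ℤ, v ^ m = 1 → m = 0) ∧
      IsPrimitiveRoot ζ r ∧ IsPrimitiveRoot ξ (2 * r) ∧
      ∀ I : Ideal (𝓞 L₀), ∃ α : 𝓞 L, I.map (algebraMap (𝓞 L₀) (𝓞 L)) = Ideal.span {α} := by
  obtain ⟨K₁, _, _, _, _, _, ξ, _, _, _, hξ⟩ := exists_exc (K := K) (2 * r) (by omega)
  obtain ⟨L₀, _, _, _, t, v, ζ, h1, h2, h3, h4⟩ := exists_exc (K := K₁) r hr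
  obtain ⟨L, _, _, _, h5⟩ := exists_capitulation L₀
  letI : Algebra K L₀ := ((algebraMap K₁ L₀).comp (algebraMap K K₁)).toAlgebra
  refine ⟨L₀, inferInstance, inferInstance, inferInstance, L, inferInstance, inferInstance,
    inferInstance, t, v, ζ, algebraMap (𝓞 K₁) (𝓞 L₀) ξ, h1, h2, h3, h4, ?_, h5⟩
  refine hξ.map_of_injective (f := algebraMap (𝓞 K₁) (𝓞 L₀)) ?_
  intro x y hxy
  have h6 := congrArg (algebraMap (𝓞 L₀) L₀) hxy
  rw [← IsScalarTower.algebraMap_apply, ← IsScalarTower.algebraMap_apply,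
    IsScalarTower.algebraMap_apply (𝓞 K₁) K₁ L₀, IsScalarTower.algebraMap_apply (𝓞 K₁) K₁ L₀] at h6
  exact RingOfIntegers.coe_injective ((algebraMap K₁ L₀).injective h6)

theorem algebraMap_O_injective (L₀ L : Type) [Field L₀] [NumberField L₀] [Field L] [NumberField L]
    [Algebra L₀ L] : Function.Injective (algebraMap (𝓞 L₀) (𝓞 L)) := by
  intro x y hxy
  have h6 := congrArg (algebraMap (𝓞 L) L) hxy
  rw [← IsScalarTower.algebraMap_apply, ← IsScalarTower.algebraMap_apply,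
    IsScalarTower.algebraMap_apply (𝓞 L₀) L₀ L, IsScalarTower.algebraMap_apply (𝓞 L₀) L₀ L] at h6
  exact RingOfIntegers.coe_injective ((algebraMap L₀ L).injective h6)

end Pool.Agent.MP_3f0e22_ag.Asm
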