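import Mathlib

/-!
# MP_3f0e22_ag: integral points of relative character varieties of punctured spheres: definitions

`A_i = g Q_i⁻¹ t_i y_i Q_i g⁻¹` (`i ≤ s`), `Q_0 = 1`, `Q_{i+1} = u_i y_i Q_i`, where the `y_i` are
lower unitriangular, the `u_i` upper unitriangular, the `t_i` diagonal, and `y_s Q_s` is upper
triangular with diagonal `δ`.
-/

set_option autoImplicit false

namespace Pool.Agent.MP_3f0e22_ag

open Matrix

/-- `r × r` matrices. -/
abbrev Mat (r : ℕ) (R : Type*) := Matrix (Fin r) (Fin r) R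

section

variable {R : Type*} [CommRing R] {r : ℕ}

/-- Lower unitriangular matrices. -/
def LowU (y : Mat r R) : Prop := (∀ i, y i i = 1) ∧ ∀ i j, i < j → y i j = 0

/-- Upper unitriangular matrices. -/
def UpU (u : Mat r R) : Prop := (∀ i, u i i = 1) ∧ ∀ i j, j < i → u i j = 0

/-- The leading principal minor of order `k` (`0` if `k > r`). -/
def D (k : ℕ) (M : Mat r R) : R :=
  if h : k ≤ r then (M.submatrix (Fin.castLE h) (Fin.castLE h)).det else 0

/-- The minor with the rows `j, …, j + k - 1` and the columns `0, …, k - 1` (`0` if `j + k > r`). -/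
def Mi (j k : ℕ) (M : Mat r R) : R :=
  if h : j + k ≤ r then
    (M.submatrix (fun i : Fin k => (⟨j + i, by omega⟩ : Fin r))
      (fun i : Fin k => (⟨i, by omega⟩ : Fin r))).det else 0

variable (R r) in
/-- The antidiagonal permutation matrix. -/
def Jm : Mat r R := (1 : Mat r R).submatrix Fin.rev id

/-- The block matrix `diag(1, z)`. -/
def bl {n : ℕ} (z : Mat n R) : Mat (n + 1) R :=
  fun i j => Fin.cases (Fin.cases 1 (fun _ => 0) j) (fun i' => Fin.cases 0 (fun j' => z i' j') j) i

/-- The lower bidiagonal matrix with ones on the diagonal and `s 0, …, s (n-1)` below it. -/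
def cmat (n : ℕ) (s : ℕ → R) : Mat (n + 1) R :=
  fun i j => if i = j then 1 else if (i : ℕ) = j + 1 then s j else 0

/-- The chart of the lower unitriangular group. -/
def Z : (r : ℕ) → (ℕ → ℕ → R) → Mat r R
  | 0, _ => 1
  | n + 1, t => bl (Z n t) * cmat n (t n)

/-- `Q_0 = 1`, `Q_{i+1} = u_i y_i Q_i`. -/
def Q (u y : ℕ → Mat r R) : ℕ → Mat r R
  | 0 => 1
  | i + 1 => u i * y i * Q u y i

/-- The variety `𝒵_δ`: `y_s Q_s` is upper triangular with diagonal `δ`. -/
structure InZ (s : ℕ) (δ : Fin r → R) (u y : ℕ → Mat r R) : Prop where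
  low : ∀ i ≤ s, LowU (y i)
  up : ∀ i < s, UpU (u i)
  zero : ∀ i j : Fin r, j < i → (y s * Q u y s) i j = 0
  diag : ∀ i : Fin r, (y s * Q u y s) i i = δ i

/-- The chart of the varieties `𝒵_δ`. -/
def Chart (s : ℕ) (t : ℕ → Bool → ℕ → ℕ → Rˣ) (u y : ℕ → Mat r R) : Prop :=
  ∃ (n v l b : ℕ → Mat r R) (d a : ℕ → Fin r → Rˣ),
    l 0 = 1 ∧ LowU (y s) ∧ y s * l s = 1 ∧
    ∀ i < s, UpU (n i) ∧ UpU (v i) ∧ UpU (b i) ∧ UpU (u i) ∧ LowU (y i) ∧ LowU (l (i + 1)) ∧
      Z r (fun j k => (t i false j k : R)) =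
        n i * Jm R r * diagonal (fun k => (d i k : R)) * v i ∧
      u i * n i = (Z r (fun j k => (t i true j k : R)))ᵀ ∧
      u i * Z r (fun j k => (t i false j k : R)) =
        l (i + 1) * diagonal (fun k => (a i k : R)) * b i ∧
      y i * l i = Z r (fun j k => (t i false j k : R))

/-- The monomial `mu r k t = ∏_{k ≤ n < r} ∏_{j < k} t n j`. -/
def mu {M : Type*} [CommMonoid M] (r k : ℕ) (t : ℕ → ℕ → M) : M :=
  ∏ n ∈ Finset.Ico k r, ∏ j ∈ Finset.range k, t n j

/-- The representation attached to `g`, `t`, `u`, `y`: the matrices `A_0, …, A_s` have the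
eigenvalues `t_0, …, t_s`. -/
def rho (g : Mat r R) (t : ℕ → Fin r → R) (u y : ℕ → Mat r R) (i : ℕ) : Mat r R :=
  g * (Q u y i).adjugate * diagonal (t i) * y i * Q u y i * g.adjugate

end

section

variable (K : Type*) {E : Type*} [Field K] [Field E] [Algebra K E]

/-- The elements of `E` which are algebraic over `K(S)`. -/
noncomputable def acl (S : Set E) : IntermediateField K E :=
  (algebraicClosure (IntermediateField.adjoin K S) E).restrictScalars K

/-- The elements of `A` are algebraic over `K(B ∪ T)`, where `T` has at most `n` elements. -/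
def Bd (B A : Set E) (n : ℕ) : Prop :=
  ∃ T : Finset E, T.card ≤ n ∧ A ⊆ acl K (B ∪ T)

end

/-- The set of the entries of a matrix. -/
def ent {r : ℕ} {R : Type*} (M : Mat r R) : Set R := {x | ∃ i j, M i j = x}

/-- The set of the entries of the `y i`, `i ≤ s`, and of the `u i`, `i < s`. -/
def ents {r : ℕ} {R : Type*} (s : ℕ) (u y : ℕ → Mat r R) : Set R :=
  {x | (∃ i ≤ s, x ∈ ent (y i)) ∨ ∃ i < s, x ∈ ent (u i)}

/-- The point with the coordinates `y i` (`i ≤ s`) and `u i` (`i < s`). -/
def pt {r : ℕ} {R : Type*} (s : ℕ) (u y : ℕ → Mat r R) :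
    (Fin (s + 1) ⊕ Fin s) × Fin r × Fin r → R
  | (Sum.inl i, a, b) => y i a b
  | (Sum.inr i, a, b) => u i a b

/-- The representations of the fundamental group of the `n`-punctured sphere with local monodromies
of characteristic polynomials `χ i`: the tuples `(A_1, …, A_n)` of matrices with product `1` and
`charpoly (A i) = χ i`. -/
def RelRep {R : Type*} [CommRing R] (n r : ℕ) (χ : Fin n → Polynomial R) :
    Set (Fin n → Mat r R) :=
  {A | (List.ofFn A).prod = 1 ∧ ∀ i, (A i).charpoly = χ i}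

/-- Diagonalizable matrices. -/
def Diagonalizable {r : ℕ} {R : Type*} [CommRing R] (A : Mat r R) : Prop :=
  ∃ (g g' : Mat r R) (d : Fin r → R), g * g' = 1 ∧ A = g * diagonal d * g'

end Pool.Agent.MP_3f0e22_ag
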