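import Pool.Agent.MP_3f0e22_ag.Lu
import Pool.Agent.MP_3f0e22_ag.Acl

/-!
# MP_3f0e22_ag: surfaces with handles and punctures: definitions
-/

set_option autoImplicit false

namespace Pool.Agent.MP_3f0e22_ag

open Matrix

/-! ### Words -/

/-- A letter: a matrix (puncture) or a pair of matrices (handle). -/
inductive Letter (r : ℕ) (R : Type*)
  | pt (A : Mat r R) : Letter r R
  | hd (a b : Mat r R) : Letter r R

section

variable {R : Type*} [CommRing R] {r : ℕ}

/-- The value of a letter: `A`, or the commutator `a b a⁻¹ b⁻¹` (for matrices of determinant `1`). -/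
def Letter.val : Letter r R → Mat r R
  | .pt A => A
  | .hd a b => a * b * a.adjugate * b.adjugate

/-- The value of a word. -/
def wval (w : List (Letter r R)) : Mat r R := (w.map Letter.val).prod

/-- The images of the matrices. -/
def Letter.map {R' : Type*} (φ : R → R') : Letter r R → Letter r R'
  | .pt A => .pt (A.map φ)
  | .hd a b => .hd (a.map φ) (b.map φ)

end

section

variable {E : Type*} {r : ℕ}

/-- The entries of a letter. -/
def Letter.ents : Letter r E → Set E
  | .pt A => ent A
  | .hd a b => ent a ∪ ent b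

/-- The entries of a word. -/
def wents (w : List (Letter r E)) : Set E := {x | ∃ l ∈ w, x ∈ l.ents}

/-- The expected number of parameters of a letter. -/
def Letter.cnt : Letter r E → ℕ
  | .pt _ => r * (r - 1)
  | .hd _ _ => 2 * (r ^ 2 - 1)

/-- The expected number of parameters of a word (without the condition on its value). -/
def wcnt (w : List (Letter r E)) : ℕ := (w.map Letter.cnt).sum

/-- The number of steps of a letter. -/
def Letter.len : Letter r E → ℕ
  | .pt _ => 1
  | .hd _ _ => 2

/-- The number of steps of a word. -/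
def wlen (w : List (Letter r E)) : ℕ := (w.map Letter.len).sum

end

section

variable (K : Type*) {E : Type*} [Field K] [Field E] [Algebra K E] {r : ℕ}

/-- Punctures: invertible with characteristic polynomial algebraic over `K`. Handles:
determinant `1`. -/
def Letter.Valid : Letter r E → Prop
  | .pt A => A.det ≠ 0 ∧ ∀ i, A.charpoly.coeff i ∈ acl K (∅ : Set E)
  | .hd a b => a.det = 1 ∧ b.det = 1

/-- The transcendence degree of `K(A)` over `K`, for a finite set `A`. -/
noncomputable def rk (A : Set E) : ℕ := sInf {n | Bd K ∅ A n}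

/-- `E` has infinite transcendence degree over `K`. -/
def Univ (K E : Type*) [Field K] [Field E] [Algebra K E] : Prop :=
  ∀ A : Set E, A.Finite → ∃ x : E, x ∉ acl K A

/-- `M` stabilises the flag of the first columns of `h`. -/
def Stab (M h : Mat r E) : Prop := ∃ v : Mat r E, (∀ i j, j < i → v i j = 0) ∧ M * h = h * v

/-- The position of the flag of `h` with respect to the letter is generic. -/
def FrameOK (h : Mat r E) : Letter r E → Prop
  | .pt A => ∃ f w : Mat r E, f.det ≠ 0 ∧ (∀ i j, i < j → w i j = 0) ∧ f * A = w * f ∧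
      ∀ k ≤ r, D k (f * h) ≠ 0
  | .hd a b => ∀ k ≤ r, D k (Jm E r * (h⁻¹ * a * h)) ≠ 0 ∧ D k (Jm E r * (h⁻¹ * b * h)) ≠ 0

end

/-! ### Chains of eigenvectors -/

section

variable {E : Type*} [Field E]

/-- If `x p = 1`, the matrix of the endomorphism of `E^(n+1)/(x)` induced by `M`, in the basis given
by the `e_i`, `i ≠ p`. -/
def qt {n : ℕ} (p : Fin (n + 1)) (x : Fin (n + 1) → E) (M : Mat (n + 1) E) : Mat n E :=
  fun i j => M (p.succAbove i) (p.succAbove j) - x (p.succAbove i) * M p (p.succAbove j)

/-- The matrix of the map `E^(n+1)/(x') → E^(n+1)/(x)` induced by `M`, if `x p = 1`, `x' p' ≠ 0` and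
`M x'` is a multiple of `x`. -/
def qt2 {n : ℕ} (p p' : Fin (n + 1)) (x : Fin (n + 1) → E) (M : Mat (n + 1) E) : Mat n E :=
  fun i j => M (p.succAbove i) (p'.succAbove j) - x (p.succAbove i) * M p (p'.succAbove j)

/-- `S` is the set of the coordinates of a chain of eigenvectors: a normalised eigenvector `x` of
`M`, a normalised eigenvector of the matrix induced on the quotient, etc. -/
def Ch : (r : ℕ) → Mat r E → Set E → Prop
  | 0, _, S => S = ∅
  | n + 1, M, S => ∃ (p : Fin (n + 1)) (x : Fin (n + 1) → E) (l : E) (S' : Set E),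
      x p = 1 ∧ (∀ i, p < i → x i = 0) ∧ M *ᵥ x = l • x ∧ Ch n (qt p x M) S' ∧
      S = Set.range x ∪ S'

open Classical in
/-- The set of the `k`, `1 ≤ k < r`, such that `g` preserves the span of the first `k` basis
vectors. -/
noncomputable def levs {r : ℕ} (g : Mat r E) : Finset ℕ :=
  (Finset.Ico 1 r).filter fun k => ∀ i j : Fin r, k ≤ (i : ℕ) → (j : ℕ) < k → g i j = 0

/-- The largest element of `levs M` which is at most `p` (`0` if there is none). -/
noncomputable def kmax {r : ℕ} (M : Mat r E) (p : ℕ) : ℕ := ((levs M).filter (· ≤ p)).sup id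

/-- The dimension of the space of the matrices commuting with `M`. -/
noncomputable def zeta {r : ℕ} (M : Mat r E) : ℕ :=
  Module.finrank E (LinearMap.ker (LinearMap.mulLeft E M - LinearMap.mulRight E M))

/-- The set of the coefficients of the characteristic polynomial. -/
def cpc {r : ℕ} (M : Mat r E) : Set E := Set.range fun i : ℕ => M.charpoly.coeff i

end

/-! ### The words given by the parameters -/

/-- The parameters of a letter: the eigenvalues, for a puncture, or the diagonal matrices
`τ_α`, `τ_β`, for a handle. -/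
inductive LP (r : ℕ) (R : Type*) [CommRing R]
  | pt (t : Fin r → Rˣ) : LP r R
  | hd (a b : Fin r → Rˣ) : LP r R

section

variable {R : Type*} [CommRing R] {r : ℕ}

/-- The number of steps. -/
def LP.len : LP r R → ℕ
  | .pt _ => 1
  | .hd _ _ => 2

/-- The number of steps. -/
def llen (L : List (LP r R)) : ℕ := (L.map LP.len).sum

/-- The frame `C_i = g Q_i⁻¹`. -/
def Cm (g : Mat r R) (u y : ℕ → Mat r R) (i : ℕ) : Mat r R := g * (Q u y i).adjugate

/-- The inverse of the frame `C_i`. -/
def Ci (g : Mat r R) (u y : ℕ → Mat r R) (i : ℕ) : Mat r R := Q u y i * g.adjugate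

/-- The frame `H_i = g (y_i Q_i)⁻¹`. -/
def Hm (g : Mat r R) (u y : ℕ → Mat r R) (i : ℕ) : Mat r R := g * (y i * Q u y i).adjugate

/-- The inverse of the frame `H_i`. -/
def Hi (g : Mat r R) (u y : ℕ → Mat r R) (i : ℕ) : Mat r R := y i * Q u y i * g.adjugate

/-- `α = a b a⁻¹`. -/
def al (g : Mat r R) (u y : ℕ → Mat r R) (i : ℕ) (t : Fin r → R) : Mat r R :=
  Hm g u y i * Jm R r * diagonal t * Hi g u y (i + 1)

/-- `β = a b a⁻¹ b⁻¹ a⁻¹`. -/
def be (g : Mat r R) (u y : ℕ → Mat r R) (i : ℕ) (t : Fin r → R) : Mat r R :=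
  Cm g u y i * Jm R r * diagonal t * Ci g u y (i + 1)

/-- The letter at the step `i`. -/
def LP.letter (g : Mat r R) (u y : ℕ → Mat r R) (i : ℕ) : LP r R → Letter r R
  | .pt t => .pt (Cm g u y i * diagonal (fun k => (t k : R)) * Hi g u y i)
  | .hd a b => .hd
      ((al g u y i fun k => (a k : R)).adjugate * (be g u y i fun k => (b k : R)).adjugate *
        al g u y i fun k => (a k : R))
      ((al g u y i fun k => (a k : R)).adjugate * (be g u y i fun k => (b k : R)) *
        (al g u y i fun k => (a k : R)) * (be g u y i fun k => (b k : R)).adjugate *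
        al g u y i fun k => (a k : R))

/-- The word starting at the step `i`. -/
def word (g : Mat r R) (u y : ℕ → Mat r R) : ℕ → List (LP r R) → List (Letter r R)
  | _, [] => []
  | i, p :: L => p.letter g u y i :: word g u y (i + p.len) L

/-- The diagonal of the triangular matrix attached to a letter. -/
def LP.th : LP r R → Fin r → Rˣ
  | .pt t => t
  | .hd a b => fun k => (b k.rev * (a k.rev)⁻¹) * (b k * (a k)⁻¹)⁻¹

/-- The product of the diagonals. -/
def Th (L : List (LP r R)) (k : Fin r) : Rˣ := (L.map fun p => p.th k).prod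

/-- The normalisation of the parameters of a handle. -/
def LP.OK : LP r R → Prop
  | .pt _ => True
  | .hd a b => ∏ k, (a k : R) = (Jm R r).det ∧ ∏ k, (b k : R) = (Jm R r).det

/-- Change of rings. -/
def LP.map {R' : Type*} [CommRing R'] (φ : R →+* R') : LP r R → LP r R'
  | .pt t => .pt fun k => Units.map (φ : R →* R') (t k)
  | .hd a b => .hd (fun k => Units.map (φ : R →* R') (a k)) fun k => Units.map (φ : R →* R') (b k)

/-- The parameters with given eigenvalues of the punctures (`some t`), the parameters of a handle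
(`none`) at the steps `i`, `i + 1` being the `t i b k k`. -/
def mkL (t : ℕ → Bool → ℕ → ℕ → Rˣ) : ℕ → List (Option (Fin r → Rˣ)) → List (LP r R)
  | _, [] => []
  | i, some c :: sh => .pt c :: mkL t (i + 1) sh
  | i, none :: sh => .hd (fun k => t i false k k) (fun k => t i true k k) :: mkL t (i + 2) sh

/-- The frames `C i`, `H i` (`i ≤ s`): `y i = (H i)⁻¹ (C i)`, `u i = (C (i+1))⁻¹ (H i)`. -/
structure FrameSeq {E : Type*} [Field E] {r : ℕ} (s : ℕ) (C H : ℕ → Mat r E) : Prop where
  det : ∀ i ≤ s, (C i).det ≠ 0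
  low : ∀ i ≤ s, ∃ y, LowU y ∧ C i = H i * y
  up : ∀ i < s, ∃ u, UpU u ∧ H i = C (i + 1) * u
  closed : ∃ v : Mat r E, (∀ i j, j < i → v i j = 0) ∧ C 0 = H s * v

/-- The relations between the frames and the letters. -/
def FrRel {E : Type*} [Field E] {r : ℕ} (C H : ℕ → Mat r E) :
    ℕ → List (LP r E) → List (Letter r E) → Prop
  | _, [], [] => True
  | i, .pt t :: L, .pt A :: w => A * H i = C i * diagonal (fun k => (t k : E)) ∧
      FrRel C H (i + 1) L w
  | i, .hd t s :: L, .hd a b :: w =>
      a * b * a⁻¹ * H (i + 1) = H i * (Jm E r * diagonal fun k => (t k : E)) ∧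
      a * b * a⁻¹ * b⁻¹ * a⁻¹ * C (i + 1) = C i * (Jm E r * diagonal fun k => (s k : E)) ∧
      FrRel C H (i + 2) L w
  | _, _, _ => False

/-- The normalisation of the parameters. -/
def Nrm (r : ℕ) (t : ℕ → Bool → ℕ → ℕ → Rˣ) : Prop :=
  ∀ i b, ∏ k : Fin r, (t i b k k : R) = (Jm R r).det

end

/-- The word of a point. -/
def sword {r : ℕ} {R : Type*} {g m : ℕ} (a b : Fin g → Mat r R) (A : Fin m → Mat r R) :
    List (Letter r R) :=
  (List.ofFn fun j => Letter.hd (a j) (b j)) ++ List.ofFn fun i => Letter.pt (A i)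

/-- The coordinates of a point. -/
def scoord {r : ℕ} {R : Type*} {g m : ℕ} (a b : Fin g → Mat r R) (A : Fin m → Mat r R) :
    (Fin g ⊕ Fin g ⊕ Fin m) × Fin r × Fin r → R
  | (Sum.inl j, x) => a j x.1 x.2
  | (Sum.inr (Sum.inl j), x) => b j x.1 x.2
  | (Sum.inr (Sum.inr i), x) => A i x.1 x.2

end Pool.Agent.MP_3f0e22_ag
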