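import Pool.Agent.MP_3f0e22_ag.RK2
import Pool.Agent.MP_3f0e22_ag.Ba
import Pool.Agent.MP_3f0e22_ag.Gen1

/-! # MP_3f0e22_ag, version 2, row S3: `boundC` -/

set_option autoImplicit false

open Matrix MvPolynomial

namespace Pool.Agent.MP_3f0e22_ag.S3

/-- If `range A + range B = W` and `dim V = dim W`, then some `A + B φ` is injective. -/
theorem exists_inj {E V U W : Type*} [Field E] [AddCommGroup V] [Module E V] [AddCommGroup U]
    [Module E U] [AddCommGroup W] [Module E W] [FiniteDimensional E V] [FiniteDimensional E W]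
    (A : V →ₗ[E] W) (B : U →ₗ[E] W) (h : LinearMap.range A ⊔ LinearMap.range B = ⊤)
    (hd : Module.finrank E V = Module.finrank E W) :
    ∃ φ : V →ₗ[E] U, ∀ x, A x + B (φ x) = 0 → x = 0 := by
  obtain ⟨C, hC⟩ := Submodule.exists_isCompl (LinearMap.ker A)
  have h1 : Module.finrank E (LinearMap.ker A) = Module.finrank E (W ⧸ LinearMap.range A) := by
    have h2 := LinearMap.finrank_range_add_finrank_ker A
    have h3 := Submodule.finrank_quotient_add_finrank (LinearMap.range A)
    omega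
  let g : LinearMap.ker A ≃ₗ[E] (W ⧸ LinearMap.range A) := LinearEquiv.ofFinrankEq _ _ h1
  have hs : LinearMap.range ((LinearMap.range A).mkQ ∘ₗ B) = ⊤ := by
    rw [LinearMap.range_eq_top]
    intro y
    obtain ⟨w, rfl⟩ := Submodule.mkQ_surjective _ y
    have hw : w ∈ LinearMap.range A ⊔ LinearMap.range B := by rw [h]; trivial
    obtain ⟨a, ha, b, ⟨u, rfl⟩, rfl⟩ := Submodule.mem_sup.1 hw
    refine ⟨u, ?_⟩
    rw [LinearMap.comp_apply, map_add]
    have : (LinearMap.range A).mkQ a = 0 := by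
      rw [Submodule.mkQ_apply, Submodule.Quotient.mk_eq_zero]
      exact ha
    rw [this, zero_add]
  obtain ⟨s, hs'⟩ := LinearMap.exists_rightInverse_of_surjective _ hs
  refine ⟨s ∘ₗ g.toLinearMap ∘ₗ Submodule.linearProjOfIsCompl _ _ hC, fun x hx => ?_⟩
  have h4 : g (Submodule.linearProjOfIsCompl _ _ hC x) = 0 := by
    have h5 := congrArg (LinearMap.range A).mkQ hx
    rw [map_add, map_zero] at h5
    have h6 : (LinearMap.range A).mkQ (A x) = 0 := by
      rw [Submodule.mkQ_apply, Submodule.Quotient.mk_eq_zero]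
      exact LinearMap.mem_range_self A x
    rw [h6, zero_add] at h5
    have h7 := LinearMap.congr_fun hs' (g (Submodule.linearProjOfIsCompl _ _ hC x))
    rw [LinearMap.comp_apply, LinearMap.comp_apply, LinearMap.id_apply] at h7
    rw [← h7]
    exact h5
  have h8 : Submodule.linearProjOfIsCompl _ _ hC x = 0 := by
    rw [← g.map_zero] at h4
    exact g.injective h4
  have h9 : A x = 0 := by
    simp only [LinearMap.comp_apply, h8, map_zero, add_zero] at hx
    exact hx
  have h10 := Submodule.linearProjOfIsCompl_apply_left hC ⟨x, h9⟩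
  have h11 : Submodule.linearProjOfIsCompl _ _ hC x = ⟨x, h9⟩ := h10
  rw [h8] at h11
  have h12 := congrArg Subtype.val h11
  exact h12.symm

variable {K E : Type*} [Field K] [Field E] [Algebra K E] {r : ℕ}

/-- Some minor `D k (M l₀)`, `l₀` lower unitriangular, is not `0`. -/
theorem exists_low (M : Mat r E) (hMd : M.det ≠ 0) {k : ℕ} (hk : k ≤ r) :
    ∃ l : Mat r E, LowU l ∧ D k (M * l) ≠ 0 := by
  classical
  let A : Matrix (Fin k) (Fin k) E := M.submatrix (Fin.castLE hk) (Fin.castLE hk)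
  let Bm : Matrix (Fin k) (Fin r) E := fun a c => if k ≤ (c : ℕ) then M (Fin.castLE hk a) c else 0
  obtain ⟨φ, hφ⟩ := exists_inj A.mulVecLin Bm.mulVecLin (by
    rw [eq_top_iff]
    intro w _
    let w' : Fin r → E := fun c => if h : (c : ℕ) < k then w ⟨c, h⟩ else 0
    have hu : IsUnit M.det := isUnit_iff_ne_zero.2 hMd
    have h1 : M *ᵥ (M⁻¹ *ᵥ w') = w' := by
      rw [Matrix.mulVec_mulVec, Matrix.mul_nonsing_inv _ hu, Matrix.one_mulVec]
    rw [Submodule.mem_sup]
    refine ⟨A *ᵥ fun b => (M⁻¹ *ᵥ w') (Fin.castLE hk b), ⟨_, rfl⟩, Bm *ᵥ (M⁻¹ *ᵥ w'),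
      ⟨_, rfl⟩, ?_⟩
    funext a
    have h2 := congrFun h1 (Fin.castLE hk a)
    have h3 : w' (Fin.castLE hk a) = w a := by
      simp [w']
    rw [h3] at h2
    rw [← h2, Pi.add_apply]
    simp only [Matrix.mulVec, dotProduct]
    have h4 : ∑ x : Fin k, A a x * (M⁻¹ *ᵥ w') (Fin.castLE hk x) =
        ∑ c : Fin r, if (c : ℕ) < k then M (Fin.castLE hk a) c * (M⁻¹ *ᵥ w') c else 0 := by
      rw [← Finset.sum_filter]
      refine Finset.sum_bij (fun x _ => Fin.castLE hk x) ?_ ?_ ?_ ?_
      · intro x _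
        simp
      · intro x _ y _ hxy
        exact Fin.castLE_injective hk hxy
      · intro c hc
        refine ⟨⟨c, (Finset.mem_filter.1 hc).2⟩, Finset.mem_univ _, rfl⟩
      · intro x _
        rfl
    simp only [Matrix.mulVec, dotProduct] at h4 ⊢
    rw [h4, ← Finset.sum_add_distrib]
    refine Finset.sum_congr rfl fun c _ => ?_
    simp only [Bm]
    by_cases hc : (c : ℕ) < k
    · rw [if_pos hc, if_neg (not_le.2 hc), zero_mul, add_zero]
    · rw [if_neg hc, if_pos (not_lt.1 hc), zero_add]) rfl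
  let l : Mat r E := fun i j => if i = j then 1 else
    if h : (j : ℕ) < k ∧ k ≤ (i : ℕ) then φ (Pi.single ⟨j, h.1⟩ 1) i else 0
  refine ⟨l, ⟨fun i => by simp [l], fun i j hij => ?_⟩, ?_⟩
  · simp only [l]
    rw [if_neg hij.ne, dif_neg]
    rintro ⟨h1, h2⟩
    have : (i : ℕ) < j := hij
    omega
  · rw [D_of_le hk]
    intro h0
    rw [← Matrix.exists_mulVec_eq_zero_iff] at h0
    obtain ⟨v, hv, hv0⟩ := h0
    apply hv
    apply hφ v
    funext a
    rw [Pi.add_apply, Pi.zero_apply]
    have h1 := congrFun hv0 a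
    rw [Pi.zero_apply] at h1
    rw [← h1]
    have h2 : φ v = ∑ b, v b • φ (Pi.single b 1) := by
      conv_lhs => rw [← Finset.univ_sum_single v]
      rw [map_sum]
      refine Finset.sum_congr rfl fun b _ => ?_
      rw [← map_smul]
      congr 1
      rw [← Pi.single_smul, smul_eq_mul, mul_one]
    simp only [Matrix.mulVecLin_apply, Matrix.mulVec, dotProduct]
    have h3 : ∑ c, Bm a c * φ v c = ∑ b, (∑ c, Bm a c * φ (Pi.single b 1) c) * v b := by
      rw [h2]
      simp only [Finset.sum_apply, Pi.smul_apply, smul_eq_mul, Finset.mul_sum, Finset.sum_mul]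
      rw [Finset.sum_comm]
      refine Finset.sum_congr rfl fun b _ => Finset.sum_congr rfl fun c _ => ?_
      ring
    rw [h3, ← Finset.sum_add_distrib]
    refine Finset.sum_congr rfl fun b _ => ?_
    rw [← add_mul]
    congr 1
    rw [Matrix.submatrix_apply, Matrix.mul_apply]
    have h4 : A a b = ∑ c : Fin r, if c = Fin.castLE hk b then M (Fin.castLE hk a) c else 0 := by
      rw [Finset.sum_ite_eq' Finset.univ, if_pos (Finset.mem_univ _)]
      rfl
    rw [h4, ← Finset.sum_add_distrib]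
    refine Finset.sum_congr rfl fun c _ => ?_
    simp only [Bm, l]
    by_cases hcb : c = Fin.castLE hk b
    · have h5 : ¬ k ≤ (c : ℕ) := by
        rw [hcb]
        simp
      rw [if_pos hcb, if_neg h5, if_pos hcb, zero_mul, add_zero, mul_one]
    · rw [if_neg hcb, if_neg hcb, zero_add]
      by_cases hc : k ≤ (c : ℕ)
      · rw [if_pos hc, dif_pos ⟨by simp, hc⟩]
        rfl
      · rw [if_neg hc, dif_neg (fun h => hc h.2), zero_mul, mul_zero]

/-- The index set of the entries below the diagonal. -/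
abbrev Ix (r : ℕ) := {p : Fin r × Fin r // p.2 < p.1}

/-- The generic lower unitriangular matrix. -/
noncomputable def Pm {N : ℕ} (F : Type*) [Field F] (e : Ix r ≃ Fin N) :
    Mat r (MvPolynomial (Fin N) F) := fun i j =>
  if h : j < i then X (e ⟨(i, j), h⟩) else if i = j then 1 else 0

theorem Pm_map {N : ℕ} {F F' : Type*} [Field F] [Field F'] (f : F →+* F') (e : Ix r ≃ Fin N) :
    (Pm F e).map (MvPolynomial.map f) = Pm F' e := by
  ext1 i j
  rw [Matrix.map_apply]
  unfold Pm
  split_ifs <;> simp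

theorem Pm_eval {N : ℕ} (e : Ix r ≃ Fin N) (l : Mat r E) (hl : LowU l) :
    (Pm E e).map (eval fun n => l (e.symm n).1.1 (e.symm n).1.2) = l := by
  ext i j
  rw [Matrix.map_apply]
  unfold Pm
  split_ifs with h h'
  · rw [eval_X, Equiv.symm_apply_apply]
  · rw [map_one, h', hl.1]
  · rw [map_zero, hl.2]
    exact lt_of_le_of_ne (not_lt.1 h) h'

theorem boundC (B : Set E) (M l : Mat r E) (hM : ent M ⊆ acl K B) (hMd : M.det ≠ 0)
    (hl : LowU l) {k : ℕ} (hk : k ≤ r) (h : D k (M * l) = 0) :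
    Bd K B (ent l) (r * (r - 1) / 2 - 1) := by
  classical
  have hcard : Fintype.card (Ix r) = r * (r - 1) / 2 := by
    rw [Fintype.card_subtype]
    have := Gen1.card_lt r
    omega
  obtain ⟨e⟩ : Nonempty (Ix r ≃ Fin (r * (r - 1) / 2)) := ⟨Fintype.equivFinOfCardEq hcard⟩
  let p : MvPolynomial (Fin (r * (r - 1) / 2)) E := D k (M.map C * Pm E e)
  have heval : ∀ l' : Mat r E, LowU l' →
      eval (fun n => l' (e.symm n).1.1 (e.symm n).1.2) p = D k (M * l') := by
    intro l' hl'
    simp only [p]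
    rw [← D_map, Matrix.map_mul, Pm_eval e l' hl']
    congr 2
    ext i j
    simp
  have hp : ∀ d, p.coeff d ∈ acl K B := by
    intro d
    let M' : Mat r (acl K B) := fun i j => ⟨M i j, hM ⟨i, j, rfl⟩⟩
    have h1 : p = MvPolynomial.map (algebraMap (acl K B) E) (D k (M'.map C * Pm (acl K B) e)) := by
      simp only [p]
      rw [← D_map, Matrix.map_mul, Pm_map]
      congr 2
      ext1 i j
      simp only [Matrix.map_apply, map_C]
      rfl
    rw [h1, coeff_map]
    exact (coeff d (D k (M'.map C * Pm (acl K B) e))).2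
  have h0 : p ≠ 0 := by
    intro h0
    obtain ⟨l₀, hl₀, hD⟩ := exists_low M hMd hk
    apply hD
    rw [← heval l₀ hl₀, h0, map_zero]
  have h2 := Bd.of_poly (K := K) (B := B) (fun n => l (e.symm n).1.1 (e.symm n).1.2) p hp h0
    (by rw [heval l hl, h])
  refine h2.mono (subset_acl _) ?_ le_rfl
  rintro _ ⟨i, j, rfl⟩
  rcases lt_trichotomy i j with hij | hij | hij
  · rw [hl.2 i j hij]
    exact zero_mem _
  · rw [hij, hl.1]
    exact one_mem _
  · apply subset_acl
    right
    refine ⟨e ⟨(i, j), hij⟩, ?_⟩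
    simp

end Pool.Agent.MP_3f0e22_ag.S3

namespace Pool.Agent.MP_3f0e22_ag

alias boundC := S3.boundC

end Pool.Agent.MP_3f0e22_ag
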