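import Pool.Agent.MP_3f0e22_ag.Gen1
import Pool.Agent.MP_3f0e22_ag.Defs2

/-!
# MP_3f0e22_ag, version 2, block S5: column echelon form
-/

set_option autoImplicit false

open Matrix

namespace Pool.Agent.MP_3f0e22_ag.S5

variable {K E : Type*} [Field K] [Field E] [Algebra K E]

/-- The matrix with first column `x`, row `p` equal to `(x p, 0, …, 0)` and the block `M`. -/
def fA {n : ℕ} (p : Fin (n + 1)) (x : Fin (n + 1) → E) (M : Mat n E) : Mat (n + 1) E :=
  fun i j => Fin.cases (x i) (fun j' => Fin.insertNth (α := fun _ => E) p 0 (fun i' => M i' j') i) j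

/-- The block matrix with first row `(l, ρ)`, first column `(l, 0)` and the block `b`. -/
def fC {n : ℕ} (l : E) (ρ : Fin n → E) (b : Mat n E) : Mat (n + 1) E :=
  fun i j => Fin.cases (Fin.cases l ρ j) (fun i' => Fin.cases 0 (b i') j) i

theorem fA_zero {n : ℕ} (p : Fin (n + 1)) (x : Fin (n + 1) → E) (M : Mat n E) (i : Fin (n + 1)) :
    fA p x M i 0 = x i := rfl

theorem fA_succ {n : ℕ} (p : Fin (n + 1)) (x : Fin (n + 1) → E) (M : Mat n E) (i : Fin (n + 1))
    (j : Fin n) : fA p x M i j.succ = Fin.insertNth (α := fun _ => E) p 0 (fun i' => M i' j) i := rfl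

theorem fA_p {n : ℕ} (p : Fin (n + 1)) (x : Fin (n + 1) → E) (M : Mat n E)
    (j : Fin n) : fA p x M p j.succ = 0 := by
  rw [fA_succ, Fin.insertNth_apply_same]

theorem fA_above {n : ℕ} (p : Fin (n + 1)) (x : Fin (n + 1) → E) (M : Mat n E) (i : Fin n)
    (j : Fin n) : fA p x M (p.succAbove i) j.succ = M i j := by
  rw [fA_succ, Fin.insertNth_apply_succAbove]

theorem det_fA {n : ℕ} (p : Fin (n + 1)) (x : Fin (n + 1) → E) (M : Mat n E) (hx : x p = 1) :
    (fA p x M).det = (-1) ^ (p : ℕ) * M.det := by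
  rw [Matrix.det_succ_row (fA p x M) p, Fin.sum_univ_succ]
  have h1 : ∀ j : Fin n, (-1 : E) ^ ((p : ℕ) + ((j.succ : Fin (n + 1)) : ℕ)) * fA p x M p j.succ *
      ((fA p x M).submatrix p.succAbove j.succ.succAbove).det = 0 := by
    intro j
    rw [fA_p, mul_zero, zero_mul]
  rw [Finset.sum_eq_zero (fun j _ => h1 j), add_zero, fA_zero, hx]
  have h2 : (fA p x M).submatrix p.succAbove (Fin.succAbove 0) = M := by
    ext i j
    rw [Matrix.submatrix_apply, Fin.succAbove_zero]
    exact fA_above p x M i j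
  rw [h2]
  simp

theorem fA_mul_fC {n : ℕ} (p : Fin (n + 1)) (x : Fin (n + 1) → E) (M : Mat n E) (hx : x p = 1)
    (l : E) (b : Mat n E) (h : Mat (n + 1) E) (h0 : ∀ i, h i 0 = l * x i)
    (hb : ∀ i j, (M * b) i j = h (p.succAbove i) j.succ - x (p.succAbove i) * h p j.succ) :
    fA p x M * fC l (fun j => h p j.succ) b = h := by
  ext i j
  rw [Matrix.mul_apply, Fin.sum_univ_succ]
  refine Fin.cases ?_ (fun j => ?_) j
  · rw [h0, fA_zero]
    have : ∀ k : Fin n, fA p x M i k.succ * fC l (fun j => h p j.succ) b k.succ 0 = 0 := by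
      intro k
      have : fC l (fun j => h p j.succ) b k.succ 0 = 0 := rfl
      rw [this, mul_zero]
    rw [Finset.sum_eq_zero (fun k _ => this k), add_zero]
    change x i * l = l * x i
    ring
  · have e0 : fC l (fun j => h p j.succ) b 0 j.succ = h p j.succ := rfl
    have e1 : ∀ k : Fin n, fC l (fun j => h p j.succ) b k.succ j.succ = b k j := fun k => rfl
    rw [e0, fA_zero]
    simp only [e1]
    rcases Fin.eq_self_or_eq_succAbove p i with rfl | ⟨i, rfl⟩
    · simp only [fA_p, zero_mul, Finset.sum_const_zero, add_zero, hx, one_mul]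
    · simp only [fA_above]
      have := hb i j
      rw [Matrix.mul_apply] at this
      rw [this]
      ring

theorem ent_fA {n : ℕ} {B : Set E} (p : Fin (n + 1)) (x : Fin (n + 1) → E) (M : Mat n E) (m : ℕ)
    (hx : x p = 1) (hx0 : ∀ i, i < p → x i = 0) (h : ∀ B : Set E, Bd K B (ent M) m) :
    Bd K B (ent (fA p x M)) (n - p + m) := by
  classical
  have h1 : Bd K B (Set.range x) (n - p) := by
    refine ⟨(Finset.Ioi p).image x, Finset.card_image_le.trans (by simp), ?_⟩
    rintro _ ⟨i, rfl⟩
    rcases lt_trichotomy i p with hi | rfl | hi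
    · rw [hx0 i hi]; exact zero_mem _
    · rw [hx]; exact one_mem _
    · exact subset_acl _ (Or.inr (Finset.mem_coe.2
        (Finset.mem_image_of_mem x (Finset.mem_Ioi.2 hi))))
  refine (h1.trans (h (B ∪ Set.range x))).mono (subset_acl _) ?_ le_rfl
  rintro _ ⟨i, j, rfl⟩
  refine Fin.cases ?_ (fun j => ?_) j
  · exact subset_acl _ (Or.inr (Or.inl ⟨i, rfl⟩))
  · rcases Fin.eq_self_or_eq_succAbove p i with rfl | ⟨i, rfl⟩
    · rw [fA_p]; exact zero_mem _
    · rw [fA_above]; exact subset_acl _ (Or.inr (Or.inr ⟨i, j, rfl⟩))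

theorem exists_flag' {r : ℕ} (h : Mat r E) (hd : h.det ≠ 0) :
    ∃ h' b : Mat r E, h = h' * b ∧ h'.det ≠ 0 ∧ b.det ≠ 0 ∧ (∀ i j, j < i → b i j = 0) ∧
      (∀ B : Set E, Bd K B (ent h') (r * (r - 1) / 2)) ∧
      (LowU h' ∨ (1 ≤ r * (r - 1) / 2 ∧ ∀ B : Set E, Bd K B (ent h') (r * (r - 1) / 2 - 1))) := by
  classical
  induction r with
  | zero =>
    refine ⟨1, 1, Subsingleton.elim _ _, by simp, by simp, fun i => i.elim0, fun B => ?_,
      Or.inl LowU.one⟩
    refine (Bd.of_subset (K := K) (B := B) ?_).mono (subset_acl _) (fun x hx => ?_)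
      (Nat.zero_le _) (A := (∅ : Set E))
    · exact Set.empty_subset _
    · obtain ⟨i, _⟩ := hx
      exact i.elim0
  | succ n ih =>
    -- the first nonzero entry of the first column
    have hne : ∃ i, h i 0 ≠ 0 := by
      by_contra hcon
      push Not at hcon
      exact hd (Matrix.det_eq_zero_of_column_eq_zero 0 hcon)
    obtain ⟨p, hp, hmin⟩ : ∃ p : Fin (n + 1), h p 0 ≠ 0 ∧ ∀ i, i < p → h i 0 = 0 := by
      obtain ⟨p, hp, hmin⟩ := WellFounded.has_min (wellFounded_lt (α := Fin (n + 1)))
        {i | h i 0 ≠ 0} hne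
      exact ⟨p, hp, fun i hi => by
        by_contra hcon
        exact hmin i hcon hi⟩
    set l : E := h p 0 with hl
    set x : Fin (n + 1) → E := fun i => l⁻¹ * h i 0 with hx
    have hxp : x p = 1 := inv_mul_cancel₀ hp
    have hx0 : ∀ i, i < p → x i = 0 := fun i hi => by
      simp only [hx, hmin i hi, mul_zero]
    have h0 : ∀ i, h i 0 = l * x i := fun i => by
      simp only [hx, mul_inv_cancel_left₀ hp]
    set k : Mat n E := fun i j => h (p.succAbove i) j.succ - x (p.succAbove i) * h p j.succ with hk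
    have hdk : k.det ≠ 0 := by
      have h1 := fA_mul_fC p x k hxp l 1 h h0 (fun i j => by rw [Matrix.mul_one])
      intro hcon
      apply hd
      rw [← h1, Matrix.det_mul, det_fA p x k hxp, hcon, mul_zero, zero_mul]
    obtain ⟨k', b₁, hkb, _, _, hb₁, hB, hor⟩ := ih k hdk
    have h1 := fA_mul_fC p x k' hxp l b₁ h h0 (fun i j => by rw [← hkb])
    have h2 : (fA p x k').det * (fC l (fun j => h p j.succ) b₁).det ≠ 0 := by
      rw [← Matrix.det_mul, h1]; exact hd
    refine ⟨fA p x k', fC l (fun j => h p j.succ) b₁, h1.symm, left_ne_zero_of_mul h2,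
      right_ne_zero_of_mul h2, ?_, ?_, ?_⟩
    · intro i j
      refine Fin.cases ?_ (fun i => ?_) i
      · intro hij
        exact absurd hij (Fin.not_lt_zero j)
      · refine Fin.cases ?_ (fun j => ?_) j
        · intro _; rfl
        · intro hij
          exact hb₁ i j (Fin.succ_lt_succ_iff.1 hij)
    · intro B
      refine (ent_fA (K := K) (B := B) p x k' _ hxp hx0 hB).mono (subset_acl _)
        (Set.subset_union_right.trans (subset_acl _)) ?_
      rw [Nat.triangle_succ]
      omega
    · by_cases hp0 : p = 0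
      · rcases hor with hlow | ⟨hN, hB'⟩
        · left
          subst hp0
          refine ⟨fun i => ?_, fun i j => ?_⟩
          · refine Fin.cases hxp (fun i => ?_) i
            have := fA_above 0 x k' i i
            rw [Fin.succAbove_zero] at this
            rw [this, hlow.1]
          · refine Fin.cases (fun hij => absurd hij (Fin.not_lt_zero i)) (fun j => ?_) j
            refine Fin.cases (fun _ => fA_p 0 x k' j) (fun i hij => ?_) i
            have := fA_above 0 x k' i j
            rw [Fin.succAbove_zero] at this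
            rw [this]
            exact hlow.2 _ _ (Fin.succ_lt_succ_iff.1 hij)
        · right
          refine ⟨by rw [Nat.triangle_succ]; omega, fun B => ?_⟩
          refine (ent_fA (K := K) (B := B) p x k' _ hxp hx0 hB').mono (subset_acl _)
            (Set.subset_union_right.trans (subset_acl _)) ?_
          rw [Nat.triangle_succ]
          omega
      · right
        have hp1 : 1 ≤ (p : ℕ) := by
          rcases Nat.eq_zero_or_pos (p : ℕ) with h3 | h3
          · exact absurd (Fin.ext h3) hp0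
          · exact h3
        have hpn : (p : ℕ) ≤ n := by have := p.2; omega
        refine ⟨by rw [Nat.triangle_succ]; omega, fun B => ?_⟩
        refine (ent_fA (K := K) (B := B) p x k' _ hxp hx0 hB).mono (subset_acl _)
          (Set.subset_union_right.trans (subset_acl _)) ?_
        rw [Nat.triangle_succ]
        omega

variable {r : ℕ}

theorem exists_flag (h : Mat r E) (hd : h.det ≠ 0) :
    ∃ h' b : Mat r E, h = h' * b ∧ h'.det ≠ 0 ∧ b.det ≠ 0 ∧ (∀ i j, j < i → b i j = 0) ∧
      (∀ B : Set E, Bd K B (ent h') (r * (r - 1) / 2)) ∧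
      (LowU h' ∨ ∀ B : Set E, Bd K B (ent h') (r * (r - 1) / 2 - 1)) := by
  obtain ⟨h', b, h1, h2, h3, h4, h5, h6⟩ := exists_flag' (K := K) h hd
  exact ⟨h', b, h1, h2, h3, h4, h5, h6.imp id fun h => h.2⟩

end Pool.Agent.MP_3f0e22_ag.S5

namespace Pool.Agent.MP_3f0e22_ag

alias exists_flag := S5.exists_flag

end Pool.Agent.MP_3f0e22_ag
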