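import Pool.Agent.MP_3f0e22_ag.E1
import Pool.Agent.MP_3f0e22_ag.S3
import Pool.Agent.MP_3f0e22_ag.S5
import Pool.Agent.MP_3f0e22_ag.S6
import Pool.Agent.MP_3f0e22_ag.Gen1

/-! # MP_3f0e22_ag version 2, row GLb: `frameOK_pt` -/

set_option autoImplicit false
set_option linter.unusedSectionVars false

open Matrix MvPolynomial

namespace Pool.Agent.MP_3f0e22_ag.GLb

/-! ## Triangularisation -/

section tri

variable {F : Type*} [Field F]

/-- The block matrix with the blocks `a`, `x`, `y`, `M`. -/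
private def blk {n : ℕ} (a : F) (x : Fin n → F) (y : Fin n → F) (M : Mat n F) : Mat (n + 1) F :=
  fun i j => Fin.cases (Fin.cases a x j) (fun i' => Fin.cases (y i') (fun j' => M i' j') j) i

@[simp] private lemma blk_00 {n : ℕ} (a : F) (x y : Fin n → F) (M : Mat n F) :
    blk a x y M 0 0 = a := rfl
@[simp] private lemma blk_0s {n : ℕ} (a : F) (x y : Fin n → F) (M : Mat n F) (j : Fin n) :
    blk a x y M 0 j.succ = x j := rfl
@[simp] private lemma blk_s0 {n : ℕ} (a : F) (x y : Fin n → F) (M : Mat n F) (i : Fin n) :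
    blk a x y M i.succ 0 = y i := rfl
@[simp] private lemma blk_ss {n : ℕ} (a : F) (x y : Fin n → F) (M : Mat n F) (i j : Fin n) :
    blk a x y M i.succ j.succ = M i j := rfl

private lemma det_blk {n : ℕ} (a : F) (y : Fin n → F) (M : Mat n F) :
    (blk a 0 y M).det = a * M.det := by
  rw [Matrix.det_succ_row_zero, Fin.sum_univ_succ]
  simp only [blk_00, blk_0s, Pi.zero_apply]
  have h : (blk a 0 y M).submatrix Fin.succ (Fin.succAbove 0) = M := by
    ext i j
    simp [Fin.succAbove_zero]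
  rw [h]
  simp

/-- triangularisation -/
private lemma tri [IsAlgClosed F] (n : ℕ) : ∀ (P : Mat n F),
    ∃ (h U : Mat n F), h.det ≠ 0 ∧ (∀ i j, j < i → U i j = 0) ∧ P * h = h * U := by
  induction n with
  | zero =>
    intro P
    refine ⟨1, 1, by simp, fun i => i.elim0, ?_⟩
    ext i
    exact i.elim0
  | succ n ih =>
    intro P
    -- an eigenvector
    obtain ⟨lam, hlam⟩ := Module.End.exists_eigenvalue (Matrix.toLin' P)
    obtain ⟨v, hv⟩ := hlam.exists_hasEigenvector
    have hv0 : v ≠ 0 := hv.2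
    have hPv : P *ᵥ v = lam • v := by
      have := hv.apply_eq_smul
      simpa using this
    obtain ⟨j, hj⟩ : ∃ j, v j ≠ 0 := by
      by_contra hcon
      push Not at hcon
      exact hv0 (funext hcon)
    set g : Mat (n + 1) F := ((1 : Mat (n + 1) F).updateCol j v).submatrix id (Equiv.swap 0 j)
      with hg
    have hgdet : g.det ≠ 0 := by
      rw [hg, Matrix.det_permute']
      refine mul_ne_zero ?_ ?_
      · rcases Int.units_eq_one_or (Equiv.Perm.sign (Equiv.swap (0 : Fin (n + 1)) j)) with h | h <;>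
          simp [h]
      · have : ((1 : Mat (n + 1) F).updateCol j v).det = v j := by
          have := Matrix.cramer_apply (1 : Mat (n + 1) F) v j
          rw [← this]
          simp
        rw [this]
        exact hj
    have hg0 : ∀ i, g i 0 = v i := by
      intro i
      simp [hg]
    have hgu : IsUnit g.det := isUnit_iff_ne_zero.2 hgdet
    set N : Mat (n + 1) F := g⁻¹ * P * g with hN
    have hPg : P * g = g * N := by
      rw [hN, ← Matrix.mul_assoc, ← Matrix.mul_assoc, Matrix.mul_nonsing_inv _ hgu, Matrix.one_mul]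
    have hN0 : ∀ i : Fin n, N i.succ 0 = 0 := by
      intro i
      have h1 : N *ᵥ (Pi.single 0 1) = lam • (Pi.single 0 1 : Fin (n + 1) → F) := by
        have h2 : g *ᵥ (Pi.single 0 1) = v := by
          ext i
          simp [hg0]
        rw [hN, ← Matrix.mulVec_mulVec, h2, ← Matrix.mulVec_mulVec, hPv, Matrix.mulVec_smul]
        congr 1
        rw [← h2, Matrix.mulVec_mulVec, Matrix.nonsing_inv_mul _ hgu, Matrix.one_mulVec]
      have h3 := congrFun h1 i.succ
      simpa using h3
    clear_value N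
    obtain ⟨N1, hN1⟩ : ∃ N1 : Mat n F, ∀ i j, N1 i j = N i.succ j.succ :=
      ⟨fun i j => N i.succ j.succ, fun _ _ => rfl⟩
    obtain ⟨h1, U1, hh1, hU1, heq⟩ := ih N1
    refine ⟨g * blk 1 0 0 h1, blk (N 0 0) (fun j => ∑ k, N 0 k.succ * h1 k j) 0 U1, ?_, ?_, ?_⟩
    · rw [Matrix.det_mul, det_blk]
      exact mul_ne_zero hgdet (by simpa using hh1)
    · intro i k
      refine Fin.cases ?_ (fun i => ?_) i <;> refine Fin.cases ?_ (fun k => ?_) k
      · intro h; exact absurd h (lt_irrefl _)
      · intro h; exact absurd h (Fin.not_lt_zero _)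
      · intro _; rfl
      · intro h
        exact hU1 i k (Fin.succ_lt_succ_iff.1 h)
    · have hE : ∀ i j, ∑ k, N (Fin.succ i) (Fin.succ k) * h1 k j = ∑ k, h1 i k * U1 k j := by
        intro i j
        have := congrFun (congrFun heq i) j
        simpa [mul_apply, hN1] using this
      have hNB : N * blk 1 0 0 h1 =
          blk 1 0 0 h1 * blk (N 0 0) (fun j => ∑ k, N 0 k.succ * h1 k j) 0 U1 := by
        ext i k
        refine Fin.cases ?_ (fun i => ?_) i <;> refine Fin.cases ?_ (fun k => ?_) k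
        · simp [mul_apply, Fin.sum_univ_succ]
        · simp [mul_apply, Fin.sum_univ_succ]
        · simp [mul_apply, Fin.sum_univ_succ, hN0]
        · simp [mul_apply, Fin.sum_univ_succ, hE]
      rw [← Matrix.mul_assoc, hPg, Matrix.mul_assoc, hNB, ← Matrix.mul_assoc]

end tri

/-! ## Entries -/

section ents

variable {K E : Type*} [Field K] [Field E] [Algebra K E] {r : ℕ}

theorem ent_inv {F : IntermediateField K E} {M : Mat r E} (hM : ent M ⊆ F) : ent M⁻¹ ⊆ F := by
  rintro _ ⟨i, j, rfl⟩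
  rw [Matrix.inv_def, Matrix.smul_apply, Ring.inverse_eq_inv', smul_eq_mul]
  exact mul_mem (inv_mem (det_mem_of F M fun i j => hM ⟨i, j, rfl⟩))
    (adjugate_mem_of F M (fun i j => hM ⟨i, j, rfl⟩) i j)

theorem ent_diag {F : IntermediateField K E} {c : Fin r → E} (hc : ∀ k, c k ∈ F) :
    ent (diagonal c) ⊆ F := by
  rintro _ ⟨i, j, rfl⟩
  rw [Matrix.diagonal_apply]
  split_ifs
  · exact hc i
  · exact zero_mem _

theorem coeff_charpoly_mem {F : IntermediateField K E} {M : Mat r E} (hM : ent M ⊆ F) (i : ℕ) :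
    M.charpoly.coeff i ∈ F := by
  have h : M = (Matrix.of fun i j => (⟨M i j, hM ⟨i, j, rfl⟩⟩ : F)).map (algebraMap F E) := by
    ext i j; rfl
  rw [h, Matrix.charpoly_map, Polynomial.coeff_map]
  exact SetLike.coe_mem _

/-- The inverse has a characteristic polynomial with coefficients in the same field. -/
theorem cpc_inv {F : IntermediateField K E} {M : Mat r E} (hM : cpc M ⊆ F) (hd : M.det ≠ 0) :
    cpc M⁻¹ ⊆ F := by
  rintro _ ⟨i, rfl⟩
  have hu : IsUnit M := (Matrix.isUnit_iff_isUnit_det M).2 (isUnit_iff_ne_zero.2 hd)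
  have hdet : M.det ∈ F := by
    rw [Matrix.det_eq_sign_charpoly_coeff]
    exact mul_mem (pow_mem (neg_mem (one_mem _)) _) (hM ⟨0, rfl⟩)
  simp only
  rw [Matrix.charpoly_inv M hu, Ring.inverse_eq_inv', ← Matrix.reverse_charpoly]
  have h1 : ((-1 : Polynomial E) ^ Fintype.card (Fin r) * Polynomial.C (M.det)⁻¹ *
      M.charpoly.reverse) =
      Polynomial.C ((-1) ^ Fintype.card (Fin r) * (M.det)⁻¹) * M.charpoly.reverse := by
    rw [Polynomial.C_mul, Polynomial.C_pow, Polynomial.C_neg, Polynomial.C_1]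
  rw [h1, Polynomial.coeff_C_mul, Polynomial.coeff_reverse]
  exact mul_mem (mul_mem (pow_mem (neg_mem (one_mem _)) _) (inv_mem hdet)) (hM ⟨_, rfl⟩)

theorem charpoly_conj {T M N : Mat r E} (hT : T.det ≠ 0) (h : T * M = N * T) :
    M.charpoly = N.charpoly := by
  have hu : IsUnit T.det := isUnit_iff_ne_zero.2 hT
  have hu' : IsUnit T := (Matrix.isUnit_iff_isUnit_det T).2 hu
  obtain ⟨t, ht⟩ := hu'
  have h2 : M = (t⁻¹ : (Mat r E)ˣ).val * N * t.val := by
    rw [Matrix.mul_assoc, ht, ← h, ← ht, ← Matrix.mul_assoc]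
    simp
  rw [h2, Matrix.coe_units_inv, Matrix.charpoly_units_conj']

/-- Lower triangularisation over the algebraic closure of the field of the entries. -/
theorem tri_low [IsAlgClosed E] (A : Mat r E) : ∃ f w : Mat r E, f.det ≠ 0 ∧
    (∀ i j, i < j → w i j = 0) ∧ f * A = w * f ∧ ent f ⊆ acl K (ent A) := by
  let F := algebraicClosure (IntermediateField.adjoin K (ent A)) E
  have : IsAlgClosed F := IsAlgClosure.isAlgClosed (IntermediateField.adjoin K (ent A))
  have hA : ∀ i j, A i j ∈ F := fun i j => by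
    have := subset_acl (K := K) (ent A) ⟨i, j, rfl⟩
    exact this
  let A' : Mat r F := Matrix.of fun i j => (⟨A i j, hA i j⟩ : F)
  have hA' : A'.map (algebraMap F E) = A := by
    ext i j; rfl
  obtain ⟨h, U, hd, hU, hh⟩ := tri r A'ᵀ
  refine ⟨hᵀ.map (algebraMap F E), Uᵀ.map (algebraMap F E), ?_, ?_, ?_, ?_⟩
  · have : (hᵀ.map (algebraMap F E)).det = algebraMap F E hᵀ.det :=
      (RingHom.map_det (algebraMap F E) hᵀ).symm
    rw [this, Matrix.det_transpose]
    intro h0
    exact hd ((algebraMap F E).injective (by rw [h0, map_zero]))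
  · intro i j hij
    rw [Matrix.map_apply, Matrix.transpose_apply, hU j i hij, map_zero]
  · have h1 : hᵀ * A' = Uᵀ * hᵀ := by
      have := congrArg Matrix.transpose hh
      rwa [Matrix.transpose_mul, Matrix.transpose_mul, Matrix.transpose_transpose] at this
    have h2 := congrArg (fun M : Mat r F => M.map (algebraMap F E)) h1
    simp only [Matrix.map_mul] at h2
    rwa [hA'] at h2
  · rintro _ ⟨i, j, rfl⟩
    have := (hᵀ i j).2
    exact this

end ents

/-! ## Flags -/

section flags

variable {E : Type*} [Field E] {r : ℕ}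

theorem diag_ne {b : Mat r E} (hb : ∀ i j, j < i → b i j = 0) (hd : b.det ≠ 0) (i : Fin r) :
    b i i ≠ 0 := by
  have h : b.BlockTriangular id := fun i j hij => hb i j hij
  rw [Matrix.det_of_isUpperTriangular h] at hd
  exact fun h0 => hd (Finset.prod_eq_zero (Finset.mem_univ i) h0)

theorem upper_inv {b : Mat r E} (hb : ∀ i j, j < i → b i j = 0) (hd : b.det ≠ 0) :
    ∀ i j, j < i → b⁻¹ i j = 0 := by
  have h : b.BlockTriangular id := fun i j hij => hb i j hij
  let _ := Matrix.invertibleOfIsUnitDet b (isUnit_iff_ne_zero.2 hd)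
  have h2 := Matrix.blockTriangular_inv_of_blockTriangular h
  exact fun i j hij => h2 hij

theorem upper_mul {a b : Mat r E} (ha : ∀ i j, j < i → a i j = 0)
    (hb : ∀ i j, j < i → b i j = 0) : ∀ i j, j < i → (a * b) i j = 0 := by
  have h1 : a.BlockTriangular id := fun i j hij => ha i j hij
  have h2 : b.BlockTriangular id := fun i j hij => hb i j hij
  have h3 := h1.mul h2
  exact fun i j hij => h3 hij

theorem D_mul_upper {b : Mat r E} (hb : ∀ i j, j < i → b i j = 0) (hd : b.det ≠ 0) {k : ℕ}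
    (hk : k ≤ r) (M : Mat r E) (h : D k (M * b) = 0) : D k M = 0 := by
  obtain ⟨v, hv, hbv⟩ := Gen1.exists_up (δ := fun i => b i i) (diag_ne hb hd) hb fun _ => rfl
  rw [hbv, ← Matrix.mul_assoc, D_mul_up hv, D_mul_diag _ hk] at h
  rcases mul_eq_zero.1 h with h | h
  · exact h
  · exact absurd h (Finset.prod_ne_zero_iff.2 fun i _ => diag_ne hb hd _)

theorem Stab.of_mul {M h' b : Mat r E} (hb : ∀ i j, j < i → b i j = 0) (hd : b.det ≠ 0)
    (hS : Stab M (h' * b)) : Stab M h' := by
  obtain ⟨v, hv, hM⟩ := hS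
  refine ⟨b * v * b⁻¹, upper_mul (upper_mul hb hv) (upper_inv hb hd), ?_⟩
  have hu : IsUnit b.det := isUnit_iff_ne_zero.2 hd
  have h1 : M * h' = M * (h' * b) * b⁻¹ := by
    rw [← Matrix.mul_assoc, Matrix.mul_nonsing_inv_cancel_right _ _ hu]
  rw [h1, hM]
  simp only [Matrix.mul_assoc]

end flags

/-! ## Words -/

section words

variable {K E : Type*} [Field K] [Field E] [Algebra K E] {r : ℕ}

theorem wents_cons (l : Letter r E) (w : List (Letter r E)) :
    wents (l :: w) = l.ents ∪ wents w := by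
  ext x
  simp [wents]

theorem wcnt_cons (l : Letter r E) (w : List (Letter r E)) : wcnt (l :: w) = l.cnt + wcnt w := by
  simp [wcnt]

theorem wents_append (w w' : List (Letter r E)) : wents (w ++ w') = wents w ∪ wents w' := by
  induction w with
  | nil => ext x; simp [wents]
  | cons l w ih => rw [List.cons_append, wents_cons, ih, wents_cons, Set.union_assoc]

theorem wcnt_append (w w' : List (Letter r E)) : wcnt (w ++ w') = wcnt w + wcnt w' := by
  simp [wcnt]

theorem Bd_wents [IsAlgClosed E] (w : List (Letter r E)) (hw : ∀ x ∈ w, x.Valid K) (B : Set E) :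
    Bd K B (wents w) (wcnt w) := by
  induction w generalizing B with
  | nil =>
    refine (Bd.of_subset (K := K) (B := B) (A := ∅) (Set.empty_subset _)).mono (subset_acl _) ?_
      (Nat.zero_le _)
    rintro x ⟨l, hl, _⟩
    simp at hl
  | cons l w ih =>
    rw [wents_cons, wcnt_cons]
    exact (bound_letter l (hw l (by simp)) B).trans (ih (fun x hx => hw x (by simp [hx])) _)

theorem letter_ents (l : Letter r E) {F : IntermediateField K E} (h : l.ents ⊆ F) :
    ent l.val ⊆ F := by
  cases l with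
  | pt A => exact h
  | hd a b =>
    have ha : ent a ⊆ (F : Set E) := Set.subset_union_left.trans h
    have hb : ent b ⊆ (F : Set E) := Set.subset_union_right.trans h
    refine Gen1.ent_mul (Gen1.ent_mul (Gen1.ent_mul ha hb) ?_) ?_
    · rintro _ ⟨i, j, rfl⟩
      exact adjugate_mem_of F a (fun i j => ha ⟨i, j, rfl⟩) i j
    · rintro _ ⟨i, j, rfl⟩
      exact adjugate_mem_of F b (fun i j => hb ⟨i, j, rfl⟩) i j

theorem wval_ents (w : List (Letter r E)) {F : IntermediateField K E} (h : wents w ⊆ F) :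
    ent (wval w) ⊆ F := by
  induction w with
  | nil => simpa [wval] using (Gen1.ent_one : ent (1 : Mat r E) ⊆ F)
  | cons l w ih =>
    rw [wents_cons] at h
    rw [wval, List.map_cons, List.prod_cons]
    exact Gen1.ent_mul (letter_ents l (Set.subset_union_left.trans h))
      (ih (Set.subset_union_right.trans h))

theorem letter_det (l : Letter r E) (h : l.Valid K) : l.val.det ≠ 0 := by
  cases l with
  | pt A => exact h.1
  | hd a b =>
    obtain ⟨ha, hb⟩ := h
    simp [Letter.val, Matrix.det_mul, Matrix.det_adjugate, ha, hb]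

theorem wval_det (w : List (Letter r E)) (h : ∀ x ∈ w, x.Valid K) : (wval w).det ≠ 0 := by
  induction w with
  | nil => simp [wval]
  | cons l w ih =>
    rw [wval, List.map_cons, List.prod_cons, Matrix.det_mul]
    exact mul_ne_zero (letter_det l (h l (by simp))) (ih fun x hx => h x (by simp [hx]))

end words

/-! ## The main argument -/

section main

variable {K E : Type*} [Field K] [Field E] [Algebra K E] [IsAlgClosed E] {r : ℕ}

theorem two_N (r : ℕ) : 2 * (r * (r - 1) / 2) = r * (r - 1) :=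
  Nat.mul_div_cancel' (Nat.even_mul_pred_self r).two_dvd

theorem sq_N {r : ℕ} (hr : 1 ≤ r) : r ^ 2 - 1 = r * (r - 1) + (r - 1) := by
  obtain ⟨s, rfl⟩ : ∃ s, r = s + 1 := ⟨r - 1, by omega⟩
  have : (s + 1) ^ 2 = (s + 1) * s + s + 1 := by ring
  rw [this]
  simp

theorem choose_N {r : ℕ} (hr : 1 ≤ r) : (r - 1).choose 2 + (r - 1) = r * (r - 1) / 2 := by
  obtain ⟨s, rfl⟩ : ∃ s, r = s + 1 := ⟨r - 1, by omega⟩
  have h1 : (s + 1).choose 2 = s.choose 1 + s.choose 2 := rfl
  have h2 := Nat.choose_two_right (s + 1)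
  rw [Nat.choose_one_right] at h1
  simp only [Nat.add_sub_cancel] at h2 ⊢
  omega

/-- The case where the first letter is a handle. -/
theorem case_hd (hU : Univ K E) (hr : 3 ≤ r) (a b : Mat r E) (w : List (Letter r E))
    (A : Mat r E) (hv : ∀ x ∈ (Letter.hd a b :: w) ++ [.pt A], x.Valid K)
    (hD : wcnt ((Letter.hd a b :: w) ++ [.pt A]) ≤
      rk K (wents ((Letter.hd a b :: w) ++ [.pt A])) + (r - 1))
    (h' : Mat r E) (hh' : h'.det ≠ 0) (c : Fin r → E) (n : Mat r E)
    (hc : ∀ k, c k ≠ 0 ∧ c k ∈ acl K (∅ : Set E)) (hn : UpU n)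
    (hP : wval ((Letter.hd a b :: w) ++ [.pt A]) * h' = h' * (diagonal c * n))
    (hB : Bd K (ent A) (ent h') (r * (r - 1) / 2 - 1)) : False := by
  have hvw : ∀ x ∈ w, x.Valid K := fun x hx => hv x (by simp [hx])
  have hvA : (Letter.pt A : Letter r E).Valid K := hv _ (by simp)
  have hvab : (Letter.hd a b : Letter r E).Valid K := hv _ (by simp)
  obtain ⟨ha, hb⟩ := hvab
  have hA0 : A.det ≠ 0 := hvA.1
  set B : Set E := wents w ∪ ent A ∪ ent h' with hBdef
  have hBf : B.Finite := ((wents_finite w).union (ent_finite A)).union (ent_finite h')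
  have hrB : rk K B ≤ wcnt w + r * (r - 1) + (r * (r - 1) / 2 - 1) := by
    refine rk_le ?_
    refine (((Bd_wents w hvw ∅).trans (bound_letter (.pt A) hvA _)).trans ?_)
    exact hB.mono (Set.Subset.trans (by
      intro x hx; exact Or.inr (Or.inr hx)) (subset_acl _))
      (Set.subset_union_right.trans (subset_acl _)) le_rfl
  have hX : (wval w * A).det ≠ 0 := by
    rw [Matrix.det_mul]; exact mul_ne_zero (wval_det w hvw) hA0
  have hBw : ent (wval w) ⊆ acl K B := wval_ents w (Set.Subset.trans (by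
      intro x hx; exact Or.inl (Or.inl hx)) (subset_acl _))
  have hBA : ent A ⊆ acl K B := Set.Subset.trans (by
      intro x hx; exact Or.inl (Or.inr hx)) (subset_acl _)
  have hBh : ent h' ⊆ acl K B := Set.Subset.trans (by
      intro x hx; exact Or.inr hx) (subset_acl _)
  have hP' : (1 : Mat r E) * (a * b * a.adjugate * b.adjugate) * (wval w * A) * h' =
      h' * (diagonal c * n) := by
    rw [← hP]
    simp [wval, Letter.val, Matrix.mul_assoc]
  have hmain := (handle_bound hU hr B hBf 1 (wval w * A) h' a b n c Gen1.ent_one (by simp)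
    (Gen1.ent_mul hBw hBA) hX hBh hh' hc ha hb hn hP').1
  have hle : rk K (wents ((Letter.hd a b :: w) ++ [.pt A])) ≤ rk K (B ∪ ent a ∪ ent b) := by
    refine rk_mono ((hBf.union (ent_finite a)).union (ent_finite b)) ?_
    refine Set.Subset.trans ?_ (subset_acl _)
    rw [wents_append, wents_cons]
    rintro x ((hx | hx) | hx)
    · rcases hx with hx | hx
      · exact Or.inl (Or.inr hx)
      · exact Or.inr hx
    · exact Or.inl (Or.inl (Or.inl (Or.inl hx)))
    · obtain ⟨l, hl, hx⟩ := hx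
      rw [List.mem_singleton] at hl
      subst hl
      exact Or.inl (Or.inl (Or.inl (Or.inr hx)))
  have hcnt : wcnt ((Letter.hd a b :: w) ++ [.pt A]) =
      2 * (r ^ 2 - 1) + wcnt w + r * (r - 1) := by
    simp [wcnt, Letter.cnt, add_assoc]
  rw [hcnt, sq_N (by omega)] at hD
  have h2 := two_N r
  have h3 : 3 ≤ r * (r - 1) := by
    obtain ⟨s, rfl⟩ : ∃ s, r = s + 3 := ⟨r - 3, by omega⟩
    have : s + 3 - 1 = s + 2 := by omega
    rw [this]; nlinarith
  generalize r * (r - 1) / 2 = N at *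
  generalize r * (r - 1) = M at *
  omega

/-- The case where the first letter is a puncture. -/
theorem case_pt (hr : 3 ≤ r) (A₁ : Mat r E) (w : List (Letter r E))
    (A : Mat r E) (hv : ∀ x ∈ (Letter.pt A₁ :: w) ++ [.pt A], x.Valid K)
    (hD : wcnt ((Letter.pt A₁ :: w) ++ [.pt A]) ≤
      rk K (wents ((Letter.pt A₁ :: w) ++ [.pt A])) + (r - 1))
    (h' : Mat r E) (hh' : h'.det ≠ 0) (c : Fin r → E) (n : Mat r E)
    (hc : ∀ k, c k ≠ 0 ∧ c k ∈ acl K (∅ : Set E)) (hn : UpU n)
    (hP : wval ((Letter.pt A₁ :: w) ++ [.pt A]) * h' = h' * (diagonal c * n))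
    (hN : ∀ B : Set E, Bd K B (ent h') (r * (r - 1) / 2))
    (hB : Bd K (ent A) (ent h') (r * (r - 1) / 2 - 1)) : False := by
  have hvw : ∀ x ∈ w, x.Valid K := fun x hx => hv x (by simp [hx])
  have hvA : (Letter.pt A : Letter r E).Valid K := hv _ (by simp)
  have hvA₁ : (Letter.pt A₁ : Letter r E).Valid K := hv _ (by simp)
  have hA0 : A.det ≠ 0 := hvA.1
  have hA10 : A₁.det ≠ 0 := hvA₁.1
  have hX0 : (wval w).det ≠ 0 := wval_det w hvw
  set X : Mat r E := wval w with hXdef
  set B : Set E := wents w ∪ ent h' with hBdef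
  have hBf : B.Finite := (wents_finite w).union (ent_finite h')
  have hBX : ent X ⊆ acl K B := wval_ents w (Set.subset_union_left.trans (subset_acl _))
  have hBh : ent h' ⊆ acl K B := Set.subset_union_right.trans (subset_acl _)
  have hcB : ∀ k, c k ∈ acl K B := fun k => acl_mono (Set.empty_subset _) (hc k).2
  have hBA : acl K B ≤ acl K (B ∪ ent A) := acl_mono Set.subset_union_left
  have hAA : ent A ⊆ acl K (B ∪ ent A) := Set.subset_union_right.trans (subset_acl _)
  have hcd : (diagonal c : Mat r E).det ≠ 0 := by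
    rw [Matrix.det_diagonal]
    exact Finset.prod_ne_zero_iff.2 fun k _ => (hc k).1
  have hinv : ∀ M : Mat r E, M.det ≠ 0 → M⁻¹.det ≠ 0 := fun M hM => by
    rw [Matrix.det_nonsing_inv, Ring.inverse_eq_inv']
    exact inv_ne_zero hM
  have uh : IsUnit h'.det := isUnit_iff_ne_zero.2 hh'
  have uA : IsUnit A.det := isUnit_iff_ne_zero.2 hA0
  have uX : IsUnit X.det := isUnit_iff_ne_zero.2 hX0
  set a : Mat r E := h'⁻¹ * A⁻¹ * h' with hadef
  set q : Mat r E := h'⁻¹ * X⁻¹ * h' * diagonal c with hqdef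
  set g : Mat r E := a * q with hgdef
  have had : a.det ≠ 0 := by
    rw [hadef, Matrix.det_mul, Matrix.det_mul]
    exact mul_ne_zero (mul_ne_zero (hinv _ hh') (hinv _ hA0)) hh'
  have hqd : q.det ≠ 0 := by
    rw [hqdef, Matrix.det_mul, Matrix.det_mul, Matrix.det_mul]
    exact mul_ne_zero (mul_ne_zero (mul_ne_zero (hinv _ hh') (hinv _ hX0)) hh') hcd
  have hgd : g.det ≠ 0 := by
    rw [hgdef, Matrix.det_mul]
    exact mul_ne_zero had hqd
  have hqB : ent q ⊆ acl K B :=
    Gen1.ent_mul (Gen1.ent_mul (Gen1.ent_mul (ent_inv hBh) (ent_inv hBX)) hBh) (ent_diag hcB)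
  have haB : ent a ⊆ acl K (B ∪ ent A) :=
    Gen1.ent_mul (Gen1.ent_mul (ent_inv (hBh.trans hBA)) (ent_inv hAA)) (hBh.trans hBA)
  have hgB : ent g ⊆ acl K (B ∪ ent A) := Gen1.ent_mul haB (hqB.trans hBA)
  -- `n g` is conjugate to `A₁`
  have hP1 : A₁ * X * A * h' = h' * (diagonal c * n) := by
    rw [← hP]
    simp [wval, Letter.val, Matrix.mul_assoc, hXdef]
  have hT : h' * diagonal c * (n * g) = A₁ * (h' * diagonal c) := by
    have h1 : h' * diagonal c * (n * g) = (h' * (diagonal c * n)) * g := by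
      simp only [Matrix.mul_assoc]
    rw [h1, ← hP1, hgdef, hadef, hqdef]
    have h2 : A₁ * X * A * h' * (h'⁻¹ * A⁻¹ * h' * (h'⁻¹ * X⁻¹ * h' * diagonal c)) =
        A₁ * (X * (A * (h' * h'⁻¹) * A⁻¹) * (h' * h'⁻¹) * X⁻¹) * (h' * diagonal c) := by
      simp only [Matrix.mul_assoc]
    rw [h2, Matrix.mul_nonsing_inv _ uh, Matrix.mul_one, Matrix.mul_one,
      Matrix.mul_nonsing_inv _ uA, Matrix.mul_one, Matrix.mul_nonsing_inv _ uX, Matrix.mul_one]
  have hTd : (h' * diagonal c).det ≠ 0 := by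
    rw [Matrix.det_mul]; exact mul_ne_zero hh' hcd
  have hcp : (n * g).charpoly = A₁.charpoly := charpoly_conj hTd hT
  have hcpc : cpc (n * g) ⊆ acl K (B ∪ ent A) := by
    rintro _ ⟨i, rfl⟩
    simp only
    rw [hcp]
    exact acl_mono (Set.empty_subset _) (hvA₁.2 i)
  obtain ⟨S, hS⟩ := exists_ch r (n * g)
  have hH := boundH r (B ∪ ent A) n g S hgB hgd hn hcpc hS
  -- `A₁` is determined by `B`, `A` and `n`
  have hA₁ : Bd K (B ∪ ent A) (ent A₁) ((r - 1).choose 2 + (levs g).card) := by
    refine hH.mono (subset_acl _) ?_ le_rfl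
    have h1 : A₁ = h' * diagonal c * (n * g) * (h' * diagonal c)⁻¹ := by
      rw [hT, Matrix.mul_nonsing_inv_cancel_right _ _ (isUnit_iff_ne_zero.2 hTd)]
    set F := acl K (B ∪ ent A ∪ (ent n ∪ S)) with hF
    have h0 : acl K (B ∪ ent A) ≤ F := acl_mono Set.subset_union_left
    have h2 : ent h' ⊆ (F : Set E) := (hBh.trans hBA).trans h0
    have h3 : ent (diagonal c) ⊆ (F : Set E) := (ent_diag hcB).trans (Set.Subset.trans hBA h0)
    have h4 : ent n ⊆ (F : Set E) := (Set.subset_union_left.trans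
      Set.subset_union_right).trans (subset_acl _)
    have h5 : ent g ⊆ (F : Set E) := hgB.trans h0
    rw [h1]
    exact Gen1.ent_mul (Gen1.ent_mul (Gen1.ent_mul h2 h3) (Gen1.ent_mul h4 h5))
      (ent_inv (Gen1.ent_mul h2 h3))
  have hBAf : (B ∪ ent A).Finite := hBf.union (ent_finite A)
  have htot := rk_union hBAf hA₁
  have hle : rk K (wents ((Letter.pt A₁ :: w) ++ [.pt A])) ≤ rk K (B ∪ ent A ∪ ent A₁) := by
    refine rk_mono (hBAf.union (ent_finite A₁)) ?_
    refine Set.Subset.trans ?_ (subset_acl _)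
    rw [wents_append, wents_cons]
    rintro x ((hx | hx) | hx)
    · exact Or.inr hx
    · exact Or.inl (Or.inl (Or.inl hx))
    · obtain ⟨l, hl, hx⟩ := hx
      rw [List.mem_singleton] at hl
      subst hl
      exact Or.inl (Or.inr hx)
  have hcnt : wcnt ((Letter.pt A₁ :: w) ++ [.pt A]) =
      r * (r - 1) + wcnt w + r * (r - 1) := by
    simp [wcnt, Letter.cnt, add_assoc]
  rw [hcnt] at hD
  have h2 := two_N r
  have h3 : 3 ≤ r * (r - 1) := by
    obtain ⟨s, rfl⟩ : ∃ s, r = s + 3 := ⟨r - 3, by omega⟩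
    have : s + 3 - 1 = s + 2 := by omega
    rw [this]; nlinarith
  have h4 := choose_N (r := r) (by omega)
  by_cases hne : (levs g).Nonempty
  · obtain ⟨S', hS'⟩ := exists_ch r a
    have hAcpc : cpc A ⊆ acl K (∅ : Set E) := by
      rintro _ ⟨i, rfl⟩
      exact hvA.2 i
    have hca : cpc a ⊆ acl K B := by
      have h5 : a.charpoly = A⁻¹.charpoly := by
        refine charpoly_conj hh' ?_
        rw [hadef, ← Matrix.mul_assoc, ← Matrix.mul_assoc, Matrix.mul_nonsing_inv _ uh,
          Matrix.one_mul]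
      have h6 := cpc_inv hAcpc hA0
      rintro _ ⟨i, rfl⟩
      simp only
      rw [h5]
      exact acl_mono (Set.empty_subset _) (h6 ⟨i, rfl⟩)
    obtain ⟨n', hn', hBd⟩ := boundQ r B a q S' hqB hqd had hca hS'
    have hBdA : Bd K B (ent A) n' := by
      refine hBd.mono (subset_acl _) ?_ le_rfl
      have h1 : A = (h' * a * h'⁻¹)⁻¹ := by
        have : h' * a * h'⁻¹ = A⁻¹ := by
          rw [hadef, ← Matrix.mul_assoc, ← Matrix.mul_assoc, Matrix.mul_nonsing_inv _ uh,
            Matrix.one_mul, Matrix.mul_nonsing_inv_cancel_right _ _ uh]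
        rw [this, Matrix.nonsing_inv_nonsing_inv _ uA]
      set F := acl K (B ∪ (ent a ∪ S')) with hF
      have h0 : acl K B ≤ F := acl_mono Set.subset_union_left
      have h4 : ent a ⊆ (F : Set E) := (Set.subset_union_left.trans
        Set.subset_union_right).trans (subset_acl _)
      rw [h1]
      exact ent_inv (Gen1.ent_mul (Gen1.ent_mul (hBh.trans h0) h4) (ent_inv (hBh.trans h0)))
    have hrBA := rk_union hBf hBdA
    have hrB : rk K B ≤ wcnt w + r * (r - 1) / 2 := rk_le ((Bd_wents w hvw ∅).trans (hN _))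
    rw [if_pos ⟨hr, hne⟩] at hn'
    have hpos := Finset.card_pos.2 hne
    rw [← hgdef] at hn'
    generalize r * (r - 1) / 2 = N at *
    generalize r * (r - 1) = M at *
    generalize (r - 1).choose 2 = C at *
    omega
  · have h0 : (levs g).card = 0 := by
      rw [Finset.card_eq_zero]
      exact Finset.not_nonempty_iff_eq_empty.1 hne
    rw [h0] at htot
    have hrBA : rk K (B ∪ ent A) ≤ wcnt w + r * (r - 1) + (r * (r - 1) / 2 - 1) := by
      have h5 : Bd K ∅ (wents w ∪ ent A ∪ ent h') (wcnt w + r * (r - 1) +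
          (r * (r - 1) / 2 - 1)) := by
        refine (((Bd_wents w hvw ∅).trans (bound_letter (.pt A) hvA _)).trans ?_)
        exact hB.mono (Set.Subset.trans (by
          intro x hx; exact Or.inr (Or.inr hx)) (subset_acl _))
          (Set.subset_union_right.trans (subset_acl _)) le_rfl
      have h6 : B ∪ ent A = wents w ∪ ent A ∪ ent h' := by
        rw [hBdef, Set.union_assoc, Set.union_comm (ent h'), ← Set.union_assoc]
      rw [h6]
      exact rk_le h5
    generalize r * (r - 1) / 2 = N at *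
    generalize r * (r - 1) = M at *
    generalize (r - 1).choose 2 = C at *
    omega

end main

/-- GLb -/
theorem frameOK_pt {K E : Type*} [Field K] [Field E] [Algebra K E] [IsAlgClosed E]
    (hU : Univ K E) {r : ℕ} (hr : 3 ≤ r) (w : List (Letter r E)) (hw : w ≠ []) (A : Mat r E)
    (hv : ∀ x ∈ w ++ [.pt A], x.Valid K)
    (hc : cpc (wval (w ++ [.pt A])) ⊆ acl K (∅ : Set E))
    (hD : wcnt (w ++ [.pt A]) ≤ rk K (wents (w ++ [.pt A])) + (r - 1)) (h : Mat r E)
    (hh : h.det ≠ 0) (hS : Stab (wval (w ++ [.pt A])) h) : FrameOK h (.pt A) := by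
  have hvA : (Letter.pt A : Letter r E).Valid K := hv _ (by simp)
  obtain ⟨f, v, hfd, hvl, hfA, hfe⟩ := tri_low (K := K) A
  refine ⟨f, v, hfd, hvl, hfA, fun k hk hDk => ?_⟩
  obtain ⟨h', b, hhb, hh'd, hbd, hbu, hN, hL⟩ := exists_flag (K := K) h hh
  rw [hhb, ← Matrix.mul_assoc] at hDk
  have hDk' := D_mul_upper hbu hbd hk _ hDk
  rw [hhb] at hS
  have hS' := Stab.of_mul hbu hbd hS
  obtain ⟨c, n, hcc, hn, hP⟩ := hS'.exists_upU (wval_det _ hv) hh'd hc
  have hB : Bd K (ent A) (ent h') (r * (r - 1) / 2 - 1) := by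
    rcases hL with hL | hL
    · exact boundC (ent A) f h' hfe hfd hL hk hDk'
    · exact hL _
  cases w with
  | nil => exact hw rfl
  | cons l w =>
    cases l with
    | hd a b => exact case_hd hU hr a b w A hv hD h' hh'd c n hcc hn hP hB
    | pt A₁ => exact case_pt hr A₁ w A hv hD h' hh'd c n hcc hn hP hN hB

end Pool.Agent.MP_3f0e22_ag.GLb

namespace Pool.Agent.MP_3f0e22_ag

alias frameOK_pt := GLb.frameOK_pt

end Pool.Agent.MP_3f0e22_ag
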