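import Pool.Agent.MP_3f0e22_ag.GLa
import Pool.Agent.MP_3f0e22_ag.GLb

/-! # MP_3f0e22_ag, version 2, row FRa: `frame_pt`, `frameOK_of_generic` -/

set_option autoImplicit false

open Matrix

namespace Pool.Agent.MP_3f0e22_ag.FRa

variable {E : Type*} [Field E] {r : ℕ}

/-- Upper triangular with nonzero diagonal entries. -/
def Upp (X : Mat r E) : Prop := (∀ i j : Fin r, j < i → X i j = 0) ∧ ∀ i, X i i ≠ 0

theorem diag_mul_of_up {X Y : Mat r E} (hX : ∀ i j : Fin r, j < i → X i j = 0)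
    (hY : ∀ i j : Fin r, j < i → Y i j = 0) (i : Fin r) : (X * Y) i i = X i i * Y i i := by
  rw [Matrix.mul_apply, Finset.sum_eq_single i]
  · intro k _ hk
    rcases lt_or_gt_of_ne hk with h | h
    · rw [hX i k h, zero_mul]
    · rw [hY k i h, mul_zero]
  · intro h
    exact absurd (Finset.mem_univ i) h

theorem up_mul {X Y : Mat r E} (hX : ∀ i j : Fin r, j < i → X i j = 0)
    (hY : ∀ i j : Fin r, j < i → Y i j = 0) : ∀ i j : Fin r, j < i → (X * Y) i j = 0 := by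
  intro i j hij
  rw [Matrix.mul_apply]
  refine Finset.sum_eq_zero fun k _ => ?_
  rcases lt_or_ge k i with h | h
  · rw [hX i k h, zero_mul]
  · rw [hY k j (lt_of_lt_of_le hij h), mul_zero]

theorem Upp.mul {X Y : Mat r E} (hX : Upp X) (hY : Upp Y) : Upp (X * Y) :=
  ⟨up_mul hX.1 hY.1, fun i => by
    rw [diag_mul_of_up hX.1 hY.1]
    exact mul_ne_zero (hX.2 i) (hY.2 i)⟩

theorem Upp.det_ne {X : Mat r E} (hX : Upp X) : X.det ≠ 0 := by
  have h : X.BlockTriangular id := fun i j hij => hX.1 i j hij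
  rw [Matrix.det_of_isUpperTriangular h]
  exact Finset.prod_ne_zero_iff.2 fun i _ => hX.2 i

theorem Upp.inv {X : Mat r E} (hX : Upp X) : ∃ Y : Mat r E, Upp Y ∧ X * Y = 1 ∧ Y * X = 1 := by
  have hu : IsUnit X.det := isUnit_iff_ne_zero.2 hX.det_ne
  have h : X.BlockTriangular id := fun i j hij => hX.1 i j hij
  have : Invertible X := Matrix.invertibleOfIsUnitDet X hu
  have h2 := Matrix.blockTriangular_inv_of_blockTriangular h
  have h3 : ∀ i j : Fin r, j < i → X⁻¹ i j = 0 := fun i j hij => h2 hij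
  refine ⟨X⁻¹, ⟨h3, fun i hi => ?_⟩, Matrix.mul_nonsing_inv _ hu, Matrix.nonsing_inv_mul _ hu⟩
  have h4 := congrFun (congrFun (Matrix.mul_nonsing_inv _ hu) i) i
  rw [diag_mul_of_up hX.1 h3, hi, mul_zero, Matrix.one_apply_eq] at h4
  exact zero_ne_one h4

theorem upp_of_up {v : Mat r E} (hv : UpU v) : Upp v :=
  ⟨hv.2, fun i => by rw [hv.1]; exact one_ne_zero⟩

theorem upp_diag {d : Fin r → E} (hd : ∀ k, d k ≠ 0) : Upp (diagonal d : Mat r E) :=
  ⟨fun _ _ hij => Matrix.diagonal_apply_ne _ hij.ne', fun i => by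
    rw [Matrix.diagonal_apply_eq]
    exact hd i⟩

theorem Upp.decomp {X : Mat r E} (hX : Upp X) :
    ∃ (d : Fin r → E) (v : Mat r E), (∀ k, d k ≠ 0) ∧ UpU v ∧ X = diagonal d * v := by
  refine ⟨fun k => X k k, Matrix.of fun i j => (X i i)⁻¹ * X i j, hX.2,
    ⟨fun i => ?_, fun i j hij => ?_⟩, ?_⟩
  · rw [Matrix.of_apply, inv_mul_cancel₀ (hX.2 i)]
  · rw [Matrix.of_apply, hX.1 i j hij, mul_zero]
  · ext i j
    rw [Matrix.diagonal_mul, Matrix.of_apply, mul_inv_cancel_left₀ (hX.2 i)]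

theorem D_ldv {l v : Mat r E} {d : Fin r → E} (hl : LowU l) (hv : UpU v) (hd : ∀ k, d k ≠ 0)
    {k : ℕ} (hk : k ≤ r) : D k (l * (diagonal d * v)) ≠ 0 := by
  rw [D_low_mul hl, D_diag_mul d hk]
  have h1 : D k v = 1 := by
    have h := D_mul_up hv k (1 : Mat r E)
    rwa [Matrix.one_mul, D_one k hk] at h
  rw [h1, mul_one]
  exact Finset.prod_ne_zero_iff.2 fun i _ => hd _

theorem exists_lu' (M : Mat r E) (h : ∀ k ≤ r, D k M ≠ 0) :
    ∃ l X : Mat r E, LowU l ∧ Upp X ∧ M = l * X := by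
  obtain ⟨l, v, d, hl, hv, hM⟩ := exists_lu M fun k hk => isUnit_iff_ne_zero.2 (h k hk)
  refine ⟨l, diagonal (fun k => (d k : E)) * v, hl,
    (upp_diag fun k => (d k).ne_zero).mul (upp_of_up hv), ?_⟩
  rw [hM, Matrix.mul_assoc]

/-- Lower triangular with nonzero diagonal entries. -/
def Lpp (X : Mat r E) : Prop := (∀ i j : Fin r, i < j → X i j = 0) ∧ ∀ i, X i i ≠ 0

theorem lpp_iff (X : Mat r E) : Lpp X ↔ Upp Xᵀ := by
  constructor
  · intro h
    exact ⟨fun i j hij => h.1 j i hij, fun i => h.2 i⟩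
  · intro h
    exact ⟨fun i j hij => h.1 j i hij, fun i => h.2 i⟩

theorem Lpp.mul {X Y : Mat r E} (hX : Lpp X) (hY : Lpp Y) : Lpp (X * Y) := by
  rw [lpp_iff] at hX hY ⊢
  rw [Matrix.transpose_mul]
  exact hY.mul hX

theorem Lpp.inv {X : Mat r E} (hX : Lpp X) : ∃ Y : Mat r E, Lpp Y ∧ X * Y = 1 ∧ Y * X = 1 := by
  rw [lpp_iff] at hX
  obtain ⟨Y, hY, h1, h2⟩ := hX.inv
  refine ⟨Yᵀ, ?_, ?_, ?_⟩
  · rw [lpp_iff, Matrix.transpose_transpose]
    exact hY
  · rw [← Matrix.transpose_transpose X, ← Matrix.transpose_mul, h2, Matrix.transpose_one]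
  · rw [← Matrix.transpose_transpose X, ← Matrix.transpose_mul, h1, Matrix.transpose_one]

theorem Lpp.decomp {X : Mat r E} (hX : Lpp X) :
    ∃ y : Mat r E, LowU y ∧ X = diagonal (fun k => X k k) * y := by
  refine ⟨Matrix.of fun i j => (X i i)⁻¹ * X i j, ⟨fun i => ?_, fun i j hij => ?_⟩, ?_⟩
  · rw [Matrix.of_apply, inv_mul_cancel₀ (hX.2 i)]
  · rw [Matrix.of_apply, hX.1 i j hij, mul_zero]
  · ext i j
    rw [Matrix.diagonal_mul, Matrix.of_apply, mul_inv_cancel_left₀ (hX.2 i)]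

theorem frame_pt {E : Type*} [Field E] {r : ℕ} (G A : Mat r E) (hG : G.det ≠ 0) (hA : A.det ≠ 0)
    (h : FrameOK (A⁻¹ * G) (.pt A)) :
    ∃ (C H : Mat r E) (t : Fin r → Eˣ), (∃ u, UpU u ∧ G = C * u) ∧ (∃ y, LowU y ∧ C = H * y) ∧
      A * H = C * diagonal (fun k => (t k : E)) ∧ C.det ≠ 0 := by
  obtain ⟨f, w, hf, hw, hfw, hD⟩ := h
  have hAu : IsUnit A.det := isUnit_iff_ne_zero.2 hA
  have hfu : IsUnit f.det := isUnit_iff_ne_zero.2 hf
  have hwd : w.det ≠ 0 := by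
    intro h0
    have h1 := congrArg Matrix.det hfw
    rw [Matrix.det_mul, Matrix.det_mul, h0, zero_mul] at h1
    exact mul_ne_zero hf hA h1
  have hwl : Lpp w := by
    refine ⟨hw, ?_⟩
    have h1 : w.BlockTriangular OrderDual.toDual := fun i j hij =>
      hw i j (OrderDual.toDual_lt_toDual.mp hij)
    rw [Matrix.det_of_isLowerTriangular w h1] at hwd
    exact fun i => Finset.prod_ne_zero_iff.1 hwd i (Finset.mem_univ i)
  have hfG : f * G = w * (f * (A⁻¹ * G)) := by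
    rw [← Matrix.mul_assoc w, ← hfw, Matrix.mul_assoc, Matrix.mul_nonsing_inv_cancel_left _ _ hAu]
  obtain ⟨l, X, hl, hX, hlX⟩ := exists_lu' (f * G) (by
    intro k hk
    rw [hfG]
    obtain ⟨y, hy, hwy⟩ := hwl.decomp
    rw [hwy, Matrix.mul_assoc, D_diag_mul _ hk, D_low_mul hy]
    exact mul_ne_zero (Finset.prod_ne_zero_iff.2 fun i _ => hwl.2 _) (hD k hk))
  obtain ⟨d, v, hd, hv, rfl⟩ := hX.decomp
  have hlpp : Lpp (l * diagonal d) := by
    refine Lpp.mul ⟨hl.2, fun i => by rw [hl.1]; exact one_ne_zero⟩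
      ⟨fun _ _ hij => Matrix.diagonal_apply_ne _ hij.ne, fun i => ?_⟩
    rw [Matrix.diagonal_apply_eq]
    exact hd i
  obtain ⟨M, hM, hM1, hM2⟩ := hlpp.inv
  have hL : Lpp (M * w * (l * diagonal d)) := (hM.mul hwl).mul hlpp
  obtain ⟨y, hy, hLy⟩ := hL.decomp
  -- f C = l d
  have hfC : f * (G * v.adjugate) = l * diagonal d := by
    rw [← Matrix.mul_assoc, hlX]
    simp only [Matrix.mul_assoc]
    rw [hv.mul_adjugate, Matrix.mul_one]
  have hAC : A * (G * v.adjugate) = G * v.adjugate * (M * w * (l * diagonal d)) := by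
    have h1 : f * (A * (G * v.adjugate)) =
        f * (G * v.adjugate * (M * w * (l * diagonal d))) := by
      rw [← Matrix.mul_assoc f A, hfw, Matrix.mul_assoc w f, hfC, ← Matrix.mul_assoc f, hfC]
      have h2 : l * diagonal d * (M * w * (l * diagonal d)) =
          (l * diagonal d * M) * (w * (l * diagonal d)) := by
        simp only [Matrix.mul_assoc]
      rw [h2, hM1, Matrix.one_mul]
    have h3 := congrArg (fun Z => f⁻¹ * Z) h1
    rwa [Matrix.nonsing_inv_mul_cancel_left _ _ hfu, Matrix.nonsing_inv_mul_cancel_left _ _ hfu]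
      at h3
  refine ⟨G * v.adjugate, G * v.adjugate * y.adjugate,
    fun k => Units.mk0 ((M * w * (l * diagonal d)) k k) (hL.2 k), ⟨v, hv, ?_⟩, ⟨y, hy, ?_⟩, ?_, ?_⟩
  · rw [Matrix.mul_assoc, hv.adjugate_mul, Matrix.mul_one]
  · rw [Matrix.mul_assoc, hy.adjugate_mul, Matrix.mul_one]
  · simp only [Units.val_mk0]
    rw [← Matrix.mul_assoc, hAC, Matrix.mul_assoc]
    nth_rw 1 [hLy]
    rw [Matrix.mul_assoc (diagonal _), hy.mul_adjugate, Matrix.mul_one]
  · rw [Matrix.det_mul, hv.adjugate.det, mul_one]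
    exact hG

theorem frameOK_of_generic {K E : Type*} [Field K] [Field E] [Algebra K E] [IsAlgClosed E]
    (hU : Univ K E) {r : ℕ} (hr : 3 ≤ r) (w : List (Letter r E)) (l : Letter r E)
    (hw : w ≠ [] ∨ ∃ a b, l = .hd a b) (hv : ∀ x ∈ w ++ [l], x.Valid K)
    (hc : cpc (wval (w ++ [l])) ⊆ acl K (∅ : Set E))
    (hD : wcnt (w ++ [l]) ≤ rk K (wents (w ++ [l])) + (r - 1)) (h : Mat r E) (hh : h.det ≠ 0)
    (hS : Stab (wval (w ++ [l])) h) : FrameOK h l := by
  cases l with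
  | pt A =>
    rcases hw with hw | ⟨a, b, hab⟩
    · exact frameOK_pt hU hr w hw A hv hc hD h hh hS
    · cases hab
  | hd a b => exact frameOK_hd hU hr w a b hv hc hD h hh hS

end Pool.Agent.MP_3f0e22_ag.FRa

namespace Pool.Agent.MP_3f0e22_ag

alias frame_pt := FRa.frame_pt
alias frameOK_of_generic := FRa.frameOK_of_generic

end Pool.Agent.MP_3f0e22_ag
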