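import Pool.Agent.MP_3f0e22_ag.Defs2

/-! # MP_3f0e22_ag, version 2, row FRb: `frame_hd` -/

set_option autoImplicit false

open Matrix

namespace Pool.Agent.MP_3f0e22_ag.FRb

variable {E : Type*} [Field E] {r : ℕ}

/-- Upper triangular with nonzero diagonal entries. -/
def Upp (X : Mat r E) : Prop := (∀ i j : Fin r, j < i → X i j = 0) ∧ ∀ i, X i i ≠ 0

theorem diag_mul_of_up {X Y : Mat r E} (hX : ∀ i j : Fin r, j < i → X i j = 0)
    (hY : ∀ i j : Fin r, j < i → Y i j = 0) (i : Fin r) : (X * Y) i i = X i i * Y i i := by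
  rw [Matrix.mul_apply, Finset.sum_eq_single i]
  · intro k _ hk
    rcases lt_or_gt_of_ne hk with h | h
    · rw [hX i k h, zero_mul]
    · rw [hY k i h, mul_zero]
  · intro h
    exact absurd (Finset.mem_univ i) h

theorem up_mul {X Y : Mat r E} (hX : ∀ i j : Fin r, j < i → X i j = 0)
    (hY : ∀ i j : Fin r, j < i → Y i j = 0) : ∀ i j : Fin r, j < i → (X * Y) i j = 0 := by
  intro i j hij
  rw [Matrix.mul_apply]
  refine Finset.sum_eq_zero fun k _ => ?_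
  rcases lt_or_ge k i with h | h
  · rw [hX i k h, zero_mul]
  · rw [hY k j (lt_of_lt_of_le hij h), mul_zero]

theorem Upp.mul {X Y : Mat r E} (hX : Upp X) (hY : Upp Y) : Upp (X * Y) :=
  ⟨up_mul hX.1 hY.1, fun i => by
    rw [diag_mul_of_up hX.1 hY.1]
    exact mul_ne_zero (hX.2 i) (hY.2 i)⟩

theorem Upp.det_ne {X : Mat r E} (hX : Upp X) : X.det ≠ 0 := by
  have h : X.BlockTriangular id := fun i j hij => hX.1 i j hij
  rw [Matrix.det_of_isUpperTriangular h]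
  exact Finset.prod_ne_zero_iff.2 fun i _ => hX.2 i

theorem Upp.inv {X : Mat r E} (hX : Upp X) : ∃ Y : Mat r E, Upp Y ∧ X * Y = 1 ∧ Y * X = 1 := by
  have hu : IsUnit X.det := isUnit_iff_ne_zero.2 hX.det_ne
  have h : X.BlockTriangular id := fun i j hij => hX.1 i j hij
  have : Invertible X := Matrix.invertibleOfIsUnitDet X hu
  have h2 := Matrix.blockTriangular_inv_of_blockTriangular h
  have h3 : ∀ i j : Fin r, j < i → X⁻¹ i j = 0 := fun i j hij => h2 hij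
  refine ⟨X⁻¹, ⟨h3, fun i hi => ?_⟩, Matrix.mul_nonsing_inv _ hu, Matrix.nonsing_inv_mul _ hu⟩
  have h4 := congrFun (congrFun (Matrix.mul_nonsing_inv _ hu) i) i
  rw [diag_mul_of_up hX.1 h3, hi, mul_zero, Matrix.one_apply_eq] at h4
  exact zero_ne_one h4

theorem upp_of_up {v : Mat r E} (hv : UpU v) : Upp v :=
  ⟨hv.2, fun i => by rw [hv.1]; exact one_ne_zero⟩

theorem upp_diag {d : Fin r → E} (hd : ∀ k, d k ≠ 0) : Upp (diagonal d : Mat r E) :=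
  ⟨fun _ _ hij => Matrix.diagonal_apply_ne _ hij.ne', fun i => by
    rw [Matrix.diagonal_apply_eq]
    exact hd i⟩

theorem Upp.decomp {X : Mat r E} (hX : Upp X) :
    ∃ (d : Fin r → E) (v : Mat r E), (∀ k, d k ≠ 0) ∧ UpU v ∧ X = diagonal d * v := by
  refine ⟨fun k => X k k, Matrix.of fun i j => (X i i)⁻¹ * X i j, hX.2,
    ⟨fun i => ?_, fun i j hij => ?_⟩, ?_⟩
  · rw [Matrix.of_apply, inv_mul_cancel₀ (hX.2 i)]
  · rw [Matrix.of_apply, hX.1 i j hij, mul_zero]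
  · ext i j
    rw [Matrix.diagonal_mul, Matrix.of_apply, mul_inv_cancel_left₀ (hX.2 i)]

theorem J_diag_J (d : Fin r → E) :
    Jm E r * diagonal d * Jm E r = diagonal (fun i => d i.rev) := by
  ext i j
  rw [Jm_conj_apply]
  by_cases h : i = j
  · subst h
    rw [Matrix.diagonal_apply_eq, Matrix.diagonal_apply_eq]
  · rw [Matrix.diagonal_apply_ne _ h, Matrix.diagonal_apply_ne]
    intro h2
    exact h (Fin.rev_injective h2)

theorem D_ldv {l v : Mat r E} {d : Fin r → E} (hl : LowU l) (hv : UpU v) (hd : ∀ k, d k ≠ 0)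
    {k : ℕ} (hk : k ≤ r) : D k (l * (diagonal d * v)) ≠ 0 := by
  rw [D_low_mul hl, D_diag_mul d hk]
  have h1 : D k v = 1 := by
    have h := D_mul_up hv k (1 : Mat r E)
    rwa [Matrix.one_mul, D_one k hk] at h
  rw [h1, mul_one]
  exact Finset.prod_ne_zero_iff.2 fun i _ => hd _

theorem exists_lu' (M : Mat r E) (h : ∀ k ≤ r, D k M ≠ 0) :
    ∃ l X : Mat r E, LowU l ∧ Upp X ∧ M = l * X := by
  obtain ⟨l, v, d, hl, hv, hM⟩ := exists_lu M fun k hk => isUnit_iff_ne_zero.2 (h k hk)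
  refine ⟨l, diagonal (fun k => (d k : E)) * v, hl,
    (upp_diag fun k => (d k).ne_zero).mul (upp_of_up hv), ?_⟩
  rw [hM, Matrix.mul_assoc]

theorem J_up_J {X : Mat r E} (hX : Upp X) (Z : Mat r E) {k : ℕ} (hk : k ≤ r) (hZ : D k Z ≠ 0) :
    D k (Jm E r * X * Jm E r * Z) ≠ 0 := by
  obtain ⟨d, v, hd, hv, rfl⟩ := hX.decomp
  have h1 : Jm E r * (diagonal d * v) * Jm E r * Z =
      (Jm E r * diagonal d * Jm E r) * ((Jm E r * v * Jm E r) * Z) := by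
    calc Jm E r * (diagonal d * v) * Jm E r * Z
        = Jm E r * diagonal d * 1 * v * Jm E r * Z := by
          rw [Matrix.mul_one]; simp only [Matrix.mul_assoc]
      _ = Jm E r * diagonal d * (Jm E r * Jm E r) * v * Jm E r * Z := by rw [Jm_mul_Jm]
      _ = _ := by simp only [Matrix.mul_assoc]
  rw [h1, J_diag_J, D_diag_mul _ hk, D_low_mul hv.conj_Jm]
  exact mul_ne_zero (Finset.prod_ne_zero_iff.2 fun i _ => hd _) hZ

theorem JJ (A : Mat r E) : Jm E r * (Jm E r * A) = A := by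
  rw [← Matrix.mul_assoc, Jm_mul_Jm, Matrix.one_mul]

theorem stepC (M N : Mat r E) (hM : M.det ≠ 0) (h : ∀ k ≤ r, D k (Jm E r * (M⁻¹ * N)) ≠ 0) :
    ∃ u X : Mat r E, UpU u ∧ Upp X ∧ N = M * u * (Jm E r * X) := by
  obtain ⟨l, X, hl, hX, hlX⟩ := exists_lu' _ h
  refine ⟨Jm E r * l * Jm E r, X, hl.conj_Jm, hX, ?_⟩
  have hu : IsUnit M.det := isUnit_iff_ne_zero.2 hM
  have h1 : N = M * (Jm E r * (Jm E r * (M⁻¹ * N))) := by
    rw [JJ, Matrix.mul_nonsing_inv_cancel_left _ _ hu]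
  rw [hlX] at h1
  rw [h1]
  simp only [Matrix.mul_assoc, JJ]

theorem stepH (C N M' X : Mat r E) (hC : C.det ≠ 0) (hN0 : N.det ≠ 0)
    (hN : N = C * (Jm E r * X)) (hX : Upp X) (h : ∀ k ≤ r, D k (Jm E r * (N⁻¹ * M')) ≠ 0) :
    ∃ l Y : Mat r E, LowU l ∧ Upp Y ∧ M' = C * l * Y := by
  have hu : IsUnit C.det := isUnit_iff_ne_zero.2 hC
  have huN : IsUnit N.det := isUnit_iff_ne_zero.2 hN0
  have h1 : C⁻¹ * M' = Jm E r * X * Jm E r * (Jm E r * (N⁻¹ * M')) := by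
    have h2 : M' = N * (N⁻¹ * M') := by rw [Matrix.mul_nonsing_inv_cancel_left _ _ huN]
    have h3 : C⁻¹ * M' = C⁻¹ * (C * (Jm E r * X) * (N⁻¹ * M')) := by
      rw [← hN, ← h2]
    rw [h3]
    simp only [Matrix.mul_assoc, JJ]
    rw [Matrix.nonsing_inv_mul_cancel_left _ _ hu]
  obtain ⟨l, Y, hl, hY, hlY⟩ := exists_lu' (C⁻¹ * M') (by
    intro k hk
    rw [h1]
    exact J_up_J hX _ hk (h k hk))
  refine ⟨l, Y, hl, hY, ?_⟩
  rw [Matrix.mul_assoc, ← hlY, Matrix.mul_nonsing_inv_cancel_left _ _ hu]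

theorem opp_symm (M N : Mat r E) (hM : M.det ≠ 0) (hN : N.det ≠ 0)
    (h : ∀ k ≤ r, D k (Jm E r * (M⁻¹ * N)) ≠ 0) : ∀ k ≤ r, D k (Jm E r * (N⁻¹ * M)) ≠ 0 := by
  intro k hk
  obtain ⟨l, X, hl, hX, hlX⟩ := exists_lu' _ h
  obtain ⟨Y, hY, hXY, hYX⟩ := hX.inv
  have hu : IsUnit M.det := isUnit_iff_ne_zero.2 hM
  have huN : IsUnit N.det := isUnit_iff_ne_zero.2 hN
  have h1 : N⁻¹ * M = Y * l.adjugate * Jm E r := by
    have h2 : (Y * l.adjugate * Jm E r) * (M⁻¹ * N) = 1 := by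
      have h3 : M⁻¹ * N = Jm E r * (l * X) := by rw [← hlX, JJ]
      rw [h3]
      calc Y * l.adjugate * Jm E r * (Jm E r * (l * X))
          = Y * (l.adjugate * l) * X := by simp only [Matrix.mul_assoc, JJ]
        _ = 1 := by rw [hl.adjugate_mul, Matrix.mul_one, hYX]
    have h4 : (M⁻¹ * N) * (N⁻¹ * M) = 1 := by
      rw [Matrix.mul_assoc, Matrix.mul_nonsing_inv_cancel_left _ _ huN,
        Matrix.nonsing_inv_mul _ hu]
    calc N⁻¹ * M = (Y * l.adjugate * Jm E r) * (M⁻¹ * N) * (N⁻¹ * M) := by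
          rw [h2, Matrix.one_mul]
      _ = (Y * l.adjugate * Jm E r) * ((M⁻¹ * N) * (N⁻¹ * M)) := by rw [Matrix.mul_assoc]
      _ = _ := by rw [h4, Matrix.mul_one]
  rw [h1]
  have h5 : Jm E r * (Y * l.adjugate * Jm E r) =
      Jm E r * Y * Jm E r * (Jm E r * l.adjugate * Jm E r) := by
    simp only [Matrix.mul_assoc, JJ]
  rw [h5]
  refine J_up_J hY _ hk ?_
  have h6 : D k (Jm E r * l.adjugate * Jm E r) = 1 := by
    have h := D_mul_up (hl.adjugate.conj_Jm) k (1 : Mat r E)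
    rwa [Matrix.one_mul, D_one k hk] at h
  rw [h6]
  exact one_ne_zero

theorem fin (H A X X' : Mat r E) (hH : H.det ≠ 0) (hX : Upp X)
    (hX' : ∀ i j : Fin r, j < i → X' i j = 0) (h1 : A = H * (Jm E r * X))
    (h2 : A = H * (X' * Jm E r)) :
    ∃ t : Fin r → Eˣ, A = H * (Jm E r * diagonal fun k => (t k : E)) := by
  have hu : IsUnit H.det := isUnit_iff_ne_zero.2 hH
  have h3 : Jm E r * X = X' * Jm E r := by
    have h4 : H⁻¹ * A = H⁻¹ * A := rfl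
    nth_rw 1 [h1] at h4
    nth_rw 1 [h2] at h4
    rwa [Matrix.nonsing_inv_mul_cancel_left _ _ hu, Matrix.nonsing_inv_mul_cancel_left _ _ hu]
      at h4
  have h5 : X = Jm E r * X' * Jm E r := by
    rw [Matrix.mul_assoc, ← h3, JJ]
  refine ⟨fun k => Units.mk0 (X k k) (hX.2 k), ?_⟩
  have h6 : X = diagonal fun k => X k k := by
    ext i j
    rcases lt_trichotomy i j with h | h | h
    · rw [Matrix.diagonal_apply_ne _ h.ne]
      have h7 := congrFun (congrFun h5 i) j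
      rw [Jm_conj_apply] at h7
      rw [h7]
      exact hX' _ _ (Fin.rev_lt_rev.mpr h)
    · subst h
      rw [Matrix.diagonal_apply_eq]
    · rw [Matrix.diagonal_apply_ne _ h.ne', hX.1 i j h]
  rw [h1]
  simp only [Units.val_mk0]
  rw [← h6]

theorem frame_hd {E : Type*} [Field E] {r : ℕ} (G a b : Mat r E) (hG : G.det ≠ 0)
    (ha : a.det = 1) (hb : b.det = 1) (h : FrameOK ((a * b * a⁻¹ * b⁻¹)⁻¹ * G) (.hd a b)) :
    ∃ (C₀ H₀ C₁ H₁ : Mat r E) (t s : Fin r → Eˣ), (∃ u, UpU u ∧ G = C₀ * u) ∧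
      (∃ y, LowU y ∧ C₀ = H₀ * y) ∧ (∃ u, UpU u ∧ H₀ = C₁ * u) ∧ (∃ y, LowU y ∧ C₁ = H₁ * y) ∧
      a * b * a⁻¹ * H₁ = H₀ * (Jm E r * diagonal fun k => (t k : E)) ∧
      a * b * a⁻¹ * b⁻¹ * a⁻¹ * C₁ = C₀ * (Jm E r * diagonal fun k => (s k : E)) ∧
      C₀.det ≠ 0 ∧ C₁.det ≠ 0 := by
  have hau : IsUnit a.det := by rw [ha]; exact isUnit_one
  have hbu : IsUnit b.det := by rw [hb]; exact isUnit_one
  have ha' : a⁻¹.det ≠ 0 := by
    rw [Matrix.det_nonsing_inv, ha, Ring.inverse_one]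
    exact one_ne_zero
  have hb' : b⁻¹.det ≠ 0 := by
    rw [Matrix.det_nonsing_inv, hb, Ring.inverse_one]
    exact one_ne_zero
  have ha0 : a.det ≠ 0 := by rw [ha]; exact one_ne_zero
  have hb0 : b.det ≠ 0 := by rw [hb]; exact one_ne_zero
  have hPd : (a * b * a⁻¹ * b⁻¹).det ≠ 0 := by
    simp only [Matrix.det_mul]
    exact mul_ne_zero (mul_ne_zero (mul_ne_zero ha0 hb0) ha') hb'
  obtain ⟨h₀, hh₀⟩ : ∃ h₀, h₀ = (a * b * a⁻¹ * b⁻¹)⁻¹ * G := ⟨_, rfl⟩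
  rw [← hh₀] at h
  have hGh : G = a * b * a⁻¹ * b⁻¹ * h₀ := by
    rw [hh₀, Matrix.mul_nonsing_inv_cancel_left _ _ (isUnit_iff_ne_zero.2 hPd)]
  have hhd : h₀.det ≠ 0 := by
    intro h0
    rw [hGh, Matrix.det_mul, h0, mul_zero] at hG
    exact hG rfl
  have hhu : IsUnit h₀.det := isUnit_iff_ne_zero.2 hhd
  have hA : ∀ k ≤ r, D k (Jm E r * (h₀⁻¹ * (a * h₀))) ≠ 0 := by
    intro k hk
    have := (h k hk).1
    rwa [Matrix.mul_assoc] at this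
  have hB : ∀ k ≤ r, D k (Jm E r * (h₀⁻¹ * (b * h₀))) ≠ 0 := by
    intro k hk
    have := (h k hk).2
    rwa [Matrix.mul_assoc] at this
  have dah : (a * h₀).det ≠ 0 := by rw [Matrix.det_mul]; exact mul_ne_zero ha0 hhd
  have dbh : (b * h₀).det ≠ 0 := by rw [Matrix.det_mul]; exact mul_ne_zero hb0 hhd
  have hA' := opp_symm _ _ hhd dah hA
  have hB' := opp_symm _ _ hhd dbh hB
  -- C₀
  have e1 : G⁻¹ * (a * b * a⁻¹ * h₀) = h₀⁻¹ * (b * h₀) := by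
    rw [hGh]
    simp only [Matrix.mul_inv_rev, Matrix.nonsing_inv_nonsing_inv _ hau,
      Matrix.nonsing_inv_nonsing_inv _ hbu, Matrix.mul_assoc]
    rw [Matrix.nonsing_inv_mul_cancel_left _ _ hau, Matrix.nonsing_inv_mul_cancel_left _ _ hbu,
      Matrix.mul_nonsing_inv_cancel_left _ _ hau]
  obtain ⟨u₀, X₀, hu₀, hX₀, eN⟩ := stepC G (a * b * a⁻¹ * h₀) hG (by
    intro k hk
    rw [e1]
    exact hB k hk)
  have dC₀ : (G * u₀).det ≠ 0 := by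
    rw [Matrix.det_mul, hu₀.det, mul_one]
    exact hG
  have dN : (a * b * a⁻¹ * h₀).det ≠ 0 := by
    simp only [Matrix.det_mul]
    exact mul_ne_zero (mul_ne_zero (mul_ne_zero ha0 hb0) ha') hhd
  -- H₀
  have e2 : (a * b * a⁻¹ * h₀)⁻¹ * (a * b * h₀) = h₀⁻¹ * (a * h₀) := by
    simp only [Matrix.mul_inv_rev, Matrix.nonsing_inv_nonsing_inv _ hau, Matrix.mul_assoc]
    rw [Matrix.nonsing_inv_mul_cancel_left _ _ hau, Matrix.nonsing_inv_mul_cancel_left _ _ hbu]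
  obtain ⟨l₀, Y₀, hl₀, hY₀, eM⟩ := stepH (G * u₀) (a * b * a⁻¹ * h₀) (a * b * h₀) X₀ dC₀ dN eN hX₀
    (by
      intro k hk
      rw [e2]
      exact hA k hk)
  have dH₀ : (G * u₀ * l₀).det ≠ 0 := by
    rw [Matrix.det_mul, hl₀.det, mul_one]
    exact dC₀
  -- C₁
  obtain ⟨Y₀', hY₀', hYY, hYY'⟩ := hY₀.inv
  have dM : (a * b * h₀).det ≠ 0 := by
    simp only [Matrix.det_mul]
    exact mul_ne_zero (mul_ne_zero ha0 hb0) hhd
  have e3 : (G * u₀ * l₀)⁻¹ * (a * h₀) = Y₀ * ((b * h₀)⁻¹ * h₀) := by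
    have h1 : a * h₀ = (a * b * h₀) * ((b * h₀)⁻¹ * h₀) := by
      rw [Matrix.mul_assoc a b h₀, Matrix.mul_assoc,
        Matrix.mul_nonsing_inv_cancel_left _ _ (isUnit_iff_ne_zero.2 dbh)]
    rw [h1, eM, Matrix.mul_assoc (G * u₀ * l₀),
      Matrix.nonsing_inv_mul_cancel_left _ _ (isUnit_iff_ne_zero.2 dH₀)]
  obtain ⟨u₁, X₁, hu₁, hX₁, eA⟩ := stepC (G * u₀ * l₀) (a * h₀) dH₀ (by
    intro k hk
    rw [e3]
    have h1 : Jm E r * (Y₀ * ((b * h₀)⁻¹ * h₀)) =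
        Jm E r * Y₀ * Jm E r * (Jm E r * ((b * h₀)⁻¹ * h₀)) := by
      simp only [Matrix.mul_assoc, JJ]
    rw [h1]
    exact J_up_J hY₀ _ hk (hB' k hk))
  have dC₁ : (G * u₀ * l₀ * u₁).det ≠ 0 := by
    rw [Matrix.det_mul, hu₁.det, mul_one]
    exact dH₀
  -- H₁
  obtain ⟨l₁, Y₁, hl₁, hY₁, eh⟩ := stepH (G * u₀ * l₀ * u₁) (a * h₀) h₀ X₁ dC₁ dah eA hX₁ hA'
  obtain ⟨Y₁', hY₁', hZZ, hZZ'⟩ := hY₁.inv
  obtain ⟨X₁', hX₁', hWW, hWW'⟩ := hX₁.inv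
  have dH₁ : (G * u₀ * l₀ * u₁ * l₁).det ≠ 0 := by
    rw [Matrix.det_mul, hl₁.det, mul_one]
    exact dC₁
  obtain ⟨C₀, hC₀⟩ : ∃ C₀, C₀ = G * u₀ := ⟨_, rfl⟩
  rw [← hC₀] at eN eM eA eh dC₀ dH₀ dC₁ dH₁
  obtain ⟨H₀, hH₀⟩ : ∃ H₀, H₀ = C₀ * l₀ := ⟨_, rfl⟩
  rw [← hH₀] at eM eA eh dH₀ dC₁ dH₁
  obtain ⟨C₁, hC₁⟩ : ∃ C₁, C₁ = H₀ * u₁ := ⟨_, rfl⟩
  rw [← hC₁] at eA eh dC₁ dH₁
  obtain ⟨H₁, hH₁⟩ : ∃ H₁, H₁ = C₁ * l₁ := ⟨_, rfl⟩
  rw [← hH₁] at eh dH₁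
  have i1 : G = C₀ * u₀.adjugate := by
    rw [hC₀, Matrix.mul_assoc, hu₀.mul_adjugate, Matrix.mul_one]
  have i2 : C₀ = H₀ * l₀.adjugate := by
    rw [hH₀, Matrix.mul_assoc, hl₀.mul_adjugate, Matrix.mul_one]
  have i3 : H₀ = C₁ * u₁.adjugate := by
    rw [hC₁, Matrix.mul_assoc, hu₁.mul_adjugate, Matrix.mul_one]
  have i4 : C₁ = H₁ * l₁.adjugate := by
    rw [hH₁, Matrix.mul_assoc, hl₁.mul_adjugate, Matrix.mul_one]
  -- α H₁
  have up0 : Upp (Jm E r * l₀.adjugate * Jm E r) := upp_of_up hl₀.adjugate.conj_Jm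
  have up1 : Upp (Jm E r * l₁.adjugate * Jm E r) := upp_of_up hl₁.adjugate.conj_Jm
  obtain ⟨V₁, hV₁, hVV, hVV'⟩ := (up1.mul hX₁).inv
  have f1 : H₁ = h₀ * Y₁' := by rw [eh, Matrix.mul_assoc, hZZ, Matrix.mul_one]
  have f2 : a * h₀ = H₁ * (Jm E r * (Jm E r * l₁.adjugate * Jm E r * X₁)) := by
    rw [eA, i4]
    simp only [Matrix.mul_assoc, JJ]
  have f3 : H₁ = a * h₀ * V₁ * Jm E r := by
    rw [f2]
    calc H₁ = H₁ * (Jm E r * 1 * Jm E r) := by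
          rw [Matrix.mul_one, Jm_mul_Jm, Matrix.mul_one]
      _ = _ := by
          rw [← hVV]
          simp only [Matrix.mul_assoc]
  have g1 : a * b * a⁻¹ * H₁ =
      H₀ * (Jm E r * ((Jm E r * l₀.adjugate * Jm E r) * X₀ * Y₁')) := by
    have h1 : a * b * a⁻¹ * H₁ = (a * b * a⁻¹ * h₀) * Y₁' := by
      rw [f1]
      simp only [Matrix.mul_assoc]
    rw [h1, eN, i2]
    simp only [Matrix.mul_assoc, JJ]
  have g2 : a * b * a⁻¹ * H₁ = H₀ * (Y₀ * V₁ * Jm E r) := by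
    have h1 : a * b * a⁻¹ * H₁ = (a * b * h₀) * V₁ * Jm E r := by
      rw [f3]
      simp only [Matrix.mul_assoc]
      rw [Matrix.nonsing_inv_mul_cancel_left _ _ hau]
    rw [h1, eM]
    simp only [Matrix.mul_assoc]
  obtain ⟨t, ht⟩ := fin H₀ _ _ _ dH₀ ((up0.mul hX₀).mul hY₁') (hY₀.mul hV₁).1 g1 g2
  -- β C₁
  obtain ⟨Z₁, hZ₁, hZ, hZ'⟩ := ((upp_of_up hu₁.adjugate).mul hY₀).inv
  have f4 : a * b * h₀ = C₁ * (u₁.adjugate * Y₀) := by
    rw [eM, i3, Matrix.mul_assoc]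
  have f5 : C₁ = a * b * h₀ * Z₁ := by
    rw [f4, Matrix.mul_assoc, hZ, Matrix.mul_one]
  have f6 : C₁ = a * h₀ * X₁' * Jm E r := by
    rw [eA]
    calc C₁ = C₁ * (Jm E r * 1 * Jm E r) := by
          rw [Matrix.mul_one, Jm_mul_Jm, Matrix.mul_one]
      _ = _ := by
          rw [← hWW]
          simp only [Matrix.mul_assoc]
  have g3 : a * b * a⁻¹ * b⁻¹ * a⁻¹ * C₁ = C₀ * (Jm E r * (X₀ * Z₁)) := by
    have h1 : a * b * a⁻¹ * b⁻¹ * a⁻¹ * C₁ = (a * b * a⁻¹ * h₀) * Z₁ := by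
      rw [f5]
      simp only [Matrix.mul_assoc]
      rw [Matrix.nonsing_inv_mul_cancel_left _ _ hau, Matrix.nonsing_inv_mul_cancel_left _ _ hbu]
    rw [h1, eN]
    simp only [Matrix.mul_assoc]
  have g4 : a * b * a⁻¹ * b⁻¹ * a⁻¹ * C₁ = C₀ * (u₀.adjugate * X₁' * Jm E r) := by
    have h1 : a * b * a⁻¹ * b⁻¹ * a⁻¹ * C₁ = (a * b * a⁻¹ * b⁻¹ * h₀) * X₁' * Jm E r := by
      rw [f6]
      simp only [Matrix.mul_assoc]
      rw [Matrix.nonsing_inv_mul_cancel_left _ _ hau]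
    rw [h1, ← hGh, i1]
    simp only [Matrix.mul_assoc]
  obtain ⟨s, hs⟩ := fin C₀ _ _ _ dC₀ (hX₀.mul hZ₁)
    ((upp_of_up hu₀.adjugate).mul hX₁').1 g3 g4
  exact ⟨C₀, H₀, C₁, H₁, t, s, ⟨_, hu₀.adjugate, i1⟩, ⟨_, hl₀.adjugate, i2⟩,
    ⟨_, hu₁.adjugate, i3⟩, ⟨_, hl₁.adjugate, i4⟩, ht, hs, dC₀, dC₁⟩

end Pool.Agent.MP_3f0e22_ag.FRb

namespace Pool.Agent.MP_3f0e22_ag

alias frame_hd := FRb.frame_hd

end Pool.Agent.MP_3f0e22_ag
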