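import Pool.Agent.MP_3f0e22_ag.FRa
import Pool.Agent.MP_3f0e22_ag.FRb

/-!
# MP_3f0e22_ag, version 2, block FRc: sequences of frames
-/

set_option autoImplicit false
set_option linter.unusedSectionVars false

open Matrix

namespace Pool.Agent.MP_3f0e22_ag.FRc

section

variable {R : Type*}

/-- The block matrix `(a, ρ; γ, M)`. -/
def blk {n : ℕ} (a : R) (ρ γ : Fin n → R) (M : Mat n R) : Mat (n + 1) R :=
  fun i j => Fin.cases (Fin.cases a ρ j) (fun i' => Fin.cases (γ i') (fun j' => M i' j') j) i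

@[simp] theorem blk_00 {n : ℕ} (a : R) (ρ γ : Fin n → R) (M : Mat n R) :
    blk a ρ γ M 0 0 = a := rfl
@[simp] theorem blk_0s {n : ℕ} (a : R) (ρ γ : Fin n → R) (M : Mat n R) (j : Fin n) :
    blk a ρ γ M 0 j.succ = ρ j := rfl
@[simp] theorem blk_s0 {n : ℕ} (a : R) (ρ γ : Fin n → R) (M : Mat n R) (i : Fin n) :
    blk a ρ γ M i.succ 0 = γ i := rfl
@[simp] theorem blk_ss {n : ℕ} (a : R) (ρ γ : Fin n → R) (M : Mat n R) (i j : Fin n) :
    blk a ρ γ M i.succ j.succ = M i j := rfl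

theorem det_blk [CommRing R] {n : ℕ} (M : Mat n R) : (blk 1 0 0 M).det = M.det := by
  set S : Mat n R := fun i j => blk 1 0 0 M i.succ j.succ - blk 1 0 0 M i.succ 0 * 1 *
    blk 1 0 0 M 0 j.succ with hS
  have h : D (n + 1) (blk 1 0 0 M) = blk 1 0 0 M 0 0 * D n S :=
    D_succ (blk 1 0 0 M) 1 (by simp) (le_refl n)
  have e : S = M := by
    ext i j
    simp [hS]
  rw [D_self, e, D_self, blk_00, one_mul] at h
  exact h

end

section

variable {F : Type*} [Field F]

/-- triangularisation -/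
theorem tri [IsAlgClosed F] (n : ℕ) : ∀ (P : Mat n F),
    ∃ (h U : Mat n F), h.det ≠ 0 ∧ BlockTriangular U id ∧ P * h = h * U := by
  induction n with
  | zero =>
    intro P
    refine ⟨1, 1, by simp, fun i => i.elim0, ?_⟩
    ext i
    exact i.elim0
  | succ n ih =>
    intro P
    -- an eigenvector
    obtain ⟨lam, hlam⟩ := Module.End.exists_eigenvalue (Matrix.toLin' P)
    obtain ⟨v, hv⟩ := hlam.exists_hasEigenvector
    have hv0 : v ≠ 0 := hv.2
    have hPv : P *ᵥ v = lam • v := by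
      have := hv.apply_eq_smul
      simpa using this
    obtain ⟨j, hj⟩ : ∃ j, v j ≠ 0 := by
      by_contra hcon
      push Not at hcon
      exact hv0 (funext hcon)
    set g : Mat (n + 1) F := ((1 : Mat (n + 1) F).updateCol j v).submatrix id (Equiv.swap 0 j)
      with hg
    have hgdet : g.det ≠ 0 := by
      rw [hg, Matrix.det_permute']
      refine mul_ne_zero ?_ ?_
      · rcases Int.units_eq_one_or (Equiv.Perm.sign (Equiv.swap (0 : Fin (n + 1)) j)) with h | h <;>
          simp [h]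
      · have : ((1 : Mat (n + 1) F).updateCol j v).det = v j := by
          have := Matrix.cramer_apply (1 : Mat (n + 1) F) v j
          rw [← this]
          simp
        rw [this]
        exact hj
    have hg0 : ∀ i, g i 0 = v i := by
      intro i
      simp [hg]
    have hgu : IsUnit g.det := isUnit_iff_ne_zero.2 hgdet
    set N : Mat (n + 1) F := g⁻¹ * P * g with hN
    have hPg : P * g = g * N := by
      rw [hN, ← Matrix.mul_assoc, ← Matrix.mul_assoc, Matrix.mul_nonsing_inv _ hgu, Matrix.one_mul]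
    have hN0 : ∀ i : Fin n, N i.succ 0 = 0 := by
      intro i
      have h1 : N *ᵥ (Pi.single 0 1) = lam • (Pi.single 0 1 : Fin (n + 1) → F) := by
        have h2 : g *ᵥ (Pi.single 0 1) = v := by
          ext i
          simp [hg0]
        rw [hN, ← Matrix.mulVec_mulVec, h2, ← Matrix.mulVec_mulVec, hPv, Matrix.mulVec_smul]
        congr 1
        rw [← h2, Matrix.mulVec_mulVec, Matrix.nonsing_inv_mul _ hgu, Matrix.one_mulVec]
      have h3 := congrFun h1 i.succ
      simpa using h3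
    clear_value N
    obtain ⟨N1, hN1⟩ : ∃ N1 : Mat n F, ∀ i j, N1 i j = N i.succ j.succ :=
      ⟨fun i j => N i.succ j.succ, fun _ _ => rfl⟩
    obtain ⟨h1, U1, hh1, hU1, heq⟩ := ih N1
    refine ⟨g * blk 1 0 0 h1, blk (N 0 0) (fun j => ∑ k, N 0 k.succ * h1 k j) 0 U1, ?_, ?_, ?_⟩
    · rw [Matrix.det_mul, det_blk]
      exact mul_ne_zero hgdet hh1
    · intro i k
      refine Fin.cases ?_ (fun i => ?_) i <;> refine Fin.cases ?_ (fun k => ?_) k
      · intro h; exact absurd h (lt_irrefl _)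
      · intro h; exact absurd h (Fin.not_lt_zero _)
      · intro _; rfl
      · intro h
        exact hU1 (show id k < id i from Fin.succ_lt_succ_iff.1 h)
    · have hE : ∀ i j, ∑ k, N (Fin.succ i) (Fin.succ k) * h1 k j = ∑ k, h1 i k * U1 k j := by
        intro i j
        have := congrFun (congrFun heq i) j
        simpa [mul_apply, hN1] using this
      have hNB : N * blk 1 0 0 h1 =
          blk 1 0 0 h1 * blk (N 0 0) (fun j => ∑ k, N 0 k.succ * h1 k j) 0 U1 := by
        ext i k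
        refine Fin.cases ?_ (fun i => ?_) i <;> refine Fin.cases ?_ (fun k => ?_) k
        · simp [mul_apply, Fin.sum_univ_succ]
        · simp [mul_apply, Fin.sum_univ_succ]
        · simp [mul_apply, Fin.sum_univ_succ, hN0]
        · simp [mul_apply, Fin.sum_univ_succ, hE]
      rw [← Matrix.mul_assoc, hPg, Matrix.mul_assoc, hNB, ← Matrix.mul_assoc]

end

section

variable {E : Type*} [Field E] {r : ℕ}

/-- invertible upper triangular matrices -/
def UT (v : Mat r E) : Prop := (∀ i j, j < i → v i j = 0) ∧ v.det ≠ 0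

/-- invertible lower triangular matrices -/
def LT (v : Mat r E) : Prop := (∀ i j, i < j → v i j = 0) ∧ v.det ≠ 0

theorem UT.bt {v : Mat r E} (h : UT v) : BlockTriangular v id := fun _ _ hij => h.1 _ _ hij

theorem UT.det_eq {v : Mat r E} (h : UT v) : v.det = ∏ i, v i i :=
  Matrix.det_of_isUpperTriangular h.bt

theorem UT.ne {v : Mat r E} (h : UT v) (i : Fin r) : v i i ≠ 0 := by
  intro h0
  apply h.2
  rw [h.det_eq]
  exact Finset.prod_eq_zero (Finset.mem_univ i) h0

theorem UT.mul {v w : Mat r E} (hv : UT v) (hw : UT w) : UT (v * w) := by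
  refine ⟨fun i j hij => ?_, ?_⟩
  · have h := BlockTriangular.mul hv.bt hw.bt
    exact h hij
  · rw [Matrix.det_mul]; exact mul_ne_zero hv.2 hw.2

theorem UT.inv {v : Mat r E} (hv : UT v) : UT v⁻¹ := by
  have hu : IsUnit v.det := isUnit_iff_ne_zero.2 hv.2
  refine ⟨fun i j hij => ?_, ?_⟩
  · let _ := Matrix.invertibleOfIsUnitDet v hu
    exact blockTriangular_inv_of_blockTriangular hv.bt hij
  · rw [Matrix.det_nonsing_inv, Ring.inverse_eq_inv']
    exact inv_ne_zero hv.2

theorem UT.of_upU {v : Mat r E} (hv : UpU v) : UT v :=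
  ⟨hv.2, by rw [hv.det]; exact one_ne_zero⟩

theorem UT.diag (t : Fin r → Eˣ) : UT (diagonal fun k => (t k : E)) := by
  refine ⟨fun i j hij => Matrix.diagonal_apply_ne _ (ne_of_gt hij), ?_⟩
  rw [Matrix.det_diagonal]
  exact Finset.prod_ne_zero_iff.2 fun k _ => (t k).ne_zero

theorem LT.transpose {v : Mat r E} (hv : LT v) : UT vᵀ :=
  ⟨fun i j hij => hv.1 j i hij, by rw [Matrix.det_transpose]; exact hv.2⟩

theorem UT.transpose {v : Mat r E} (hv : UT v) : LT vᵀ :=
  ⟨fun i j hij => hv.1 j i hij, by rw [Matrix.det_transpose]; exact hv.2⟩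

theorem LT.mul {v w : Mat r E} (hv : LT v) (hw : LT w) : LT (v * w) := by
  have h := (hw.transpose.mul hv.transpose).transpose
  rwa [← Matrix.transpose_mul, Matrix.transpose_transpose] at h

theorem LT.inv {v : Mat r E} (hv : LT v) : LT v⁻¹ := by
  have h := hv.transpose.inv.transpose
  rwa [← Matrix.transpose_nonsing_inv, Matrix.transpose_transpose] at h

theorem LT.of_lowU {v : Mat r E} (hv : LowU v) : LT v :=
  ⟨hv.2, by rw [hv.det]; exact one_ne_zero⟩

theorem det_Jm_ne : (Jm E r).det ≠ 0 := by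
  intro h
  have h1 : (Jm E r).det * (Jm E r).det = 1 := by
    rw [← Matrix.det_mul, Jm_mul_Jm, Matrix.det_one]
  rw [h, mul_zero] at h1
  exact zero_ne_one h1

theorem UT.conj_Jm {v : Mat r E} (hv : UT v) : LT (Jm E r * v * Jm E r) := by
  refine ⟨fun i j hij => ?_, ?_⟩
  · rw [Jm_conj_apply]
    exact hv.1 _ _ (Fin.rev_lt_rev.mpr hij)
  · rw [Matrix.det_mul, Matrix.det_mul]
    exact mul_ne_zero (mul_ne_zero det_Jm_ne hv.2) det_Jm_ne

theorem LT.conj_Jm {v : Mat r E} (hv : LT v) : UT (Jm E r * v * Jm E r) := by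
  refine ⟨fun i j hij => ?_, ?_⟩
  · rw [Jm_conj_apply]
    exact hv.1 _ _ (Fin.rev_lt_rev.mpr hij)
  · rw [Matrix.det_mul, Matrix.det_mul]
    exact mul_ne_zero (mul_ne_zero det_Jm_ne hv.2) det_Jm_ne

theorem LT.diag (t : Fin r → Eˣ) : LT (diagonal fun k => (t k : E)) := by
  have h := (UT.diag t).transpose
  rwa [Matrix.diagonal_transpose] at h

theorem mul_inv' {v : Mat r E} (hv : v.det ≠ 0) : v * v⁻¹ = 1 :=
  Matrix.mul_nonsing_inv _ (isUnit_iff_ne_zero.2 hv)

theorem inv_mul' {v : Mat r E} (hv : v.det ≠ 0) : v⁻¹ * v = 1 :=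
  Matrix.nonsing_inv_mul _ (isUnit_iff_ne_zero.2 hv)

theorem D_mul_UT {v : Mat r E} (hv : UT v) {k : ℕ} (hk : k ≤ r) (M : Mat r E)
    (h : D k M ≠ 0) : D k (M * v) ≠ 0 := by
  set n : Mat r E := diagonal (fun i => (v i i)⁻¹) * v with hn
  have hnU : UpU n := by
    refine ⟨fun i => ?_, fun i j hij => ?_⟩
    · rw [hn, Matrix.diagonal_mul, inv_mul_cancel₀ (hv.ne i)]
    · rw [hn, Matrix.diagonal_mul, hv.1 i j hij, mul_zero]
  have e : v = diagonal (fun i => v i i) * n := by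
    rw [hn, ← Matrix.mul_assoc, Matrix.diagonal_mul_diagonal]
    have : (fun i => v i i * (v i i)⁻¹) = fun _ => 1 := by
      funext i; exact mul_inv_cancel₀ (hv.ne i)
    rw [this, Matrix.diagonal_one, Matrix.one_mul]
  rw [e, ← Matrix.mul_assoc, D_mul_up hnU, D_mul_diag _ hk]
  exact mul_ne_zero h (Finset.prod_ne_zero_iff.2 fun i _ => hv.ne _)

theorem D_LT_mul {v : Mat r E} (hv : LT v) {k : ℕ} (hk : k ≤ r) (M : Mat r E)
    (h : D k M ≠ 0) : D k (v * M) ≠ 0 := by
  rw [← D_transpose, Matrix.transpose_mul]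
  exact D_mul_UT hv.transpose hk _ (by rwa [D_transpose])

/-- The condition only depends on the flag. -/
theorem FrameOK.mul {h b : Mat r E} {l : Letter r E} (hl : FrameOK h l) (hb : UT b) :
    FrameOK (h * b) l := by
  cases l with
  | pt A =>
    obtain ⟨f, w, hf, hw, hfA, hD⟩ := hl
    refine ⟨f, w, hf, hw, hfA, fun k hk => ?_⟩
    rw [← Matrix.mul_assoc]
    exact D_mul_UT hb hk _ (hD k hk)
  | hd a c =>
    intro k hk
    have key : ∀ x : Mat r E, D k (Jm E r * (h⁻¹ * x * h)) ≠ 0 →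
        D k (Jm E r * ((h * b)⁻¹ * x * (h * b))) ≠ 0 := by
      intro x hx
      have e : Jm E r * ((h * b)⁻¹ * x * (h * b)) =
          (Jm E r * b⁻¹ * Jm E r) * (Jm E r * (h⁻¹ * x * h)) * b := by
        rw [Matrix.mul_inv_rev]
        calc Jm E r * (b⁻¹ * h⁻¹ * x * (h * b))
            = Jm E r * b⁻¹ * 1 * (h⁻¹ * x * h) * b := by
              simp only [Matrix.mul_assoc, Matrix.one_mul]
          _ = _ := by rw [← Jm_mul_Jm]; simp only [Matrix.mul_assoc]
      rw [e]
      exact D_mul_UT hb hk _ (D_LT_mul hb.inv.conj_Jm hk _ hx)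
    exact ⟨key a (hl k hk).1, key c (hl k hk).2⟩

/-- The frames of a letter. -/
structure Loc (G : Mat r E) (l : Letter r E) (c h : ℕ → Mat r E) (p : LP r E) : Prop where
  pos : 0 < l.len
  det : ∀ j < l.len, (c j).det ≠ 0
  low : ∀ j < l.len, ∃ y, LowU y ∧ c j = h j * y
  up : ∀ j, j + 1 < l.len → ∃ u, UpU u ∧ h j = c (j + 1) * u
  first : ∃ u, UpU u ∧ G = c 0 * u
  rel : ∀ (C H : ℕ → Mat r E) (i : ℕ) (L : List (LP r E)) (w : List (Letter r E)),
    (∀ j < l.len, C (i + j) = c j ∧ H (i + j) = h j) → FrRel C H (i + l.len) L w →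
      FrRel C H i (p :: L) (l :: w)
  last : ∃ v, UT v ∧ l.val * h (l.len - 1) = c 0 * v

theorem det_ne_of_low {C H y : Mat r E} (hC : C.det ≠ 0) (h : C = H * y) : H.det ≠ 0 := by
  intro h0
  apply hC
  rw [h, Matrix.det_mul, h0, zero_mul]

theorem exists_loc_pt (G A : Mat r E) (hG : G.det ≠ 0) (hA : A.det ≠ 0)
    (h : FrameOK ((Letter.pt A).val⁻¹ * G) (.pt A)) :
    ∃ (c h : ℕ → Mat r E) (p : LP r E), Loc G (.pt A) c h p := by
  obtain ⟨C, H, t, hu, hy, hr, hC⟩ := frame_pt G A hG hA h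
  refine ⟨fun _ => C, fun _ => H, .pt t, ?_⟩
  refine ⟨by simp [Letter.len], fun _ _ => hC, fun _ _ => hy, ?_, hu, ?_, ?_⟩
  · intro j hj
    simp [Letter.len] at hj
  · intro C' H' i L w h1 h2
    obtain ⟨e1, e2⟩ := h1 0 (by simp [Letter.len])
    refine ⟨?_, h2⟩
    simp only [Nat.add_zero] at e1 e2
    rw [e1, e2]
    exact hr
  · exact ⟨_, UT.diag t, hr⟩

theorem inv_eq_adj {a : Mat r E} (h : a.det = 1) : a⁻¹ = a.adjugate := by
  rw [Matrix.inv_def, h, Ring.inverse_one, one_smul]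

theorem exists_loc_hd (G a b : Mat r E) (hG : G.det ≠ 0) (ha : a.det = 1) (hb : b.det = 1)
    (h : FrameOK ((Letter.hd a b).val⁻¹ * G) (.hd a b)) :
    ∃ (c h : ℕ → Mat r E) (p : LP r E), Loc G (.hd a b) c h p := by
  have hval : (Letter.hd a b).val = a * b * a⁻¹ * b⁻¹ := by
    rw [Letter.val, inv_eq_adj ha, inv_eq_adj hb]
  rw [hval] at h
  obtain ⟨C₀, H₀, C₁, H₁, t, s, hu, ⟨y₀, hy₀, ey₀⟩, ⟨u₀, hu₀, eu₀⟩, ⟨y₁, hy₁, ey₁⟩, h1, h2, hC₀, hC₁⟩ :=
    frame_hd G a b hG ha hb h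
  refine ⟨fun j => if j = 0 then C₀ else C₁, fun j => if j = 0 then H₀ else H₁, .hd t s, ?_⟩
  refine ⟨by simp [Letter.len], ?_, ?_, ?_, ?_, ?_, ?_⟩
  · intro j _
    by_cases hj : j = 0
    · simpa [hj] using hC₀
    · simpa [hj] using hC₁
  · intro j _
    by_cases hj : j = 0
    · simpa [hj] using ⟨y₀, hy₀, ey₀⟩
    · simpa [hj] using ⟨y₁, hy₁, ey₁⟩
  · intro j hj
    simp only [Letter.len] at hj
    have hj0 : j = 0 := by omega
    subst hj0
    simpa using ⟨u₀, hu₀, eu₀⟩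
  · simpa using hu
  · intro C' H' i L w h3 h4
    obtain ⟨e1, e2⟩ := h3 0 (by simp [Letter.len])
    obtain ⟨e3, e4⟩ := h3 1 (by simp [Letter.len])
    simp only [Nat.add_zero, if_true] at e1 e2
    simp only [one_ne_zero, if_false] at e3 e4
    refine ⟨?_, ?_, h4⟩
    · rw [e4, e2]; exact h1
    · rw [e3, e1]; exact h2
  · have e5 : (Letter.hd a b).len - 1 = 1 := rfl
    rw [e5, hval]
    simp only [one_ne_zero, if_false, if_true]
    have ha' : a.det ≠ 0 := by rw [ha]; exact one_ne_zero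
    have hb' : b.det ≠ 0 := by rw [hb]; exact one_ne_zero
    have a1 := mul_inv' ha'
    have a2 := inv_mul' ha'
    have b1 := mul_inv' hb'
    have b2 := inv_mul' hb'
    set J := Jm E r with hJ
    set T := (diagonal fun k => (t k : E)) with hT
    set S := (diagonal fun k => (s k : E)) with hS
    have hJJ : J * J = 1 := Jm_mul_Jm
    have hTn : T.det ≠ 0 := (UT.diag t).2
    have hSn : S.det ≠ 0 := (UT.diag s).2
    have hy₀n : y₀.det ≠ 0 := (LT.of_lowU hy₀).2
    have hy₁n : y₁.det ≠ 0 := (LT.of_lowU hy₁).2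
    have hu₀n : u₀.det ≠ 0 := (UT.of_upU hu₀).2
    -- `α = a b a⁻¹`, `β = a b a⁻¹ b⁻¹ a⁻¹` and their inverses
    set α := a * b * a⁻¹ with hα
    set β := a * b * a⁻¹ * b⁻¹ * a⁻¹ with hβ
    set α' := a * b⁻¹ * a⁻¹ with hα'
    set β' := a * b * a * b⁻¹ * a⁻¹ with hβ'
    have hα'α : α' * α = 1 := by
      calc a * b⁻¹ * a⁻¹ * (a * b * a⁻¹) = a * b⁻¹ * (a⁻¹ * a) * b * a⁻¹ := by
            simp only [Matrix.mul_assoc]
        _ = a * (b⁻¹ * b) * a⁻¹ := by rw [a2, Matrix.mul_one]; simp only [Matrix.mul_assoc]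
        _ = 1 := by rw [b2, Matrix.mul_one, a1]
    have hβ'β : β' * β = 1 := by
      calc a * b * a * b⁻¹ * a⁻¹ * (a * b * a⁻¹ * b⁻¹ * a⁻¹)
          = a * b * a * b⁻¹ * (a⁻¹ * a) * b * a⁻¹ * b⁻¹ * a⁻¹ := by simp only [Matrix.mul_assoc]
        _ = a * b * a * (b⁻¹ * b) * a⁻¹ * b⁻¹ * a⁻¹ := by
            rw [a2, Matrix.mul_one]; simp only [Matrix.mul_assoc]
        _ = a * b * (a * a⁻¹) * b⁻¹ * a⁻¹ := by
            rw [b2, Matrix.mul_one]; simp only [Matrix.mul_assoc]
        _ = a * (b * b⁻¹) * a⁻¹ := by rw [a1, Matrix.mul_one]; simp only [Matrix.mul_assoc]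
        _ = 1 := by rw [b1, Matrix.mul_one, a1]
    have hP : a * b * a⁻¹ * b⁻¹ = β * α' * β' * α := by
      symm
      calc a * b * a⁻¹ * b⁻¹ * a⁻¹ * (a * b⁻¹ * a⁻¹) * (a * b * a * b⁻¹ * a⁻¹) * (a * b * a⁻¹)
          = a * b * a⁻¹ * b⁻¹ * (a⁻¹ * a) * b⁻¹ * (a⁻¹ * a) * b * a * b⁻¹ * (a⁻¹ * a) * b * a⁻¹ := by
            simp only [Matrix.mul_assoc]
        _ = a * b * a⁻¹ * b⁻¹ * (b⁻¹ * b) * a * (b⁻¹ * b) * a⁻¹ := by
            rw [a2]; simp only [Matrix.mul_one, Matrix.mul_assoc]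
        _ = a * b * a⁻¹ * b⁻¹ * (a * a⁻¹) := by
            rw [b2]; simp only [Matrix.mul_one, Matrix.mul_assoc]
        _ = _ := by rw [a1, Matrix.mul_one]
    have f1 : β' * C₀ = C₁ * (S⁻¹ * J) := by
      have : β' * (β * C₁) = β' * (C₀ * (J * S)) := by rw [h2]
      rw [← Matrix.mul_assoc, hβ'β, Matrix.one_mul] at this
      calc β' * C₀ = β' * (C₀ * (J * (S * S⁻¹) * J)) := by
            rw [mul_inv' hSn, Matrix.mul_one, hJJ, Matrix.mul_one]
        _ = β' * (C₀ * (J * S)) * (S⁻¹ * J) := by simp only [Matrix.mul_assoc]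
        _ = _ := by rw [← this]
    have f2 : α' * H₀ = H₁ * (T⁻¹ * J) := by
      have : α' * (α * H₁) = α' * (H₀ * (J * T)) := by rw [h1]
      rw [← Matrix.mul_assoc, hα'α, Matrix.one_mul] at this
      calc α' * H₀ = α' * (H₀ * (J * (T * T⁻¹) * J)) := by
            rw [mul_inv' hTn, Matrix.mul_one, hJJ, Matrix.mul_one]
        _ = α' * (H₀ * (J * T)) * (T⁻¹ * J) := by simp only [Matrix.mul_assoc]
        _ = _ := by rw [← this]
    have f3 : H₀ = C₀ * y₀⁻¹ := by
      rw [ey₀, Matrix.mul_assoc, mul_inv' hy₀n, Matrix.mul_one]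
    have f4 : C₁ = H₀ * u₀⁻¹ := by
      rw [eu₀, Matrix.mul_assoc, mul_inv' hu₀n, Matrix.mul_one]
    have f5 : H₁ = C₁ * y₁⁻¹ := by
      rw [ey₁, Matrix.mul_assoc, mul_inv' hy₁n, Matrix.mul_one]
    have hfin : a * b * a⁻¹ * b⁻¹ * H₁ = C₀ * ((J * (S * y₁⁻¹ * T⁻¹) * J) * u₀⁻¹ *
        (S⁻¹ * (J * y₀⁻¹ * J) * T)) := by
      calc a * b * a⁻¹ * b⁻¹ * H₁ = β * (α' * (β' * (α * H₁))) := by
            rw [hP]; simp only [Matrix.mul_assoc]
        _ = β * (α' * (β' * H₀ * (J * T))) := by rw [h1]; simp only [Matrix.mul_assoc]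
        _ = β * (α' * (β' * C₀ * y₀⁻¹ * (J * T))) := by
            rw [show β' * H₀ = β' * C₀ * y₀⁻¹ by rw [Matrix.mul_assoc β', ← f3]]
        _ = β * (α' * C₁ * (S⁻¹ * J) * y₀⁻¹ * (J * T)) := by
            rw [f1]; simp only [Matrix.mul_assoc]
        _ = β * (α' * H₀ * u₀⁻¹ * (S⁻¹ * J) * y₀⁻¹ * (J * T)) := by
            rw [show α' * C₁ = α' * H₀ * u₀⁻¹ by rw [Matrix.mul_assoc α', ← f4]]
        _ = β * H₁ * (T⁻¹ * J) * u₀⁻¹ * (S⁻¹ * J) * y₀⁻¹ * (J * T) := by
            rw [f2]; simp only [Matrix.mul_assoc]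
        _ = β * C₁ * y₁⁻¹ * (T⁻¹ * J) * u₀⁻¹ * (S⁻¹ * J) * y₀⁻¹ * (J * T) := by
            rw [show β * H₁ = β * C₁ * y₁⁻¹ by rw [Matrix.mul_assoc β, ← f5]]
        _ = _ := by rw [h2]; simp only [Matrix.mul_assoc]
    refine ⟨_, ?_, hfin⟩
    have g1 : LT (S * y₁⁻¹ * T⁻¹) :=
      ((LT.diag s).mul (LT.of_lowU hy₁).inv).mul (LT.diag t).inv
    have g2 : UT (J * y₀⁻¹ * J) := (LT.of_lowU hy₀).inv.conj_Jm
    exact (g1.conj_Jm.mul (UT.of_upU hu₀).inv).mul (((UT.diag s).inv.mul g2).mul (UT.diag t))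

theorem FrRel.congr {C H C' H' : ℕ → Mat r E} (L : List (LP r E)) :
    ∀ (w : List (Letter r E)) (i : ℕ), (∀ j, i ≤ j → C j = C' j ∧ H j = H' j) →
      FrRel C' H' i L w → FrRel C H i L w := by
  induction L with
  | nil =>
    intro w i h hR
    cases w with
    | nil => trivial
    | cons l w => exact hR.elim
  | cons p L ih =>
    intro w i h hR
    cases w with
    | nil => cases p <;> exact hR.elim
    | cons l w =>
      cases p with
      | pt t =>
        cases l with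
        | pt A =>
          obtain ⟨h1, h2⟩ := hR
          refine ⟨?_, ih w (i + 1) (fun j hj => h j (by omega)) h2⟩
          rw [(h i le_rfl).1, (h i le_rfl).2]; exact h1
        | hd a b => exact hR.elim
      | hd t s =>
        cases l with
        | pt A => exact hR.elim
        | hd a b =>
          obtain ⟨h1, h2, h3⟩ := hR
          refine ⟨?_, ?_, ih w (i + 2) (fun j hj => h j (by omega)) h3⟩
          · rw [(h i le_rfl).2, (h (i + 1) (by omega)).2]; exact h1
          · rw [(h i le_rfl).1, (h (i + 1) (by omega)).1]; exact h2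

theorem wlen_cons (l : Letter r E) (w : List (Letter r E)) : wlen (l :: w) = l.len + wlen w := by
  simp [wlen]

theorem wval_cons (l : Letter r E) (w : List (Letter r E)) : wval (l :: w) = l.val * wval w := by
  simp [wval]

theorem wval_nil : wval ([] : List (Letter r E)) = 1 := by simp [wval]

theorem wval_append (w w' : List (Letter r E)) : wval (w ++ w') = wval w * wval w' := by
  simp [wval]

theorem one_le_len (l : Letter r E) : 1 ≤ l.len := by cases l <;> simp [Letter.len]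

theorem wlen_pos {w : List (Letter r E)} (h : w ≠ []) : 1 ≤ wlen w := by
  cases w with
  | nil => exact absurd rfl h
  | cons l w => rw [wlen_cons]; have := one_le_len l; omega

end

section

variable {K E : Type*} [Field K] [Field E] [Algebra K E] {r : ℕ}

theorem det_val_ne {l : Letter r E} (h : l.Valid K) : l.val.det ≠ 0 := by
  cases l with
  | pt A => exact h.1
  | hd a b =>
    obtain ⟨ha, hb⟩ := h
    have h1 : a.adjugate.det = 1 := by
      have := congrArg Matrix.det (Matrix.mul_adjugate a)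
      rwa [Matrix.det_mul, ha, one_mul, one_smul, Matrix.det_one] at this
    have h2 : b.adjugate.det = 1 := by
      have := congrArg Matrix.det (Matrix.mul_adjugate b)
      rwa [Matrix.det_mul, hb, one_mul, one_smul, Matrix.det_one] at this
    rw [Letter.val, Matrix.det_mul, Matrix.det_mul, Matrix.det_mul, ha, hb, h1, h2]
    simp

theorem det_wval_ne (w : List (Letter r E)) (h : ∀ x ∈ w, x.Valid K) : (wval w).det ≠ 0 := by
  induction w with
  | nil => rw [wval_nil, Matrix.det_one]; exact one_ne_zero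
  | cons l w ih =>
    rw [wval_cons, Matrix.det_mul]
    exact mul_ne_zero (det_val_ne (h l (by simp))) (ih fun x hx => h x (List.mem_cons_of_mem _ hx))

theorem exists_loc (G : Mat r E) (l : Letter r E) (hG : G.det ≠ 0) (hl : l.Valid K)
    (h : FrameOK (l.val⁻¹ * G) l) : ∃ (c h : ℕ → Mat r E) (p : LP r E), Loc G l c h p := by
  cases l with
  | pt A => exact exists_loc_pt G A hG hl.1 h
  | hd a b => exact exists_loc_hd G a b hG hl.1 hl.2 h

theorem frames (w : List (Letter r E)) : ∀ (G : Mat r E) (i : ℕ), G.det ≠ 0 →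
    (∀ x ∈ w, x.Valid K) →
    (∀ w₁ w₂ l, w = w₁ ++ l :: w₂ → FrameOK ((wval w₁ * l.val)⁻¹ * G) l) →
    ∃ (C H : ℕ → Mat r E) (L : List (LP r E)),
      (∀ j, i ≤ j → j < i + wlen w → (C j).det ≠ 0 ∧ ∃ y, LowU y ∧ C j = H j * y) ∧
      (∀ j, i ≤ j → j + 1 < i + wlen w → ∃ u, UpU u ∧ H j = C (j + 1) * u) ∧
      FrRel C H i L w ∧
      (w ≠ [] → (∃ u, UpU u ∧ G = C i * u) ∧
        ∃ v, UT v ∧ wval w * H (i + wlen w - 1) = C i * v) := by
  induction w with
  | nil =>
    intro G i _ _ _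
    refine ⟨fun _ => 1, fun _ => 1, [], ?_, ?_, trivial, fun h => absurd rfl h⟩
    · intro j h1 h2; simp [wlen] at h2; omega
    · intro j h1 h2; simp [wlen] at h2; omega
  | cons l w ih =>
    intro G i hG hv hf
    have hl : l.Valid K := hv l (by simp)
    have h0 := hf [] w l (by simp)
    rw [wval_nil, Matrix.one_mul] at h0
    obtain ⟨c, h, p, hloc⟩ := exists_loc G l hG hl h0
    obtain ⟨v₀, hv₀, ev₀⟩ := hloc.last
    obtain ⟨u₀, hu₀, eu₀⟩ := hloc.first
    have hn := hloc.pos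
    have hlast : (h (l.len - 1)).det ≠ 0 := by
      obtain ⟨y, _, ey⟩ := hloc.low (l.len - 1) (by omega)
      exact det_ne_of_low (hloc.det (l.len - 1) (by omega)) ey
    have hval := det_val_ne (K := K) hl
    -- the next frame
    have hnext : h (l.len - 1) = l.val⁻¹ * G * (u₀⁻¹ * v₀) := by
      have hu₀n : u₀.det ≠ 0 := (UT.of_upU hu₀).2
      calc h (l.len - 1) = l.val⁻¹ * (l.val * h (l.len - 1)) := by
            rw [← Matrix.mul_assoc, inv_mul' hval, Matrix.one_mul]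
        _ = l.val⁻¹ * (c 0 * (u₀ * u₀⁻¹) * v₀) := by rw [ev₀, mul_inv' hu₀n, Matrix.mul_one]
        _ = l.val⁻¹ * G * (u₀⁻¹ * v₀) := by rw [eu₀]; simp only [Matrix.mul_assoc]
    obtain ⟨C', H', L', hA, hB, hR, hE⟩ := ih (h (l.len - 1)) (i + l.len) hlast
      (fun x hx => hv x (List.mem_cons_of_mem _ hx)) (by
        intro w₁ w₂ l' hw
        have h1 := hf (l :: w₁) w₂ l' (by rw [hw]; rfl)
        have h2 := FrameOK.mul h1 ((UT.of_upU hu₀).inv.mul hv₀)
        rw [wval_cons, Matrix.mul_assoc l.val, Matrix.mul_inv_rev] at h2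
        rw [hnext]
        have e : (wval w₁ * l'.val)⁻¹ * l.val⁻¹ * G * (u₀⁻¹ * v₀) =
            (wval w₁ * l'.val)⁻¹ * (l.val⁻¹ * G * (u₀⁻¹ * v₀)) := by
          simp only [Matrix.mul_assoc]
        rwa [e] at h2)
    set C : ℕ → Mat r E := fun j => if j < i + l.len then c (j - i) else C' j with hC
    set H : ℕ → Mat r E := fun j => if j < i + l.len then h (j - i) else H' j with hH
    have hC1 : ∀ j, j < i + l.len → C j = c (j - i) := fun j hj => by simp [hC, hj]
    have hC2 : ∀ j, i + l.len ≤ j → C j = C' j := fun j hj => by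
      simp [hC, show ¬ j < i + l.len by omega]
    have hH1 : ∀ j, j < i + l.len → H j = h (j - i) := fun j hj => by simp [hH, hj]
    have hH2 : ∀ j, i + l.len ≤ j → H j = H' j := fun j hj => by
      simp [hH, show ¬ j < i + l.len by omega]
    clear_value C H
    refine ⟨C, H, p :: L', ?_, ?_, ?_, fun _ => ⟨?_, ?_⟩⟩
    · intro j h1 h2
      rw [wlen_cons] at h2
      by_cases hj : j < i + l.len
      · rw [hC1 j hj, hH1 j hj]
        exact ⟨hloc.det _ (by omega), hloc.low _ (by omega)⟩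
      · rw [hC2 j (by omega), hH2 j (by omega)]
        exact hA j (by omega) (by omega)
    · intro j h1 h2
      rw [wlen_cons] at h2
      by_cases hj : j + 1 < i + l.len
      · rw [hC1 (j + 1) hj, hH1 j (by omega)]
        have := hloc.up (j - i) (by omega)
        rwa [show j - i + 1 = j + 1 - i by omega] at this
      · by_cases hj' : j < i + l.len
        · have e1 : j - i = l.len - 1 := by omega
          have e2 : j + 1 = i + l.len := by omega
          rw [hH1 j hj', hC2 (j + 1) (by omega), e1, e2]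
          have hw : w ≠ [] := by
            rintro rfl
            simp [wlen] at h2
            omega
          exact (hE hw).1
        · rw [hC2 (j + 1) (by omega), hH2 j (by omega)]
          exact hB j (by omega) (by omega)
    · refine hloc.rel C H i L' w ?_ ?_
      · intro j hj
        rw [hC1 (i + j) (by omega), hH1 (i + j) (by omega), Nat.add_sub_cancel_left]
        exact ⟨rfl, rfl⟩
      · exact FrRel.congr L' w (i + l.len) (fun j hj => ⟨hC2 j hj, hH2 j hj⟩) hR
    · rw [hC1 i (by omega), Nat.sub_self]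
      exact ⟨u₀, hu₀, eu₀⟩
    · rw [hC1 i (by omega), Nat.sub_self, wval_cons, wlen_cons]
      by_cases hw : w = []
      · subst hw
        refine ⟨v₀, hv₀, ?_⟩
        have e1 : i + (l.len + wlen ([] : List (Letter r E))) - 1 = i + l.len - 1 := by
          simp [wlen]
        rw [wval_nil, Matrix.mul_one, e1, hH1 _ (by omega), show i + l.len - 1 - i = l.len - 1 by omega]
        exact ev₀
      · obtain ⟨⟨u', hu', eu'⟩, v', hv', ev'⟩ := hE hw
        have hwp := wlen_pos hw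
        have hu'n : u'.det ≠ 0 := (UT.of_upU hu').2
        refine ⟨v₀ * u'⁻¹ * v', (hv₀.mul (UT.of_upU hu').inv).mul hv', ?_⟩
        have e1 : i + (l.len + wlen w) - 1 = i + l.len + wlen w - 1 := by omega
        rw [e1, hH2 _ (by omega)]
        calc l.val * wval w * H' (i + l.len + wlen w - 1)
            = l.val * (wval w * H' (i + l.len + wlen w - 1)) := by rw [Matrix.mul_assoc]
          _ = l.val * (C' (i + l.len) * (u' * u'⁻¹) * v') := by
              rw [ev', mul_inv' hu'n, Matrix.mul_one]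
          _ = l.val * (C' (i + l.len) * u') * u'⁻¹ * v' := by simp only [Matrix.mul_assoc]
          _ = l.val * h (l.len - 1) * u'⁻¹ * v' := by rw [← eu']
          _ = _ := by rw [ev₀]; simp only [Matrix.mul_assoc]

end

theorem exists_frameSeq {K E : Type*} [Field K] [Field E] [Algebra K E] [IsAlgClosed E] {r : ℕ}
    (w : List (Letter r E)) (hne : w ≠ []) (hv : ∀ x ∈ w, x.Valid K)
    (hf : ∀ w₁ w₂ l, w = w₁ ++ l :: w₂ → ∀ h : Mat r E, h.det ≠ 0 →
      Stab (wval (w₂ ++ w₁ ++ [l])) h → FrameOK h l) :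
    ∃ (C H : ℕ → Mat r E) (L : List (LP r E)), FrameSeq (wlen w - 1) C H ∧ FrRel C H 0 L w := by
  obtain ⟨G, V, hG, hV, hGV⟩ := tri r (wval w)
  have hwn := det_wval_ne (K := K) w hv
  have hwp := wlen_pos hne
  obtain ⟨C, H, L, hA, hB, hR, hE⟩ := frames (K := K) w G 0 hG hv (by
    intro w₁ w₂ l hw
    have hX : (wval w₁ * l.val).det ≠ 0 := by
      rw [Matrix.det_mul]
      refine mul_ne_zero (det_wval_ne (K := K) w₁ fun x hx => hv x ?_) (det_val_ne (K := K) (hv l ?_))
      · rw [hw]; simp [hx]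
      · rw [hw]; simp
    refine hf w₁ w₂ l hw _ ?_ ⟨V, fun i j hij => hV hij, ?_⟩
    · rw [Matrix.det_mul, Matrix.det_nonsing_inv, Ring.inverse_eq_inv']
      exact mul_ne_zero (inv_ne_zero hX) hG
    · have e1 : wval (w₂ ++ w₁ ++ [l]) = wval w₂ * (wval w₁ * l.val) := by
        rw [wval_append, wval_append, wval_cons, wval_nil, Matrix.mul_one, Matrix.mul_assoc]
      have e2 : wval w = (wval w₁ * l.val) * wval w₂ := by
        rw [hw, wval_append, wval_cons, Matrix.mul_assoc]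
      set X := wval w₁ * l.val with hXd
      rw [e2] at hGV
      calc wval (w₂ ++ w₁ ++ [l]) * (X⁻¹ * G) = wval w₂ * (X * X⁻¹) * G := by
            rw [e1]; simp only [Matrix.mul_assoc]
        _ = wval w₂ * G := by rw [mul_inv' hX, Matrix.mul_one]
        _ = (X⁻¹ * X) * wval w₂ * G := by rw [inv_mul' hX, Matrix.one_mul]
        _ = X⁻¹ * (X * wval w₂ * G) := by simp only [Matrix.mul_assoc]
        _ = X⁻¹ * G * V := by rw [hGV, Matrix.mul_assoc])
  obtain ⟨⟨u₀, hu₀, eu₀⟩, v, hv', ev⟩ := hE hne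
  simp only [Nat.zero_add] at hA hB ev
  refine ⟨C, H, L, ⟨fun i hi => (hA i (by omega) (by omega)).1,
    fun i hi => (hA i (by omega) (by omega)).2, fun i hi => hB i (by omega) (by omega), ?_⟩, hR⟩
  have hu₀n : u₀.det ≠ 0 := (UT.of_upU hu₀).2
  have hvn := hv'.2
  -- `w C 0 = C 0 (u₀ V u₀⁻¹)`
  have e1 : wval w * C 0 = C 0 * (u₀ * V * u₀⁻¹) := by
    calc wval w * C 0 = wval w * (C 0 * (u₀ * u₀⁻¹)) := by rw [mul_inv' hu₀n, Matrix.mul_one]
      _ = wval w * G * u₀⁻¹ := by rw [eu₀]; simp only [Matrix.mul_assoc]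
      _ = G * V * u₀⁻¹ := by rw [hGV]
      _ = _ := by rw [eu₀]; simp only [Matrix.mul_assoc]
  -- `H s v⁻¹ = w⁻¹ C 0`
  have e2 : H (wlen w - 1) * v⁻¹ = (wval w)⁻¹ * C 0 := by
    calc H (wlen w - 1) * v⁻¹ = ((wval w)⁻¹ * wval w) * H (wlen w - 1) * v⁻¹ := by
          rw [inv_mul' hwn, Matrix.one_mul]
      _ = (wval w)⁻¹ * (wval w * H (wlen w - 1)) * v⁻¹ := by simp only [Matrix.mul_assoc]
      _ = (wval w)⁻¹ * C 0 * (v * v⁻¹) := by rw [ev]; simp only [Matrix.mul_assoc]
      _ = _ := by rw [mul_inv' hvn, Matrix.mul_one]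
  refine ⟨v⁻¹ * (u₀ * V * u₀⁻¹), ?_, ?_⟩
  · have b1 : BlockTriangular (v⁻¹ * (u₀ * V * u₀⁻¹)) id :=
      BlockTriangular.mul hv'.inv.bt (BlockTriangular.mul (BlockTriangular.mul
        (UT.of_upU hu₀).bt hV) (UT.of_upU hu₀).inv.bt)
    exact fun i j hij => b1 hij
  · calc C 0 = ((wval w)⁻¹ * wval w) * C 0 := by rw [inv_mul' hwn, Matrix.one_mul]
      _ = (wval w)⁻¹ * C 0 * (u₀ * V * u₀⁻¹) := by
          rw [Matrix.mul_assoc, e1]; simp only [Matrix.mul_assoc]
      _ = _ := by rw [← e2, Matrix.mul_assoc]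

end Pool.Agent.MP_3f0e22_ag.FRc

namespace Pool.Agent.MP_3f0e22_ag

alias exists_frameSeq := FRc.exists_frameSeq

end Pool.Agent.MP_3f0e22_ag
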