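import Pool.Agent.MP_3f0e22_ag.FRc
import Pool.Agent.MP_3f0e22_ag.RK2

/-! # MP_3f0e22_ag, version 2, row FRd: from frames to words -/

set_option autoImplicit false
set_option linter.unusedSimpArgs false

open Matrix

namespace Pool.Agent.MP_3f0e22_ag.FRd

section

variable {E : Type*} [Field E] {r : ℕ}

/-- Scaling the frames on the right by a diagonal matrix. -/
def scale (d : Fin r → Eˣ) : LP r E → LP r E
  | .pt t => .pt t
  | .hd a b => .hd (fun k => (d k.rev)⁻¹ * a k * d k) (fun k => (d k.rev)⁻¹ * b k * d k)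

theorem diag_J (d t : Fin r → Eˣ) :
    diagonal (fun k => (d k : E)) *
        (Jm E r * diagonal fun k => (((d k.rev)⁻¹ * t k * d k : Eˣ) : E)) =
      (Jm E r * diagonal fun k => (t k : E)) * diagonal (fun k => (d k : E)) := by
  ext i k
  rw [diagonal_mul, Jm_mul_apply, mul_diagonal, Jm_mul_apply, diagonal_apply, diagonal_apply]
  split_ifs with h
  · subst h
    rw [Fin.rev_rev]
    push_cast
    rw [← mul_assoc, ← mul_assoc]
    simp
  · simp

theorem diag_comm (d t : Fin r → Eˣ) :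
    diagonal (fun k => (d k : E)) * diagonal (fun k => (t k : E)) =
      diagonal (fun k => (t k : E)) * diagonal (fun k => (d k : E)) := by
  rw [diagonal_mul_diagonal, diagonal_mul_diagonal]
  congr 1
  funext k
  exact mul_comm _ _

theorem frRel_scale {C H : ℕ → Mat r E} (d : Fin r → Eˣ) :
    ∀ (L : List (LP r E)) (w : List (Letter r E)) (i : ℕ), FrRel C H i L w →
      FrRel (fun i => C i * diagonal (fun k => (d k : E)))
        (fun i => H i * diagonal (fun k => (d k : E))) i (L.map (scale d)) w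
  | [], [], i, _ => by simp [FrRel]
  | [], _ :: _, i, h => by simp [FrRel] at h
  | _ :: _, [], i, h => by
      rename_i p L
      cases p <;> simp [FrRel] at h
  | .pt t :: L, .pt A :: w, i, h => by
      obtain ⟨h1, h2⟩ := h
      refine ⟨?_, frRel_scale d L w (i + 1) h2⟩
      show A * (H i * _) = C i * _ * _
      rw [← mul_assoc, h1, mul_assoc, mul_assoc, diag_comm]
  | .hd t s :: L, .hd a b :: w, i, h => by
      obtain ⟨h1, h2, h3⟩ := h
      refine ⟨?_, ?_, frRel_scale d L w (i + 2) h3⟩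
      · show a * b * a⁻¹ * (H (i + 1) * _) = H i * _ * _
        rw [← mul_assoc, h1, mul_assoc, mul_assoc (H i), diag_J]
      · show a * b * a⁻¹ * b⁻¹ * a⁻¹ * (C (i + 1) * _) = C i * _ * _
        rw [← mul_assoc, h2, mul_assoc, mul_assoc (C i), diag_J]
  | .pt _ :: _, .hd _ _ :: _, i, h => by simp [FrRel] at h
  | .hd _ _ :: _, .pt _ :: _, i, h => by simp [FrRel] at h

theorem diag_inv (d : Fin r → Eˣ) :
    diagonal (fun k => (d k : E)) * diagonal (fun k => (((d k)⁻¹ : Eˣ) : E)) = 1 := by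
  rw [diagonal_mul_diagonal]
  ext i j
  by_cases h : i = j
  · subst h; simp
  · simp [h]

theorem frameSeq_scale {s : ℕ} {C H : ℕ → Mat r E} (d : Fin r → Eˣ) (h : FrameSeq s C H) :
    FrameSeq s (fun i => C i * diagonal (fun k => (d k : E)))
        (fun i => H i * diagonal (fun k => (d k : E))) := by
  have key : ∀ M M' y : Mat r E, M = M' * y → M * diagonal (fun k => (d k : E)) =
      M' * diagonal (fun k => (d k : E)) * (diagonal (fun k => (((d k)⁻¹ : Eˣ) : E)) * y *
        diagonal (fun k => (d k : E))) := by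
    intro M M' y hM
    rw [hM]
    calc M' * y * diagonal (fun k => (d k : E))
        = M' * (diagonal (fun k => (d k : E)) * diagonal (fun k => (((d k)⁻¹ : Eˣ) : E))) * y *
            diagonal (fun k => (d k : E)) := by rw [diag_inv, mul_one]
      _ = _ := by simp only [mul_assoc]
  refine ⟨fun i hi => ?_, fun i hi => ?_, fun i hi => ?_, ?_⟩
  · show (C i * _).det ≠ 0
    rw [det_mul, det_diagonal]
    exact mul_ne_zero (h.det i hi) (Finset.prod_ne_zero_iff.2 fun k _ => (d k).ne_zero)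
  · obtain ⟨y, hy, hC⟩ := h.low i hi
    refine ⟨_, ⟨fun j => ?_, fun j k hjk => ?_⟩, key _ _ _ hC⟩
    · rw [mul_diagonal, diagonal_mul, hy.1]; simp
    · rw [mul_diagonal, diagonal_mul, hy.2 j k hjk]; simp
  · obtain ⟨y, hy, hC⟩ := h.up i hi
    refine ⟨_, ⟨fun j => ?_, fun j k hjk => ?_⟩, key _ _ _ hC⟩
    · rw [mul_diagonal, diagonal_mul, hy.1]; simp
    · rw [mul_diagonal, diagonal_mul, hy.2 j k hjk]; simp
  · obtain ⟨y, hy, hC⟩ := h.closed
    refine ⟨_, fun j k hjk => ?_, key _ _ _ hC⟩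
    rw [mul_diagonal, diagonal_mul, hy j k hjk]; simp

/-- Determinants along a frame sequence. -/
theorem frameSeq_det {s : ℕ} {C H : ℕ → Mat r E} (h : FrameSeq s C H) (h0 : (C 0).det = 1) :
    ∀ i ≤ s, (C i).det = 1 ∧ (H i).det = 1 := by
  intro i
  induction i with
  | zero =>
    intro _
    obtain ⟨y, hy, hC⟩ := h.low 0 (Nat.zero_le s)
    refine ⟨h0, ?_⟩
    rw [hC, det_mul, hy.det, mul_one] at h0
    exact h0
  | succ i ih =>
    intro hi
    obtain ⟨u, hu, hH⟩ := h.up i hi
    have h1 : (C (i + 1)).det = 1 := by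
      have h2 := (ih (by omega)).2
      rw [hH, det_mul, hu.det, mul_one] at h2
      exact h2
    obtain ⟨y, hy, hC⟩ := h.low (i + 1) hi
    refine ⟨h1, ?_⟩
    rw [hC, det_mul, hy.det, mul_one] at h1
    exact h1

theorem inv_eq_adj {M : Mat r E} (h : M.det = 1) : M⁻¹ = M.adjugate := by
  rw [Matrix.inv_def, h, Ring.inverse_one, one_smul]

theorem adj_unique {M N : Mat r E} (h : M.det = 1) (hMN : M * N = 1) : M.adjugate = N := by
  have h1 : M.adjugate * M = 1 := by rw [adjugate_mul, h, one_smul]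
  calc M.adjugate = M.adjugate * (M * N) := by rw [hMN, mul_one]
    _ = N := by rw [← mul_assoc, h1, one_mul]

/-- The parameters of a frame sequence. -/
noncomputable def yy (C H : ℕ → Mat r E) (i : ℕ) : Mat r E := (H i)⁻¹ * C i

/-- The parameters of a frame sequence. -/
noncomputable def uu (C H : ℕ → Mat r E) (i : ℕ) : Mat r E := (C (i + 1))⁻¹ * H i

theorem Q_eq {s : ℕ} {C H : ℕ → Mat r E} (hd : ∀ i ≤ s, (C i).det = 1 ∧ (H i).det = 1) :
    ∀ i ≤ s, Q (uu C H) (yy C H) i = (C i)⁻¹ * C 0 := by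
  intro i
  induction i with
  | zero =>
    intro h
    rw [Q, nonsing_inv_mul _ (by rw [(hd 0 h).1]; exact isUnit_one)]
  | succ i ih =>
    intro h
    have hC : C i * (C i)⁻¹ = 1 :=
      mul_nonsing_inv _ (by rw [(hd i (by omega)).1]; exact isUnit_one)
    have hH : H i * (H i)⁻¹ = 1 :=
      mul_nonsing_inv _ (by rw [(hd i (by omega)).2]; exact isUnit_one)
    rw [Q, ih (by omega), uu, yy]
    calc (C (i + 1))⁻¹ * H i * ((H i)⁻¹ * C i) * ((C i)⁻¹ * C 0)
        = (C (i + 1))⁻¹ * (H i * (H i)⁻¹) * (C i * (C i)⁻¹) * C 0 := by simp only [mul_assoc]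
      _ = _ := by rw [hC, hH, mul_one, mul_one]

theorem frames_eq {s : ℕ} {C H : ℕ → Mat r E} (hd : ∀ i ≤ s, (C i).det = 1 ∧ (H i).det = 1)
    {i : ℕ} (hi : i ≤ s) :
    Cm (C 0) (uu C H) (yy C H) i = C i ∧ Ci (C 0) (uu C H) (yy C H) i = (C i)⁻¹ ∧
      Hm (C 0) (uu C H) (yy C H) i = H i ∧ Hi (C 0) (uu C H) (yy C H) i = (H i)⁻¹ := by
  have h0 := (hd 0 (Nat.zero_le s)).1
  have h00 : C 0 * (C 0)⁻¹ = 1 := mul_nonsing_inv _ (by rw [h0]; exact isUnit_one)
  have hCC : C i * (C i)⁻¹ = 1 := mul_nonsing_inv _ (by rw [(hd i hi).1]; exact isUnit_one)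
  have hCC' : (C i)⁻¹ * C i = 1 := nonsing_inv_mul _ (by rw [(hd i hi).1]; exact isUnit_one)
  have hHH : H i * (H i)⁻¹ = 1 := mul_nonsing_inv _ (by rw [(hd i hi).2]; exact isUnit_one)
  have hHH' : (H i)⁻¹ * H i = 1 := nonsing_inv_mul _ (by rw [(hd i hi).2]; exact isUnit_one)
  have hdC : ((C i)⁻¹).det = 1 := by
    rw [det_nonsing_inv, (hd i hi).1, Ring.inverse_one]
  have hdH : ((H i)⁻¹).det = 1 := by
    rw [det_nonsing_inv, (hd i hi).2, Ring.inverse_one]
  have hQ := Q_eq hd i hi
  have hyQ : yy C H i * Q (uu C H) (yy C H) i = (H i)⁻¹ * C 0 := by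
    rw [hQ, yy]
    calc (H i)⁻¹ * C i * ((C i)⁻¹ * C 0) = (H i)⁻¹ * (C i * (C i)⁻¹) * C 0 := by
          simp only [mul_assoc]
      _ = _ := by rw [hCC, mul_one]
  refine ⟨?_, ?_, ?_, ?_⟩
  · rw [Cm, hQ, adj_unique (N := (C 0)⁻¹ * C i) (by rw [det_mul, hdC, h0, mul_one])]
    · rw [← mul_assoc, h00, one_mul]
    · calc (C i)⁻¹ * C 0 * ((C 0)⁻¹ * C i) = (C i)⁻¹ * (C 0 * (C 0)⁻¹) * C i := by
            simp only [mul_assoc]
        _ = 1 := by rw [h00, mul_one, hCC']
  · rw [Ci, hQ, ← inv_eq_adj h0, mul_assoc, h00, mul_one]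
  · rw [Hm, hyQ, adj_unique (N := (C 0)⁻¹ * H i) (by rw [det_mul, hdH, h0, mul_one])]
    · rw [← mul_assoc, h00, one_mul]
    · calc (H i)⁻¹ * C 0 * ((C 0)⁻¹ * H i) = (H i)⁻¹ * (C 0 * (C 0)⁻¹) * H i := by
            simp only [mul_assoc]
        _ = 1 := by rw [h00, mul_one, hHH']
  · rw [Hi, hyQ, ← inv_eq_adj h0, mul_assoc, h00, mul_one]

theorem det_Jm_sq : (Jm E r).det * (Jm E r).det = 1 := by
  rw [← det_mul, Jm_mul_Jm, det_one]

/-- The words of a normalised frame sequence. -/
theorem word_eq {K : Type*} [Field K] [Algebra K E] {s : ℕ} {C H : ℕ → Mat r E}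
    (hd : ∀ i ≤ s, (C i).det = 1 ∧ (H i).det = 1) :
    ∀ (L : List (LP r E)) (w : List (Letter r E)) (i : ℕ), (∀ x ∈ w, x.Valid K) →
      i + wlen w ≤ s + 1 → FrRel C H i L w →
      (∀ p ∈ L, p.OK) ∧ w = word (C 0) (uu C H) (yy C H) i L
  | [], [], i, _, _, _ => by simp [word]
  | [], _ :: _, i, _, _, h => by simp [FrRel] at h
  | .pt _ :: _, [], i, _, _, h => by simp [FrRel] at h
  | .hd _ _ :: _, [], i, _, _, h => by simp [FrRel] at h
  | .pt t :: L, .pt A :: w, i, hv, hi, h => by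
      obtain ⟨h1, h2⟩ := h
      have hlen : wlen (Letter.pt A :: w) = 1 + wlen w := by
        simp [wlen, Letter.len]
      rw [hlen] at hi
      obtain ⟨h3, h4⟩ := word_eq (K := K) hd L w (i + 1) (fun x hx => hv x (List.mem_cons_of_mem _ hx))
        (by omega) h2
      obtain ⟨f1, f2, f3, f4⟩ := frames_eq hd (i := i) (by omega)
      have hHH : H i * (H i)⁻¹ = 1 :=
        mul_nonsing_inv _ (by rw [(hd i (by omega)).2]; exact isUnit_one)
      constructor
      · intro p hp
        rcases List.mem_cons.1 hp with hp | hp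
        · subst hp; trivial
        · exact h3 p hp
      · rw [word, ← show i + 1 = i + (LP.pt t : LP r E).len from rfl, ← h4, LP.letter, f1, f4, ← h1,
          mul_assoc, hHH, mul_one]
  | .hd t s' :: L, .hd a b :: w, i, hv, hi, h => by
      obtain ⟨h1, h2, h3⟩ := h
      have hlen : wlen (Letter.hd a b :: w) = 2 + wlen w := by
        simp [wlen, Letter.len]
      rw [hlen] at hi
      obtain ⟨h4, h5⟩ := word_eq (K := K) hd L w (i + 2) (fun x hx => hv x (List.mem_cons_of_mem _ hx))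
        (by omega) h3
      obtain ⟨ha, hb⟩ : a.det = 1 ∧ b.det = 1 := hv _ List.mem_cons_self
      obtain ⟨f1, f2, f3, f4⟩ := frames_eq hd (i := i) (by omega)
      obtain ⟨e1, e2, e3, e4⟩ := frames_eq hd (i := i + 1) (by omega)
      have hHH : H (i + 1) * (H (i + 1))⁻¹ = 1 :=
        mul_nonsing_inv _ (by rw [(hd (i + 1) (by omega)).2]; exact isUnit_one)
      have hCC : C (i + 1) * (C (i + 1))⁻¹ = 1 :=
        mul_nonsing_inv _ (by rw [(hd (i + 1) (by omega)).1]; exact isUnit_one)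
      have haa : a * a⁻¹ = 1 := mul_nonsing_inv _ (by rw [ha]; exact isUnit_one)
      have haa' : a⁻¹ * a = 1 := nonsing_inv_mul _ (by rw [ha]; exact isUnit_one)
      have hbb : b * b⁻¹ = 1 := mul_nonsing_inv _ (by rw [hb]; exact isUnit_one)
      have hbb' : b⁻¹ * b = 1 := nonsing_inv_mul _ (by rw [hb]; exact isUnit_one)
      have hda : (a⁻¹).det = 1 := by rw [det_nonsing_inv, ha, Ring.inverse_one]
      have hdb : (b⁻¹).det = 1 := by rw [det_nonsing_inv, hb, Ring.inverse_one]
      have hal : al (C 0) (uu C H) (yy C H) i (fun k => (t k : E)) = a * b * a⁻¹ := by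
        rw [al, f3, e4, mul_assoc (H i), ← h1, mul_assoc, hHH, mul_one]
      have hbe : be (C 0) (uu C H) (yy C H) i (fun k => (s' k : E)) =
          a * b * a⁻¹ * b⁻¹ * a⁻¹ := by
        rw [be, f1, e2, mul_assoc (C i), ← h2, mul_assoc, hCC, mul_one]
      have hdal : (a * b * a⁻¹).det = 1 := by
        simp only [det_mul, ha, hb, hda, mul_one]
      have hdbe : (a * b * a⁻¹ * b⁻¹ * a⁻¹).det = 1 := by
        simp only [det_mul, ha, hb, hda, hdb, mul_one]
      have adal : (a * b * a⁻¹).adjugate = a * b⁻¹ * a⁻¹ := by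
        refine adj_unique hdal ?_
        calc a * b * a⁻¹ * (a * b⁻¹ * a⁻¹) = a * b * (a⁻¹ * a) * b⁻¹ * a⁻¹ := by
              simp only [mul_assoc]
          _ = a * (b * b⁻¹) * a⁻¹ := by rw [haa']; simp only [mul_assoc, mul_one, one_mul]
          _ = 1 := by rw [hbb, mul_one, haa]
      have adbe : (a * b * a⁻¹ * b⁻¹ * a⁻¹).adjugate = a * b * a * b⁻¹ * a⁻¹ := by
        refine adj_unique hdbe ?_
        calc a * b * a⁻¹ * b⁻¹ * a⁻¹ * (a * b * a * b⁻¹ * a⁻¹)
            = a * b * a⁻¹ * b⁻¹ * (a⁻¹ * a) * b * a * b⁻¹ * a⁻¹ := by simp only [mul_assoc]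
          _ = a * b * a⁻¹ * (b⁻¹ * b) * a * b⁻¹ * a⁻¹ := by
              rw [haa']; simp only [mul_assoc, mul_one, one_mul]
          _ = a * b * (a⁻¹ * a) * b⁻¹ * a⁻¹ := by
              rw [hbb']; simp only [mul_assoc, mul_one, one_mul]
          _ = a * (b * b⁻¹) * a⁻¹ := by rw [haa']; simp only [mul_assoc, mul_one, one_mul]
          _ = 1 := by rw [hbb, mul_one, haa]
      have hJ : (Jm E r).det ≠ 0 := fun h => by
        have := det_Jm_sq (E := E) (r := r)
        rw [h, zero_mul] at this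
        exact zero_ne_one this
      constructor
      · intro p hp
        rcases List.mem_cons.1 hp with hp | hp
        · subst hp
          constructor
          · have := congrArg det h1
            rw [det_mul, hdal, (hd (i + 1) (by omega)).2, det_mul, (hd i (by omega)).2, det_mul,
              det_diagonal, one_mul, one_mul] at this
            apply mul_left_cancel₀ hJ
            rw [det_Jm_sq, ← this]
          · have := congrArg det h2
            rw [det_mul, hdbe, (hd (i + 1) (by omega)).1, det_mul, (hd i (by omega)).1, det_mul,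
              det_diagonal, one_mul, one_mul] at this
            apply mul_left_cancel₀ hJ
            rw [det_Jm_sq, ← this]
        · exact h4 p hp
      · rw [word, ← show i + 2 = i + (LP.hd t s' : LP r E).len from rfl, ← h5, LP.letter, hal, hbe,
          adal, adbe]
        congr 2
        · symm
          calc a * b⁻¹ * a⁻¹ * (a * b * a * b⁻¹ * a⁻¹) * (a * b * a⁻¹)
              = a * b⁻¹ * (a⁻¹ * a) * b * a * b⁻¹ * (a⁻¹ * a) * b * a⁻¹ := by
                simp only [mul_assoc]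
            _ = a * (b⁻¹ * b) * a * (b⁻¹ * b) * a⁻¹ := by
                rw [haa']; simp only [mul_assoc, mul_one, one_mul]
            _ = a * (a * a⁻¹) := by rw [hbb']; simp only [mul_assoc, mul_one, one_mul]
            _ = a := by rw [haa, mul_one]
        · symm
          calc a * b⁻¹ * a⁻¹ * (a * b * a⁻¹ * b⁻¹ * a⁻¹) * (a * b * a⁻¹) *
                (a * b * a * b⁻¹ * a⁻¹) * (a * b * a⁻¹)
              = a * b⁻¹ * (a⁻¹ * a) * b * a⁻¹ * b⁻¹ * (a⁻¹ * a) * b * (a⁻¹ * a) * b * a * b⁻¹ *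
                  (a⁻¹ * a) * b * a⁻¹ := by simp only [mul_assoc]
            _ = a * (b⁻¹ * b) * a⁻¹ * (b⁻¹ * b) * b * a * (b⁻¹ * b) * a⁻¹ := by
                rw [haa']; simp only [mul_assoc, mul_one, one_mul]
            _ = (a * a⁻¹) * b * (a * a⁻¹) := by
                rw [hbb']; simp only [mul_assoc, mul_one, one_mul]
            _ = b := by rw [haa, mul_one, one_mul]
  | .pt _ :: _, .hd _ _ :: _, i, _, _, h => by simp [FrRel] at h
  | .hd _ _ :: _, .pt _ :: _, i, _, _, h => by simp [FrRel] at h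

end

/-- Normalisation of an invertible matrix. -/
theorem exists_normal {K E : Type*} [Field K] [Field E] [Algebra K E] [IsAlgClosed E] {r : ℕ}
    (M : Mat r E) (hM : M.det ≠ 0) :
    ∃ d : Fin r → Eˣ, (M * diagonal (fun k => (d k : E))).det = 1 ∧
      ∀ B : Set E, Bd K B (ent (M * diagonal (fun k => (d k : E)))) (r * (r - 1)) := by
  classical
  have hcol : ∀ j, ∃ i, M i j ≠ 0 := by
    intro j
    by_contra hcon
    push Not at hcon
    exact hM (det_eq_zero_of_column_eq_zero j hcon)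
  choose p hp using hcol
  -- the normalised matrix
  have hP : ∏ j, M (p j) j ≠ 0 := Finset.prod_ne_zero_iff.2 fun j _ => hp j
  obtain ⟨μ, hμ⟩ : ∃ μ : E, μ ^ r * (M.det * (∏ j, M (p j) j)⁻¹) = 1 := by
    rcases Nat.eq_zero_or_pos r with h0 | h0
    · subst h0
      exact ⟨1, by simp⟩
    · obtain ⟨μ, h⟩ := IsAlgClosed.exists_pow_nat_eq ((M.det * (∏ j, M (p j) j)⁻¹)⁻¹) h0
      refine ⟨μ, ?_⟩
      rw [h]
      exact inv_mul_cancel₀ (mul_ne_zero hM (inv_ne_zero hP))
  have hμ0 : r ≠ 0 → μ ≠ 0 := by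
    intro hr h
    rw [h, zero_pow hr, zero_mul] at hμ
    exact zero_ne_one hμ
  have hr0 : ∀ _ : Fin r, r ≠ 0 := fun j h => by have := j.2; omega
  let d : Fin r → Eˣ := fun j =>
    Units.mk0 (μ * (M (p j) j)⁻¹) (mul_ne_zero (hμ0 (hr0 j)) (inv_ne_zero (hp j)))
  have hdet : (M * diagonal (fun k => (d k : E))).det = 1 := by
    rw [det_mul, det_diagonal]
    have : ∏ k, (d k : E) = μ ^ r * (∏ j, M (p j) j)⁻¹ := by
      show ∏ k, (μ * (M (p k) k)⁻¹) = _
      rw [Finset.prod_mul_distrib, Finset.prod_const, Finset.card_univ, Fintype.card_fin,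
        Finset.prod_inv_distrib]
    rw [this, ← hμ]
    ring
  refine ⟨d, hdet, fun B => ?_⟩
  let N : Mat r E := M * diagonal (fun k => (M (p k) k)⁻¹)
  have hN : ∀ i j, N i j = M i j * (M (p j) j)⁻¹ := fun i j => by
    rw [show N i j = (M * diagonal (fun k => (M (p k) k)⁻¹)) i j from rfl, mul_diagonal]
  let idx : Finset (Fin r × Fin r) := Finset.univ.filter fun x => x.1 ≠ p x.2
  have hidx : idx.card ≤ r * (r - 1) := by
    have h1 : idx = (Finset.univ : Finset (Fin r × Fin r)) \
        (Finset.univ.image fun j : Fin r => (p j, j)) := by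
      ext ⟨i, j⟩
      simp only [idx, Finset.mem_filter, Finset.mem_univ, true_and, Finset.mem_sdiff,
        Finset.mem_image, Prod.mk.injEq, not_exists, not_and]
      constructor
      · intro h k hk hkj
        subst hkj
        exact h hk.symm
      · intro h hij
        exact h j hij.symm rfl
    have h2 : (Finset.univ.image fun j : Fin r => (p j, j)).card = r := by
      rw [Finset.card_image_of_injective _ (fun a b h => (Prod.mk.inj h).2), Finset.card_univ,
        Fintype.card_fin]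
    rw [h1, Finset.card_sdiff_of_subset (Finset.subset_univ _), h2, Finset.card_univ,
      Fintype.card_prod, Fintype.card_fin, Nat.mul_sub_one]
  let T : Finset E := idx.image fun x => N x.1 x.2
  have hT : T.card ≤ r * (r - 1) := Finset.card_image_le.trans hidx
  refine ⟨T, hT, ?_⟩
  have hNmem : ∀ i j, N i j ∈ acl K (B ∪ (T : Set E)) := by
    intro i j
    by_cases h : i = p j
    · have : N i j = 1 := by rw [hN, h]; exact mul_inv_cancel₀ (hp j)
      rw [this]
      exact one_mem _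
    · apply subset_acl
      right
      exact Finset.mem_coe.2 (Finset.mem_image.2 ⟨(i, j), by simp [idx, h], rfl⟩)
  have hNdet : N.det ∈ acl K (B ∪ (T : Set E)) := by
    rw [det_apply]
    refine sum_mem fun σ _ => ?_
    refine (show ∀ (z : ℤˣ) (x : E), x ∈ acl K (B ∪ (T : Set E)) → z • x ∈ acl K (B ∪ (T : Set E)) from ?_) _ _
      (prod_mem fun i _ => hNmem _ _)
    intro z x hx
    rcases Int.units_eq_one_or z with h | h
    · rw [h, one_smul]; exact hx
    · rw [h]; simpa using hx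
  have hNd : N.det = M.det * (∏ j, M (p j) j)⁻¹ := by
    rw [show N = M * diagonal (fun k => (M (p k) k)⁻¹) from rfl, det_mul, det_diagonal,
      Finset.prod_inv_distrib]
  have hμmem : r ≠ 0 → μ ∈ acl K (B ∪ (T : Set E)) := by
    intro hr
    have hpow : μ ^ r ∈ acl K (B ∪ (T : Set E)) := by
      have : μ ^ r = (N.det)⁻¹ := by
        rw [hNd]
        exact eq_inv_of_mul_eq_one_left hμ
      rw [this]
      exact inv_mem hNdet
    rw [mem_acl] at hpow ⊢
    exact IsAlgebraic.of_pow (Nat.pos_of_ne_zero hr) hpow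
  rintro x ⟨i, j, rfl⟩
  have : (M * diagonal (fun k => (d k : E))) i j = μ * N i j := by
    rw [mul_diagonal, hN]
    show M i j * (μ * (M (p j) j)⁻¹) = _
    ring
  rw [this]
  exact mul_mem (hμmem (hr0 j)) (hNmem i j)

/-- Normalisation, and the passage from the frames to the parameters. -/
theorem frames_to_word {K E : Type*} [Field K] [Field E] [Algebra K E] [IsAlgClosed E] {r : ℕ}
    (w : List (Letter r E)) (hne : w ≠ []) (hv : ∀ x ∈ w, x.Valid K) (C H : ℕ → Mat r E)
    (L : List (LP r E)) (hF : FrameSeq (wlen w - 1) C H) (hR : FrRel C H 0 L w) :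
    ∃ (g : Mat r E) (u y : ℕ → Mat r E) (L' : List (LP r E)) (δ : Fin r → E), g.det = 1 ∧
      (∀ B : Set E, Bd K B (ent g) (r * (r - 1))) ∧ InZ (wlen w - 1) δ u y ∧
      (∀ p ∈ L', p.OK) ∧ w = word g u y 0 L' := by
  obtain ⟨d, hd1, hd2⟩ := exists_normal (K := K) (C 0) (hF.det 0 (Nat.zero_le _))
  have hF' := frameSeq_scale d hF
  have hR' := frRel_scale d L w 0 hR
  set C' : ℕ → Mat r E := fun i => C i * diagonal (fun k => (d k : E)) with hC'
  set H' : ℕ → Mat r E := fun i => H i * diagonal (fun k => (d k : E)) with hH'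
  have hdet := frameSeq_det hF' hd1
  have hlen : 1 ≤ wlen w := by
    cases w with
    | nil => exact absurd rfl hne
    | cons a w =>
      have : wlen (a :: w) = a.len + wlen w := by simp [wlen]
      rw [this]
      have : 1 ≤ a.len := by cases a <;> simp [Letter.len]
      omega
  obtain ⟨hOK, hw⟩ := word_eq (K := K) hdet (L.map (scale d)) w 0 hv (by omega) hR'
  refine ⟨C' 0, uu C' H', yy C' H', L.map (scale d),
    fun i => (yy C' H' (wlen w - 1) * Q (uu C' H') (yy C' H') (wlen w - 1)) i i, hd1, hd2, ?_,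
    hOK, hw⟩
  refine ⟨fun i hi => ?_, fun i hi => ?_, ?_, fun i => rfl⟩
  · obtain ⟨y, hy, hC⟩ := hF'.low i hi
    have : yy C' H' i = y := by
      rw [yy, hC, ← mul_assoc, nonsing_inv_mul _ (by rw [(hdet i hi).2]; exact isUnit_one), one_mul]
    rw [this]
    exact hy
  · obtain ⟨y, hy, hC⟩ := hF'.up i hi
    have : uu C' H' i = y := by
      rw [uu, hC, ← mul_assoc, nonsing_inv_mul _ (by rw [(hdet (i + 1) hi).1]; exact isUnit_one),
        one_mul]
    rw [this]
    exact hy
  · intro i j hij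
    obtain ⟨v, hv', hC⟩ := hF'.closed
    have hs : wlen w - 1 ≤ wlen w - 1 := le_rfl
    have hCC : C' (wlen w - 1) * (C' (wlen w - 1))⁻¹ = 1 :=
      mul_nonsing_inv _ (by rw [(hdet _ hs).1]; exact isUnit_one)
    have : yy C' H' (wlen w - 1) * Q (uu C' H') (yy C' H') (wlen w - 1) = v := by
      rw [Q_eq hdet _ hs, yy]
      calc (H' (wlen w - 1))⁻¹ * C' (wlen w - 1) * ((C' (wlen w - 1))⁻¹ * C' 0)
          = (H' (wlen w - 1))⁻¹ * (C' (wlen w - 1) * (C' (wlen w - 1))⁻¹) * C' 0 := by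
            simp only [mul_assoc]
        _ = (H' (wlen w - 1))⁻¹ * (H' (wlen w - 1) * v) := by rw [hCC, mul_one, hC]
        _ = v := by
          rw [← mul_assoc, nonsing_inv_mul _ (by rw [(hdet _ hs).2]; exact isUnit_one), one_mul]
    rw [this]
    exact hv' i j hij

theorem exists_frames {K E : Type*} [Field K] [Field E] [Algebra K E] [IsAlgClosed E] {r : ℕ}
    (w : List (Letter r E)) (hne : w ≠ []) (hv : ∀ x ∈ w, x.Valid K)
    (hf : ∀ w₁ w₂ l, w = w₁ ++ l :: w₂ → ∀ h : Mat r E, h.det ≠ 0 →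
      Stab (wval (w₂ ++ w₁ ++ [l])) h → FrameOK h l) :
    ∃ (g : Mat r E) (u y : ℕ → Mat r E) (L : List (LP r E)) (δ : Fin r → E), g.det = 1 ∧
      (∀ B : Set E, Bd K B (ent g) (r * (r - 1))) ∧ InZ (wlen w - 1) δ u y ∧
      (∀ p ∈ L, p.OK) ∧ w = word g u y 0 L := by
  obtain ⟨C, H, L, hF, hR⟩ := exists_frameSeq w hne hv hf
  exact frames_to_word w hne hv C H L hF hR

end Pool.Agent.MP_3f0e22_ag.FRd

namespace Pool.Agent.MP_3f0e22_ag

alias frames_to_word := FRd.frames_to_word
alias exists_frames := FRd.exists_frames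

end Pool.Agent.MP_3f0e22_ag
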