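import Pool.Agent.MP_3f0e22_ag.E1
import Pool.Agent.MP_3f0e22_ag.S4
import Pool.Agent.MP_3f0e22_ag.S5
import Pool.Agent.MP_3f0e22_ag.S6
import Pool.Agent.MP_3f0e22_ag.Gen1

/-! # Block GLa: generic position, handles -/

set_option autoImplicit false

open Matrix

namespace Pool.Agent.MP_3f0e22_ag.GLa

section aux

variable {K E : Type*} [Field K] [Field E] [Algebra K E] {r : ℕ}

theorem up_isUpper {b : Mat r E} (h : ∀ i j, j < i → b i j = 0) : b.BlockTriangular id :=
  fun i j hij => h i j hij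

theorem up_diag_ne {b : Mat r E} (h : ∀ i j, j < i → b i j = 0) (hd : b.det ≠ 0) (i : Fin r) :
    b i i ≠ 0 := by
  have e : b.det = ∏ i, b i i := Matrix.det_of_isUpperTriangular (up_isUpper h)
  rw [e] at hd
  exact Finset.prod_ne_zero_iff.1 hd i (Finset.mem_univ i)

/-- the inverse of an upper triangular matrix -/
theorem up_inv {b : Mat r E} (h : ∀ i j, j < i → b i j = 0) (hd : b.det ≠ 0) :
    ∀ i j, j < i → b⁻¹ i j = 0 := by
  have : Invertible b := Matrix.invertibleOfIsUnitDet b (isUnit_iff_ne_zero.2 hd)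
  have := Matrix.blockTriangular_inv_of_blockTriangular (up_isUpper h)
  exact fun i j hij => this hij

theorem up_mul {a b : Mat r E} (ha : ∀ i j, j < i → a i j = 0) (hb : ∀ i j, j < i → b i j = 0) :
    ∀ i j, j < i → (a * b) i j = 0 := by
  intro i j hij
  exact (Matrix.BlockTriangular.mul (up_isUpper ha) (up_isUpper hb)) hij

theorem D_mul_upper {b : Mat r E} (h : ∀ i j, j < i → b i j = 0) (hd : b.det ≠ 0) {k : ℕ}
    (hk : k ≤ r) (M : Mat r E) (h0 : D k (M * b) = 0) : D k M = 0 := by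
  have hb := up_diag_ne h hd
  let u : Mat r E := diagonal (fun i => (b i i)⁻¹) * b
  have hu : UpU u := by
    refine ⟨fun i => ?_, fun i j hij => ?_⟩
    · simp only [u, Matrix.diagonal_mul]
      exact inv_mul_cancel₀ (hb i)
    · simp only [u, Matrix.diagonal_mul, h i j hij, mul_zero]
  have e : b = diagonal (fun i => b i i) * u := by
    ext i j
    simp only [u, Matrix.diagonal_mul]
    rw [mul_inv_cancel_left₀ (hb i)]
  rw [e, ← Matrix.mul_assoc, D_mul_up hu, D_mul_diag _ hk] at h0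
  rcases mul_eq_zero.1 h0 with h1 | h1
  · exact h1
  · exact absurd h1 (Finset.prod_ne_zero_iff.2 fun i _ => hb _)

theorem D_lower_mul {b : Mat r E} (h : ∀ i j, i < j → b i j = 0) (hd : b.det ≠ 0) {k : ℕ}
    (hk : k ≤ r) (M : Mat r E) (h0 : D k (b * M) = 0) : D k M = 0 := by
  have h1 : D k (Mᵀ * bᵀ) = 0 := by rw [← Matrix.transpose_mul, D_transpose]; exact h0
  have h2 := D_mul_upper (b := bᵀ) (fun i j hij => h j i hij) (by rwa [Matrix.det_transpose]) hk _ h1
  rwa [D_transpose] at h2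

/-- the entries of the inverse -/
theorem ent_inv {F : IntermediateField K E} {M : Mat r E} (hM : ent M ⊆ F) : ent M⁻¹ ⊆ F := by
  rintro _ ⟨i, j, rfl⟩
  rw [Matrix.inv_def, Matrix.smul_apply, smul_eq_mul, Ring.inverse_eq_inv']
  have h : ∀ i j, M i j ∈ F := fun i j => hM ⟨i, j, rfl⟩
  exact mul_mem (inv_mem (det_mem_of F M h)) (adjugate_mem_of F M h i j)

theorem ent_Jm {F : IntermediateField K E} : ent (Jm E r) ⊆ F := by
  rintro _ ⟨i, j, rfl⟩
  rw [Jm_apply]
  split_ifs
  · exact one_mem F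
  · exact zero_mem F

theorem det_Jm_ne : (Jm E r).det ≠ 0 := by
  intro h
  have h1 := congrArg Matrix.det (Jm_mul_Jm (R := E) (r := r))
  rw [Matrix.det_mul, h, zero_mul, Matrix.det_one] at h1
  exact zero_ne_one h1

/-- Moving to another representative of the flag. -/
theorem D_flag {h h' b a : Mat r E} (e : h = h' * b) (hbd : b.det ≠ 0)
    (hb : ∀ i j, j < i → b i j = 0) {k : ℕ} (hk : k ≤ r)
    (h0 : D k (Jm E r * (h⁻¹ * a * h)) = 0) : D k (Jm E r * (h'⁻¹ * a * h')) = 0 := by
  have e1 : h⁻¹ = b⁻¹ * h'⁻¹ := by rw [e, Matrix.mul_inv_rev]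
  have e2 : Jm E r * (h⁻¹ * a * h) =
      (Jm E r * b⁻¹ * Jm E r) * ((Jm E r * (h'⁻¹ * a * h')) * b) := by
    have : Jm E r * b⁻¹ * Jm E r * (Jm E r * (h'⁻¹ * a * h') * b) =
        Jm E r * b⁻¹ * (Jm E r * Jm E r) * (h'⁻¹ * a * h') * b := by
      simp only [Matrix.mul_assoc]
    rw [this, Jm_mul_Jm, Matrix.mul_one, e1]
    rw [e]
    simp only [Matrix.mul_assoc]
  rw [e2] at h0
  have hbi : b⁻¹.det ≠ 0 := by
    intro h1
    have h2 : (b * b⁻¹).det = 1 := by
      rw [Matrix.mul_nonsing_inv _ (isUnit_iff_ne_zero.2 hbd), Matrix.det_one]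
    rw [Matrix.det_mul, h1, mul_zero] at h2
    exact zero_ne_one h2
  have h3 := D_lower_mul (b := Jm E r * b⁻¹ * Jm E r) (fun i j hij => by
    rw [Jm_conj_apply]
    exact up_inv hb hbd _ _ (Fin.rev_lt_rev.mpr hij)) (by
    rw [Matrix.det_mul, Matrix.det_mul]
    exact mul_ne_zero (mul_ne_zero det_Jm_ne hbi) det_Jm_ne) hk _ h0
  exact D_mul_upper hb hbd hk _ h3

end aux

/-- The core estimate. -/
theorem core {K E : Type*} [Field K] [Field E] [Algebra K E] [IsAlgClosed E]
    (hU : Univ K E) {r : ℕ} (hr : 3 ≤ r) (B₀ : Set E) (hB₀ : B₀.Finite) (Y Y' h a b n : Mat r E)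
    (c : Fin r → E) (hY : ent Y ⊆ acl K B₀) (hYd : Y.det ≠ 0) (hY' : ent Y' ⊆ acl K B₀)
    (hYd' : Y'.det ≠ 0) (hh : Bd K B₀ (ent h) (r * (r - 1) / 2)) (hhd : h.det ≠ 0)
    (hc : ∀ k, c k ≠ 0 ∧ c k ∈ acl K (∅ : Set E)) (ha : a.det = 1) (hb : b.det = 1) (hn : UpU n)
    (hP : Y * (a * b * a.adjugate * b.adjugate) * Y' * h = h * (diagonal c * n))
    {k : ℕ} (hk : k ≤ r) (h0 : D k (Jm E r * (h⁻¹ * a * h)) = 0) :
    rk K (B₀ ∪ (ent a ∪ ent b)) + 1 ≤ rk K B₀ + (4 * (r * (r - 1) / 2) + (r - 1)) := by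
  have hfin : (B₀ ∪ ent h).Finite := hB₀.union (ent_finite h)
  have hsub : acl K B₀ ≤ acl K (B₀ ∪ ent h) := acl_mono Set.subset_union_left
  have h1 := rk_union (K := K) hB₀ hh
  obtain ⟨h2, h3⟩ := handle_bound hU hr (B₀ ∪ ent h) hfin Y Y' h a b n c (hY.trans hsub) hYd
    (hY'.trans hsub) hYd' (Set.subset_union_right.trans (subset_acl _)) hhd hc ha hb hn hP
  have hk' : k < r := by
    rcases Nat.lt_or_ge k r with h4 | h4
    · exact h4
    · have h5 : k = r := le_antisymm hk h4
      rw [h5, D_self, Matrix.det_mul, Matrix.det_mul, Matrix.det_mul, ha, mul_one] at h0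
      rcases mul_eq_zero.1 h0 with h6 | h6
      · exact absurd h6 det_Jm_ne
      · rw [← Matrix.det_mul, Matrix.nonsing_inv_mul _ (isUnit_iff_ne_zero.2 hhd),
          Matrix.det_one] at h6
        exact absurd h6 one_ne_zero
  have hhs : ent h ⊆ acl K (B₀ ∪ ent h) := Set.subset_union_right.trans (subset_acl _)
  have hMd : (Jm E r * h⁻¹).det ≠ 0 := by
    rw [Matrix.det_mul]
    refine mul_ne_zero det_Jm_ne ?_
    intro h4
    have h5 : (h * h⁻¹).det = 1 := by
      rw [Matrix.mul_nonsing_inv _ (isUnit_iff_ne_zero.2 hhd), Matrix.det_one]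
    rw [Matrix.det_mul, h4, mul_zero] at h5
    exact zero_ne_one h5
  have h4 : Bd K (B₀ ∪ ent h) (ent a) (r ^ 2 - 2) :=
    boundE (B₀ ∪ ent h) (Jm E r * h⁻¹) h a (Gen1.ent_mul ent_Jm (ent_inv hhs)) hMd hhs hhd ha hk'
      (by
        have : Jm E r * h⁻¹ * a * h = Jm E r * (h⁻¹ * a * h) := by simp only [Matrix.mul_assoc]
        rw [this]
        exact h0)
  have h5 := rk_union (K := K) hfin h4
  have h6 : rk K (B₀ ∪ (ent a ∪ ent b)) ≤ rk K (B₀ ∪ ent h ∪ ent a ∪ ent b) := by
    refine rk_mono ((hfin.union (ent_finite a)).union (ent_finite b)) ?_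
    refine Set.Subset.trans ?_ (subset_acl _)
    intro x hx
    rcases hx with hx | hx | hx
    · exact Or.inl (Or.inl (Or.inl hx))
    · exact Or.inl (Or.inr hx)
    · exact Or.inr hx
  have h9 : 9 ≤ r ^ 2 := by nlinarith
  have h7 : rk K (B₀ ∪ ent h ∪ ent a ∪ ent b) ≠
      rk K (B₀ ∪ ent h) + (3 * (r * (r - 1) / 2) + (r - 1)) := by
    intro h8
    have := h3 h8
    omega
  omega

section words

variable {K E : Type*} [Field K] [Field E] [Algebra K E] {r : ℕ}

omit [Field E] in
theorem wents_append (w₁ w₂ : List (Letter r E)) : wents (w₁ ++ w₂) = wents w₁ ∪ wents w₂ := by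
  ext x
  simp only [wents, Set.mem_ofPred_eq, List.mem_append, Set.mem_union]
  constructor
  · rintro ⟨l, h | h, hx⟩
    · exact Or.inl ⟨l, h, hx⟩
    · exact Or.inr ⟨l, h, hx⟩
  · rintro (⟨l, h, hx⟩ | ⟨l, h, hx⟩)
    · exact ⟨l, Or.inl h, hx⟩
    · exact ⟨l, Or.inr h, hx⟩

omit [Field E] in
theorem wents_single (l : Letter r E) : wents [l] = l.ents := by
  ext x
  simp [wents]

omit [Field E] in
theorem wents_nil : wents ([] : List (Letter r E)) = ∅ := by
  ext x
  simp [wents]

omit [Field E] in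
theorem wcnt_append (w₁ w₂ : List (Letter r E)) : wcnt (w₁ ++ w₂) = wcnt w₁ + wcnt w₂ := by
  simp [wcnt]

omit [Field E] in
theorem wcnt_single (l : Letter r E) : wcnt [l] = l.cnt := by
  simp [wcnt]

theorem wval_append (w₁ w₂ : List (Letter r E)) : wval (w₁ ++ w₂) = wval w₁ * wval w₂ := by
  simp [wval]

theorem wval_single (l : Letter r E) : wval [l] = l.val := by
  simp [wval]

theorem Bd_word [IsAlgClosed E] (w : List (Letter r E)) (hv : ∀ x ∈ w, x.Valid K) (B : Set E) :
    Bd K B (wents w) (wcnt w) := by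
  induction w generalizing B with
  | nil =>
    refine Bd.mono (Bd.of_subset (K := K) (B := B) (A := ∅) (Set.empty_subset _)) (subset_acl _) ?_ (Nat.zero_le _)
    rw [wents_nil]
    exact Set.empty_subset _
  | cons l w ih =>
    have h1 := bound_letter l (hv l (by simp)) B
    have h2 := ih (fun x hx => hv x (by simp [hx])) (B ∪ l.ents)
    have h3 := Bd.trans h1 h2
    have e1 : wents (l :: w) = l.ents ∪ wents w := by
      rw [← List.singleton_append, wents_append, wents_single]
    have e2 : wcnt (l :: w) = l.cnt + wcnt w := by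
      rw [← List.singleton_append, wcnt_append, wcnt_single]
    rw [e1, e2]
    exact h3

theorem rk_word [IsAlgClosed E] (w : List (Letter r E)) (hv : ∀ x ∈ w, x.Valid K) :
    rk K (wents w) ≤ wcnt w := rk_le (Bd_word w hv ∅)

theorem val_det_ne (l : Letter r E) (hv : l.Valid K) : l.val.det ≠ 0 := by
  cases l with
  | pt A => exact hv.1
  | hd a b =>
    obtain ⟨ha, hb⟩ := hv
    have h1 : a.adjugate.det = 1 := by rw [Matrix.det_adjugate, ha, one_pow]
    have h2 : b.adjugate.det = 1 := by rw [Matrix.det_adjugate, hb, one_pow]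
    rw [Letter.val, Matrix.det_mul, Matrix.det_mul, Matrix.det_mul, ha, hb, h1, h2]
    norm_num

theorem wval_det_ne (w : List (Letter r E)) (hv : ∀ x ∈ w, x.Valid K) : (wval w).det ≠ 0 := by
  induction w with
  | nil => simp [wval]
  | cons l w ih =>
    rw [← List.singleton_append, wval_append, wval_single, Matrix.det_mul]
    exact mul_ne_zero (val_det_ne l (hv l (by simp))) (ih fun x hx => hv x (by simp [hx]))

theorem ent_adjugate {F : IntermediateField K E} {M : Mat r E} (hM : ent M ⊆ F) :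
    ent M.adjugate ⊆ F := by
  rintro _ ⟨i, j, rfl⟩
  exact adjugate_mem_of F M (fun i j => hM ⟨i, j, rfl⟩) i j

theorem ent_val {F : IntermediateField K E} (l : Letter r E) (h : l.ents ⊆ F) : ent l.val ⊆ F := by
  cases l with
  | pt A => exact h
  | hd a b =>
    have ha : ent a ⊆ F := Set.subset_union_left.trans h
    have hb : ent b ⊆ F := Set.subset_union_right.trans h
    exact Gen1.ent_mul (Gen1.ent_mul (Gen1.ent_mul ha hb) (ent_adjugate ha)) (ent_adjugate hb)

theorem ent_wval {F : IntermediateField K E} (w : List (Letter r E)) (h : wents w ⊆ F) :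
    ent (wval w) ⊆ F := by
  induction w with
  | nil =>
    have : wval ([] : List (Letter r E)) = 1 := by simp [wval]
    rw [this]
    exact Gen1.ent_one
  | cons l w ih =>
    rw [← List.singleton_append, wents_append, wents_single] at h
    rw [← List.singleton_append, wval_append, wval_single]
    exact Gen1.ent_mul (ent_val l (Set.subset_union_left.trans h))
      (ih (Set.subset_union_right.trans h))

theorem adjugate_eq_inv {a : Mat r E} (ha : a.det = 1) : a.adjugate = a⁻¹ := by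
  rw [Matrix.inv_def, ha, Ring.inverse_one, one_smul]

end words

/-- GLa -/
theorem frameOK_hd {K E : Type*} [Field K] [Field E] [Algebra K E] [IsAlgClosed E]
    (hU : Univ K E) {r : ℕ} (hr : 3 ≤ r) (w : List (Letter r E)) (a b : Mat r E)
    (hv : ∀ x ∈ w ++ [.hd a b], x.Valid K)
    (hc : cpc (wval (w ++ [.hd a b])) ⊆ acl K (∅ : Set E))
    (hD : wcnt (w ++ [.hd a b]) ≤ rk K (wents (w ++ [.hd a b])) + (r - 1)) (h : Mat r E)
    (hh : h.det ≠ 0) (hS : Stab (wval (w ++ [.hd a b])) h) : FrameOK h (.hd a b) := by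
  have hvw : ∀ x ∈ w, x.Valid K := fun x hx => hv x (by simp [hx])
  obtain ⟨ha, hb⟩ : a.det = 1 ∧ b.det = 1 := hv (.hd a b) (by simp)
  set P := wval (w ++ [.hd a b]) with hPdef
  have hPd : P.det ≠ 0 := wval_det_ne _ hv
  set X := wval w with hX
  have hXd : X.det ≠ 0 := wval_det_ne _ hvw
  have hXe : ent X ⊆ acl K (wents w) := ent_wval w (subset_acl _)
  have hPX : P = X * (a * b * a.adjugate * b.adjugate) := by
    rw [hPdef, wval_append, wval_single, Letter.val]
  have hwf : (wents w).Finite := wents_finite w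
  -- the contradiction
  have key : ¬ rk K (wents w ∪ (ent a ∪ ent b)) + 1 ≤
      rk K (wents w) + (4 * (r * (r - 1) / 2) + (r - 1)) := by
    intro h1
    have h2 := rk_word (K := K) w hvw
    rw [wents_append, wents_single, wcnt_append, wcnt_single] at hD
    change wcnt w + 2 * (r ^ 2 - 1) ≤ rk K (wents w ∪ (ent a ∪ ent b)) + (r - 1) at hD
    obtain ⟨m, rfl⟩ : ∃ m, r = m + 1 := ⟨r - 1, by omega⟩
    have h3 : 2 ∣ (m + 1) * (m + 1 - 1) := by
      rw [Nat.add_sub_cancel, mul_comm]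
      exact (Nat.even_mul_succ_self m).two_dvd
    obtain ⟨N, hN⟩ := h3
    have h4 : (m + 1) * (m + 1 - 1) / 2 = N := by omega
    rw [h4] at h1
    have h5 : (m + 1) ^ 2 - 1 = (m + 1) * (m + 1 - 1) + m := by
      have : (m + 1) ^ 2 = (m + 1) * m + m + 1 := by ring
      rw [this, Nat.add_sub_cancel, Nat.add_sub_cancel]
    rw [h5, hN] at hD
    omega
  obtain ⟨h', b₀, he, hhd', hb₀d, hb₀, hN, -⟩ := exists_flag (K := K) h hh
  have hS' : Stab P h' := by
    obtain ⟨v, hv1, hv2⟩ := hS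
    refine ⟨b₀ * v * b₀⁻¹, up_mul (up_mul hb₀ hv1) (up_inv hb₀ hb₀d), ?_⟩
    rw [he] at hv2
    calc P * h' = P * (h' * b₀) * b₀⁻¹ := by
          rw [← Matrix.mul_assoc, Matrix.mul_nonsing_inv_cancel_right _ _ (isUnit_iff_ne_zero.2 hb₀d)]
      _ = h' * (b₀ * v * b₀⁻¹) := by rw [hv2]; simp only [Matrix.mul_assoc]
  obtain ⟨c, n, hcc, hn, hPh⟩ := Stab.exists_upU hS' hPd hhd' hc
  intro k hk
  constructor
  · intro h0
    refine key (core hU hr (wents w) hwf X 1 h' a b n c hXe hXd Gen1.ent_one (by simp) (hN _) hhd'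
      hcc ha hb hn ?_ hk (D_flag he hb₀d hb₀ hk h0))
    rw [Matrix.mul_one, ← hPX]
    exact hPh
  · intro h0
    have hci : ∀ k, (c k)⁻¹ ≠ 0 ∧ (c k)⁻¹ ∈ acl K (∅ : Set E) := fun k =>
      ⟨inv_ne_zero (hcc k).1, inv_mem (hcc k).2⟩
    have hcd : diagonal c * diagonal (fun k => (c k)⁻¹) = (1 : Mat r E) := by
      rw [Matrix.diagonal_mul_diagonal]
      rw [← Matrix.diagonal_one]
      congr 1
      funext k
      exact mul_inv_cancel₀ (hcc k).1
    have hcd' : diagonal (fun k => (c k)⁻¹) * diagonal c = (1 : Mat r E) := by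
      rw [Matrix.diagonal_mul_diagonal]
      rw [← Matrix.diagonal_one]
      congr 1
      funext k
      exact inv_mul_cancel₀ (hcc k).1
    have hn' : UpU (diagonal c * n.adjugate * diagonal (fun k => (c k)⁻¹)) := by
      have h1 := hn.adjugate
      refine ⟨fun i => ?_, fun i j hij => ?_⟩
      · rw [Matrix.mul_diagonal, Matrix.diagonal_mul, h1.1, mul_one]
        exact mul_inv_cancel₀ (hcc i).1
      · rw [Matrix.mul_diagonal, Matrix.diagonal_mul, h1.2 i j hij, mul_zero, zero_mul]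
    have hXi : X⁻¹.det ≠ 0 := by
      intro h1
      have h2 : (X * X⁻¹).det = 1 := by
        rw [Matrix.mul_nonsing_inv _ (isUnit_iff_ne_zero.2 hXd), Matrix.det_one]
      rw [Matrix.det_mul, h1, mul_zero] at h2
      exact zero_ne_one h2
    have h4 := core hU hr (wents w) hwf 1 X⁻¹ h' b a _ _ Gen1.ent_one (by simp)
      (ent_inv hXe) hXi (hN _) hhd' hci hb ha hn' ?_ hk (D_flag he hb₀d hb₀ hk h0)
    · rw [Set.union_comm (ent b)] at h4
      exact key h4
    · -- `P⁻¹ h' = h' (diag c * n)⁻¹`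
      have e1 : P * (1 * (b * a * b.adjugate * a.adjugate) * X⁻¹) = 1 := by
        rw [hPX, adjugate_eq_inv ha, adjugate_eq_inv hb, Matrix.one_mul]
        have ua : IsUnit a.det := by rw [ha]; exact isUnit_one
        have ub : IsUnit b.det := by rw [hb]; exact isUnit_one
        have uX : IsUnit X.det := isUnit_iff_ne_zero.2 hXd
        calc X * (a * b * a⁻¹ * b⁻¹) * (b * a * b⁻¹ * a⁻¹ * X⁻¹)
            = X * (a * (b * (a⁻¹ * (b⁻¹ * b) * a) * b⁻¹) * a⁻¹) * X⁻¹ := by
              simp only [Matrix.mul_assoc]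
          _ = 1 := by
              rw [Matrix.nonsing_inv_mul _ ub, Matrix.mul_one, Matrix.nonsing_inv_mul _ ua,
                Matrix.mul_one, Matrix.mul_nonsing_inv _ ub, Matrix.mul_one,
                Matrix.mul_nonsing_inv _ ua, Matrix.mul_one, Matrix.mul_nonsing_inv _ uX]
      have e2 : diagonal c * n * (diagonal (fun k => (c k)⁻¹) *
          (diagonal c * n.adjugate * diagonal (fun k => (c k)⁻¹))) = (1 : Mat r E) := by
        calc diagonal c * n * (diagonal (fun k => (c k)⁻¹) *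
              (diagonal c * n.adjugate * diagonal (fun k => (c k)⁻¹)))
            = diagonal c * (n * ((diagonal (fun k => (c k)⁻¹) * diagonal c) * n.adjugate)) *
              diagonal (fun k => (c k)⁻¹) := by simp only [Matrix.mul_assoc]
          _ = 1 := by
              rw [hcd', Matrix.one_mul, hn.mul_adjugate, Matrix.mul_one, hcd]
      set W := 1 * (b * a * b.adjugate * a.adjugate) * X⁻¹ with hW
      set V := diagonal (fun k => (c k)⁻¹) *
          (diagonal c * n.adjugate * diagonal (fun k => (c k)⁻¹)) with hV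
      have e3 : W * P = 1 := mul_eq_one_comm.1 e1
      calc W * h' = W * (h' * ((diagonal c * n) * V)) := by rw [e2, Matrix.mul_one]
        _ = W * ((h' * (diagonal c * n)) * V) := by simp only [Matrix.mul_assoc]
        _ = W * (P * h' * V) := by rw [hPh]
        _ = (W * P) * h' * V := by simp only [Matrix.mul_assoc]
        _ = h' * V := by rw [e3, Matrix.one_mul]

end Pool.Agent.MP_3f0e22_ag.GLa

namespace Pool.Agent.MP_3f0e22_ag

alias frameOK_hd := GLa.frameOK_hd

end Pool.Agent.MP_3f0e22_ag
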