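import Pool.Agent.MP_3f0e22_ag.Defs2
import Pool.Agent.MP_3f0e22_ag.Ba

/-!
# MP_3f0e22_ag, version 2, block H1: `boundH_x`
-/

set_option autoImplicit false

open Matrix

namespace Pool.Agent.MP_3f0e22_ag.H1

variable {K E : Type*} [Field K] [Field E] [Algebra K E]

theorem mem_levs {r : ℕ} {g : Mat r E} {k : ℕ} : k ∈ levs g ↔
    (1 ≤ k ∧ k < r) ∧ ∀ i j : Fin r, k ≤ (i : ℕ) → (j : ℕ) < k → g i j = 0 := by
  classical
  unfold levs
  rw [Finset.mem_filter, Finset.mem_Ico]

/-- The coordinates `x_i`, `i < p`, generate. -/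
theorem bd_range {n : ℕ} {B : Set E} {m : ℕ} (p : Fin (n + 1)) (x : Fin (n + 1) → E)
    (hx1 : x p = 1) (hx0 : ∀ i, p < i → x i = 0)
    (h : Bd K B (Set.range fun j : Fin (p : ℕ) => x ⟨j, j.2.trans p.2⟩) m) :
    Bd K B (Set.range x) m := by
  refine h.mono (subset_acl B) ?_ le_rfl
  rintro _ ⟨i, rfl⟩
  rcases lt_trichotomy i p with hi | hi | hi
  · exact subset_acl _ (Or.inr ⟨⟨i, hi⟩, rfl⟩)
  · rw [hi, hx1]
    exact one_mem _
  · rw [hx0 i hi]
    exact zero_mem _

/-- Levels above `p`. -/
theorem lev_ge {n : ℕ} {g : Mat (n + 1) E} {p : Fin (n + 1)} {x : Fin (n + 1) → E} {l : E}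
    (hx1 : x p = 1) (hx0 : ∀ i, p < i → x i = 0) (hz0 : ∀ i, p < i → (g *ᵥ x) i = 0) {k : ℕ}
    (hk : k ∈ levs (qt p (l⁻¹ • (g *ᵥ x)) g)) (hpk : (p : ℕ) ≤ k) : k + 1 ∈ levs g := by
  rw [mem_levs] at hk ⊢
  obtain ⟨⟨hk1, hk2⟩, hk3⟩ := hk
  have key : ∀ i j : Fin (n + 1), k + 1 ≤ (i : ℕ) → (j : ℕ) < k + 1 → j ≠ p → g i j = 0 := by
    intro i j hi hj hjp
    have hip : p < i := by
      rw [Fin.lt_def]; omega
    obtain ⟨i', hi'⟩ := Fin.exists_succAbove_eq (ne_of_gt hip)
    obtain ⟨j', hj'⟩ := Fin.exists_succAbove_eq hjp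
    have h1 : k ≤ (i' : ℕ) := by
      have h2 : (i : ℕ) ≤ (i' : ℕ) + 1 := by
        rw [← hi']
        rcases lt_or_ge i'.castSucc p with h | h
        · rw [Fin.succAbove_of_castSucc_lt _ _ h]
          simp
        · rw [Fin.succAbove_of_le_castSucc _ _ h]
          simp
      omega
    have h2 : (j' : ℕ) < k := by
      rcases lt_or_ge j'.castSucc p with h | h
      · have h3 : (j' : ℕ) < p := by simpa [Fin.lt_def] using h
        omega
      · have h3 : (j : ℕ) = (j' : ℕ) + 1 := by
          rw [← hj', Fin.succAbove_of_le_castSucc _ _ h]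
          simp
        omega
    have h3 := hk3 i' j' h1 h2
    unfold qt at h3
    rw [hi', hj', Pi.smul_apply, hz0 i hip, smul_zero, zero_mul, sub_zero] at h3
    exact h3
  refine ⟨⟨by omega, by omega⟩, fun i j hi hj => ?_⟩
  by_cases hjp : j = p
  · subst hjp
    have hip : j < i := by
      rw [Fin.lt_def]; omega
    have h1 := hz0 i hip
    rw [Matrix.mulVec, dotProduct, Finset.sum_eq_single j, hx1, mul_one] at h1
    · exact h1
    · intro b _ hb
      rcases lt_or_gt_of_ne hb with h | h
      · rw [key i b hi (by rw [Fin.lt_def] at h; omega) hb, zero_mul]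
      · rw [hx0 b h, mul_zero]
    · intro h
      exact absurd (Finset.mem_univ _) h
  · exact key i j hi hj hjp

/-- A new level. -/
theorem new_lev {n : ℕ} {B : Set E} {g : Mat (n + 1) E} (hg : ent g ⊆ acl K B)
    (hgd : g.det ≠ 0) {p : Fin (n + 1)} {x : Fin (n + 1) → E} {l : E} (hl : l ∈ acl K B)
    (hl0 : l ≠ 0) (hx1 : x p = 1) (hzp : (g *ᵥ x) p = l) {k : ℕ}
    (hk : k ∈ levs (qt p (l⁻¹ • (g *ᵥ x)) g)) (hkp : k < (p : ℕ)) (hk' : k ∉ levs g) :
    Bd K B (Set.range x) (k - 1) := by
  classical
  set z := g *ᵥ x with hz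
  have hgm : ∀ i j, g i j ∈ acl K B := fun i j => hg ⟨i, j, rfl⟩
  rw [mem_levs] at hk
  obtain ⟨⟨hk1, hk2⟩, hk3⟩ := hk
  have hrel : ∀ i j : Fin (n + 1), k ≤ (i : ℕ) → (j : ℕ) < k → g i j = l⁻¹ * z i * g p j := by
    intro i j hi hj
    by_cases hip : i = p
    · subst hip
      rw [hzp, inv_mul_cancel₀ hl0, one_mul]
    · obtain ⟨i', hi'⟩ := Fin.exists_succAbove_eq hip
      have hjp : j ≠ p := by
        intro h
        rw [h] at hj
        omega
      obtain ⟨j', hj'⟩ := Fin.exists_succAbove_eq hjp
      have h1 : k ≤ (i' : ℕ) := by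
        rcases lt_or_ge i'.castSucc p with h | h
        · have h3 : (i : ℕ) = (i' : ℕ) := by
            rw [← hi', Fin.succAbove_of_castSucc_lt _ _ h]
            simp
          omega
        · have h3 : (p : ℕ) ≤ (i' : ℕ) := by simpa [Fin.le_def] using h
          omega
      have h2 : (j' : ℕ) < k := by
        have h3 : (j' : ℕ) ≤ (j : ℕ) := by
          rw [← hj']
          rcases lt_or_ge j'.castSucc p with h | h
          · rw [Fin.succAbove_of_castSucc_lt _ _ h]
            simp
          · rw [Fin.succAbove_of_le_castSucc _ _ h]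
            simp
        omega
      have h3 := hk3 i' j' h1 h2
      unfold qt at h3
      rw [hi', hj', Pi.smul_apply, smul_eq_mul] at h3
      exact sub_eq_zero.1 h3
  -- a nonzero entry in the row `p`
  have hj0 : ∃ j0 : Fin (n + 1), (j0 : ℕ) < k ∧ g p j0 ≠ 0 := by
    by_contra hcon
    push Not at hcon
    refine hk' (mem_levs.2 ⟨⟨hk1, by omega⟩, fun i j hi hj => ?_⟩)
    rw [hrel i j hi hj, hcon j hj, mul_zero]
  obtain ⟨j0, hj0k, hj0⟩ := hj0
  have hzm : ∀ i : Fin (n + 1), k ≤ (i : ℕ) → z i ∈ acl K B := by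
    intro i hi
    have h1 : z i = l * g i j0 * (g p j0)⁻¹ := by
      rw [hrel i j0 hi hj0k]
      field_simp
    rw [h1]
    exact mul_mem (mul_mem hl (hgm _ _)) (inv_mem (hgm _ _))
  -- the inverse
  set h : Mat (n + 1) E := (g.det)⁻¹ • g.adjugate with hh
  have hhm : ∀ i j, h i j ∈ acl K B := by
    intro i j
    rw [hh, Matrix.smul_apply, smul_eq_mul]
    exact mul_mem (inv_mem (det_mem_of _ g hgm)) (adjugate_mem_of _ g hgm i j)
  have hhg : h * g = 1 := by
    rw [hh, Matrix.smul_mul, Matrix.adjugate_mul, smul_smul, inv_mul_cancel₀ hgd, one_smul]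
  have hxz : ∀ i, x i = ∑ j, h i j * z j := by
    intro i
    have h1 : h *ᵥ z = x := by
      rw [hz, Matrix.mulVec_mulVec, hhg, Matrix.one_mulVec]
    conv_lhs => rw [← h1]
    rfl
  have hc : ∃ j : Fin (n + 1), (j : ℕ) < k ∧ h p j ≠ 0 := by
    by_contra hcon
    push Not at hcon
    have h1 : (h * g) p j0 = 0 := by
      rw [hhg, Matrix.one_apply_ne]
      intro h2
      rw [h2] at hkp
      omega
    have h2 : (h * g) p j0 = l⁻¹ * g p j0 * x p := by
      rw [Matrix.mul_apply, hxz p, Finset.mul_sum]
      refine Finset.sum_congr rfl fun j _ => ?_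
      by_cases hj : (j : ℕ) < k
      · rw [hcon j hj]
        ring
      · rw [hrel j j0 (not_lt.1 hj) hj0k]
        ring
    rw [h1, hx1, mul_one] at h2
    exact mul_ne_zero (inv_ne_zero hl0) hj0 h2.symm
  obtain ⟨j1, hj1k, hj1⟩ := hc
  have hkn : k ≤ n + 1 := by omega
  -- the linear relation
  have hB : Bd K B (Set.range fun j : Fin k => z (Fin.castLE hkn j)) (k - 1) := by
    refine Bd.linear (fun j : Fin k => z (Fin.castLE hkn j))
      (fun j : Fin k => h p (Fin.castLE hkn j))
      (1 - ∑ j ∈ Finset.univ.filter (fun j : Fin (n + 1) => ¬ (j : ℕ) < k), h p j * z j)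
      (fun j => hhm _ _) ?_ ?_ ⟨j1, hj1k⟩ hj1
    · refine sub_mem (one_mem _) (sum_mem fun j hj => ?_)
      rw [Finset.mem_filter, not_lt] at hj
      exact mul_mem (hhm _ _) (hzm j hj.2)
    · have h1 := hxz p
      rw [hx1, ← Finset.sum_filter_add_sum_filter_not Finset.univ
        (fun j : Fin (n + 1) => (j : ℕ) < k)] at h1
      rw [h1, add_sub_cancel_right]
      refine Finset.sum_bij (fun j _ => Fin.castLE hkn j) ?_ ?_ ?_ ?_
      · intro j _
        rw [Finset.mem_filter]
        exact ⟨Finset.mem_univ _, j.2⟩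
      · intro a _ b _ hab
        exact Fin.castLE_injective hkn hab
      · intro b hb
        rw [Finset.mem_filter] at hb
        exact ⟨⟨b, hb.2⟩, Finset.mem_univ _, rfl⟩
      · intro j _
        rfl
  refine hB.mono (subset_acl B) ?_ le_rfl
  rintro _ ⟨i, rfl⟩
  rw [SetLike.mem_coe, hxz i]
  refine sum_mem fun j _ => mul_mem (acl_mono Set.subset_union_left (hhm i j)) ?_
  by_cases hj : (j : ℕ) < k
  · exact subset_acl _ (Or.inr ⟨⟨j, hj⟩, rfl⟩)
  · exact acl_mono Set.subset_union_left (hzm j (not_lt.1 hj))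

/-- (H), the eigenvector -/
theorem boundH_x {n : ℕ} (hn : 1 ≤ n) (B : Set E) (g : Mat (n + 1) E) (hg : ent g ⊆ acl K B)
    (hgd : g.det ≠ 0) (p : Fin (n + 1)) (x : Fin (n + 1) → E) (l : E) (hl : l ∈ acl K B)
    (hl0 : l ≠ 0) (hx1 : x p = 1) (hx0 : ∀ i, p < i → x i = 0)
    (hz0 : ∀ i, p < i → (g *ᵥ x) i = 0) (hzp : (g *ᵥ x) p = l) :
    ∃ t, Bd K B (Set.range x) t ∧
      t + (levs (qt p (l⁻¹ • (g *ᵥ x)) g)).card + 1 ≤ p + (levs g).card := by
  classical
  have hgm : ∀ i j, g i j ∈ acl K B := fun i j => hg ⟨i, j, rfl⟩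
  set F' := levs (qt p (l⁻¹ • (g *ᵥ x)) g) with hF'
  by_cases hp : (p : ℕ) = 0
  · -- `p = 0`
    refine ⟨0, bd_range p x hx1 hx0 ?_, ?_⟩
    · refine (Bd.range _).mono (subset_acl B) (Set.subset_union_right.trans (subset_acl _)) hp.le
    · have h1 : F'.image (· + 1) ⊆ (levs g).erase 1 := by
        intro k hk
        rw [Finset.mem_image] at hk
        obtain ⟨k', hk', rfl⟩ := hk
        have h2 := lev_ge hx1 hx0 hz0 hk' (by omega)
        rw [hF', mem_levs] at hk'
        rw [Finset.mem_erase]
        exact ⟨by omega, h2⟩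
      have h2 : 1 ∈ levs g := by
        rw [mem_levs]
        refine ⟨⟨le_rfl, by omega⟩, fun i j hi hj => ?_⟩
        have hjp : j = p := by
          apply Fin.ext
          omega
        have hip : p < i := by
          rw [Fin.lt_def]; omega
        have h3 := hz0 i hip
        rw [Matrix.mulVec, dotProduct, Finset.sum_eq_single p, hx1, mul_one] at h3
        · rw [hjp]
          exact h3
        · intro b _ hb
          have hb' : p < b := by
            rw [Fin.lt_def, hp]
            rw [Ne, Fin.ext_iff, hp] at hb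
            omega
          rw [hx0 b hb', mul_zero]
        · intro h
          exact absurd (Finset.mem_univ _) h
      have h3 := Finset.card_le_card h1
      rw [Finset.card_image_of_injective _ (add_left_injective 1),
        Finset.card_erase_of_mem h2] at h3
      have h4 : 0 < (levs g).card := Finset.card_pos.2 ⟨1, h2⟩
      omega
  · -- `1 ≤ p`
    set N := (F'.filter (· < (p : ℕ))).filter (· ∉ levs g) with hN
    have hcard : F'.card + (if (p : ℕ) ∈ levs g then 1 else 0) ≤ (levs g).card + N.card := by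
      have h1 : (F'.filter fun k => ¬ k < (p : ℕ)).card ≤
          ((levs g).filter fun k => (p : ℕ) < k).card := by
        rw [← Finset.card_image_of_injective (F'.filter fun k => ¬ k < (p : ℕ))
          (add_left_injective 1)]
        refine Finset.card_le_card ?_
        intro k hk
        rw [Finset.mem_image] at hk
        obtain ⟨k', hk', rfl⟩ := hk
        rw [Finset.mem_filter, not_lt] at hk'
        rw [Finset.mem_filter]
        exact ⟨lev_ge hx1 hx0 hz0 hk'.1 hk'.2, by omega⟩
      have h2 : (F'.filter (· < (p : ℕ))).card =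
          ((F'.filter (· < (p : ℕ))).filter (· ∈ levs g)).card + N.card := by
        rw [hN, Finset.card_filter_add_card_filter_not]
      have h3 : ((F'.filter (· < (p : ℕ))).filter (· ∈ levs g)).card ≤
          ((levs g).filter (· < (p : ℕ))).card := by
        refine Finset.card_le_card ?_
        intro k hk
        rw [Finset.mem_filter, Finset.mem_filter] at hk
        rw [Finset.mem_filter]
        exact ⟨hk.2, hk.1.2⟩
      have h4 : F'.card = (F'.filter (· < (p : ℕ))).card +
          (F'.filter fun k => ¬ k < (p : ℕ)).card := by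
        rw [Finset.card_filter_add_card_filter_not]
      have h5 : ((levs g).filter (· < (p : ℕ))).card + (if (p : ℕ) ∈ levs g then 1 else 0) +
          ((levs g).filter fun k => (p : ℕ) < k).card ≤ (levs g).card := by
        have h6 : (levs g).card = ((levs g).filter (· < (p : ℕ))).card +
            ((levs g).filter fun k => ¬ k < (p : ℕ)).card := by
          rw [Finset.card_filter_add_card_filter_not]
        have h7 : (if (p : ℕ) ∈ levs g then 1 else 0) +
            ((levs g).filter fun k => (p : ℕ) < k).card ≤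
            ((levs g).filter fun k => ¬ k < (p : ℕ)).card := by
          split_ifs with hpg
          · have h8 : ((levs g).filter fun k => (p : ℕ) < k) ⊆
                ((levs g).filter fun k => ¬ k < (p : ℕ)).erase p := by
              intro k hk
              rw [Finset.mem_filter] at hk
              rw [Finset.mem_erase, Finset.mem_filter]
              exact ⟨by omega, hk.1, by omega⟩
            have h9 : (p : ℕ) ∈ (levs g).filter fun k => ¬ k < (p : ℕ) := by
              rw [Finset.mem_filter]
              exact ⟨hpg, by omega⟩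
            have h10 := Finset.card_le_card h8
            rw [Finset.card_erase_of_mem h9] at h10
            have h11 := Finset.card_pos.2 ⟨_, h9⟩
            omega
          · rw [zero_add]
            refine Finset.card_le_card ?_
            intro k hk
            rw [Finset.mem_filter] at hk ⊢
            exact ⟨hk.1, by omega⟩
        omega
      omega
    by_cases hN0 : N.Nonempty
    · -- new levels
      set k0 := N.min' hN0 with hk0
      have hk0N : k0 ∈ N := Finset.min'_mem _ _
      have hNc : N.card ≤ (p : ℕ) - k0 := by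
        have h1 : N ⊆ Finset.Ico k0 p := by
          intro k hk
          rw [Finset.mem_Ico]
          refine ⟨Finset.min'_le _ _ hk, ?_⟩
          rw [hN, Finset.mem_filter, Finset.mem_filter] at hk
          exact hk.1.2
        have h2 := Finset.card_le_card h1
        rwa [Nat.card_Ico] at h2
      rw [hN, Finset.mem_filter, Finset.mem_filter] at hk0N
      obtain ⟨⟨h1, h2⟩, h3⟩ := hk0N
      refine ⟨k0 - 1, new_lev hg hgd hl hl0 hx1 hzp h1 h2 h3, ?_⟩
      have h4 : 1 ≤ k0 := (mem_levs.1 h1).1.1
      split_ifs at hcard <;> omega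
    · rw [Finset.not_nonempty_iff_eq_empty] at hN0
      rw [hN0, Finset.card_empty, add_zero] at hcard
      by_cases hpg : (p : ℕ) ∈ levs g
      · rw [if_pos hpg] at hcard
        exact ⟨p, bd_range p x hx1 hx0 (Bd.range _), by omega⟩
      · refine ⟨(p : ℕ) - 1, bd_range p x hx1 hx0 ?_, by split_ifs at hcard; omega⟩
        rw [mem_levs] at hpg
        push Not at hpg
        obtain ⟨i, j, hi, hj, hij⟩ := hpg ⟨by omega, p.2⟩
        have hzi : (g *ᵥ x) i ∈ acl K B := by
          rcases lt_or_eq_of_le hi with h | h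
          · rw [hz0 i (Fin.lt_def.2 h)]
            exact zero_mem _
          · have h' : i = p := Fin.ext h.symm
            rw [h', hzp]
            exact hl
        refine Bd.linear (fun j : Fin (p : ℕ) => x ⟨j, j.2.trans p.2⟩)
          (fun j : Fin (p : ℕ) => g i ⟨j, j.2.trans p.2⟩) ((g *ᵥ x) i - g i p)
          (fun j => hgm _ _) (sub_mem hzi (hgm _ _)) ?_ ⟨j, hj⟩ hij
        rw [eq_sub_iff_add_eq, Matrix.mulVec, dotProduct,
          ← Finset.sum_filter_add_sum_filter_not Finset.univ
          (fun j : Fin (n + 1) => j < p)]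
        congr 1
        · refine Finset.sum_bij (fun (j : Fin (p : ℕ)) _ => (⟨j, j.2.trans p.2⟩ : Fin (n + 1)))
            ?_ ?_ ?_ ?_
          · intro j _
            rw [Finset.mem_filter]
            exact ⟨Finset.mem_univ _, Fin.lt_def.2 j.2⟩
          · intro a _ b _ hab
            rw [Fin.mk.injEq] at hab
            exact Fin.ext hab
          · intro b hb
            rw [Finset.mem_filter] at hb
            exact ⟨⟨b, hb.2⟩, Finset.mem_univ _, rfl⟩
          · intro j _
            rfl
        · rw [Finset.sum_eq_single p, hx1, mul_one]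
          · intro b hb hbp
            rw [Finset.mem_filter, not_lt] at hb
            rw [hx0 b (lt_of_le_of_ne hb.2 (Ne.symm hbp)), mul_zero]
          · intro h
            exact absurd (Finset.mem_filter.2 ⟨Finset.mem_univ p, lt_irrefl p⟩) h

end Pool.Agent.MP_3f0e22_ag.H1

namespace Pool.Agent.MP_3f0e22_ag

alias boundH_x := H1.boundH_x

end Pool.Agent.MP_3f0e22_ag
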