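import Pool.Agent.MP_3f0e22_ag.H1
import Pool.Agent.MP_3f0e22_ag.CHN
import Pool.Agent.MP_3f0e22_ag.RK2
import Pool.Agent.MP_3f0e22_ag.Ba

set_option autoImplicit false

open Matrix MvPolynomial

namespace Pool.Agent.MP_3f0e22_ag.H2

variable {K E : Type*} [Field K] [Field E] [Algebra K E]

/-- The coefficients of a monic-like quotient by `X - l`. -/
theorem coeff_quot {F : IntermediateField K E} {P Q : Polynomial E} {l : E} (hl : l ∈ F)
    (hP : ∀ i, P.coeff i ∈ F) (h : P = (Polynomial.X - Polynomial.C l) * Q) (i : ℕ) :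
    Q.coeff i ∈ F := by
  have key : ∀ k i, Q.natDegree < i + k → Q.coeff i ∈ F := by
    intro k
    induction k with
    | zero =>
      intro i hi
      rw [Polynomial.coeff_eq_zero_of_natDegree_lt (by omega)]
      exact zero_mem F
    | succ k ih =>
      intro i hi
      have h1 : Q.coeff i = P.coeff (i + 1) + l * Q.coeff (i + 1) := by
        rw [h, sub_mul, Polynomial.coeff_sub, Polynomial.coeff_X_mul, Polynomial.coeff_C_mul]
        ring
      rw [h1]
      exact add_mem (hP _) (mul_mem hl (ih (i + 1) (by omega)))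
  exact key (Q.natDegree + 1) i (by omega)

theorem qt_upU {m : ℕ} {p : Fin (m + 1)} {x : Fin (m + 1) → E} {n : Mat (m + 1) E}
    (hn : UpU n) (hx0 : ∀ i, p < i → x i = 0) : UpU (qt p x n) := by
  have key : ∀ i j : Fin m, j ≤ i → x (p.succAbove i) * n p (p.succAbove j) = 0 := by
    intro i j hij
    rcases lt_or_gt_of_ne (Fin.succAbove_ne p i) with h | h
    · have hj : p.succAbove j ≤ p.succAbove i := by
        rcases hij.eq_or_lt with h' | h'
        · rw [h']
        · exact (Fin.strictMono_succAbove p h').le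
      rw [hn.2 _ _ (lt_of_le_of_lt hj h), mul_zero]
    · rw [hx0 _ h, zero_mul]
  refine ⟨fun i => ?_, fun i j hij => ?_⟩
  · rw [qt, hn.1, key i i le_rfl, sub_zero]
  · rw [qt, hn.2 _ _ (Fin.strictMono_succAbove p hij), key i j hij.le, sub_zero]

theorem boundH (r : ℕ) (B : Set E) (n g : Mat r E) (S : Set E) (hg : ent g ⊆ acl K B)
    (hgd : g.det ≠ 0) (hn : UpU n) (hc : cpc (n * g) ⊆ acl K B) (hS : Ch r (n * g) S) :
    Bd K B (ent n ∪ S) ((r - 1).choose 2 + (levs g).card) := by
  classical
  induction r generalizing B S with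
  | zero =>
    rw [Ch] at hS
    subst hS
    refine (Bd.of_subset ?_).mono (subset_acl B) (subset_acl _ |>.trans' Set.subset_union_right) (Nat.zero_le _)
    rintro _ (⟨i, -⟩ | h)
    · exact i.elim0
    · exact h.elim
  | succ m ih =>
    obtain ⟨p, x, l, S', hx1, hx0, hnx, hS', rfl⟩ := hS
    rcases Nat.eq_zero_or_pos m with hm | hm
    · subst hm
      rw [Ch] at hS'
      subst hS'
      refine (Bd.of_subset ?_).mono (subset_acl B) (subset_acl _ |>.trans' Set.subset_union_right)
        (Nat.zero_le _)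
      have hsub : ∀ i j : Fin (0 + 1), i = j := fun i j => Fin.ext (by omega)
      rintro _ (⟨i, j, rfl⟩ | (⟨i, rfl⟩ | h))
      · rw [hsub j i, hn.1]
        exact one_mem (acl K B)
      · rw [hsub i p, hx1]
        exact one_mem (acl K B)
      · exact h.elim
    -- the main case
    set z := g *ᵥ x with hz
    have hnz : n *ᵥ z = l • x := by rw [hz, Matrix.mulVec_mulVec, hnx]
    have hnd : n.det = 1 := hn.det
    have hl0 : l ≠ 0 := by
      rintro rfl
      rw [zero_smul] at hnx
      have h1 := Matrix.eq_zero_of_mulVec_eq_zero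
        (by rw [det_mul, hnd, one_mul]; exact hgd) hnx
      rw [h1] at hx1
      simp at hx1
    have hl : l ∈ acl K B := by
      refine acl_isAlg (p := (n * g).charpoly) (fun i => hc ⟨i, rfl⟩)
        (Matrix.charpoly_monic _).ne_zero ?_
      rw [qt_charpoly hx1 hnx]
      simp
    have hzn : z = n.adjugate *ᵥ (l • x) := by
      rw [← hnz, Matrix.mulVec_mulVec, hn.adjugate_mul, Matrix.one_mulVec]
    have hz0 : ∀ i, p < i → z i = 0 := by
      intro i hi
      rw [hzn, Matrix.mulVec, dotProduct]
      refine Finset.sum_eq_zero fun j _ => ?_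
      by_cases hj : p < j
      · rw [Pi.smul_apply, hx0 j hj, smul_zero, mul_zero]
      · rw [hn.adjugate.2 i j (lt_of_le_of_lt (not_lt.1 hj) hi), zero_mul]
    have hzp : z p = l := by
      rw [hzn, Matrix.mulVec, dotProduct, Finset.sum_eq_single p]
      · rw [hn.adjugate.1, Pi.smul_apply, hx1]; simp
      · intro j _ hj
        rcases lt_or_gt_of_ne hj with h | h
        · rw [hn.adjugate.2 p j h, zero_mul]
        · rw [Pi.smul_apply, hx0 j h, smul_zero, mul_zero]
      · intro h; exact absurd (Finset.mem_univ p) h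
    obtain ⟨t, ht, htl⟩ := boundH_x hm B g hg hgd p x l hl hl0 hx1 hx0 hz0 hzp
    rw [← hz] at htl
    set x' := l⁻¹ • z with hx'
    have hx'1 : x' p = 1 := by rw [hx', Pi.smul_apply, hzp, smul_eq_mul, inv_mul_cancel₀ hl0]
    have hnx' : n *ᵥ x' = (1 : E) • x := by
      rw [hx', Matrix.mulVec_smul, hnz, smul_smul, inv_mul_cancel₀ hl0]
    have hgx : g *ᵥ x = l • x' := by rw [hx', smul_smul, mul_inv_cancel₀ hl0, one_smul]
    have hmul : qt p x (n * g) = qt p x n * qt p x' g := by
      rw [← qt2_self, ← qt2_self, ← qt2_self]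
      exact qt2_mul hx1 hx'1 hnx'
    set B' := B ∪ Set.range x with hB'
    have hBB' : acl K B ≤ acl K B' := acl_mono Set.subset_union_left
    have hxB' : ∀ i, x i ∈ acl K B' := fun i => subset_acl _ (Or.inr ⟨i, rfl⟩)
    have hzB' : ∀ i, z i ∈ acl K B' := by
      intro i
      rw [hz, Matrix.mulVec, dotProduct]
      exact sum_mem fun j _ => mul_mem (hBB' (hg ⟨i, j, rfl⟩)) (hxB' j)
    have hx'B' : ∀ i, x' i ∈ acl K B' := by
      intro i
      rw [hx', Pi.smul_apply, smul_eq_mul]
      exact mul_mem (inv_mem (hBB' hl)) (hzB' i)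
    have hgq : ent (qt p x' g) ⊆ acl K B' := by
      rintro _ ⟨i, j, rfl⟩
      rw [qt]
      exact sub_mem (hBB' (hg ⟨_, _, rfl⟩)) (mul_mem (hx'B' _) (hBB' (hg ⟨_, _, rfl⟩)))
    have hgqd : (qt p x' g).det ≠ 0 := by
      intro h0
      have h1 := qt2_det (p := p) (p' := p) (x := x') (z := x) (q := g) (l := l) hx'1 hgx
      rw [qt2_self, h0, mul_zero, hx1, one_mul] at h1
      exact hgd h1
    have hnq : UpU (qt p x n) := qt_upU hn hx0
    have hcq : cpc (qt p x n * qt p x' g) ⊆ acl K B' := by
      rintro _ ⟨i, rfl⟩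
      refine hBB' ?_
      refine coeff_quot (P := (n * g).charpoly) hl (fun i => hc ⟨i, rfl⟩) ?_ i
      rw [qt_charpoly hx1 hnx, hmul]
    have hIH := ih B' (qt p x n) (qt p x' g) S' hgq hgqd hnq hcq (by rw [← hmul]; exact hS')
    -- assembling
    set T : Finset E := (Finset.Ioi p).image (n p) with hT
    have hTc : T.card ≤ m - p := by
      refine Finset.card_image_le.trans ?_
      rw [Fin.card_Ioi]
      omega
    have h2 : Bd K B' (T : Set E) (m - p) :=
      (Bd.of_finset T).mono (subset_acl _) (subset_acl _ |>.trans' Set.subset_union_right) hTc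
    have h3 : Bd K (B' ∪ T) (ent (qt p x n) ∪ S') ((m - 1).choose 2 + (levs (qt p x' g)).card) :=
      hIH.mono (Set.subset_union_left.trans (subset_acl _))
        (subset_acl _ |>.trans' Set.subset_union_right) le_rfl
    have h4 := ht.trans (h2.trans h3)
    refine h4.mono (subset_acl _) ?_ ?_
    · set A := Set.range x ∪ ((T : Set E) ∪ (ent (qt p x n) ∪ S')) with hA
      have hB'A : acl K B' ≤ acl K (B ∪ A) := by
        refine acl_mono (Set.union_subset Set.subset_union_left ?_)
        exact Set.subset_union_left.trans Set.subset_union_right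
      have hxA : ∀ i, x i ∈ acl K (B ∪ A) := fun i => hB'A (hxB' i)
      have hzA : ∀ i, z i ∈ acl K (B ∪ A) := fun i => hB'A (hzB' i)
      have hnp : ∀ j, n p j ∈ acl K (B ∪ A) := by
        intro j
        rcases lt_trichotomy j p with h | h | h
        · rw [hn.2 p j h]; exact zero_mem _
        · rw [h, hn.1]; exact one_mem _
        · refine subset_acl _ (Or.inr (Or.inr (Or.inl ?_)))
          exact Finset.mem_coe.2 (Finset.mem_image_of_mem _ (Finset.mem_Ioi.2 h))
      have hnij : ∀ i j, j ≠ p → n i j ∈ acl K (B ∪ A) := by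
        intro i j hj
        by_cases hi : i = p
        · rw [hi]; exact hnp j
        obtain ⟨i', rfl⟩ := Fin.exists_succAbove_eq hi
        obtain ⟨j', rfl⟩ := Fin.exists_succAbove_eq hj
        have h5 : n (p.succAbove i') (p.succAbove j') =
            qt p x n i' j' + x (p.succAbove i') * n p (p.succAbove j') := by
          rw [qt]; ring
        rw [h5]
        exact add_mem (subset_acl _ (Or.inr (Or.inr (Or.inr (Or.inl ⟨_, _, rfl⟩)))))
          (mul_mem (hxA _) (hnp _))
      have hnip : ∀ i, n i p ∈ acl K (B ∪ A) := by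
        intro i
        have h5 : ∑ j, n i j * z j = l * x i := by
          have := congrFun hnz i
          rw [Matrix.mulVec, dotProduct] at this
          rw [this]; rfl
        rw [← Finset.add_sum_erase _ _ (Finset.mem_univ p), hzp] at h5
        have h6 : n i p = (l * x i - ∑ j ∈ Finset.univ.erase p, n i j * z j) / l := by
          rw [eq_div_iff hl0, ← h5]; ring
        rw [h6]
        refine div_mem (sub_mem (mul_mem (hB'A (hBB' hl)) (hxA i)) (sum_mem fun j hj => ?_))
          (hB'A (hBB' hl))
        exact mul_mem (hnij i j (Finset.ne_of_mem_erase hj)) (hzA j)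
      rintro _ (⟨i, j, rfl⟩ | (⟨i, rfl⟩ | h))
      · by_cases hj : j = p
        · rw [hj]; exact hnip i
        · exact hnij i j hj
      · exact hxA i
      · exact subset_acl _ (Or.inr (Or.inr (Or.inr (Or.inr h))))
    · have hp : (p : ℕ) ≤ m := by have := p.2; omega
      have hch : (m + 1 - 1).choose 2 = (m - 1).choose 2 + (m - 1) := by
        obtain ⟨m', rfl⟩ : ∃ m', m = m' + 1 := ⟨m - 1, by omega⟩
        have h7 : (m' + 1).choose 2 = m'.choose 1 + m'.choose 2 := Nat.choose_succ_succ' m' 1
        rw [Nat.choose_one_right] at h7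
        simp only [Nat.add_sub_cancel]
        omega
      rw [hch]
      omega

end Pool.Agent.MP_3f0e22_ag.H2

namespace Pool.Agent.MP_3f0e22_ag

alias boundH := H2.boundH

end Pool.Agent.MP_3f0e22_ag
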