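import Pool.Agent.MP_3f0e22_ag.Acl

/-! # Block LU: triangular matrices, minors, LU decomposition. -/

set_option autoImplicit false

open Matrix

namespace Pool.Agent.MP_3f0e22_ag

variable {R : Type*} [CommRing R] {r : ℕ}

theorem LowU.one : LowU (1 : Mat r R) :=
  ⟨fun i => Matrix.one_apply_eq i, fun _ _ hij => Matrix.one_apply_ne hij.ne⟩

theorem UpU.one : UpU (1 : Mat r R) :=
  ⟨fun i => Matrix.one_apply_eq i, fun _ _ hij => Matrix.one_apply_ne hij.ne'⟩

theorem LowU.transpose {a : Mat r R} (ha : LowU a) : UpU aᵀ :=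
  ⟨fun i => ha.1 i, fun i j hij => ha.2 j i hij⟩

theorem UpU.transpose {a : Mat r R} (ha : UpU a) : LowU aᵀ :=
  ⟨fun i => ha.1 i, fun i j hij => ha.2 j i hij⟩

theorem LowU.mul {a b : Mat r R} (ha : LowU a) (hb : LowU b) : LowU (a * b) := by
  constructor
  · intro i
    rw [Matrix.mul_apply, Finset.sum_eq_single i]
    · rw [ha.1, hb.1, one_mul]
    · intro k _ hk
      rcases lt_or_gt_of_ne hk with h | h
      · rw [hb.2 k i h, mul_zero]
      · rw [ha.2 i k h, zero_mul]
    · intro h
      exact absurd (Finset.mem_univ i) h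
  · intro i j hij
    rw [Matrix.mul_apply]
    refine Finset.sum_eq_zero fun k _ => ?_
    rcases lt_or_ge i k with h | h
    · rw [ha.2 i k h, zero_mul]
    · rw [hb.2 k j (lt_of_le_of_lt h hij), mul_zero]

theorem UpU.mul {a b : Mat r R} (ha : UpU a) (hb : UpU b) : UpU (a * b) := by
  have h := (hb.transpose.mul ha.transpose).transpose
  rwa [← Matrix.transpose_mul, Matrix.transpose_transpose] at h

theorem LowU.det {a : Mat r R} (ha : LowU a) : a.det = 1 := by
  have h : a.BlockTriangular OrderDual.toDual := fun i j hij => ha.2 i j (OrderDual.toDual_lt_toDual.mp hij)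
  rw [Matrix.det_of_isLowerTriangular a h]
  exact Finset.prod_eq_one fun i _ => ha.1 i

theorem UpU.det {a : Mat r R} (ha : UpU a) : a.det = 1 := by
  rw [← Matrix.det_transpose]
  exact ha.transpose.det

theorem LowU.mul_adjugate {a : Mat r R} (ha : LowU a) : a * a.adjugate = 1 := by
  rw [Matrix.mul_adjugate, ha.det, one_smul]

theorem LowU.adjugate_mul {a : Mat r R} (ha : LowU a) : a.adjugate * a = 1 := by
  rw [Matrix.adjugate_mul, ha.det, one_smul]

theorem UpU.mul_adjugate {a : Mat r R} (ha : UpU a) : a * a.adjugate = 1 := by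
  rw [Matrix.mul_adjugate, ha.det, one_smul]

theorem UpU.adjugate_mul {a : Mat r R} (ha : UpU a) : a.adjugate * a = 1 := by
  rw [Matrix.adjugate_mul, ha.det, one_smul]

theorem LowU.adjugate {a : Mat r R} (ha : LowU a) : LowU a.adjugate := by
  have h : a.BlockTriangular OrderDual.toDual := fun i j hij => ha.2 i j (OrderDual.toDual_lt_toDual.mp hij)
  have : Invertible a := ⟨a.adjugate, ha.adjugate_mul, ha.mul_adjugate⟩
  have hinv : a⁻¹ = a.adjugate := by
    rw [Matrix.inv_def, ha.det, Ring.inverse_one, one_smul]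
  have h2 : a.adjugate.BlockTriangular OrderDual.toDual := by
    have := Matrix.blockTriangular_inv_of_blockTriangular h
    rwa [hinv] at this
  have h3 : ∀ i j : Fin r, i < j → a.adjugate i j = 0 := fun i j hij =>
    h2 (OrderDual.toDual_lt_toDual.mpr hij)
  refine ⟨fun i => ?_, h3⟩
  have h4 := congrFun (congrFun ha.mul_adjugate i) i
  rw [Matrix.mul_apply, Finset.sum_eq_single i, ha.1, one_mul, Matrix.one_apply_eq] at h4
  · exact h4
  · intro k _ hk
    rcases lt_or_gt_of_ne hk with h | h
    · rw [h3 k i h, mul_zero]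
    · rw [ha.2 i k h, zero_mul]
  · intro h
    exact absurd (Finset.mem_univ i) h

theorem UpU.adjugate {a : Mat r R} (ha : UpU a) : UpU a.adjugate := by
  have h := ha.transpose.adjugate.transpose
  rwa [← Matrix.adjugate_transpose, Matrix.transpose_transpose] at h

theorem LowU.map {a : Mat r R} (ha : LowU a) {R' : Type*} [CommRing R'] (φ : R →+* R') :
    LowU (a.map φ) :=
  ⟨fun i => by rw [Matrix.map_apply, ha.1, map_one],
    fun i j hij => by rw [Matrix.map_apply, ha.2 i j hij, map_zero]⟩

theorem UpU.map {a : Mat r R} (ha : UpU a) {R' : Type*} [CommRing R'] (φ : R →+* R') :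
    UpU (a.map φ) :=
  ⟨fun i => by rw [Matrix.map_apply, ha.1, map_one],
    fun i j hij => by rw [Matrix.map_apply, ha.2 i j hij, map_zero]⟩

theorem Jm_mul_apply (M : Mat r R) (i j : Fin r) : (Jm R r * M) i j = M i.rev j := by
  simp [Jm, Matrix.mul_apply, Matrix.one_apply]

theorem Jm_apply (i j : Fin r) : Jm R r i j = if i.rev = j then 1 else 0 := by
  simp [Jm, Matrix.one_apply]

theorem Jm_mul_Jm : Jm R r * Jm R r = 1 := by
  ext i j
  rw [Jm_mul_apply, Jm_apply, Fin.rev_rev, Matrix.one_apply]

theorem Jm_transpose : (Jm R r)ᵀ = Jm R r := by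
  ext i j
  rw [Matrix.transpose_apply, Jm_apply, Jm_apply]
  have : (j.rev = i) ↔ (i.rev = j) := by
    constructor
    · intro h; rw [← h, Fin.rev_rev]
    · intro h; rw [← h, Fin.rev_rev]
  simp only [this]

theorem mul_Jm_apply (M : Mat r R) (i j : Fin r) : (M * Jm R r) i j = M i j.rev := by
  have h := Jm_mul_apply Mᵀ j i
  rw [← Matrix.transpose_apply (M * Jm R r), Matrix.transpose_mul, Jm_transpose, h,
    Matrix.transpose_apply]

theorem Jm_conj_apply (M : Mat r R) (i j : Fin r) : (Jm R r * M * Jm R r) i j = M i.rev j.rev := by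
  rw [mul_Jm_apply, Jm_mul_apply]

theorem UpU.conj_Jm {a : Mat r R} (ha : UpU a) : LowU (Jm R r * a * Jm R r) :=
  ⟨fun i => by rw [Jm_conj_apply, ha.1],
    fun i j hij => by rw [Jm_conj_apply]; exact ha.2 _ _ (Fin.rev_lt_rev.mpr hij)⟩

theorem LowU.conj_Jm {a : Mat r R} (ha : LowU a) : UpU (Jm R r * a * Jm R r) :=
  ⟨fun i => by rw [Jm_conj_apply, ha.1],
    fun i j hij => by rw [Jm_conj_apply]; exact ha.2 _ _ (Fin.rev_lt_rev.mpr hij)⟩

theorem D_of_le {k : ℕ} (h : k ≤ r) (M : Mat r R) :
    D k M = (M.submatrix (Fin.castLE h) (Fin.castLE h)).det := by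
  unfold D
  rw [dif_pos h]

theorem D_of_not_le {k : ℕ} (h : ¬ k ≤ r) (M : Mat r R) : D k M = 0 := by
  unfold D
  rw [dif_neg h]

theorem D_zero (M : Mat r R) : D 0 M = 1 := by
  rw [D_of_le (Nat.zero_le r)]
  exact Matrix.det_isEmpty

theorem D_self (M : Mat r R) : D r M = M.det := by
  rw [D_of_le le_rfl]
  rfl

theorem D_one (k : ℕ) (hk : k ≤ r) : D k (1 : Mat r R) = 1 := by
  rw [D_of_le hk, Matrix.submatrix_one _ (Fin.castLE_injective hk), Matrix.det_one]

theorem D_transpose (k : ℕ) (M : Mat r R) : D k Mᵀ = D k M := by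
  by_cases hk : k ≤ r
  · rw [D_of_le hk, D_of_le hk, ← Matrix.transpose_submatrix, Matrix.det_transpose]
  · rw [D_of_not_le hk, D_of_not_le hk]

theorem D_map {R' : Type*} [CommRing R'] (φ : R →+* R') (k : ℕ) (M : Mat r R) :
    D k (M.map φ) = φ (D k M) := by
  by_cases hk : k ≤ r
  · rw [D_of_le hk, D_of_le hk, RingHom.map_det]
    rfl
  · rw [D_of_not_le hk, D_of_not_le hk, map_zero]

theorem LowU.submatrix {l : Mat r R} (hl : LowU l) {k : ℕ} (hk : k ≤ r) :
    LowU (l.submatrix (Fin.castLE hk) (Fin.castLE hk) : Mat k R) :=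
  ⟨fun _ => hl.1 _, fun _ _ hij => hl.2 _ _ hij⟩

/-- The leading blocks are multiplicative when the first factor is lower triangular. -/
theorem LowU.submatrix_mul {l : Mat r R} (hl : LowU l) {k : ℕ} (hk : k ≤ r) (M : Mat r R) :
    (l * M).submatrix (Fin.castLE hk) (Fin.castLE hk) =
      l.submatrix (Fin.castLE hk) (Fin.castLE hk) * M.submatrix (Fin.castLE hk) (Fin.castLE hk) := by
  ext i j
  rw [Matrix.submatrix_apply, Matrix.mul_apply, Matrix.mul_apply]
  simp only [Matrix.submatrix_apply]
  symm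
  have himg : ∑ x : Fin k, l (Fin.castLE hk i) (Fin.castLE hk x) * M (Fin.castLE hk x) (Fin.castLE hk j)
      = ∑ y ∈ Finset.univ.map (Fin.castLEEmb hk), l (Fin.castLE hk i) y * M y (Fin.castLE hk j) := by
    rw [Finset.sum_map]
    rfl
  rw [himg]
  refine Finset.sum_subset (Finset.subset_univ _) ?_
  intro y _ hy
  have hlt : Fin.castLE hk i < y := by
    by_contra hle
    apply hy
    rw [Finset.mem_map]
    have h1 : (y : ℕ) ≤ i := by
      have := not_lt.mp hle
      exact this
    exact ⟨⟨y, lt_of_le_of_lt h1 i.2⟩, Finset.mem_univ _, by ext; rfl⟩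
  rw [hl.2 _ _ hlt, zero_mul]

theorem D_low_mul {l : Mat r R} (hl : LowU l) (k : ℕ) (M : Mat r R) : D k (l * M) = D k M := by
  by_cases hk : k ≤ r
  · rw [D_of_le hk, D_of_le hk, hl.submatrix_mul hk, Matrix.det_mul, (hl.submatrix hk).det, one_mul]
  · rw [D_of_not_le hk, D_of_not_le hk]

theorem D_mul_up {v : Mat r R} (hv : UpU v) (k : ℕ) (M : Mat r R) : D k (M * v) = D k M := by
  rw [← D_transpose, Matrix.transpose_mul, D_low_mul hv.transpose, D_transpose]

theorem D_diag_mul (d : Fin r → R) {k : ℕ} (hk : k ≤ r) (M : Mat r R) :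
    D k (diagonal d * M) = (∏ i : Fin k, d (i.castLE hk)) * D k M := by
  rw [D_of_le hk, D_of_le hk]
  have : (diagonal d * M).submatrix (Fin.castLE hk) (Fin.castLE hk) =
      diagonal (fun i : Fin k => d (i.castLE hk)) * M.submatrix (Fin.castLE hk) (Fin.castLE hk) := by
    ext i j
    rw [Matrix.submatrix_apply, Matrix.diagonal_mul, Matrix.diagonal_mul, Matrix.submatrix_apply]
  rw [this, Matrix.det_mul, Matrix.det_diagonal]

theorem D_mul_diag (d : Fin r → R) {k : ℕ} (hk : k ≤ r) (M : Mat r R) :
    D k (M * diagonal d) = D k M * ∏ i : Fin k, d (i.castLE hk) := by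
  rw [← D_transpose, Matrix.transpose_mul, Matrix.diagonal_transpose, D_diag_mul d hk, D_transpose,
    mul_comm]

/-- Schur complement, full determinant. -/
theorem det_schur {n : ℕ} (M : Mat (n + 1) R) (c : R) (hc : M 0 0 * c = 1) :
    M.det = M 0 0 *
      (Matrix.of (fun i j : Fin n => M i.succ j.succ - M i.succ 0 * c * M 0 j.succ)).det := by
  let N : Mat (n + 1) R := fun i j => M i j + (Fin.cases 0 (fun i' => -(M i'.succ 0 * c)) i : R) * M 0 j
  have h1 : N.det = M.det :=
    Matrix.det_eq_of_forall_row_eq_smul_add_const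
      (fun i => (Fin.cases 0 (fun i' => -(M i'.succ 0 * c)) i : R)) 0 rfl (fun _ _ => rfl)
  rw [← h1, Matrix.det_succ_column_zero, Fin.sum_univ_succ]
  have h2 : ∀ i : Fin n, N i.succ 0 = 0 := by
    intro i
    change M i.succ 0 + -(M i.succ 0 * c) * M 0 0 = 0
    linear_combination (-(M i.succ 0)) * hc
  have h3 : N 0 0 = M 0 0 := by
    change M 0 0 + 0 * M 0 0 = M 0 0
    ring
  simp only [h2, h3, mul_zero, zero_mul, Finset.sum_const_zero, add_zero]
  rw [Fin.val_zero, pow_zero, one_mul]
  congr 2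
  ext i j
  change M i.succ j.succ + -(M i.succ 0 * c) * M 0 j.succ = _
  rw [Matrix.of_apply]
  ring

/-- The Schur complement. -/
theorem D_succ {n : ℕ} (M : Mat (n + 1) R) (c : R) (hc : M 0 0 * c = 1) {k : ℕ} (hk : k ≤ n) :
    D (k + 1) M = M 0 0 *
      D k (fun i j : Fin n => M i.succ j.succ - M i.succ 0 * c * M 0 j.succ) := by
  have h := det_schur (M.submatrix (Fin.castLE (Nat.succ_le_succ hk)) (Fin.castLE (Nat.succ_le_succ hk)))
    c hc
  rw [D_of_le (Nat.succ_le_succ hk), h]
  refine congrArg (fun x => M 0 0 * x) ?_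
  exact (D_of_le hk (Matrix.of fun i j : Fin n =>
    M i.succ j.succ - M i.succ 0 * c * M 0 j.succ)).symm

theorem exists_lu (M : Mat r R) (h : ∀ k ≤ r, IsUnit (D k M)) :
    ∃ (l v : Mat r R) (d : Fin r → Rˣ), LowU l ∧ UpU v ∧
      M = l * diagonal (fun k => (d k : R)) * v := by
  induction r with
  | zero =>
    exact ⟨1, 1, fun _ => 1, LowU.one, UpU.one, Subsingleton.elim _ _⟩
  | succ r ih =>
    have h00 : IsUnit (M 0 0) := by
      have h1 := h 1 (by omega)
      rw [D_of_le (by omega), Matrix.det_unique] at h1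
      exact h1
    obtain ⟨w, hw⟩ := h00
    have hc : M 0 0 * ((w⁻¹ : Rˣ) : R) = 1 := by rw [← hw, Units.mul_inv]
    generalize hcdef : ((w⁻¹ : Rˣ) : R) = c at hc
    obtain ⟨l, v, d, hl, hv, hM⟩ := ih (fun i j : Fin r => M i.succ j.succ - M i.succ 0 * c * M 0 j.succ)
      (by
        intro k hk
        have h1 := h (k + 1) (by omega)
        rw [D_succ M c hc hk] at h1
        exact isUnit_of_mul_isUnit_right h1)
    let L : Mat (r + 1) R := fun i j =>
      Fin.cases (Fin.cases 1 (fun _ => 0) j) (fun i' => Fin.cases (M i'.succ 0 * c) (fun j' => l i' j') j) i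
    let V : Mat (r + 1) R := fun i j =>
      Fin.cases (Fin.cases 1 (fun j' => c * M 0 j'.succ) j)
        (fun i' => Fin.cases 0 (fun j' => v i' j') j) i
    let d' : Fin (r + 1) → Rˣ := fun i => Fin.cases w (fun i' => d i') i
    refine ⟨L, V, d', ⟨?_, ?_⟩, ⟨?_, ?_⟩, ?_⟩
    · intro i
      refine Fin.cases rfl (fun i' => ?_) i
      exact hl.1 i'
    · intro i j
      refine Fin.cases ?_ (fun i' => ?_) i
      · refine Fin.cases ?_ (fun j' => ?_) j
        · intro h; exact absurd h (lt_irrefl _)
        · intro _; rfl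
      · refine Fin.cases ?_ (fun j' => ?_) j
        · intro h; exact absurd h (Fin.not_lt_zero _)
        · intro h; exact hl.2 i' j' (Fin.succ_lt_succ_iff.mp h)
    · intro i
      refine Fin.cases rfl (fun i' => ?_) i
      exact hv.1 i'
    · intro i j
      refine Fin.cases ?_ (fun i' => ?_) i
      · refine Fin.cases ?_ (fun j' => ?_) j
        · intro h; exact absurd h (lt_irrefl _)
        · intro h; exact absurd h (Fin.not_lt_zero _)
      · refine Fin.cases ?_ (fun j' => ?_) j
        · intro _; rfl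
        · intro h; exact hv.2 i' j' (Fin.succ_lt_succ_iff.mp h)
    · have hmul : ∀ i j, (L * diagonal (fun k => (d' k : R)) * V) i j
          = L i 0 * w * V 0 j + ∑ k : Fin r, L i k.succ * d k * V k.succ j := by
        intro i j
        rw [Matrix.mul_apply, Fin.sum_univ_succ]
        congr 1
        · rw [Matrix.mul_diagonal]; rfl
        · refine Finset.sum_congr rfl fun k _ => ?_
          rw [Matrix.mul_diagonal]; rfl
      ext i j
      rw [hmul]
      refine Fin.cases ?_ (fun i' => ?_) i
      · refine Fin.cases ?_ (fun j' => ?_) j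
        · change M 0 0 = 1 * (w : R) * 1 + ∑ k : Fin r, 0 * (d k : R) * 0
          rw [hw]
          simp
        · change M 0 j'.succ = 1 * (w : R) * (c * M 0 j'.succ) + ∑ k : Fin r, 0 * (d k : R) * v k j'
          rw [hw]
          simp only [zero_mul, Finset.sum_const_zero, add_zero]
          linear_combination (-(M 0 j'.succ)) * hc
      · refine Fin.cases ?_ (fun j' => ?_) j
        · change M i'.succ 0 = M i'.succ 0 * c * (w : R) * 1 + ∑ k : Fin r, l i' k * (d k : R) * 0
          rw [hw]
          simp only [mul_zero, Finset.sum_const_zero, add_zero]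
          linear_combination (-(M i'.succ 0)) * hc
        · change M i'.succ j'.succ = M i'.succ 0 * c * (w : R) * (c * M 0 j'.succ) +
            ∑ k : Fin r, l i' k * (d k : R) * v k j'
          have e := congrFun (congrFun hM i') j'
          rw [Matrix.mul_apply] at e
          simp only [Matrix.mul_diagonal] at e
          rw [← e, hw]
          linear_combination (-(M i'.succ 0) * c * M 0 j'.succ) * hc

theorem lu_unique {l l' v v' : Mat r R} {d d' : Fin r → Rˣ} (hl : LowU l) (hl' : LowU l')
    (hv : UpU v) (hv' : UpU v')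
    (h : l * diagonal (fun k => (d k : R)) * v = l' * diagonal (fun k => (d' k : R)) * v') :
    l = l' ∧ d = d' ∧ v = v' := by
  have ha : LowU (l'.adjugate * l) := hl'.adjugate.mul hl
  have hb : UpU (v' * v.adjugate) := hv'.mul hv.adjugate
  have h1 : (l'.adjugate * l) * diagonal (fun k => (d k : R)) =
      diagonal (fun k => (d' k : R)) * (v' * v.adjugate) := by
    have e : l'.adjugate * (l * diagonal (fun k => (d k : R)) * v) * v.adjugate
        = l'.adjugate * (l' * diagonal (fun k => (d' k : R)) * v') * v.adjugate := by rw [h]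
    calc (l'.adjugate * l) * diagonal (fun k => (d k : R))
        = l'.adjugate * (l * diagonal (fun k => (d k : R)) * v) * v.adjugate := by
          rw [← Matrix.mul_assoc l'.adjugate, Matrix.mul_assoc (l'.adjugate * (l * _)) v,
            hv.mul_adjugate, Matrix.mul_one, Matrix.mul_assoc]
      _ = l'.adjugate * (l' * diagonal (fun k => (d' k : R)) * v') * v.adjugate := e
      _ = diagonal (fun k => (d' k : R)) * (v' * v.adjugate) := by
          rw [← Matrix.mul_assoc l'.adjugate, ← Matrix.mul_assoc l'.adjugate, hl'.adjugate_mul,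
            Matrix.one_mul, Matrix.mul_assoc]
  have h2 : ∀ i j, (l'.adjugate * l) i j * (d j : R) = (d' i : R) * (v' * v.adjugate) i j := by
    intro i j
    have e := congrFun (congrFun h1 i) j
    rwa [Matrix.mul_diagonal, Matrix.diagonal_mul] at e
  have hd : d = d' := by
    funext i
    have e := h2 i i
    rw [ha.1, hb.1, one_mul, mul_one] at e
    exact Units.ext e
  have hA : l'.adjugate * l = 1 := by
    ext i j
    rcases lt_trichotomy i j with hij | hij | hij
    · rw [ha.2 i j hij, Matrix.one_apply_ne hij.ne]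
    · rw [hij, ha.1, Matrix.one_apply_eq]
    · have e := h2 i j
      rw [hb.2 i j hij, mul_zero] at e
      rw [Matrix.one_apply_ne hij.ne']
      exact (Units.mul_left_eq_zero (d j)).mp e
  have hB : v' * v.adjugate = 1 := by
    ext i j
    rcases lt_trichotomy i j with hij | hij | hij
    · have e := (h2 i j).symm
      rw [ha.2 i j hij, zero_mul] at e
      rw [Matrix.one_apply_ne hij.ne]
      exact (Units.mul_right_eq_zero (d' i)).mp e
    · rw [hij, hb.1, Matrix.one_apply_eq]
    · rw [hb.2 i j hij, Matrix.one_apply_ne hij.ne']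
  refine ⟨?_, hd, ?_⟩
  · calc l = l' * (l'.adjugate * l) := by
          rw [← Matrix.mul_assoc, hl'.mul_adjugate, Matrix.one_mul]
      _ = l' := by rw [hA, Matrix.mul_one]
  · calc v = (v' * v.adjugate) * v := by rw [hB, Matrix.one_mul]
      _ = v' := by rw [Matrix.mul_assoc, hv.adjugate_mul, Matrix.mul_one]

end Pool.Agent.MP_3f0e22_ag
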