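import Pool.Agent.MP_3f0e22_ag.CHN

set_option autoImplicit false

open Matrix MvPolynomial

namespace Pool.Agent.MP_3f0e22_ag.Q1

variable {K E : Type*} [Field K] [Field E] [Algebra K E]

theorem mem_levs {r : ℕ} {g : Mat r E} {k : ℕ} :
    k ∈ levs g ↔ (1 ≤ k ∧ k < r) ∧ ∀ i j : Fin r, k ≤ (i : ℕ) → (j : ℕ) < k → g i j = 0 := by
  classical
  unfold levs
  rw [Finset.mem_filter, Finset.mem_Ico]

/-- An invertible matrix with `M V_k ⊆ V_k` satisfies: `M z ∈ V_k → z ∈ V_k`. -/
theorem inv_stable {r : ℕ} {M : Mat r E} (hM : M.det ≠ 0) {k : ℕ} (hk : k ∈ levs M)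
    {z : Fin r → E} (h : ∀ i : Fin r, k ≤ (i : ℕ) → (M *ᵥ z) i = 0) :
    ∀ i : Fin r, k ≤ (i : ℕ) → z i = 0 := by
  classical
  obtain ⟨-, hk2⟩ := mem_levs.1 hk
  -- the block of the indices `≥ k` is invertible
  set N : Matrix {i : Fin r // ¬ ((i : ℕ) < k)} {i : Fin r // ¬ ((i : ℕ) < k)} E :=
    M.toBlock (fun i => ¬ ((i : ℕ) < k)) (fun i => ¬ ((i : ℕ) < k)) with hN
  have h0 : M.toBlock (fun i => ¬ ((i : ℕ) < k)) (fun i => (i : ℕ) < k) = 0 := by
    ext i j
    exact hk2 _ _ (not_lt.1 i.2) j.2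
  have hdet : M.det = (M.toBlock (fun i => (i : ℕ) < k) (fun i => (i : ℕ) < k)).det * N.det := by
    exact Matrix.twoBlockTriangular_det M (fun i => (i : ℕ) < k)
      (fun i hi j hj => hk2 i j (not_lt.1 hi) hj)
  have hNdet : N.det ≠ 0 := by
    intro h
    rw [h, mul_zero] at hdet
    exact hM hdet
  have hNz : N *ᵥ (fun i => z i) = 0 := by
    ext i
    have h1 := h i.1 (not_lt.1 i.2)
    rw [Pi.zero_apply, ← h1, Matrix.mulVec, Matrix.mulVec, dotProduct, dotProduct]
    rw [← Fintype.sum_subtype_add_sum_subtype (fun j : Fin r => (j : ℕ) < k)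
      (fun j => M i.1 j * z j)]
    rw [Finset.sum_eq_zero (s := (Finset.univ : Finset {j : Fin r // (j : ℕ) < k}))
      (fun j _ => by rw [hk2 i.1 j.1 (not_lt.1 i.2) j.2, zero_mul]), zero_add]
    rfl
  have hz := Matrix.eq_zero_of_mulVec_eq_zero hNdet hNz
  intro i hi
  exact congrFun hz ⟨i, not_lt.2 hi⟩

theorem boundQ_lev {n : ℕ} (a q : Mat (n + 1) E) (had : a.det ≠ 0) (hqd : q.det ≠ 0)
    (p p' : Fin (n + 1)) (x z : Fin (n + 1) → E) (l : E) (hx1 : x p = 1)
    (hx0 : ∀ i, p < i → x i = 0) (hax : a *ᵥ x = l • x) (hqz : q *ᵥ z = x) (hz1 : z p' ≠ 0)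
    (hz0 : ∀ i, p' < i → z i = 0) :
    kmax (a * q) p ≤ p' ∧ (levs (a * q)).card +
        (if 3 ≤ n + 1 ∧ (levs (a * q)).Nonempty then 1 else 0) + p ≤
      (levs (qt p x a * qt2 p p' x q)).card +
        (if 3 ≤ n ∧ (levs (qt p x a * qt2 p p' x q)).Nonempty then 1 else 0) + n +
          kmax (a * q) p := by
  classical
  have hmul : qt p x a * qt2 p p' x q = qt2 p p' x (a * q) := by
    rw [qt2_mul hx1 hx1 hax, qt2_self]
  rw [hmul]
  set M := a * q with hM
  have hMd : M.det ≠ 0 := by rw [hM, det_mul]; exact mul_ne_zero had hqd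
  have hMz : M *ᵥ z = l • x := by rw [hM, ← Matrix.mulVec_mulVec, hqz, hax]
  have hl : l ≠ 0 := by
    rintro rfl
    rw [zero_smul] at hax
    have := Matrix.eq_zero_of_mulVec_eq_zero had hax
    rw [this] at hx1
    simp at hx1
  -- `k ≤ p ↔ k ≤ p'` on the levels
  have hk1 : ∀ k ∈ levs M, k ≤ (p : ℕ) → k ≤ (p' : ℕ) := by
    intro k hk hkp
    by_contra hcon
    push Not at hcon
    obtain ⟨-, hk2⟩ := mem_levs.1 hk
    have h1 : (M *ᵥ z) p = 0 := by
      rw [Matrix.mulVec, dotProduct]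
      refine Finset.sum_eq_zero fun j _ => ?_
      by_cases hj : (j : ℕ) < k
      · rw [hk2 p j hkp hj, zero_mul]
      · rw [hz0 j (by rw [Fin.lt_def]; omega), mul_zero]
    rw [hMz, Pi.smul_apply, hx1, smul_eq_mul, mul_one] at h1
    exact hl h1
  have hk1' : ∀ k ∈ levs M, k ≤ (p' : ℕ) → k ≤ (p : ℕ) := by
    intro k hk hkp
    by_contra hcon
    push Not at hcon
    have h1 := inv_stable hMd hk (z := z) (by
      intro i hi
      rw [hMz, Pi.smul_apply, hx0 i (by rw [Fin.lt_def]; omega), smul_zero]) p' hkp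
    exact hz1 h1
  have hmaxle : ∀ k ∈ levs M, k ≤ (p : ℕ) → k ≤ kmax M p := by
    intro k hk hkp
    exact Finset.le_sup (f := id) (Finset.mem_filter.2 ⟨hk, hkp⟩)
  have hmax1 : kmax M p ≤ p' := by
    refine Finset.sup_le fun k hk => ?_
    rw [Finset.mem_filter] at hk
    exact hk1 k hk.1 hk.2
  refine ⟨hmax1, ?_⟩
  -- the levels of the quotient
  have hA : ∀ k ∈ levs M, k ≤ (p' : ℕ) → k < n → k ∈ levs (qt2 p p' x M) := by
    intro k hk hkp hkn
    obtain ⟨⟨h1, -⟩, hk2⟩ := mem_levs.1 hk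
    refine mem_levs.2 ⟨⟨h1, hkn⟩, fun i j hi hj => ?_⟩
    have hjj : ((p'.succAbove j : Fin (n + 1)) : ℕ) < k := by
      have : p'.succAbove j = j.castSucc :=
        Fin.succAbove_of_castSucc_lt _ _ (by rw [Fin.lt_def]; simp; omega)
      rw [this]; simpa using hj
    have hii : k ≤ ((p.succAbove i : Fin (n + 1)) : ℕ) := by
      have : (i : ℕ) ≤ ((p.succAbove i : Fin (n + 1)) : ℕ) := by
        rw [Fin.succAbove]; split_ifs <;> simp
      omega
    rw [qt2, hk2 _ _ hii hjj, hk2 p _ (hk1' k hk hkp) hjj]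
    simp
  have hB : ∀ k ∈ levs M, (p' : ℕ) < k → 2 ≤ k → k - 1 ∈ levs (qt2 p p' x M) := by
    intro k hk hkp hk22
    obtain ⟨⟨h1, h1'⟩, hk2⟩ := mem_levs.1 hk
    have hpk : (p : ℕ) < k := by
      by_contra hcon
      push Not at hcon
      have := hk1 k hk hcon
      omega
    refine mem_levs.2 ⟨⟨by omega, by omega⟩, fun i j hi hj => ?_⟩
    have hjj : ((p'.succAbove j : Fin (n + 1)) : ℕ) < k := by
      have : ((p'.succAbove j : Fin (n + 1)) : ℕ) ≤ (j : ℕ) + 1 := by
        rw [Fin.succAbove]; split_ifs <;> simp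
      omega
    have hii : k ≤ ((p.succAbove i : Fin (n + 1)) : ℕ) := by
      have : p.succAbove i = i.succ :=
        Fin.succAbove_of_le_castSucc _ _ (by rw [Fin.le_def]; simp; omega)
      rw [this]; simp; omega
    rw [qt2, hk2 _ _ hii hjj, hx0 (p.succAbove i) (by rw [Fin.lt_def]; omega)]
    simp
  set F := levs M with hF
  set F' := levs (qt2 p p' x M) with hF'
  have hFr : ∀ k ∈ F, 1 ≤ k ∧ k ≤ n := fun k hk => by
    have := (mem_levs.1 hk).1
    omega
  set G1 := F.filter (fun k => k ≤ (p' : ℕ)) with hG1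
  set G2 := F.filter (fun k => ¬ k ≤ (p' : ℕ)) with hG2
  have hcard : G1.card + G2.card = F.card := Finset.card_filter_add_card_filter_not _
  have hA1 : G1.erase n ⊆ F' := by
    intro k hk
    rw [Finset.mem_erase, hG1, Finset.mem_filter] at hk
    have := hFr k hk.2.1
    exact hA k hk.2.1 hk.2.2 (by omega)
  have hA2 : (G2.erase 1).image (fun k => k - 1) ⊆ F' := by
    intro k' hk'
    rw [Finset.mem_image] at hk'
    obtain ⟨k, hk, rfl⟩ := hk'
    rw [Finset.mem_erase, hG2, Finset.mem_filter] at hk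
    have := hFr k hk.2.1
    exact hB k hk.2.1 (by omega) (by omega)
  have hA2card : ((G2.erase 1).image (fun k => k - 1)).card = (G2.erase 1).card := by
    refine Finset.card_image_of_injOn ?_
    intro k hk k' hk' h
    have h1 := hFr k (Finset.mem_filter.1 (Finset.mem_of_mem_erase (Finset.mem_coe.1 hk))).1
    have h2 := hFr k' (Finset.mem_filter.1 (Finset.mem_of_mem_erase (Finset.mem_coe.1 hk'))).1
    simp only at h
    omega
  have hunion : (G1.erase n ∪ (G2.erase 1).image (fun k => k - 1)).card ≤ F'.card :=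
    Finset.card_le_card (Finset.union_subset hA1 hA2)
  have hui := Finset.card_union_add_card_inter (G1.erase n) ((G2.erase 1).image (fun k => k - 1))
  have hinter : G1.erase n ∩ (G2.erase 1).image (fun k => k - 1) ⊆
      ({(p' : ℕ)} : Finset ℕ).filter (fun k => k ∈ F ∧ k + 1 ∈ F) := by
    intro k hk
    rw [Finset.mem_inter, Finset.mem_image] at hk
    obtain ⟨h1, k', h2, h3⟩ := hk
    rw [Finset.mem_erase, hG1, Finset.mem_filter] at h1
    rw [Finset.mem_erase, hG2, Finset.mem_filter] at h2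
    have := hFr k' h2.2.1
    rw [Finset.mem_filter, Finset.mem_singleton]
    have hkk : k' = k + 1 := by omega
    subst hkk
    refine ⟨by omega, h1.2.1, h2.2.1⟩
  have hinterc := Finset.card_le_card hinter
  have hpn : (p : ℕ) ≤ n := by have := p.2; omega
  have hpn' : (p' : ℕ) ≤ n := by have := p'.2; omega
  have he : (if 3 ≤ n + 1 ∧ F.Nonempty then 1 else 0) ≤ 1 := by split_ifs <;> omega
  by_cases hcA : n ∈ G1
  · -- `p = p' = n`
    rw [hG1, Finset.mem_filter] at hcA
    have hp'n : (p' : ℕ) = n := by omega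
    have hpn2 : (p : ℕ) = n := by
      have := hk1' n hcA.1 hcA.2
      omega
    have hn1 := (hFr n hcA.1).1
    have hG2e : G2 = ∅ := by
      rw [hG2, Finset.filter_eq_empty_iff]
      intro k hk
      have := hFr k hk
      omega
    have hkm := hmaxle n hcA.1 (by omega)
    rw [hG2e, Finset.card_empty] at hcard
    have h1 : (G1.erase n).card = G1.card - 1 :=
      Finset.card_erase_of_mem (by rw [hG1, Finset.mem_filter]; exact hcA)
    have h2 : (G1.erase n).card ≤ F'.card := Finset.card_le_card hA1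
    by_cases hn2 : 2 ≤ n
    · omega
    · have : ¬ (3 ≤ n + 1 ∧ F.Nonempty) := by omega
      rw [if_neg this]
      omega
  by_cases hcB : 1 ∈ G2
  · rw [hG2, Finset.mem_filter] at hcB
    have hp'0 : (p' : ℕ) = 0 := by omega
    have hp0 : (p : ℕ) = 0 := by
      by_contra hcon
      have := hk1 1 hcB.1 (by omega)
      omega
    have hn1 := (hFr 1 hcB.1).2
    have hG1e : G1 = ∅ := by
      rw [hG1, Finset.filter_eq_empty_iff]
      intro k hk
      have := hFr k hk
      omega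
    rw [hG1e, Finset.card_empty] at hcard
    have h1 : (G2.erase 1).card = G2.card - 1 :=
      Finset.card_erase_of_mem (by rw [hG2, Finset.mem_filter]; exact hcB)
    have h2 := Finset.card_le_card hA2
    rw [hA2card] at h2
    by_cases hn2 : 2 ≤ n
    · omega
    · have : ¬ (3 ≤ n + 1 ∧ F.Nonempty) := by omega
      rw [if_neg this]
      omega
  rw [Finset.erase_eq_of_notMem hcA] at hunion hui hinterc
  rw [hA2card, Finset.erase_eq_of_notMem hcB] at hui
  rw [Finset.erase_eq_of_notMem hcB] at hunion hinterc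
  by_cases hcC : (p' : ℕ) ∈ F ∧ (p' : ℕ) + 1 ∈ F
  · have h1 := hFr _ hcC.1
    have h2 := hFr _ hcC.2
    have h3 := hk1' _ hcC.1 le_rfl
    have h4 : ¬ ((p' : ℕ) + 1 ≤ p) := fun h => by
      have := hk1 _ hcC.2 h
      omega
    have h5 := hmaxle _ hcC.1 h3
    have h6 : (({(p' : ℕ)} : Finset ℕ).filter (fun k => k ∈ F ∧ k + 1 ∈ F)).card ≤ 1 :=
      (Finset.card_filter_le _ _).trans (by simp)
    omega
  · have h6 : (({(p' : ℕ)} : Finset ℕ).filter (fun k => k ∈ F ∧ k + 1 ∈ F)).card = 0 := by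
      rw [Finset.card_eq_zero, Finset.filter_eq_empty_iff]
      intro k hk
      rw [Finset.mem_singleton] at hk
      subst hk
      exact hcC
    have h7 : F.card ≤ F'.card := by omega
    by_cases hne : 3 ≤ n + 1 ∧ F.Nonempty
    · rw [if_pos hne]
      by_cases hpn3 : (p : ℕ) < n
      · omega
      · obtain ⟨k, hk⟩ := hne.2
        have h8 := hFr k hk
        have h9 := hmaxle k hk (by omega)
        omega
    · rw [if_neg hne]
      omega

end Pool.Agent.MP_3f0e22_ag.Q1

namespace Pool.Agent.MP_3f0e22_ag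

alias boundQ_lev := Q1.boundQ_lev

end Pool.Agent.MP_3f0e22_ag
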