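import Pool.Agent.MP_3f0e22_ag.RK2
import Pool.Agent.MP_3f0e22_ag.CHN

/-! # MP_3f0e22_ag, version 2: row SP1 (generic eigenvectors) -/

set_option autoImplicit false

open Matrix MvPolynomial

namespace Pool.Agent.MP_3f0e22_ag.SP1

variable {K E : Type*} [Field K] [Field E] [Algebra K E]

/-- The vectors of `V` whose coordinate `i` is zero. -/
theorem finrank_inf_ker {m : ℕ} (V : Submodule E (Fin m → E)) (i : Fin m) (v : Fin m → E)
    (hv : v ∈ V) (h : v i ≠ 0) :
    Module.finrank E (V ⊓ LinearMap.ker (LinearMap.proj i : (Fin m → E) →ₗ[E] E) :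
      Submodule E (Fin m → E)) + 1 = Module.finrank E V := by
  set f : Module.Dual E V := (LinearMap.proj i : (Fin m → E) →ₗ[E] E).domRestrict V with hf
  have hf0 : f ≠ 0 := by
    intro h0
    have := LinearMap.congr_fun h0 ⟨v, hv⟩
    exact h (by simpa [hf] using this)
  rw [← Module.Dual.finrank_ker_add_one_of_ne_zero hf0]
  congr 1
  have h1 : (V ⊓ LinearMap.ker (LinearMap.proj i : (Fin m → E) →ₗ[E] E) :
      Submodule E (Fin m → E)) = (LinearMap.ker f).map V.subtype := by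
    ext w
    simp only [Submodule.mem_inf, LinearMap.mem_ker, Submodule.mem_map, Submodule.subtype_apply,
      Subtype.exists, exists_and_right, exists_eq_right]
    constructor
    · rintro ⟨h1, h2⟩
      exact ⟨h1, by simpa [hf] using h2⟩
    · rintro ⟨h1, h2⟩
      exact ⟨h1, by simpa [hf] using h2⟩
  rw [h1, Submodule.finrank_map_subtype_eq]

/-- A generic point of an affine space. -/
theorem exists_generic (hU : Univ K E) {m : ℕ} (d : ℕ) (V : Submodule E (Fin m → E))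
    (hd : Module.finrank E V = d) (x₀ : Fin m → E) (A : Set E) (hA : A.Finite) :
    ∃ v ∈ V, rk K A + d ≤ rk K (A ∪ Set.range (x₀ + v)) := by
  induction d generalizing V x₀ A with
  | zero =>
    exact ⟨0, V.zero_mem, rk_mono (hA.union (Set.finite_range _))
      (Set.subset_union_left.trans (subset_acl _))⟩
  | succ d ih =>
    obtain ⟨v₀, hv₀, i, hi⟩ : ∃ v₀ ∈ V, ∃ i, v₀ i ≠ 0 := by
      by_contra hcon
      push Not at hcon
      have hV : V = ⊥ := by
        rw [Submodule.eq_bot_iff]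
        intro v hv
        funext i
        exact hcon v hv i
      rw [hV, finrank_bot] at hd
      omega
    obtain ⟨ξ, hξ⟩ := hU A hA
    have h1 := finrank_inf_ker V i v₀ hv₀ hi
    obtain ⟨v', hv', hr⟩ := ih (V ⊓ LinearMap.ker (LinearMap.proj i : (Fin m → E) →ₗ[E] E))
      (by omega) (x₀ + ((ξ - x₀ i) / v₀ i) • v₀) (insert ξ A) (hA.insert ξ)
    have hv'0 : v' i = 0 := by simpa using hv'.2
    refine ⟨((ξ - x₀ i) / v₀ i) • v₀ + v', V.add_mem (V.smul_mem _ hv₀) hv'.1, ?_⟩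
    rw [rk_insert hA hξ] at hr
    have h2 : insert ξ A ∪ Set.range (x₀ + ((ξ - x₀ i) / v₀ i) • v₀ + v') =
        A ∪ Set.range (x₀ + (((ξ - x₀ i) / v₀ i) • v₀ + v')) := by
      rw [← add_assoc, Set.insert_union, Set.insert_eq_of_mem]
      refine Or.inr ⟨i, ?_⟩
      simp only [Pi.add_apply, Pi.smul_apply, smul_eq_mul, hv'0]
      field_simp
      ring
    rw [h2] at hr
    omega

theorem exists_eig (hU : Univ K E) {n : ℕ} (M : Mat (n + 1) E) (A : Set E) (hA : A.Finite)
    (hM : ent M ⊆ acl K A) (l : E) (hl : M.charpoly.eval l = 0) :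
    ∃ (p : Fin (n + 1)) (x : Fin (n + 1) → E), x p = 1 ∧ (∀ i, p < i → x i = 0) ∧
      M *ᵥ x = l • x ∧
      rk K A + Module.finrank E (LinearMap.ker (M - scalar (Fin (n + 1)) l).mulVecLin) ≤
        rk K (A ∪ Set.range x) + 1 := by
  classical
  have hker : ∀ v : Fin (n + 1) → E,
      v ∈ LinearMap.ker (M - scalar (Fin (n + 1)) l).mulVecLin ↔ M *ᵥ v = l • v := by
    intro v
    rw [LinearMap.mem_ker, Matrix.mulVecLin_apply, Matrix.sub_mulVec, sub_eq_zero]
    have : (scalar (Fin (n + 1)) l) *ᵥ v = l • v := by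
      ext i
      simp [Matrix.scalar_apply, Matrix.mulVec_diagonal]
    rw [this]
  set V := LinearMap.ker (M - scalar (Fin (n + 1)) l).mulVecLin with hV
  obtain ⟨v, hv0, hv⟩ : ∃ v ≠ 0, (scalar (Fin (n + 1)) l - M) *ᵥ v = 0 := by
    rw [Matrix.exists_mulVec_eq_zero_iff, ← Matrix.eval_charpoly, hl]
  have hvV : v ∈ V := by
    rw [hV, LinearMap.mem_ker, Matrix.mulVecLin_apply, ← neg_sub, Matrix.neg_mulVec, hv, neg_zero]
  -- the last index `p`
  set I : Finset (Fin (n + 1)) := Finset.univ.filter fun i => ∃ v ∈ V, v i ≠ 0 with hI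
  have hIne : I.Nonempty := by
    obtain ⟨i, hi⟩ := Function.ne_iff.1 hv0
    exact ⟨i, by rw [hI, Finset.mem_filter]; exact ⟨Finset.mem_univ _, v, hvV, hi⟩⟩
  obtain ⟨v₁, hv₁, hp⟩ : ∃ v ∈ V, v (I.max' hIne) ≠ 0 := by
    exact (Finset.mem_filter.1 (I.max'_mem hIne)).2
  set p := I.max' hIne with hpdef
  have hlast : ∀ w ∈ V, ∀ i, p < i → w i = 0 := by
    intro w hw i hi
    by_contra hne
    have : i ∈ I := by
      rw [hI, Finset.mem_filter]
      exact ⟨Finset.mem_univ _, w, hw, hne⟩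
    exact absurd (I.le_max' i this) (not_le.2 hi)
  have h1 := finrank_inf_ker V p v₁ hv₁ hp
  obtain ⟨w, hw, hr⟩ := exists_generic hU _
    (V ⊓ LinearMap.ker (LinearMap.proj p : (Fin (n + 1) → E) →ₗ[E] E)) rfl
    ((v₁ p)⁻¹ • v₁) A hA
  have hxV : (v₁ p)⁻¹ • v₁ + w ∈ V := V.add_mem (V.smul_mem _ hv₁) hw.1
  have hw0 : w p = 0 := by simpa using hw.2
  refine ⟨p, (v₁ p)⁻¹ • v₁ + w, ?_, fun i hi => hlast _ hxV i hi, (hker _).1 hxV, by omega⟩
  simp only [Pi.add_apply, Pi.smul_apply, smul_eq_mul, hw0, add_zero]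
  exact inv_mul_cancel₀ hp

end Pool.Agent.MP_3f0e22_ag.SP1

namespace Pool.Agent.MP_3f0e22_ag

alias exists_eig := SP1.exists_eig

end Pool.Agent.MP_3f0e22_ag
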