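import Pool.Agent.MP_3f0e22_ag.Defs3
import Pool.Agent.MP_3f0e22_ag.RK2
import Pool.Agent.MP_3f0e22_ag.CHN

set_option autoImplicit false

open Matrix

namespace Pool.Agent.MP_3f0e22_ag.V3_CF1

variable {K E : Type*} [Field K] [Field E] [Algebra K E]

theorem Ch.frame {r : ℕ} {M : Mat r E} {S : Set E} (h : Ch r M S) :
    ∃ f v : Mat r E, f.det ≠ 0 ∧ ent f ⊆ acl K S ∧ (∀ i j, j < i → v i j = 0) ∧
      M * f = f * v := by
  induction r generalizing S with
  | zero =>
    refine ⟨1, 1, by simp, ?_, fun i => i.elim0, by rw [Matrix.mul_one, Matrix.mul_one]; exact Subsingleton.elim _ _⟩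
    rintro _ ⟨i, _⟩
    exact i.elim0
  | succ n ih =>
    obtain ⟨p, x, l, S', hp, _, hM, hS', rfl⟩ := h
    obtain ⟨f', v', hf', hent, hv', hMf⟩ := ih hS'
    let f : Mat (n + 1) E := fun i j =>
      Fin.cases (motive := fun _ => E) (x i) (fun j' => (p.insertNth (0 : E) (fun i' => f' i' j') : Fin (n + 1) → E) i) j
    let v : Mat (n + 1) E := fun i j =>
      Fin.cases (motive := fun _ => E) (Fin.cases (motive := fun _ => E) l (fun _ => 0) i)
        (fun j' => Fin.cases (motive := fun _ => E) (∑ k, M p (p.succAbove k) * f' k j')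
          (fun i' => v' i' j') i) j
    have f0 : ∀ i, f i 0 = x i := fun i => rfl
    have fp : ∀ j, f p (Fin.succ j) = 0 := fun j => by
      show (p.insertNth (0 : E) (fun i' => f' i' j) : Fin (n + 1) → E) p = 0
      simp
    have fs : ∀ i j, f (p.succAbove i) (Fin.succ j) = f' i j := fun i j => by
      show (p.insertNth (0 : E) (fun i' => f' i' j) : Fin (n + 1) → E) (p.succAbove i) = _
      simp
    have v00 : v 0 0 = l := rfl
    have vs0 : ∀ i : Fin n, v i.succ 0 = 0 := fun i => rfl
    have v0s : ∀ j : Fin n, v 0 j.succ = ∑ k, M p (p.succAbove k) * f' k j := fun j => rfl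
    have vss : ∀ i j : Fin n, v i.succ j.succ = v' i j := fun i j => rfl
    refine ⟨f, v, ?_, ?_, ?_, ?_⟩
    · rw [Matrix.det_succ_row f p, Fin.sum_univ_succ]
      have h0 : ∑ j : Fin n, (-1) ^ ((p : ℕ) + (Fin.succ j : ℕ)) * f p (Fin.succ j) *
          (f.submatrix p.succAbove (Fin.succ j).succAbove).det = 0 := by
        refine Finset.sum_eq_zero fun j _ => ?_
        rw [fp]; ring
      rw [h0, add_zero, f0, hp, mul_one]
      have h1 : f.submatrix p.succAbove (Fin.succAbove 0) = f' := by
        ext i j
        rw [Matrix.submatrix_apply, Fin.succAbove_zero, fs]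
      rw [h1]
      exact mul_ne_zero (pow_ne_zero _ (neg_ne_zero.2 one_ne_zero)) hf'
    · rintro _ ⟨i, j, rfl⟩
      refine Fin.cases ?_ (fun j => ?_) j
      · exact subset_acl _ (Or.inl ⟨i, rfl⟩)
      · rcases Fin.eq_self_or_eq_succAbove p i with rfl | ⟨i, rfl⟩
        · show f i (Fin.succ j) ∈ _
          rw [fp]
          exact zero_mem _
        · show f (p.succAbove i) (Fin.succ j) ∈ _
          rw [fs]
          exact acl_mono Set.subset_union_right (hent ⟨i, j, rfl⟩)
    · intro i j hij
      revert hij
      refine Fin.cases ?_ (fun j => ?_) j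
      · refine Fin.cases ?_ (fun i => ?_) i
        · intro h; exact absurd h (lt_irrefl _)
        · intro _; exact vs0 i
      · refine Fin.cases ?_ (fun i => ?_) i
        · intro h; exact absurd h (Fin.not_lt_zero _)
        · intro h
          rw [vss]
          exact hv' i j (Fin.succ_lt_succ_iff.1 h)
    · ext i j
      rw [Matrix.mul_apply, Matrix.mul_apply]
      refine Fin.cases ?_ (fun j => ?_) j
      · have e0 : ∑ k, f i k * v k 0 = x i * l := by
          rw [Fin.sum_univ_succ, Finset.sum_eq_zero (s := Finset.univ)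
            (f := fun k : Fin n => f i k.succ * v k.succ 0) (fun k _ => by rw [vs0, mul_zero]),
            add_zero, f0, v00]
        rw [e0]
        have := congrFun hM i
        rw [Matrix.mulVec, dotProduct] at this
        rw [Finset.sum_congr rfl (fun k _ => by rw [f0]), this]
        simp [mul_comm]
      · have e1 : ∑ k, M i k * f k j.succ = ∑ k, M i (p.succAbove k) * f' k j := by
          rw [Fin.sum_univ_succAbove _ p, fp, mul_zero, zero_add]
          exact Finset.sum_congr rfl (fun k _ => by rw [fs])
        rw [e1, Fin.sum_univ_succ, f0, v0s]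
        simp only [vss]
        rcases Fin.eq_self_or_eq_succAbove p i with rfl | ⟨i, rfl⟩
        · rw [hp, one_mul, Finset.sum_eq_zero (s := Finset.univ) (f := fun k : Fin n => f i k.succ * v' k j) (fun k _ => by rw [fp, zero_mul]), add_zero]
        · have h2 := congrFun (congrFun hMf i) j
          rw [Matrix.mul_apply, Matrix.mul_apply] at h2
          have h3 : ∑ k : Fin n, f (p.succAbove i) k.succ * v' k j = ∑ k, f' i k * v' k j :=
            Finset.sum_congr rfl (fun k _ => by rw [fs])
          rw [h3, ← h2, Finset.mul_sum, ← Finset.sum_add_distrib]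
          refine Finset.sum_congr rfl fun k _ => ?_
          unfold qt
          ring

theorem Ch.bd {r : ℕ} {M : Mat r E} {S : Set E} (h : Ch r M S) (B : Set E) :
    Bd K B S (r * (r - 1) / 2) := by
  classical
  induction r generalizing S B with
  | zero =>
    have h0 : S = ∅ := h
    rw [h0]
    exact Bd.of_subset (Set.empty_subset _)
  | succ n ih =>
    obtain ⟨p, x, l, S', hp, _, hM, hS', rfl⟩ := h
    have h1 : Bd K B (Set.range x) n := by
      refine ⟨Finset.univ.image (fun i => x (p.succAbove i)), ?_, ?_⟩
      · exact Finset.card_image_le.trans (by simp)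
      · rintro _ ⟨i, rfl⟩
        rcases Fin.eq_self_or_eq_succAbove p i with rfl | ⟨i, rfl⟩
        · rw [hp]; exact one_mem _
        · refine subset_acl _ (Or.inr ?_)
          rw [Finset.coe_image]
          exact ⟨i, by simp, rfl⟩
    have h2 := h1.trans (ih hS' (B ∪ Set.range x))
    refine h2.mono (subset_acl _) (Set.subset_union_right.trans (subset_acl _)) ?_
    rw [Nat.add_sub_cancel]
    have : (n + 1) * n = 2 * n + n * (n - 1) := by
      cases n with
      | zero => rfl
      | succ k => simp; ring
    rw [this]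
    omega

end Pool.Agent.MP_3f0e22_ag.V3_CF1

namespace Pool.Agent.MP_3f0e22_ag

alias Ch.frame := V3_CF1.Ch.frame
alias Ch.bd := V3_CF1.Ch.bd

end Pool.Agent.MP_3f0e22_ag
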