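import Pool.Agent.MP_3f0e22_ag.VCF1
import Pool.Agent.MP_3f0e22_ag.Ba
import Pool.Agent.MP_3f0e22_ag.E1

/-!
# MP_3f0e22_ag, version 3: block CF2 (frames from chains, unipotent form)
-/

set_option autoImplicit false

open Matrix MvPolynomial

namespace Pool.Agent.MP_3f0e22_ag.V3_CF2

variable {K E : Type*} [Field K] [Field E] [Algebra K E] {r : ℕ}

/-- CF2 -/
theorem Ch.frame' {M : Mat r E} (hM : M.det ≠ 0) {S : Set E} (h : Ch r M S) :
    ∃ (f n : Mat r E) (c : Fin r → E), f.det ≠ 0 ∧ ent f ⊆ acl K S ∧ UpU n ∧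
      (∀ k, c k ≠ 0 ∧ c k ∈ acl K (cpc M)) ∧ M * f = f * (diagonal c * n) := by
  obtain ⟨f, v, hf, hfS, hv, hMf⟩ := Ch.frame (K := K) h
  have hvT : v.BlockTriangular id := fun i j hij => hv i j hij
  have hdet : M.det = v.det := by
    have h1 := congrArg Matrix.det hMf
    rw [Matrix.det_mul, Matrix.det_mul, mul_comm] at h1
    exact mul_left_cancel₀ hf h1
  have hprod : v.det = ∏ i, v i i := Matrix.det_of_isUpperTriangular hvT
  have hc0 : ∀ k, v k k ≠ 0 := by
    intro k hk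
    apply hM
    rw [hdet, hprod]
    exact Finset.prod_eq_zero (Finset.mem_univ k) hk
  have hchar : M.charpoly = v.charpoly := by
    obtain ⟨u, hu⟩ : IsUnit f := (Matrix.isUnit_iff_isUnit_det f).2 (isUnit_iff_ne_zero.2 hf)
    subst hu
    have h2 : M = (u : Mat r E) * v * ((u⁻¹ : (Mat r E)ˣ) : Mat r E) := by
      rw [← hMf, mul_assoc, Units.mul_inv, mul_one]
    rw [h2, Matrix.charpoly_mul_comm, ← mul_assoc, Units.inv_mul, one_mul]
  refine ⟨f, diagonal (fun k => (v k k)⁻¹) * v, fun k => v k k, hf, hfS, ⟨?_, ?_⟩, ?_, ?_⟩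
  · intro i
    rw [Matrix.diagonal_mul]
    exact inv_mul_cancel₀ (hc0 i)
  · intro i j hij
    rw [Matrix.diagonal_mul, hv i j hij, mul_zero]
  · intro k
    refine ⟨hc0 k, acl_isAlg (p := M.charpoly) (fun i => subset_acl (cpc M) (Set.mem_range_self i))
      (Matrix.charpoly_monic M).ne_zero ?_⟩
    rw [hchar, Matrix.charpoly_of_isUpperTriangular v hvT, Polynomial.eval_prod]
    exact Finset.prod_eq_zero (Finset.mem_univ k) (by simp)
  · rw [hMf, ← mul_assoc (diagonal fun k => v k k), Matrix.diagonal_mul_diagonal]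
    have h3 : (fun i => v i i * (v i i)⁻¹) = fun _ : Fin r => (1 : E) := by
      funext i
      exact mul_inv_cancel₀ (hc0 i)
    rw [h3, Matrix.diagonal_one, one_mul]

end Pool.Agent.MP_3f0e22_ag.V3_CF2

namespace Pool.Agent.MP_3f0e22_ag

alias Ch.frame' := V3_CF2.Ch.frame'

end Pool.Agent.MP_3f0e22_ag
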