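import Pool.Agent.MP_3f0e22_ag.VTD

set_option autoImplicit false

open Matrix MvPolynomial NumberField

namespace Pool.Agent.MP_3f0e22_ag.V3_CUT1

/-- the polynomial `w ↦ F (A diag(w) B)` -/
noncomputable def subst {Ω : Type} [Field Ω] {r : ℕ} (A B : Mat r Ω)
    (F : MvPolynomial (Fin r × Fin r) Ω) : MvPolynomial (Fin r) Ω :=
  bind₁ (fun x : Fin r × Fin r => ∑ k, C (A x.1 k) * X k * C (B k x.2)) F

theorem eval_subst {Ω : Type} [Field Ω] {r : ℕ} (A B : Mat r Ω)
    (F : MvPolynomial (Fin r × Fin r) Ω) (w : Fin r → Ω) :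
    eval w (subst A B F) = eval (fun x => (A * diagonal w * B) x.1 x.2) F := by
  unfold subst
  rw [← MvPolynomial.coe_aeval_eq_eval, ← MvPolynomial.coe_aeval_eq_eval]
  show (aeval w) ((bind₁ _) F) = (aeval _) F
  rw [aeval_bind₁]
  congr 1
  apply MvPolynomial.algHom_ext
  intro x
  rw [aeval_X, aeval_X]
  simp only [map_sum, map_mul, aeval_C, aeval_X, Algebra.algebraMap_self, RingHom.id_apply]
  rw [Matrix.mul_apply]
  apply Finset.sum_congr rfl
  intro k _
  rw [Matrix.mul_diagonal]

/-- a matrix commuting with a diagonal matrix with distinct entries is diagonal -/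
theorem diag_of_comm {Ω : Type} [Field Ω] {r : ℕ} (d : Fin r → Ω)
    (hd : ∀ k l, k ≠ l → d k ≠ d l) (w : Mat r Ω) (h : diagonal d * w = w * diagonal d) :
    w = diagonal (fun k => w k k) := by
  ext k l
  by_cases hkl : k = l
  · rw [hkl, diagonal_apply_eq]
  · rw [diagonal_apply_ne _ hkl]
    have h1 := congrFun (congrFun h k) l
    rw [Matrix.diagonal_mul, Matrix.mul_diagonal] at h1
    have h2 : (d k - d l) * w k l = 0 := by
      rw [sub_mul, h1]; ring
    rcases mul_eq_zero.1 h2 with h3 | h3
    · exact absurd (sub_eq_zero.1 h3) (hd k l hkl)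
    · exact h3

/-- CUT1: all the matrices `b` which conjugate `M₁` to `M₂`. -/
theorem conj_density {O O' Ω : Type} [CommRing O] [IsDomain O] [CommRing O'] [IsDomain O']
    [Field Ω] (i : O →+* O') (ι : O' →+* Ω) (hι : Function.Injective ι) {r : ℕ} (v : O'ˣ)
    (hv : ∀ m : ℤ, v ^ m = 1 → m = 0) (t : Fin r → Oˣ)
    (ht : ∀ k l, k ≠ l → i (t k : O) ≠ i (t l : O)) (M₁ M₂ : Mat r O)
    (h₁ : ∃ k k' : Mat r O', k * k' = 1 ∧ M₁.map i * k = k * diagonal (fun j => i (t j : O)))
    (h₂ : ∃ k k' : Mat r O', k * k' = 1 ∧ M₂.map i * k = k * diagonal (fun j => i (t j : O)))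
    (F : MvPolynomial (Fin r × Fin r) Ω)
    (hF : ∀ b : Mat r O', b.det = 1 → b * M₁.map i = M₂.map i * b →
      eval (fun x => ι (b x.1 x.2)) F = 0)
    (b : Mat r Ω) (hb : b.det = 1)
    (hM : b * M₁.map (ι.comp i) = M₂.map (ι.comp i) * b) : eval (fun x => b x.1 x.2) F = 0 := by
  rcases Nat.eq_zero_or_pos r with hr | hr
  · subst hr
    have h1 := hF 1 (by simp) (by ext k; exact k.elim0)
    have h2 : (fun x : Fin 0 × Fin 0 => b x.1 x.2) = fun x => ι ((1 : Mat 0 O') x.1 x.2) :=
      funext fun x => x.1.elim0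
    rw [h2]
    exact h1
  obtain ⟨k1, k1', hk1, hd1⟩ := h₁
  obtain ⟨k2, k2', hk2, hd2⟩ := h₂
  set d : Fin r → O' := fun j => i (t j : O) with hd
  have hk1c : k1' * k1 = 1 := mul_eq_one_comm.1 hk1
  have hk2c : k2' * k2 = 1 := mul_eq_one_comm.1 hk2
  have hd1' : k1' * M₁.map i = diagonal d * k1' := by
    calc k1' * M₁.map i = k1' * M₁.map i * (k1 * k1') := by rw [hk1, Matrix.mul_one]
      _ = k1' * (M₁.map i * k1) * k1' := by simp only [Matrix.mul_assoc]
      _ = (k1' * k1) * diagonal d * k1' := by rw [hd1]; simp only [Matrix.mul_assoc]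
      _ = diagonal d * k1' := by rw [hk1c, Matrix.one_mul]
  have hd2' : k2' * M₂.map i = diagonal d * k2' := by
    calc k2' * M₂.map i = k2' * M₂.map i * (k2 * k2') := by rw [hk2, Matrix.mul_one]
      _ = k2' * (M₂.map i * k2) * k2' := by simp only [Matrix.mul_assoc]
      _ = (k2' * k2) * diagonal d * k2' := by rw [hd2]; simp only [Matrix.mul_assoc]
      _ = diagonal d * k2' := by rw [hk2c, Matrix.one_mul]
  -- over Ω
  set A : Mat r Ω := k2.map ι with hA
  set A' : Mat r Ω := k2'.map ι with hA'
  set B : Mat r Ω := k1.map ι with hB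
  set B' : Mat r Ω := k1'.map ι with hB'
  have hmap : ∀ X Y : Mat r O', (X * Y).map ι = X.map ι * Y.map ι := fun X Y => Matrix.map_mul
  have hone : (1 : Mat r O').map ι = 1 := Matrix.map_one ι (map_zero ι) (map_one ι)
  have hAA : A * A' = 1 := by rw [hA, hA', ← hmap, hk2, hone]
  have hBB : B * B' = 1 := by rw [hB, hB', ← hmap, hk1, hone]
  set dΩ : Fin r → Ω := fun j => ι (d j) with hdΩ
  have hdiag : (diagonal d).map ι = diagonal dΩ := by
    rw [Matrix.diagonal_map (map_zero ι)]
  have hM1 : M₁.map (ι.comp i) = (M₁.map i).map ι := by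
    rw [Matrix.map_map]; rfl
  have hM2 : M₂.map (ι.comp i) = (M₂.map i).map ι := by
    rw [Matrix.map_map]; rfl
  have hM1B : (M₁.map i).map ι * B = B * diagonal dΩ := by
    rw [hB, ← hmap, hd1, hmap, hdiag]
  have hAM2 : A' * (M₂.map i).map ι = diagonal dΩ * A' := by
    rw [hA', ← hmap, hd2', hmap, hdiag]
  rw [hM1, hM2] at hM
  set w : Mat r Ω := A' * b * B with hw
  have hcomm : diagonal dΩ * w = w * diagonal dΩ := by
    calc diagonal dΩ * w = (diagonal dΩ * A') * b * B := by rw [hw]; simp only [Matrix.mul_assoc]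
      _ = A' * ((M₂.map i).map ι * b) * B := by rw [← hAM2]; simp only [Matrix.mul_assoc]
      _ = A' * b * ((M₁.map i).map ι * B) := by rw [← hM]; simp only [Matrix.mul_assoc]
      _ = w * diagonal dΩ := by rw [hM1B, hw]; simp only [Matrix.mul_assoc]
  have hwd := diag_of_comm dΩ (fun k l hkl h => ht k l hkl (hι h)) w hcomm
  have hbw : b = A * w * B' := by
    have hA1 : A * (A' * b * B) * B' = (A * A') * b * (B * B') := by
      simp only [Matrix.mul_assoc]
    rw [hw, hA1, hAA, hBB, Matrix.one_mul, Matrix.mul_one]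
  -- the determinants
  have hdetk1 : k1.det * k1'.det = 1 := by rw [← Matrix.det_mul, hk1, Matrix.det_one]
  have hdetk2 : k2.det * k2'.det = 1 := by rw [← Matrix.det_mul, hk2, Matrix.det_one]
  let u : O'ˣ := ⟨k1.det * k2'.det, k1'.det * k2.det, by
    calc k1.det * k2'.det * (k1'.det * k2.det) = (k1.det * k1'.det) * (k2.det * k2'.det) := by ring
      _ = 1 := by rw [hdetk1, hdetk2, one_mul], by
    calc k1'.det * k2.det * (k1.det * k2'.det) = (k1.det * k1'.det) * (k2.det * k2'.det) := by ring
      _ = 1 := by rw [hdetk1, hdetk2, one_mul]⟩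
  have hu : (u : O') = k1.det * k2'.det := rfl
  let z : Fin r := ⟨0, hr⟩
  let us : Fin r → O'ˣ := fun k => if k = z then u else 1
  have hus : ∏ k, us k = u := by
    simp only [us]
    rw [Finset.prod_ite_eq' Finset.univ z (fun _ => u)]
    simp
  -- apply the density of the units in the torus
  have key := torus_units (Ω := Ω) (r := r) (Units.map ι.toMonoidHom v) (by
      intro m hm
      apply hv
      apply Units.map_injective (f := ι.toMonoidHom) hι
      rw [map_zpow, hm, map_one]) (fun k => Units.map ι.toMonoidHom (us k))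
    (subst A B' F) (by
      intro m hm
      rw [eval_subst]
      set e : Fin r → O' := fun k => ((v ^ m k * us k : O'ˣ) : O') with he
      have h3 : (fun k => (((Units.map ι.toMonoidHom v) ^ m k *
          Units.map ι.toMonoidHom (us k) : Ωˣ) : Ω)) = fun k => ι (e k) := by
        ext k
        rw [← map_zpow, ← map_mul]
        rfl
      rw [h3]
      have h4 : diagonal (fun k => ι (e k)) = (diagonal e).map ι := by
        rw [Matrix.diagonal_map (map_zero ι)]
      rw [h4, hA, hB', ← hmap, ← hmap]
      have h5 : e = fun k => ((v ^ m k * us k : O'ˣ) : O') := he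
      have hdet : (k2 * diagonal e * k1').det = 1 := by
        rw [Matrix.det_mul, Matrix.det_mul, Matrix.det_diagonal]
        have h6 : ∏ k, e k = (u : O') := by
          rw [h5, ← Units.coe_prod, Finset.prod_mul_distrib, hus]
          have h7 : ∏ k, v ^ m k = 1 := by
            have h8 : ∏ k, v ^ m k = v ^ (∑ k, m k) := by
              induction (Finset.univ : Finset (Fin r)) using Finset.induction with
              | empty => simp
              | insert a s ha ih => rw [Finset.prod_insert ha, Finset.sum_insert ha, ih, _root_.zpow_add]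
            rw [h8, hm, zpow_zero]
          rw [h7, one_mul]
        rw [h6, hu]
        calc k2.det * (k1.det * k2'.det) * k1'.det
            = (k1.det * k1'.det) * (k2.det * k2'.det) := by ring
          _ = 1 := by rw [hdetk1, hdetk2, one_mul]
      refine hF (k2 * diagonal e * k1') hdet ?_
      calc k2 * diagonal e * k1' * M₁.map i = k2 * diagonal e * (k1' * M₁.map i) := by
            simp only [Matrix.mul_assoc]
        _ = k2 * (diagonal e * diagonal d) * k1' := by rw [hd1']; simp only [Matrix.mul_assoc]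
        _ = k2 * (diagonal d * diagonal e) * k1' := by
            rw [Matrix.diagonal_mul_diagonal, Matrix.diagonal_mul_diagonal]
            simp only [mul_comm]
        _ = (k2 * diagonal d) * diagonal e * k1' := by simp only [Matrix.mul_assoc]
        _ = M₂.map i * (k2 * diagonal e * k1') := by rw [← hd2]; simp only [Matrix.mul_assoc])
    (fun k => w k k) (by
      have h9 : (diagonal (fun k => w k k)).det = ∏ k, w k k := Matrix.det_diagonal
      rw [← h9, ← hwd, hw, Matrix.det_mul, Matrix.det_mul, hb, mul_one]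
      have h10 : ∏ k, ((Units.map ι.toMonoidHom (us k) : Ωˣ) : Ω) = ι (u : O') := by
        rw [← hus, Units.coe_prod, map_prod]
        rfl
      rw [h10, hu, map_mul, hA', hB]
      have h11 : (k2'.map ι).det = ι k2'.det := (RingHom.map_det ι k2').symm
      have h12 : (k1.map ι).det = ι k1.det := (RingHom.map_det ι k1).symm
      rw [h11, h12, mul_comm])
  rw [eval_subst, ← hwd, ← hbw] at key
  exact key

end Pool.Agent.MP_3f0e22_ag.V3_CUT1

namespace Pool.Agent.MP_3f0e22_ag

alias conj_density := V3_CUT1.conj_density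

end Pool.Agent.MP_3f0e22_ag
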