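import Pool.Agent.MP_3f0e22_ag.VRKc
import Pool.Agent.MP_3f0e22_ag.E1

set_option autoImplicit false

open Matrix

namespace Pool.Agent.MP_3f0e22_ag.V3_GCJ

variable {K E : Type*} [Field K] [Field E] [Algebra K E] {r : ℕ}

theorem one_le_zeta (hr : 1 ≤ r) (M : Mat r E) : 1 ≤ zeta M := by
  unfold zeta
  rw [Nat.one_le_iff_ne_zero, Ne, Submodule.finrank_eq_zero, ← Ne, Submodule.ne_bot_iff]
  refine ⟨1, ?_, ?_⟩
  · rw [LinearMap.mem_ker, LinearMap.sub_apply]
    simp
  · intro h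
    have := congrFun (congrFun h ⟨0, hr⟩) ⟨0, hr⟩
    simp at this

theorem generic_conj (hr : 1 ≤ r) {A : Set E} (hA : A.Finite) (Y γ : Mat r E)
    (hY : ent Y ⊆ acl K A) (hγ : γ.det = 1) (hg : rk K A + (r ^ 2 - 1) ≤ rk K (A ∪ ent γ)) :
    rk K (cpc Y) + r ^ 2 ≤ rk K (ent (γ * Y * γ.adjugate)) + zeta Y := by
  set Y' := γ * Y * γ.adjugate with hY'
  have hadj : γ.adjugate * γ = 1 := by rw [Matrix.adjugate_mul, hγ, one_smul]
  have hadj' : γ * γ.adjugate = 1 := by rw [Matrix.mul_adjugate, hγ, one_smul]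
  have hconj : γ * Y = Y' * γ := by
    rw [hY', mul_assoc (γ * Y), hadj, mul_one]
  have hz := one_le_zeta hr Y
  have hbd := boundZ (K := K) hr (A ∪ ent Y') γ Y Y'
    (hY.trans (acl_mono Set.subset_union_left))
    (Set.subset_union_right.trans (subset_acl _)) hγ hconj
  have hfin : (A ∪ ent Y').Finite := hA.union (ent_finite _)
  have h1 := rk_union hfin hbd
  have h2 : rk K (A ∪ ent γ) ≤ rk K (A ∪ ent Y' ∪ ent γ) := by
    refine rk_mono (hfin.union (ent_finite _)) ((Set.union_subset ?_ ?_).trans (subset_acl _))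
    · exact Set.subset_union_left.trans Set.subset_union_left
    · exact Set.subset_union_right
  have hcp : Y'.charpoly = Y.charpoly := by
    let u : (Mat r E)ˣ := ⟨γ, γ.adjugate, hadj', hadj⟩
    exact E1_charpoly_conj Y u
  have hC : cpc Y ⊆ (acl K A : Set E) := E1_cpc hY
  have hC' : cpc Y ⊆ (acl K (ent Y') : Set E) := by
    have : cpc Y = cpc Y' := by unfold cpc; rw [hcp]
    rw [this]
    exact E1_cpc (subset_acl _)
  have h3 := rk_submod (K := K) (A := A) (B := ent Y') (C := cpc Y) hA (ent_finite _)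
    (E1_cpc_finite Y) hC
  have h4 : rk K (ent Y' ∪ cpc Y) ≤ rk K (ent Y') :=
    rk_mono (ent_finite _) (Set.union_subset (subset_acl _) hC')
  have hr2 : 1 ≤ r ^ 2 := Nat.one_le_pow _ _ hr
  omega

end Pool.Agent.MP_3f0e22_ag.V3_GCJ

namespace Pool.Agent.MP_3f0e22_ag

alias generic_conj := V3_GCJ.generic_conj

end Pool.Agent.MP_3f0e22_ag
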