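import Pool.Agent.MP_3f0e22_ag.VGX
import Pool.Agent.MP_3f0e22_ag.VDEN
import Pool.Agent.MP_3f0e22_ag.Gen2
import Pool.Agent.MP_3f0e22_ag.Asm2
import Pool.Agent.MP_3f0e22_ag.Sl

set_option autoImplicit false

open Matrix MvPolynomial

namespace Pool.Agent.MP_3f0e22_ag.V3_GSL

section

variable {F E : Type*} [Field F] [Field E] [Algebra F E] {s n : ℕ}

/-- The matrix of the variables (`0` at the position `(0, 0)`). -/
noncomputable def PP (F : Type*) [Field F] {s n : ℕ}
    (e : {x : Fin (s + 1) × Fin (s + 1) // x ≠ (0, 0)} → Fin n) :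
    Matrix (Fin (s + 1)) (Fin (s + 1)) (MvPolynomial (Fin n) F) :=
  fun i j => if h : (i, j) ≠ (0, 0) then X (e ⟨(i, j), h⟩) else 0

/-- The matrix with parameters `z` and entry `y` at the position `(0, 0)`. -/
noncomputable def Mx {E : Type*} {s n : ℕ}
    (e : {x : Fin (s + 1) × Fin (s + 1) // x ≠ (0, 0)} → Fin n) (z : Fin n → E) (y : E) :
    Matrix (Fin (s + 1)) (Fin (s + 1)) E :=
  fun i j => if h : (i, j) ≠ (0, 0) then z (e ⟨(i, j), h⟩) else y

variable (e : {x : Fin (s + 1) × Fin (s + 1) // x ≠ (0, 0)} → Fin n)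

/-- The minor. -/
noncomputable def mm (F : Type*) [Field F] {s n : ℕ}
    (e : {x : Fin (s + 1) × Fin (s + 1) // x ≠ (0, 0)} → Fin n) : MvPolynomial (Fin n) F :=
  ((PP F e).submatrix Fin.succ Fin.succ).det

theorem map_PP (z : Fin n → E) : (PP F e).map (aeval z) = Mx e z 0 := by
  ext i j
  simp only [Matrix.map_apply, PP, Mx]
  split_ifs <;> simp

theorem aeval_det (z : Fin n → E) : aeval z (PP F e).det = (Mx e z 0).det := by
  rw [AlgHom.map_det, ← map_PP (F := F) e z]
  rfl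

theorem aeval_mm (z : Fin n → E) :
    aeval z (mm F e) = ((Mx e z 0).submatrix Fin.succ Fin.succ).det := by
  rw [mm, AlgHom.map_det, ← map_PP (F := F) e z]
  rfl

theorem det_Mx (z : Fin n → E) (y : E) : (Mx e z y).det =
    (Mx e z 0).det + y * ((Mx e z 0).submatrix Fin.succ Fin.succ).det := by
  have hsub : ∀ j : Fin (s + 1), (Mx e z y).submatrix Fin.succ j.succAbove =
      (Mx e z 0).submatrix Fin.succ j.succAbove := by
    intro j
    ext a b
    simp only [submatrix_apply, Mx]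
    have h : (Fin.succ a, j.succAbove b) ≠ ((0 : Fin (s + 1)), (0 : Fin (s + 1))) := by
      intro h
      exact Fin.succ_ne_zero a (congrArg Prod.fst h)
    rw [dif_pos h, dif_pos h]
  have h0 : ∀ j : Fin s, Mx e z y 0 j.succ = Mx e z 0 0 j.succ := by
    intro j
    simp only [Mx]
    have h : ((0 : Fin (s + 1)), Fin.succ j) ≠ ((0 : Fin (s + 1)), (0 : Fin (s + 1))) := by
      intro h
      exact Fin.succ_ne_zero j (congrArg Prod.snd h)
    rw [dif_pos h, dif_pos h]
  have h00 : ∀ y : E, Mx e z y 0 0 = y := by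
    intro y
    simp [Mx]
  have hs0 : (Mx e z y).submatrix Fin.succ Fin.succ =
      (Mx e z 0).submatrix Fin.succ Fin.succ := by
    simpa only [Fin.succAbove_zero] using hsub 0
  rw [det_succ_row_zero, det_succ_row_zero, Fin.sum_univ_succ, Fin.sum_univ_succ]
  simp only [Fin.succAbove_zero, hs0, hsub, h0, h00, Fin.val_zero, pow_zero, one_mul, zero_mul,
    mul_zero, zero_add]
  ring

/-- The generic matrix of determinant `1`. -/
noncomputable def ga (z : Fin n → E) : Matrix (Fin (s + 1)) (Fin (s + 1)) E :=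
  Mx e z ((1 - (Mx e z 0).det) / ((Mx e z 0).submatrix Fin.succ Fin.succ).det)

theorem det_ga (z : Fin n → E) (h : ((Mx e z 0).submatrix Fin.succ Fin.succ).det ≠ 0) :
    (ga e z).det = 1 := by
  rw [ga, det_Mx]
  field_simp
  ring

/-- Clearing denominators. -/
theorem exists_phi (G : MvPolynomial (Fin (s + 1) × Fin (s + 1)) F) :
    ∃ (Φ : MvPolynomial (Fin n) F) (k : ℕ), ∀ z : Fin n → E, aeval z (mm F e) ≠ 0 →
      aeval z Φ = aeval z (mm F e) ^ k * aeval (fun x => ga e z x.1 x.2) G := by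
  induction G using MvPolynomial.induction_on with
  | C c =>
    refine ⟨C c, 0, fun z _ => ?_⟩
    simp
  | add p q hp hq =>
    obtain ⟨Φ₁, k₁, h₁⟩ := hp
    obtain ⟨Φ₂, k₂, h₂⟩ := hq
    refine ⟨mm F e ^ k₂ * Φ₁ + mm F e ^ k₁ * Φ₂, k₁ + k₂, fun z hz => ?_⟩
    rw [map_add, map_mul, map_mul, map_pow, map_pow, h₁ z hz, h₂ z hz, map_add]
    ring
  | mul_X p x hp =>
    obtain ⟨Φ, k, h⟩ := hp
    by_cases hx : (x.1, x.2) ≠ ((0 : Fin (s + 1)), (0 : Fin (s + 1)))
    · refine ⟨Φ * X (e ⟨(x.1, x.2), hx⟩), k, fun z hz => ?_⟩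
      rw [map_mul, map_mul, h z hz, aeval_X, aeval_X]
      have h1 : ga e z x.1 x.2 = z (e ⟨(x.1, x.2), hx⟩) := by
        simp only [ga, Mx]
        rw [dif_pos hx]
      rw [h1]
      ring
    · refine ⟨Φ * (1 - (PP F e).det), k + 1, fun z hz => ?_⟩
      rw [map_mul, map_mul, h z hz, aeval_X, map_sub, map_one, aeval_det]
      have h1 : ga e z x.1 x.2 =
          (1 - (Mx e z 0).det) / ((Mx e z 0).submatrix Fin.succ Fin.succ).det := by
        simp only [ga, Mx]
        rw [dif_neg hx]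
      rw [h1]
      rw [aeval_mm] at hz ⊢
      field_simp
      ring

end

section

variable {K E : Type*} [Field K] [Field E] [Algebra K E]

/-- GSL: a generic element of `SL_r`. -/
theorem exists_gamma [IsAlgClosed E] (hU : Univ K E) {r : ℕ} (hr : 1 ≤ r) {A : Set E}
    (hA : A.Finite) (G : MvPolynomial (Fin r × Fin r) E) (hG : ∀ d, G.coeff d ∈ acl K A)
    (h1 : eval (fun x => (1 : Mat r E) x.1 x.2) G ≠ 0) :
    ∃ γ : Mat r E, γ.det = 1 ∧ eval (fun x => γ x.1 x.2) G ≠ 0 ∧
      rk K A + (r ^ 2 - 1) ≤ rk K (A ∪ ent γ) := by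
  classical
  obtain ⟨s, rfl⟩ : ∃ s, r = s + 1 := ⟨r - 1, by omega⟩
  -- the parameters
  have hcard : Fintype.card {x : Fin (s + 1) × Fin (s + 1) // x ≠ (0, 0)} = (s + 1) ^ 2 - 1 := by
    rw [Fintype.card_subtype_compl, Fintype.card_prod, Fintype.card_fin]
    simp [sq]
  set n := (s + 1) ^ 2 - 1 with hn
  let e : {x : Fin (s + 1) × Fin (s + 1) // x ≠ (0, 0)} ≃ Fin n :=
    Fintype.equivFinOfCardEq hcard
  obtain ⟨x, hx⟩ := exists_indep (K := K) hU hA n
  -- the polynomial over the subfield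
  have h3 : G ∈ Set.range (MvPolynomial.map (σ := Fin (s + 1) × Fin (s + 1))
      (algebraMap (acl K A) E)) := by
    rw [MvPolynomial.mem_range_map_iff_coeffs_subset]
    intro c hc
    rw [Finset.mem_coe, MvPolynomial.mem_coeffs_iff] at hc
    obtain ⟨d, _, rfl⟩ := hc
    exact ⟨⟨_, hG d⟩, rfl⟩
  obtain ⟨G₀, rfl⟩ := h3
  obtain ⟨Φ, k, hΦ⟩ := exists_phi (E := E) (⇑e) G₀
  -- the identity
  have hid : ∀ y : E, y = 1 → Mx (⇑e) (fun i => (1 : Mat (s + 1) E) (e.symm i).1.1 (e.symm i).1.2) y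
      = 1 := by
    rintro y rfl
    ext i j
    simp only [Mx]
    split_ifs with h
    · show (1 : Mat (s + 1) E) (e.symm (e ⟨(i, j), h⟩)).1.1 (e.symm (e ⟨(i, j), h⟩)).1.2 = _
      rw [Equiv.symm_apply_apply]
    · have h' : (i, j) = ((0 : Fin (s + 1)), (0 : Fin (s + 1))) := not_not.1 h
      rw [Prod.mk.injEq] at h'
      rw [h'.1, h'.2, Matrix.one_apply_eq]
  set z₁ : Fin n → E := fun i => (1 : Mat (s + 1) E) (e.symm i).1.1 (e.symm i).1.2 with hz₁
  have hsub : (Mx (⇑e) z₁ 0).submatrix Fin.succ Fin.succ = 1 := by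
    have h2 : (Mx (⇑e) z₁ 0).submatrix Fin.succ Fin.succ =
        (Mx (⇑e) z₁ 1).submatrix Fin.succ Fin.succ := by
      ext a b
      simp only [submatrix_apply, Mx]
      have h : (Fin.succ a, Fin.succ b) ≠ ((0 : Fin (s + 1)), (0 : Fin (s + 1))) := by
        intro h
        exact Fin.succ_ne_zero a (congrArg Prod.fst h)
      rw [dif_pos h, dif_pos h]
    rw [h2, hid 1 rfl]
    exact Matrix.submatrix_one _ (Fin.succ_injective _)
  have hm₁ : aeval z₁ (mm (acl K A) (⇑e)) = 1 := by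
    rw [aeval_mm, hsub, det_one]
  have hdet₁ : (Mx (⇑e) z₁ 0).det = 0 := by
    have h2 := det_Mx (⇑e) z₁ 1
    rw [hid 1 rfl, hsub, det_one, det_one, mul_one] at h2
    exact (add_eq_right.1 h2.symm)
  have hga₁ : ga (⇑e) z₁ = 1 := by
    rw [ga, hdet₁, hsub, det_one]
    exact hid _ (by simp)
  have hmne : mm (acl K A) (⇑e) ≠ 0 := by
    intro h
    rw [h, map_zero] at hm₁
    exact zero_ne_one hm₁
  have hΦne : Φ ≠ 0 := by
    intro h
    have h2 := hΦ z₁ (by rw [hm₁]; exact one_ne_zero)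
    rw [h, map_zero, hm₁, one_pow, one_mul, hga₁] at h2
    apply h1
    rw [eval_map, ← aeval_def]
    exact h2.symm
  -- values at generic points
  have hgen : ∀ p : MvPolynomial (Fin n) (acl K A), p ≠ 0 → aeval x p ≠ 0 := by
    intro p hp
    have h2 := eval_ne_of_indep (K := K) hA x hx.ge (MvPolynomial.map (algebraMap (acl K A) E) p)
      (fun d => by
        rw [coeff_map]
        exact (coeff d p).2)
      (by
        intro h
        exact hp ((map_injective _ (algebraMap (acl K A) E).injective) (by rw [h, map_zero])))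
    rw [eval_map, ← aeval_def] at h2
    exact h2
  have hmx := hgen _ hmne
  refine ⟨ga (⇑e) x, det_ga (⇑e) x ?_, ?_, ?_⟩
  · rw [aeval_mm] at hmx
    exact hmx
  · intro h
    rw [eval_map, ← aeval_def] at h
    have h2 := hΦ x hmx
    rw [h, mul_zero] at h2
    exact hgen _ hΦne h2
  · rw [← hx]
    refine rk_mono (hA.union (ent_finite _)) ?_
    refine Set.Subset.trans (Set.union_subset_union_right A ?_) (subset_acl _)
    rintro _ ⟨i, rfl⟩
    have h2 : ga (⇑e) x (e.symm i).1.1 (e.symm i).1.2 = x i := by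
      simp only [ga, Mx]
      have h : ((e.symm i).1.1, (e.symm i).1.2) ≠ ((0 : Fin (s + 1)), (0 : Fin (s + 1))) :=
        (e.symm i).2
      rw [dif_pos h]
      simp
    rw [← h2]
    exact ⟨_, _, rfl⟩

end

end Pool.Agent.MP_3f0e22_ag.V3_GSL

namespace Pool.Agent.MP_3f0e22_ag

alias exists_gamma := V3_GSL.exists_gamma

end Pool.Agent.MP_3f0e22_ag
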