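import Pool.Agent.MP_3f0e22_ag.Defs3
import Pool.Agent.MP_3f0e22_ag.RK2

/-!
# MP_3f0e22_ag, version 3: block GX (independent parameters)
-/

set_option autoImplicit false

open Matrix MvPolynomial

namespace Pool.Agent.MP_3f0e22_ag.V3_GX

variable {K E : Type*} [Field K] [Field E] [Algebra K E]

/-- GX -/
theorem exists_indep (hU : Univ K E) {A : Set E} (hA : A.Finite) (n : ℕ) :
    ∃ x : Fin n → E, rk K (A ∪ Set.range x) = rk K A + n := by
  induction n with
  | zero =>
    refine ⟨Fin.elim0, ?_⟩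
    rw [Set.range_eq_empty, Set.union_empty, add_zero]
  | succ n ih =>
    obtain ⟨x, hx⟩ := ih
    have hfin : (A ∪ Set.range x).Finite := hA.union (Set.finite_range x)
    obtain ⟨y, hy⟩ := hU (A ∪ Set.range x) hfin
    refine ⟨Fin.cons y x, ?_⟩
    have h1 : A ∪ Set.range (Fin.cons y x : Fin (n + 1) → E) = insert y (A ∪ Set.range x) := by
      rw [Fin.range_cons, Set.union_insert]
    rw [h1, rk_insert hfin hy, hx, add_assoc]

/-- GX -/
theorem eval_ne_of_indep {A : Set E} (hA : A.Finite) {n : ℕ} (x : Fin n → E)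
    (hx : rk K A + n ≤ rk K (A ∪ Set.range x)) (p : MvPolynomial (Fin n) E)
    (hp : ∀ d, p.coeff d ∈ acl K A) (h0 : p ≠ 0) : eval x p ≠ 0 := by
  intro h
  rcases Nat.eq_zero_or_pos n with hn | hn
  · subst hn
    apply h0
    have h1 := MvPolynomial.eq_C_of_isEmpty p
    rw [h1, eval_C] at h
    rw [h1, h, C_0]
  · have h1 := rk_union hA (Bd.of_poly x p hp h0 h)
    omega

end Pool.Agent.MP_3f0e22_ag.V3_GX

namespace Pool.Agent.MP_3f0e22_ag

alias exists_indep := V3_GX.exists_indep
alias eval_ne_of_indep := V3_GX.eval_ne_of_indep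

end Pool.Agent.MP_3f0e22_ag
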