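import Pool.Agent.MP_3f0e22_ag.Defs3
import Pool.Agent.MP_3f0e22_ag.KRb

/-! # MP_3f0e22_ag, version 3, block KC: generic points of the closed case (Krull) -/

set_option autoImplicit false

open Matrix MvPolynomial

namespace Pool.Agent.MP_3f0e22_ag.V3_KC

open Pool.Agent.MP_3f0e22_ag

section

variable {R R' : Type*} [CommRing R] [CommRing R'] {r : ℕ}

theorem cval_map (φ : R →+* R') {g : ℕ} (a b : Fin g → Mat r R) :
    cval (fun j => (a j).map φ) (fun j => (b j).map φ) = (cval a b).map φ := by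
  have h : (cval a b).map φ = φ.mapMatrix (cval a b) := rfl
  rw [h]
  unfold cval
  rw [map_list_prod, List.map_ofFn]
  congr 1
  refine congrArg List.ofFn (funext fun j => ?_)
  rw [Function.comp_apply, map_mul, map_mul, map_mul, RingHom.mapMatrix_apply,
    RingHom.mapMatrix_apply, RingHom.mapMatrix_apply, RingHom.mapMatrix_apply,
    KRb.adjugate_map', KRb.adjugate_map']

theorem det_cval {g : ℕ} (a b : Fin g → Mat r R) (ha : ∀ j, (a j).det = 1)
    (hb : ∀ j, (b j).det = 1) : (cval a b).det = 1 := by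
  have h : (cval a b).det = Matrix.detMonoidHom (cval a b) := rfl
  rw [h]
  unfold cval
  rw [map_list_prod, List.map_ofFn, List.prod_ofFn]
  refine Finset.prod_eq_one fun j _ => ?_
  rw [Function.comp_apply, Matrix.coe_detMonoidHom, det_mul, det_mul, det_mul, det_adjugate,
    det_adjugate, ha, hb]
  simp

end

theorem cents_eq {E : Type*} {r g : ℕ} (a b : Fin g → Mat r E) :
    cents a b = Set.range (ccoord a b) := by
  ext x
  constructor
  · rintro ⟨j, ⟨k, l, h⟩ | ⟨k, l, h⟩⟩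
    · exact ⟨(Sum.inl j, (k, l)), h⟩
    · exact ⟨(Sum.inr j, (k, l)), h⟩
  · rintro ⟨⟨j | j, k, l⟩, h⟩
    · exact ⟨j, Or.inl ⟨k, l, h⟩⟩
    · exact ⟨j, Or.inr ⟨k, l, h⟩⟩

/-- The equations. -/
noncomputable def eqs {Ω : Type} [Field Ω] {r g : ℕ} (ζ : Ω) (z : Fin r × Fin r) :
    (Fin g ⊕ Fin g ⊕ {p : Fin r × Fin r // p ≠ z}) →
      MvPolynomial ((Fin g ⊕ Fin g) × Fin r × Fin r) Ω
  | Sum.inl j => (Matrix.of fun x y => (X (Sum.inl j, (x, y)) :
      MvPolynomial ((Fin g ⊕ Fin g) × Fin r × Fin r) Ω)).det - 1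
  | Sum.inr (Sum.inl j) => (Matrix.of fun x y => (X (Sum.inr j, (x, y)) :
      MvPolynomial ((Fin g ⊕ Fin g) × Fin r × Fin r) Ω)).det - 1
  | Sum.inr (Sum.inr p) =>
      cval (fun j => Matrix.of fun x y => (X (Sum.inl j, (x, y)) :
          MvPolynomial ((Fin g ⊕ Fin g) × Fin r × Fin r) Ω))
        (fun j => Matrix.of fun x y => X (Sum.inr j, (x, y))) p.1.1 p.1.2 -
        C ((ζ • (1 : Mat r Ω)) p.1.1 p.1.2)

/-- Evaluation of the equations. -/
theorem eval_eqs {Ω : Type} [Field Ω] {r g : ℕ} (ζ : Ω) (z : Fin r × Fin r) {E : Type} [Field E]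
    [Algebra Ω E] (a b : Fin g → Mat r E) :
    (∀ j, aeval (ccoord a b) (eqs ζ z (Sum.inl j)) = (a j).det - 1) ∧
    (∀ j, aeval (ccoord a b) (eqs ζ z (Sum.inr (Sum.inl j))) = (b j).det - 1) ∧
    ∀ p : {p : Fin r × Fin r // p ≠ z}, aeval (ccoord a b) (eqs ζ z (Sum.inr (Sum.inr p))) =
      cval a b p.1.1 p.1.2 - (algebraMap Ω E ζ • (1 : Mat r E)) p.1.1 p.1.2 := by
  set φ : MvPolynomial ((Fin g ⊕ Fin g) × Fin r × Fin r) Ω →+* E :=
    (aeval (ccoord a b) : _ →ₐ[Ω] E).toRingHom with hφ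
  have hφ' : ∀ f, aeval (ccoord a b) f = φ f := fun f => rfl
  have ha : ∀ j, (Matrix.of fun x y => (X (Sum.inl j, (x, y)) :
      MvPolynomial ((Fin g ⊕ Fin g) × Fin r × Fin r) Ω)).map φ = a j := by
    intro j
    ext x y
    rw [Matrix.map_apply, Matrix.of_apply, ← hφ', aeval_X]
    rfl
  have hb : ∀ j, (Matrix.of fun x y => (X (Sum.inr j, (x, y)) :
      MvPolynomial ((Fin g ⊕ Fin g) × Fin r × Fin r) Ω)).map φ = b j := by
    intro j
    ext x y
    rw [Matrix.map_apply, Matrix.of_apply, ← hφ', aeval_X]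
    rfl
  have hC : ∀ c : Ω, φ (C c) = algebraMap Ω E c := by
    intro c
    rw [← hφ', aeval_C]
  refine ⟨?_, ?_, ?_⟩
  · intro j
    rw [hφ', eqs, map_sub, map_one, RingHom.map_det, RingHom.mapMatrix_apply, ha]
  · intro j
    rw [hφ', eqs, map_sub, map_one, RingHom.map_det, RingHom.mapMatrix_apply, hb]
  · intro p
    rw [hφ', eqs, map_sub, hC, ← Matrix.map_apply (f := φ), ← cval_map]
    simp only [ha, hb]
    congr 1
    rw [Matrix.smul_apply, Matrix.smul_apply, smul_eq_mul, smul_eq_mul, map_mul, Matrix.one_apply,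
      Matrix.one_apply]
    split_ifs <;> simp

/-- The last entry. -/
theorem last_entry {E : Type*} [Field E] {r : ℕ} (i₀ : Fin r) (M : Mat r E) (ζ : E)
    (hζ : ζ ^ r = 1) (hM : M.det = 1)
    (h : ∀ p : Fin r × Fin r, p ≠ (i₀, i₀) → M p.1 p.2 = (ζ • (1 : Mat r E)) p.1 p.2) :
    M = ζ • (1 : Mat r E) := by
  have hr : 1 ≤ r := by
    have := i₀.2
    omega
  have hd : M = Matrix.diagonal (Function.update (fun _ => ζ) i₀ (M i₀ i₀)) := by
    ext k l
    by_cases hkl : (k, l) = (i₀, i₀)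
    · obtain ⟨rfl, rfl⟩ := Prod.mk.inj hkl
      rw [Matrix.diagonal_apply_eq, Function.update_self]
    · rw [h (k, l) hkl]
      simp only [Matrix.smul_apply, Matrix.one_apply, Matrix.diagonal_apply, smul_eq_mul]
      by_cases hkl' : k = l
      · subst hkl'
        have hk : k ≠ i₀ := fun hk => hkl (by rw [hk])
        rw [if_pos rfl, if_pos rfl, Function.update_of_ne hk, mul_one]
      · rw [if_neg hkl', if_neg hkl', mul_zero]
  have hdet : M i₀ i₀ * ζ ^ (r - 1) = 1 := by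
    rw [hd, Matrix.det_diagonal, Finset.prod_update_of_mem (Finset.mem_univ i₀)] at hM
    rw [Finset.prod_const, Finset.card_sdiff_of_subset (Finset.subset_univ _),
      Finset.card_univ, Fintype.card_fin, Finset.card_singleton] at hM
    exact hM
  have hζ' : ζ * ζ ^ (r - 1) = 1 := by
    rw [← pow_succ', Nat.sub_add_cancel hr]
    exact hζ
  have hne : ζ ^ (r - 1) ≠ 0 := right_ne_zero_of_mul_eq_one hζ'
  have hM0 : M i₀ i₀ = ζ := mul_right_cancel₀ hne (hdet.trans hζ'.symm)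
  ext k l
  by_cases hkl : (k, l) = (i₀, i₀)
  · obtain ⟨rfl, rfl⟩ := Prod.mk.inj hkl
    rw [hM0, Matrix.smul_apply, Matrix.one_apply_eq, smul_eq_mul, mul_one]
  · exact h (k, l) hkl

/-- KC -/
theorem exists_generic_closed {Ω : Type} [Field Ω] {r : ℕ} (hr : 1 ≤ r) {g : ℕ} (ζ : Ω)
    (hζ : ζ ^ r = 1) (a₀ b₀ : Fin g → Mat r Ω) (h₀ : CRep ζ a₀ b₀)
    (F : MvPolynomial ((Fin g ⊕ Fin g) × Fin r × Fin r) Ω) (hF : eval (ccoord a₀ b₀) F ≠ 0) :
    ∃ (E : Type) (_ : Field E) (_ : Algebra Ω E) (_ : IsAlgClosed E) (a b : Fin g → Mat r E),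
      Univ Ω E ∧ CRep (algebraMap Ω E ζ) a b ∧ aeval (ccoord a b) F ≠ 0 ∧
      2 * g * (r ^ 2 - 1) ≤ rk Ω (cents a b) + (r ^ 2 - 1) := by
  classical
  set i₀ : Fin r := ⟨r - 1, by omega⟩ with hi₀
  set s : Finset (MvPolynomial ((Fin g ⊕ Fin g) × Fin r × Fin r) Ω) :=
    Finset.univ.image (eqs ζ (i₀, i₀)) with hs
  have hcard : s.card ≤ 2 * g + (r ^ 2 - 1) := by
    refine Finset.card_image_le.trans (le_of_eq ?_)
    rw [Finset.card_univ]
    simp only [Fintype.card_sum, Fintype.card_fin]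
    rw [Fintype.card_subtype_compl, Fintype.card_prod, Fintype.card_fin, Fintype.card_subtype_eq,
      sq]
    ring
  have hev := eval_eqs (E := Ω) ζ (i₀, i₀) a₀ b₀
  have hz₀ : ∀ f ∈ s, eval (ccoord a₀ b₀) f = 0 := by
    intro f hf
    rw [hs, Finset.mem_image] at hf
    obtain ⟨i, -, rfl⟩ := hf
    have h1 : eval (ccoord a₀ b₀) (eqs ζ (i₀, i₀) i) = aeval (ccoord a₀ b₀) (eqs ζ (i₀, i₀) i) :=
      rfl
    rw [h1]
    obtain ⟨e1, e2, e3⟩ := hev
    rcases i with j | j | p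
    · rw [e1, h₀.det_a, sub_self]
    · rw [e2, h₀.det_b, sub_self]
    · rw [e3, h₀.rel]; exact sub_self _
  obtain ⟨E₀, i1, i2, x, hx1, hx2, hx3⟩ := exists_generic s F (ccoord a₀ b₀) hz₀ hF
  have hσ : Fintype.card ((Fin g ⊕ Fin g) × Fin r × Fin r) = 2 * g * (r * r) := by
    simp only [Fintype.card_sum, Fintype.card_prod, Fintype.card_fin]
    ring
  obtain ⟨E, i3, i4, φ, hE1, hE2, hE3⟩ := exists_univ (K := Ω) x
    (Fintype.card ((Fin g ⊕ Fin g) × Fin r × Fin r) - s.card)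
    (fun S hS => Nat.sub_le_iff_le_add'.2 (hx3 S hS))
  refine ⟨E, i3, i4, hE1, fun j => Matrix.of fun k l => φ (x (Sum.inl j, (k, l))),
    fun j => Matrix.of fun k l => φ (x (Sum.inr j, (k, l))), ?_⟩
  set a : Fin g → Mat r E := fun j => Matrix.of fun k l => φ (x (Sum.inl j, (k, l))) with had
  set b : Fin g → Mat r E := fun j => Matrix.of fun k l => φ (x (Sum.inr j, (k, l))) with hbd
  have hsc : ccoord a b = fun i => φ (x i) := by
    funext i
    rcases i with ⟨j | j, k, l⟩ <;> rfl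
  have hae : ∀ f : MvPolynomial ((Fin g ⊕ Fin g) × Fin r × Fin r) Ω,
      aeval (ccoord a b) f = φ (aeval x f) := by
    intro f
    rw [hsc]
    have : (aeval (fun i => φ (x i)) : MvPolynomial _ Ω →ₐ[Ω] E) = φ.comp (aeval x) := by
      apply MvPolynomial.algHom_ext
      intro i
      simp
    rw [this, AlgHom.comp_apply]
  have hz : ∀ i, aeval (ccoord a b) (eqs ζ (i₀, i₀) i) = 0 := by
    intro i
    rw [hae, hx1 _ (by rw [hs]; exact Finset.mem_image_of_mem _ (Finset.mem_univ i)), map_zero]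
  obtain ⟨e1, e2, e3⟩ := eval_eqs ζ (i₀, i₀) a b
  have da : ∀ j, (a j).det = 1 := fun j => sub_eq_zero.1 ((e1 j).symm.trans (hz _))
  have db : ∀ j, (b j).det = 1 := fun j => sub_eq_zero.1 ((e2 j).symm.trans (hz _))
  have hrel : cval a b = algebraMap Ω E ζ • (1 : Mat r E) := by
    refine last_entry i₀ _ _ ?_ (det_cval a b da db) ?_
    · rw [← map_pow, hζ, map_one]
    · intro p hp
      exact sub_eq_zero.1 ((e3 ⟨p, hp⟩).symm.trans (hz _))
  refine ⟨hE2, ⟨da, db, hrel⟩, ?_, ?_⟩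
  · rw [hae]
    exact fun h => hx2 (by
      rw [← map_zero φ] at h
      exact φ.injective h)
  · rw [cents_eq, hsc]
    have h1 : 2 * g * (r ^ 2 - 1) ≤
        (Fintype.card ((Fin g ⊕ Fin g) × Fin r × Fin r) - s.card) + (r ^ 2 - 1) := by
      rw [hσ]
      have h2 : 2 * g * (r ^ 2 - 1) + 2 * g = 2 * g * (r * r) := by
        obtain ⟨q, rfl⟩ : ∃ q, r = q + 1 := ⟨r - 1, by omega⟩
        have : (q + 1) ^ 2 - 1 = q * q + 2 * q := by
          have : (q + 1) ^ 2 = q * q + 2 * q + 1 := by ring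
          omega
        rw [this]
        ring
      omega
    exact h1.trans (Nat.add_le_add_right hE3 _)

end Pool.Agent.MP_3f0e22_ag.V3_KC

namespace Pool.Agent.MP_3f0e22_ag

alias exists_generic_closed := V3_KC.exists_generic_closed

end Pool.Agent.MP_3f0e22_ag
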