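import Pool.Agent.MP_3f0e22_ag.VKC
import Pool.Agent.MP_3f0e22_ag.VGSL
import Pool.Agent.MP_3f0e22_ag.VGCJ
import Pool.Agent.MP_3f0e22_ag.VRKc
import Pool.Agent.MP_3f0e22_ag.VDG12

/-!
# MP_3f0e22_ag, version 3, block KG: a generic closed representation, after a generic conjugation
-/

set_option autoImplicit false

open Matrix MvPolynomial

namespace Pool.Agent.MP_3f0e22_ag.V3_KG

open Pool.Agent.MP_3f0e22_ag

section conj

variable {R : Type*} [CommRing R] {r : ℕ}

/-- conjugation, for `γ` of determinant one -/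
def cj (γ M : Mat r R) : Mat r R := γ * M * γ.adjugate

theorem mul_adj {γ : Mat r R} (h : γ.det = 1) : γ * γ.adjugate = 1 := by
  rw [mul_adjugate, h, one_smul]

theorem adj_mul {γ : Mat r R} (h : γ.det = 1) : γ.adjugate * γ = 1 := by
  rw [adjugate_mul, h, one_smul]

theorem det_adj {γ : Mat r R} (h : γ.det = 1) : γ.adjugate.det = 1 := by
  rw [det_adjugate, h, one_pow]

theorem adj_adj {γ : Mat r R} (h : γ.det = 1) : γ.adjugate.adjugate = γ := by
  have h1 : γ.adjugate.adjugate * γ.adjugate = 1 := adj_mul (det_adj h)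
  calc γ.adjugate.adjugate = γ.adjugate.adjugate * (γ.adjugate * γ) := by
        rw [adj_mul h, mul_one]
    _ = γ := by rw [← mul_assoc, h1, one_mul]

theorem cj_det {γ : Mat r R} (h : γ.det = 1) (M : Mat r R) : (cj γ M).det = M.det := by
  rw [cj, det_mul, det_mul, det_adj h, h, one_mul, mul_one]

theorem cj_mul {γ : Mat r R} (h : γ.det = 1) (M N : Mat r R) :
    cj γ M * cj γ N = cj γ (M * N) := by
  unfold cj
  calc γ * M * γ.adjugate * (γ * N * γ.adjugate)
      = γ * M * (γ.adjugate * γ) * N * γ.adjugate := by noncomm_ring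
    _ = γ * (M * N) * γ.adjugate := by rw [adj_mul h]; noncomm_ring

theorem cj_one {γ : Mat r R} (h : γ.det = 1) : cj γ (1 : Mat r R) = 1 := by
  rw [cj, mul_one, mul_adj h]

theorem cj_smul (γ : Mat r R) (c : R) (M : Mat r R) : cj γ (c • M) = c • cj γ M := by
  rw [cj, cj, Matrix.mul_smul, Matrix.smul_mul]

theorem cj_adj {γ : Mat r R} (h : γ.det = 1) (M : Mat r R) :
    (cj γ M).adjugate = cj γ M.adjugate := by
  rw [cj, cj, adjugate_mul_distrib, adjugate_mul_distrib, adj_adj h, mul_assoc]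

theorem cj_list {γ : Mat r R} (h : γ.det = 1) (l : List (Mat r R)) :
    (l.map (cj γ)).prod = cj γ l.prod := by
  induction l with
  | nil => rw [List.map_nil, List.prod_nil, cj_one h]
  | cons M l ih => rw [List.map_cons, List.prod_cons, List.prod_cons, ih, cj_mul h]

theorem cj_comm {γ : Mat r R} (h : γ.det = 1) (a b : Mat r R) :
    cj γ a * cj γ b * (cj γ a).adjugate * (cj γ b).adjugate =
      cj γ (a * b * a.adjugate * b.adjugate) := by
  rw [cj_adj h, cj_adj h, cj_mul h, cj_mul h, cj_mul h]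

theorem cj_cval {γ : Mat r R} (h : γ.det = 1) {g : ℕ} (a b : Fin g → Mat r R) :
    cval (fun j => cj γ (a j)) (fun j => cj γ (b j)) = cj γ (cval a b) := by
  unfold cval
  rw [← cj_list h, List.map_ofFn]
  congr 2
  funext j
  exact cj_comm h _ _

theorem cj_CRep {γ : Mat r R} (h : γ.det = 1) {g : ℕ} {ζ : R} {a b : Fin g → Mat r R}
    (hr : CRep ζ a b) : CRep ζ (fun j => cj γ (a j)) (fun j => cj γ (b j)) where
  det_a j := by rw [cj_det h, hr.det_a]
  det_b j := by rw [cj_det h, hr.det_b]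
  rel := by rw [cj_cval h, hr.rel, cj_smul, cj_one h]

theorem cj_cj {γ : Mat r R} (h : γ.det = 1) (M : Mat r R) : cj γ.adjugate (cj γ M) = M := by
  unfold cj
  rw [adj_adj h]
  calc γ.adjugate * (γ * M * γ.adjugate) * γ = (γ.adjugate * γ) * M * (γ.adjugate * γ) := by
        noncomm_ring
    _ = M := by rw [adj_mul h]; noncomm_ring

theorem cj_map {R' : Type*} [CommRing R'] (φ : R →+* R') (γ M : Mat r R) :
    (cj γ M).map φ = cj (γ.map φ) (M.map φ) := by
  have h := RingHom.map_adjugate φ γ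
  rw [RingHom.mapMatrix_apply, RingHom.mapMatrix_apply] at h
  unfold cj
  rw [Matrix.map_mul, Matrix.map_mul, h]

end conj

section rank

variable {K E : Type*} [Field K] [Field E] [Algebra K E] {r : ℕ}

theorem cents_finite {g : ℕ} (a b : Fin g → Mat r E) : (cents a b).Finite := by
  have h : cents a b = ⋃ j, (ent (a j) ∪ ent (b j)) := by
    ext x
    simp [cents]
  rw [h]
  exact Set.finite_iUnion fun j => (ent_finite (a j)).union (ent_finite (b j))

theorem ent_cj {F : IntermediateField K E} {γ M : Mat r E} (hγ : ent γ ⊆ (F : Set E))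
    (hM : ent M ⊆ (F : Set E)) : ent (cj γ M) ⊆ (F : Set E) :=
  E1_mul (E1_mul hγ hM) (E1_adj hγ)

theorem cpc_cj {γ : Mat r E} (h : γ.det = 1) (M : Mat r E) : cpc (cj γ M) = cpc M := by
  have h1 : (cj γ M).charpoly = M.charpoly := by
    rw [cj, Matrix.charpoly_mul_comm, ← mul_assoc, adj_mul h, one_mul]
  unfold cpc
  rw [h1]

theorem zeta_cj {γ : Mat r E} (h : γ.det = 1) (M : Mat r E) : zeta (cj γ M) = zeta M :=
  zeta_conj M γ γ.adjugate (mul_adj h)

/-- the rank does not drop by a generic conjugation -/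
theorem rk_cj (hr : 1 ≤ r) {g : ℕ} (a b : Fin g → Mat r E) {γ : Mat r E} (h : γ.det = 1)
    (hg : rk K (cents a b) + (r ^ 2 - 1) ≤ rk K (cents a b ∪ ent γ)) :
    rk K (cents a b) ≤ rk K (cents (fun j => cj γ (a j)) (fun j => cj γ (b j))) := by
  set a' := fun j => cj γ (a j) with ha'
  set b' := fun j => cj γ (b j) with hb'
  have h1 : rk K (cents a b ∪ ent γ) ≤ rk K (cents a' b' ∪ ent γ) := by
    refine rk_mono ((cents_finite a' b').union (ent_finite γ)) ?_
    have hγ : ent γ ⊆ (acl K (cents a' b' ∪ ent γ) : Set E) :=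
      Set.subset_union_right.trans (subset_acl _)
    have hadj := E1_adj hγ
    refine Set.union_subset ?_ hγ
    rintro x ⟨j, hj⟩
    have ha : ent (a' j) ⊆ (acl K (cents a' b' ∪ ent γ) : Set E) := fun y hy =>
      subset_acl _ (Or.inl ⟨j, Or.inl hy⟩)
    have hb : ent (b' j) ⊆ (acl K (cents a' b' ∪ ent γ) : Set E) := fun y hy =>
      subset_acl _ (Or.inl ⟨j, Or.inr hy⟩)
    rcases hj with hj | hj
    · rw [← cj_cj h (a j)] at hj
      exact ent_cj hadj ha hj
    · rw [← cj_cj h (b j)] at hj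
      exact ent_cj hadj hb hj
  have h2 : rk K (cents a' b' ∪ ent γ) ≤ rk K (cents a' b') + (r ^ 2 - 1) :=
    rk_union (cents_finite a' b') (rk_ent_le γ h hr _)
  omega

end rank

/-- the generic matrix -/
noncomputable def Xm (r : ℕ) (E : Type*) [CommRing E] : Mat r (MvPolynomial (Fin r × Fin r) E) :=
  Matrix.of fun i j => X (i, j)

/-- `F (X a adj X, X b adj X)` -/
noncomputable def GG {Ω E : Type*} [CommRing Ω] [CommRing E] [Algebra Ω E] {r g : ℕ}
    (F : MvPolynomial ((Fin g ⊕ Fin g) × Fin r × Fin r) Ω) (a b : Fin g → Mat r E) :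
    MvPolynomial (Fin r × Fin r) E :=
  aeval (ccoord (fun j => cj (Xm r E) ((a j).map C)) fun j => cj (Xm r E) ((b j).map C)) F

theorem ccoord_map {R R' : Type*} (φ : R → R') {r g : ℕ} (a b : Fin g → Mat r R) :
    (fun x => φ (ccoord a b x)) = ccoord (fun j => (a j).map φ) fun j => (b j).map φ := by
  funext x
  obtain ⟨x | x, y⟩ := x
  · rfl
  · rfl

theorem eval_GG {Ω E : Type*} [CommRing Ω] [CommRing E] [Algebra Ω E] {r g : ℕ}
    (F : MvPolynomial ((Fin g ⊕ Fin g) × Fin r × Fin r) Ω) (a b : Fin g → Mat r E) (γ : Mat r E) :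
    eval (fun x => γ x.1 x.2) (GG F a b) =
      aeval (ccoord (fun j => cj γ (a j)) fun j => cj γ (b j)) F := by
  set φ : MvPolynomial (Fin r × Fin r) E →+* E := eval (fun x => γ x.1 x.2) with hφ
  have h1 : ∀ p : MvPolynomial ((Fin g ⊕ Fin g) × Fin r × Fin r) Ω,
      ∀ f : (Fin g ⊕ Fin g) × Fin r × Fin r → MvPolynomial (Fin r × Fin r) E,
      φ (aeval f p) = aeval (fun x => φ (f x)) p := by
    intro p f
    induction p using MvPolynomial.induction_on with
    | C c =>
      rw [MvPolynomial.algHom_C, MvPolynomial.algHom_C, MvPolynomial.algebraMap_apply, hφ, eval_C]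
    | add p q hp hq => rw [map_add, map_add, map_add, hp, hq]
    | mul_X p i hp => rw [map_mul, map_mul, map_mul, hp, aeval_X, aeval_X]
  rw [GG, h1, ccoord_map]
  have h2 : ∀ M : Mat r E, (cj (Xm r E) (M.map C)).map φ = cj γ M := by
    intro M
    rw [cj_map]
    congr 1
    · ext i j
      simp [Xm, hφ]
    · ext i j
      simp [hφ]
  simp only [h2]

theorem GG_map {Ω L E : Type*} [CommRing Ω] [CommRing L] [CommRing E] [Algebra Ω L] [Algebra Ω E]
    [Algebra L E] [IsScalarTower Ω L E] {r g : ℕ}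
    (F : MvPolynomial ((Fin g ⊕ Fin g) × Fin r × Fin r) Ω) (a b : Fin g → Mat r L) :
    GG F (fun j => (a j).map (algebraMap L E)) (fun j => (b j).map (algebraMap L E)) =
      MvPolynomial.map (algebraMap L E) (GG F a b) := by
  set φ : MvPolynomial (Fin r × Fin r) L →+* MvPolynomial (Fin r × Fin r) E :=
    MvPolynomial.map (algebraMap L E) with hφ
  have h1 : ∀ p : MvPolynomial ((Fin g ⊕ Fin g) × Fin r × Fin r) Ω,
      ∀ f : (Fin g ⊕ Fin g) × Fin r × Fin r → MvPolynomial (Fin r × Fin r) L,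
      φ (aeval f p) = aeval (fun x => φ (f x)) p := by
    intro p f
    induction p using MvPolynomial.induction_on with
    | C c =>
      rw [MvPolynomial.algHom_C, MvPolynomial.algHom_C, MvPolynomial.algebraMap_apply,
        MvPolynomial.algebraMap_apply, hφ, map_C, ← IsScalarTower.algebraMap_apply]
    | add p q hp hq => rw [map_add, map_add, map_add, hp, hq]
    | mul_X p i hp => rw [map_mul, map_mul, map_mul, hp, aeval_X, aeval_X]
  rw [GG, GG, h1, ccoord_map]
  have h2 : ∀ M : Mat r L, (cj (Xm r L) (M.map C)).map φ =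
      cj (Xm r E) ((M.map (algebraMap L E)).map C) := by
    intro M
    rw [cj_map]
    congr 1
    · ext i j : 2
      simp [Xm, hφ]
    · ext i j : 2
      simp [hφ]
  simp only [h2]

theorem GG_coeff {Ω E : Type*} [Field Ω] [Field E] [Algebra Ω E] {r g : ℕ}
    (F : MvPolynomial ((Fin g ⊕ Fin g) × Fin r × Fin r) Ω) (a b : Fin g → Mat r E)
    (L : IntermediateField Ω E) (h : cents a b ⊆ (L : Set E)) (d : Fin r × Fin r →₀ ℕ) :
    (GG F a b).coeff d ∈ L := by
  have ha : ∀ j i k, a j i k ∈ L := fun j i k => h ⟨j, Or.inl ⟨i, k, rfl⟩⟩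
  have hb : ∀ j i k, b j i k ∈ L := fun j i k => h ⟨j, Or.inr ⟨i, k, rfl⟩⟩
  have h1 : GG F a b = MvPolynomial.map (algebraMap L E)
      (GG F (fun j => Matrix.of fun i k => (⟨a j i k, ha j i k⟩ : L))
        fun j => Matrix.of fun i k => (⟨b j i k, hb j i k⟩ : L)) := by
    rw [← GG_map]
    congr 1
  rw [h1, coeff_map]
  exact (coeff d _ : L).2

/-- KG -/
theorem exists_generic_closed' {Ω : Type} [Field Ω] {r : ℕ} (hr : 1 ≤ r) {g : ℕ} (ζ : Ω)
    (hζ : ζ ^ r = 1) (a₀ b₀ : Fin (g + 1) → Mat r Ω) (h₀ : CRep ζ a₀ b₀)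
    (F : MvPolynomial ((Fin (g + 1) ⊕ Fin (g + 1)) × Fin r × Fin r) Ω)
    (hF : eval (ccoord a₀ b₀) F ≠ 0) :
    ∃ (E : Type) (_ : Field E) (_ : Algebra Ω E) (_ : IsAlgClosed E)
      (a b : Fin (g + 1) → Mat r E), Univ Ω E ∧ CRep (algebraMap Ω E ζ) a b ∧
      aeval (ccoord a b) F ≠ 0 ∧ 2 * (g + 1) * (r ^ 2 - 1) ≤ rk Ω (cents a b) + (r ^ 2 - 1) ∧
      rk Ω (cpc (a 0 * b 0 * (a 0).adjugate * (b 0).adjugate)) + r ^ 2 ≤
        rk Ω (ent (a 0 * b 0 * (a 0).adjugate * (b 0).adjugate)) +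
          zeta (a 0 * b 0 * (a 0).adjugate * (b 0).adjugate) := by
  obtain ⟨E, iE, iA, iC, a, b, hU, hR, hF', hrk⟩ := exists_generic_closed hr ζ hζ a₀ b₀ h₀ F hF
  have hfin := cents_finite a b
  obtain ⟨γ, hγ, hG, hrk'⟩ := exists_gamma hU hr hfin (GG F a b)
    (fun d => GG_coeff F a b _ (subset_acl _) d) (by
      rw [eval_GG]
      have h1 : ∀ M : Mat r E, cj (1 : Mat r E) M = M := by
        intro M
        rw [cj, adjugate_one, one_mul, mul_one]
      simp only [h1]
      exact hF')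
  refine ⟨E, iE, iA, iC, fun j => cj γ (a j), fun j => cj γ (b j), hU, cj_CRep hγ hR, ?_, ?_, ?_⟩
  · rw [← eval_GG]
    exact hG
  · exact hrk.trans (Nat.add_le_add_right (rk_cj hr a b hγ hrk') _)
  · rw [cj_comm hγ, cpc_cj hγ, zeta_cj hγ]
    refine generic_conj hr hfin _ γ ?_ hγ hrk'
    have ha : ent (a 0) ⊆ (acl Ω (cents a b) : Set E) := fun y hy =>
      subset_acl _ ⟨0, Or.inl hy⟩
    have hb : ent (b 0) ⊆ (acl Ω (cents a b) : Set E) := fun y hy =>
      subset_acl _ ⟨0, Or.inr hy⟩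
    exact E1_mul (E1_mul (E1_mul ha hb) (E1_adj ha)) (E1_adj hb)

end Pool.Agent.MP_3f0e22_ag.V3_KG

namespace Pool.Agent.MP_3f0e22_ag

alias exists_generic_closed' := V3_KG.exists_generic_closed'

end Pool.Agent.MP_3f0e22_ag
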