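import Pool.Agent.MP_3f0e22_ag.VCF1
import Pool.Agent.MP_3f0e22_ag.VCF2
import Pool.Agent.MP_3f0e22_ag.VRKc
import Pool.Agent.MP_3f0e22_ag.HB

/-!
# [CV3-PB] the bound for one pair
-/

set_option autoImplicit false

open Matrix MvPolynomial

namespace Pool.Agent.MP_3f0e22_ag.V3_PB

variable {K E : Type*} [Field K] [Field E] [Algebra K E] {r : ℕ}

theorem ent_one_PB {F : IntermediateField K E} : ent (1 : Mat r E) ⊆ (F : Set E) := by
  rw [E1_ent]
  intro i j
  rw [one_apply]
  split_ifs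
  · exact one_mem _
  · exact zero_mem _

/-- PB -/
theorem pair_bound [IsAlgClosed E] (hU : Univ K E) (hr : 3 ≤ r) {T : Set E} (hT : T.Finite)
    (a b Z : Mat r E) (ha : a.det = 1) (hb : b.det = 1) (hZ : ent Z ⊆ acl K T)
    (hZd : Z.det ≠ 0) :
    ∃ e : ℕ, zeta (a * b * a.adjugate * b.adjugate * Z) ≤ r + 2 * e ∧
      rk K (T ∪ ent a ∪ ent b) + e ≤
        rk K T + rk K (cpc (a * b * a.adjugate * b.adjugate * Z)) +
          (4 * (r * (r - 1) / 2) + (r - 1)) := by
  classical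
  set W := a * b * a.adjugate * b.adjugate * Z with hW
  have fa : (ent a).Finite := ent_finite _
  have fb : (ent b).Finite := ent_finite _
  have fW : (cpc W).Finite := E1_cpc_finite _
  have fA : (T ∪ ent a ∪ ent b).Finite := (hT.union fa).union fb
  have aA : ent a ⊆ (acl K (T ∪ ent a ∪ ent b) : Set E) :=
    (Set.subset_union_right.trans Set.subset_union_left).trans (subset_acl _)
  have bA : ent b ⊆ (acl K (T ∪ ent a ∪ ent b) : Set E) :=
    Set.subset_union_right.trans (subset_acl _)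
  have ZA : ent Z ⊆ (acl K (T ∪ ent a ∪ ent b) : Set E) :=
    hZ.trans (acl_mono (Set.subset_union_left.trans Set.subset_union_left))
  have hWA : ent W ⊆ (acl K (T ∪ ent a ∪ ent b) : Set E) := by
    rw [hW]
    exact E1_mul (E1_mul (E1_mul (E1_mul aA bA) (E1_adj aA)) (E1_adj bA)) ZA
  have hWd : W.det ≠ 0 := by
    rw [hW]
    simp only [det_mul, det_adjugate, ha, hb, one_pow, one_mul]
    exact hZd
  obtain ⟨S, e, hS, he1, he2⟩ := exists_chain hU r W _ fA hWA
  obtain ⟨f, n, c, hf, hfS, hn, hc, hfr⟩ := Ch.frame' (K := K) hWd hS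
  have fS : S.Finite := hS.finite
  have fB : (T ∪ cpc W ∪ S).Finite := (hT.union fW).union fS
  have hB1 : rk K (T ∪ cpc W ∪ S) ≤ rk K T + rk K (cpc W) + r * (r - 1) / 2 :=
    (rk_union (hT.union fW) (Ch.bd hS _)).trans (Nat.add_le_add_right (rk_union_le hT fW) _)
  have hTB : acl K T ≤ acl K (T ∪ cpc W ∪ S) :=
    acl_mono (Set.subset_union_left.trans Set.subset_union_left)
  have hb1 := (handle_bound' hU hr (T ∪ cpc W ∪ S) fB 1 Z f a b n c ent_one_PB
    (by rw [det_one]; exact one_ne_zero) (hZ.trans hTB) hZd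
    (hfS.trans (acl_mono Set.subset_union_right)) hf
    (fun k => ⟨(hc k).1, acl_mono (Set.subset_union_right.trans Set.subset_union_left) (hc k).2⟩)
    ha hb hn (by rw [one_mul]; exact hfr)).1
  have hsub : rk K (T ∪ ent a ∪ ent b ∪ S) ≤ rk K (T ∪ cpc W ∪ S ∪ ent a ∪ ent b) := by
    refine rk_mono ((fB.union fa).union fb) (Set.Subset.trans ?_ (subset_acl _))
    intro x hx
    rcases hx with ((hx | hx) | hx) | hx
    · exact Or.inl (Or.inl (Or.inl (Or.inl hx)))
    · exact Or.inl (Or.inr hx)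
    · exact Or.inr hx
    · exact Or.inl (Or.inl (Or.inr hx))
  refine ⟨e, he1, ?_⟩
  omega

end Pool.Agent.MP_3f0e22_ag.V3_PB

namespace Pool.Agent.MP_3f0e22_ag

alias pair_bound := V3_PB.pair_bound

end Pool.Agent.MP_3f0e22_ag
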