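import Pool.Agent.MP_3f0e22_ag.VDEN
import Pool.Agent.MP_3f0e22_ag.Defs3

set_option autoImplicit false

open Matrix MvPolynomial NumberField

namespace Pool.Agent.MP_3f0e22_ag

namespace V3_TD

theorem torus_units {Ω : Type*} [Field Ω] {r : ℕ} (v : Ωˣ) (hv : ∀ m : ℤ, v ^ m = 1 → m = 0)
    (u : Fin r → Ωˣ) (G : MvPolynomial (Fin r) Ω)
    (h : ∀ m : Fin r → ℤ, ∑ i, m i = 0 → eval (fun i => ((v ^ m i * u i : Ωˣ) : Ω)) G = 0)
    (w : Fin r → Ω) (hw : ∏ i, w i = ∏ i, (u i : Ω)) : eval w G = 0 := by
  rcases r with _ | n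
  · have := h (fun _ => 0) (by simp)
    rw [← this]
    congr 2
    exact Subsingleton.elim _ _
  · set U : Ωˣ := ∏ i, u i with hU
    have hUc : (U : Ω) = ∏ i, (u i : Ω) := by simp [hU]
    obtain ⟨Φ, hΦ⟩ := exists_den G
      (Fin.cons (C (U : Ω)) (fun i : Fin n => X i * ∏ j : Fin n, X j))
      (∏ j : Fin n, (X j : MvPolynomial (Fin n) Ω))
    have hδ : ∀ z : Fin n → Ω, eval z (∏ j : Fin n, (X j : MvPolynomial (Fin n) Ω)) = ∏ j, z j := by
      intro z; simp
    -- the evaluation point
    have hpt : ∀ z : Fin n → Ω, (∏ j, z j) ≠ 0 →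
        (fun s => eval z ((Fin.cons (C (U : Ω)) (fun i : Fin n => X i * ∏ j : Fin n, X j) :
          Fin (n + 1) → MvPolynomial (Fin n) Ω) s) /
          eval z (∏ j : Fin n, (X j : MvPolynomial (Fin n) Ω))) =
        (Fin.cons ((U : Ω) / ∏ j, z j) z : Fin (n + 1) → Ω) := by
      intro z hz
      funext s
      refine Fin.cases ?_ (fun i => ?_) s
      · simp
      · simp only [Fin.cons_succ, map_mul, eval_X, hδ]
        field_simp
    have hinj : Function.Injective (fun m : ℤ => v ^ m) := by
      intro a b hab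
      have : v ^ (a - b) = 1 := by
        rw [_root_.zpow_sub]
        simp only at hab
        rw [hab]; simp
      have := hv _ this
      omega
    have hsum : ∀ m : Fin n → ℤ, v ^ (∑ j, m j) = ∏ j, v ^ m j := by
      intro m
      have : ∀ s : Finset (Fin n), v ^ (∑ j ∈ s, m j) = ∏ j ∈ s, v ^ m j := by
        intro s
        induction s using Finset.induction_on with
        | empty => simp
        | insert a s ha ih => rw [Finset.sum_insert ha, Finset.prod_insert ha, _root_.zpow_add, ih]
      exact this _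
    have hΦ0 : Φ = 0 := by
      refine MvPolynomial.funext_set
        (fun i : Fin n => Set.range fun m : ℤ => ((v ^ m * u i.succ : Ωˣ) : Ω)) ?_ ?_
      · intro i
        refine Set.infinite_range_of_injective ?_
        intro a b hab
        have h1 : v ^ a * u i.succ = v ^ b * u i.succ := Units.ext hab
        exact hinj (mul_right_cancel h1)
      · intro z hz
        rw [map_zero]
        have hz' : ∀ i : Fin n, ∃ m : ℤ, ((v ^ m * u i.succ : Ωˣ) : Ω) = z i := by
          intro i
          exact hz i (Set.mem_univ i)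
        choose m hm using hz'
        have hprod : ∏ j, z j = ((v ^ (∑ j, m j) * ∏ j : Fin n, u j.succ : Ωˣ) : Ω) := by
          rw [← Finset.prod_congr rfl (fun j _ => hm j)]
          rw [← Units.coe_prod, Finset.prod_mul_distrib]
          congr 2
          exact (hsum m).symm
        have hne : (∏ j, z j) ≠ 0 := by rw [hprod]; exact Units.ne_zero _
        obtain ⟨c, -, hc⟩ := (hΦ z).2 (by rw [hδ]; exact hne)
        rw [hc, hpt z hne]
        have h2 := h (Fin.cons (-∑ j, m j) m) (by rw [Fin.sum_univ_succ]; simp)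
        have h3 : (fun i => ((v ^ (Fin.cons (-∑ j, m j) m : Fin (n + 1) → ℤ) i * u i : Ωˣ) : Ω)) =
            (Fin.cons ((U : Ω) / ∏ j, z j) z : Fin (n + 1) → Ω) := by
          funext s
          refine Fin.cases ?_ (fun i => ?_) s
          · simp only [Fin.cons_zero]
            rw [hprod, hU, Fin.prod_univ_succ, eq_div_iff (Units.ne_zero _), ← Units.val_mul]
            congr 1
            rw [_root_.zpow_neg, mul_mul_mul_comm, inv_mul_cancel, one_mul]
          · simp only [Fin.cons_succ]
            exact hm i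
        rw [h3] at h2
        rw [h2, mul_zero]
    have hwne : (∏ j : Fin n, w j.succ) ≠ 0 := by
      intro h0
      rw [Fin.prod_univ_succ, h0, mul_zero, ← hUc] at hw
      exact Units.ne_zero U hw.symm
    obtain ⟨c, hc0, hc⟩ := (hΦ (fun j => w j.succ)).2 (by rw [hδ]; exact hwne)
    rw [hΦ0, map_zero, hpt _ hwne] at hc
    have hw2 : (Fin.cons ((U : Ω) / ∏ j : Fin n, w j.succ) (fun j : Fin n => w j.succ) :
        Fin (n + 1) → Ω) = w := by
      funext s
      refine Fin.cases ?_ (fun i => ?_) s
      · simp only [Fin.cons_zero]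
        rw [div_eq_iff hwne, hUc, ← hw, Fin.prod_univ_succ]
      · simp
    rw [hw2] at hc
    exact (mul_eq_zero.mp hc.symm).resolve_left hc0

end V3_TD
end Pool.Agent.MP_3f0e22_ag

namespace Pool.Agent.MP_3f0e22_ag

alias torus_units := V3_TD.torus_units

end Pool.Agent.MP_3f0e22_ag
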