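import Pool.Agent.MP_3f0e22_ag.Defs3

set_option autoImplicit false

open Matrix MvPolynomial

namespace Pool.Agent.MP_3f0e22_ag

namespace V3_TP0

theorem tens_mul {R : Type*} [CommRing R] {d m r : ℕ} (e : Fin d × Fin m ≃ Fin r)
    (X Y : Mat d R) (A B : Mat m R) : tens e X A * tens e Y B = tens e (X * Y) (A * B) := by
  unfold tens
  rw [Matrix.submatrix_mul_equiv]
  congr 1
  exact (Matrix.mul_kronecker_mul X Y A B).symm

theorem tens_det {R : Type*} [CommRing R] {d m r : ℕ} (e : Fin d × Fin m ≃ Fin r)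
    (X : Mat d R) (A : Mat m R) : (tens e X A).det = X.det ^ m * A.det ^ d := by
  unfold tens
  rw [Matrix.det_submatrix_equiv_self]
  have := Matrix.det_kronecker X A
  rw [Fintype.card_fin, Fintype.card_fin] at this
  exact this

theorem pow_mod_of_pow_eq_one {R : Type*} [CommRing R] {d : ℕ} (ζ : R) (hζ : ζ ^ d = 1) (k : ℕ) :
    ζ ^ (k % d) = ζ ^ k := by
  conv_rhs => rw [← Nat.div_add_mod k d, pow_add, pow_mul, hζ, one_pow, one_mul]

theorem Xm_mul_Zm {R : Type*} [CommRing R] {d : ℕ} (ζ : R) (hζ : ζ ^ d = 1) :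
    Xm d ζ * Zm R d = ζ • (Zm R d * Xm d ζ) := by
  ext i j
  unfold Xm
  rw [Matrix.diagonal_mul, Matrix.smul_apply, Matrix.mul_diagonal, smul_eq_mul]
  unfold Zm
  rw [Matrix.of_apply]
  split_ifs with h
  · rw [h, pow_mod_of_pow_eq_one ζ hζ, pow_succ]
    ring
  · ring

theorem Xm_det {R : Type*} [CommRing R] {d : ℕ} (ζ : R) (hζ : ζ ^ d = 1) :
    (Xm d ζ).det ^ 2 = 1 := by
  unfold Xm
  rw [Matrix.det_diagonal, Finset.prod_pow_eq_pow_sum, ← pow_mul,
    Fin.sum_univ_eq_sum_range (fun i => i) d, Finset.sum_range_id_mul_two, pow_mul, hζ, one_pow]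

theorem Zm_det {R : Type*} [CommRing R] (d : ℕ) : (Zm R d).det ^ 2 = 1 := by
  rcases d with _ | n
  · rw [Matrix.det_isEmpty, one_pow]
  · have h : Zm R (n + 1) = (1 : Matrix (Fin (n + 1)) (Fin (n + 1)) R).submatrix id
        (finRotate (n + 1)) := by
      ext i j
      unfold Zm
      rw [Matrix.of_apply, Matrix.submatrix_apply, id, Matrix.one_apply]
      congr 1
      rw [finRotate_apply, Fin.ext_iff, Fin.val_add_eq_ite]
      rw [eq_iff_iff]
      have hj := j.isLt
      have h1 : ((1 : Fin (n + 1)) : ℕ) = 1 % (n + 1) := Fin.val_one' (n + 1)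
      rcases Nat.eq_zero_or_pos n with rfl | hn
      · have : (j : ℕ) = 0 := by omega
        have hi : (i : ℕ) = 0 := by have := i.isLt; omega
        simp
      · rw [Nat.mod_eq_of_lt (by omega)] at h1
        rw [h1]
        by_cases hjn : (j : ℕ) + 1 = n + 1
        · rw [if_pos (by omega), hjn, Nat.mod_self]
          simp
        · rw [if_neg (by omega), Nat.mod_eq_of_lt (by omega)]
    rw [h, Matrix.det_permute', Matrix.det_one, mul_one]
    rcases Int.units_eq_one_or (Equiv.Perm.sign (finRotate (n + 1))) with h | h <;> rw [h] <;> simp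

end V3_TP0

end Pool.Agent.MP_3f0e22_ag

namespace Pool.Agent.MP_3f0e22_ag

alias tens_mul := V3_TP0.tens_mul
alias tens_det := V3_TP0.tens_det
alias Xm_mul_Zm := V3_TP0.Xm_mul_Zm
alias Xm_det := V3_TP0.Xm_det
alias Zm_det := V3_TP0.Zm_det

end Pool.Agent.MP_3f0e22_ag
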