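import Pool.Agent.MP_3f0e22_ag.Defs3

set_option autoImplicit false

open Matrix

namespace Pool.Agent.MP_3f0e22_ag.V3_ZS1

open Pool.Agent.MP_3f0e22_ag

/-- powers of a matrix with zero columns outside of `s` -/
theorem pow_sub {E : Type} [Field E] {r : ℕ} (M : Mat r E) (s : Finset (Fin r))
    (hM : ∀ i j, j ∉ s → M i j = 0) (k : ℕ) :
    (M ^ (k + 1)).submatrix (fun i : s => (i : Fin r)) (fun i : s => (i : Fin r)) =
      (M.submatrix (fun i : s => (i : Fin r)) (fun i : s => (i : Fin r))) ^ (k + 1) := by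
  induction k with
  | zero => simp
  | succ k ih =>
    rw [pow_succ' M, pow_succ' (M.submatrix _ _), ← ih]
    ext i j
    rw [submatrix_apply, mul_apply, mul_apply]
    have h1 : ∑ l, M i l * (M ^ (k + 1)) l j = ∑ l ∈ s, M i l * (M ^ (k + 1)) l j := by
      symm
      apply Finset.sum_subset (Finset.subset_univ s)
      intro l _ hl
      rw [hM _ _ hl, zero_mul]
    rw [h1, ← Finset.sum_coe_sort s]
    rfl

/-- ZS1 -/
theorem eq_zero_of_charpoly {E : Type} [Field E] {r : ℕ} (α : Mat r E) (hα : PrinOK α)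
    (z : Fin r → E) (h : (α * diagonal z).charpoly = Polynomial.X ^ r) : z = 0 := by
  classical
  by_contra hz
  set s : Finset (Fin r) := Finset.univ.filter fun i => z i ≠ 0 with hs
  obtain ⟨i0, hi0⟩ : ∃ i, z i ≠ 0 := by
    by_contra hcon
    push Not at hcon
    exact hz (funext hcon)
  have hr : r ≠ 0 := by
    rintro rfl
    exact Fin.elim0 i0
  obtain ⟨k, rfl⟩ := Nat.exists_eq_succ_of_ne_zero hr
  have hnil : (α * diagonal z) ^ (k + 1) = 0 := by
    have h1 := Matrix.aeval_self_charpoly (α * diagonal z)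
    rw [h] at h1
    simpa using h1
  have hcol : ∀ i j, j ∉ s → (α * diagonal z) i j = 0 := by
    intro i j hj
    rw [hs, Finset.mem_filter, not_and, not_not] at hj
    rw [mul_diagonal, hj (Finset.mem_univ j), mul_zero]
  have h2 := pow_sub (α * diagonal z) s hcol k
  rw [hnil] at h2
  have h3 : ((α * diagonal z).submatrix (fun i : s => (i : Fin (k + 1)))
      (fun i : s => (i : Fin (k + 1)))).det = 0 := by
    have h4 := congrArg det h2
    rw [det_pow] at h4
    have hne : Nonempty s := ⟨⟨i0, by simp [hs, hi0]⟩⟩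
    have h5 : (submatrix (0 : Mat (k + 1) E) (fun i : s => (i : Fin (k + 1)))
        (fun i : s => (i : Fin (k + 1)))).det = 0 := by
      rw [submatrix_zero]
      exact det_zero
    have h6 : (0 : E) = _ := h5.symm.trans h4
    exact pow_eq_zero_iff (Nat.succ_ne_zero k) |>.1 h6.symm
  have h4 : ((α * diagonal z).submatrix (fun i : s => (i : Fin (k + 1)))
      (fun i : s => (i : Fin (k + 1)))) =
      (α.submatrix (fun i : s => (i : Fin (k + 1))) (fun i : s => (i : Fin (k + 1)))) *
        diagonal (fun i : s => z i) := by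
    ext i j
    rw [submatrix_apply, mul_diagonal, mul_diagonal, submatrix_apply]
  rw [h4, det_mul, det_diagonal] at h3
  rcases mul_eq_zero.1 h3 with h5 | h5
  · exact hα s h5
  · obtain ⟨i, -, hi⟩ := Finset.prod_eq_zero_iff.1 h5
    have h6 : (i : Fin (k + 1)) ∈ s := i.2
    exact (Finset.mem_filter.1 h6).2 hi

end Pool.Agent.MP_3f0e22_ag.V3_ZS1

namespace Pool.Agent.MP_3f0e22_ag

alias eq_zero_of_charpoly := V3_ZS1.eq_zero_of_charpoly

end Pool.Agent.MP_3f0e22_ag
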